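import Pool.Agent.PSat.Defs

/-!
# PSAT: targets (see Blueprint.lean.txt for the proofs)
-/

set_option autoImplicit false

open Complex Filter Topology Set
open Pool.Agent.Multibrot (MM)
open Pool.Agent.Limb (F)
open Pool.Agent.PLim (Rho IsBot IsLog Crit Dig Gm GWL Rot IsInt Label lab Ex Cod Per Lands InZ LabR
  Vreg ZVn ONTOn NCn OMXn SECTn LocFix)
open Pool.Agent.MEX (Exa LI)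
open Pool.Agent.MEY (Pt Omg DD Glob)

namespace Pool.Agent.PSat

/-! ### A. angles and words (degree two) -/

/-- PWR: powers and shifts. -/
def T_PWR : Prop := ∀ (k : ℕ) (θ : ℝ) (ε : ℕ → ℤ), 1 ≤ k → Per k ε →
  (∀ v : ℕ, Rot 2 (k * v) θ ε = v * Rot 2 k θ ε) ∧ ∀ i : ℕ, Rot 2 k θ (sh i ε) = Rot 2 k θ ε

/-- TLC: stability of the itineraries. -/
def T_TLC : Prop := ∀ (θ θ' x : ℝ) (η : ℕ → ℤ), θ ≤ θ' →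
  (∀ (t : ℕ) (s : ℤ), 1 ≤ t → ¬ (θ ≤ 2 ^ t * x + s ∧ 2 ^ t * x + s ≤ θ')) →
  (Cod 2 θ x η ↔ Cod 2 θ' x η)

/-- THB: the sets `Th K θ η`. -/
def T_THB : Prop := ∀ (K : ℕ) (θ : ℝ) (η : ℕ → ℤ), 1 ≤ K → Per K η →
  (∀ (x : ℝ) (m : ℤ), x + m ∈ Th K θ η ↔ x ∈ Th K θ η) ∧
  (∀ x : ℝ, (Th K θ η ∩ Icc x (x + 1)).Finite) ∧
  (∀ x ∈ Th K θ η, ∀ m : ℤ, x ≠ θ + m) ∧
  (∀ η' : ℕ → ℤ, Eq2 η η' → Th K θ η' = Th K θ η) ∧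
  (∀ η' : ℕ → ℤ, (Th K θ η ∩ Th K θ η').Nonempty → Eq2 η η') ∧
  (∀ x ∈ Th K θ η, ∀ (i : ℕ) (m : ℤ), 2 ^ i * x + m ∈ Th K θ (sh i η)) ∧
  (∀ y ∈ Th K θ (sh 1 η), Gm 2 θ (η 0) y ∈ Th K θ η ∧ IsInt (2 * Gm 2 θ (η 0) y - y)) ∧
  (∀ x ∈ Th K θ η, ∀ y : ℝ, IsInt (2 * x - y) → IsInt (Gm 2 θ (η 0) y - x)) ∧
  (∀ y ∈ Th K θ (sh 1 η), ∀ y' ∈ Th K θ (sh 1 η), y < y' → Gm 2 θ (η 0) y < Gm 2 θ (η 0) y') ∧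
  ∀ y y' : ℝ, Gap (Th K θ (sh 1 η)) y y' → Gap (Th K θ η) (Gm 2 θ (η 0) y) (Gm 2 θ (η 0) y')

/-- UNL: angles with different itineraries are unlinked. -/
def T_UNL : Prop := ∀ (K : ℕ) (θ : ℝ) (η η' : ℕ → ℤ) (x x' y y' : ℝ), ¬ Eq2 η η' →
  x ∈ Th K θ η → x' ∈ Th K θ η → y ∈ Th K θ η' → y' ∈ Th K θ η' →
  x < y → y < x' → x' < y' → y' < x + 1 → False

/-- SHG (from THB, UNL): the shortest gap. -/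
def T_SHG : Prop := ∀ (K : ℕ) (θ : ℝ) (η : ℕ → ℤ), 1 ≤ K → Per K η →
  (∃ x x' : ℝ, x ∈ Th K θ η ∧ x' ∈ Th K θ η ∧ x < x' ∧ x' < x + 1) →
  ∃ (i : ℕ) (u v : ℝ), i < K ∧ Gap (Th K θ (sh i η)) u v ∧ v - u ≤ 1 / 2 ∧ u < θ ∧ θ < v ∧
    (∀ (i' : ℕ) (u' v' : ℝ), Gap (Th K θ (sh i' η)) u' v' → v - u ≤ v' - u') ∧
    ∀ (i' : ℕ) (z : ℝ), z ∈ Th K θ (sh i' η) → ¬ (u < z ∧ z < v)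

/-- SNG (from THB, UNL, SHG): there is a single orbit. -/
def T_SNG : Prop := ∀ (k q : ℕ) (θ : ℝ) (ε : ℕ → ℤ), 1 ≤ k → 2 ≤ q → ExW k ε →
  (Th (k * q) θ ε).Nonempty → (∀ x ∈ Th (k * q) θ ε, ¬ IsP k x) →
  (∃ (i : ℕ) (u v : ℝ), Gap (Th (k * q) θ (sh i ε)) u v ∧ v - u ≤ 1 / 2 ∧ u < θ ∧ θ < v ∧
    ∀ (i' : ℕ) (z : ℝ), z ∈ Th (k * q) θ (sh i' ε) → ¬ (u < z ∧ z < v)) ∧
  ∀ x ∈ Th (k * q) θ ε, ∀ y ∈ Th (k * q) θ ε, ∃ t : ℕ, IsInt (2 ^ (k * t) * x - y)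

/-- RTH (from RI, RP, RS of PLIM, PWR, TLC): rotation numbers and periodic angles. -/
def T_RTH : Prop := ∀ (K : ℕ) (θ : ℝ) (η : ℕ → ℤ), 1 ≤ K → Per K η →
  ((Th K θ η).Nonempty → IsInt (Rot 2 K θ η)) ∧
  (IsInt (Rot 2 K θ η) → ¬ IsP K θ → (Th K θ η).Nonempty) ∧
  (IsInt (Rot 2 K θ η) → ∀ δ : ℝ, 0 < δ →
    ∃ θ' : ℝ, |θ' - θ| < δ ∧ ¬ IsP K θ' ∧ (Th K θ' η).Nonempty) ∧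
  (∀ η' : ℕ → ℤ, Eq2 η η' → (IsInt (Rot 2 K θ η') ↔ IsInt (Rot 2 K θ η))) ∧
  ∀ (k q : ℕ) (x : ℝ), K = k * q → 1 ≤ k → Per k η → x ∈ Th K θ η →
    (∀ v : ℕ, 0 < v → v < q → ¬ IsInt (v * Rot 2 k θ η)) →
    ∀ v : ℕ, 0 < v → v < q → ¬ IsP (k * v) x

/-- PLA (from THB, TLC, SNG, RTH, PWR, and RC, RS of PLIM): the plateau. -/
def T_PLA : Prop := ∀ (k q : ℕ) (ε : ℕ → ℤ) (R0 : ℝ), 1 ≤ k → 2 ≤ q → ExW k ε →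
  IsInt (q * R0) → (∀ v : ℕ, 0 < v → v < q → ¬ IsInt (v * R0)) →
  ∃ (a b : ℝ) (i m : ℕ), Pla k q ε R0 a b i m

/-- CGL (from TLC, RTH, PWR, and RC of PLIM): the flipped word. -/
def T_CGL : Prop := ∀ (k q : ℕ) (ε : ℕ → ℤ) (R0 a b : ℝ) (i m : ℕ), Pla k q ε R0 a b i m →
  ExW (k * q) (flp (k * q) (sh i ε)) ∧
  (∀ θ : ℝ, θ < a → (∀ (t : ℕ) (s : ℤ), ¬ (θ ≤ 2 ^ t * a + s ∧ 2 ^ t * a + s < a)) →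
    Cod 2 θ a (flp (k * q) (sh i ε))) ∧
  (∀ θ : ℝ, b < θ → (∀ (t : ℕ) (s : ℤ), ¬ (b < 2 ^ t * a + s ∧ 2 ^ t * a + s ≤ θ)) →
    Cod 2 θ b (flp (k * q) (sh i ε))) ∧
  IsInt (Rot 2 (k * q) a (flp (k * q) (sh i ε))) ∧ IsInt (Rot 2 (k * q) b (flp (k * q) (sh i ε)))

/-- CGP (from THB, UNL, SHG, TLC, RTH, CGL, PWR, and RC of PLIM): no periodic angle has the
flipped word. -/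
def T_CGP : Prop := ∀ (k q : ℕ) (ε : ℕ → ℤ) (R0 a b : ℝ) (i m : ℕ), Pla k q ε R0 a b i m →
  ∀ θ : ℝ, a < θ → θ < b → ¬ IsInt (Rot 2 (k * q) θ (flp (k * q) (sh i ε)))

/-- UNI (from RS, RINV of PLIM): the label determines the word. -/
def T_UNI : Prop := ∀ (K : ℕ) (θ : ℝ) (ω η : ℕ → ℤ), 1 ≤ K → Per K ω → Per K η →
  ¬ IsInt (Rot 2 K θ ω) → ¬ IsInt (Rot 2 K θ η) → lab 2 K θ ω = lab 2 K θ η → Eq2 η ω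

/-- CMB (from PLA, CGL, CGP, UNI, RTH, and RINV of PLIM). -/
def T_CMB : Prop := ∀ (k q : ℕ) (ε : ℕ → ℤ) (R0 : ℝ) (j0 : ℤ), 1 ≤ k → 2 ≤ q → ExW k ε →
  IsInt (q * R0) → (∀ v : ℕ, 0 < v → v < q → ¬ IsInt (v * R0)) → (j0 : ℝ) < R0 → R0 < j0 + 1 →
  ∃ (a b : ℝ) (m : ℕ) (ω : ℕ → ℤ) (l : Label 2 (k * q)), Cmb k q ε R0 j0 a b m ω l

/-- KPR (from RC of PLIM): the denominator of the rotation number at a periodic angle. -/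
def T_KPR : Prop := ∀ (k K : ℕ) (θ : ℝ) (ε : ℕ → ℤ), 1 ≤ k → 1 ≤ K → Per k ε → IsP K θ →
  ∃ M : ℕ, 1 ≤ M ∧ M ≤ K ∧ IsInt (M * Rot 2 k θ ε)

/-- FAR: separation of rational numbers. -/
def T_FAR : Prop := ∀ (q K M : ℕ) (R0 R : ℝ), 2 ≤ q → 1 ≤ M → M ≤ K → IsInt (q * R0) →
  IsInt (M * R) → R ≠ R0 → ∃ (u : ℤ) (v : ℕ), 1 ≤ v ∧ v ≤ K + 1 ∧ ¬ q ∣ v ∧
    ((R0 < u / v ∧ (u : ℝ) / v ≤ R) ∨ (R ≤ u / v ∧ (u : ℝ) / v < R0))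

/-- NRC (from RS, RINV of PLIM): normalization. -/
def T_NRC : Prop := ∀ (k : ℕ) (θ θ' : ℝ) (ε ε' : ℕ → ℤ), 1 ≤ k → Per k ε → Per k ε' →
  lab 2 k θ ε = lab 2 k θ' ε' →
  ∃ m : ℤ, Eq2 (fun t => ε' t - m) ε ∧ ⌊Rot 2 k (θ' + m) ε⌋ = ⌊Rot 2 k θ ε⌋ ∧
    ∀ v : ℕ, 1 ≤ v → lab 2 (k * v) (θ' + m) ε = lab 2 (k * v) θ' ε'

/-- LFC (from PWR, and RS of PLIM): comparison of labels. -/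
def T_LFC : Prop := ∀ (k v : ℕ) (θ θ' : ℝ) (ε : ℕ → ℤ), 1 ≤ k → 1 ≤ v → Per k ε →
  ⌊Rot 2 k θ ε⌋ = ⌊Rot 2 k θ' ε⌋ → lab 2 (k * v) θ ε = lab 2 (k * v) θ' ε →
  ⌊(v : ℝ) * Rot 2 k θ ε⌋ = ⌊(v : ℝ) * Rot 2 k θ' ε⌋

/-! ### B. outside the Mandelbrot set -/

/-- DSH (from BR, GREEN of PLIM): the logarithmic coordinate and the digits. -/
def T_DSH : Prop := ∀ (Λ : ℂ → ℂ → ℂ) (lh ls : ℂ → ℂ → ℂ → ℂ) (c ζ : ℂ), IsBot 2 Λ →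
  IsLog 2 Λ lh ls → Crit 2 Λ c ζ →
  (∀ m : ℤ, Crit 2 Λ c (ζ + 2 * Real.pi * I * m)) ∧
  (∀ ζ' : ℂ, Crit 2 Λ c ζ' → ∃ m : ℤ, ζ' = ζ + 2 * Real.pi * I * m) ∧
  (∀ (K : ℕ) (z : ℂ) (m i : ℤ), 1 ≤ K → (F 2 c)^[K] z = z →
    (Dig 2 lh c (ζ + 2 * Real.pi * I * m) z i ↔ Dig 2 lh c ζ z (i + m))) ∧
  ∀ (K : ℕ) (z : ℂ) (i j : ℤ), 1 ≤ K → (F 2 c)^[K] z = z → Dig 2 lh c ζ z i →
    (Dig 2 lh c ζ z j ↔ (2 : ℤ) ∣ i - j)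

/-- DLC (from FIXE, BR, PHI', GREEN of PLIM): the digits are locally constant. -/
def T_DLC : Prop := ∀ (K : ℕ) (Λ : ℂ → ℂ → ℂ) (lh ls : ℂ → ℂ → ℂ → ℂ) (c1 ζ1 z1 : ℂ)
  (η : ℕ → ℤ) (e : ℝ), 1 ≤ K → IsBot 2 Λ → IsLog 2 Λ lh ls → Crit 2 Λ c1 ζ1 →
  (F 2 c1)^[K] z1 = z1 → (∀ j : ℕ, Dig 2 lh c1 ζ1 ((F 2 c1)^[j] z1) (η j)) → 0 < e →
  ∃ δ : ℝ, 0 < δ ∧ ∀ c z : ℂ, ‖c - c1‖ < δ → ‖z - z1‖ < δ → (F 2 c)^[K] z = z →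
    ∃ ζ : ℂ, ‖ζ - ζ1‖ < e ∧ Crit 2 Λ c ζ ∧ ∀ j : ℕ, Dig 2 lh c ζ ((F 2 c)^[j] z) (η j)

/-- IZE (from DSH, and RS, RINV, FIXE of PLIM): `InZ` and `LabR` in terms of one coordinate. -/
def T_IZE : Prop := ∀ (K : ℕ) (Λ : ℂ → ℂ → ℂ) (lh ls : ℂ → ℂ → ℂ → ℂ) (c ζ z : ℂ) (η : ℕ → ℤ),
  1 ≤ K → IsBot 2 Λ → IsLog 2 Λ lh ls → Crit 2 Λ c ζ → (F 2 c)^[K] z = z → Per K η →
  (∀ j : ℕ, Dig 2 lh c ζ ((F 2 c)^[j] z) (η j)) →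
  (InZ 2 K Λ lh c z ↔ IsInt (Rot 2 K (an ζ) η)) ∧
  ∀ l : Label 2 K, LabR 2 K Λ lh c z l ↔
    ¬ IsInt (Rot 2 K (an ζ) η) ∧ lab 2 K (an ζ) η = l

/-- INZ (from DISPE, GREEN of PLIM): rays of period `K` at repelling points, and their images. -/
def T_INZ : Prop := ∀ (K : ℕ) (Λ : ℂ → ℂ → ℂ) (lh : ℂ → ℂ → ℂ → ℂ) (c z : ℂ) (α : ℝ), 1 ≤ K →
  IsBot 2 Λ → c ∈ MM 2 → Lands Λ c α z →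
  (∀ j : ℕ, Lands Λ c (2 ^ j * α) ((F 2 c)^[j] z)) ∧
  (IsP K α → (F 2 c)^[K] z = z → 1 < ‖Rho 2 K c z‖ → InZ 2 K Λ lh c z)

/-- LKV (from LU, LOP of PLIM): no ray of period `k v` lands at `χ μ`. -/
def T_LKV : Prop := ∀ X : Ctx, Dt X → Cst X.C1 → ∀ v : ℕ, 1 ≤ v → v ≤ X.K + 1 → ¬ X.q ∣ v →
  (∀ μ ∈ Metric.ball X.m0 X.ρ, 0 < μ.re → ¬ InZ 2 (X.k * v) X.Λ X.lh (X.ψ μ) (X.χ μ)) ∧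
  ∃ l : Label 2 (X.k * v), ∀ μ ∈ Metric.ball X.m0 X.ρ, 0 < μ.re →
    LabR 2 (X.k * v) X.Λ X.lh (X.ψ μ) (X.χ μ) l

/-- VPR (from ZOP, LU, LOP of PLIM): the set `V`. -/
def T_VPR : Prop := ∀ X : Ctx, Dt X → Cst X.C1 →
  (∀ μ ∈ X.V, ‖μ - X.m0‖ ^ 2 ≤ X.C1 * X.k * μ.re) ∧
  (∀ μ ∈ X.V, X.ψ μ ∈ MM 2 → ∃ δ : ℝ, 0 < δ ∧ Metric.ball μ δ ⊆ X.V) ∧
  ∀ μ ∈ X.B, μ ∉ X.V → ∃ δ : ℝ, 0 < δ ∧ ∀ ν ∈ Metric.ball μ δ, ν ∉ X.V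

/-- NRM (from VEX, LKV, CMB, KPR, FAR, NRC, LFC, TLC, DSH, IZE, and FIXE, RC of PLIM): the full
data. -/
def T_NRM : Prop := ∀ X : Ctx, Dt X → Cst X.C1 → ∃ Y : Full, Y.toCtx = X ∧ Ok Y

/-- XTU (from DSH, and RS of PLIM): uniqueness of the normalized coordinate. -/
def T_XTU : Prop := ∀ X : Full, Ok X → ∀ μ ζ ζ' : ℂ, Xt X μ ζ → Xt X μ ζ' → ζ = ζ'

/-! ### C. the bifurcation -/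

/-- KBD: a priori bounds. -/
def T_KBD : Prop := ∀ (K : ℕ) (c z : ℂ), 1 ≤ K → ‖c‖ ≤ 16 → (F 2 c)^[K] z = z →
  ‖z‖ ≤ 5 ∧ ‖Rho 2 K c z‖ ≤ 10 ^ K

/-- KFC (from KBD): the fixed points depend continuously on the parameter. -/
def T_KFC : Prop := ∀ X : Ctx, Dt X → ∀ μ1 ∈ Metric.ball X.m0 X.ρ, ∀ e : ℝ, 0 < e →
  ∃ δ : ℝ, 0 < δ ∧ ∀ μ z : ℂ, ‖μ - μ1‖ < δ → X.Fx μ z → ∃ z' : ℂ, X.Fx μ1 z' ∧ ‖z - z'‖ < e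

/-- NFN (from FINF of PLIM): multipliers one are isolated. -/
def T_NFN : Prop := ∀ X : Ctx, Dt X → ∀ μ1 ∈ Metric.ball X.m0 X.ρ, ∃ δ : ℝ, 0 < δ ∧
  ∀ μ : ℂ, μ ≠ μ1 → ‖μ - μ1‖ < δ → X.NF μ

/-- LBA (from HHE, SEC0 of PLIM): the bifurcating points as a graph over `z`. -/
def T_LBA : Prop := ∀ X : Ctx, Dt X → ∃ (r : ℝ) (g E : ℂ → ℂ), 0 < r ∧
  DifferentiableOn ℂ g (Metric.ball (X.χ X.m0) r) ∧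
  DifferentiableOn ℂ E (Metric.ball (X.χ X.m0) r) ∧ g (X.χ X.m0) = X.m0 ∧
  E (X.χ X.m0) = X.q ∧ (∀ z ∈ Metric.ball (X.χ X.m0) r, g z ∈ Metric.ball X.m0 X.ρ ∧
    X.Fx (g z) z ∧ X.rh (g z) z - 1 = -((z - X.χ (g z)) * deriv g z * E z)) ∧
  ∃ δ : ℝ, 0 < δ ∧ ∀ μ z : ℂ, ‖μ - X.m0‖ < δ → ‖z - X.χ X.m0‖ < δ → X.Fx μ z →
    z = X.χ μ ∨ (z ∈ Metric.ball (X.χ X.m0) r ∧ g z = μ)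

/-- LBB (from LBA, KFC, and ATU of PLIM): the order of the bifurcation. -/
def T_LBB : Prop := ∀ X : Ctx, Dt X → ∀ (r : ℝ) (g E : ℂ → ℂ), 0 < r →
  DifferentiableOn ℂ g (Metric.ball (X.χ X.m0) r) →
  DifferentiableOn ℂ E (Metric.ball (X.χ X.m0) r) → g (X.χ X.m0) = X.m0 →
  E (X.χ X.m0) = X.q → (∀ z ∈ Metric.ball (X.χ X.m0) r, g z ∈ Metric.ball X.m0 X.ρ ∧
    X.Fx (g z) z ∧ X.rh (g z) z - 1 = -((z - X.χ (g z)) * deriv g z * E z)) →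
  (∃ δ : ℝ, 0 < δ ∧ ∀ μ z : ℂ, ‖μ - X.m0‖ < δ → ‖z - X.χ X.m0‖ < δ → X.Fx μ z →
    z = X.χ μ ∨ (z ∈ Metric.ball (X.χ X.m0) r ∧ g z = μ)) →
  ∃ (r' : ℝ) (φ : ℂ → ℂ), 0 < r' ∧ r' ≤ r ∧
    DifferentiableOn ℂ φ (Metric.ball (X.χ X.m0) r') ∧ InjOn φ (Metric.ball (X.χ X.m0) r') ∧
    φ (X.χ X.m0) = 0 ∧
    (∀ z ∈ Metric.ball (X.χ X.m0) r', g z = X.m0 + φ z ^ X.q ∧
      (z ≠ X.χ X.m0 → Exa 2 X.K (X.ψ (g z)) z)) ∧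
    ∀ z ∈ Metric.ball (X.χ X.m0) r', ∀ z' ∈ Metric.ball (X.χ X.m0) r', z ≠ X.χ X.m0 →
      z' ≠ X.χ X.m0 → g z = g z' → ∃ j : ℕ, (F 2 (X.ψ (g z)))^[j] z = z'

/-- LBC (from LBA, LBB): the bifurcating cycle and its multiplier. -/
def T_LBC : Prop := ∀ X : Ctx, Dt X → ∀ e : ℝ, 0 < e →
  ∃ (R r : ℝ) (g L : ℂ → ℂ), R ≤ e ∧ r ≤ e ∧ Bif X R r g L

/-- HLF: a nonnegative real part near a point. -/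
def T_HLF : Prop := ∀ (a : ℂ) (D R : ℝ) (L h : ℂ → ℂ), 0 < D → 0 < R →
  DifferentiableOn ℂ L (Metric.ball a R) → DifferentiableOn ℂ h (Metric.ball a R) → L a = 1 →
  deriv L a = -(D : ℂ) → h a = 0 → (∀ x ∈ Metric.ball a R, x.re < a.re → 0 ≤ (h x).re) →
  (∀ x ∈ Metric.ball a R, ‖L x‖ < 1 → 0 ≤ (h x).re) → ∀ x ∈ Metric.ball a R, h x = 0

/-- SUM: the sum of the logarithms of the multipliers near a point of multiplier one. -/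
def T_SUM : Prop := ∀ X : Ctx, Dt X → ∀ (P : ℂ → ℂ → Prop) (μ1 z1 : ℂ) (δ0 e : ℝ),
  μ1 ∈ Metric.ball X.m0 X.ρ → X.Fx μ1 z1 → X.rh μ1 z1 = 1 → 0 < δ0 → 0 < e →
  (∀ μ z : ℂ, μ ≠ μ1 → ‖μ - μ1‖ < δ0 → ‖z - z1‖ < δ0 → X.Fx μ z →
    X.rh μ z ≠ 1 ∧ LCp X P μ z) →
  ∃ (δ δ1 : ℝ) (h : ℂ → ℂ), 0 < δ ∧ δ ≤ e ∧ 0 < δ1 ∧ δ1 ≤ e ∧
    DifferentiableOn ℂ h (Metric.ball μ1 δ) ∧ h μ1 = 0 ∧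
    (∀ μ ∈ Metric.ball μ1 δ, μ ≠ μ1 → ∃ S : Finset ℂ,
      (∀ z : ℂ, z ∈ S ↔ ‖z - z1‖ < δ1 ∧ X.Fx μ z ∧ P μ z) ∧
      (h μ).re = ∑ z ∈ S, Real.log ‖X.rh μ z‖) ∧
    ∀ μ ∈ Metric.ball μ1 δ, ∃ z : ℂ, ‖z - z1‖ < δ1 ∧ X.Fx μ z

/-- MPL (from SUM): the minimum principle. -/
def T_MPL : Prop := ∀ X : Ctx, Dt X → ∀ (P : ℂ → ℂ → Prop) (μ1 z1 : ℂ) (δ0 : ℝ),
  μ1 ∈ Metric.ball X.m0 X.ρ → X.Fx μ1 z1 → X.rh μ1 z1 = 1 → 0 < δ0 →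
  (∀ μ z : ℂ, μ ≠ μ1 → ‖μ - μ1‖ < δ0 → ‖z - z1‖ < δ0 → X.Fx μ z →
    X.rh μ z ≠ 1 ∧ LCp X P μ z ∧ (P μ z → 1 < ‖X.rh μ z‖)) →
  ∃ δ : ℝ, 0 < δ ∧ ∀ μ z : ℂ, μ ≠ μ1 → ‖μ - μ1‖ < δ → ‖z - z1‖ < δ → X.Fx μ z → ¬ P μ z

/-- RP0 (from HLF, SUM, NFN, and ATU, TRANS, LOCZ of PLIM): the other points are repelling at the
root. -/
def T_RP0 : Prop := ∀ X : Ctx, Dt X → ∀ (R r : ℝ) (g L : ℂ → ℂ), Bif X R r g L →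
  ∀ z : ℂ, X.Fx X.m0 z →
    (∃ j : ℕ, (F 2 (X.ψ X.m0))^[j] (X.χ X.m0) = z) ∨ 1 < ‖X.rh X.m0 z‖

/-- VPS (from LBC, VPR, and OMC, OMX, MMA, DISPE of PLIM): points of `V` near `m0`. -/
def T_VPS : Prop := ∀ X : Ctx, Dt X → Cst X.C1 → ∃ s0 : ℝ, 0 < s0 ∧ ∀ s : ℝ, 0 < s → s < s0 →
  X.m0 + s ∈ X.V ∧ X.ψ (X.m0 + s) ∈ MM 2

/-- VEX (from VPS, VPR): points of `V` near `m0` outside the Mandelbrot set. -/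
def T_VEX : Prop := ∀ X : Ctx, Dt X → Cst X.C1 → ∀ e : ℝ, 0 < e →
  ∃ μ ∈ X.V, ‖μ - X.m0‖ < e ∧ X.ψ μ ∉ MM 2

/-! ### D. global sections for one period -/

/-- LFF (adapt MEY/LFT.lean). -/
def T_LFF : Prop := ∀ (n k N : ℕ) (κ : ℝ), 2 ≤ n → 1 ≤ k → LI (Omg N κ) → GODf n k N κ →
  ∀ (c z μ0 : ℂ), μ0 ∈ Omg N κ → Pt n k c z (exp μ0) →
  ∃ ψ χ : ℂ → ℂ, Pool.Agent.MEY.Sec n k (Omg N κ) ψ χ ∧ ψ μ0 = c ∧ χ μ0 = z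

/-- LUF (adapt MEY/LUQ.lean). -/
def T_LUF : Prop := ∀ (n k N : ℕ) (κ : ℝ), 2 ≤ n → 1 ≤ k → GODf n k N κ →
  ∀ (W : Set ℂ) (ψ χ ψ' χ' : ℂ → ℂ) (μ0 : ℂ), IsPreconnected W → W ⊆ Omg N κ →
  ContinuousOn ψ W → ContinuousOn χ W → ContinuousOn ψ' W → ContinuousOn χ' W →
  (∀ μ ∈ W, Pt n k (ψ μ) (χ μ) (exp μ)) → (∀ μ ∈ W, Pt n k (ψ' μ) (χ' μ) (exp μ)) → μ0 ∈ W →
  ψ μ0 = ψ' μ0 → χ μ0 = χ' μ0 → EqOn ψ ψ' W ∧ EqOn χ χ' W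

/-- GBF (from LFF, LUF, and OMG, CEN of MEY; adapt MEY/GLB.lean). -/
def T_GBF : Prop := ∀ (n k N : ℕ) (κ : ℝ), 2 ≤ n → 1 ≤ k → 0 < κ → GODf n k N κ →
  ∀ c : ℂ, Pt n k c 0 0 → ∃ Ψ X : ℂ → ℂ, Glob n k N κ c Ψ X

/-- CPF (from LFF, LUF, and OMG, DDO, CEN of MEY, CNT of PLIM; adapt MEY/CMP.lean). -/
def T_CPF : Prop := ∀ (n k N : ℕ) (κ : ℝ), 2 ≤ n → 1 ≤ k → 0 < κ → GODf n k N κ →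
  ∀ (c z μ : ℂ), μ ∈ Omg N κ → Pt n k c z (exp μ) → ∃ c0 : ℂ, Pt n k c0 0 0 ∧
  ∀ Ψ X : ℂ → ℂ, Glob n k N κ c0 Ψ X → ∃ v ∈ DD n N κ, v ≠ 0 ∧ Ψ v = c ∧
    ∃ j : ℕ, (F n c)^[j] (X v) = z

/-- GD1 (from TRANS, BIG, LOCZ of PLIM): regularity for one period. -/
def T_GD1 : Prop := ∀ (C : ℝ) (K : ℕ), 1 ≤ C → 1 ≤ K → NCn 2 C → GODf 2 K 1 (1 / (C * K))

/-- GEX (from GD1, GBF, CPF): global sections through the nonrepelling points. -/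
def T_GEX : Prop := ∀ (C : ℝ) (K : ℕ) (c z : ℂ), 1 ≤ C → 1 ≤ K → NCn 2 C →
  (F 2 c)^[K] z = z → Exa 2 K c z → ‖Rho 2 K c z‖ ≤ 1 → Rho 2 K c z ≠ 1 →
  ∃ (c0 : ℂ) (Ψ Z : ℂ → ℂ), Glob 2 K 1 (1 / (C * K)) c0 Ψ Z ∧
    Rho 2 K c z ∈ DD 2 1 (1 / (C * K)) ∧ Ψ (Rho 2 K c z) = c ∧
    ∃ j : ℕ, (F 2 c)^[j] (Z (Rho 2 K c z)) = z

/-- GNB (from LOCZ of PLIM): the points near a global section. -/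
def T_GNB : Prop := ∀ (K : ℕ) (κ : ℝ) (c0 : ℂ) (Ψ Z : ℂ → ℂ) (w1 : ℂ) (j : ℕ) (e : ℝ), 1 ≤ K →
  0 < κ → GODf 2 K 1 κ → Glob 2 K 1 κ c0 Ψ Z → w1 ∈ DD 2 1 κ → 0 < e →
  ∃ δ : ℝ, 0 < δ ∧ ∀ c z : ℂ, ‖c - Ψ w1‖ < δ → ‖z - (F 2 (Ψ w1))^[j] (Z w1)‖ < δ →
    (F 2 c)^[K] z = z → Rho 2 K c z ∈ DD 2 1 κ ∧ ‖Rho 2 K c z - w1‖ < e ∧
    Ψ (Rho 2 K c z) = c ∧ (F 2 c)^[j] (Z (Rho 2 K c z)) = z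

/-- SM2 (from LUF, GNB, and OMG, DDO of MEY): uniqueness of global sections. -/
def T_SM2 : Prop := ∀ (K : ℕ) (κ : ℝ) (c0 c0' : ℂ) (Ψ Z Ψ' Z' : ℂ → ℂ) (w : ℂ) (j : ℕ), 1 ≤ K →
  0 < κ → GODf 2 K 1 κ → Glob 2 K 1 κ c0 Ψ Z → Glob 2 K 1 κ c0' Ψ' Z' → w ∈ DD 2 1 κ →
  Ψ w = Ψ' w → (F 2 (Ψ w))^[j] (Z w) = Z' w →
  ∀ v ∈ DD 2 1 κ, Ψ' v = Ψ v ∧ Z' v = (F 2 (Ψ v))^[j] (Z v)

/-- ULB (from LU, CNT of PLIM): uniqueness of the points with a given label and multiplier. -/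
def T_ULB : Prop := ∀ (n k : ℕ) (C : ℝ) (Λ : ℂ → ℂ → ℂ) (lh ls : ℂ → ℂ → ℂ → ℂ) (l : Label n k)
  (μ c z c' z' : ℂ), 2 ≤ n → 1 ≤ k → 1 ≤ C → ONTOn n C → IsBot n Λ → IsLog n Λ lh ls →
  μ ∈ Vreg (1 / (C * k)) → (F n c)^[k] z = z → Rho n k c z = exp μ → LabR n k Λ lh c z l →
  (F n c')^[k] z' = z' → Rho n k c' z' = exp μ → LabR n k Λ lh c' z' l → c = c' ∧ z = z'

/-- GLL (from LU, LOP of PLIM): the labels are constant on a global section. -/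
def T_GLL : Prop := ∀ (C : ℝ) (K : ℕ) (Λ : ℂ → ℂ → ℂ) (lh ls : ℂ → ℂ → ℂ → ℂ) (c0 : ℂ)
  (Ψ Z : ℂ → ℂ), 1 ≤ C → 1 ≤ K → ZVn 2 C → IsBot 2 Λ → IsLog 2 Λ lh ls →
  Glob 2 K 1 (1 / (C * K)) c0 Ψ Z → ∀ i : ℕ, ∃ l : Label 2 K, ∀ ν ∈ Omg 1 (1 / (C * K)),
    0 < ν.re → 0 < ν.im → ν.im < 2 * Real.pi →
    LabR 2 K Λ lh (Ψ (exp ν)) ((F 2 (Ψ (exp ν)))^[i] (Z (exp ν))) l

/-- UCN (from GLL, ULB, SM2, GD1): the global section with the label `l` is unique. -/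
def T_UCN : Prop := ∀ X : Full, Ok X → ∀ (c0 c0' : ℂ) (Ψ Z Ψ' Z' : ℂ → ℂ),
  Glob 2 X.K 1 X.kp c0 Ψ Z → Glob 2 X.K 1 X.kp c0' Ψ' Z' → HasL X Ψ Z → HasL X Ψ' Z' →
  ∃ j : ℕ, ∀ v ∈ DD 2 1 X.kp, Ψ' v = Ψ v ∧ Z' v = (F 2 (Ψ v))^[j] (Z v)

/-! ### E. the continuation of the cycle -/

/-- SBI: invariance under the dynamics. -/
def T_SBI : Prop := ∀ X : Full, Ok X → ∀ μ z : ℂ, μ ∈ X.B → X.Fx μ z →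
  (Sb X μ z ↔ Sb X μ (F 2 (X.ψ μ) z))

/-- EXL (from DLC, XTU, DSH, and PAR, RC of PLIM): inside `V` the angle is not at the end. -/
def T_EXL : Prop := ∀ X : Full, Ok X → ∀ μ1 ∈ X.V, X.ψ μ1 ∈ MM 2 → ∃ δ : ℝ, 0 < δ ∧
  ∀ μ ∈ Metric.ball μ1 δ, ∀ ζ : ℂ, Xt X μ ζ → X.a < an ζ ∧ an ζ < X.b

/-- EXV (from IZE, XTU, DSH, and FIXE of PLIM): outside the Mandelbrot set, in `V`. -/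
def T_EXV : Prop := ∀ X : Full, Ok X → ∀ μ ζ z : ℂ, Xt X μ ζ → X.a < an ζ → an ζ < X.b →
  X.Fx μ z →
  (Sb X μ z ↔ ∃ j : ℕ, LabR 2 X.K X.Λ X.lh (X.ψ μ) ((F 2 (X.ψ μ))^[j] z) X.l)

/-- SBA (from DLC, DSH, XTU, and FIXE, RC of PLIM): local constancy outside the Mandelbrot set. -/
def T_SBA : Prop := ∀ X : Full, Ok X → ∀ μ1 z1 : ℂ, μ1 ∈ X.B → X.Fx μ1 z1 →
  X.ψ μ1 ∉ MM 2 → LCp X.toCtx (Sb X) μ1 z1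

/-- SBB (from VPR, XTU, DSH, and ST1, ST2, SNAIL, FIXE, IE of PLIM, LAND of LIMB): local constancy
outside `V`. -/
def T_SBB : Prop := ∀ X : Full, Ok X → ∀ μ1 z1 : ℂ, μ1 ∈ X.B → X.NF μ1 → X.Fx μ1 z1 →
  X.ψ μ1 ∈ MM 2 → μ1 ∉ X.V → LCp X.toCtx (Sb X) μ1 z1

/-- SBC (from VPR, EXL, EXV, and LU, LOP, ZOP of PLIM): local constancy in `V`, repelling case. -/
def T_SBC : Prop := ∀ X : Full, Ok X → ∀ μ1 z1 : ℂ, μ1 ∈ X.B → X.Fx μ1 z1 →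
  X.ψ μ1 ∈ MM 2 → μ1 ∈ X.V → 1 < ‖X.rh μ1 z1‖ → LCp X.toCtx (Sb X) μ1 z1

/-- SBD (from VPR, EXL, EXV, GD1, GEX, GNB, SM2, GLL, and LU of PLIM): local constancy in `V`,
nonrepelling case. -/
def T_SBD : Prop := ∀ X : Full, Ok X → ∀ μ1 z1 : ℂ, μ1 ∈ X.B → X.Fx μ1 z1 →
  X.rh μ1 z1 ≠ 1 → X.ψ μ1 ∈ MM 2 → μ1 ∈ X.V → ‖X.rh μ1 z1‖ ≤ 1 → LCp X.toCtx (Sb X) μ1 z1

/-- SBL (from SBA, SBB, SBC, SBD): local constancy. -/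
def T_SBL : Prop := ∀ X : Full, Ok X → ∀ μ1 z1 : ℂ, μ1 ∈ X.B → X.NF μ1 → X.Fx μ1 z1 →
  LCp X.toCtx (Sb X) μ1 z1

/-- NR0 (from SBL, SBI, KFC, NFN, RP0, VPR, VPS, VEX, and FIXE, LU, LOP, ZOP, DISPE, LOCZ of
PLIM): near the root the points are those of the bifurcating cycle. -/
def T_NR0 : Prop := ∀ X : Full, Ok X → ∀ (R r : ℝ) (g L : ℂ → ℂ), Bif X.toCtx R r g L →
  ∃ δ : ℝ, 0 < δ ∧ ∀ μ z : ℂ, μ ≠ X.m0 → ‖μ - X.m0‖ < δ → X.Fx μ z →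
    (Sb X μ z ↔ Bc X.toCtx r g μ z)

/-- CLR (from NR0, UCN, and FIXE of PLIM): the nonrepelling points with multipliers near one on
the global section with label `l` come from the bifurcating cycle. -/
def T_CLR : Prop := ∀ X : Full, Ok X → ∀ (R r : ℝ) (g L : ℂ → ℂ), Bif X.toCtx R r g L →
  ∀ (c0 : ℂ) (Ψ Z : ℂ → ℂ), Glob 2 X.K 1 X.kp c0 Ψ Z → HasL X Ψ Z → ∀ e : ℝ, 0 < e →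
  ∃ δ : ℝ, 0 < δ ∧ ∀ w : ℂ, ‖w - 1‖ < δ → ‖w‖ ≤ 1 → w ≠ 1 → ∃ μ : ℂ, μ ≠ X.m0 ∧
    ‖μ - X.m0‖ < e ∧ Ψ w = X.ψ μ ∧ Bc X.toCtx r g μ (Z w)

/-- MPV (from MPL, SBL, NFN, VPR, EXL, NR0, CLR, UCN, SBI, and LU, DISPE, FIXE of PLIM): no
points near the points of multiplier one. -/
def T_MPV : Prop := ∀ X : Full, Ok X → ∀ μ1 z1 : ℂ, μ1 ∈ X.B → X.Fx μ1 z1 → X.rh μ1 z1 = 1 →
  ∃ δ : ℝ, 0 < δ ∧ ∀ μ z : ℂ, μ ≠ μ1 → ‖μ - μ1‖ < δ → ‖z - z1‖ < δ → X.Fx μ z → ¬ Sb X μ z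

/-- LCF (from SBL, MPV, KFC, NFN, and LOCZ of PLIM): local branches. -/
def T_LCF : Prop := ∀ X : Full, Ok X → ∀ μ1 ∈ X.B, ∃ (δ : ℝ) (S : Finset ℂ) (f : ℂ → ℂ → ℂ),
  0 < δ ∧ Metric.ball μ1 δ ⊆ X.B ∧
  (∀ s ∈ S, X.Fx μ1 s ∧ X.rh μ1 s ≠ 1 ∧ Exa 2 X.K (X.ψ μ1) s ∧ f s μ1 = s ∧
    DifferentiableOn ℂ (f s) (Metric.ball μ1 δ)) ∧
  (∀ s ∈ S, ∀ s' ∈ S, ∀ μ ∈ Metric.ball μ1 δ, f s μ = f s' μ → s = s') ∧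
  (∀ s ∈ S, ∀ μ ∈ Metric.ball μ1 δ, X.Fx μ (f s μ) ∧ Exa 2 X.K (X.ψ μ) (f s μ) ∧
    X.rh μ (f s μ) ≠ 1) ∧
  ∀ μ ∈ Metric.ball μ1 δ, μ ≠ μ1 → ∀ z : ℂ, Sb X μ z ↔ ∃ s ∈ S, f s μ = z

/-- ROT (from NRM, LBC, LCF, SBI, NR0, RP0, KFC, KBD): the continuation of the bifurcating cycle
over the disc. -/
def T_ROT : Prop := ∀ X : Ctx, Dt X → Cst X.C1 → ∃ (L : ℂ → ℂ) (T : ℂ → Finset ℂ), Root X L T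

/-! ### F. the final theorem -/

/-- CST (constants of PLIM, Main4.lean). -/
def T_CST : Prop := ∃ C : ℝ, 1 ≤ C ∧ Cst C

/-- MKD (from BOT, LOG, LOCZ of PLIM): the data. -/
def T_MKD : Prop := ∀ (C : ℝ) (k p q : ℕ) (r0 z0 : ℂ), 1 ≤ C → Cst C → 1 ≤ k → 0 < p → p < q →
  p.Coprime q → Pt 2 k r0 z0 (exp (2 * Real.pi * I * p / q)) →
  ∃ X : Ctx, X.C1 = C ∧ X.k = k ∧ X.p = p ∧ X.q = q ∧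
    X.ρ = 1 / (400 * C * k * q ^ 2 * (k * q + 1) ^ 2) ∧ X.ψ X.m0 = r0 ∧ X.χ X.m0 = z0 ∧ Dt X

/-- BCI: a quantitative inverse function. -/
def T_BCI : Prop := ∃ c0 : ℝ, 0 < c0 ∧ c0 ≤ 1 / 4 ∧ ∀ (a : ℂ) (ρ D A : ℝ) (L : ℂ → ℂ), 0 < ρ →
  0 < D → D * ρ ≤ 1 → 1 ≤ A → DifferentiableOn ℂ L (Metric.ball a ρ) → L a = 1 →
  deriv L a = -(D : ℂ) → (∀ x ∈ Metric.ball a ρ, ‖L x‖ ≤ Real.exp A) →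
  (∀ x ∈ Metric.ball a ρ, x ≠ a → L x ≠ 1) →
  ∃ g : ℂ → ℂ, g 0 = a ∧
    DifferentiableOn ℂ g (Metric.ball 0 (c0 * (D * ρ) / (A + Real.log (1 / (D * ρ))))) ∧
    ∀ ν ∈ Metric.ball (0 : ℂ) (c0 * (D * ρ) / (A + Real.log (1 / (D * ρ)))),
      g ν ∈ Metric.ball a ρ ∧ L (g ν) = exp ν ∧ deriv g ν ≠ 0 ∧ (ν ≠ 0 → g ν ≠ a)

/-- LFC2: sections of a finite covering over a convex set. -/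
def T_LIFC : Prop := ∀ (U : Set ℂ) (T : ℂ → Finset ℂ) (N : ℕ), IsOpen U → Convex ℝ U →
  (∀ u ∈ U, (T u).card = N) →
  (∀ u ∈ U, ∀ z ∈ T u, ∃ (δ : ℝ) (f : ℂ → ℂ), 0 < δ ∧ ContinuousOn f (Metric.ball u δ) ∧
    f u = z ∧ ∀ u' ∈ Metric.ball u δ ∩ U, f u' ∈ T u') →
  ∀ u0 ∈ U, ∀ z0 ∈ T u0, ∃ f : ℂ → ℂ, ContinuousOn f U ∧ f u0 = z0 ∧ ∀ u ∈ U, f u ∈ T u

/-- IDN (from KFC, and BCI, ATU of PLIM): identification with the parametrization of the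
component. -/
def T_IDN : Prop := ∀ X : Ctx, Dt X → ∀ (L : ℂ → ℂ) (T : ℂ → Finset ℂ), Root X L T →
  ∀ (g : ℂ → ℂ) (R : ℝ), 0 < R → R ≤ 1 → g 0 = X.m0 → DifferentiableOn ℂ g (Metric.ball 0 R) →
  (∀ ν ∈ Metric.ball (0 : ℂ) R, g ν ∈ Metric.ball X.m0 X.ρ ∧ L (g ν) = exp ν ∧
    deriv g ν ≠ 0) →
  ∀ P : ℂ → ℂ, Comp X.K P → Tendsto P (𝓝[Metric.ball 0 1] 1) (𝓝 (X.ψ X.m0)) →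
  ∀ ν ∈ Metric.ball (0 : ℂ) R, ν.re < 0 → P (exp ν) = X.ψ (g ν)

/-- The section near the root, as a function of the logarithm of the multiplier. -/
structure SecR (K : ℕ) (R : ℝ) (r0 : ℂ) (Q Z : ℂ → ℂ) : Prop where
  dQ : DifferentiableOn ℂ Q (Metric.ball 0 R)
  Q0 : Q 0 = r0
  dn : ∀ ν ∈ Metric.ball (0 : ℂ) R, deriv Q ν ≠ 0
  bd : ∀ ν ∈ Metric.ball (0 : ℂ) R, ‖Q ν‖ ≤ 16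
  ne : ∀ ν ∈ Metric.ball (0 : ℂ) R, Q ν ≠ 0
  mm : ∀ ν ∈ Metric.ball (0 : ℂ) R, ν.re ≤ 0 → Q ν ∈ MM 2
  cZ : ContinuousOn Z (Metric.ball 0 R ∩ {ν : ℂ | 0 < ν.re})
  pt : ∀ ν ∈ Metric.ball (0 : ℂ) R, 0 < ν.re → Pt 2 K (Q ν) (Z ν) (exp ν)
  id : ∀ P : ℂ → ℂ, Comp K P → Tendsto P (𝓝[Metric.ball 0 1] 1) (𝓝 r0) →
    ∀ ν ∈ Metric.ball (0 : ℂ) R, ν.re < 0 → P (exp ν) = Q ν

/-- SER (from CST, MKD, ROT, BCI, LIFC, IDN, and MMA, FIXE of PLIM): the extension of the section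
across the root. -/
def T_SER : Prop := ∃ C : ℝ, 1 ≤ C ∧ ∀ (k p q : ℕ) (r0 z0 : ℂ), 1 ≤ k → 0 < p → p < q →
  p.Coprime q → Pt 2 k r0 z0 (exp (2 * Real.pi * I * p / q)) →
  ∃ Q Z : ℂ → ℂ, SecR (k * q) (1 / (C * ((k * q : ℕ) : ℝ) ^ 4)) r0 Q Z

/-- LIW (from TOP, OMC, FIXE, BOT, LOG, GREEN of PLIM; adapt MEY/LIMBZ.lean): the limb in the
image of a section which is defined only over the right half plane. -/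
def T_LIW : Prop := ∀ C1 : ℝ, 1 ≤ C1 → OMXn 2 C1 →
  ∀ (K p q : ℕ) (r : ℂ) (A : Set ℂ) (η τ : ℝ) (Q Z : ℂ → ℂ), 1 ≤ K → 0 < p → p < q →
  p.Coprime q → A ⊆ MM 2 → (∃ U : Set ℂ, IsOpen U ∧ A = MM 2 ∩ U) → IsClosed (insert r A) →
  r ∈ MM 2 → r ∉ A → (0 : ℂ) ∉ A → τ = 2 * Real.pi * p / q → 0 < η → η ≤ 1 / 4 →
  2 * (C1 * K / q) < η →
  DifferentiableOn ℂ Q (Metric.ball (τ * I) η) → Q (τ * I) = r →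
  (∀ μ ∈ Metric.ball ((τ : ℂ) * I) η, deriv Q μ ≠ 0 ∧ Q μ ≠ 0 ∧ (μ.re ≤ 0 → Q μ ∈ MM 2)) →
  ContinuousOn Z (Metric.ball (τ * I) η ∩ {μ : ℂ | 0 < μ.re}) →
  (∀ μ ∈ Metric.ball ((τ : ℂ) * I) η, 0 < μ.re → (F 2 (Q μ))^[K] (Z μ) = Z μ ∧
    Rho 2 K (Q μ) (Z μ) = exp μ) →
  ∀ c ∈ A, ∃ μ : ℂ, ‖μ - τ * I‖ ≤ C1 * K / q ∧ Q μ = c

/-- FNL (from SER, LIW, CST, and LIMB, OMX, MMA, FIXE of PLIM): the limb bound. -/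
def T_FNL : Prop := ∃ C : ℝ, 1 ≤ C ∧ ∀ (K : ℕ) (P : ℂ → ℂ), Comp K P → Sat K P →
  (∃ Q : ℂ → ℂ, DifferentiableOn ℂ Q (Metric.ball 0 (1 / (C * (K : ℝ) ^ 4))) ∧
    ∀ ν ∈ Metric.ball (0 : ℂ) (1 / (C * (K : ℝ) ^ 4)), deriv Q ν ≠ 0 ∧
      (ν.re < 0 → P (exp ν) = Q ν)) ∧
  ∀ (p q : ℕ) (r : ℂ) (A : Set ℂ), Lmb P p q r A →
    r ∈ MM 2 ∧ ∀ c ∈ A, ‖c - r‖ * q ≤ C * (K : ℝ) ^ 10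

/-- FNM (from FNL, and CIK of PLIM): local connectivity. -/
def T_FNM : Prop := ∃ C : ℝ, 1 ≤ C ∧
  (∀ (K : ℕ) (P : ℂ → ℂ), Comp K P → Sat K P →
    (∃ Q : ℂ → ℂ, DifferentiableOn ℂ Q (Metric.ball 0 (1 / (C * (K : ℝ) ^ 4))) ∧
      ∀ ν ∈ Metric.ball (0 : ℂ) (1 / (C * (K : ℝ) ^ 4)), deriv Q ν ≠ 0 ∧
        (ν.re < 0 → P (exp ν) = Q ν)) ∧
    ∀ (p q : ℕ) (r : ℂ) (A : Set ℂ), Lmb P p q r A →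
      r ∈ MM 2 ∧ ∀ c ∈ A, ‖c - r‖ * q ≤ C * (K : ℝ) ^ 10) ∧
  ∀ c : ℂ, (∀ B : ℝ, ∃ (K : ℕ) (P : ℂ → ℂ) (p q : ℕ) (r : ℂ) (A : Set ℂ), Comp K P ∧ Sat K P ∧
    Lmb P p q r A ∧ c ∈ A ∧ B * (K : ℝ) ^ 10 ≤ q) →
    ∀ N ∈ 𝓝 c, ∃ S : Set ℂ, S ⊆ MM 2 ∩ N ∧ IsConnected S ∧ IsClosed S ∧ S ∈ 𝓝[MM 2] c

end Pool.Agent.PSat
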