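import Pool.Agent.PSat.Words
import Pool.Agent.PSat.Targets
import Pool.Agent.PLim.LIMB
import Pool.Agent.PLim.All4
import Pool.Agent.MEX.SECX

/-!
# PSAT: basic lemmas on the data
-/

set_option autoImplicit false

open Complex Filter Topology Set
open Pool.Agent.Multibrot (MM)
open Pool.Agent.Limb (F)
open Pool.Agent.PLim (Rho IsBot IsLog Crit Dig Rot IsInt Label lab Ex Cod Per Lands InZ LabR
  ZVn ONTOn NCn OMXn SECTn LocFix)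
open Pool.Agent.MEX (Exa)
open Pool.Agent.MEY (Pt Omg DD Glob)

namespace Pool.Agent.PSat

/-! ### cycles -/

lemma fix_iter {K : ℕ} {c z : ℂ} (h : (F 2 c)^[K] z = z) (j : ℕ) :
    (F 2 c)^[K] ((F 2 c)^[j] z) = (F 2 c)^[j] z := by
  rw [← Function.iterate_add_apply, Nat.add_comm, Function.iterate_add_apply, h]

lemma fix_mul {K : ℕ} {c z : ℂ} (h : (F 2 c)^[K] z = z) (m : ℕ) : (F 2 c)^[K * m] z = z := by
  rw [Function.iterate_mul]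
  exact Function.iterate_fixed h m

/-- the point is recovered from its image -/
lemma fix_back {K : ℕ} {c z : ℂ} (h : (F 2 c)^[K] z = z) (hK : 1 ≤ K) (j : ℕ) :
    (F 2 c)^[K * j - j] ((F 2 c)^[j] z) = z := by
  rw [← Function.iterate_add_apply, Nat.sub_add_cancel (Nat.le_mul_of_pos_left j hK)]
  exact fix_mul h j

lemma fix_mod {K : ℕ} {c z : ℂ} (h : (F 2 c)^[K] z = z) (j : ℕ) :
    (F 2 c)^[j % K] z = (F 2 c)^[j] z := by
  conv_rhs => rw [← Nat.mod_add_div j K, Function.iterate_add_apply, fix_mul h]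

lemma exa_iter {K : ℕ} {c z : ℂ} (h : (F 2 c)^[K] z = z) (hK : 1 ≤ K) (hex : Exa 2 K c z)
    (j : ℕ) : Exa 2 K c ((F 2 c)^[j] z) := by
  intro d h0 h1 hd
  apply hex d h0 h1
  have h2 := fix_back h hK j
  calc (F 2 c)^[d] z = (F 2 c)^[d] ((F 2 c)^[K * j - j] ((F 2 c)^[j] z)) := by rw [h2]
    _ = (F 2 c)^[K * j - j] ((F 2 c)^[d] ((F 2 c)^[j] z)) := by
        rw [← Function.iterate_add_apply, Nat.add_comm, Function.iterate_add_apply]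
    _ = z := by rw [hd, h2]

lemma rho_step {K : ℕ} {c z : ℂ} (h : (F 2 c)^[K] z = z) :
    Rho 2 K c (F 2 c z) = Rho 2 K c z := by
  rw [Pool.Agent.PLim.TRANS_.Rho_eq, Pool.Agent.PLim.TRANS_.Rho_eq]
  rcases K with _ | K
  · rfl
  · rw [Finset.prod_range_succ, Finset.prod_range_succ']
    have h1 : (F 2 c)^[K] (F 2 c z) = z := by
      rw [← Function.iterate_succ_apply]
      exact h
    rw [h1]
    rfl

/-- the multiplier is constant on a cycle -/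
lemma rho_iter {K : ℕ} {c z : ℂ} (h : (F 2 c)^[K] z = z) (j : ℕ) :
    Rho 2 K c ((F 2 c)^[j] z) = Rho 2 K c z := by
  induction j with
  | zero => rfl
  | succ j ih =>
    rw [Function.iterate_succ_apply', rho_step (fix_iter h j), ih]

lemma rho_mul {k : ℕ} {c z : ℂ} (h : (F 2 c)^[k] z = z) (m : ℕ) :
    Rho 2 (k * m) c z = Rho 2 k c z ^ m := Pool.Agent.MEX.SECX_.Rho_pow h m

/-! ### inside and outside the Mandelbrot set -/

lemma mm_of_le {K : ℕ} {Λ : ℂ → ℂ → ℂ} {c z : ℂ} (hK : 1 ≤ K) (hΛ : IsBot 2 Λ)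
    (h : (F 2 c)^[K] z = z) (hR : ‖Rho 2 K c z‖ ≤ 1) : c ∈ MM 2 :=
  Pool.Agent.PLim.LIMB_.inMM Pool.Agent.PLim.a_GREEN Pool.Agent.PLim.a_FIXE
    Pool.Agent.PLim.a_LOG le_rfl hK hΛ h hR

lemma rep_of_ext {K : ℕ} {Λ : ℂ → ℂ → ℂ} {c z : ℂ} (hK : 1 ≤ K) (hΛ : IsBot 2 Λ)
    (h : (F 2 c)^[K] z = z) (hc : c ∉ MM 2) : 1 < ‖Rho 2 K c z‖ := by
  by_contra hn
  exact hc (mm_of_le hK hΛ h (not_lt.mp hn))

/-! ### the data -/

variable {X : Ctx}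

lemma Dt.hq (h : Dt X) : 2 ≤ X.q := by
  have := h.hp
  have := h.hpq
  omega

lemma Dt.hK (h : Dt X) : 2 ≤ X.K := by
  have h1 := h.hk
  have h2 := h.hq
  calc 2 = 1 * 2 := rfl
    _ ≤ X.k * X.q := Nat.mul_le_mul h1 h2

lemma Dt.hK1 (h : Dt X) : 1 ≤ X.K := le_trans (by norm_num) h.hK

lemma Dt.hqK (h : Dt X) : X.q ≤ X.K := Nat.le_mul_of_pos_left _ h.hk

lemma m0_re (X : Ctx) : X.m0.re = 0 := by
  simp [Ctx.m0]

lemma m0_im (X : Ctx) : X.m0.im = 2 * Real.pi * X.p / X.q := by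
  simp [Ctx.m0]

lemma Dt.exp_m0 (_h : Dt X) : exp X.m0 = exp (2 * Real.pi * I * X.p / X.q) := by
  congr 1
  unfold Ctx.m0
  push_cast
  ring

lemma Dt.sub2 (h : Dt X) : Metric.ball X.m0 X.ρ ⊆ Metric.ball X.m0 (2 * X.ρ) :=
  Metric.ball_subset_ball (by linarith [h.hρ])

lemma Dt.mem0 (h : Dt X) : X.m0 ∈ Metric.ball X.m0 X.ρ := Metric.mem_ball_self h.hρ

lemma B_sub (X : Ctx) : X.B ⊆ Metric.ball X.m0 X.ρ := sdiff_subset

lemma Dt.B_isOpen (_h : Dt X) : IsOpen X.B := Metric.isOpen_ball.sdiff isClosed_singleton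

lemma Dt.B_conn (_h : Dt X) : IsPreconnected X.B :=
  Pool.Agent.PLim.a_CUT _ _ Metric.isOpen_ball (convex_ball _ _).isPreconnected
    (Set.finite_singleton _)

/-- a punctured ball is preconnected -/
lemma punct_conn (a : ℂ) (r : ℝ) : IsPreconnected (Metric.ball a r \ {a}) :=
  Pool.Agent.PLim.a_CUT _ _ Metric.isOpen_ball (convex_ball _ _).isPreconnected
    (Set.finite_singleton _)

lemma Dt.re_lt (_h : Dt X) {μ : ℂ} {r : ℝ} (hμ : μ ∈ Metric.ball X.m0 r) : |μ.re| < r := by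
  rw [mem_ball_iff_norm] at hμ
  have h1 := abs_re_le_norm (μ - X.m0)
  rw [sub_re, m0_re, sub_zero] at h1
  linarith

/-- the radius is small -/
lemma Dt.rho_le (h : Dt X) : X.ρ * (X.K + 1) ^ 2 ≤ 1 / 400 := by
  have h1 := h.sm
  have hk : (1 : ℝ) ≤ X.k := by exact_mod_cast h.hk
  have hq : (1 : ℝ) ≤ X.q ^ 2 := one_le_pow₀ (by exact_mod_cast le_trans (by norm_num) h.hq)
  have hC := h.hC
  have hρ := h.hρ
  have h2 : (1 : ℝ) ≤ X.C1 * X.k := by nlinarith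
  have h3 : (1 : ℝ) ≤ X.C1 * X.k * X.q ^ 2 := by nlinarith
  have h4 : 0 ≤ ((X.K : ℝ) + 1) ^ 2 * X.ρ := by positivity
  have h5 := mul_le_mul_of_nonneg_right h3 h4
  rw [one_mul] at h5
  nlinarith

lemma Dt.rho_K (h : Dt X) : X.ρ * (X.K + 1) ≤ 1 / 400 := by
  have h1 := h.rho_le
  have hK : (0 : ℝ) ≤ X.K := Nat.cast_nonneg _
  have h2 := h.hρ
  have h3 : (X.K : ℝ) + 1 ≤ (X.K + 1) ^ 2 := by nlinarith
  have h4 := mul_le_mul_of_nonneg_left h3 h2.le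
  linarith

lemma Dt.rho_lt (h : Dt X) : X.ρ ≤ 1 / 400 := by
  have h1 := h.rho_K
  have hK : (0 : ℝ) ≤ X.K := Nat.cast_nonneg _
  have h2 := h.hρ
  nlinarith

lemma Dt.fx_chi (h : Dt X) {μ : ℂ} (hμ : μ ∈ Metric.ball X.m0 (2 * X.ρ)) :
    X.Fx μ (X.χ μ) := fix_mul (h.pt μ hμ).fix X.q

lemma Dt.rh_chi (h : Dt X) {μ : ℂ} (hμ : μ ∈ Metric.ball X.m0 (2 * X.ρ)) :
    X.rh μ (X.χ μ) = exp (X.q * μ) := by
  unfold Ctx.rh Ctx.K
  rw [rho_mul (h.pt μ hμ).fix, (h.pt μ hμ).mul, ← Complex.exp_nat_mul]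

lemma Dt.rep (h : Dt X) {μ : ℂ} (hμ : μ ∈ Metric.ball X.m0 (2 * X.ρ)) (hre : 0 < μ.re) :
    1 < ‖Rho 2 X.k (X.ψ μ) (X.χ μ)‖ := by
  rw [(h.pt μ hμ).mul, norm_exp]
  exact Real.one_lt_exp_iff.2 hre

lemma Dt.repK (h : Dt X) {μ : ℂ} (hμ : μ ∈ Metric.ball X.m0 (2 * X.ρ)) (hre : 0 < μ.re)
    {v : ℕ} (hv : 1 ≤ v) : 1 < ‖Rho 2 (X.k * v) (X.ψ μ) (X.χ μ)‖ := by
  rw [rho_mul (h.pt μ hμ).fix, norm_pow]
  exact one_lt_pow₀ (h.rep hμ hre) (by omega)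

/-- the parameters over the closed left half plane are in the Mandelbrot set -/
lemma Dt.mm_of_re (h : Dt X) {μ : ℂ} (hμ : μ ∈ Metric.ball X.m0 (2 * X.ρ)) (hre : μ.re ≤ 0) :
    X.ψ μ ∈ MM 2 := by
  refine mm_of_le h.hk h.bot (h.pt μ hμ).fix ?_
  rw [(h.pt μ hμ).mul, norm_exp]
  exact Real.exp_le_one_iff.2 hre

lemma Dt.re_pos (h : Dt X) {μ : ℂ} (hμ : μ ∈ Metric.ball X.m0 (2 * X.ρ))
    (hM : X.ψ μ ∉ MM 2) : 0 < μ.re := by
  by_contra hn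
  exact hM (h.mm_of_re hμ (not_lt.mp hn))

/-- `exp` is different from one on the disc -/
lemma Dt.exp_ne (h : Dt X) {μ : ℂ} (hμ : μ ∈ Metric.ball X.m0 (2 * X.ρ)) : exp μ ≠ 1 := by
  intro h1
  rw [Complex.exp_eq_one_iff] at h1
  obtain ⟨n, hn⟩ := h1
  have hpi := Real.pi_gt_three
  have hq : (0 : ℝ) < X.q := by
    have := h.hq
    exact_mod_cast (by omega : 0 < X.q)
  rw [mem_ball_iff_norm] at hμ
  have h2 := abs_im_le_norm (μ - X.m0)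
  have h3 : (μ - X.m0).im = 2 * Real.pi * (n - X.p / X.q) := by
    rw [sub_im, m0_im, hn]
    simp
    ring
  rw [h3] at h2
  have h4 : (1 : ℝ) ≤ |(n * X.q - X.p : ℝ)| := by
    have h5 : (n * X.q - X.p : ℤ) ≠ 0 := by
      intro h6
      have h7 : (X.p : ℤ) = n * X.q := by linarith
      have hp := h.hp
      have hpq := h.hpq
      rcases le_or_gt n 0 with h8 | h8
      · have : n * (X.q : ℤ) ≤ 0 := mul_nonpos_of_nonpos_of_nonneg h8 (Int.natCast_nonneg _)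
        omega
      · have : (X.q : ℤ) ≤ n * X.q := le_mul_of_one_le_left (Int.natCast_nonneg _) h8
        omega
    have h9 := Int.one_le_abs h5
    have h10 : ((1 : ℤ) : ℝ) ≤ ((|n * X.q - X.p| : ℤ) : ℝ) := by exact_mod_cast h9
    push_cast at h10
    exact h10
  have h11 : |2 * Real.pi * ((n : ℝ) - X.p / X.q)| * X.q = 2 * Real.pi * |(n * X.q - X.p : ℝ)| := by
    rw [abs_mul, abs_of_pos (by linarith : (0 : ℝ) < 2 * Real.pi), mul_assoc]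
    congr 1
    nth_rewrite 2 [← abs_of_pos hq]
    rw [← abs_mul]
    congr 1
    field_simp
  have h12 : 2 * X.ρ * X.q ≤ 1 := by
    have h13 := h.rho_K
    have h14 : (X.q : ℝ) ≤ X.K := by exact_mod_cast h.hqK
    have := h.hρ
    nlinarith
  have h15 : |2 * Real.pi * ((n : ℝ) - X.p / X.q)| * X.q ≤ 2 * X.ρ * X.q :=
    mul_le_mul_of_nonneg_right (by linarith) hq.le
  nlinarith

/-! ### local continuation -/

/-- the fixed points of the iterate of order `K`, as functions of `μ` -/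
lemma Dt.locfix (h : Dt X) {μ1 z1 : ℂ} (hμ : μ1 ∈ Metric.ball X.m0 X.ρ) (hz : X.Fx μ1 z1)
    (hR : X.rh μ1 z1 ≠ 1) {e : ℝ} (he : 0 < e) :
    ∃ (δ r : ℝ) (f : ℂ → ℂ), 0 < δ ∧ δ ≤ e ∧ 0 < r ∧ r ≤ e ∧
      Metric.ball μ1 δ ⊆ Metric.ball X.m0 X.ρ ∧ DifferentiableOn ℂ f (Metric.ball μ1 δ) ∧
      f μ1 = z1 ∧ (∀ μ ∈ Metric.ball μ1 δ, f μ ∈ Metric.ball z1 r ∧ X.Fx μ (f μ)) ∧
      (∀ μ ∈ Metric.ball μ1 δ, ∀ z ∈ Metric.ball z1 r, X.Fx μ z → z = f μ) ∧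
      DifferentiableOn ℂ (fun μ => X.rh μ (f μ)) (Metric.ball μ1 δ) := by
  obtain ⟨δ0, r, zf, h1, h2, hL⟩ := Pool.Agent.PLim.p_LOCZ 2 X.K (X.ψ μ1) z1 e le_rfl he hz hR
  have hd : DifferentiableAt ℂ X.ψ μ1 := h.dψ.differentiableAt
    (Metric.isOpen_ball.mem_nhds (h.sub2 hμ))
  have h3 : ∀ᶠ μ in 𝓝 μ1, X.ψ μ ∈ Metric.ball (X.ψ μ1) δ0 ∧ μ ∈ Metric.ball X.m0 X.ρ :=
    (hd.continuousAt.eventually (Metric.ball_mem_nhds _ hL.hδ)).and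
      (Metric.isOpen_ball.mem_nhds hμ)
  obtain ⟨δ, hδ, hδ'⟩ := Metric.eventually_nhds_iff_ball.mp h3
  have hdψ : DifferentiableOn ℂ X.ψ (Metric.ball μ1 (min δ e)) := h.dψ.mono fun μ hμ' =>
    h.sub2 (hδ' μ (Metric.ball_subset_ball (min_le_left _ _) hμ')).2
  have hmaps : MapsTo X.ψ (Metric.ball μ1 (min δ e)) (Metric.ball (X.ψ μ1) δ0) := fun μ hμ' =>
    (hδ' μ (Metric.ball_subset_ball (min_le_left _ _) hμ')).1
  refine ⟨min δ e, r, fun μ => zf (X.ψ μ), lt_min hδ he, min_le_right _ _, hL.hr, h2, ?_, ?_, ?_,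
    ?_, ?_, ?_⟩
  · exact fun μ hμ' => (hδ' μ (Metric.ball_subset_ball (min_le_left _ _) hμ')).2
  · exact hL.diff.comp hdψ hmaps
  · exact hL.zf0
  · exact fun μ hμ' => ⟨hL.mem _ (hmaps hμ'), hL.fix _ (hmaps hμ')⟩
  · exact fun μ hμ' z hz' hfx => hL.uniq _ (hmaps hμ') z hz' hfx
  · exact (Pool.Agent.PLim.CNT_diffR 2 X.K zf _ hL.diff).comp hdψ hmaps

/-- the parameter map is a local homeomorphism -/
lemma Dt.psi_inv (h : Dt X) {μ1 : ℂ} (hμ : μ1 ∈ Metric.ball X.m0 (2 * X.ρ)) :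
    ∃ σ : ℂ → ℂ, ContinuousAt σ (X.ψ μ1) ∧ σ (X.ψ μ1) = μ1 ∧
      (∀ᶠ c in 𝓝 (X.ψ μ1), X.ψ (σ c) = c) ∧ ∀ᶠ μ in 𝓝 μ1, σ (X.ψ μ) = μ := by
  have hs : HasStrictDerivAt X.ψ (deriv X.ψ μ1) μ1 :=
    (h.dψ.analyticAt (Metric.isOpen_ball.mem_nhds hμ)).hasStrictDerivAt
  have hne := h.dn μ1 hμ
  refine ⟨hs.localInverse X.ψ (deriv X.ψ μ1) μ1 hne, ?_, ?_, ?_, ?_⟩
  · exact (hs.to_localInverse hne).hasDerivAt.continuousAt
  · exact (hs.hasStrictFDerivAt_equiv hne).localInverse_apply_image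
  · exact (hs.hasStrictFDerivAt_equiv hne).eventually_right_inverse
  · exact (hs.hasStrictFDerivAt_equiv hne).eventually_left_inverse

lemma Dt.psi_cont (h : Dt X) {μ1 : ℂ} (hμ : μ1 ∈ Metric.ball X.m0 (2 * X.ρ)) :
    ContinuousAt X.ψ μ1 :=
  (h.dψ.differentiableAt (Metric.isOpen_ball.mem_nhds hμ)).continuousAt

lemma Dt.chi_cont (h : Dt X) {μ1 : ℂ} (hμ : μ1 ∈ Metric.ball X.m0 (2 * X.ρ)) :
    ContinuousAt X.χ μ1 :=
  (h.dχ.differentiableAt (Metric.isOpen_ball.mem_nhds hμ)).continuousAt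

/-- exactness is locally constant where the multiplier is not one -/
lemma Dt.exa_loc (h : Dt X) {μ1 z1 : ℂ} (hμ : μ1 ∈ Metric.ball X.m0 (2 * X.ρ))
    (hz : X.Fx μ1 z1) (hR : X.rh μ1 z1 ≠ 1) :
    ∃ δ : ℝ, 0 < δ ∧ ∀ μ z : ℂ, ‖μ - μ1‖ < δ → ‖z - z1‖ < δ → X.Fx μ z →
      (Exa 2 X.K (X.ψ μ) z ↔ Exa 2 X.K (X.ψ μ1) z1) := by
  have hc : Tendsto (fun x : ℂ × ℂ => (X.ψ x.1, x.2)) (𝓝 (μ1, z1)) (𝓝 (X.ψ μ1, z1)) := by
    refine Tendsto.prodMk_nhds ?_ continuous_snd.continuousAt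
    exact (h.psi_cont hμ).comp continuous_fst.continuousAt
  have key : ∀ᶠ x : ℂ × ℂ in 𝓝 (μ1, z1), X.Fx x.1 x.2 →
      (Exa 2 X.K (X.ψ x.1) x.2 ↔ Exa 2 X.K (X.ψ μ1) z1) := by
    by_cases hex : Exa 2 X.K (X.ψ μ1) z1
    · filter_upwards [hc.eventually (Pool.Agent.MEX.SECX_.exact_nhds hex)] with x hx _
      exact ⟨fun _ => hex, fun _ => hx⟩
    · filter_upwards [hc.eventually (Pool.Agent.MEX.SECX_.nonexact_nhds le_rfl h.hK1 hz hR hex)]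
        with x hx hfx
      exact ⟨fun h1 => absurd h1 (hx hfx), fun h1 => absurd h1 hex⟩
  obtain ⟨δ, hδ, hδ'⟩ := Metric.eventually_nhds_iff_ball.mp key
  refine ⟨δ, hδ, fun μ z h1 h2 h3 => hδ' (μ, z) ?_ h3⟩
  rw [Metric.mem_ball, Prod.dist_eq, max_lt_iff, dist_eq_norm, dist_eq_norm]
  exact ⟨h1, h2⟩

/-- the predicates depending on the nearby points, in the form with `δ` -/
lemma near_iff {P : ℂ → ℂ → Prop} {μ1 z1 : ℂ} :
    (∀ᶠ x : ℂ × ℂ in 𝓝 (μ1, z1), P x.1 x.2) ↔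
      ∃ δ : ℝ, 0 < δ ∧ ∀ μ z : ℂ, ‖μ - μ1‖ < δ → ‖z - z1‖ < δ → P μ z := by
  rw [Metric.eventually_nhds_iff_ball]
  constructor
  · rintro ⟨δ, hδ, h⟩
    refine ⟨δ, hδ, fun μ z h1 h2 => h (μ, z) ?_⟩
    rw [Metric.mem_ball, Prod.dist_eq, max_lt_iff, dist_eq_norm, dist_eq_norm]
    exact ⟨h1, h2⟩
  · rintro ⟨δ, hδ, h⟩
    refine ⟨δ, hδ, fun x hx => ?_⟩
    rw [Metric.mem_ball, Prod.dist_eq, max_lt_iff, dist_eq_norm, dist_eq_norm] at hx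
    exact h x.1 x.2 hx.1 hx.2

/-- the maps `(μ, z) ↦ F^j z` and `(μ, z) ↦ rh μ z` are continuous -/
lemma Dt.iter_cont (h : Dt X) {μ1 : ℂ} (hμ : μ1 ∈ Metric.ball X.m0 (2 * X.ρ)) (z1 : ℂ) (j : ℕ) :
    ContinuousAt (fun x : ℂ × ℂ => (F 2 (X.ψ x.1))^[j] x.2) (μ1, z1) := by
  have h1 : ContinuousAt (fun x : ℂ × ℂ => (X.ψ x.1, x.2)) (μ1, z1) := by
    refine ContinuousAt.prodMk ?_ continuous_snd.continuousAt
    exact ContinuousAt.comp (f := fun x : ℂ × ℂ => x.1) (g := X.ψ) (h.psi_cont hμ)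
      continuous_fst.continuousAt
  exact ContinuousAt.comp (f := fun x : ℂ × ℂ => (X.ψ x.1, x.2))
    (g := fun q : ℂ × ℂ => (F 2 q.1)^[j] q.2)
    (Pool.Agent.PLim.CNT_contI 2 j).continuousAt h1

lemma Dt.rh_cont (h : Dt X) {μ1 : ℂ} (hμ : μ1 ∈ Metric.ball X.m0 (2 * X.ρ)) (z1 : ℂ) :
    ContinuousAt (fun x : ℂ × ℂ => X.rh x.1 x.2) (μ1, z1) := by
  have h1 : ContinuousAt (fun x : ℂ × ℂ => (X.ψ x.1, x.2)) (μ1, z1) := by
    refine ContinuousAt.prodMk ?_ continuous_snd.continuousAt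
    exact ContinuousAt.comp (f := fun x : ℂ × ℂ => x.1) (g := X.ψ) (h.psi_cont hμ)
      continuous_fst.continuousAt
  exact ContinuousAt.comp (f := fun x : ℂ × ℂ => (X.ψ x.1, x.2))
    (g := fun q : ℂ × ℂ => Rho 2 X.K q.1 q.2)
    (Pool.Agent.PLim.CNT_contR 2 X.K).continuousAt h1

end Pool.Agent.PSat
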