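import Pool.Agent.PSat.Targets
import Pool.Agent.PLim.Targets4

/-!
# PSAT, second part: existence of the satellite limbs (proofs: Blueprint2.lean.txt)
-/

set_option autoImplicit false

open Complex Filter Topology Set
open Pool.Agent.Multibrot (MM)
open Pool.Agent.Limb (F)
open Pool.Agent.PLim (Rho NCn OMXn Piece)
open Pool.Agent.MEX (Exa)
open Pool.Agent.MEY (Pt Omg DD Glob)

namespace Pool.Agent.PSat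

/-- CMG (from GD1, GBF, GNB of PSAT and ATU, LOCZ of PLIM): a component is a global section. -/
def T_CMG : Prop := ∀ (C : ℝ) (K : ℕ) (P : ℂ → ℂ), 1 ≤ C → NCn 2 C → Comp K P →
  ∃ Ψ Z : ℂ → ℂ, Glob 2 K 1 (1 / (C * K)) (P 0) Ψ Z ∧ ∀ v ∈ Metric.ball (0 : ℂ) 1, P v = Ψ v

/-- SEX (from CST, MKD, NRM, LBC, NR0, CLR of PSAT): existence of the satellite components. -/
def T_SEX : Prop := ∀ (k p q : ℕ) (r0 z0 : ℂ), 1 ≤ k → 0 < p → p < q → p.Coprime q →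
  Pt 2 k r0 z0 (exp (2 * Real.pi * I * p / q)) →
  ∃ P : ℂ → ℂ, Comp (k * q) P ∧ Tendsto P (𝓝[Metric.ball 0 1] 1) (𝓝 r0)

/-- LNW (from LCL, OMC, ATN, MMA, FIXE, BOT, LOG, GREEN of PLIM; adapt PLim/LNE2.lean): the limb at
`r` contains the satellite component. -/
def T_LNW : Prop := ∀ C1 : ℝ, 1 ≤ C1 → OMXn 2 C1 →
  ∀ (K p q : ℕ) (r : ℂ) (η τ : ℝ) (Q Z P' : ℂ → ℂ), 1 ≤ K → 0 < p → p < q → p.Coprime q →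
  r ∈ MM 2 → τ = 2 * Real.pi * p / q → 0 < η → η ≤ 1 / 4 → C1 * K / q < η →
  DifferentiableOn ℂ Q (Metric.ball (τ * I) η) → Q (τ * I) = r →
  (∀ μ ∈ Metric.ball ((τ : ℂ) * I) η, deriv Q μ ≠ 0 ∧ Q μ ≠ 0 ∧
    (μ.re ≤ 0 → ∃ z : ℂ, (F 2 (Q μ))^[K] z = z ∧ Rho 2 K (Q μ) z = exp μ)) →
  ContinuousOn Z (Metric.ball (τ * I) η ∩ {μ : ℂ | 0 < μ.re}) →
  (∀ μ ∈ Metric.ball ((τ : ℂ) * I) η, 0 < μ.re → (F 2 (Q μ))^[K] (Z μ) = Z μ ∧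
    Rho 2 K (Q μ) (Z μ) = exp μ) →
  Comp (K * q) P' → Tendsto P' (𝓝[Metric.ball 0 1] 1) (𝓝 r) →
  ∃ A : Set ℂ, A ⊆ MM 2 ∧ (∃ U : Set ℂ, IsOpen U ∧ A = MM 2 ∩ U) ∧ IsClosed (insert r A) ∧
    r ∉ A ∧ (0 : ℂ) ∉ A ∧ ∀ v ∈ Metric.ball (0 : ℂ) 1, P' v ∈ A

/-- LNF (from LNW, CST of PSAT and SECT, FIXE of PLIM; see PLim/LNE2.lean). -/
def T_LNF : Prop := ∃ C : ℝ, 1 ≤ C ∧ ∀ (k p q : ℕ) (r z0 : ℂ) (P' : ℂ → ℂ), 1 ≤ k → 0 < p →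
  p < q → p.Coprime q → (F 2 r)^[k] z0 = z0 → Rho 2 k r z0 = exp (2 * Real.pi * I * p / q) →
  C * k ^ 2 * q < ((min p (q - p) : ℕ) : ℝ) ^ 2 → Comp (k * q) P' →
  Tendsto P' (𝓝[Metric.ball 0 1] 1) (𝓝 r) →
  ∃ A : Set ℂ, Pool.Agent.PLim.IsLimb 2 k p q r z0 A ∧ ∀ v ∈ Metric.ball (0 : ℂ) 1, P' v ∈ A

/-- LNS (from SER, CST, KBD, CMG, SEX, LNW, LNF of PSAT): the limbs of the satellite components. -/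
def T_LNS : Prop := ∃ C : ℝ, 1 ≤ C ∧ ∀ (K : ℕ) (P : ℂ → ℂ) (p q : ℕ), Comp K P → Sat K P →
  0 < p → p < q → p.Coprime q → C * (K : ℝ) ^ 10 ≤ q →
  ∃ (r z0 : ℂ) (P' : ℂ → ℂ) (A : Set ℂ), Pt 2 K r z0 (exp (2 * Real.pi * I * p / q)) ∧
    Comp (K * q) P' ∧ Sat (K * q) P' ∧ Tendsto P' (𝓝[Metric.ball 0 1] 1) (𝓝 r) ∧
    Lmb P p q r A ∧ ∀ v ∈ Metric.ball (0 : ℂ) 1, P' v ∈ A

/-- NXS (from LNS, FNL of PSAT and NEST, ATU of PLIM): one step of the construction, avoiding a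
point. -/
def T_NXS : Prop := ∀ (S : Set (ℕ × ℕ)) (K : ℕ) (P : ℂ → ℂ) (r s : ℂ) (A : Set ℂ) (B : ℝ),
  (∀ x ∈ S, 0 < x.1 ∧ x.1 < x.2 ∧ x.1.Coprime x.2) → S.Infinite → Comp K P → Sat K P →
  Piece 2 r A → (∀ v ∈ Metric.ball (0 : ℂ) 1, P v ∈ A) →
  ∃ (p q : ℕ) (r' : ℂ) (P' : ℂ → ℂ) (A' : Set ℂ), (p, q) ∈ S ∧ B * (K : ℝ) ^ 10 ≤ q ∧
    Lmb P p q r' A' ∧ Piece 2 r' A' ∧ A' ⊆ A ∧ r' ∈ A ∧ s ∉ insert r' A' ∧ Comp (K * q) P' ∧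
    Sat (K * q) P' ∧ ∀ v ∈ Metric.ball (0 : ℂ) 1, P' v ∈ A'

/-- `c` lies, for every `B`, in a limb of a satellite component of period `K` with rotation number
in `S` and denominator at least `B K ^ 10`. -/
def DeepS (S : Set (ℕ × ℕ)) (c : ℂ) : Prop :=
  ∀ B : ℝ, ∃ (K : ℕ) (P : ℂ → ℂ) (p q : ℕ) (r : ℂ) (A : Set ℂ), Comp K P ∧ Sat K P ∧
    Lmb P p q r A ∧ c ∈ A ∧ B * (K : ℝ) ^ 10 ≤ q ∧ (p, q) ∈ S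

/-- DNE (adapt MEX/DENSX.lean, PLim/DENS.lean): roots near every boundary point, with cycles of
exact period `k`. -/
def T_DNE : Prop := ∀ (c0 : ℂ) (ε B : ℝ), c0 ∈ frontier (MM 2) → 0 < ε →
  ∃ (k p q : ℕ) (r z0 : ℂ), 1 ≤ k ∧ 0 < p ∧ p < q ∧ p.Coprime q ∧
    Pt 2 k r z0 (exp (2 * Real.pi * I * p / q)) ∧ ‖r - c0‖ < ε ∧
    B * k ^ 2 * q < ((min p (q - p) : ℕ) : ℝ) ^ 2

/-- UNS (from NXS, LNF, SEX, DNE of PSAT and LIMB of PLIM; adapt PLim/UNC.lean). -/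
def T_UNS : Prop := ∀ (S : Set (ℕ × ℕ)) (c0 : ℂ) (N : Set ℂ),
  (∀ x ∈ S, 0 < x.1 ∧ x.1 < x.2 ∧ x.1.Coprime x.2) → S.Infinite → c0 ∈ frontier (MM 2) →
  N ∈ 𝓝 c0 → ¬ (N ∩ {c : ℂ | DeepS S c}).Countable

end Pool.Agent.PSat
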