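import Pool.Agent.PSat.Targets

/-!
# PSAT: MPL, the minimum principle
-/

set_option autoImplicit false

open Complex Filter Topology Set
open Pool.Agent.Limb (F)

namespace Pool.Agent.PSat

namespace MPL_

/-- A holomorphic function with nonnegative real part which vanishes at the center has real part
zero. -/
lemma re_zero {h : ℂ → ℂ} {a : ℂ} {δ : ℝ} (hδ : 0 < δ)
    (hd : DifferentiableOn ℂ h (Metric.ball a δ)) (h0 : h a = 0)
    (hre : ∀ z ∈ Metric.ball a δ, 0 ≤ (h z).re) : ∀ z ∈ Metric.ball a δ, (h z).re = 0 := by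
  have ha : a ∈ Metric.ball a δ := Metric.mem_ball_self hδ
  have hd' : DifferentiableOn ℂ (fun z => exp (-(h z))) (Metric.ball a δ) := hd.neg.cexp
  have hn : ∀ z, ‖exp (-(h z))‖ = Real.exp (-(h z).re) := by
    intro z
    rw [Complex.norm_exp, neg_re]
  have hmax : IsMaxOn (norm ∘ fun z => exp (-(h z))) (Metric.ball a δ) a := by
    intro z hz
    show ‖exp (-(h z))‖ ≤ ‖exp (-(h a))‖
    rw [hn, hn, h0, zero_re, neg_zero, Real.exp_zero, Real.exp_le_one_iff]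
    linarith [hre z hz]
  have heq := Complex.eqOn_of_isPreconnected_of_isMaxOn_norm
    (convex_ball a δ).isPreconnected Metric.isOpen_ball hd' ha hmax
  intro z hz
  have h1 : exp (-(h z)) = exp (-(h a)) := heq hz
  have h2 := congrArg norm h1
  rw [hn, hn, h0, zero_re, neg_zero, Real.exp_zero, Real.exp_eq_one_iff] at h2
  linarith

end MPL_

theorem p_MPL (hS : T_SUM) : T_MPL := by
  intro X hX P μ1 z1 δ0 hμ1 hF hr hδ0 H
  obtain ⟨δ, δ1, h, hδ, hδe, hδ1, hδ1e, hd, h0, hsum, -⟩ := hS X hX P μ1 z1 δ0 δ0 hμ1 hF hr hδ0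
    hδ0 (fun μ z h1 h2 h3 h4 => ⟨(H μ z h1 h2 h3 h4).1, (H μ z h1 h2 h3 h4).2.1⟩)
  have hpos : ∀ μ ∈ Metric.ball μ1 δ, μ ≠ μ1 → ∀ z : ℂ, ‖z - z1‖ < δ1 → X.Fx μ z → P μ z →
      0 < Real.log ‖X.rh μ z‖ := by
    intro μ hμ hne z hz hFz hP
    rw [Metric.mem_ball, dist_eq_norm] at hμ
    exact Real.log_pos ((H μ z hne (hμ.trans_le hδe) (hz.trans_le hδ1e) hFz).2.2 hP)
  have hre : ∀ μ ∈ Metric.ball μ1 δ, 0 ≤ (h μ).re := by
    intro μ hμ
    by_cases hne : μ = μ1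
    · rw [hne, h0, zero_re]
    · obtain ⟨S, hS1, hS2⟩ := hsum μ hμ hne
      rw [hS2]
      refine Finset.sum_nonneg fun z hz => ?_
      obtain ⟨k1, k2, k3⟩ := (hS1 z).1 hz
      exact (hpos μ hμ hne z k1 k2 k3).le
  have hzero := MPL_.re_zero hδ hd h0 hre
  refine ⟨min δ δ1, lt_min hδ hδ1, ?_⟩
  intro μ z hne hμ hz hFz hP
  have hμ' : μ ∈ Metric.ball μ1 δ := by
    rw [Metric.mem_ball, dist_eq_norm]
    exact hμ.trans_le (min_le_left _ _)
  have hz' : ‖z - z1‖ < δ1 := hz.trans_le (min_le_right _ _)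
  obtain ⟨S, hS1, hS2⟩ := hsum μ hμ' hne
  have hzS : z ∈ S := (hS1 z).2 ⟨hz', hFz, hP⟩
  have h3 : 0 < ∑ z ∈ S, Real.log ‖X.rh μ z‖ := by
    refine Finset.sum_pos (fun w hw => ?_) ⟨z, hzS⟩
    obtain ⟨k1, k2, k3⟩ := (hS1 w).1 hw
    exact hpos μ hμ' hne w k1 k2 k3
  rw [← hS2, hzero μ hμ'] at h3
  exact lt_irrefl _ h3

end Pool.Agent.PSat
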