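import Pool.Agent.PSat.Basic

/-!
# PSAT: SER, the extension of the section of the multiplier across the root
-/

set_option autoImplicit false

open Complex Filter Topology Set
open Pool.Agent.Multibrot (MM)
open Pool.Agent.Limb (F)
open Pool.Agent.PLim (Rho IsBot IsLog Crit Dig Gm GWL Rot IsInt Label lab Ex Cod Per Lands InZ LabR
  Vreg ZVn ONTOn NCn OMXn SECTn LocFix)
open Pool.Agent.MEX (Exa LI)
open Pool.Agent.MEY (Pt Omg DD Glob)

namespace Pool.Agent.PSat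

namespace SER_

/-- the size of `q ^ 2 ρ` -/
lemma qrho {C1 : ℝ} {k q : ℕ} (hC : 1 ≤ C1) (hk : 1 ≤ k) (hq : 1 ≤ q) :
    (q : ℝ) ^ 2 * (1 / (400 * C1 * k * q ^ 2 * ((k : ℝ) * q + 1) ^ 2)) =
      1 / (400 * C1 * k * ((k : ℝ) * q + 1) ^ 2) := by
  have hk' : (0 : ℝ) < k := by exact_mod_cast hk
  have hq' : (0 : ℝ) < q := by exact_mod_cast hq
  have hC' : 0 < C1 := by linarith
  field_simp

lemma Mle {C1 : ℝ} {k q : ℕ} (hC : 1 ≤ C1) (hk : 1 ≤ k) (hq : 1 ≤ q) :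
    1 ≤ 400 * C1 * k * ((k : ℝ) * q + 1) ^ 2 ∧
    400 * C1 * k * ((k : ℝ) * q + 1) ^ 2 ≤ 1600 * C1 * ((k : ℝ) * q) ^ 3 := by
  have hk' : (1 : ℝ) ≤ k := by exact_mod_cast hk
  have hq' : (1 : ℝ) ≤ q := by exact_mod_cast hq
  have hC' : 0 < C1 := by linarith
  have h1 : (k : ℝ) ≤ k * q := by nlinarith
  have hK1 : (1 : ℝ) ≤ (k : ℝ) * q := le_trans hk' h1
  have h2 : ((k : ℝ) * q + 1) ^ 2 ≤ 4 * ((k : ℝ) * q) ^ 2 := by nlinarith
  have h3 : 1 ≤ ((k : ℝ) * q + 1) ^ 2 := by nlinarith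
  constructor
  · have h4 : (1 : ℝ) ≤ 400 * C1 := by linarith
    have h5 : (1 : ℝ) ≤ 400 * C1 * k := by nlinarith
    calc (1 : ℝ) = 1 * 1 := by ring
      _ ≤ (400 * C1 * k) * ((k : ℝ) * q + 1) ^ 2 :=
        mul_le_mul h5 h3 (by norm_num) (by linarith)
  · calc 400 * C1 * k * ((k : ℝ) * q + 1) ^ 2
        ≤ 400 * C1 * ((k : ℝ) * q) * (4 * ((k : ℝ) * q) ^ 2) := by
          apply mul_le_mul _ h2 (by positivity) (by positivity)
          apply mul_le_mul_of_nonneg_left h1 (by positivity)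
      _ = 1600 * C1 * ((k : ℝ) * q) ^ 3 := by ring

/-- the radius given by the quantitative inverse function theorem -/
lemma rad {C1 c0 : ℝ} {k q : ℕ} (hC : 1 ≤ C1) (hc : 0 < c0) (hk : 1 ≤ k) (hq : 1 ≤ q) :
    1 / ((1600 * C1 * (1600 * C1 + 6) / c0) * (((k * q : ℕ) : ℝ)) ^ 4) ≤
      c0 * ((q : ℝ) ^ 2 * (1 / (400 * C1 * k * q ^ 2 * ((k : ℝ) * q + 1) ^ 2))) /
        (3 * ((k * q : ℕ) : ℝ) +
          Real.log (1 / ((q : ℝ) ^ 2 * (1 / (400 * C1 * k * q ^ 2 * ((k : ℝ) * q + 1) ^ 2))))) := by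
  rw [qrho hC hk hq]
  obtain ⟨hM1, hM2⟩ := Mle hC hk hq
  push_cast
  set K : ℝ := (k : ℝ) * q with hKdef
  set M : ℝ := 400 * C1 * k * (K + 1) ^ 2 with hM
  have hk' : (1 : ℝ) ≤ k := by exact_mod_cast hk
  have hq' : (1 : ℝ) ≤ q := by exact_mod_cast hq
  have hK1 : 1 ≤ K := by rw [hKdef]; nlinarith
  have hC' : 0 < C1 := by linarith
  have hMpos : 0 < M := by linarith
  rw [one_div_one_div]
  have hlog0 : 0 ≤ Real.log M := Real.log_nonneg hM1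
  have hlog : Real.log M ≤ 1600 * C1 + 3 * K := by
    calc Real.log M ≤ Real.log (1600 * C1 * K ^ 3) := Real.log_le_log hMpos hM2
      _ = Real.log (1600 * C1) + 3 * Real.log K := by
        rw [Real.log_mul (by positivity) (by positivity), Real.log_pow]
        norm_num
      _ ≤ 1600 * C1 + 3 * K := by
        have h1 := Real.log_le_self (by positivity : (0 : ℝ) ≤ 1600 * C1)
        have h2 := Real.log_le_self (by linarith : (0 : ℝ) ≤ K)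
        linarith
  have hden : 3 * K + Real.log M ≤ (1600 * C1 + 6) * K := by nlinarith
  have hdpos : 0 < 3 * K + Real.log M := by linarith
  rw [div_le_div_iff₀ (by positivity) hdpos]
  have h5 : M * (3 * K + Real.log M) ≤ 1600 * C1 * K ^ 3 * ((1600 * C1 + 6) * K) :=
    mul_le_mul hM2 hden hdpos.le (by positivity)
  have h6 : c0 * (1 / M) * (1600 * C1 * (1600 * C1 + 6) / c0 * K ^ 4) =
      (1600 * C1 * K ^ 3 * ((1600 * C1 + 6) * K)) / M := by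
    field_simp
  rw [h6, one_mul, le_div_iff₀ hMpos]
  calc (3 * K + Real.log M) * M = M * (3 * K + Real.log M) := by ring
    _ ≤ _ := h5

lemma convex_half (R : ℝ) : Convex ℝ (Metric.ball (0 : ℂ) R ∩ {ν : ℂ | 0 < ν.re}) :=
  (convex_ball _ _).inter (convex_halfSpace_re_gt 0)

lemma open_half (R : ℝ) : IsOpen (Metric.ball (0 : ℂ) R ∩ {ν : ℂ | 0 < ν.re}) :=
  Metric.isOpen_ball.inter (isOpen_lt continuous_const continuous_re)

/-- the section over the right half of the disc -/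
lemma lift (hLIFC : T_LIFC) {X : Ctx} (hX : Dt X) {L : ℂ → ℂ} {T : ℂ → Finset ℂ}
    (hR : Root X L T) {g : ℂ → ℂ} {R : ℝ} (hR0 : 0 < R)
    (hg : DifferentiableOn ℂ g (Metric.ball 0 R))
    (hg1 : ∀ ν ∈ Metric.ball (0 : ℂ) R, g ν ∈ Metric.ball X.m0 X.ρ ∧ L (g ν) = exp ν)
    (hg2 : ∀ ν ∈ Metric.ball (0 : ℂ) R, ν ≠ 0 → g ν ≠ X.m0) :
    ∃ Z : ℂ → ℂ, ContinuousOn Z (Metric.ball 0 R ∩ {ν : ℂ | 0 < ν.re}) ∧
      ∀ ν ∈ Metric.ball (0 : ℂ) R, 0 < ν.re → Pt 2 X.K (X.ψ (g ν)) (Z ν) (exp ν) := by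
  have hB : ∀ ν ∈ Metric.ball (0 : ℂ) R, 0 < ν.re → g ν ∈ X.B := by
    intro ν hν hre
    refine ⟨(hg1 ν hν).1, ?_⟩
    apply hg2 ν hν
    rintro rfl
    simp at hre
  have hcard : ∀ u ∈ Metric.ball (0 : ℂ) R ∩ {ν : ℂ | 0 < ν.re}, (T (g u)).card = X.K :=
    fun u hu => hR.card _ (hB u hu.1 hu.2)
  have hu0 : ((R / 2 : ℝ) : ℂ) ∈ Metric.ball (0 : ℂ) R ∩ {ν : ℂ | 0 < ν.re} := by
    constructor
    · rw [mem_ball_zero_iff, norm_real, Real.norm_eq_abs, abs_of_pos (by linarith)]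
      linarith
    · show 0 < ((R / 2 : ℝ) : ℂ).re
      rw [ofReal_re]
      linarith
  have hne : (T (g ((R / 2 : ℝ) : ℂ))).Nonempty := by
    rw [← Finset.card_pos, hcard _ hu0]
    exact hX.hK1
  obtain ⟨z0, hz0⟩ := hne
  obtain ⟨Z, hZc, -, hZT⟩ := hLIFC (Metric.ball (0 : ℂ) R ∩ {ν : ℂ | 0 < ν.re}) (fun u => T (g u))
    X.K (open_half R) (convex_half R) hcard (by
      intro u hu z hz
      obtain ⟨δ, f, hδ, hsub, hf, hfz, hfT⟩ := hR.loc (g u) (hB u hu.1 hu.2) z hz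
      have hgc : ContinuousAt g u :=
        (hg.differentiableAt (Metric.isOpen_ball.mem_nhds hu.1)).continuousAt
      have hev : ∀ᶠ u' in 𝓝 u, g u' ∈ Metric.ball (g u) δ ∧ u' ∈ Metric.ball (0 : ℂ) R :=
        (hgc.eventually (Metric.ball_mem_nhds _ hδ)).and (Metric.isOpen_ball.mem_nhds hu.1)
      obtain ⟨δ', hδ', h'⟩ := Metric.eventually_nhds_iff_ball.mp hev
      refine ⟨δ', fun v => f (g v), hδ', ?_, hfz, ?_⟩
      · exact hf.continuousOn.comp (hg.continuousOn.mono fun v hv => (h' v hv).2)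
          (fun v hv => (h' v hv).1)
      · exact fun v hv => hfT (g v) (h' v hv.1).1) _ hu0 z0 hz0
  refine ⟨Z, hZc, fun ν hν hre => ?_⟩
  have h1 := hR.pt (g ν) (hB ν hν hre) (Z ν) (hZT ν ⟨hν, hre⟩)
  rwa [(hg1 ν hν).2] at h1

/-- the parameter is not zero -/
lemma psi_ne {X : Ctx} (hX : Dt X) {μ : ℂ} (hμ : μ ∈ Metric.ball X.m0 X.ρ) : X.ψ μ ≠ 0 := by
  intro h0
  have hpt := hX.pt μ (hX.sub2 hμ)
  have hfix := hpt.fix
  have hmul := hpt.mul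
  rw [h0] at hfix hmul
  rcases Pool.Agent.PLim.LIMB_.rho_zero le_rfl hX.hk hfix with h1 | h1
  · rw [h1] at hmul
    exact exp_ne_zero _ hmul.symm
  · rw [hmul, norm_exp] at h1
    have h2 := hX.re_lt hμ
    have h3 : μ.re < 1 / 400 := lt_of_lt_of_le (lt_of_le_of_lt (le_abs_self _) h2) hX.rho_lt
    have h4 : Real.exp μ.re ≤ Real.exp (1 / 400) := Real.exp_le_exp.2 h3.le
    have h5 : Real.exp (1 / 400) < 2 := by
      have h6 : (1 / 400 : ℝ) < Real.log 2 := by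
        have := Real.log_two_gt_d9
        linarith
      calc Real.exp (1 / 400) < Real.exp (Real.log 2) := Real.exp_lt_exp.2 h6
        _ = 2 := Real.exp_log (by norm_num)
    linarith

end SER_

open SER_ in
theorem p_SER (hCST : T_CST) (hMKD : T_MKD) (hROT : T_ROT) (hBCI : T_BCI) (hLIFC : T_LIFC)
    (hIDN : T_IDN) : T_SER := by
  obtain ⟨C1, hC1, hCst⟩ := hCST
  obtain ⟨c0, hc0, hc1, hB⟩ := hBCI
  have hCpos : 0 < 1600 * C1 * (1600 * C1 + 6) / c0 := by positivity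
  have hCge : 1 ≤ 1600 * C1 * (1600 * C1 + 6) / c0 := by
    rw [le_div_iff₀ hc0]
    nlinarith
  refine ⟨1600 * C1 * (1600 * C1 + 6) / c0, hCge, ?_⟩
  intro k p q r0 z0 hk hp hpq hcop hpt
  obtain ⟨X, hXC, hXk, hXp, hXq, hXρ, hXψ, hXχ, hX⟩ :=
    hMKD C1 k p q r0 z0 hC1 hCst hk hp hpq hcop hpt
  have hq1 : 1 ≤ q := by omega
  have hCst' : Cst X.C1 := by rw [hXC]; exact hCst
  obtain ⟨L, T, hRt⟩ := hROT X hX hCst'
  have hXK : X.K = k * q := by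
    show X.k * X.q = k * q
    rw [hXk, hXq]
  have hqpos : (0 : ℝ) < X.q := by
    have := hX.hq
    exact_mod_cast (by omega : 0 < X.q)
  have hDρ : (X.q : ℝ) ^ 2 * X.ρ ≤ 1 := by
    rw [hXρ, hXq, qrho hC1 hk hq1]
    obtain ⟨h1, -⟩ := Mle hC1 hk hq1
    rw [div_le_one (by linarith)]
    exact h1
  have hA : (1 : ℝ) ≤ 3 * X.K := by
    have := hX.hK
    have h1 : (2 : ℝ) ≤ X.K := by exact_mod_cast this
    linarith
  obtain ⟨g, hg0, hgd, hgp⟩ := hB X.m0 X.ρ ((X.q : ℝ) ^ 2) (3 * X.K) L hX.hρ (by positivity)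
    hDρ hA hRt.dL hRt.L0 (by rw [hRt.L1]; push_cast; ring) hRt.bd hRt.ne
  have hrad : 1 / ((1600 * C1 * (1600 * C1 + 6) / c0) * (((k * q : ℕ) : ℝ)) ^ 4) ≤
      c0 * ((X.q : ℝ) ^ 2 * X.ρ) / (3 * X.K + Real.log (1 / ((X.q : ℝ) ^ 2 * X.ρ))) := by
    rw [hXρ, hXq, hXK]
    exact rad hC1 hc0 hk hq1
  have hsub := Metric.ball_subset_ball (x := (0 : ℂ)) hrad
  have hKpos : (1 : ℝ) ≤ ((k * q : ℕ) : ℝ) := by
    have : 1 ≤ k * q := Nat.mul_pos hk hq1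
    exact_mod_cast this
  have hden : 1 ≤ (1600 * C1 * (1600 * C1 + 6) / c0) * (((k * q : ℕ) : ℝ)) ^ 4 := by
    have h1 : (1 : ℝ) ≤ (((k * q : ℕ) : ℝ)) ^ 4 := one_le_pow₀ hKpos
    nlinarith
  set R : ℝ := 1 / ((1600 * C1 * (1600 * C1 + 6) / c0) * (((k * q : ℕ) : ℝ)) ^ 4) with hRdef
  have hR0 : 0 < R := by
    rw [hRdef]
    positivity
  have hR1 : R ≤ 1 := by
    rw [hRdef, div_le_one (by linarith)]
    exact hden
  have hgd' : DifferentiableOn ℂ g (Metric.ball 0 R) := hgd.mono hsub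
  have hg1 : ∀ ν ∈ Metric.ball (0 : ℂ) R, g ν ∈ Metric.ball X.m0 X.ρ ∧ L (g ν) = exp ν :=
    fun ν hν => ⟨(hgp ν (hsub hν)).1, (hgp ν (hsub hν)).2.1⟩
  have hg2 : ∀ ν ∈ Metric.ball (0 : ℂ) R, ν ≠ 0 → g ν ≠ X.m0 :=
    fun ν hν => (hgp ν (hsub hν)).2.2.2
  have hg3 : ∀ ν ∈ Metric.ball (0 : ℂ) R, deriv g ν ≠ 0 :=
    fun ν hν => (hgp ν (hsub hν)).2.2.1
  obtain ⟨Z, hZc, hZp⟩ := lift hLIFC hX hRt hR0 hgd' hg1 hg2
  refine ⟨fun ν => X.ψ (g ν), Z, ?_⟩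
  refine
    { dQ := ?_
      Q0 := ?_
      dn := ?_
      bd := ?_
      ne := ?_
      mm := ?_
      cZ := hZc
      pt := ?_
      id := ?_ }
  · exact hX.dψ.comp hgd' fun ν hν => hX.sub2 (hg1 ν hν).1
  · show X.ψ (g 0) = r0
    rw [hg0, hXψ]
  · intro ν hν
    have h1 : DifferentiableAt ℂ X.ψ (g ν) :=
      hX.dψ.differentiableAt (Metric.isOpen_ball.mem_nhds (hX.sub2 (hg1 ν hν).1))
    have h2 : DifferentiableAt ℂ g ν := hgd'.differentiableAt (Metric.isOpen_ball.mem_nhds hν)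
    have h3 : deriv (fun ν => X.ψ (g ν)) ν = deriv X.ψ (g ν) * deriv g ν :=
      (h1.hasDerivAt.comp ν h2.hasDerivAt).deriv
    rw [h3]
    exact mul_ne_zero (hX.dn _ (hX.sub2 (hg1 ν hν).1)) (hg3 ν hν)
  · exact fun ν hν => hX.bd _ (hX.sub2 (hg1 ν hν).1)
  · exact fun ν hν => psi_ne hX (hg1 ν hν).1
  · intro ν hν hre
    by_cases h0 : ν = 0
    · subst h0
      show X.ψ (g 0) ∈ MM 2
      rw [hg0]
      exact hX.mm_of_re (hX.sub2 hX.mem0) (by rw [m0_re])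
    · have hBm : g ν ∈ X.B := ⟨(hg1 ν hν).1, hg2 ν hν h0⟩
      have hne : (T (g ν)).Nonempty := by
        rw [← Finset.card_pos, hRt.card _ hBm]
        exact hX.hK1
      obtain ⟨z, hz⟩ := hne
      have hp := hRt.pt (g ν) hBm z hz
      refine mm_of_le hX.hK1 hX.bot hp.fix ?_
      rw [hp.mul, (hg1 ν hν).2, norm_exp]
      exact Real.exp_le_one_iff.2 hre
  · intro ν hν hre
    have h1 := hZp ν hν hre
    rwa [hXK] at h1
  · intro P hP hlim ν hν hre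
    have hP' : Comp X.K P := by rw [hXK]; exact hP
    have hlim' : Tendsto P (𝓝[Metric.ball 0 1] 1) (𝓝 (X.ψ X.m0)) := by rw [hXψ]; exact hlim
    exact hIDN X hX L T hRt g R hR0 hR1 hg0 hgd'
      (fun ν hν => ⟨(hg1 ν hν).1, (hg1 ν hν).2, hg3 ν hν⟩) P hP' hlim' ν hν hre

end Pool.Agent.PSat
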