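import Pool.Agent.PSat.Targets

set_option autoImplicit false

open Complex Filter Topology Set

namespace Pool.Agent.PSat.LIFC_

/-- the total space -/
abbrev EE (U : Set ℂ) (T : ℂ → Finset ℂ) : Type := {x : ℂ × ℂ // x.1 ∈ U ∧ x.2 ∈ T x.1}

/-- the projection -/
def pp (U : Set ℂ) (T : ℂ → Finset ℂ) (x : EE U T) : ℂ := x.1.1

theorem pp_cont (U : Set ℂ) (T : ℂ → Finset ℂ) : Continuous (pp U T) :=
  continuous_fst.comp continuous_subtype_val

theorem evenly (U : Set ℂ) (T : ℂ → Finset ℂ) (N : ℕ) (hU : IsOpen U)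
    (hN : ∀ u ∈ U, (T u).card = N)
    (hT : ∀ u ∈ U, ∀ z ∈ T u, ∃ (δ : ℝ) (f : ℂ → ℂ), 0 < δ ∧ ContinuousOn f (Metric.ball u δ) ∧
      f u = z ∧ ∀ u' ∈ Metric.ball u δ ∩ U, f u' ∈ T u') (u : ℂ) (hu : u ∈ U) :
    IsEvenlyCovered (pp U T) u {z : ℂ // z ∈ T u} := by
  classical
  choose δ f hδ hfc hfu hfT using fun z : {z : ℂ // z ∈ T u} => hT u hu z.1 z.2
  have hcat : ∀ z : {z : ℂ // z ∈ T u}, ContinuousAt (f z) u := fun z =>
    (hfc z).continuousAt (Metric.ball_mem_nhds u (hδ z))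
  have hev : ∀ᶠ u' in 𝓝 u, u' ∈ U ∧ (∀ z : {z : ℂ // z ∈ T u}, u' ∈ Metric.ball u (δ z)) ∧
      ∀ z w : {z : ℂ // z ∈ T u}, z ≠ w → f z u' ≠ f w u' := by
    refine Filter.Eventually.and (hU.mem_nhds hu) (Filter.Eventually.and ?_ ?_)
    · rw [Filter.eventually_all]
      intro z
      exact Metric.ball_mem_nhds u (hδ z)
    · rw [Filter.eventually_all]
      intro z
      rw [Filter.eventually_all]
      intro w
      by_cases hzw : z = w
      · exact Filter.Eventually.of_forall fun _ h => absurd hzw h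
      · have h1 : f z u ≠ f w u := by
          rw [hfu, hfu]
          exact fun h => hzw (Subtype.ext h)
        have h2 : ContinuousAt (fun u' => f z u' - f w u') u := (hcat z).sub (hcat w)
        filter_upwards [h2.eventually_ne (sub_ne_zero.mpr h1)] with u' h _
        exact sub_ne_zero.mp h
  obtain ⟨ρ, hρ, hball⟩ := Metric.eventually_nhds_iff_ball.mp hev
  have hex : ∀ e : EE U T, pp U T e ∈ Metric.ball u ρ →
      ∃ z : {z : ℂ // z ∈ T u}, f z (pp U T e) = e.1.2 := by
    intro e he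
    obtain ⟨h1, h2, h3⟩ := hball _ he
    have hinj : Function.Injective (fun z : {z : ℂ // z ∈ T u} => f z (pp U T e)) := by
      intro z w hzw
      by_contra hne
      exact h3 z w hne hzw
    have hsub : (Finset.univ.image fun z : {z : ℂ // z ∈ T u} => f z (pp U T e)) ⊆
        T (pp U T e) := by
      intro y hy
      rw [Finset.mem_image] at hy
      obtain ⟨z, -, rfl⟩ := hy
      exact hfT z _ ⟨h2 z, h1⟩
    have hcard : (T (pp U T e)).card ≤
        (Finset.univ.image fun z : {z : ℂ // z ∈ T u} => f z (pp U T e)).card := by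
      rw [Finset.card_image_of_injective _ hinj, hN _ h1, Finset.card_univ, Fintype.card_coe,
        hN u hu]
    have heq := Finset.eq_of_subset_of_card_le hsub hcard
    have hmem : e.1.2 ∈ T (pp U T e) := e.2.2
    rw [← heq, Finset.mem_image] at hmem
    obtain ⟨z, -, hz⟩ := hmem
    exact ⟨z, hz⟩
  choose idx hidx using hex
  have huniq : ∀ (e : EE U T) (he : pp U T e ∈ Metric.ball u ρ) (z : {z : ℂ // z ∈ T u}),
      f z (pp U T e) = e.1.2 → idx e he = z := by
    intro e he z hz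
    by_contra hne
    exact (hball _ he).2.2 _ _ hne (by rw [hidx e he, hz])
  have hcz : ∀ z : {z : ℂ // z ∈ T u}, ContinuousOn (f z) (Metric.ball u ρ) := fun z =>
    (hfc z).mono fun u' h => (hball u' h).2.1 z
  refine ⟨inferInstance, Metric.ball u ρ, Metric.mem_ball_self hρ, Metric.isOpen_ball,
    Metric.isOpen_ball.preimage (pp_cont U T), ?_⟩
  refine ⟨
    { toFun := fun e => (⟨pp U T e.1, e.2⟩, idx e.1 e.2)
      invFun := fun xi => ⟨⟨(xi.1.1, f xi.2 xi.1.1), (hball _ xi.1.2).1,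
        hfT xi.2 _ ⟨(hball _ xi.1.2).2.1 xi.2, (hball _ xi.1.2).1⟩⟩, xi.1.2⟩
      left_inv := ?_
      right_inv := ?_
      continuous_toFun := ?_
      continuous_invFun := ?_ }, fun x => rfl⟩
  · rintro ⟨e, he⟩
    apply Subtype.ext
    apply Subtype.ext
    exact Prod.ext rfl (hidx e he)
  · rintro ⟨⟨x, hx⟩, z⟩
    refine Prod.ext rfl ?_
    exact huniq _ _ z rfl
  · refine Continuous.prodMk ?_ ?_
    · exact ((pp_cont U T).comp continuous_subtype_val).subtype_mk _
    · rw [continuous_iff_isClosed]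
      intro s _
      have hs : (fun e : (pp U T) ⁻¹' Metric.ball u ρ => idx e.1 e.2) ⁻¹' s =
          ⋃ z ∈ s, {e : (pp U T) ⁻¹' Metric.ball u ρ | f z (pp U T e.1) = e.1.1.2} := by
        ext e
        simp only [Set.mem_preimage, Set.mem_iUnion, Set.mem_ofPred_eq, exists_prop]
        constructor
        · intro h
          exact ⟨_, h, hidx e.1 e.2⟩
        · rintro ⟨z, hz, h⟩
          rw [huniq e.1 e.2 z h]
          exact hz
      rw [hs]
      refine Set.Finite.isClosed_biUnion (Set.toFinite s) fun z _ => ?_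
      refine isClosed_eq ?_ ?_
      · exact (hcz z).comp_continuous ((pp_cont U T).comp continuous_subtype_val) fun e => e.2
      · exact continuous_snd.comp (continuous_subtype_val.comp continuous_subtype_val)
  · refine Continuous.subtype_mk (Continuous.subtype_mk ?_ _) _
    rw [continuous_prod_of_discrete_right]
    intro z
    refine Continuous.prodMk continuous_subtype_val ?_
    exact (hcz z).comp_continuous continuous_subtype_val fun x => x.2

theorem main : ∀ (U : Set ℂ) (T : ℂ → Finset ℂ) (N : ℕ), IsOpen U → Convex ℝ U →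
  (∀ u ∈ U, (T u).card = N) →
  (∀ u ∈ U, ∀ z ∈ T u, ∃ (δ : ℝ) (f : ℂ → ℂ), 0 < δ ∧ ContinuousOn f (Metric.ball u δ) ∧
    f u = z ∧ ∀ u' ∈ Metric.ball u δ ∩ U, f u' ∈ T u') →
  ∀ u0 ∈ U, ∀ z0 ∈ T u0, ∃ f : ℂ → ℂ, ContinuousOn f U ∧ f u0 = z0 ∧ ∀ u ∈ U, f u ∈ T u := by
  intro U T N hU hconv hN hT u0 hu0 z0 hz0
  classical
  have cov : IsCoveringMapOn (pp U T) U := fun u hu =>
    (evenly U T N hU hN hT u hu).to_isEvenlyCovered_preimage
  have hcontr : ContractibleSpace U := hconv.contractibleSpace ⟨u0, hu0⟩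
  have hlpc : LocallyPathConnectedSpace U := hU.locallyPathConnectedSpace
  let inc : C(U, ℂ) := ⟨Subtype.val, continuous_subtype_val⟩
  obtain ⟨Fl, ⟨hF0, hF⟩, -⟩ := cov.existsUnique_continuousMap_lifts inc
    (a₀ := ⟨u0, hu0⟩) (e₀ := ⟨(u0, z0), hu0, hz0⟩) rfl (fun a => a.2)
  have hpt : ∀ a : U, (Fl a).1.1 = a.1 := fun a => congrFun hF a
  refine ⟨fun u => if h : u ∈ U then (Fl ⟨u, h⟩).1.2 else 0, ?_, ?_, ?_⟩
  · rw [continuousOn_iff_continuous_domRestrict]
    have : U.domRestrict (fun u => if h : u ∈ U then (Fl ⟨u, h⟩).1.2 else 0) =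
        fun a : U => (Fl a).1.2 := by
      funext a
      simp only [Set.domRestrict_apply]
      rw [dif_pos a.2]
    rw [this]
    exact continuous_snd.comp (continuous_subtype_val.comp Fl.continuous)
  · simp only
    rw [dif_pos hu0, hF0]
  · intro u hu
    simp only
    rw [dif_pos hu]
    have h1 := (Fl ⟨u, hu⟩).2.2
    rw [hpt ⟨u, hu⟩] at h1
    exact h1

end Pool.Agent.PSat.LIFC_

namespace Pool.Agent.PSat

theorem p_LIFC : T_LIFC := LIFC_.main

end Pool.Agent.PSat
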