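import Pool.Agent.PSat.Defs

/-!
# PSAT: basic lemmas on words and periodic angles
-/

set_option autoImplicit false

open Complex Filter Topology Set
open Pool.Agent.PLim (Rot IsInt Cod Per)

namespace Pool.Agent.PSat

/-! ### integers -/

lemma isInt_int (m : ℤ) : IsInt (m : ℝ) := ⟨m, rfl⟩

lemma isInt_zero : IsInt 0 := ⟨0, by norm_num⟩

lemma isInt_nat (m : ℕ) : IsInt (m : ℝ) := ⟨m, by norm_num⟩

lemma isInt_add {x y : ℝ} (hx : IsInt x) (hy : IsInt y) : IsInt (x + y) := by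
  obtain ⟨a, rfl⟩ := hx
  obtain ⟨b, rfl⟩ := hy
  exact ⟨a + b, by push_cast; ring⟩

lemma isInt_neg {x : ℝ} (hx : IsInt x) : IsInt (-x) := by
  obtain ⟨a, rfl⟩ := hx
  exact ⟨-a, by push_cast; ring⟩

lemma isInt_sub {x y : ℝ} (hx : IsInt x) (hy : IsInt y) : IsInt (x - y) := by
  rw [sub_eq_add_neg]
  exact isInt_add hx (isInt_neg hy)

lemma isInt_mul {x y : ℝ} (hx : IsInt x) (hy : IsInt y) : IsInt (x * y) := by
  obtain ⟨a, rfl⟩ := hx
  obtain ⟨b, rfl⟩ := hy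
  exact ⟨a * b, by push_cast; ring⟩

lemma isInt_pow (t : ℕ) : IsInt ((2 : ℝ) ^ t) := ⟨2 ^ t, by push_cast; ring⟩

lemma isInt_congr {x y : ℝ} (h : IsInt (x - y)) : IsInt x ↔ IsInt y := by
  constructor
  · intro hx
    have := isInt_sub hx h
    rwa [sub_sub_cancel] at this
  · intro hy
    have := isInt_add h hy
    rwa [sub_add_cancel] at this

/-- an integer of absolute value less than one is zero -/
lemma isInt_eq_zero {x : ℝ} (hx : IsInt x) (h : |x| < 1) : x = 0 := by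
  obtain ⟨a, rfl⟩ := hx
  have : |a| < 1 := by exact_mod_cast h
  rw [Int.abs_lt_one_iff] at this
  rw [this]
  norm_num

/-! ### words -/

@[simp] lemma sh_apply (i : ℕ) (ε : ℕ → ℤ) (t : ℕ) : sh i ε t = ε (t + i) := rfl

@[simp] lemma sh_zero (ε : ℕ → ℤ) : sh 0 ε = ε := rfl

lemma sh_sh (i j : ℕ) (ε : ℕ → ℤ) : sh i (sh j ε) = sh (i + j) ε := by
  funext t
  simp only [sh_apply]
  congr 1
  omega

lemma Eq2.refl (ε : ℕ → ℤ) : Eq2 ε ε := fun t => by simp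

lemma Eq2.symm {ε ε' : ℕ → ℤ} (h : Eq2 ε ε') : Eq2 ε' ε := fun t => by
  have := h t
  omega

lemma Eq2.trans {ε ε' ε'' : ℕ → ℤ} (h : Eq2 ε ε') (h' : Eq2 ε' ε'') : Eq2 ε ε'' := fun t => by
  have := h t
  have := h' t
  omega

lemma Eq2.sh {ε ε' : ℕ → ℤ} (h : Eq2 ε ε') (i : ℕ) : Eq2 (sh i ε) (sh i ε') := fun t => h (t + i)

lemma per_sh {k : ℕ} {ε : ℕ → ℤ} (h : Per k ε) (i : ℕ) : Per k (sh i ε) := fun t => by
  simp only [sh_apply]
  rw [show t + k + i = t + i + k by omega]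
  exact h (t + i)

lemma per_iter {k : ℕ} {ε : ℕ → ℤ} (h : Per k ε) (t m : ℕ) : ε (t + k * m) = ε t := by
  induction m with
  | zero => rfl
  | succ m ih =>
    rw [Nat.mul_succ, ← Nat.add_assoc, h (t + k * m), ih]

lemma per_mul {k : ℕ} {ε : ℕ → ℤ} (h : Per k ε) (q : ℕ) : Per (k * q) ε := fun t =>
  per_iter h t q

lemma per_mod {k : ℕ} {ε : ℕ → ℤ} (h : Per k ε) (t : ℕ) : ε (t % k) = ε t := by
  conv_rhs => rw [← Nat.mod_add_div t k]
  exact (per_iter h _ _).symm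

lemma sh_mul {k : ℕ} {ε : ℕ → ℤ} (h : Per k ε) (i m : ℕ) : sh (i + k * m) ε = sh i ε := by
  funext t
  simp only [sh_apply]
  rw [← Nat.add_assoc]
  exact per_iter h _ _

lemma sh_mod {k : ℕ} {ε : ℕ → ℤ} (h : Per k ε) (i : ℕ) : sh (i % k) ε = sh i ε := by
  conv_rhs => rw [← Nat.mod_add_div i k]
  exact (sh_mul h _ _).symm

lemma sh_self {k : ℕ} {ε : ℕ → ℤ} (h : Per k ε) : sh k ε = ε := by
  have := sh_mul h 0 1
  rwa [Nat.zero_add, Nat.mul_one, sh_zero] at this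

/-- for `i < k` there is a shift back -/
lemma sh_back {k : ℕ} {ε : ℕ → ℤ} (h : Per k ε) (hk : 1 ≤ k) (i : ℕ) :
    sh (k * i - i) (sh i ε) = ε := by
  rw [sh_sh]
  have h1 : i ≤ k * i := Nat.le_mul_of_pos_left i hk
  rw [Nat.sub_add_cancel h1]
  have := sh_mul h 0 i
  rwa [Nat.zero_add, sh_zero] at this

lemma ExW.dvd {k : ℕ} {ε : ℕ → ℤ} (h : ExW k ε) (hk : 1 ≤ k) {d : ℕ} (hd : Eq2 (sh d ε) ε) :
    k ∣ d := by
  rw [← sh_mod h.per d] at hd
  by_contra hn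
  have h0 : 0 < d % k := Nat.pos_of_ne_zero fun h0 => hn (Nat.dvd_of_mod_eq_zero h0)
  exact h.exa _ h0 (Nat.mod_lt _ hk) hd

lemma ExW.congr {k : ℕ} {ε ε' : ℕ → ℤ} (h : ExW k ε) (hp : Per k ε') (he : Eq2 ε ε') :
    ExW k ε' where
  per := hp
  exa := fun d h0 h1 hd => h.exa d h0 h1 (((he.sh d).trans hd).trans he.symm)

lemma ExW.shift {k : ℕ} {ε : ℕ → ℤ} (h : ExW k ε) (hk : 1 ≤ k) (i : ℕ) : ExW k (sh i ε) where
  per := per_sh h.per i
  exa := by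
    intro d h0 h1 hd
    refine h.exa d h0 h1 ?_
    have h2 := hd.sh (k * i - i)
    rw [sh_back h.per hk i, sh_sh, sh_sh] at h2
    rw [show k * i - i + d + i = d + (k * i - i + i) by omega, ← sh_sh] at h2
    have h3 : sh (k * i - i + i) ε = ε := by
      have := sh_back h.per hk i
      rwa [sh_sh] at this
    rwa [h3] at h2

lemma ExW.eq_mod {k : ℕ} {ε : ℕ → ℤ} (h : ExW k ε) (hk : 1 ≤ k) {i j : ℕ}
    (hij : Eq2 (sh i ε) (sh j ε)) : i % k = j % k := by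
  have h1 := hij.sh (k * j - j)
  rw [sh_back h.per hk j, sh_sh] at h1
  obtain ⟨m, hm⟩ := h.dvd hk h1
  have h2 : j ≤ k * j := Nat.le_mul_of_pos_left j hk
  have h3 : k * j + i = k * m + j := by omega
  have h4 : (k * j + i) % k = (k * m + j) % k := by rw [h3]
  rwa [Nat.mul_add_mod, Nat.mul_add_mod] at h4

lemma flp_apply_dvd {K : ℕ} {η : ℕ → ℤ} {t : ℕ} (h : K ∣ t + 1) : flp K η t = η t + 1 := by
  unfold flp
  rw [if_pos h]

lemma flp_apply_ndvd {K : ℕ} {η : ℕ → ℤ} {t : ℕ} (h : ¬ K ∣ t + 1) : flp K η t = η t := by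
  unfold flp
  rw [if_neg h]

lemma per_flp {K : ℕ} {η : ℕ → ℤ} (h : Per K η) : Per K (flp K η) := by
  intro t
  unfold flp
  rw [h t]
  have : K ∣ t + K + 1 ↔ K ∣ t + 1 := by
    rw [show t + K + 1 = (t + 1) + K by omega]
    exact (Nat.dvd_add_left (dvd_refl K))
  simp only [this]

/-! ### periodic angles -/

lemma isP_iff {K : ℕ} {x : ℝ} : IsP K x ↔ IsInt (2 ^ K * x - x) := by
  unfold IsP
  rw [show ((2 : ℝ) ^ K - 1) * x = 2 ^ K * x - x by ring]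

lemma IsP.congr {K : ℕ} {x y : ℝ} (hx : IsP K x) (h : IsInt (y - x)) : IsP K y := by
  rw [isP_iff] at hx ⊢
  have h1 : 2 ^ K * y - y = (2 ^ K * x - x) + (2 ^ K * (y - x) - (y - x)) := by ring
  rw [h1]
  exact isInt_add hx (isInt_sub (isInt_mul (isInt_pow K) h) h)

lemma IsP.add_int {K : ℕ} {x : ℝ} (hx : IsP K x) (m : ℤ) : IsP K (x + m) :=
  hx.congr ⟨m, by ring⟩

lemma IsP.pow {K : ℕ} {x : ℝ} (hx : IsP K x) (i : ℕ) : IsP K (2 ^ i * x) := by
  rw [isP_iff] at hx ⊢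
  have h1 : 2 ^ K * (2 ^ i * x) - 2 ^ i * x = 2 ^ i * (2 ^ K * x - x) := by ring
  rw [h1]
  exact isInt_mul (isInt_pow i) hx

lemma IsP.mul {k : ℕ} {x : ℝ} (hx : IsP k x) (q : ℕ) : IsP (k * q) x := by
  rw [isP_iff]
  induction q with
  | zero =>
    rw [Nat.mul_zero, pow_zero, one_mul, sub_self]
    exact isInt_zero
  | succ q ih =>
    have h1 : 2 ^ (k * (q + 1)) * x - x = 2 ^ k * (2 ^ (k * q) * x - x) + (2 ^ k * x - x) := by
      rw [Nat.mul_succ, pow_add]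
      ring
    rw [h1]
    exact isInt_add (isInt_mul (isInt_pow k) ih) (isP_iff.mp hx)

lemma isP_zero (x : ℝ) : IsP 0 x := by
  rw [isP_iff, pow_zero, one_mul, sub_self]
  exact isInt_zero

/-- the periodic angles form a discrete set -/
lemma isP_iso {K : ℕ} (hK : 1 ≤ K) (θ : ℝ) :
    ∃ δ : ℝ, 0 < δ ∧ ∀ x : ℝ, IsP K x → x ≠ θ → δ ≤ |x - θ| := by
  have hN : (0 : ℝ) < 2 ^ K - 1 := by
    have : (2 : ℝ) ^ 1 ≤ 2 ^ K := pow_le_pow_right₀ (by norm_num) hK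
    linarith
  obtain ⟨y, hy⟩ : ∃ y : ℝ, y = (2 ^ K - 1) * θ := ⟨_, rfl⟩
  have key : ∃ δ : ℝ, 0 < δ ∧ ∀ a : ℤ, (a : ℝ) ≠ y → δ ≤ |(a : ℝ) - y| := by
    rcases eq_or_lt_of_le (Int.floor_le y) with h | h
    · refine ⟨1, one_pos, fun a ha => ?_⟩
      have h1 : (a : ℝ) - y = ((a - ⌊y⌋ : ℤ) : ℝ) := by
        push_cast
        rw [h]
      rw [h1, ← Int.cast_abs]
      have h2 : a - ⌊y⌋ ≠ 0 := by
        intro h0
        apply ha
        rw [← sub_eq_zero, h1, h0]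
        norm_num
      exact_mod_cast Int.one_le_abs h2
    · refine ⟨min (y - ⌊y⌋) (⌊y⌋ + 1 - y), lt_min (by linarith) ?_, fun a _ => ?_⟩
      · linarith [Int.lt_floor_add_one y]
      · rcases le_or_gt a ⌊y⌋ with h1 | h1
        · have h2 : (a : ℝ) ≤ ⌊y⌋ := by exact_mod_cast h1
          refine (min_le_left _ _).trans ?_
          rw [abs_sub_comm]
          exact le_trans (by linarith) (le_abs_self _)
        · have h2 : (⌊y⌋ : ℝ) + 1 ≤ a := by exact_mod_cast h1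
          refine (min_le_right _ _).trans ?_
          exact le_trans (by linarith) (le_abs_self _)
  obtain ⟨δ, hδ, hk⟩ := key
  refine ⟨δ / (2 ^ K - 1), div_pos hδ hN, fun x hx hxθ => ?_⟩
  obtain ⟨a, ha⟩ := hx
  rw [div_le_iff₀ hN]
  have h1 : (a : ℝ) - y = (x - θ) * (2 ^ K - 1) := by rw [← ha, hy]; ring
  have h2 := hk a (by
    intro h0
    have h3 : (x - θ) * (2 ^ K - 1) = 0 := by rw [← h1, h0, sub_self]
    rcases mul_eq_zero.mp h3 with h4 | h4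
    · exact hxθ (sub_eq_zero.mp h4)
    · exact hN.ne' h4)
  rwa [h1, abs_mul, abs_of_pos hN] at h2

/-- an angle of exact period `K`: the returns -/
lemma isP_exact_dvd {K : ℕ} {x : ℝ} (hK : 1 ≤ K) (hx : IsP K x)
    (hex : ∀ d : ℕ, 0 < d → d < K → ¬ IsP d x) {t : ℕ} (ht : IsP t x) : K ∣ t := by
  by_contra hn
  have h0 : 0 < t % K := Nat.pos_of_ne_zero fun h0 => hn (Nat.dvd_of_mod_eq_zero h0)
  refine hex _ h0 (Nat.mod_lt _ hK) ?_
  have h1 : IsInt (2 ^ (K * (t / K)) * x - x) := isP_iff.mp (hx.mul _)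
  have h2 : IsInt (2 ^ t * x - x) := isP_iff.mp ht
  rw [isP_iff]
  have h3 : (2 : ℝ) ^ t = 2 ^ (t % K) * 2 ^ (K * (t / K)) := by
    rw [← pow_add, Nat.mod_add_div]
  have h4 : 2 ^ (t % K) * x - x =
      (2 ^ t * x - x) - 2 ^ (t % K) * (2 ^ (K * (t / K)) * x - x) := by
    rw [h3]
    ring
  rw [h4]
  exact isInt_sub h2 (isInt_mul (isInt_pow _) h1)

/-- shifting back along a periodic orbit -/
lemma isP_back {K : ℕ} {x : ℝ} (hx : IsP K x) (hK : 1 ≤ K) (i : ℕ) :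
    IsInt (2 ^ (K * i - i) * (2 ^ i * x) - x) := by
  have h1 : i ≤ K * i := Nat.le_mul_of_pos_left i hK
  have h2 : (2 : ℝ) ^ (K * i - i) * (2 ^ i * x) = 2 ^ (K * i) * x := by
    rw [← mul_assoc, ← pow_add, Nat.sub_add_cancel h1]
  rw [h2]
  exact isP_iff.mp (hx.mul i)

end Pool.Agent.PSat
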