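import Pool.Agent.PSat.Targets
import Pool.Agent.PSat.Words
import Pool.Agent.PLim.RC

/-!
# PSAT, CGL: the flipped word
-/

set_option autoImplicit false

open Filter Topology Set
open Pool.Agent.PLim (Rot IsInt Cod Per)

namespace Pool.Agent.PSat

namespace CGL_

lemma floor_same {y u v : ℝ} (huv : u ≤ v) (h : ∀ s : ℤ, ¬ (u ≤ y + s ∧ y + s < v)) :
    ⌊y - u⌋ = ⌊y - v⌋ := by
  rw [Int.floor_eq_iff]
  have h1 := Int.floor_le (y - v)
  have h2 := Int.lt_floor_add_one (y - v)
  refine ⟨by linarith, ?_⟩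
  by_contra hn
  push Not at hn
  refine h (-(⌊y - v⌋ + 1)) ⟨?_, ?_⟩
  · push_cast
    linarith
  · push_cast
    linarith

lemma floor_int_add {y x c : ℝ} {M : ℤ} (h : y = x + M) : ⌊y - c⌋ = M + ⌊x - c⌋ := by
  rw [h, show x + (M : ℝ) - c = (M : ℝ) + (x - c) by ring, Int.floor_intCast_add]

/-- the itinerary of `a` on the left of `a` -/
lemma left_ {K : ℕ} (hK : 1 ≤ K) {a b θ : ℝ} {η : ℕ → ℤ} (hab : a < b) (hab2 : b - a ≤ 1 / 2)
    (haK : IsP K a) (haX : ∀ d : ℕ, 0 < d → d < K → ¬ IsP d a)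
    (gap : ∀ (t : ℕ) (s : ℤ), ¬ (a < 2 ^ t * a + s ∧ 2 ^ t * a + s < b))
    (cod : Cod 2 ((a + b) / 2) a η) (hθ : θ < a)
    (hn : ∀ (t : ℕ) (s : ℤ), ¬ (θ ≤ 2 ^ t * a + s ∧ 2 ^ t * a + s < a)) :
    Cod 2 θ a (flp K η) := by
  refine ⟨?_, ?_⟩
  · intro t _ hI
    obtain ⟨s, hs⟩ := hI
    simp only [Nat.cast_ofNat] at hs
    refine hn t (-s) ⟨?_, ?_⟩
    · push_cast
      linarith
    · push_cast
      linarith
  · intro t
    have hc := cod.2 t
    simp only [Nat.cast_ofNat] at hc ⊢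
    by_cases hd : K ∣ t + 1
    · rw [flp_apply_dvd hd]
      obtain ⟨v, hv⟩ := hd
      have hP : IsP (t + 1) a := by
        rw [hv]
        exact haK.mul v
      obtain ⟨M, hM⟩ := isP_iff.mp hP
      have hy : (2 : ℝ) ^ (t + 1) * a = a + M := by linarith
      have e1 : ⌊(2 : ℝ) ^ (t + 1) * a - (a + b) / 2⌋ = M + (-1) := by
        rw [floor_int_add hy]
        congr 1
        rw [Int.floor_eq_iff]
        constructor
        · push_cast
          linarith
        · push_cast
          linarith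
      have h1 : a - 1 < θ := by
        by_contra hlt
        push Not at hlt
        refine hn 0 (-1) ⟨?_, ?_⟩
        · push_cast
          linarith
        · push_cast
          linarith
      have e2 : ⌊(2 : ℝ) ^ (t + 1) * a - θ⌋ = M + 0 := by
        rw [floor_int_add hy]
        congr 1
        rw [Int.floor_eq_iff]
        constructor
        · push_cast
          linarith
        · push_cast
          linarith
      rw [e1] at hc
      rw [e2]
      omega
    · rw [flp_apply_ndvd hd]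
      have e : ⌊(2 : ℝ) ^ (t + 1) * a - θ⌋ = ⌊(2 : ℝ) ^ (t + 1) * a - (a + b) / 2⌋ := by
        refine floor_same (by linarith) ?_
        rintro s ⟨h1, h2⟩
        rcases lt_trichotomy ((2 : ℝ) ^ (t + 1) * a + s) a with h3 | h3 | h3
        · exact hn (t + 1) s ⟨h1, h3⟩
        · refine hd (isP_exact_dvd hK haK haX ?_)
          rw [isP_iff]
          exact ⟨-s, by push_cast; linarith⟩
        · exact gap (t + 1) s ⟨h3, by linarith⟩
      rw [e]
      exact hc

/-- the itinerary of `b` on the right of `b` -/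
lemma right_ {K : ℕ} (hK : 1 ≤ K) {a b θ : ℝ} {η : ℕ → ℤ} (hab : a < b) (hab2 : b - a ≤ 1 / 2)
    (hbK : IsP K b) (hbX : ∀ d : ℕ, 0 < d → d < K → ¬ IsP d b)
    (gap : ∀ (t : ℕ) (s : ℤ), ¬ (a < 2 ^ t * b + s ∧ 2 ^ t * b + s < b))
    (cod : Cod 2 ((a + b) / 2) b η) (hθ : b < θ)
    (hn : ∀ (t : ℕ) (s : ℤ), ¬ (b < 2 ^ t * b + s ∧ 2 ^ t * b + s ≤ θ)) :
    Cod 2 θ b (flp K η) := by
  refine ⟨?_, ?_⟩
  · intro t _ hI
    obtain ⟨s, hs⟩ := hI
    simp only [Nat.cast_ofNat] at hs
    refine hn t (-s) ⟨?_, ?_⟩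
    · push_cast
      linarith
    · push_cast
      linarith
  · intro t
    have hc := cod.2 t
    simp only [Nat.cast_ofNat] at hc ⊢
    by_cases hd : K ∣ t + 1
    · rw [flp_apply_dvd hd]
      obtain ⟨v, hv⟩ := hd
      have hP : IsP (t + 1) b := by
        rw [hv]
        exact hbK.mul v
      obtain ⟨M, hM⟩ := isP_iff.mp hP
      have hy : (2 : ℝ) ^ (t + 1) * b = b + M := by linarith
      have e1 : ⌊(2 : ℝ) ^ (t + 1) * b - (a + b) / 2⌋ = M + 0 := by
        rw [floor_int_add hy]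
        congr 1
        rw [Int.floor_eq_iff]
        constructor
        · push_cast
          linarith
        · push_cast
          linarith
      have h1 : θ < b + 1 := by
        by_contra hlt
        push Not at hlt
        refine hn 0 1 ⟨?_, ?_⟩
        · push_cast
          linarith
        · push_cast
          linarith
      have e2 : ⌊(2 : ℝ) ^ (t + 1) * b - θ⌋ = M + (-1) := by
        rw [floor_int_add hy]
        congr 1
        rw [Int.floor_eq_iff]
        constructor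
        · push_cast
          linarith
        · push_cast
          linarith
      rw [e1] at hc
      rw [e2]
      omega
    · rw [flp_apply_ndvd hd]
      have e : ⌊(2 : ℝ) ^ (t + 1) * b - (a + b) / 2⌋ = ⌊(2 : ℝ) ^ (t + 1) * b - θ⌋ := by
        refine floor_same (by linarith) ?_
        rintro s ⟨h1, h2⟩
        rcases lt_trichotomy ((2 : ℝ) ^ (t + 1) * b + s) b with h3 | h3 | h3
        · exact gap (t + 1) s ⟨by linarith, h3⟩
        · refine hd (isP_exact_dvd hK hbK hbX ?_)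
          rw [isP_iff]
          exact ⟨-s, by push_cast; linarith⟩
        · exact hn (t + 1) s ⟨h3, h2.le⟩
      rw [← e]
      exact hc

/-- the flipped word has exact period `k q` -/
lemma exw_flp {k q : ℕ} (hk : 1 ≤ k) (hq : 2 ≤ q) {η : ℕ → ℤ} (hη : Per k η) :
    ExW (k * q) (flp (k * q) η) := by
  refine ⟨per_flp (per_mul hη q), ?_⟩
  intro d h0 h1 hd
  have h2k : 2 * k ≤ k * q := by
    calc 2 * k = k * 2 := Nat.mul_comm _ _
      _ ≤ k * q := Nat.mul_le_mul_left k hq
  generalize hKe : k * q = K at *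
  -- the indicator of the flipped positions
  obtain ⟨e, he⟩ : ∃ e : ℕ → ℤ, e = fun t => if K ∣ t + 1 then (1 : ℤ) else 0 := ⟨_, rfl⟩
  have e1 : ∀ t : ℕ, K ∣ t + 1 → e t = 1 := fun t ht => by rw [he]; simp [ht]
  have e0 : ∀ t : ℕ, ¬ K ∣ t + 1 → e t = 0 := fun t ht => by rw [he]; simp [ht]
  have hω : ∀ t : ℕ, flp K η t = η t + e t := by
    intro t
    by_cases ht : K ∣ t + 1
    · rw [flp_apply_dvd ht, e1 t ht]
    · rw [flp_apply_ndvd ht, e0 t ht, add_zero]
  have hA : ∀ t : ℕ, (2 : ℤ) ∣ (η (t + d) + e (t + d)) - (η t + e t) := by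
    intro t
    have := hd t
    rw [sh_apply, hω, hω] at this
    exact this
  have hB : ∀ t : ℕ, (2 : ℤ) ∣ e (t + k + d) - e (t + d) - e (t + k) + e t := by
    intro t
    have a1 := hA t
    have a2 := hA (t + k)
    rw [show t + k + d = t + d + k by omega, hη (t + d), hη t] at a2
    rw [show t + k + d = t + d + k by omega]
    omega
  have hkK : ¬ K ∣ k := fun h => by
    have := Nat.le_of_dvd (by omega) h
    omega
  have hdK : ¬ K ∣ d := fun h => by
    have := Nat.le_of_dvd h0 h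
    omega
  -- first step
  have s1 : K ∣ k + d := by
    have hb := hB (K - 1)
    by_contra hn
    rw [e1 (K - 1) (by rw [Nat.sub_add_cancel (by omega)]),
      e0 (K - 1 + k) (by
        rw [show K - 1 + k + 1 = k + K by omega]
        exact fun h => hkK ((Nat.dvd_add_left (dvd_refl K)).mp h)),
      e0 (K - 1 + d) (by
        rw [show K - 1 + d + 1 = d + K by omega]
        exact fun h => hdK ((Nat.dvd_add_left (dvd_refl K)).mp h)),
      e0 (K - 1 + k + d) (by
        rw [show K - 1 + k + d + 1 = (k + d) + K by omega]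
        exact fun h => hn ((Nat.dvd_add_left (dvd_refl K)).mp h))] at hb
    omega
  have s1' : k + d = K := by
    obtain ⟨c, hc⟩ := s1
    rcases c with _ | _ | c
    · omega
    · omega
    · have : K * 2 ≤ K * (c + 1 + 1) := Nat.mul_le_mul_left K (by omega)
      omega
  -- second step
  have s2 : K ∣ d - k + K := by
    have hb := hB (K - 1 - k)
    by_contra hn
    rw [e0 (K - 1 - k) (by
        rw [show K - 1 - k + 1 = d by omega]
        exact hdK),
      e1 (K - 1 - k + k) (by rw [show K - 1 - k + k + 1 = K by omega]),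
      e0 (K - 1 - k + d) (by
        rw [show K - 1 - k + d + 1 = d - k + K by omega]
        exact hn),
      e0 (K - 1 - k + k + d) (by
        rw [show K - 1 - k + k + d + 1 = d + K by omega]
        exact fun h => hdK ((Nat.dvd_add_left (dvd_refl K)).mp h))] at hb
    omega
  have s2' : K ∣ d - k := (Nat.dvd_add_left (dvd_refl K)).mp s2
  have s3 : d = k := by
    rcases Nat.eq_zero_or_pos (d - k) with h | h
    · omega
    · have := Nat.le_of_dvd h s2'
      omega
  -- the contradiction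
  subst s3
  have ha := hA (K - 1)
  rw [hη (K - 1), e1 (K - 1) (by rw [Nat.sub_add_cancel (by omega)]),
    e0 (K - 1 + d) (by
      rw [show K - 1 + d + 1 = d + K by omega]
      exact fun h => hdK ((Nat.dvd_add_left (dvd_refl K)).mp h))] at ha
  omega

lemma isClosed_isInt : IsClosed {x : ℝ | IsInt x} := by
  have h : {x : ℝ | IsInt x} = Set.range ((↑) : ℤ → ℝ) := by
    ext x
    constructor
    · rintro ⟨m, rfl⟩
      exact ⟨m, rfl⟩
    · rintro ⟨m, rfl⟩
      exact ⟨m, rfl⟩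
  rw [h]
  exact Int.isClosedEmbedding_coe_real.isClosed_range

end CGL_

open CGL_ in
theorem p_CGL (hRTH : T_RTH) : T_CGL := by
  intro k q ε R0 a b i m hP
  obtain ⟨hk, hq, hex, hab, hab2, hpla, haK, haX, horb, hgap, hcod⟩ := hP
  have hK : 1 ≤ k * q := by
    calc 1 = 1 * 1 := rfl
      _ ≤ k * q := Nat.mul_le_mul hk (by omega)
  have hc1 : a < (a + b) / 2 := by linarith
  have hc2 : (a + b) / 2 < b := by linarith
  obtain ⟨hca, hcb⟩ := hcod _ hc1 hc2
  have hη : Per k (sh i ε) := per_sh hex.per i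
  have hω : ExW (k * q) (flp (k * q) (sh i ε)) := exw_flp hk hq hη
  obtain ⟨N, hN⟩ := horb
  have hb : b = 2 ^ m * a + N := by linarith
  have hbK : IsP (k * q) b := (haK.pow m).congr ⟨N, hN⟩
  have hbX : ∀ d : ℕ, 0 < d → d < k * q → ¬ IsP d b := by
    intro d h0 h1 hd
    refine haX d h0 h1 ?_
    have h2 : IsP d (2 ^ m * a) := hd.congr ⟨-N, by push_cast; linarith⟩
    have h3 : IsP d (2 ^ (k * q * m - m) * (2 ^ m * a)) := h2.pow _
    have h4 := isInt_neg (isP_back haK hK m)
    rw [neg_sub] at h4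
    exact h3.congr h4
  have hbo : ∀ (t : ℕ) (s : ℤ),
      (2 : ℝ) ^ t * b + s = 2 ^ (t + m) * a + ((2 ^ t * N + s : ℤ) : ℝ) := by
    intro t s
    rw [hb, pow_add]
    push_cast
    ring
  have hgapb : ∀ (t : ℕ) (s : ℤ), ¬ (a < 2 ^ t * b + s ∧ 2 ^ t * b + s < b) := by
    intro t s
    rw [hbo]
    exact hgap _ _
  have hleft : ∀ θ : ℝ, θ < a →
      (∀ (t : ℕ) (s : ℤ), ¬ (θ ≤ 2 ^ t * a + s ∧ 2 ^ t * a + s < a)) →
      Cod 2 θ a (flp (k * q) (sh i ε)) := fun θ hθ hn =>
    left_ hK hab hab2 haK haX hgap hca hθ hn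
  have hright : ∀ θ : ℝ, b < θ →
      (∀ (t : ℕ) (s : ℤ), ¬ (b < 2 ^ t * a + s ∧ 2 ^ t * a + s ≤ θ)) →
      Cod 2 θ b (flp (k * q) (sh i ε)) := by
    intro θ hθ hn
    refine right_ hK hab hab2 hbK hbX hgapb hcb hθ ?_
    intro t s
    rw [hbo]
    exact hn _ _
  have hcont : Continuous (fun θ => Rot 2 (k * q) θ (flp (k * q) (sh i ε))) :=
    (Pool.Agent.PLim.p_RC 2 (k * q) _ le_rfl).1
  refine ⟨hω, hleft, hright, ?_, ?_⟩
  · obtain ⟨δ, hδ, hiso⟩ := isP_iso hK a
    have ht : Tendsto (fun θ => Rot 2 (k * q) θ (flp (k * q) (sh i ε))) (𝓝[<] a)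
        (𝓝 (Rot 2 (k * q) a (flp (k * q) (sh i ε)))) :=
      (hcont.tendsto a).mono_left nhdsWithin_le_nhds
    refine isClosed_isInt.mem_of_tendsto ht ?_
    have hI : Ioo (a - δ) a ∈ 𝓝[<] a := Ioo_mem_nhdsLT (by linarith)
    filter_upwards [hI] with θ hθ
    refine (hRTH (k * q) θ _ hK hω.per).1 ⟨a, haK, hleft θ hθ.2 ?_⟩
    rintro t s ⟨h1, h2⟩
    have h3 := hiso (2 ^ t * a + s) ((haK.pow t).add_int s) h2.ne
    rw [abs_of_neg (by linarith)] at h3
    linarith [hθ.1]
  · obtain ⟨δ, hδ, hiso⟩ := isP_iso hK b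
    have ht : Tendsto (fun θ => Rot 2 (k * q) θ (flp (k * q) (sh i ε))) (𝓝[>] b)
        (𝓝 (Rot 2 (k * q) b (flp (k * q) (sh i ε)))) :=
      (hcont.tendsto b).mono_left nhdsWithin_le_nhds
    refine isClosed_isInt.mem_of_tendsto ht ?_
    have hI : Ioo b (b + δ) ∈ 𝓝[>] b := Ioo_mem_nhdsGT (by linarith)
    filter_upwards [hI] with θ hθ
    refine (hRTH (k * q) θ _ hK hω.per).1 ⟨b, hbK, hright θ hθ.1 ?_⟩
    rintro t s ⟨h1, h2⟩
    have h3 := hiso (2 ^ t * a + s) ((haK.pow t).add_int s) h1.ne'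
    rw [abs_of_pos (by linarith)] at h3
    linarith [hθ.2]

end Pool.Agent.PSat
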