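import Pool.Agent.PSat.Words
import Pool.Agent.PSat.Targets
import Pool.Agent.PLim.RC
import Pool.Agent.PLim.RS

/-!
# PSAT, CGP: no periodic angle has the flipped word
-/

set_option autoImplicit false

open Filter Topology Set
open Pool.Agent.PLim (Rot IsInt Cod Per Gm GmL GWL p_RC p_RS)

namespace Pool.Agent.PSat

namespace CGP_

lemma gm2 (θ : ℝ) (i : ℤ) (x : ℝ) : Gm 2 θ i x = (x + i + ⌊x - θ⌋) / 2 := by
  unfold Gm
  push_cast
  ring

lemma gmL_apply (θ : ℝ) (i : ℤ) (x : ℝ) : GmL 2 θ i x = Gm 2 θ i x := rfl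

lemma gwl_succ (θ : ℝ) (ε : ℕ → ℤ) (k : ℕ) (x : ℝ) :
    GWL 2 θ ε (k + 1) x = GWL 2 θ ε k (Gm 2 θ (ε k) x) := rfl

/-- monotonicity in the word -/
lemma gwl_mono (θ : ℝ) {ε ε' : ℕ → ℤ} (h : ∀ t, ε t ≤ ε' t) (k : ℕ) :
    GWL 2 θ ε k ≤ GWL 2 θ ε' k := by
  induction k with
  | zero => exact le_refl _
  | succ k ih =>
    intro x
    rw [gwl_succ, gwl_succ]
    have h1 : Gm 2 θ (ε k) x ≤ Gm 2 θ (ε' k) x := by
      rw [gm2, gm2]
      have : (ε k : ℝ) ≤ ε' k := by exact_mod_cast h k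
      linarith
    exact le_trans ((GWL 2 θ ε k).monotone h1) (ih _)

lemma rot_mono (K : ℕ) (θ : ℝ) {ε ε' : ℕ → ℤ} (h : ∀ t, ε t ≤ ε' t) :
    Rot 2 K θ ε ≤ Rot 2 K θ ε' :=
  CircleDeg1Lift.translationNumber_mono (gwl_mono θ h K)

lemma rot_flp (K : ℕ) (hK : 1 ≤ K) (θ : ℝ) (η : ℕ → ℤ) :
    Rot 2 K θ η ≤ Rot 2 K θ (flp K η) ∧ Rot 2 K θ (flp K η) ≤ Rot 2 K θ η + 1 := by
  constructor
  · apply rot_mono
    intro t
    unfold flp
    split_ifs <;> omega
  · have h1 : Rot 2 K θ (flp K η) ≤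
        Rot 2 K θ (fun t => η t + (2 : ℕ) * (if K ∣ t + 1 then 1 else 0)) := by
      apply rot_mono
      intro t
      unfold flp
      split_ifs <;> push_cast <;> omega
    rw [(p_RS 2 K η θ le_rfl).2.1] at h1
    have h2 : ∑ t ∈ Finset.range K, (if K ∣ t + 1 then (1 : ℤ) else 0) = 1 := by
      rw [Finset.sum_eq_single (K - 1)]
      · rw [if_pos (by rw [Nat.sub_add_cancel hK])]
      · intro t ht hne
        rw [if_neg]
        intro hd
        have := Finset.mem_range.1 ht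
        have := Nat.le_of_dvd (by omega) hd
        omega
      · intro h
        exact absurd (Finset.mem_range.2 (by omega)) h
    rw [h2] at h1
    push_cast at h1
    exact h1

/-- pulling back along the word of a point -/
lemma pull (hTHB : T_THB) {K : ℕ} {θ x : ℝ} {η' ω' : ℕ → ℤ} (hK : 1 ≤ K) (hω : Per K ω')
    (hx : x ∈ Th K θ ω') (t : ℕ) : (∀ j < t, η' j = ω' j) → ∀ y : ℝ, IsInt (y - 2 ^ t * x) →
    IsInt (GWL 2 θ η' t y - x) := by
  induction t with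
  | zero =>
    intro _ y hy
    rw [pow_zero, one_mul] at hy
    exact hy
  | succ t ih =>
    intro h y hy
    rw [gwl_succ]
    apply ih (fun j hj => h j (by omega))
    obtain ⟨-, -, -, -, -, h6, -, -, -⟩ := hTHB K θ ω' hK hω
    have hxt : 2 ^ t * x + ((0 : ℤ) : ℝ) ∈ Th K θ (sh t ω') := h6 x hx t 0
    rw [Int.cast_zero, add_zero] at hxt
    obtain ⟨-, -, -, -, -, -, -, h8, -⟩ := hTHB K θ (sh t ω') hK (per_sh hω t)
    have h9 := h8 _ hxt y (by
      have e1 : 2 * (2 ^ t * x) - y = -(y - 2 ^ (t + 1) * x) := by rw [pow_succ]; ring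
      rw [e1]
      exact isInt_neg hy)
    rw [sh_apply, Nat.zero_add, ← h t (by omega)] at h9
    exact h9

/-- a point is mapped to itself, up to the rotation number -/
lemma pull_self (hTHB : T_THB) {K : ℕ} {θ x : ℝ} {η : ℕ → ℤ} (hK : 1 ≤ K) (hη : Per K η)
    (hx : x ∈ Th K θ η) : ∃ m : ℤ, Rot 2 K θ η = m ∧ GWL 2 θ η K x = x + m := by
  have h1 := pull hTHB hK hη hx K (fun j _ => rfl) x (by
    have := isP_iff.1 hx.1
    have e : x - 2 ^ K * x = -(2 ^ K * x - x) := by ring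
    rw [e]
    exact isInt_neg this)
  obtain ⟨m, hm⟩ := h1
  have h2 : GWL 2 θ η K x = x + m := by linarith
  exact ⟨m, CircleDeg1Lift.translationNumber_of_eq_add_int _ h2, h2⟩

/-- the words of a point are equal -/
lemma words (hTHB : T_THB) {K : ℕ} {θ x : ℝ} {η η' : ℕ → ℤ} (hK : 1 ≤ K) (hη : Per K η)
    (hx : x ∈ Th K θ η) (hx' : x ∈ Th K θ η') : Eq2 η η' := by
  obtain ⟨-, -, -, -, h5, -⟩ := hTHB K θ η hK hη
  exact h5 η' ⟨x, hx, hx'⟩

lemma flp_ne {K : ℕ} (hK : 1 ≤ K) (η : ℕ → ℤ) : ¬ Eq2 η (flp K η) := by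
  intro h
  have h1 := h (K - 1)
  rw [flp_apply_dvd (by rw [Nat.sub_add_cancel hK])] at h1
  omega

/-- the points with the flipped word are in the interval -/
lemma inside (hTHB : T_THB) {K : ℕ} {θ a b x : ℝ} {η : ℕ → ℤ} (hK : 1 ≤ K) (hη : Per K η)
    (ha : a ∈ Th K θ η) (hb : b ∈ Th K θ η) (haθ : a < θ) (hθb : θ < b) (hab : b - a ≤ 1 / 2)
    (hx : x ∈ Th K θ (flp K η)) : ∃ s : ℤ, a < x + s ∧ x + s < b := by
  obtain ⟨e, he⟩ : ∃ e : ℤ, e = η (K - 1) := ⟨_, rfl⟩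
  have hKK : K - 1 + 1 = K := Nat.sub_add_cancel hK
  have hfa : ⌊a - θ⌋ = -1 := by
    rw [Int.floor_eq_iff]
    push_cast
    constructor <;> linarith
  have hfb : ⌊b - θ⌋ = 0 := by
    rw [Int.floor_eq_iff]
    push_cast
    constructor <;> linarith
  obtain ⟨A, hA⟩ : ∃ A : ℝ, A = Gm 2 θ e a := ⟨_, rfl⟩
  obtain ⟨B, hB⟩ : ∃ B : ℝ, B = Gm 2 θ e b := ⟨_, rfl⟩
  have hA2 : 2 * A = a + e - 1 := by
    rw [hA, gm2, hfa]
    push_cast
    ring
  have hB2 : 2 * B = b + e := by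
    rw [hB, gm2, hfb]
    push_cast
    ring
  -- the digit
  have hd := hx.2.2 (K - 1)
  rw [hKK, flp_apply_dvd (by rw [hKK]), ← he] at hd
  obtain ⟨s, hs⟩ : ∃ s : ℤ, s = -⌊2 ^ (K - 1) * x - A⌋ := ⟨_, rfl⟩
  obtain ⟨y, hy⟩ : ∃ y : ℝ, y = 2 ^ (K - 1) * x + s := ⟨_, rfl⟩
  have hyA : A ≤ y := by
    have := Int.floor_le (2 ^ (K - 1) * x - A)
    rw [hy, hs]
    push_cast
    linarith
  have hyA1 : y < A + 1 := by
    have := Int.lt_floor_add_one (2 ^ (K - 1) * x - A)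
    rw [hy, hs]
    push_cast
    linarith
  have hfl : ⌊2 * y - θ⌋ = ⌊(2 : ℝ) ^ K * x - θ⌋ + 2 * s := by
    have e1 : 2 * y - θ = (2 ^ K * x - θ) + ((2 * s : ℤ) : ℝ) := by
      rw [hy]
      have : (2 : ℝ) ^ K = 2 * 2 ^ (K - 1) := by
        conv_lhs => rw [← hKK, pow_succ]
        ring
      rw [this]
      push_cast
      ring
    rw [e1, Int.floor_add_intCast]
  have hd' : (2 : ℤ) ∣ ⌊(2 : ℝ) ^ K * x - θ⌋ - (e + 1) := by exact_mod_cast hd
  have hyB : y < B := by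
    by_contra hc
    push Not at hc
    have h1 : ⌊2 * y - θ⌋ = e := by
      rw [Int.floor_eq_iff]
      constructor <;> linarith
    omega
  have hyA' : A < y := by
    rcases hyA.lt_or_eq with h | h
    · exact h
    · exfalso
      have h1 : ⌊2 * y - θ⌋ = e - 2 := by
        rw [Int.floor_eq_iff]
        push_cast
        constructor <;> linarith
      omega
  -- pull back
  obtain ⟨m, hm⟩ := pull (η' := η) hTHB hK (per_flp hη) hx (K - 1) (by
    intro j hj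
    rw [flp_apply_ndvd]
    intro hdv
    have := Nat.le_of_dvd (by omega) hdv
    omega) y ⟨s, by rw [hy]; ring⟩
  obtain ⟨ma, hma, hma'⟩ := pull_self hTHB hK hη ha
  obtain ⟨mb, hmb, hmb'⟩ := pull_self hTHB hK hη hb
  have hmm : ma = mb := by
    have : (ma : ℝ) = mb := by rw [← hma, hmb]
    exact_mod_cast this
  have hga : GWL 2 θ η (K - 1) A = a + ma := by
    rw [← hma', hA, he]
    conv_rhs => rw [← hKK]
    rfl
  have hgb : GWL 2 θ η (K - 1) B = b + ma := by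
    rw [hmm, ← hmb', hB, he]
    conv_rhs => rw [← hKK]
    rfl
  have k1 := (GWL 2 θ η (K - 1)).monotone hyA
  have k2 := (GWL 2 θ η (K - 1)).monotone hyB.le
  rw [hga] at k1
  rw [hgb] at k2
  obtain ⟨t1, -⟩ := hTHB K θ (flp K η) hK (per_flp hη)
  have hxs : ∀ r : ℤ, x + r ∈ Th K θ (flp K η) := fun r => (t1 x r).2 hx
  refine ⟨m - ma, lt_of_le_of_ne ?_ ?_, lt_of_le_of_ne ?_ ?_⟩
  · push_cast
    linarith
  · intro hc
    have := hxs (m - ma)
    rw [← hc] at this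
    exact flp_ne hK η (words hTHB hK hη ha this)
  · push_cast
    linarith
  · intro hc
    have := hxs (m - ma)
    rw [hc] at this
    exact flp_ne hK η (words hTHB hK hη hb this)

/-- an application of the shortest gap -/
lemma gapp (hTHB : T_THB) (hSHG : T_SHG) {K : ℕ} {θ3 c x2 : ℝ} {ω : ℕ → ℤ} (hK : 1 ≤ K)
    (hω : Per K ω) (hc : c ∈ Th K θ3 ω) (hx : x2 ∈ Th K θ3 ω) (hne : ∀ s : ℤ, x2 + s ≠ c) :
    ∃ (i' : ℕ) (u v : ℝ), i' < K ∧ Gap (Th K θ3 (sh i' ω)) u v ∧ v - u ≤ 1 / 2 ∧ u < θ3 ∧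
      θ3 < v ∧ ¬ (u < c ∧ c < v) := by
  obtain ⟨t1, -⟩ := hTHB K θ3 ω hK hω
  obtain ⟨i', u, v, h1, h2, h3, h4, h5, -, h7⟩ := hSHG K θ3 ω hK hω ⟨c, x2 + ((-⌊x2 - c⌋ : ℤ) : ℝ),
    hc, (t1 x2 _).2 hx, by
      refine lt_of_le_of_ne ?_ (hne _).symm
      have := Int.floor_le (x2 - c)
      push_cast
      linarith, by
      have := Int.lt_floor_add_one (x2 - c)
      push_cast
      linarith⟩
  exact ⟨i', u, v, h1, h2, h3, h4, h5, h7 0 c (by rw [sh_zero]; exact hc)⟩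

/-- stability of the itineraries near a periodic angle -/
lemma tlc2 (hTLC : T_TLC) {K : ℕ} {θ θ' c z : ℝ} {η' : ℕ → ℤ} (hz : IsP K z) (hθ : θ ≤ θ')
    (hper : ∀ y : ℝ, IsP K y → θ ≤ y → y ≤ θ' → y = c)
    (hne : ∀ (t : ℕ) (s : ℤ), 1 ≤ t → 2 ^ t * z + s ≠ c) :
    Cod 2 θ z η' ↔ Cod 2 θ' z η' := by
  apply hTLC θ θ' z η' hθ
  rintro t s ht ⟨h1, h2⟩
  exact hne t s ht (hper _ ((hz.pow t).add_int s) h1 h2)

/-- if an iterate of a point with the word `ω` is the point `c` with the same word, then they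
are equal modulo one -/
lemma ret (hTHB : T_THB) {K : ℕ} {θ3 c u : ℝ} {ω : ℕ → ℤ} (hK : 1 ≤ K) (hX : ExW K ω)
    (hc : c ∈ Th K θ3 ω) (hu : u ∈ Th K θ3 ω) {t : ℕ} {s : ℤ} (h : 2 ^ t * u + s = c) :
    IsInt (c - u) := by
  obtain ⟨-, -, -, -, -, h6, -⟩ := hTHB K θ3 ω hK hX.per
  have h1 := h6 u hu t s
  rw [h] at h1
  have h2 : Eq2 (sh t ω) ω := words hTHB hK (per_sh hX.per t) h1 hc
  obtain ⟨r, hr⟩ := hX.dvd hK h2
  have h3 : IsInt (2 ^ t * u - u) := by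
    rw [hr]
    exact isP_iff.1 (hu.1.mul r)
  have h4 : c - u = (2 ^ t * u - u) + s := by rw [← h]; ring
  rw [h4]
  exact isInt_add h3 (isInt_int s)

/-- the case of the left endpoint -/
lemma caseL (hTHB : T_THB) (hSHG : T_SHG) (hTLC : T_TLC) {K : ℕ} {a b r x2 : ℝ} {η : ℕ → ℤ}
    (hK : 1 ≤ K) (hη : Per K η) (hab : b - a ≤ 1 / 2) (hr : 0 < r) (hrb : a + r < b)
    (haP : IsP K a) (hX : ExW K (flp K η)) (hsh : ∀ t, ¬ Eq2 (sh t (flp K η)) η)
    (hper : ∀ y : ℝ, IsP K y → a - r ≤ y → y ≤ a + r → y = a)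
    (ha2 : a ∈ Th K (a + r) η) (hb2 : b ∈ Th K (a + r) η)
    (ha3 : Cod 2 (a - r) a (flp K η)) (hx2 : x2 ∈ Th K (a + r) (flp K η)) : False := by
  obtain ⟨-, -, -, -, -, t6, -⟩ := hTHB K (a + r) (flp K η) hK hX.per
  have hne : ∀ (t : ℕ) (s : ℤ), 2 ^ t * x2 + s ≠ a := by
    intro t s h
    have h1 := t6 x2 hx2 t s
    rw [h] at h1
    exact hsh t (words hTHB hK (per_sh hX.per t) h1 ha2)
  have hx3 : x2 ∈ Th K (a - r) (flp K η) :=
    ⟨hx2.1, (tlc2 hTLC hx2.1 (by linarith) hper (fun t s _ => hne t s)).2 hx2.2⟩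
  have ha3' : a ∈ Th K (a - r) (flp K η) := ⟨haP, ha3⟩
  obtain ⟨i', u, v, h1, h2, h3, h4, h5, h6⟩ := gapp hTHB hSHG hK hX.per ha3' hx3 (fun s => by
    have := hne 0 s
    rwa [pow_zero, one_mul] at this)
  have hva : v ≤ a := by
    by_contra hc
    push Not at hc
    exact h6 ⟨by linarith, hc⟩
  have hv : v = a := hper v h2.2.1.1 h5.le (by linarith)
  have hi : i' = 0 := by
    have h7 : Eq2 (sh i' (flp K η)) (flp K η) :=
      words hTHB hK (per_sh hX.per i') (hv ▸ h2.2.1) ha3'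
    exact Nat.eq_zero_of_dvd_of_lt (hX.dvd hK h7) h1
  rw [hi, sh_zero] at h2
  have hu : u ∈ Th K (a - r) (flp K η) := h2.1
  have hua : u < a := by linarith
  have hu2 : u ∈ Th K (a + r) (flp K η) := by
    refine ⟨hu.1, (tlc2 hTLC hu.1 (by linarith) hper ?_).1 hu.2⟩
    intro t s _ h
    have h7 := ret hTHB hK hX ha3' hu h
    have h8 := isInt_eq_zero h7 (by
      rw [abs_lt]
      constructor <;> linarith)
    linarith
  obtain ⟨s, hs1, hs2⟩ := inside hTHB hK hη ha2 hb2 (by linarith) hrb hab hu2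
  have hs0 : (0 : ℝ) < s := by linarith
  have hs0' : (1 : ℤ) ≤ s := by
    have : (0 : ℤ) < s := by exact_mod_cast hs0
    omega
  have hs1' : (1 : ℝ) ≤ s := by exact_mod_cast hs0'
  linarith

/-- the case of the right endpoint -/
lemma caseR (hTHB : T_THB) (hSHG : T_SHG) (hTLC : T_TLC) {K : ℕ} {a b r x2 : ℝ} {η : ℕ → ℤ}
    (hK : 1 ≤ K) (hη : Per K η) (hab : b - a ≤ 1 / 2) (hr : 0 < r) (hrb : a < b - r)
    (hbP : IsP K b) (hX : ExW K (flp K η)) (hsh : ∀ t, ¬ Eq2 (sh t (flp K η)) η)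
    (hper : ∀ y : ℝ, IsP K y → b - r ≤ y → y ≤ b + r → y = b)
    (ha2 : a ∈ Th K (b - r) η) (hb2 : b ∈ Th K (b - r) η)
    (hb3 : Cod 2 (b + r) b (flp K η)) (hx2 : x2 ∈ Th K (b - r) (flp K η)) : False := by
  obtain ⟨-, -, -, -, -, t6, -⟩ := hTHB K (b - r) (flp K η) hK hX.per
  have hne : ∀ (t : ℕ) (s : ℤ), 2 ^ t * x2 + s ≠ b := by
    intro t s h
    have h1 := t6 x2 hx2 t s
    rw [h] at h1
    exact hsh t (words hTHB hK (per_sh hX.per t) h1 hb2)
  have hx3 : x2 ∈ Th K (b + r) (flp K η) :=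
    ⟨hx2.1, (tlc2 hTLC hx2.1 (by linarith) hper (fun t s _ => hne t s)).1 hx2.2⟩
  have hb3' : b ∈ Th K (b + r) (flp K η) := ⟨hbP, hb3⟩
  obtain ⟨i', u, v, h1, h2, h3, h4, h5, h6⟩ := gapp hTHB hSHG hK hX.per hb3' hx3 (fun s => by
    have := hne 0 s
    rwa [pow_zero, one_mul] at this)
  have hub : b ≤ u := by
    by_contra hc
    push Not at hc
    exact h6 ⟨hc, by linarith⟩
  have hu : u = b := hper u h2.1.1 (by linarith) h4.le
  have hi : i' = 0 := by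
    have h7 : Eq2 (sh i' (flp K η)) (flp K η) :=
      words hTHB hK (per_sh hX.per i') (hu ▸ h2.1) hb3'
    exact Nat.eq_zero_of_dvd_of_lt (hX.dvd hK h7) h1
  rw [hi, sh_zero] at h2
  have hv : v ∈ Th K (b + r) (flp K η) := h2.2.1
  have hvb : b < v := by linarith
  have hv2 : v ∈ Th K (b - r) (flp K η) := by
    refine ⟨hv.1, (tlc2 hTLC hv.1 (by linarith) hper ?_).2 hv.2⟩
    intro t s _ h
    have h7 := ret hTHB hK hX hb3' hv h
    have h8 := isInt_eq_zero h7 (by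
      rw [abs_lt]
      constructor <;> linarith)
    linarith
  obtain ⟨s, hs1, hs2⟩ := inside hTHB hK hη ha2 hb2 hrb (by linarith) hab hv2
  have hs0 : (s : ℝ) < 0 := by linarith
  have hs0' : s ≤ (-1 : ℤ) := by
    have : s < (0 : ℤ) := by exact_mod_cast hs0
    omega
  have hs1' : (s : ℝ) ≤ -1 := by exact_mod_cast hs0'
  linarith

end CGP_

open CGP_ in
theorem p_CGP (hTHB : T_THB) (_hUNL : T_UNL) (hSHG : T_SHG) (hTLC : T_TLC) (hRTH : T_RTH)
    (hCGL : T_CGL) (hPWR : T_PWR) : T_CGP := by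
  intro k q ε R0 a b i m hP θ haθ hθb hint
  obtain ⟨hX, hleft, hright, hia, hib⟩ := hCGL k q ε R0 a b i m hP
  obtain ⟨K, hKd⟩ : ∃ K : ℕ, K = k * q := ⟨_, rfl⟩
  have hk := hP.hk
  have hq := hP.hq
  have hK : 1 ≤ K := by rw [hKd]; exact Nat.mul_pos hk (by omega)
  have hkK : k < K := by rw [hKd]; nlinarith
  have haK := hP.aK
  have hcod := hP.cod
  have hperη : Per (k * q) (sh i ε) := per_mul (per_sh hP.exw.per i) q
  have hrot : ∀ θ' : ℝ, a ≤ θ' → θ' ≤ b → Rot 2 (k * q) θ' (sh i ε) = q * R0 := by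
    intro θ' h1 h2
    rw [(hPWR k θ' (sh i ε) hk (per_sh hP.exw.per i)).1 q,
      (hPWR k θ' ε hk hP.exw.per).2 i, (hP.pla θ').2 ⟨h1, h2⟩]
  have hshk : sh k (sh i ε) = sh i ε := sh_self (per_sh hP.exw.per i)
  have hbP : IsP (k * q) b := (hP.aK.pow m).congr hP.orb
  have hab2 := hP.ab2
  rw [← hKd] at hint hX hleft hright haK hperη hrot hbP
  obtain ⟨η, hη⟩ : ∃ η : ℕ → ℤ, η = sh i ε := ⟨_, rfl⟩
  rw [← hη] at hint hX hleft hright hcod hperη hrot hshk
  have hsh : ∀ t, ¬ Eq2 (sh t (flp K η)) η := by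
    intro t h
    have h1 := h.sh k
    rw [hshk, sh_sh] at h1
    have h2 := hX.eq_mod hK (h1.trans h.symm)
    have h3 : k + t ≡ 0 + t [MOD K] := by rw [Nat.zero_add]; exact h2
    have h4 := Nat.ModEq.add_right_cancel' t h3
    have h5 := (Nat.modEq_zero_iff_dvd).1 h4
    have := Nat.le_of_dvd (by omega) h5
    omega
  -- the rotation numbers
  have haT : ∀ θ' : ℝ, a < θ' → θ' < b → a ∈ Th K θ' η := fun θ' h1 h2 => ⟨haK, (hcod θ' h1 h2).1⟩
  have hbT : ∀ θ' : ℝ, a < θ' → θ' < b → b ∈ Th K θ' η := fun θ' h1 h2 => ⟨hbP, (hcod θ' h1 h2).2⟩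
  obtain ⟨c0, hc0, -⟩ := pull_self hTHB hK hperη (haT θ haθ hθb)
  have hrot' : ∀ θ' : ℝ, a ≤ θ' → θ' ≤ b → Rot 2 K θ' η = c0 := by
    intro θ' h1 h2
    rw [← hc0, hrot θ' h1 h2, hrot θ haθ.le hθb.le]
  have hanti := (p_RC 2 K (flp K η) le_rfl).2
  obtain ⟨N, hN⟩ := hint
  have hN1 := (rot_flp K hK θ η).1
  have hN2 := (rot_flp K hK θ η).2
  rw [hN, hrot' θ haθ.le hθb.le] at hN1 hN2
  have hN1' : c0 ≤ N := by exact_mod_cast hN1
  have hN2' : N ≤ c0 + 1 := by exact_mod_cast hN2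
  have hNN : N = c0 + 1 ∨ N = c0 := by omega
  rcases hNN with hNN | hNN
  · obtain ⟨δ, hδ, hiso⟩ := isP_iso hK a
    obtain ⟨r, hr⟩ : ∃ r : ℝ, r = min δ (θ - a) / 2 := ⟨_, rfl⟩
    have hm1 : min δ (θ - a) ≤ δ := min_le_left _ _
    have hm2 : min δ (θ - a) ≤ θ - a := min_le_right _ _
    have hm3 : 0 < min δ (θ - a) := lt_min hδ (by linarith)
    have hr0 : 0 < r := by linarith
    have hper : ∀ y : ℝ, IsP K y → a - r ≤ y → y ≤ a + r → y = a := by
      intro y hy h1 h2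
      by_contra hc
      have h3 := hiso y hy hc
      have h4 : |y - a| ≤ r := by rw [abs_le]; constructor <;> linarith
      linarith
    have hint2 : IsInt (Rot 2 K (a + r) (flp K η)) := by
      have e1 : Rot 2 K θ (flp K η) ≤ Rot 2 K (a + r) (flp K η) := hanti (by linarith)
      have e2 := (rot_flp K hK (a + r) η).2
      rw [hrot' (a + r) (by linarith) (by linarith)] at e2
      rw [hN, hNN] at e1
      push_cast at e1
      refine ⟨c0 + 1, ?_⟩
      push_cast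
      linarith
    have hnp : ¬ IsP K (a + r) := by
      intro h
      have := hper _ h (by linarith) le_rfl
      linarith
    obtain ⟨x2, hx2⟩ := (hRTH K (a + r) (flp K η) hK hX.per).2.1 hint2 hnp
    refine caseL hTHB hSHG hTLC hK hperη hab2 hr0 (by linarith) haK hX hsh hper
      (haT _ (by linarith) (by linarith)) (hbT _ (by linarith) (by linarith)) ?_ hx2
    apply hleft _ (by linarith)
    rintro t s ⟨h1, h2⟩
    have := hper _ ((haK.pow t).add_int s) h1 (by linarith)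
    linarith
  · obtain ⟨δ, hδ, hiso⟩ := isP_iso hK b
    obtain ⟨r, hr⟩ : ∃ r : ℝ, r = min δ (b - θ) / 2 := ⟨_, rfl⟩
    have hm1 : min δ (b - θ) ≤ δ := min_le_left _ _
    have hm2 : min δ (b - θ) ≤ b - θ := min_le_right _ _
    have hm3 : 0 < min δ (b - θ) := lt_min hδ (by linarith)
    have hr0 : 0 < r := by linarith
    have hper : ∀ y : ℝ, IsP K y → b - r ≤ y → y ≤ b + r → y = b := by
      intro y hy h1 h2
      by_contra hc
      have h3 := hiso y hy hc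
      have h4 : |y - b| ≤ r := by rw [abs_le]; constructor <;> linarith
      linarith
    have hint2 : IsInt (Rot 2 K (b - r) (flp K η)) := by
      have e1 : Rot 2 K (b - r) (flp K η) ≤ Rot 2 K θ (flp K η) := hanti (by linarith)
      have e2 := (rot_flp K hK (b - r) η).1
      rw [hrot' (b - r) (by linarith) (by linarith)] at e2
      rw [hN, hNN] at e1
      exact ⟨c0, le_antisymm e1 e2⟩
    have hnp : ¬ IsP K (b - r) := by
      intro h
      have := hper _ h le_rfl (by linarith)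
      linarith
    obtain ⟨x2, hx2⟩ := (hRTH K (b - r) (flp K η) hK hX.per).2.1 hint2 hnp
    refine caseR hTHB hSHG hTLC hK hperη hab2 hr0 (by linarith) hbP hX hsh hper
      (haT _ (by linarith) (by linarith)) (hbT _ (by linarith) (by linarith)) ?_ hx2
    apply hright _ (by linarith)
    rintro t s ⟨h1, h2⟩
    have := hper _ ((haK.pow t).add_int s) (by linarith) h2
    linarith

end Pool.Agent.PSat
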