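import Pool.Agent.PSat.Basic

/-!
# PSAT: CLR
-/

set_option autoImplicit false

open Complex Filter Topology Set
open Pool.Agent.Multibrot (MM)
open Pool.Agent.Limb (F)
open Pool.Agent.PLim (Rho IsBot IsLog Crit Dig Rot IsInt Label lab Ex Cod Per Lands InZ LabR
  ZVn ONTOn NCn OMXn SECTn LocFix)
open Pool.Agent.MEX (Exa)
open Pool.Agent.MEY (Pt Omg DD Glob)

namespace Pool.Agent.PSat

namespace CLR_

/-- the multiplier of the bifurcating cycle is an open map near `m0` -/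
lemma near {X : Ctx} (hD : Dt X) {R r : ℝ} {g L : ℂ → ℂ} (hB : Bif X R r g L) (e : ℝ)
    (he : 0 < e) : ∃ δ : ℝ, 0 < δ ∧ ∀ w : ℂ, ‖w - 1‖ < δ →
      ∃ μ : ℂ, ‖μ - X.m0‖ < e ∧ L μ = w := by
  have hA : AnalyticAt ℂ L X.m0 := hB.dL.analyticAt (Metric.ball_mem_nhds _ hB.hR)
  have hs : HasStrictDerivAt L (deriv L X.m0) X.m0 := hA.hasStrictDerivAt
  have hne : deriv L X.m0 ≠ 0 := by
    rw [hB.L1]
    have h2 := hD.hq
    have h3 : (X.q : ℂ) ≠ 0 := by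
      have : X.q ≠ 0 := by omega
      exact_mod_cast this
    exact neg_ne_zero.2 (pow_ne_zero 2 h3)
  have hmap := hs.map_nhds_eq hne
  have hb : Metric.ball X.m0 e ∈ 𝓝 X.m0 := Metric.ball_mem_nhds _ he
  have himg : L '' Metric.ball X.m0 e ∈ 𝓝 (L X.m0) := by
    rw [← hmap]
    exact Filter.image_mem_map hb
  rw [hB.L0] at himg
  obtain ⟨δ, hδ, hsub⟩ := Metric.mem_nhds_iff.1 himg
  refine ⟨δ, hδ, fun w hw => ?_⟩
  obtain ⟨μ, hμ, rfl⟩ := hsub (mem_ball_iff_norm.2 hw)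
  exact ⟨μ, mem_ball_iff_norm.1 hμ, rfl⟩

end CLR_

theorem p_CLR (hNR0 : T_NR0) (hUCN : T_UCN) : T_CLR := by
  intro X hX R r g L hB c0 Ψ Z hG hH e he
  have hD := hX.dt
  obtain ⟨δ1, hδ1, h1⟩ := hNR0 X hX R r g L hB
  obtain ⟨δ2, hδ2, h2⟩ := hB.surj
  obtain ⟨δ, hδ, h3⟩ := CLR_.near hD hB (min e (min δ1 δ2)) (by positivity)
  refine ⟨δ, hδ, fun w hw hw1 hwne => ?_⟩
  obtain ⟨μ, hμ, hLμ⟩ := h3 w hw
  have hμe : ‖μ - X.m0‖ < e := lt_of_lt_of_le hμ (min_le_left _ _)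
  have hμ1 : ‖μ - X.m0‖ < δ1 :=
    lt_of_lt_of_le hμ ((min_le_right _ _).trans (min_le_left _ _))
  have hμ2 : ‖μ - X.m0‖ < δ2 :=
    lt_of_lt_of_le hμ ((min_le_right _ _).trans (min_le_right _ _))
  have hμ0 : μ ≠ X.m0 := by
    intro h
    apply hwne
    rw [← hLμ, h, hB.L0]
  obtain ⟨z', hz', hz'ne, hgz⟩ := h2 μ hμ0 hμ2
  have hPt := hB.pt z' hz' hz'ne
  rw [hgz, hLμ] at hPt
  have hBc : Bc X.toCtx r g μ z' := ⟨z', hz', hz'ne, hgz, 0, rfl⟩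
  have hFx : X.Fx μ z' := hPt.fix
  have hSb : Sb X μ z' := (h1 μ z' hμ0 hμ1 hFx).2 hBc
  have hrh : X.rh μ z' = w := hPt.mul
  have hle : ‖X.rh μ z'‖ ≤ 1 := by rw [hrh]; exact hw1
  have hMM : X.ψ μ ∈ MM 2 := mm_of_le hD.hK1 hD.bot hFx hle
  have hCl : Cl X μ z' := by
    rcases hSb.2.2 with h | h | h | h
    · exact absurd hMM h.1
    · exact absurd h.2.2.1 (not_lt.2 hle)
    · exact absurd h.2.2.1 (not_lt.2 hle)
    · exact h.2.2.2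
  obtain ⟨c0', Ψ', Z', hG', hDD, hΨ', ⟨j', hj'⟩, hH'⟩ := hCl
  rw [hrh] at hDD hΨ' hj'
  obtain ⟨j, hj⟩ := hUCN X hX c0 c0' Ψ Z Ψ' Z' hG hG' hH hH'
  obtain ⟨hj1, hj2⟩ := hj w hDD
  have hΨw : Ψ w = X.ψ μ := by rw [← hj1, hΨ']
  have hZfix : (F 2 (X.ψ μ))^[X.K] (Z w) = Z w := by
    rw [← hΨw]
    exact (hG.pt w hDD).fix
  refine ⟨μ, hμ0, hμe, hΨw, z', hz', hz'ne, hgz, X.K * (j' + j) - (j' + j), ?_⟩
  rw [hΨw] at hj2
  have h4 : z' = (F 2 (X.ψ μ))^[j' + j] (Z w) := by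
    rw [Function.iterate_add_apply, ← hj2, hj']
  rw [h4]
  exact fix_back hZfix hD.hK1 (j' + j)

end Pool.Agent.PSat
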