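import Pool.Agent.PSat.Targets
import Pool.Agent.PSat.Words
import Pool.Agent.PLim.All

/-!
# CMB: the combinatorial data
-/

set_option autoImplicit false

open Filter Topology Set
open Pool.Agent.PLim (Rot IsInt Label lab Cod Per)

namespace Pool.Agent.PSat

namespace CMB_

/-- the label is constant on an interval -/
lemma lab_const {K : ℕ} (hK : 1 ≤ K) {ω : ℕ → ℤ} {a b : ℝ}
    (h : ∀ θ : ℝ, a < θ → θ < b → ¬ IsInt (Rot 2 K θ ω)) {θ θ' : ℝ} (h1 : a < θ) (h2 : θ < b)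
    (h3 : a < θ') (h4 : θ' < b) : lab 2 K θ ω = lab 2 K θ' ω := by
  have hc : Ioo a b ⊆ {x | ∀ᶠ y in 𝓝 x, lab 2 K y ω = lab 2 K θ' ω} := by
    refine isPreconnected_Ioo.subset_of_closure_inter_subset isOpen_setOfPred_eventually_nhds ?_ ?_
    · refine ⟨θ', ⟨h3, h4⟩, ?_⟩
      have := (Pool.Agent.PLim.a_RINV 2 K ω θ' le_rfl hK).2.2.2 (h θ' h3 h4)
      exact this.mono fun y hy => hy.2
    · rintro x ⟨hx, hxI⟩
      have h5 := (Pool.Agent.PLim.a_RINV 2 K ω x le_rfl hK).2.2.2 (h x hxI.1 hxI.2)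
      obtain ⟨y, hy1, hy2⟩ := mem_closure_iff_nhds.mp hx _ h5
      have h6 : lab 2 K x ω = lab 2 K θ' ω := by
        rw [← hy1.2]
        exact hy2.self_of_nhds
      exact h5.mono fun y hy => by rw [hy.2, h6]
  exact (hc ⟨h1, h2⟩).self_of_nhds

end CMB_

open CMB_

theorem p_CMB (hPLA : T_PLA) (hCGL : T_CGL) (hCGP : T_CGP) (hUNI : T_UNI) : T_CMB := by
  intro k q ε R0 j0 hk hq hex hden hden' hf1 hf2
  obtain ⟨a, b, i, m, hP⟩ := hPLA k q ε R0 hk hq hex hden hden'
  obtain ⟨hω, hl, hr, hIa, hIb⟩ := hCGL k q ε R0 a b i m hP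
  have hC := hCGP k q ε R0 a b i m hP
  have hK : 1 ≤ k * q := Nat.mul_pos (by omega) (by omega)
  obtain ⟨ω, hωd⟩ : ∃ ω, ω = flp (k * q) (sh i ε) := ⟨_, rfl⟩
  rw [← hωd] at hω hl hr hIa hIb hC
  have hab := hP.ab
  obtain ⟨c, hc1, hc2⟩ : ∃ c, a < c ∧ c < b := exists_between hab
  refine ⟨a, b, m, ω, lab 2 (k * q) c ω, ?_⟩
  -- a word with this label at an end of the interval
  have hend : ∀ (x : ℝ) (η : ℕ → ℤ), Per (k * q) η → ¬ IsInt (Rot 2 (k * q) x η) →
      lab 2 (k * q) x η = lab 2 (k * q) c ω → x ∈ closure (Ioo a b) → Eq2 η ω := by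
    intro x η hη hn hlab hx
    have h1 := (Pool.Agent.PLim.a_RINV 2 (k * q) η x le_rfl hK).2.2.2 hn
    obtain ⟨y, hy1, hy2⟩ := mem_closure_iff_nhds.mp hx _ h1
    refine hUNI (k * q) y ω η hK hω.per hη (hC y hy2.1 hy2.2) hy1.1 ?_
    rw [hy1.2, hlab]
    exact lab_const hK hC hy2.1 hy2.2 hc1 hc2
  have hcl : closure (Ioo a b) = Icc a b := closure_Ioo hab.ne
  exact
    { hk := hk
      hq := hq
      exw := hex
      den := hden
      den' := hden'
      fl := ⟨hf1, hf2⟩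
      ab := hab
      ab1 := by linarith [hP.ab2]
      pla := hP.pla
      aK := hP.aK
      aX := hP.aX
      orb := hP.orb
      gap := hP.gap
      exo := hω
      lbl := fun θ h1 h2 => ⟨hC θ h1 h2, lab_const hK hC h1 h2 hc1 hc2⟩
      uni := by
        intro θ η h1 h2 hη hn hlab
        have he : Eq2 η ω := hend θ η hη hn hlab (by rw [hcl]; exact ⟨h1, h2⟩)
        have hiff : IsInt (Rot 2 (k * q) θ η) ↔ IsInt (Rot 2 (k * q) θ ω) := by
          refine ((Pool.Agent.PLim.a_RINV 2 (k * q) ω θ le_rfl hK).2.1 η ?_).2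
          intro t
          have := he t
          push_cast
          omega
        refine ⟨he, lt_of_le_of_ne h1 ?_, lt_of_le_of_ne h2 ?_⟩
        · rintro rfl
          exact hn (hiff.mpr hIa)
        · rintro rfl
          exact hn (hiff.mpr hIb)
      left := hl
      right := hr }

end Pool.Agent.PSat
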