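import Pool.Agent.PSat.Targets
import Pool.Agent.PLim.All

/-!
# PSA-CST: one constant for the bounds of PLIM in degree two
-/

set_option autoImplicit false

open Complex Filter Topology Set
open Pool.Agent.Multibrot (MM)
open Pool.Agent.Limb (F)
open Pool.Agent.PLim (Rho IsBot IsLog Crit Dig Gm GWL Rot IsInt Label lab Ex Cod Per Lands InZ LabR
  Vreg ZVn ONTOn NCn OMXn SECTn LocFix T_ZV T_ONTO T_NC T_OMX T_SECT
  a_ZV a_ONTO a_NC a_OMX a_SECT)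
open Pool.Agent.MEX (Exa LI)
open Pool.Agent.MEY (Pt Omg DD Glob)

namespace Pool.Agent.PSat

namespace CST_

theorem re_nonneg {C x y : ℝ} {k : ℕ} (hC : 0 < C) (hk : 1 ≤ k) (h : x ^ 2 ≤ C * k * y) :
    0 ≤ y := by
  by_contra hy
  rw [not_le] at hy
  have hk' : (0 : ℝ) < k := by exact_mod_cast hk
  have h1 : C * k * y < 0 := mul_neg_of_pos_of_neg (by positivity) hy
  nlinarith [sq_nonneg x]

theorem zv_mono {n : ℕ} {C C' : ℝ} (hC : 0 < C) (h : C ≤ C') (hz : ZVn n C) : ZVn n C' := by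
  intro k Λ lh ls c z hk h1 h2 h3 h4 h5 h6
  obtain ⟨μ, hμ, hb⟩ := hz k Λ lh ls c z hk h1 h2 h3 h4 h5 h6
  refine ⟨μ, hμ, hb.trans ?_⟩
  have h0 := re_nonneg hC hk hb
  gcongr

theorem omx_mono {n : ℕ} {C C' : ℝ} (hC : 0 < C) (h : C ≤ C') (hz : OMXn n C) : OMXn n C' := by
  intro k Λ c z hk h1 h2 h3 h4
  obtain ⟨w, hw1, hw2, hw3, q, ν, hq, hwq, hν, hb⟩ := hz k Λ c z hk h1 h2 h3 h4
  refine ⟨w, hw1, hw2, hw3, q, ν, hq, hwq, hν, hb.trans ?_⟩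
  have hk' : (0 : ℝ) < k := by exact_mod_cast hk
  have hq' : (0 : ℝ) < q := by exact_mod_cast hq
  have h0 : 0 ≤ ν.re := by
    by_contra hy
    rw [not_le] at hy
    have h1 : C * k / q * ν.re < 0 := mul_neg_of_pos_of_neg (by positivity) hy
    nlinarith [sq_nonneg ‖ν‖]
  gcongr

theorem vreg_mono {C C' : ℝ} {k : ℕ} (hC : 0 < C) (h : C ≤ C') (hk : 1 ≤ k) {μ : ℂ}
    (hμ : μ ∈ Vreg (1 / (C' * k))) : μ ∈ Vreg (1 / (C * k)) := by
  obtain ⟨h1, h2, h3, h4⟩ := hμ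
  refine ⟨h1, h2, h3, h4.trans_le ?_⟩
  have hk' : (0 : ℝ) < k := by exact_mod_cast hk
  refine mul_le_mul_of_nonneg_right ?_ (sq_nonneg _)
  apply one_div_le_one_div_of_le (by positivity)
  gcongr

theorem onto_mono {n : ℕ} {C C' : ℝ} (hC : 0 < C) (h : C ≤ C') (hz : ONTOn n C) : ONTOn n C' := by
  intro k Λ lh ls l μ hk h1 h2 hμ
  exact hz k Λ lh ls l μ hk h1 h2 (vreg_mono hC h hk hμ)

theorem nc_mono {n : ℕ} {C C' : ℝ} (hC : 0 < C) (h : C ≤ C') (hz : NCn n C) : NCn n C' := by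
  intro k c0 z0 μ δ r zf hk h1 h2 hμ
  exact hz k c0 z0 μ δ r zf hk h1 h2 (vreg_mono hC h hk hμ)

theorem sect_mono {n : ℕ} {C C' : ℝ} (hC : 0 < C) (h : C ≤ C') (hz : SECTn n C) :
    SECTn n C' := by
  intro k r z0 τ η hk h1 h2 h3 h4 hη
  obtain ⟨ψ, χ, hψ, hχ, e1, e2, hall⟩ := hz k r z0 τ _ hk h1 h2 h3 h4 rfl
  have hk' : (0 : ℝ) < k := by exact_mod_cast hk
  have hle : η ≤ (min τ (2 * Real.pi - τ)) ^ 2 / (C * k) := by
    rw [hη]
    apply div_le_div_of_nonneg_left (sq_nonneg _) (by positivity)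
    gcongr
  have hsub : Metric.ball ((τ : ℂ) * I) η ⊆
      Metric.ball ((τ : ℂ) * I) ((min τ (2 * Real.pi - τ)) ^ 2 / (C * k)) :=
    Metric.ball_subset_ball hle
  exact ⟨ψ, χ, hψ.mono hsub, hχ.mono hsub, e1, e2, fun μ hμ => hall μ (hsub hμ)⟩

end CST_

open CST_ in
theorem core (hZV : T_ZV) (hON : T_ONTO) (hNC : T_NC) (hOM : T_OMX) (hSE : T_SECT) : T_CST := by
  obtain ⟨C1, h1, hz⟩ := hZV 2 le_rfl
  obtain ⟨C2, h2, ho⟩ := hON 2 le_rfl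
  obtain ⟨C3, h3, hn⟩ := hNC 2 le_rfl
  obtain ⟨C4, h4, hx⟩ := hOM 2 le_rfl
  obtain ⟨C5, h5, hs⟩ := hSE 2 le_rfl
  have h50 : 0 < C5 := by linarith
  refine ⟨C1 + C2 + C3 + C4 + C5, by linarith, ?_, ?_, ?_, ?_, ?_⟩
  · exact zv_mono h1 (by linarith) hz
  · exact onto_mono h2 (by linarith) ho
  · exact nc_mono h3 (by linarith) hn
  · exact omx_mono h4 (by linarith) hx
  · exact sect_mono h50 (by linarith) hs

/-- CST -/
theorem p_CST : T_CST := core a_ZV a_ONTO a_NC a_OMX a_SECT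

end Pool.Agent.PSat
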