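import Pool.Agent.PSat.Targets
import Pool.Agent.PLim.LOP
import Pool.Agent.PLim.GREEN
import Pool.Agent.PLim.OSG
import Pool.Agent.PLim.PHIp
import Pool.Agent.PLim.BR
import Pool.Agent.PLim.CHV
import Pool.Agent.PLim.DISP1
import Pool.Agent.PLim.AREAL
import Pool.Agent.PLim.FIXE

/-!
# PSAT, DLC: the digits are locally constant
-/

set_option autoImplicit false

open Complex Filter Topology Set
open Pool.Agent.Multibrot (MM)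
open Pool.Agent.Limb (F)
open Pool.Agent.PLim (Rho IsBot IsLog Crit Dig Rot IsInt Label lab Ex Cod Per Lands InZ LabR G br)

namespace Pool.Agent.PSat

namespace DLC_

lemma gGREEN : Pool.Agent.PLim.T_GREEN := Pool.Agent.PLim.p_GREEN

lemma gBR : Pool.Agent.PLim.T_BR := Pool.Agent.PLim.p_BR gGREEN

lemma gPHI : Pool.Agent.PLim.T_PHI' := Pool.Agent.PLim.p_PHIp gGREEN Pool.Agent.PLim.p_OSG

lemma gFIXE : Pool.Agent.PLim.T_FIXE :=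
  Pool.Agent.PLim.p_FIXE
    (Pool.Agent.PLim.p_AREAL gBR gGREEN Pool.Agent.PLim.p_CHV Pool.Agent.PLim.p_DISP1) gBR gGREEN

end DLC_

open DLC_ in
/-- DLC: the digits are locally constant -/
theorem p_DLC : T_DLC := by
  intro k Λ lh ls c0 ζ0 z0 ε e hk hB hL hC0 hfix0 hdig0 he
  have hn : 2 ≤ 2 := le_rfl
  obtain ⟨hGc, hG0, -, -, -, hGM, hGcc, -⟩ := gGREEN 2 hn
  have hc0 : c0 ∉ MM 2 := hC0.1
  have hpos : ∀ c ζ : ℂ, Crit 2 Λ c ζ → 0 < ζ.re := by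
    intro c ζ h
    rw [h.2.1, hGcc c]
    have h1 : G 2 c 0 ≠ 0 := fun h2 => h.1 ((hGM c).2 h2)
    have h2 : 0 < G 2 c 0 := lt_of_le_of_ne (hG0 c 0) (Ne.symm h1)
    positivity
  obtain ⟨Φ, hΦd, hΦn, hΦc, -⟩ := gPHI 2 Λ hn hB
  have hΦ0 : ∀ c, c ∉ MM 2 → Φ c ≠ 0 := by
    intro c hc h
    have := hΦn c hc
    rw [h, norm_zero] at this
    exact absurd this.symm (Real.exp_pos _).ne'
  have hGfix : ∀ c ζ z : ℂ, Crit 2 Λ c ζ → (F 2 c)^[k] z = z → ∀ j : ℕ,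
      G 2 c ((F 2 c)^[j] z) = 0 := fun c ζ z hc hz j =>
    ((gFIXE 2 k Λ lh ls c ζ hn hk hB hL hc).2 _ (Pool.Agent.PLim.LOP_.fix_iter hz j)).2.1
  have hMo : IsOpen (MM 2)ᶜ := by
    have h1 : (MM 2)ᶜ = {c : ℂ | G 2 c 0 ≠ 0} := by
      ext c
      simp only [mem_compl_iff, mem_ofPred_eq, hGM c, ne_eq]
    rw [h1]
    have h3 : Continuous (fun c : ℂ => ((c, (0 : ℂ)) : ℂ × ℂ)) := by fun_prop
    have h2 : Continuous (fun c : ℂ => G 2 c 0) :=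
      Continuous.comp (g := fun q : ℂ × ℂ => G 2 q.1 q.2) (f := fun c : ℂ => (c, (0 : ℂ))) hGc h3
    exact isOpen_ne_fun h2 continuous_const
  have hexp0 : exp ζ0 = Φ c0 := (hΦc c0 ζ0 hc0).1 hC0
  set ζf : ℂ → ℂ := fun c => ζ0 + log (Φ c / Φ c0) with hζf
  have hζ0 : ζf c0 = ζ0 := by
    simp only [hζf]
    rw [div_self (hΦ0 c0 hc0), log_one, add_zero]
  have hΦca : ContinuousAt Φ c0 := ((hΦd c0 hc0).differentiableAt (hMo.mem_nhds hc0)).continuousAt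
  have hζca : ContinuousAt ζf c0 := by
    refine continuousAt_const.add ?_
    refine ContinuousAt.clog (hΦca.div_const _) ?_
    rw [div_self (hΦ0 c0 hc0)]
    exact one_mem_slitPlane
  have hCf : ∀ c, c ∉ MM 2 → Crit 2 Λ c (ζf c) := by
    intro c hc
    rw [hΦc c _ hc]
    simp only [hζf]
    rw [exp_add, exp_log (div_ne_zero (hΦ0 c hc) (hΦ0 c0 hc0)), hexp0,
      mul_div_cancel₀ _ (hΦ0 c0 hc0)]
  set X : Set (ℂ × ℂ) := {p : ℂ × ℂ | (F 2 p.1)^[k] p.2 = p.2} with hX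
  set 𝓕 : Filter (ℂ × ℂ) := 𝓝[X] (c0, z0) with h𝓕
  have hle : 𝓕 ≤ 𝓝 (c0, z0) := nhdsWithin_le_nhds
  have hfst : Tendsto (fun p : ℂ × ℂ => p.1) 𝓕 (𝓝 c0) :=
    (continuous_fst.tendsto (c0, z0)).mono_left hle
  have hcM : ∀ᶠ p : ℂ × ℂ in 𝓕, p.1 ∉ MM 2 := hfst.eventually (hMo.mem_nhds hc0)
  have hpX : ∀ᶠ p : ℂ × ℂ in 𝓕, (F 2 p.1)^[k] p.2 = p.2 := self_mem_nhdsWithin
  have hζt : Tendsto (fun p : ℂ × ℂ => ζf p.1) 𝓕 (𝓝 ζ0) := by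
    have := hζca.tendsto.comp hfst
    rwa [hζ0] at this
  have hIt : ∀ j : ℕ, Tendsto (fun p : ℂ × ℂ => (F 2 p.1)^[j] p.2) 𝓕
      (𝓝 ((F 2 c0)^[j] z0)) := fun j =>
    ((Pool.Agent.PLim.LOP_.iter_cont 2 j).tendsto (c0, z0)).mono_left hle
  have hGA : ∀ j : ℕ, ∀ᶠ p : ℂ × ℂ in 𝓕, Crit 2 Λ p.1 (ζf p.1) ∧
      G 2 p.1 ((F 2 p.1)^[j] p.2) < (ζf p.1).re := by
    intro j
    filter_upwards [hcM, hpX] with p h1 h2
    refine ⟨hCf _ h1, ?_⟩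
    rw [hGfix p.1 _ p.2 (hCf _ h1) h2 j]
    exact hpos _ _ (hCf _ h1)
  have hBt : ∀ j : ℕ, Tendsto (fun p : ℂ × ℂ => br 2 lh p.1 (ζf p.1) (ε j)
      ((F 2 p.1)^[j + 1] p.2)) 𝓕 (𝓝 (br 2 lh c0 ζ0 (ε j) ((F 2 c0)^[j + 1] z0))) := by
    intro j
    set S : Set (ℂ × ℂ × ℂ) :=
      {p : ℂ × ℂ × ℂ | Crit 2 Λ p.1 p.2.1 ∧ G 2 p.1 p.2.2 < p.2.1.re} with hS
    have h0 : ((c0, ζ0, (F 2 c0)^[j + 1] z0) : ℂ × ℂ × ℂ) ∈ S := by
      refine ⟨hC0, ?_⟩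
      show G 2 c0 ((F 2 c0)^[j + 1] z0) < ζ0.re
      rw [hGfix c0 ζ0 z0 hC0 hfix0 (j + 1)]
      exact hpos _ _ hC0
    have hpt : Tendsto (fun p : ℂ × ℂ => ((p.1, ζf p.1, (F 2 p.1)^[j + 1] p.2) : ℂ × ℂ × ℂ))
        𝓕 (𝓝 (c0, ζ0, (F 2 c0)^[j + 1] z0)) :=
      hfst.prodMk_nhds (hζt.prodMk_nhds (hIt (j + 1)))
    have hin : ∀ᶠ p : ℂ × ℂ in 𝓕, ((p.1, ζf p.1, (F 2 p.1)^[j + 1] p.2) : ℂ × ℂ × ℂ) ∈ S := by
      filter_upwards [hGA (j + 1)] with p h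
      exact h
    have hw := tendsto_nhdsWithin_iff.2 ⟨hpt, hin⟩
    have hlh : Tendsto (fun p : ℂ × ℂ => lh p.1 (ζf p.1) ((F 2 p.1)^[j + 1] p.2)) 𝓕
        (𝓝 (lh c0 ζ0 ((F 2 c0)^[j + 1] z0))) := (hL.lhcont _ h0).tendsto.comp hw
    unfold br
    exact (Complex.continuous_exp.tendsto _).comp ((hlh.add_const _).div_const _)
  have hdig : ∀ j : ℕ, ∀ᶠ p : ℂ × ℂ in 𝓕, Dig 2 lh p.1 (ζf p.1) ((F 2 p.1)^[j] p.2) (ε j) := by
    intro j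
    have hB0 : br 2 lh c0 ζ0 (ε j) ((F 2 c0)^[j + 1] z0) = (F 2 c0)^[j] z0 := by
      have := hdig0 j
      unfold Dig at this
      rw [Function.iterate_succ_apply']
      exact this
    have hne : br 2 lh c0 ζ0 (ε j) ((F 2 c0)^[j + 1] z0) ≠ 0 := Complex.exp_ne_zero _
    have hq' : Tendsto (fun p : ℂ × ℂ => (F 2 p.1)^[j] p.2 /
        br 2 lh p.1 (ζf p.1) (ε j) ((F 2 p.1)^[j + 1] p.2)) 𝓕 (𝓝 1) := by
      have := (hIt j).div (hBt j) hne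
      rw [← hB0, div_self hne] at this
      exact this
    filter_upwards [hq'.eventually (Pool.Agent.PLim.secan_root hn), hGA (j + 1)] with p h1 h2
    have hbne : br 2 lh p.1 (ζf p.1) (ε j) ((F 2 p.1)^[j + 1] p.2) ≠ 0 := Complex.exp_ne_zero _
    have hpow : br 2 lh p.1 (ζf p.1) (ε j) ((F 2 p.1)^[j + 1] p.2) ^ 2 =
        ((F 2 p.1)^[j] p.2) ^ 2 := by
      have h3 := hL.lhexp p.1 (ζf p.1) ((F 2 p.1)^[j + 1] p.2) h2.1 h2.2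
      unfold br
      rw [← Complex.exp_nat_mul, mul_div_cancel₀ _ (by norm_num), Complex.exp_add, h3,
        mul_comm (2 * (Real.pi : ℂ) * I) _, Complex.exp_int_mul_two_pi_mul_I, mul_one,
        Function.iterate_succ_apply']
      show _ ^ 2 + p.1 - p.1 = _
      ring
    have h4 : ((F 2 p.1)^[j] p.2 /
        br 2 lh p.1 (ζf p.1) (ε j) ((F 2 p.1)^[j + 1] p.2)) ^ 2 = 1 := by
      rw [div_pow, hpow]
      apply div_self
      rw [← hpow]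
      exact pow_ne_zero _ hbne
    have h5 := h1 h4
    rw [div_eq_one_iff_eq hbne] at h5
    unfold Dig
    rw [Function.iterate_succ_apply'] at h5
    exact h5.symm
  have hall : ∀ᶠ p : ℂ × ℂ in 𝓕, ∀ j ∈ Finset.range k,
      Dig 2 lh p.1 (ζf p.1) ((F 2 p.1)^[j] p.2) (ε j) :=
    (Filter.eventually_all_finset _).2 fun j _ => hdig j
  -- the word is periodic modulo two
  have hperm : ∀ (c z : ℂ), (F 2 c)^[k] z = z → ∀ j : ℕ,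
      (F 2 c)^[j % k] z = (F 2 c)^[j] z := by
    intro c z h3 j
    have key : ∀ m i : ℕ, (F 2 c)^[i + k * m] z = (F 2 c)^[i] z := by
      intro m i
      induction m with
      | zero => simp
      | succ m ih =>
        rw [show i + k * (m + 1) = (i + k * m) + k by ring, Function.iterate_add_apply, h3]
        exact ih
    have hj := key (j / k) (j % k)
    rw [Nat.mod_add_div] at hj
    exact hj.symm
  have hε : ∀ j : ℕ, (2 : ℤ) ∣ ε (j % k) - ε j := by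
    intro j
    have h1 := hdig0 (j % k)
    rw [hperm c0 z0 hfix0 j] at h1
    have h2 := (gBR 2 Λ lh ls c0 ζ0 hn hB hL hC0).2.2.2.2.1 ((F 2 c0)^[j] z0) (ε (j % k)) (ε j)
      (by rw [hGfix c0 ζ0 z0 hC0 hfix0 j, mul_zero]; exact hpos c0 ζ0 hC0) h1
    exact h2.1 (hdig0 j)
  have hζe : ∀ᶠ p : ℂ × ℂ in 𝓕, ‖ζf p.1 - ζ0‖ < e := by
    have := hζt.eventually (Metric.ball_mem_nhds ζ0 he)
    filter_upwards [this] with p hp
    rwa [← dist_eq_norm]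
  have hfin : ∀ᶠ p : ℂ × ℂ in 𝓕, ∃ ζ : ℂ, ‖ζ - ζ0‖ < e ∧ Crit 2 Λ p.1 ζ ∧
      ∀ j : ℕ, Dig 2 lh p.1 ζ ((F 2 p.1)^[j] p.2) (ε j) := by
    filter_upwards [hall, hcM, hpX, hζe] with p h1 h2 h3 h4
    refine ⟨ζf p.1, h4, hCf _ h2, fun j => ?_⟩
    have h5 := h1 (j % k) (Finset.mem_range.2 (Nat.mod_lt _ (by omega)))
    rw [hperm p.1 p.2 h3 j] at h5
    exact ((gBR 2 Λ lh ls p.1 (ζf p.1) hn hB hL (hCf _ h2)).2.2.2.2.1 ((F 2 p.1)^[j] p.2)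
      (ε (j % k)) (ε j) (by
        rw [hGfix p.1 _ p.2 (hCf _ h2) h3 j, mul_zero]
        exact hpos _ _ (hCf _ h2)) h5).2 (hε j)
  rw [h𝓕, eventually_nhdsWithin_iff, Metric.eventually_nhds_iff] at hfin
  obtain ⟨δ, hδ, h⟩ := hfin
  refine ⟨δ, hδ, fun c z hc hz hfix => ?_⟩
  refine h (y := (c, z)) ?_ hfix
  rw [Prod.dist_eq, dist_eq_norm, dist_eq_norm]
  exact max_lt hc hz

end Pool.Agent.PSat
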