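import Pool.Agent.PSat.Targets
import Pool.Agent.PLim.BR
import Pool.Agent.PLim.GREEN

/-!
# PSAT, DSH: the logarithmic coordinate and the digits (helper29)
-/

set_option autoImplicit false

open Complex Filter Topology Set
open Pool.Agent.Multibrot (MM)
open Pool.Agent.Limb (F)
open Pool.Agent.PLim (Rho IsBot IsLog Crit Dig Gm GWL Rot IsInt Label lab Ex Cod Per Lands InZ LabR
  Vreg ZVn ONTOn NCn OMXn SECTn LocFix G br)
open Pool.Agent.MEX (Exa LI)
open Pool.Agent.MEY (Pt Omg DD Glob)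

namespace Pool.Agent.PSat

namespace DSH_

/-- the potential of a critical value outside the Mandelbrot set -/
lemma crit_pos {Λ : ℂ → ℂ → ℂ} {c ζ : ℂ} (hC : Crit 2 Λ c ζ) : 0 < G 2 c 0 ∧ G 2 c 0 < ζ.re := by
  obtain ⟨-, hpos, -, -, -, hmm, hcc, -⟩ := Pool.Agent.PLim.p_GREEN 2 le_rfl
  have h0 : G 2 c 0 ≠ 0 := fun h => hC.1 ((hmm c).2 h)
  have h1 : 0 < G 2 c 0 := lt_of_le_of_ne (hpos c 0) (Ne.symm h0)
  refine ⟨h1, ?_⟩
  have h2 := hcc c
  rw [hC.2.1, h2]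
  push_cast
  linarith

/-- the potential of a periodic point is zero -/
lemma green_per {K : ℕ} {c z : ℂ} (hK : 1 ≤ K) (h : (F 2 c)^[K] z = z) : G 2 c z = 0 := by
  obtain ⟨-, hpos, hfun, -, -, -, -, -⟩ := Pool.Agent.PLim.p_GREEN 2 le_rfl
  have h1 : ∀ j : ℕ, G 2 c ((F 2 c)^[j] z) = 2 ^ j * G 2 c z := by
    intro j
    induction j with
    | zero => simp
    | succ j ih =>
      rw [Function.iterate_succ_apply', hfun, ih, pow_succ]
      push_cast
      ring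
  have h2 := h1 K
  rw [h] at h2
  have h3 : (2 : ℝ) ≤ 2 ^ K := by
    calc (2 : ℝ) = 2 ^ 1 := (pow_one 2).symm
      _ ≤ 2 ^ K := pow_le_pow_right₀ (by norm_num) hK
  have h4 := hpos c z
  nlinarith

/-- the translation by `2 π i` -/
lemma rot_one {Λ : ℂ → ℂ → ℂ} (hB : IsBot 2 Λ) {c s : ℂ} (hs : G 2 c 0 < s.re) :
    Λ c (s + 2 * Real.pi * I) = Λ c s + 2 * Real.pi * I := by
  have h1 := hB.rot c s hs
  have hre : (s + 2 * Real.pi * I / ((2 : ℕ) : ℂ)).re = s.re := by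
    have : (2 * Real.pi * I / ((2 : ℕ) : ℂ)) = (Real.pi : ℂ) * I := by
      push_cast
      ring
    rw [this]
    simp
  have h2 := hB.rot c (s + 2 * Real.pi * I / ((2 : ℕ) : ℂ)) (by rw [hre]; exact hs)
  rw [h1] at h2
  have e1 : s + 2 * Real.pi * I / ((2 : ℕ) : ℂ) + 2 * Real.pi * I / ((2 : ℕ) : ℂ) =
      s + 2 * Real.pi * I := by
    push_cast
    ring
  have e2 : Λ c s + 2 * Real.pi * I / ((2 : ℕ) : ℂ) + 2 * Real.pi * I / ((2 : ℕ) : ℂ) =
      Λ c s + 2 * Real.pi * I := by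
    push_cast
    ring
  rw [e1, e2] at h2
  exact h2

lemma re_add (s : ℂ) (m : ℤ) : (s + 2 * Real.pi * I * m).re = s.re := by
  have : (2 * Real.pi * I * (m : ℂ)) = ((2 * Real.pi * m : ℝ) : ℂ) * I := by
    push_cast
    ring
  rw [this]
  simp

lemma rot_int {Λ : ℂ → ℂ → ℂ} (hB : IsBot 2 Λ) {c s : ℂ} (hs : G 2 c 0 < s.re) (m : ℤ) :
    Λ c (s + 2 * Real.pi * I * m) = Λ c s + 2 * Real.pi * I * m := by
  induction m using Int.induction_on with
  | zero => simp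
  | succ i ih =>
    have h := rot_one hB (c := c) (s := s + 2 * Real.pi * I * ((i : ℤ) : ℂ))
      (by rw [re_add]; exact hs)
    rw [ih] at h
    have e1 : s + 2 * Real.pi * I * (((i : ℤ) + 1 : ℤ) : ℂ) =
        s + 2 * Real.pi * I * ((i : ℤ) : ℂ) + 2 * Real.pi * I := by
      push_cast
      ring
    rw [e1, h]
    push_cast
    ring
  | pred i ih =>
    have h := rot_one hB (c := c) (s := s + 2 * Real.pi * I * ((-(i : ℤ) - 1 : ℤ) : ℂ))
      (by rw [re_add]; exact hs)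
    have e1 : s + 2 * Real.pi * I * ((-(i : ℤ) - 1 : ℤ) : ℂ) + 2 * Real.pi * I =
        s + 2 * Real.pi * I * ((-(i : ℤ) : ℤ) : ℂ) := by
      push_cast
      ring
    rw [e1, ih] at h
    have h' : Λ c (s + 2 * Real.pi * I * ((-(i : ℤ) - 1 : ℤ) : ℂ)) =
        Λ c s + 2 * Real.pi * I * ((-(i : ℤ) : ℤ) : ℂ) - 2 * Real.pi * I := by
      rw [h]
      ring
    rw [h']
    push_cast
    ring

lemma crit_shift {Λ : ℂ → ℂ → ℂ} {c ζ : ℂ} (hB : IsBot 2 Λ) (hC : Crit 2 Λ c ζ) (m : ℤ) :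
    Crit 2 Λ c (ζ + 2 * Real.pi * I * m) := by
  refine ⟨hC.1, ?_, ?_⟩
  · rw [re_add]
    exact hC.2.1
  · rw [rot_int hB (crit_pos hC).2 m, Complex.exp_add, hC.2.2, Pool.Agent.PLim.BR_.exp_int,
      mul_one]

lemma lh_shift {Λ : ℂ → ℂ → ℂ} {lh ls : ℂ → ℂ → ℂ → ℂ} {c ζ z : ℂ} (hB : IsBot 2 Λ)
    (hL : IsLog 2 Λ lh ls) (hC : Crit 2 Λ c ζ) (hz : G 2 c z < ζ.re) (m : ℤ) :
    lh c (ζ + 2 * Real.pi * I * m) z = lh c ζ z + 2 * Real.pi * I * m := by
  induction m using Int.induction_on with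
  | zero => simp
  | succ i ih =>
    have h := hL.lhper c (ζ + 2 * Real.pi * I * ((i : ℤ) : ℂ)) z (crit_shift hB hC i)
      (by rw [re_add]; exact hz)
    rw [ih] at h
    have e1 : ζ + 2 * Real.pi * I * (((i : ℤ) + 1 : ℤ) : ℂ) =
        ζ + 2 * Real.pi * I * ((i : ℤ) : ℂ) + 2 * Real.pi * I := by
      push_cast
      ring
    rw [e1, h]
    push_cast
    ring
  | pred i ih =>
    have h := hL.lhper c (ζ + 2 * Real.pi * I * ((-(i : ℤ) - 1 : ℤ) : ℂ)) z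
      (crit_shift hB hC (-(i : ℤ) - 1)) (by rw [re_add]; exact hz)
    have e1 : ζ + 2 * Real.pi * I * ((-(i : ℤ) - 1 : ℤ) : ℂ) + 2 * Real.pi * I =
        ζ + 2 * Real.pi * I * ((-(i : ℤ) : ℤ) : ℂ) := by
      push_cast
      ring
    rw [e1, ih] at h
    have h' : lh c (ζ + 2 * Real.pi * I * ((-(i : ℤ) - 1 : ℤ) : ℂ)) z =
        lh c ζ z + 2 * Real.pi * I * ((-(i : ℤ) : ℤ) : ℂ) - 2 * Real.pi * I := by
      rw [h]
      ring
    rw [h']
    push_cast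
    ring

end DSH_

open DSH_ in
/-- the target `T_DSH` -/
theorem p_DSH : T_DSH := by
  intro Λ lh ls c ζ hB hL hC
  obtain ⟨hG0, hGζ⟩ := crit_pos hC
  have hfun := (Pool.Agent.PLim.p_GREEN 2 le_rfl).2.2.1
  refine ⟨crit_shift hB hC, ?_, ?_, ?_⟩
  · intro ζ' hC'
    obtain ⟨k, hk⟩ := hB.inj c ζ ζ' hGζ (crit_pos hC').2 (by rw [hC.2.2, hC'.2.2])
    refine ⟨-k, ?_⟩
    push_cast
    linear_combination -hk
  · intro K z m i hK hz
    have h0 : G 2 c (F 2 c z) < ζ.re := by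
      rw [hfun, green_per hK hz, mul_zero]
      linarith
    have key : br 2 lh c (ζ + 2 * Real.pi * I * m) i (F 2 c z) = br 2 lh c ζ (i + m) (F 2 c z) := by
      unfold br
      rw [lh_shift hB hL hC h0 m]
      congr 2
      push_cast
      ring
    unfold Dig
    rw [key]
  · intro K z i j hK hz hi
    have h5 := (Pool.Agent.PLim.p_BR Pool.Agent.PLim.p_GREEN 2 Λ lh ls c ζ le_rfl hB hL
      hC).2.2.2.2.1
    have h0 : ((2 : ℕ) : ℝ) * G 2 c z < ζ.re := by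
      rw [green_per hK hz, mul_zero]
      linarith
    have h6 := h5 z i j h0 hi
    exact_mod_cast h6

end Pool.Agent.PSat
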