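import Pool.Agent.PSat.Basic

/-!
# PSAT: target T_EXL (inside `V` the angle is not at the end)
-/

set_option autoImplicit false

open Complex Filter Topology Set
open Pool.Agent.Multibrot (MM)
open Pool.Agent.Limb (F)
open Pool.Agent.PLim (Rho IsBot IsLog Crit Dig Rot IsInt Label lab Ex Cod Per Lands InZ LabR)
open Pool.Agent.MEX (Exa)
open Pool.Agent.MEY (Pt Omg DD Glob)

namespace Pool.Agent.PSat

namespace EXL_

lemma an_add (ζ : ℂ) (s : ℝ) : an (ζ + s * I) = an ζ + s / (2 * Real.pi) := by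
  unfold an
  simp [add_div]

/-- the normalized coordinate can be moved vertically -/
lemma nearby (hDLC : T_DLC) (hDSH : T_DSH) {X : Full} (hX : Ok X) {μ ζ : ℂ} (h : Xt X μ ζ)
    {U : Set ℂ} (hU : U ∈ 𝓝 μ) :
    ∀ᶠ s : ℝ in 𝓝 0, ∃ μ' ∈ U, Xt X μ' (ζ + s * I) := by
  obtain ⟨h1, h2, h3, h4, h5⟩ := h
  have hμ2 : μ ∈ Metric.ball X.m0 (2 * X.ρ) := hX.dt.sub2 h1
  obtain ⟨Cp, hC1, hC2, hC3⟩ := Pool.Agent.PLim.a_PAR 2 X.Λ le_rfl hX.dt.bot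
  obtain ⟨hre, hCp⟩ := hC3 _ _ h2
  obtain ⟨σ, s1, s2, s3, -⟩ := hX.dt.psi_inv hμ2
  obtain ⟨δ, hδ, hδ'⟩ := hDLC X.k X.Λ X.lh X.ls (X.ψ μ) ζ (X.χ μ) X.ε 1 hX.dt.hk hX.dt.bot
    hX.dt.log h2 (hX.dt.pt μ hμ2).fix h3 one_pos
  have t0 : Tendsto (fun s : ℝ => ζ + s * I) (𝓝 0) (𝓝 ζ) := by
    have hc : ContinuousAt (fun s : ℝ => ζ + s * I) 0 := by fun_prop
    have hc' := hc.tendsto
    simpa using hc'
  have t1 : Tendsto (fun s : ℝ => Cp (ζ + s * I)) (𝓝 0) (𝓝 (X.ψ μ)) := by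
    have hc : ContinuousAt Cp ζ := (hC1.differentiableAt
      ((isOpen_lt continuous_const continuous_re).mem_nhds hre)).continuousAt
    rw [hCp]
    exact hc.tendsto.comp t0
  have t2 : Tendsto (fun s : ℝ => σ (Cp (ζ + s * I))) (𝓝 0) (𝓝 μ) := by
    have hc := s1.tendsto.comp t1
    rw [s2] at hc
    exact hc
  have t3 : Tendsto (fun s : ℝ => X.χ (σ (Cp (ζ + s * I)))) (𝓝 0) (𝓝 (X.χ μ)) :=
    (hX.dt.chi_cont hμ2).tendsto.comp t2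
  have t4 : Tendsto (fun s : ℝ => Rot 2 X.k (an (ζ + s * I)) X.ε) (𝓝 0)
      (𝓝 (Rot 2 X.k (an ζ) X.ε)) := by
    have c1 := (Pool.Agent.PLim.a_RC 2 X.k X.ε le_rfl).1
    have c2 : Continuous an := by
      unfold an
      exact continuous_im.div_const _
    exact ((c1.comp c2).continuousAt (x := ζ)).tendsto.comp t0
  have e1 : ∀ᶠ s : ℝ in 𝓝 0, X.ψ (σ (Cp (ζ + s * I))) = Cp (ζ + s * I) := t1.eventually s3
  have e2 : ∀ᶠ s : ℝ in 𝓝 0, σ (Cp (ζ + s * I)) ∈ U ∩ Metric.ball X.m0 X.ρ :=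
    t2 (Filter.inter_mem hU (Metric.isOpen_ball.mem_nhds h1))
  have e3 : ∀ᶠ s : ℝ in 𝓝 0, Cp (ζ + s * I) ∈ Metric.ball (X.ψ μ) δ :=
    t1 (Metric.ball_mem_nhds _ hδ)
  have e4 : ∀ᶠ s : ℝ in 𝓝 0, X.χ (σ (Cp (ζ + s * I))) ∈ Metric.ball (X.χ μ) δ :=
    t3 (Metric.ball_mem_nhds _ hδ)
  have e5 : ∀ᶠ s : ℝ in 𝓝 0, Rot 2 X.k (an (ζ + s * I)) X.ε ∈ Ioo (X.j0 : ℝ) (X.j0 + 1) :=
    t4 (isOpen_Ioo.mem_nhds ⟨h4, h5⟩)
  have e6 : ∀ᶠ s : ℝ in 𝓝 0, s ∈ Metric.ball (0 : ℝ) 1 := Metric.ball_mem_nhds _ one_pos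
  filter_upwards [e1, e2, e3, e4, e5, e6] with s f1 f2 f3 f4 f5 f6
  have hre' : 0 < (ζ + s * I).re := by simpa using hre
  have hcr : Crit 2 X.Λ (X.ψ (σ (Cp (ζ + s * I)))) (ζ + s * I) := by
    rw [f1]
    exact hC2 _ hre'
  refine ⟨σ (Cp (ζ + s * I)), f2.1, f2.2, hcr, ?_, f5.1, f5.2⟩
  rw [mem_ball_iff_norm] at f3 f4 f6
  have hfix := (hX.dt.pt _ (hX.dt.sub2 f2.2)).fix
  obtain ⟨ζ'', g1, g2, g3⟩ := hδ' (X.ψ (σ (Cp (ζ + s * I)))) (X.χ (σ (Cp (ζ + s * I))))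
    (by rw [f1]; exact f3) f4 hfix
  obtain ⟨m, hm⟩ := (hDSH X.Λ X.lh X.ls (X.ψ (σ (Cp (ζ + s * I)))) (ζ + s * I) hX.dt.bot
    hX.dt.log hcr).2.1 ζ'' g2
  have hm0 : m = 0 := by
    have i1 : (ζ'' - ζ).im = s + 2 * Real.pi * m := by
      rw [hm]
      simp
      ring
    have i2 := abs_im_le_norm (ζ'' - ζ)
    rw [i1] at i2
    have i3 : |s| < 1 := by simpa using f6
    have i4 : |2 * Real.pi * (m : ℝ)| < 2 := by
      have i5 : 2 * Real.pi * (m : ℝ) = (s + 2 * Real.pi * m) - s := by ring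
      rw [i5]
      have i6 := abs_sub (s + 2 * Real.pi * (m : ℝ)) s
      linarith
    by_contra hne
    have i7 : (1 : ℝ) ≤ |(m : ℝ)| := by
      have := Int.one_le_abs hne
      exact_mod_cast this
    rw [abs_mul, abs_of_pos (by positivity : (0 : ℝ) < 2 * Real.pi)] at i4
    have i8 := Real.pi_gt_three
    nlinarith
  rw [hm0] at hm
  have hm1 : ζ'' = ζ + s * I := by
    rw [hm]
    simp
  rw [hm1] at g3
  exact g3

end EXL_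

theorem p_EXL (hVPR : T_VPR) (hDLC : T_DLC) (hDSH : T_DSH) : T_EXL := by
  intro X hX μ1 hμ1 hM
  obtain ⟨δ, hδ, hV⟩ := (hVPR X.toCtx hX.dt hX.cst).2.1 μ1 hμ1 hM
  refine ⟨δ, hδ, ?_⟩
  intro μ hμ ζ hζ
  have hpi : (0 : ℝ) < 2 * Real.pi := by positivity
  obtain ⟨ha, hb⟩ := (hX.vab μ ζ hζ).1 (hV hμ)
  have hev := EXL_.nearby hDLC hDSH hX hζ (Metric.isOpen_ball.mem_nhds hμ)
  obtain ⟨η, hη, hη'⟩ := Metric.eventually_nhds_iff_ball.mp hev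
  have key : ∀ s : ℝ, |s| < η → X.a ≤ an ζ + s / (2 * Real.pi) ∧
      an ζ + s / (2 * Real.pi) ≤ X.b := by
    intro s hs
    obtain ⟨μ', h1, h2⟩ := hη' s (by simpa using hs)
    have h3 := (hX.vab μ' _ h2).1 (hV h1)
    rwa [EXL_.an_add] at h3
  have k1 := (key (-(η / 2)) (by rw [abs_neg, abs_of_pos (by positivity)]; linarith)).1
  have k2 := (key (η / 2) (by rw [abs_of_pos (by positivity)]; linarith)).2
  have k3 : 0 < η / 2 / (2 * Real.pi) := by positivity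
  rw [neg_div] at k1
  constructor <;> linarith

end Pool.Agent.PSat
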