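import Pool.Agent.PSat.Basic

/-!
# PSAT: EXV, outside the Mandelbrot set, in `V`
-/

set_option autoImplicit false

open Complex Filter Topology Set
open Pool.Agent.Multibrot (MM)
open Pool.Agent.Limb (F)
open Pool.Agent.PLim (Rho IsBot IsLog Crit Dig Rot IsInt Label lab Ex Cod Per Lands InZ LabR
  ZVn ONTOn NCn OMXn SECTn LocFix)
open Pool.Agent.MEX (Exa)
open Pool.Agent.MEY (Pt Omg DD Glob)

namespace Pool.Agent.PSat

namespace EXV_

/-- a point with a word of exact period `K` has exact period `K` -/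
lemma exa_of_word (hDSH : T_DSH) {K : ℕ} {Λ : ℂ → ℂ → ℂ} {lh ls : ℂ → ℂ → ℂ → ℂ} {c ζ z : ℂ}
    {η : ℕ → ℤ} (hK : 1 ≤ K) (hΛ : IsBot 2 Λ) (hl : IsLog 2 Λ lh ls) (hc : Crit 2 Λ c ζ)
    (hz : (F 2 c)^[K] z = z) (hη : ExW K η)
    (hd : ∀ t : ℕ, Dig 2 lh c ζ ((F 2 c)^[t] z) (η t)) : Exa 2 K c z := by
  intro d h0 h1 hdz
  refine hη.exa d h0 h1 fun t => ?_
  obtain ⟨-, -, -, h4⟩ := hDSH Λ lh ls c ζ hΛ hl hc
  have e1 : (F 2 c)^[t + d] z = (F 2 c)^[t] z := by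
    rw [Function.iterate_add_apply, hdz]
  have h2 := hd (t + d)
  rw [e1] at h2
  have h3 := (h4 K _ (η (t + d)) (η t) hK (fix_iter hz t) h2).1 (hd t)
  exact h3

end EXV_

theorem p_EXV (hIZE : T_IZE) (hXTU : T_XTU) (hDSH : T_DSH) : T_EXV := by
  intro X hX μ ζ z hxt ha hb hz
  have hD := hX.dt
  have hK := hD.hK1
  have hC := hX.cmb
  have hc : Crit 2 X.Λ (X.ψ μ) ζ := hxt.2.1
  have hM : X.ψ μ ∉ MM 2 := hc.1
  have hper : Per X.K X.ω := hC.exo.per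
  constructor
  · rintro ⟨-, -, h | h | h | h⟩
    · obtain ⟨-, ζ', i, hx', hw⟩ := h
      have e0 : ζ' = ζ := hXTU X hX μ ζ' ζ hx' hxt
      rw [e0] at hw
      refine ⟨X.K * i - i, ?_⟩
      have hi : i ≤ X.K * i := Nat.le_mul_of_pos_left i hK
      have hdig : ∀ t : ℕ, Dig 2 X.lh (X.ψ μ) ζ
          ((F 2 (X.ψ μ))^[t] ((F 2 (X.ψ μ))^[X.K * i - i] z)) (X.ω t) := by
        intro t
        have h1 := hw (t + (X.K * i - i))
        rw [Function.iterate_add_apply] at h1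
        have e1 : sh i X.ω (t + (X.K * i - i)) = X.ω t := by
          rw [sh_apply, show t + (X.K * i - i) + i = t + X.K * i by omega]
          exact per_iter hper t i
        rwa [e1] at h1
      rw [(hIZE X.K X.Λ X.lh X.ls (X.ψ μ) ζ _ X.ω hK hD.bot hD.log hc (fix_iter hz _) hper
        hdig).2]
      exact hC.lbl (an ζ) ha hb
    · exact absurd h.1 hM
    · exact absurd h.1 hM
    · exact absurd h.1 hM
  · rintro ⟨j, hj⟩
    have hzj := fix_iter hz j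
    obtain ⟨-, hF⟩ := Pool.Agent.PLim.a_FIXE 2 X.K X.Λ X.lh X.ls (X.ψ μ) ζ le_rfl hK hD.bot
      hD.log hc
    obtain ⟨-, -, η, hη, hηd⟩ := hF _ hzj
    rw [(hIZE X.K X.Λ X.lh X.ls (X.ψ μ) ζ _ η hK hD.bot hD.log hc hzj hη hηd).2] at hj
    obtain ⟨he, -, -⟩ := hC.uni (an ζ) η ha.le hb.le hη hj.1 hj.2
    obtain ⟨-, -, -, h4⟩ := hDSH X.Λ X.lh X.ls (X.ψ μ) ζ hD.bot hD.log hc
    have hdig : ∀ t : ℕ, Dig 2 X.lh (X.ψ μ) ζ ((F 2 (X.ψ μ))^[t] ((F 2 (X.ψ μ))^[j] z))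
        (X.ω t) := fun t =>
      (h4 X.K _ (η t) (X.ω t) hK (fix_iter hzj t) (hηd t)).2 (he t)
    have hW : X.Wd μ ζ z (sh (X.K * j - j) X.ω) := by
      intro t
      have h1 := hdig (t + (X.K * j - j))
      rw [Function.iterate_add_apply, fix_back hz hK j] at h1
      exact h1
    refine ⟨hz, ?_, Or.inl ⟨hM, ζ, X.K * j - j, hxt, hW⟩⟩
    exact EXV_.exa_of_word hDSH hK hD.bot hD.log hc hz (hC.exo.shift hK _) hW

end Pool.Agent.PSat
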