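import Pool.Agent.PSat.Targets
import Pool.Agent.PSat.Words

/-!
# FAR: separation of rational numbers
-/

set_option autoImplicit false

open Set
open Pool.Agent.PLim (IsInt)

namespace Pool.Agent.PSat

theorem p_FAR : T_FAR := by
  intro q K M R0 R hq hM hMK h0 h1 hne
  have hM0 : (0 : ℝ) < M := by exact_mod_cast (by omega : 0 < M)
  by_cases hqM : q ∣ M
  · -- `v = M + 1`
    have hq1 : ¬ q ∣ M + 1 := by
      intro h
      have h2 : q ∣ 1 := (Nat.dvd_add_right hqM).mp h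
      have := Nat.le_of_dvd one_pos h2
      omega
    have hR0 : IsInt (M * R0) := by
      obtain ⟨d, rfl⟩ := hqM
      push_cast
      rw [show (q : ℝ) * d * R0 = d * (q * R0) by ring]
      exact isInt_mul (isInt_nat d) h0
    have hd : IsInt (M * R - M * R0) := isInt_sub h1 hR0
    have hM1 : (0 : ℝ) < (M : ℝ) + 1 := by linarith
    rcases lt_or_gt_of_ne hne with hlt | hgt
    · -- `R < R0`
      have h2 : 1 ≤ M * (R0 - R) := by
        obtain ⟨a, ha⟩ := hd
        have h3 : M * (R0 - R) = ((-a : ℤ) : ℝ) := by push_cast; linarith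
        have h4 : (0 : ℝ) < ((-a : ℤ) : ℝ) := by rw [← h3]; exact mul_pos hM0 (by linarith)
        have h5 : (0 : ℤ) < -a := by exact_mod_cast h4
        rw [h3]
        exact_mod_cast (by omega : (1 : ℤ) ≤ -a)
      refine ⟨⌈((M : ℝ) + 1) * R0⌉ - 1, M + 1, by omega, by omega, hq1, Or.inr ⟨?_, ?_⟩⟩
      · push_cast
        rw [le_div_iff₀ hM1]
        have h3 : ((M : ℝ) + 1) * R0 ≤ ⌈((M : ℝ) + 1) * R0⌉ := Int.le_ceil _
        have h4 : R0 - R ≤ R0 - R := le_refl _
        nlinarith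
      · push_cast
        rw [div_lt_iff₀ hM1]
        have h3 : (⌈((M : ℝ) + 1) * R0⌉ : ℝ) < ((M : ℝ) + 1) * R0 + 1 := Int.ceil_lt_add_one _
        linarith
    · -- `R0 < R`
      have h2 : 1 ≤ M * (R - R0) := by
        obtain ⟨a, ha⟩ := hd
        have h3 : M * (R - R0) = ((a : ℤ) : ℝ) := by rw [← ha]; ring
        have h4 : (0 : ℝ) < ((a : ℤ) : ℝ) := by rw [← h3]; exact mul_pos hM0 (by linarith)
        have h5 : (0 : ℤ) < a := by exact_mod_cast h4
        rw [h3]
        exact_mod_cast (by omega : (1 : ℤ) ≤ a)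
      refine ⟨⌊((M : ℝ) + 1) * R0⌋ + 1, M + 1, by omega, by omega, hq1, Or.inl ⟨?_, ?_⟩⟩
      · push_cast
        rw [lt_div_iff₀ hM1]
        have h3 : ((M : ℝ) + 1) * R0 < ⌊((M : ℝ) + 1) * R0⌋ + 1 := Int.lt_floor_add_one _
        linarith
      · push_cast
        rw [div_le_iff₀ hM1]
        have h3 : (⌊((M : ℝ) + 1) * R0⌋ : ℝ) ≤ ((M : ℝ) + 1) * R0 := Int.floor_le _
        nlinarith
  · -- `v = M`
    obtain ⟨a, ha⟩ := h1
    have h2 : (a : ℝ) / M = R := by
      rw [← ha]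
      field_simp
    refine ⟨a, M, hM, by omega, hqM, ?_⟩
    rw [h2]
    rcases lt_or_gt_of_ne hne with hlt | hgt
    · exact Or.inr ⟨le_refl _, hlt⟩
    · exact Or.inl ⟨hgt, le_refl _⟩

end Pool.Agent.PSat
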