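import Pool.Agent.PSat.Targets
import Pool.Agent.PLim.All

/-!
# FNL: the limb bound
-/

set_option autoImplicit false

open Complex Filter Topology Set
open Pool.Agent.Multibrot (MM)
open Pool.Agent.Limb (F)
open Pool.Agent.PLim (Rho OMXn)
open Pool.Agent.MEY (Pt)

namespace Pool.Agent.PSat

namespace FNL_

/-- the parameters of the Mandelbrot set have modulus at most two -/
lemma norm_mm {c : ℂ} (hc : c ∈ MM 2) : ‖c‖ ≤ 2 := by
  have h := hc 1
  rw [show (1 : ℕ) = 0 + 1 from rfl, Pool.Agent.Multibrot.Q_succ] at h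
  simpa using h

/-- periodic points are bounded -/
lemma per_bd {K : ℕ} {c z : ℂ} {B : ℝ} (hK : 1 ≤ K) (hB : 0 ≤ B) (hc : ‖c‖ ≤ B)
    (hz : (F 2 c)^[K] z = z) : ‖z‖ ≤ B + 2 := by
  by_contra hn
  push Not at hn
  have key : ∀ j : ℕ, ‖z‖ < ‖(F 2 c)^[j + 1] z‖ := by
    have step : ∀ w : ℂ, B + 2 < ‖w‖ → ‖w‖ < ‖F 2 c w‖ := by
      intro w hw
      have h1 : ‖w ^ 2‖ - ‖c‖ ≤ ‖F 2 c w‖ := by
        unfold F
        have h2 := norm_sub_norm_le (w ^ 2) (-c)
        rw [norm_neg, sub_neg_eq_add] at h2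
        exact h2
      rw [norm_pow] at h1
      nlinarith
    intro j
    induction j with
    | zero => exact step z hn
    | succ j ih =>
      rw [Function.iterate_succ_apply']
      exact ih.trans (step _ (hn.trans ih))
  obtain ⟨j, rfl⟩ : ∃ j, K = j + 1 := ⟨K - 1, by omega⟩
  have h := key j
  rw [hz] at h
  exact lt_irrefl _ h

/-- the points on the radius -/
lemma radius {e : ℂ} (he : ‖e‖ = 1) : ∃ v : ℕ → ℂ, (∀ n, v n ∈ Metric.ball (0 : ℂ) 1) ∧
    Tendsto v atTop (𝓝 e) := by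
  refine ⟨fun n => ((1 - 1 / ((n : ℝ) + 1 + 1) : ℝ) : ℂ) * e, fun n => ?_, ?_⟩
  · rw [mem_ball_zero_iff, norm_mul, he, mul_one, Complex.norm_real, Real.norm_eq_abs, abs_lt]
    have h0 : (0 : ℝ) < (n : ℝ) + 1 + 1 := by positivity
    have h1 : 0 < 1 / ((n : ℝ) + 1 + 1) := by positivity
    have h2 : 1 / ((n : ℝ) + 1 + 1) ≤ 1 := by
      rw [div_le_one h0]
      have : (0 : ℝ) ≤ n := Nat.cast_nonneg _
      linarith
    constructor <;> linarith
  · have h1 : Tendsto (fun n : ℕ => 1 - 1 / ((n : ℝ) + 1 + 1)) atTop (𝓝 (1 - 0)) := by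
      refine tendsto_const_nhds.sub ?_
      have h2 := (tendsto_one_div_add_atTop_nhds_zero_nat (𝕜 := ℝ)).comp (tendsto_add_atTop_nat 1)
      refine h2.congr fun n => ?_
      simp only [Function.comp_apply, Nat.cast_add, Nat.cast_one]
    rw [sub_zero] at h1
    have h3 := ((continuous_ofReal.tendsto 1).comp h1).mul_const e
    rw [ofReal_one, one_mul] at h3
    exact h3

/-- the periodic point at the root -/
lemma rootpt {K : ℕ} {P : ℂ → ℂ} (hP : Comp K P) {e r : ℂ} (he : ‖e‖ = 1)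
    (hlim : Tendsto P (𝓝[Metric.ball 0 1] e) (𝓝 r)) :
    ∃ z0 : ℂ, (F 2 r)^[K] z0 = z0 ∧ Rho 2 K r z0 = e := by
  obtain ⟨v, hv, hve⟩ := radius he
  have hv' : Tendsto v atTop (𝓝[Metric.ball 0 1] e) :=
    tendsto_nhdsWithin_iff.2 ⟨hve, Eventually.of_forall hv⟩
  have hPv : Tendsto (fun n => P (v n)) atTop (𝓝 r) := hlim.comp hv'
  choose z hz using fun n => hP.pt (v n) (hv n)
  have hbd : ∀ᶠ n in atTop, z n ∈ Metric.closedBall (0 : ℂ) (‖r‖ + 1 + 2) := by
    have h1 : ∀ᶠ n in atTop, ‖P (v n)‖ < ‖r‖ + 1 :=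
      hPv.norm.eventually (gt_mem_nhds (by linarith : ‖r‖ < ‖r‖ + 1))
    filter_upwards [h1] with n hn
    rw [mem_closedBall_zero_iff]
    exact per_bd hP.hK (by positivity) hn.le (hz n).fix
  obtain ⟨z0, -, φ, hφ, hφz⟩ := (isCompact_closedBall (0 : ℂ) (‖r‖ + 1 + 2)).tendsto_subseq'
    hbd.frequently
  have hφt := hφ.tendsto_atTop
  have hpair : Tendsto (fun n => (P (v (φ n)), z (φ n))) atTop (𝓝 (r, z0)) :=
    Tendsto.prodMk_nhds (hPv.comp hφt) hφz
  refine ⟨z0, ?_, ?_⟩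
  · have h1 := ((Pool.Agent.PLim.CNT_contI 2 K).tendsto (r, z0)).comp hpair
    refine tendsto_nhds_unique h1 (hφz.congr fun n => ?_)
    exact (hz (φ n)).fix.symm
  · have h1 := ((Pool.Agent.PLim.CNT_contR 2 K).tendsto (r, z0)).comp hpair
    refine tendsto_nhds_unique h1 ((hve.comp hφt).congr fun n => ?_)
    exact (hz (φ n)).mul.symm

lemma exp_pq (p q : ℕ) : exp (2 * Real.pi * I * p / q) =
    exp (((2 * Real.pi * p / q : ℝ) : ℂ) * I) := by
  congr 1
  push_cast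
  ring

lemma norm_exp_pq (p q : ℕ) : ‖exp (2 * Real.pi * I * p / q)‖ = 1 := by
  rw [exp_pq, norm_exp_ofReal_mul_I]

/-- the far case -/
lemma far {CL : ℝ} (hL : ∀ (k p q : ℕ) (r z0 : ℂ) (A : Set ℂ), 1 ≤ k → 0 < p → p < q →
      p.Coprime q → (F 2 r)^[k] z0 = z0 → Rho 2 k r z0 = exp (2 * Real.pi * I * p / q) →
      A ⊆ MM 2 → (∃ U : Set ℂ, IsOpen U ∧ A = MM 2 ∩ U) → IsClosed (insert r A) → r ∉ A →
      (0 : ℂ) ∉ A →
      r ∈ MM 2 ∧ ∀ c ∈ A, ‖c - r‖ * (min p (q - p) : ℕ) ^ 2 ≤ CL * k ^ 2 * q)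
    {K : ℕ} {P : ℂ → ℂ} (hP : Comp K P) {p q : ℕ} {r : ℂ} {A : Set ℂ} (hA : Lmb P p q r A) :
    r ∈ MM 2 ∧ ∀ c ∈ A, ‖c - r‖ * (min p (q - p) : ℕ) ^ 2 ≤ CL * K ^ 2 * q := by
  obtain ⟨z0, h1, h2⟩ := rootpt hP (norm_exp_pq p q) hA.lim
  exact hL K p q r z0 A hP.hK hA.hp hA.hpq hA.cop h1 h2 hA.sub hA.op hA.cl hA.nr hA.n0

/-- the near case -/
lemma near (hLIW : T_LIW) {C1 : ℝ} (hC1 : 1 ≤ C1) (hO : OMXn 2 C1) {K : ℕ} {R : ℝ} (hR0 : 0 < R)
    (hR1 : R ≤ 1 / 2) {r0 : ℂ} {Q Z : ℂ → ℂ} (hS : SecR K R r0 Q Z) {P : ℂ → ℂ} (hP : Comp K P)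
    (hl0 : Tendsto P (𝓝[Metric.ball 0 1] 1) (𝓝 r0)) {p q : ℕ} {r : ℂ} {A : Set ℂ}
    (hA : Lmb P p q r A) {s : ℝ} (hs : exp ((s : ℂ) * I) = 1)
    (hs' : |2 * Real.pi * p / q - s| < R / 2) :
    r ∈ MM 2 ∧ ∀ c ∈ A, ‖c - r‖ * q ≤ 100 * C1 * K / R := by
  have hpq : p < q := hA.hpq
  have hq0 : (0 : ℝ) < q := by
    have : 0 < q := by omega
    exact_mod_cast this
  have hKR : (1 : ℝ) ≤ K := by exact_mod_cast hP.hK
  set τ : ℝ := 2 * Real.pi * p / q with hτ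
  set η : ℝ := R / 2 with hη
  have hη0 : 0 < η := by positivity
  -- the shifted section
  set Q' : ℂ → ℂ := fun μ => Q (μ - s * I) with hQ'
  set Z' : ℂ → ℂ := fun μ => Z (μ - s * I) with hZ'
  have hre : ∀ μ : ℂ, (μ - s * I).re = μ.re := by
    intro μ
    simp
  have hmem : ∀ μ ∈ Metric.ball ((τ : ℂ) * I) η, μ - s * I ∈ Metric.ball (0 : ℂ) R := by
    intro μ hμ
    rw [mem_ball_iff_norm] at hμ
    rw [mem_ball_zero_iff]
    have h1 : μ - s * I = (μ - τ * I) + ((τ - s : ℝ) : ℂ) * I := by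
      push_cast
      ring
    rw [h1]
    refine lt_of_le_of_lt (norm_add_le _ _) ?_
    rw [norm_mul, norm_I, mul_one, Complex.norm_real, Real.norm_eq_abs]
    have h2 : R = η + R / 2 := by rw [hη]; ring
    rw [h2]
    exact add_lt_add hμ hs'
  have hexp : ∀ μ : ℂ, exp (μ - s * I) = exp μ := by
    intro μ
    rw [exp_sub, hs, div_one]
  have hdQ : DifferentiableOn ℂ Q' (Metric.ball ((τ : ℂ) * I) η) := by
    refine hS.dQ.comp ?_ hmem
    fun_prop
  have hτmem : (τ : ℂ) * I ∈ Metric.ball ((τ : ℂ) * I) η := Metric.mem_ball_self hη0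
  -- the value at the root
  have hQr : Q' (τ * I) = r := by
    set e : ℂ := exp (2 * Real.pi * I * p / q) with he
    have he' : e = exp ((τ : ℂ) * I) := by rw [he, exp_pq]
    have hne : (𝓝[{μ : ℂ | μ.re < 0}] ((τ : ℂ) * I)).NeBot := by
      rw [← mem_closure_iff_nhdsWithin_neBot, Complex.closure_setOfPred_re_lt]
      simp
    have h1 : Tendsto exp (𝓝[{μ : ℂ | μ.re < 0}] ((τ : ℂ) * I)) (𝓝[Metric.ball 0 1] e) := by
      refine tendsto_nhdsWithin_iff.2 ⟨?_, ?_⟩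
      · rw [he']
        exact (continuous_exp.tendsto _).mono_left nhdsWithin_le_nhds
      · filter_upwards [self_mem_nhdsWithin] with μ hμ
        rw [mem_ball_zero_iff, norm_exp]
        exact Real.exp_lt_one_iff.2 hμ
    have h2 : Tendsto (fun μ => P (exp μ)) (𝓝[{μ : ℂ | μ.re < 0}] ((τ : ℂ) * I)) (𝓝 r) :=
      hA.lim.comp h1
    have h3 : Tendsto Q' (𝓝[{μ : ℂ | μ.re < 0}] ((τ : ℂ) * I)) (𝓝 (Q' (τ * I))) :=
      ((hdQ.differentiableAt (Metric.isOpen_ball.mem_nhds hτmem)).continuousAt.tendsto).mono_left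
        nhdsWithin_le_nhds
    refine tendsto_nhds_unique h3 (h2.congr' ?_)
    have h4 : ∀ᶠ μ in 𝓝[{μ : ℂ | μ.re < 0}] ((τ : ℂ) * I), μ ∈ Metric.ball ((τ : ℂ) * I) η :=
      mem_nhdsWithin_of_mem_nhds (Metric.isOpen_ball.mem_nhds hτmem)
    filter_upwards [self_mem_nhdsWithin, h4] with μ hμ hμ'
    have h5 := hS.id P hP hl0 (μ - s * I) (hmem μ hμ') (by rw [hre]; exact hμ)
    rw [hexp] at h5
    exact h5
  have hrM : r ∈ MM 2 := by
    rw [← hQr]
    refine hS.mm _ (hmem _ hτmem) ?_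
    rw [hre]
    simp
  refine ⟨hrM, fun c hc => ?_⟩
  by_cases hcase : 2 * (C1 * K / q) < η
  · obtain ⟨μ, hμ, hμc⟩ := hLIW C1 hC1 hO K p q r A η τ Q' Z' hP.hK hA.hp hA.hpq hA.cop hA.sub
      hA.op hA.cl hrM hA.nr hA.n0 hτ hη0 (by rw [hη]; linarith) hcase hdQ hQr (by
        intro μ hμ
        refine ⟨?_, hS.ne _ (hmem μ hμ), fun h => hS.mm _ (hmem μ hμ) (by rw [hre]; exact h)⟩
        rw [hQ', deriv_comp_sub_const]
        exact hS.dn _ (hmem μ hμ)) (by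
        refine hS.cZ.comp (by fun_prop) ?_
        rintro μ ⟨h1, h2⟩
        refine ⟨hmem μ h1, ?_⟩
        change 0 < (μ - s * I).re
        rw [hre]
        exact h2) (by
        intro μ hμ hpos
        have h1 := hS.pt (μ - s * I) (hmem μ hμ) (by rw [hre]; exact hpos)
        rw [hexp] at h1
        exact ⟨h1.fix, h1.mul⟩) c hc
    have hmaps : MapsTo Q' (Metric.ball ((τ : ℂ) * I) η) (Metric.closedBall (Q' (τ * I)) 32) := by
      intro x hx
      rw [mem_closedBall_iff_norm]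
      have h1 := hS.bd _ (hmem x hx)
      have h2 := hS.bd _ (hmem _ hτmem)
      calc ‖Q' x - Q' (τ * I)‖ ≤ ‖Q' x‖ + ‖Q' (τ * I)‖ := norm_sub_le _ _
        _ ≤ 16 + 16 := add_le_add h1 h2
        _ = 32 := by norm_num
    have hC1K : 0 ≤ C1 * K / q := by positivity
    have hμb : μ ∈ Metric.ball ((τ : ℂ) * I) η := by
      rw [mem_ball_iff_norm]
      linarith
    have h1 := Complex.dist_le_div_mul_dist_of_mapsTo_ball hdQ hmaps hμb
    rw [hμc, hQr, dist_eq_norm, dist_eq_norm] at h1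
    calc ‖c - r‖ * q ≤ 32 / η * (C1 * K / q) * q := by
          refine mul_le_mul_of_nonneg_right (h1.trans ?_) hq0.le
          exact mul_le_mul_of_nonneg_left hμ (by positivity)
      _ = 64 * (C1 * K) / R := by
          rw [hη]
          field_simp
          ring
      _ ≤ 100 * C1 * K / R := by
          rw [div_le_div_iff_of_pos_right hR0]
          have : 0 ≤ C1 * K := by positivity
          nlinarith
  · push Not at hcase
    have h1 : ‖c - r‖ ≤ 4 := by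
      have h2 := norm_mm (hA.sub hc)
      have h3 := norm_mm hrM
      have h4 := norm_sub_le c r
      linarith
    have h5 : (q : ℝ) ≤ 4 * (C1 * K) / R := by
      rw [le_div_iff₀ hR0]
      have h6 : R * q ≤ 4 * (C1 * K / q) * q := by
        refine mul_le_mul_of_nonneg_right ?_ hq0.le
        rw [hη] at hcase
        linarith
      have h7 : 4 * (C1 * K / q) * q = 4 * (C1 * K) := by
        field_simp
      linarith
    calc ‖c - r‖ * q ≤ 4 * (4 * (C1 * K) / R) := mul_le_mul h1 h5 hq0.le (by norm_num)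
      _ = 16 * (C1 * K) / R := by ring
      _ ≤ 100 * C1 * K / R := by
          rw [div_le_div_iff_of_pos_right hR0]
          have : 0 ≤ C1 * K := by positivity
          nlinarith

end FNL_

open FNL_ in
theorem p_FNL (hSER : T_SER) (hLIW : T_LIW) (hCST : T_CST) : T_FNL := by
  obtain ⟨CS, hCS, hser⟩ := hSER
  obtain ⟨C1, hC1, hcst⟩ := hCST
  obtain ⟨CL, hCL, hlimb⟩ := Pool.Agent.PLim.a_LIMB 2 le_rfl
  refine ⟨200 * (CL + 1) * C1 * CS ^ 2, ?_, ?_⟩
  · have h1 : (1 : ℝ) ≤ CS ^ 2 := one_le_pow₀ hCS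
    have h2 : (1 : ℝ) ≤ 200 * (CL + 1) := by linarith
    have h3 : (1 : ℝ) ≤ 200 * (CL + 1) * C1 := one_le_mul_of_one_le_of_one_le h2 hC1
    exact one_le_mul_of_one_le_of_one_le h3 h1
  intro K P hP hsat
  obtain ⟨k, p0, q0, r0, z0, hK, hp0, hpq0, hcop0, hl0, hpt0⟩ := hsat
  have hK1 := hP.hK
  have hk : 1 ≤ k := by
    rcases Nat.eq_zero_or_pos k with h | h
    · rw [hK, h, zero_mul] at hK1
      omega
    · exact h
  have hK2 : 2 ≤ K := by
    rw [hK]
    calc 2 = 1 * 2 := rfl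
      _ ≤ k * q0 := Nat.mul_le_mul hk (by omega)
  obtain ⟨Q, Z, hS⟩ := hser k p0 q0 r0 z0 hk hp0 hpq0 hcop0 hpt0
  rw [← hK] at hS
  have hKR : (2 : ℝ) ≤ K := by exact_mod_cast hK2
  have hK4 : (16 : ℝ) ≤ (K : ℝ) ^ 4 := by
    calc (16 : ℝ) = 2 ^ 4 := by norm_num
      _ ≤ (K : ℝ) ^ 4 := pow_le_pow_left₀ (by norm_num) hKR 4
  set C : ℝ := 200 * (CL + 1) * C1 * CS ^ 2 with hC
  have hCS2 : CS ≤ CS ^ 2 := by nlinarith
  have hCCS : CS ≤ C := by
    have h1 : (1 : ℝ) ≤ 200 * (CL + 1) * C1 := by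
      refine one_le_mul_of_one_le_of_one_le (by linarith) hC1
    rw [hC]
    calc CS ≤ CS ^ 2 := hCS2
      _ = 1 * CS ^ 2 := (one_mul _).symm
      _ ≤ 200 * (CL + 1) * C1 * CS ^ 2 := mul_le_mul_of_nonneg_right h1 (by positivity)
  set R : ℝ := 1 / (CS * (K : ℝ) ^ 4) with hR
  have hR0 : 0 < R := by positivity
  have hR1 : R ≤ 1 / 16 := by
    rw [hR]
    refine one_div_le_one_div_of_le (by norm_num) ?_
    nlinarith
  have hsub : Metric.ball (0 : ℂ) (1 / (C * (K : ℝ) ^ 4)) ⊆ Metric.ball 0 R := by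
    refine Metric.ball_subset_ball ?_
    rw [hR]
    refine one_div_le_one_div_of_le (by positivity) ?_
    exact mul_le_mul_of_nonneg_right hCCS (by positivity)
  refine ⟨⟨Q, hS.dQ.mono hsub, fun ν hν => ⟨hS.dn ν (hsub hν), fun hre => ?_⟩⟩, ?_⟩
  · exact hS.id P hP hl0 ν (hsub hν) hre
  intro p q r A hA
  have hpq : p < q := hA.hpq
  have hp : 0 < p := hA.hp
  have hq0 : (0 : ℝ) < q := by
    have : 0 < q := by omega
    exact_mod_cast this
  have hK10 : (K : ℝ) * (K : ℝ) ^ 4 ≤ (K : ℝ) ^ 10 := by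
    rw [← pow_succ']
    exact pow_le_pow_right₀ (by linarith) (by norm_num)
  -- the bound in the near case
  have hnear : 100 * C1 * K / R ≤ C * (K : ℝ) ^ 10 := by
    have h1 : 100 * C1 * K / R = 100 * C1 * CS * ((K : ℝ) * (K : ℝ) ^ 4) := by
      rw [hR]
      field_simp
    rw [h1]
    have h2 : 100 * C1 * CS ≤ C := by
      rw [hC]
      calc 100 * C1 * CS ≤ 100 * C1 * CS ^ 2 := mul_le_mul_of_nonneg_left hCS2 (by positivity)
        _ = 100 * (C1 * CS ^ 2) := by ring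
        _ ≤ 200 * (CL + 1) * (C1 * CS ^ 2) :=
            mul_le_mul_of_nonneg_right (by linarith) (by positivity)
        _ = 200 * (CL + 1) * C1 * CS ^ 2 := by ring
    exact mul_le_mul h2 hK10 (by positivity) (by positivity)
  have hpi := Real.pi_pos
  by_cases hc1 : 2 * Real.pi * p / q < R / 2
  · obtain ⟨h1, h2⟩ := near hLIW hC1 hcst.omx hR0 (by linarith) hS hP hl0 hA (s := 0) (by simp)
      (by rw [sub_zero, abs_of_nonneg (by positivity)]; exact hc1)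
    exact ⟨h1, fun c hc => (h2 c hc).trans hnear⟩
  by_cases hc2 : 2 * Real.pi * ((q : ℝ) - p) / q < R / 2
  · obtain ⟨h1, h2⟩ := near hLIW hC1 hcst.omx hR0 (by linarith) hS hP hl0 hA (s := 2 * Real.pi)
      (by
        push_cast
        exact exp_two_pi_mul_I)
      (by
        have e : 2 * Real.pi * p / q - 2 * Real.pi = -(2 * Real.pi * ((q : ℝ) - p) / q) := by
          field_simp
          ring
        rw [e, abs_neg, abs_of_nonneg ?_]
        · exact hc2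
        · have : (p : ℝ) ≤ q := by exact_mod_cast hpq.le
          have : 0 ≤ (q : ℝ) - p := by linarith
          positivity)
    exact ⟨h1, fun c hc => (h2 c hc).trans hnear⟩
  push Not at hc1 hc2
  obtain ⟨h1, h2⟩ := far hlimb hP hA
  refine ⟨h1, fun c hc => ?_⟩
  have h3 := h2 c hc
  set m : ℕ := min p (q - p) with hm
  have hm1 : 1 ≤ m := by omega
  have hmR : (1 : ℝ) ≤ m := by exact_mod_cast hm1
  -- the lower bound for m
  have hmq : R / 2 ≤ 2 * Real.pi * m / q := by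
    rcases le_total p (q - p) with h | h
    · rw [hm, min_eq_left h]
      exact hc1
    · rw [hm, min_eq_right h, Nat.cast_sub hpq.le]
      exact hc2
  have hmq' : (q : ℝ) * R ≤ 4 * Real.pi * m := by
    have h4 : R / 2 * q ≤ 2 * Real.pi * m / q * q := mul_le_mul_of_nonneg_right hmq hq0.le
    have h5 : 2 * Real.pi * m / q * q = 2 * Real.pi * m := by
      field_simp
    linarith
  have hsq : ((q : ℝ) * R) ^ 2 ≤ 160 * (m : ℝ) ^ 2 := by
    have h4 : ((q : ℝ) * R) ^ 2 ≤ (4 * Real.pi * m) ^ 2 := pow_le_pow_left₀ (by positivity) hmq' 2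
    have h5 : Real.pi ^ 2 ≤ 10 := by
      have h6 := Real.pi_lt_d2
      nlinarith
    have h7 : (4 * Real.pi * m) ^ 2 = 16 * Real.pi ^ 2 * (m : ℝ) ^ 2 := by ring
    rw [h7] at h4
    have h8 : 16 * Real.pi ^ 2 * (m : ℝ) ^ 2 ≤ 16 * 10 * (m : ℝ) ^ 2 := by
      refine mul_le_mul_of_nonneg_right ?_ (by positivity)
      linarith
    linarith
  -- conclusion
  have hn : 0 ≤ ‖c - r‖ := norm_nonneg _
  have h9 : ‖c - r‖ * ((q : ℝ) * R) ^ 2 ≤ 160 * (CL * K ^ 2 * q) := by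
    calc ‖c - r‖ * ((q : ℝ) * R) ^ 2 ≤ ‖c - r‖ * (160 * (m : ℝ) ^ 2) :=
          mul_le_mul_of_nonneg_left hsq hn
      _ = 160 * (‖c - r‖ * (m : ℝ) ^ 2) := by ring
      _ ≤ 160 * (CL * K ^ 2 * q) := by
          refine mul_le_mul_of_nonneg_left ?_ (by norm_num)
          exact_mod_cast h3
  have h10 : ‖c - r‖ * q * (q * R ^ 2) ≤ 160 * (CL * K ^ 2) * q := by
    calc ‖c - r‖ * q * (q * R ^ 2) = ‖c - r‖ * ((q : ℝ) * R) ^ 2 := by ring
      _ ≤ 160 * (CL * K ^ 2 * q) := h9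
      _ = 160 * (CL * K ^ 2) * q := by ring
  have h11 : ‖c - r‖ * q * R ^ 2 ≤ 160 * (CL * K ^ 2) := by
    have h12 : ‖c - r‖ * q * R ^ 2 * q ≤ 160 * (CL * K ^ 2) * q := by
      calc ‖c - r‖ * q * R ^ 2 * q = ‖c - r‖ * q * (q * R ^ 2) := by ring
        _ ≤ _ := h10
    exact le_of_mul_le_mul_right h12 hq0
  have h13 : ‖c - r‖ * q ≤ 160 * (CL * K ^ 2) / R ^ 2 := by
    rw [le_div_iff₀ (by positivity)]
    exact h11
  refine h13.trans ?_
  have h14 : 160 * (CL * K ^ 2) / R ^ 2 = 160 * CL * CS ^ 2 * (K : ℝ) ^ 10 := by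
    rw [hR]
    field_simp
  rw [h14]
  refine mul_le_mul_of_nonneg_right ?_ (by positivity)
  rw [hC]
  calc 160 * CL * CS ^ 2 ≤ 200 * (CL + 1) * CS ^ 2 :=
        mul_le_mul_of_nonneg_right (by linarith) (by positivity)
    _ = 200 * (CL + 1) * 1 * CS ^ 2 := by ring
    _ ≤ 200 * (CL + 1) * C1 * CS ^ 2 := by
        refine mul_le_mul_of_nonneg_right ?_ (by positivity)
        exact mul_le_mul_of_nonneg_left hC1 (by positivity)

end Pool.Agent.PSat
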