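import Pool.Agent.PSat.Targets
import Pool.Agent.PLim.CIK
import Pool.Agent.PSat.Basic

/-!
# PSAT: target T_FNM (local connectivity)
-/

set_option autoImplicit false

open Complex Filter Topology Set
open Pool.Agent.Multibrot (MM)

namespace Pool.Agent.PSat

theorem p_FNM (hFNL : T_FNL) : T_FNM := by
  obtain ⟨C, hC1, hC⟩ := hFNL
  refine ⟨C, hC1, hC, ?_⟩
  intro c hc N hN
  obtain ⟨e, he, heN⟩ := Metric.mem_nhds_iff.mp hN
  obtain ⟨K, P, p, q, r, A, hK, hS, hL, hcA, hB⟩ := hc (4 * C / e)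
  obtain ⟨hrM, hb⟩ := (hC K P hK hS).2 p q r A hL
  have hK0 : (0 : ℝ) < (K : ℝ) ^ 10 := by
    have h1 : 0 < K := hK.hK
    have h2 : (0 : ℝ) < K := by exact_mod_cast h1
    positivity
  have hC0 : 0 < C := by linarith
  have hsmall : ∀ x ∈ A, ‖x - r‖ ≤ e / 4 := by
    intro x hx
    have h1 := hb x hx
    have h2 : ‖x - r‖ * (4 * C / e * (K : ℝ) ^ 10) ≤ C * (K : ℝ) ^ 10 :=
      (mul_le_mul_of_nonneg_left hB (norm_nonneg _)).trans h1
    have h3 : ‖x - r‖ * (4 * C / e * (K : ℝ) ^ 10) = (‖x - r‖ * 4 / e) * (C * (K : ℝ) ^ 10) := by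
      ring
    rw [h3] at h2
    have h4 : ‖x - r‖ * 4 / e ≤ 1 := by
      have h5 : 0 < C * (K : ℝ) ^ 10 := by positivity
      have h6 : ‖x - r‖ * 4 / e * (C * (K : ℝ) ^ 10) ≤ 1 * (C * (K : ℝ) ^ 10) := by linarith
      exact le_of_mul_le_mul_right h6 h5
    rw [div_le_one he] at h4
    linarith
  have hconn : IsPreconnected (insert r A) :=
    Pool.Agent.PLim.p_CIK (MM 2) A r r (Pool.Agent.Multibrot.MM_closed 2)
      (Pool.Agent.Multibrot.MM_connected le_rfl) hL.sub hrM hL.op hL.cl hL.nr hrM hL.nr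
  refine ⟨insert r A, ?_, ⟨⟨r, mem_insert _ _⟩, hconn⟩, hL.cl, ?_⟩
  · have h0 := hsmall c hcA
    have hball : ∀ x ∈ insert r A, ‖x - c‖ < e := by
      intro x hx
      have hx1 : ‖x - r‖ ≤ e / 4 := by
        rcases hx with rfl | hx
        · rw [sub_self, norm_zero]; positivity
        · exact hsmall x hx
      have h2 : x - c = (x - r) - (c - r) := by ring
      rw [h2]
      have h3 := norm_sub_le (x - r) (c - r)
      linarith
    intro x hx
    refine ⟨?_, heN ?_⟩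
    · rcases hx with rfl | hx
      · exact hrM
      · exact hL.sub hx
    · rw [Metric.mem_ball, dist_eq_norm]
      exact hball x hx
  · obtain ⟨U, hU, hAU⟩ := hL.op
    have hcU : c ∈ U := by
      have h1 : c ∈ MM 2 ∩ U := by rw [← hAU]; exact hcA
      exact h1.2
    rw [mem_nhdsWithin]
    refine ⟨U, hU, hcU, ?_⟩
    intro x hx
    refine mem_insert_of_mem _ ?_
    rw [hAU]
    exact ⟨hx.2, hx.1⟩

end Pool.Agent.PSat
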