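import Pool.Agent.PSat.Targets
import Pool.Agent.MEY.OMG
import Pool.Agent.MEY.GLE
import Pool.Agent.MEY.CEN
import Pool.Agent.MEY.GLB

/-!
# PSAT, GBF: the global section at a centre, for one period

Adapted from `MEY/GLB.lean`.
-/

set_option autoImplicit false

open Complex Filter Topology Set
open Pool.Agent.Limb (F)
open Pool.Agent.PLim (Rho)
open Pool.Agent.MEX (LI Exa)
open Pool.Agent.MEY (Pt Omg DD Glob)

namespace Pool.Agent.PSat

open Pool.Agent.MEY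

theorem p_GBF (hLf : T_LFF) (hU : T_LUF) : T_GBF := by
  intro n k N κ hn hk hκ hG c hc
  obtain ⟨hLI, hOp, -⟩ := Pool.Agent.MEY.p_OMG N κ hκ
  obtain ⟨ρ, a, z, hcen⟩ := Pool.Agent.MEY.p_CEN Pool.Agent.MEY.p_GLE n k c hn hk hc
  set ν : ℕ := n - 1 with hν
  have hν0 : 0 < ν := by omega
  have hνr : (0 : ℝ) < ν := by exact_mod_cast hν0
  have hνc : (ν : ℂ) ≠ 0 := by exact_mod_cast hν0.ne'
  have hρ := hcen.hρ
  have hlog : Real.log ρ ≤ 0 := Real.log_nonpos hρ.le hcen.hρ1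
  set W : Set ℂ := Omg N κ with hW
  set H : Set ℂ := {μ : ℂ | μ.re < ν * Real.log ρ} with hH
  have hHW : H ⊆ W := by
    intro μ hμ
    left
    have : μ.re < ν * Real.log ρ := hμ
    nlinarith
  have hHb : ∀ μ ∈ H, exp (μ / ν) ∈ Metric.ball (0 : ℂ) ρ := fun μ hμ => GLB_.mem_H hν0 hρ hμ
  set μ0 : ℂ := ((ν * Real.log ρ - 1 : ℝ) : ℂ) with hμ0
  have hre0 : μ0.re = ν * Real.log ρ - 1 := Complex.ofReal_re _
  have hμH : μ0 ∈ H := by
    show μ0.re < ν * Real.log ρ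
    rw [hre0]
    linarith
  have hpt0 : Pt n k (a (exp (μ0 / ν))) (z (exp (μ0 / ν))) (exp μ0) := by
    have := hcen.pt _ (hHb μ0 hμH)
    rwa [← hν, GLB_.exp_pow hν0] at this
  obtain ⟨ψ, χ, hS, hψ0, hχ0⟩ := hLf n k N κ hn hk hLI hG _ _ μ0 (hHW hμH) hpt0
  have hHpre : IsPreconnected H := (convex_halfSpace_re_lt (ν * Real.log ρ)).isPreconnected
  -- the sections on the half plane
  have hcexp : ContinuousOn (fun μ : ℂ => exp (μ / ν)) H := by fun_prop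
  have hHeq : EqOn ψ (fun μ => a (exp (μ / ν))) H ∧ EqOn χ (fun μ => z (exp (μ / ν))) H := by
    refine hU n k N κ hn hk hG H ψ χ _ _ μ0 hHpre hHW (hS.dψ.continuousOn.mono hHW)
      (hS.dχ.continuousOn.mono hHW) (hcen.da.continuousOn.comp hcexp hHb)
      (hcen.dz.continuousOn.comp hcexp hHb) (fun μ hμ => hS.pt μ (hHW hμ)) ?_ hμH hψ0 hχ0
    intro μ hμ
    have := hcen.pt _ (hHb μ hμ)
    rwa [← hν, GLB_.exp_pow hν0] at this
  -- the periodicity
  have hmemW : ∀ μ ∈ W, ∀ m : ℤ, μ + 2 * Real.pi * I * (ν * m) ∈ W := by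
    intro μ hμ m
    have h := (hOp μ (ν * m)).mpr hμ
    push_cast at h
    exact h
  have hper : ∀ m : ℤ, (∀ μ ∈ W, ψ (μ + 2 * Real.pi * I * (ν * m)) = ψ μ) ∧
      ∀ μ ∈ W, χ (μ + 2 * Real.pi * I * (ν * m)) = χ μ := by
    intro m
    have hct : ContinuousOn (fun μ : ℂ => μ + 2 * Real.pi * I * (ν * m)) W := by fun_prop
    have hmH : μ0 + 2 * Real.pi * I * (ν * m) ∈ H := by
      show (μ0 + 2 * Real.pi * I * (ν * m)).re < ν * Real.log ρ
      have : (μ0 + 2 * Real.pi * I * (ν * m)).re = μ0.re := by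
        simp
      rw [this, hre0]
      linarith
    have e1 : ψ (μ0 + 2 * Real.pi * I * (ν * m)) = ψ μ0 := by
      rw [hHeq.1 hmH, hHeq.1 hμH]
      simp only
      rw [GLB_.exp_div_per hν0]
    have e2 : χ (μ0 + 2 * Real.pi * I * (ν * m)) = χ μ0 := by
      rw [hHeq.2 hmH, hHeq.2 hμH]
      simp only
      rw [GLB_.exp_div_per hν0]
    have h := hU n k N κ hn hk hG W (fun μ => ψ (μ + 2 * Real.pi * I * (ν * m)))
      (fun μ => χ (μ + 2 * Real.pi * I * (ν * m))) ψ χ μ0 hLI.isPreconnected subset_rfl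
      (hS.dψ.continuousOn.comp hct fun μ hμ => hmemW μ hμ m)
      (hS.dχ.continuousOn.comp hct fun μ hμ => hmemW μ hμ m) hS.dψ.continuousOn
      hS.dχ.continuousOn ?_ hS.pt (hHW hμH) e1 e2
    · exact ⟨fun μ hμ => h.1 hμ, fun μ hμ => h.2 hμ⟩
    · intro μ hμ
      have := hS.pt _ (hmemW μ hμ m)
      rwa [GLB_.exp_per] at this
  -- the sections near zero
  have hmemH : ∀ w ∈ Metric.ball (0 : ℂ) ρ, w ≠ 0 → (ν : ℂ) * log w ∈ H := by
    intro w hw hw0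
    rw [mem_ball_zero_iff] at hw
    show ((ν : ℂ) * log w).re < ν * Real.log ρ
    have : ((ν : ℂ) * log w).re = ν * Real.log ‖w‖ := by
      rw [← Complex.ofReal_natCast, Complex.re_ofReal_mul, Complex.log_re]
    rw [this]
    exact mul_lt_mul_of_pos_left (Real.log_lt_log (norm_pos_iff.mpr hw0) hw) hνr
  have hdiv : ∀ w : ℂ, w ≠ 0 → exp ((ν : ℂ) * log w / ν) = w := by
    intro w hw0
    rw [mul_div_cancel_left₀ _ hνc, exp_log hw0]
  have hΨa : EqOn (GLB_.ext ν c ψ) a (Metric.ball 0 ρ) := by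
    intro w hw
    by_cases hw0 : w = 0
    · rw [hw0, hcen.a0]
      simp [GLB_.ext]
    · simp only [GLB_.ext, if_neg hw0]
      rw [hHeq.1 (hmemH w hw hw0)]
      simp only
      rw [hdiv w hw0]
  have hXz : EqOn (GLB_.ext ν 0 χ) z (Metric.ball 0 ρ) := by
    intro w hw
    by_cases hw0 : w = 0
    · rw [hw0, hcen.z0]
      simp [GLB_.ext]
    · simp only [GLB_.ext, if_neg hw0]
      rw [hHeq.2 (hmemH w hw hw0)]
      simp only
      rw [hdiv w hw0]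
  have hb0 : Metric.ball (0 : ℂ) ρ ∈ 𝓝 (0 : ℂ) := Metric.ball_mem_nhds _ hρ
  have hΨe : GLB_.ext ν c ψ =ᶠ[𝓝 0] a := by
    filter_upwards [hb0] with w hw using hΨa hw
  have hXe : GLB_.ext ν 0 χ =ᶠ[𝓝 0] z := by
    filter_upwards [hb0] with w hw using hXz hw
  have hDD : ∀ w ∈ DD n N κ, w = 0 ∨ (w ≠ 0 ∧ (ν : ℂ) * log w ∈ W) := by
    intro w hw
    by_cases hw0 : w = 0
    · exact Or.inl hw0
    · rcases hw with h | h
      · exact absurd h hw0
      · exact Or.inr ⟨hw0, h⟩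
  have hdΨ : ∀ w, w ≠ 0 → (ν : ℂ) * log w ∈ W →
      HasDerivAt (GLB_.ext ν c ψ) (deriv ψ ((ν : ℂ) * log w) * (ν * w⁻¹)) w := fun w hw0 hwW =>
    GLB_.ext_hasDerivAt hLI.op hS.dψ (fun μ hμ m => (hper m).1 μ hμ) hw0 hwW
  have hdX : ∀ w, w ≠ 0 → (ν : ℂ) * log w ∈ W →
      HasDerivAt (GLB_.ext ν 0 χ) (deriv χ ((ν : ℂ) * log w) * (ν * w⁻¹)) w := fun w hw0 hwW =>
    GLB_.ext_hasDerivAt hLI.op hS.dχ (fun μ hμ m => (hper m).2 μ hμ) hw0 hwW
  refine ⟨GLB_.ext ν c ψ, GLB_.ext ν 0 χ, ?_, ?_, ?_, ?_, ?_, ?_⟩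
  · intro w hw
    rcases hDD w hw with rfl | ⟨hw0, hwW⟩
    · exact (hΨe.differentiableAt_iff.mpr (hcen.da.differentiableAt hb0)).differentiableWithinAt
    · exact (hdΨ w hw0 hwW).differentiableAt.differentiableWithinAt
  · intro w hw
    rcases hDD w hw with rfl | ⟨hw0, hwW⟩
    · exact (hXe.differentiableAt_iff.mpr (hcen.dz.differentiableAt hb0)).differentiableWithinAt
    · exact (hdX w hw0 hwW).differentiableAt.differentiableWithinAt
  · simp [GLB_.ext]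
  · simp [GLB_.ext]
  · intro w hw
    rcases hDD w hw with rfl | ⟨hw0, hwW⟩
    · have h1 : GLB_.ext ν c ψ 0 = c := by simp [GLB_.ext]
      have h2 : GLB_.ext ν 0 χ 0 = 0 := by simp [GLB_.ext]
      rw [h1, h2, ← hν, zero_pow hν0.ne']
      exact hc
    · simp only [GLB_.ext, if_neg hw0]
      have := hS.pt _ hwW
      rwa [GLB_.exp_log_mul ν hw0] at this
  · intro w hw
    rcases hDD w hw with rfl | ⟨hw0, hwW⟩
    · rw [hΨe.deriv_eq]
      exact hcen.d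
    · rw [(hdΨ w hw0 hwW).deriv]
      exact mul_ne_zero (hS.d _ hwW) (mul_ne_zero hνc (inv_ne_zero hw0))

end Pool.Agent.PSat
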