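import Pool.Agent.PSat.Targets
import Pool.Agent.MEY.GOD

/-!
# PSAT, GD1: regularity of the points over the extended half plane for one period
-/

set_option autoImplicit false

open Complex Filter Topology Set
open Pool.Agent.Limb (F)
open Pool.Agent.PLim (Rho LocFix Vreg NCn p_LOCZ p_BIG)
open Pool.Agent.MEX (LL Exa)
open Pool.Agent.MEY (Pt Omg FarN)

namespace Pool.Agent.PSat

namespace GD1_

open Pool.Agent.MEY.GOD_ (LL_le exp_lt exp_ne t_TRANS)

lemma far_ne {δ : ℝ} {μ : ℂ} (h0 : 0 < δ) (h : FarN 1 δ μ.im) : exp μ ≠ 1 := by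
  intro h1
  rw [Complex.exp_eq_one_iff] at h1
  obtain ⟨m, hm⟩ := h1
  have h2 : μ.im = 2 * Real.pi * m := by
    rw [hm]
    simp
    ring
  have h3 := h 1 le_rfl le_rfl m
  have hpi := Real.pi_pos
  have h4 : ((1 : ℕ) : ℝ) * μ.im / (2 * Real.pi) - m = 0 := by
    rw [h2]
    push_cast
    field_simp
    ring
  rw [h4, abs_zero] at h3
  linarith

/-- the shifted point is in the region outside the horodiscs -/
lemma vreg {δ κ : ℝ} {μ : ℂ} (h0 : 0 < δ) (h1 : δ ≤ 1 / 2) (hκ : 0 < κ) (hF : FarN 1 δ μ.im)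
    (hre : μ.re < κ * LL δ) (hpos : 0 < μ.re) :
    ∃ m : ℤ, μ + m * (2 * Real.pi * I) ∈ Vreg κ := by
  have hpi := Real.pi_gt_three
  have hpi0 : (0 : ℝ) < 2 * Real.pi := by linarith
  set x : ℝ := μ.im / (2 * Real.pi) with hx
  have him : μ.im = 2 * Real.pi * x := by
    rw [hx]
    field_simp
  have e1 : ∀ m : ℤ, δ ≤ |x - m| := by
    intro m
    have h := hF 1 le_rfl le_rfl m
    have e : ((1 : ℕ) : ℝ) * μ.im / (2 * Real.pi) - m = x - m := by
      rw [hx]
      push_cast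
      ring
    rwa [e] at h
  have e2 : δ ≤ Int.fract x := by
    have h := e1 ⌊x⌋
    rwa [Int.self_sub_floor, abs_of_nonneg (Int.fract_nonneg x)] at h
  have e3 : δ ≤ 1 - Int.fract x := by
    have h := e1 (⌊x⌋ + 1)
    have e : x - ((⌊x⌋ + 1 : ℤ) : ℝ) = -(1 - Int.fract x) := by
      push_cast
      rw [← Int.self_sub_floor]
      ring
    rw [e, abs_neg, abs_of_nonneg (by linarith [Int.fract_lt_one x])] at h
    exact h
  refine ⟨-⌊x⌋, ?_⟩
  have hre' : (μ + ((-⌊x⌋ : ℤ) : ℂ) * (2 * Real.pi * I)).re = μ.re := by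
    simp
  have him' : (μ + ((-⌊x⌋ : ℤ) : ℂ) * (2 * Real.pi * I)).im = 2 * Real.pi * Int.fract x := by
    have : (μ + ((-⌊x⌋ : ℤ) : ℂ) * (2 * Real.pi * I)).im = μ.im - ⌊x⌋ * (2 * Real.pi) := by
      simp
      ring
    rw [this, him, ← Int.self_sub_floor]
    ring
  refine ⟨?_, ?_, ?_, ?_⟩
  · rw [hre']
    exact hpos
  · rw [him']
    exact mul_pos hpi0 (by linarith)
  · rw [him']
    nlinarith
  · rw [hre', him']
    have h4 := LL_le h0 h1
    have h5 : δ ≤ min (2 * Real.pi * Int.fract x) (2 * Real.pi - 2 * Real.pi * Int.fract x) := by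
      refine le_min ?_ ?_ <;> nlinarith
    have h6 : LL δ ≤ (min (2 * Real.pi * Int.fract x)
        (2 * Real.pi - 2 * Real.pi * Int.fract x)) ^ 2 :=
      h4.trans (pow_le_pow_left₀ h0.le h5 2)
    exact hre.trans_le (mul_le_mul_of_nonneg_left h6 hκ.le)

end GD1_

open GD1_ in
open Pool.Agent.MEY.GOD_ in
theorem p_GD1 : T_GD1 := by
  intro C K hC hK hNC
  have hK1 : (1 : ℝ) ≤ K := by exact_mod_cast hK
  have hCK : (1 : ℝ) ≤ C * K := by nlinarith
  have hκ : 0 < 1 / (C * K) := by positivity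
  have hκ1 : 1 / (C * K) ≤ 1 := by
    rw [div_le_one (by linarith)]
    exact hCK
  have hne : ∀ μ ∈ Omg 1 (1 / (C * K)), exp μ ≠ 1 := by
    intro μ hμ
    rcases hμ with h | ⟨δ, h0, h1, hF, hre⟩
    · exact exp_ne h
    · exact GD1_.far_ne h0 hF
  refine ⟨hne, ?_⟩
  intro c z μ hμ hz
  have hre1 : μ.re < 1 := by
    rcases hμ with h | ⟨δ, h0, h1, hF, hre⟩
    · linarith [(show μ.re < 0 from h)]
    · have h4 := LL_le h0 h1
      have h5 : δ ^ 2 ≤ 1 / 4 := by nlinarith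
      nlinarith
  refine ⟨?_, ?_⟩
  · by_contra hc
    have h1 := p_BIG 2 K c z le_rfl hK (not_lt.1 hc) hz.fix
    rw [hz.mul, Complex.norm_exp, Real.exp_lt_exp] at h1
    linarith
  · intro R hR
    have hne1 := hne μ hμ
    obtain ⟨ε, r, zf, h1, h2, hL⟩ :=
      p_LOCZ 2 K c z R le_rfl hR hz.fix (by rw [hz.mul]; exact hne1)
    refine ⟨ε, r, zf, h1, h2, hL, ?_⟩
    by_cases hnp : μ.re ≤ 0
    · refine t_TRANS 2 K c z ε r zf le_rfl hK hL ?_ ?_ ?_
      · rw [hz.mul]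
        exact exp_ne_zero μ
      · rw [hz.mul, Complex.norm_exp]
        exact Real.exp_le_one_iff.2 hnp
      · rw [hz.mul]
        exact hne1
    · have hpos : 0 < μ.re := not_le.1 hnp
      rcases hμ with h | ⟨δ, h0, h3, hF, hre⟩
      · exact absurd (show μ.re < 0 from h) (by linarith)
      · obtain ⟨m, hm⟩ := vreg h0 h3 hκ hF hre hpos
        refine hNC K c z _ ε r zf hK hL ?_ hm
        rw [hz.mul, Complex.exp_add, Complex.exp_int_mul_two_pi_mul_I, mul_one]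

end Pool.Agent.PSat
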