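import Pool.Agent.PSat.Basic
import Pool.Agent.MEY.OMG
import Pool.Agent.MEY.DDO

/-!
# PSAT, GLL: the labels are constant on a global section
-/

set_option autoImplicit false

open Complex Filter Topology Set
open Pool.Agent.Multibrot (MM)
open Pool.Agent.Limb (F)
open Pool.Agent.PLim (Rho IsBot IsLog Crit Dig Gm GWL Rot IsInt Label lab Ex Cod Per Lands InZ LabR
  Vreg ZVn ONTOn NCn OMXn SECTn LocFix)
open Pool.Agent.MEX (Exa LI LL)
open Pool.Agent.MEY (Pt Omg DD Glob FarN)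

namespace Pool.Agent.PSat

namespace GLL_

/-! ### the region -/

/-- the region of the multipliers -/
def E (κ : ℝ) : Set ℂ := {ν | ν ∈ Omg 1 κ ∧ 0 < ν.re ∧ 0 < ν.im ∧ ν.im < 2 * Real.pi}

/-- rectangles -/
def Rc (κ δ : ℝ) : Set ℂ :=
  {ν | 0 < ν.re ∧ ν.re < κ * LL δ ∧ 2 * Real.pi * δ ≤ ν.im ∧ ν.im ≤ 2 * Real.pi * (1 - δ)}

lemma LL_pos {δ : ℝ} (h0 : 0 < δ) (h : δ ≤ 1 / 2) : 0 < LL δ := by
  have h1 := Pool.Agent.MEY.OMG_.log_nonneg h0 h
  unfold LL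
  positivity

lemma far_of {δ τ : ℝ} (h1 : 2 * Real.pi * δ ≤ τ) (h2 : τ ≤ 2 * Real.pi * (1 - δ)) (h0 : 0 < δ) :
    FarN 1 δ τ := by
  intro q hq1 hq2 m
  have hq : q = 1 := by omega
  subst hq
  have hpi := Real.pi_pos
  have e1 : δ ≤ τ / (2 * Real.pi) := by
    rw [le_div_iff₀ (by positivity)]
    linarith
  have e2 : τ / (2 * Real.pi) ≤ 1 - δ := by
    rw [div_le_iff₀ (by positivity)]
    linarith
  have e3 : ((1 : ℕ) : ℝ) * τ / (2 * Real.pi) = τ / (2 * Real.pi) := by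
    rw [Nat.cast_one, one_mul]
  rw [e3]
  rcases le_or_gt m 0 with hm | hm
  · have hm' : (m : ℝ) ≤ 0 := by exact_mod_cast hm
    rw [abs_of_nonneg (by linarith)]
    linarith
  · have hm' : (1 : ℝ) ≤ m := by exact_mod_cast hm
    rw [abs_of_nonpos (by linarith)]
    linarith

/-- the elements of the region -/
lemma mem_E {κ : ℝ} {ν : ℂ} : ν ∈ E κ ↔ ∃ δ : ℝ, 0 < δ ∧ δ ≤ 1 / 2 ∧ ν ∈ Rc κ δ := by
  have hpi := Real.pi_pos
  constructor
  · rintro ⟨hΩ, hre, him, him'⟩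
    rcases hΩ with h | ⟨δ, h0, h1, h2, h3⟩
    · exact absurd h (not_lt.mpr hre.le)
    · refine ⟨δ, h0, h1, hre, h3, ?_, ?_⟩
      · have h4 := h2 1 le_rfl le_rfl 0
        rw [Nat.cast_one, one_mul, Int.cast_zero, sub_zero, abs_of_pos (by positivity),
          le_div_iff₀ (by positivity)] at h4
        linarith
      · have h4 := h2 1 le_rfl le_rfl 1
        have h5 : ν.im / (2 * Real.pi) < 1 := by
          rw [div_lt_one (by positivity)]
          exact him'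
        rw [Nat.cast_one, one_mul, Int.cast_one, abs_of_neg (by linarith), neg_sub] at h4
        have h6 : ν.im / (2 * Real.pi) ≤ 1 - δ := by linarith
        rw [div_le_iff₀ (by positivity)] at h6
        linarith
  · rintro ⟨δ, h0, h1, h2, h3, h4, h5⟩
    refine ⟨Or.inr ⟨δ, h0, h1, far_of h4 h5 h0, h3⟩, h2, ?_, ?_⟩
    · have : 0 < 2 * Real.pi * δ := by positivity
      linarith
    · have : 0 < 2 * Real.pi * δ := by positivity
      linarith

lemma convex_Rc (κ δ : ℝ) : Convex ℝ (Rc κ δ) := by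
  have e : Rc κ δ = {ν : ℂ | 0 < ν.re} ∩ ({ν : ℂ | ν.re < κ * LL δ} ∩
      ({ν : ℂ | 2 * Real.pi * δ ≤ ν.im} ∩ {ν : ℂ | ν.im ≤ 2 * Real.pi * (1 - δ)})) := by
    ext ν
    simp only [Rc, mem_ofPred_eq, mem_inter_iff]
  rw [e]
  exact (convex_halfSpace_re_gt 0).inter ((convex_halfSpace_re_lt _).inter
    ((convex_halfSpace_im_ge _).inter (convex_halfSpace_im_le _)))

/-- the region is preconnected -/
lemma conn_E {κ : ℝ} (hκ : 0 < κ) : IsPreconnected (E κ) := by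
  apply isPreconnected_of_forall_pair
  intro x hx y hy
  obtain ⟨δ, h0, h1, h2⟩ := mem_E.1 hx
  obtain ⟨δ', h0', h1', h2'⟩ := mem_E.1 hy
  refine ⟨Rc κ δ ∪ Rc κ δ', ?_, Or.inl h2, Or.inr h2', ?_⟩
  · rintro ν (hν | hν)
    · exact mem_E.2 ⟨δ, h0, h1, hν⟩
    · exact mem_E.2 ⟨δ', h0', h1', hν⟩
  · have hpi := Real.pi_pos
    have l1 : 0 < κ * LL δ := mul_pos hκ (LL_pos h0 h1)
    have l2 : 0 < κ * LL δ' := mul_pos hκ (LL_pos h0' h1')
    have m0 : 0 < min (κ * LL δ) (κ * LL δ') := lt_min l1 l2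
    have m1 := min_le_left (κ * LL δ) (κ * LL δ')
    have m2 := min_le_right (κ * LL δ) (κ * LL δ')
    refine IsPreconnected.union (⟨min (κ * LL δ) (κ * LL δ') / 2, Real.pi⟩ : ℂ) ?_ ?_
      (convex_Rc κ δ).isPreconnected (convex_Rc κ δ').isPreconnected
    · refine ⟨?_, ?_, ?_, ?_⟩
      · show 0 < min (κ * LL δ) (κ * LL δ') / 2
        linarith
      · show min (κ * LL δ) (κ * LL δ') / 2 < κ * LL δ
        linarith
      · show 2 * Real.pi * δ ≤ Real.pi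
        nlinarith
      · show Real.pi ≤ 2 * Real.pi * (1 - δ)
        nlinarith
    · refine ⟨?_, ?_, ?_, ?_⟩
      · show 0 < min (κ * LL δ) (κ * LL δ') / 2
        linarith
      · show min (κ * LL δ) (κ * LL δ') / 2 < κ * LL δ'
        linarith
      · show 2 * Real.pi * δ' ≤ Real.pi
        nlinarith
      · show Real.pi ≤ 2 * Real.pi * (1 - δ')
        nlinarith

/-- over the region there are no points where a ray of period `K` lands -/
lemma not_inz {C : ℝ} {K : ℕ} {Λ : ℂ → ℂ → ℂ} {lh ls : ℂ → ℂ → ℂ → ℂ} (hC : 1 ≤ C) (hK : 1 ≤ K)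
    (hZ : ZVn 2 C) (hB : IsBot 2 Λ) (hL : IsLog 2 Λ lh ls) {ν c z : ℂ}
    (hν : ν ∈ E (1 / (C * K))) (hz : (F 2 c)^[K] z = z) (hR : Rho 2 K c z = exp ν) :
    1 < ‖Rho 2 K c z‖ ∧ ¬ InZ 2 K Λ lh c z := by
  obtain ⟨δ, h0, h1, h2, h3, h4, h5⟩ := mem_E.1 hν
  have hpi := Real.pi_gt_three
  have hK' : (1 : ℝ) ≤ K := by exact_mod_cast hK
  have hCK : 1 ≤ C * K := by nlinarith
  have hLL := Pool.Agent.MEY.OMG_.LL_le h0 h1
  have hLp := LL_pos h0 h1
  have hrep : 1 < ‖Rho 2 K c z‖ := by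
    rw [hR, norm_exp]
    exact Real.one_lt_exp_iff.2 h2
  have hup : C * K * ν.re < δ ^ 2 := by
    have e1 : 1 / (C * K) * LL δ * (C * K) = LL δ := by
      field_simp
    have e2 : ν.re * (C * K) < 1 / (C * K) * LL δ * (C * K) :=
      mul_lt_mul_of_pos_right h3 (by linarith)
    rw [e1] at e2
    linarith
  refine ⟨hrep, fun hin => ?_⟩
  have hle : ‖Rho 2 K c z‖ ≤ Real.exp 1 := by
    rw [hR, norm_exp]
    apply Real.exp_le_exp.2
    have : ν.re ≤ C * K * ν.re := by nlinarith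
    nlinarith
  obtain ⟨μ, hμ1, hμ2⟩ := hZ K Λ lh ls c z hK hB hL hz hrep hle hin
  rw [hR, Complex.exp_eq_exp_iff_exists_int] at hμ1
  obtain ⟨m, hm⟩ := hμ1
  have hre : μ.re = ν.re := by
    rw [hm]
    simp
  have him : μ.im = ν.im + 2 * Real.pi * m := by
    rw [hm]
    simp
    ring
  have hfar := far_of h4 h5 h0 1 le_rfl le_rfl (-m)
  have e1 : ((1 : ℕ) : ℝ) * ν.im / (2 * Real.pi) - ((-m : ℤ) : ℝ) = μ.im / (2 * Real.pi) := by
    rw [him]
    push_cast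
    field_simp
    ring
  rw [e1, abs_div, abs_of_pos (by positivity : (0 : ℝ) < 2 * Real.pi),
    le_div_iff₀ (by positivity)] at hfar
  have e2 : δ ≤ |μ.im| := by nlinarith
  have e3 := abs_im_le_norm μ
  have e4 : δ ^ 2 ≤ ‖μ‖ ^ 2 := pow_le_pow_left₀ h0.le (e2.trans e3) 2
  rw [hre] at hμ2
  linarith

lemma iter_cont (k : ℕ) : Continuous (fun q : ℂ × ℂ => (F 2 q.1)^[k] q.2) := by
  induction k with
  | zero => simpa using continuous_snd
  | succ k ih =>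
    simp only [Function.iterate_succ_apply', F]
    exact (ih.pow 2).add continuous_fst

/-- the theorem from LU, LOP and two facts on cycles -/
theorem key (hLU : Pool.Agent.PLim.T_LU) (hLOP : Pool.Agent.PLim.T_LOP)
    (hfi : ∀ (K : ℕ) (c z : ℂ), (F 2 c)^[K] z = z → ∀ j : ℕ,
      (F 2 c)^[K] ((F 2 c)^[j] z) = (F 2 c)^[j] z)
    (hri : ∀ (K : ℕ) (c z : ℂ), (F 2 c)^[K] z = z → ∀ j : ℕ,
      Rho 2 K c ((F 2 c)^[j] z) = Rho 2 K c z) : T_GLL := by
  classical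
  intro C K Λ lh ls c0 Ψ Z hC hK hZ hB hL hG i
  have hK' : (1 : ℝ) ≤ K := by exact_mod_cast hK
  have hκ : 0 < 1 / (C * K) := by positivity
  obtain ⟨hop, -, -, hD, -, -⟩ :=
    Pool.Agent.MEY.p_DDO Pool.Agent.MEY.p_OMG 2 1 (1 / (C * K)) le_rfl hκ
  have hmem : ∀ ν ∈ E (1 / (C * K)), exp ν ∈ DD 2 1 (1 / (C * K)) := by
    intro ν hν
    have h1 := (hD ν).2 hν.1
    have h2 : ν / (((2 - 1 : ℕ)) : ℂ) = ν := by
      norm_num
    rwa [h2] at h1
  have hcΨ : ∀ ν ∈ E (1 / (C * K)), ContinuousAt (fun ν => Ψ (exp ν)) ν := by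
    intro ν hν
    have h1 : ContinuousAt Ψ (exp ν) :=
      (hG.dΨ.differentiableAt (hop.mem_nhds (hmem ν hν))).continuousAt
    exact ContinuousAt.comp (f := exp) (g := Ψ) h1 Complex.continuous_exp.continuousAt
  have hcZ : ∀ ν ∈ E (1 / (C * K)),
      ContinuousAt (fun ν => (F 2 (Ψ (exp ν)))^[i] (Z (exp ν))) ν := by
    intro ν hν
    have h1 : ContinuousAt Z (exp ν) :=
      (hG.dX.differentiableAt (hop.mem_nhds (hmem ν hν))).continuousAt
    have h2 : ContinuousAt (fun ν => Z (exp ν)) ν :=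
      ContinuousAt.comp (f := exp) (g := Z) h1 Complex.continuous_exp.continuousAt
    have h3 : ContinuousAt (fun ν => (Ψ (exp ν), Z (exp ν))) ν := (hcΨ ν hν).prodMk h2
    exact ContinuousAt.comp (f := fun ν => (Ψ (exp ν), Z (exp ν)))
      (g := fun q : ℂ × ℂ => (F 2 q.1)^[i] q.2) (iter_cont i).continuousAt h3
  have hfix : ∀ ν ∈ E (1 / (C * K)), (F 2 (Ψ (exp ν)))^[K] ((F 2 (Ψ (exp ν)))^[i] (Z (exp ν))) =
      (F 2 (Ψ (exp ν)))^[i] (Z (exp ν)) := fun ν hν =>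
    hfi K _ _ (hG.pt _ (hmem ν hν)).fix i
  have hrho : ∀ ν ∈ E (1 / (C * K)),
      Rho 2 K (Ψ (exp ν)) ((F 2 (Ψ (exp ν)))^[i] (Z (exp ν))) = exp ν := by
    intro ν hν
    have h1 := hG.pt _ (hmem ν hν)
    rw [hri K _ _ h1.fix i, h1.mul]
    exact pow_one _
  have hlab : ∀ ν ∈ E (1 / (C * K)), ∃ l : Label 2 K,
      LabR 2 K Λ lh (Ψ (exp ν)) ((F 2 (Ψ (exp ν)))^[i] (Z (exp ν))) l := by
    intro ν hν
    obtain ⟨h1, h2⟩ := not_inz hC hK hZ hB hL hν (hfix ν hν) (hrho ν hν)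
    exact (hLU 2 K Λ lh ls _ _ le_rfl hK hB hL (hfix ν hν) h1).1 h2
  have huni : ∀ ν ∈ E (1 / (C * K)), ∀ l l' : Label 2 K,
      LabR 2 K Λ lh (Ψ (exp ν)) ((F 2 (Ψ (exp ν)))^[i] (Z (exp ν))) l →
      LabR 2 K Λ lh (Ψ (exp ν)) ((F 2 (Ψ (exp ν)))^[i] (Z (exp ν))) l' → l = l' := by
    intro ν hν
    obtain ⟨h1, -⟩ := not_inz hC hK hZ hB hL hν (hfix ν hν) (hrho ν hν)
    exact (hLU 2 K Λ lh ls _ _ le_rfl hK hB hL (hfix ν hν) h1).2.1
  have hloc : ∀ ν ∈ E (1 / (C * K)), ∀ l : Label 2 K,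
      LabR 2 K Λ lh (Ψ (exp ν)) ((F 2 (Ψ (exp ν)))^[i] (Z (exp ν))) l →
      ∀ᶠ ν' in 𝓝[E (1 / (C * K))] ν,
        LabR 2 K Λ lh (Ψ (exp ν')) ((F 2 (Ψ (exp ν')))^[i] (Z (exp ν'))) l := by
    intro ν hν l hl
    obtain ⟨h1, -⟩ := not_inz hC hK hZ hB hL hν (hfix ν hν) (hrho ν hν)
    obtain ⟨δ, hδ, hδ'⟩ := hLOP 2 K Λ lh ls _ _ l le_rfl hK hB hL (hfix ν hν) h1 hl
    have e1 : ∀ᶠ ν' in 𝓝 ν, ‖Ψ (exp ν') - Ψ (exp ν)‖ < δ := by
      have := (hcΨ ν hν).eventually (Metric.ball_mem_nhds _ hδ)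
      filter_upwards [this] with x hx
      rwa [dist_eq_norm] at hx
    have e2 : ∀ᶠ ν' in 𝓝 ν, ‖(F 2 (Ψ (exp ν')))^[i] (Z (exp ν')) -
        (F 2 (Ψ (exp ν)))^[i] (Z (exp ν))‖ < δ := by
      have := (hcZ ν hν).eventually (Metric.ball_mem_nhds _ hδ)
      filter_upwards [this] with x hx
      rwa [dist_eq_norm] at hx
    filter_upwards [nhdsWithin_le_nhds e1, nhdsWithin_le_nhds e2, self_mem_nhdsWithin]
      with x hx1 hx2 hx3
    exact hδ' _ _ hx1 hx2 (hfix x hx3)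
  by_cases hE : (E (1 / (C * K))).Nonempty
  · obtain ⟨ν0, hν0⟩ := hE
    obtain ⟨l0, hl0⟩ := hlab ν0 hν0
    refine ⟨l0, fun ν h1 h2 h3 h4 => ?_⟩
    have hν : ν ∈ E (1 / (C * K)) := ⟨h1, h2, h3, h4⟩
    have hcont : ContinuousOn (fun ν' => decide (LabR 2 K Λ lh (Ψ (exp ν'))
        ((F 2 (Ψ (exp ν')))^[i] (Z (exp ν'))) l0)) (E (1 / (C * K))) := by
      intro x hx
      obtain ⟨l, hl⟩ := hlab x hx
      by_cases hll : l = l0
      · subst hll
        have e1 := hloc x hx l hl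
        refine (continuousWithinAt_const (b := true)).congr_of_eventuallyEq ?_ ?_
        · filter_upwards [e1] with y hy
          exact decide_eq_true hy
        · exact decide_eq_true hl
      · have e1 := hloc x hx l hl
        refine (continuousWithinAt_const (b := false)).congr_of_eventuallyEq ?_ ?_
        · filter_upwards [e1, self_mem_nhdsWithin] with y hy hy'
          exact decide_eq_false fun h => hll (huni y hy' l l0 hy h)
        · exact decide_eq_false fun h => hll (huni x hx l l0 hl h)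
    have hconst := (conn_E hκ).constant hcont hν0 hν
    have h5 : decide (LabR 2 K Λ lh (Ψ (exp ν0))
        ((F 2 (Ψ (exp ν0)))^[i] (Z (exp ν0))) l0) = true := decide_eq_true hl0
    have h6 : decide (LabR 2 K Λ lh (Ψ (exp ν))
        ((F 2 (Ψ (exp ν)))^[i] (Z (exp ν))) l0) = true := by
      rw [← h5]
      exact hconst.symm
    exact of_decide_eq_true h6
  · exact ⟨(fun _ => 0, 0), fun ν h1 h2 h3 h4 => absurd ⟨ν, ⟨h1, h2, h3, h4⟩⟩ hE⟩

end GLL_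

theorem p_GLL : T_GLL :=
  GLL_.key Pool.Agent.PLim.a_LU Pool.Agent.PLim.a_LOP (fun _ _ _ h j => fix_iter h j)
    fun _ _ _ h j => rho_iter h j

end Pool.Agent.PSat
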