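import Pool.Agent.PSat.Basic
import Pool.Agent.MEY.All2

/-!
# PSAT, GNB: the points near a global section
-/

set_option autoImplicit false

open Complex Filter Topology Set
open Pool.Agent.Limb (F)
open Pool.Agent.PLim (Rho LocFix)
open Pool.Agent.MEY (Pt Omg DD Glob)

namespace Pool.Agent.PSat

theorem p_GNB : T_GNB := by
  intro K κ c0 Ψ Z w1 j e hK hκ hG hGl hw1 he
  obtain ⟨hopen, -, -, -, -, -⟩ := Pool.Agent.MEY.a_DDO 2 1 κ le_rfl hκ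
  have hnhds : DD 2 1 κ ∈ 𝓝 w1 := hopen.mem_nhds hw1
  have hpt : ∀ w ∈ DD 2 1 κ, Pt 2 K (Ψ w) (Z w) w := by
    intro w hw
    have := hGl.pt w hw
    simpa using this
  -- the multiplier is not one
  have hw1ne : w1 ≠ 1 := by
    rcases hw1 with h | h
    · rw [h]
      exact zero_ne_one
    · intro h1
      apply hG.ne _ h
      rw [h1, log_one, mul_zero, exp_zero]
  set z1 : ℂ := (F 2 (Ψ w1))^[j] (Z w1) with hz1
  have hfix1 : (F 2 (Ψ w1))^[K] z1 = z1 := fix_iter (hpt w1 hw1).fix j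
  have hrho1 : Rho 2 K (Ψ w1) z1 ≠ 1 := by
    rw [hz1, rho_iter (hpt w1 hw1).fix j, (hpt w1 hw1).mul]
    exact hw1ne
  obtain ⟨δ0, r0, zf, -, -, hL⟩ := Pool.Agent.PLim.p_LOCZ 2 K (Ψ w1) z1 1 le_rfl one_pos hfix1
    hrho1
  -- continuity
  have hdΨ : DifferentiableAt ℂ Ψ w1 := hGl.dΨ.differentiableAt hnhds
  have hdZ : DifferentiableAt ℂ Z w1 := hGl.dX.differentiableAt hnhds
  have hc1 : ContinuousAt (fun w : ℂ => (Ψ w, Z w)) w1 :=
    hdΨ.continuousAt.prodMk hdZ.continuousAt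
  have hcont : ContinuousAt (fun w : ℂ => (F 2 (Ψ w))^[j] (Z w)) w1 :=
    ContinuousAt.comp (f := fun w : ℂ => (Ψ w, Z w))
      (g := fun q : ℂ × ℂ => (F 2 q.1)^[j] q.2)
      (Pool.Agent.PLim.CNT_contI 2 j).continuousAt hc1
  have hev : ∀ᶠ w in 𝓝 w1, w ∈ DD 2 1 κ ∧ ‖w - w1‖ < e ∧ Ψ w ∈ Metric.ball (Ψ w1) δ0 ∧
      (F 2 (Ψ w))^[j] (Z w) ∈ Metric.ball z1 r0 := by
    refine (eventually_of_mem hnhds fun w h => h).and (Eventually.and ?_ (Eventually.and ?_ ?_))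
    · have := Metric.ball_mem_nhds w1 he
      filter_upwards [this] with w hw
      rwa [mem_ball_iff_norm] at hw
    · exact hdΨ.continuousAt.eventually (Metric.ball_mem_nhds _ hL.hδ)
    · exact hcont.eventually (Metric.ball_mem_nhds _ hL.hr)
  -- the map is open at the point
  have hs : HasStrictDerivAt Ψ (deriv Ψ w1) w1 :=
    (hGl.dΨ.analyticAt hnhds).hasStrictDerivAt
  have hmap : Filter.map Ψ (𝓝 w1) = 𝓝 (Ψ w1) := hs.map_nhds_eq (hGl.d w1 hw1)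
  have himg : Ψ '' {w | w ∈ DD 2 1 κ ∧ ‖w - w1‖ < e ∧ Ψ w ∈ Metric.ball (Ψ w1) δ0 ∧
      (F 2 (Ψ w))^[j] (Z w) ∈ Metric.ball z1 r0} ∈ 𝓝 (Ψ w1) := by
    rw [← hmap]
    exact Filter.image_mem_map hev
  obtain ⟨δ1, hδ1, hδ1'⟩ := Metric.mem_nhds_iff.mp himg
  refine ⟨min δ1 r0, lt_min hδ1 hL.hr, ?_⟩
  intro c z hc hz hfz
  have hcb : c ∈ Metric.ball (Ψ w1) δ1 := by
    rw [mem_ball_iff_norm]
    exact hc.trans_le (min_le_left _ _)
  obtain ⟨w, ⟨hwD, hwe, hwb, hwr⟩, hwc⟩ := hδ1' hcb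
  have hzb : z ∈ Metric.ball z1 r0 := by
    rw [mem_ball_iff_norm]
    exact hz.trans_le (min_le_right _ _)
  have h1 : (F 2 (Ψ w))^[j] (Z w) = zf (Ψ w) :=
    hL.uniq _ hwb _ hwr (fix_iter (hpt w hwD).fix j)
  have h2 : z = zf (Ψ w) := hL.uniq _ hwb _ hzb (by rw [hwc]; exact hfz)
  have h3 : (F 2 (Ψ w))^[j] (Z w) = z := by rw [h1, h2]
  have h4 : Rho 2 K c z = w := by
    rw [← hwc, ← h3, rho_iter (hpt w hwD).fix j, (hpt w hwD).mul]
  rw [h4]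
  exact ⟨hwD, hwe, hwc, by rw [← hwc]; exact h3⟩

end Pool.Agent.PSat
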