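import Pool.Agent.PSat.Targets

set_option autoImplicit false

open Complex Filter Topology Set

namespace Pool.Agent.PSat.HLF_

/-- a direction in which `c w^m` has negative real part, not vertical -/
theorem direction (c : ℂ) (hc : c ≠ 0) (m : ℕ) (hm : 0 < m) :
    ∃ u : ℂ, (c * u ^ m).re < 0 ∧ u.re ≠ 0 := by
  obtain ⟨u₀, hu₀⟩ := IsAlgClosed.exists_pow_nat_eq (-(starRingEnd ℂ c)) hm
  have h0 : (c * u₀ ^ m).re < 0 := by
    rw [hu₀]
    have h1 : c * -(starRingEnd ℂ c) = ((-(normSq c) : ℝ) : ℂ) := by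
      rw [mul_neg, mul_conj]
      push_cast
      rfl
    rw [h1, ofReal_re]
    have := normSq_pos.mpr hc
    linarith
  by_cases hre : u₀.re = 0
  · have hcont : Continuous fun η : ℝ => (c * (u₀ + (η : ℂ)) ^ m).re := by fun_prop
    have h1 : ∀ᶠ η : ℝ in 𝓝 (0 : ℝ), (c * (u₀ + (η : ℂ)) ^ m).re < 0 := by
      apply hcont.continuousAt.eventually_lt continuousAt_const
      simpa using h0
    obtain ⟨ε, hε, hb⟩ := Metric.eventually_nhds_iff_ball.mp h1
    refine ⟨u₀ + ((ε / 2 : ℝ) : ℂ), hb (ε / 2) ?_, ?_⟩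
    · rw [mem_ball_zero_iff, Real.norm_eq_abs, abs_of_pos (by linarith)]
      linarith
    · rw [add_re, ofReal_re, hre]
      linarith
  · exact ⟨u₀, h0, hre⟩

/-- the path `s ↦ a + s u` tends to `a` -/
theorem path_tendsto (a u : ℂ) : Tendsto (fun s : ℝ => a + (s : ℂ) * u) (𝓝 0) (𝓝 a) := by
  have h : Continuous fun s : ℝ => a + (s : ℂ) * u := by fun_prop
  have := h.tendsto 0
  simpa using this

theorem main : ∀ (a : ℂ) (D R : ℝ) (L h : ℂ → ℂ), 0 < D → 0 < R →
  DifferentiableOn ℂ L (Metric.ball a R) → DifferentiableOn ℂ h (Metric.ball a R) → L a = 1 →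
  deriv L a = -(D : ℂ) → h a = 0 → (∀ x ∈ Metric.ball a R, x.re < a.re → 0 ≤ (h x).re) →
  (∀ x ∈ Metric.ball a R, ‖L x‖ < 1 → 0 ≤ (h x).re) → ∀ x ∈ Metric.ball a R, h x = 0 := by
  intro a D R L h hD hR hL hh hLa hL' ha h1 h2
  have hmem : Metric.ball a R ∈ 𝓝 a := Metric.ball_mem_nhds a hR
  have hana : AnalyticOnNhd ℂ h (Metric.ball a R) := hh.analyticOnNhd Metric.isOpen_ball
  have hat : AnalyticAt ℂ h a := hana a (Metric.mem_ball_self hR)
  by_cases hz : ∀ᶠ z in 𝓝 a, h z = 0
  · exact hana.eqOn_zero_of_preconnected_of_eventuallyEq_zero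
      (convex_ball a R).isPreconnected (Metric.mem_ball_self hR) hz
  · exfalso
    obtain ⟨m, g, hg, hga, hgz⟩ := hat.exists_eventuallyEq_pow_smul_nonzero_iff.mpr hz
    have hm : 0 < m := by
      rcases Nat.eq_zero_or_pos m with rfl | hm
      · exfalso
        have := hgz.self_of_nhds
        rw [pow_zero, one_smul, ha] at this
        exact hga this.symm
      · exact hm
    obtain ⟨u, hu, hure⟩ := direction (g a) hga m hm
    have hpath := path_tendsto a u
    -- the real part of `h` is negative on the path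
    have hneg : ∀ᶠ s : ℝ in 𝓝 (0 : ℝ), 0 < s → (h (a + (s : ℂ) * u)).re < 0 := by
      have e1 : ContinuousAt (fun s : ℝ => (g (a + (s : ℂ) * u) * u ^ m).re) 0 := by
        have e2 : Tendsto (fun s : ℝ => g (a + (s : ℂ) * u)) (𝓝 0) (𝓝 (g a)) :=
          hg.continuousAt.tendsto.comp hpath
        have e3 : Tendsto (fun s : ℝ => (g (a + (s : ℂ) * u) * u ^ m).re) (𝓝 0)
            (𝓝 ((g a * u ^ m).re)) :=
          (continuous_re.tendsto _).comp (e2.mul_const _)
        unfold ContinuousAt
        simpa using e3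
      have e4 : ∀ᶠ s : ℝ in 𝓝 (0 : ℝ), (g (a + (s : ℂ) * u) * u ^ m).re < 0 := by
        apply e1.eventually_lt continuousAt_const
        simpa using hu
      filter_upwards [e4, hpath.eventually hgz] with s h5 h6 hs
      rw [h6, add_sub_cancel_left, smul_eq_mul, mul_pow]
      have e7 : (s : ℂ) ^ m * u ^ m * g (a + (s : ℂ) * u) =
          ((s ^ m : ℝ) : ℂ) * (g (a + (s : ℂ) * u) * u ^ m) := by
        push_cast
        ring
      rw [e7, re_ofReal_mul]
      exact mul_neg_of_pos_of_neg (pow_pos hs m) h5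
    have hball : ∀ᶠ s : ℝ in 𝓝 (0 : ℝ), a + (s : ℂ) * u ∈ Metric.ball a R := hpath.eventually hmem
    rcases lt_or_gt_of_ne hure with hlt | hgt
    · -- to the left
      obtain ⟨ε, hε, hb⟩ := Metric.eventually_nhds_iff_ball.mp (hneg.and hball)
      obtain ⟨b1, b2⟩ := hb (ε / 2) (by
        rw [mem_ball_zero_iff, Real.norm_eq_abs, abs_of_pos (by linarith)]
        linarith)
      have b3 := b1 (by linarith)
      have b4 := h1 _ b2 (by
        rw [add_re, re_ofReal_mul]
        nlinarith)
      linarith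
    · -- inside the unit disc
      have hLd : DifferentiableAt ℂ L a := hL.differentiableAt hmem
      have hk : ContinuousAt (dslope L a) a := continuousAt_dslope_same.mpr hLd
      have hka : dslope L a a = -(D : ℂ) := by rw [dslope_same, hL']
      have hkt : Tendsto (fun s : ℝ => dslope L a (a + (s : ℂ) * u)) (𝓝 0) (𝓝 (-(D : ℂ))) := by
        rw [← hka]
        exact hk.tendsto.comp hpath
      have hlim : Tendsto (fun s : ℝ => 2 * (u * dslope L a (a + (s : ℂ) * u)).re +
          s * normSq (u * dslope L a (a + (s : ℂ) * u))) (𝓝 0)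
          (𝓝 (2 * (u * -(D : ℂ)).re + 0 * normSq (u * -(D : ℂ)))) := by
        have e1 : Tendsto (fun s : ℝ => u * dslope L a (a + (s : ℂ) * u)) (𝓝 0)
          (𝓝 (u * -(D : ℂ))) := hkt.const_mul u
        exact (((continuous_re.tendsto _).comp e1).const_mul 2).add
          (tendsto_id.mul ((continuous_normSq.tendsto _).comp e1))
      have hlimneg : 2 * (u * -(D : ℂ)).re + 0 * normSq (u * -(D : ℂ)) < 0 := by
        have : (u * -(D : ℂ)).re = -(D * u.re) := by
          rw [mul_neg, neg_re, mul_comm, re_ofReal_mul]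
        rw [this, zero_mul]
        nlinarith [mul_pos hD hgt]
      have hev := hlim.eventually (gt_mem_nhds hlimneg)
      obtain ⟨ε, hε, hb⟩ := Metric.eventually_nhds_iff_ball.mp ((hneg.and hball).and hev)
      obtain ⟨⟨b1, b2⟩, b5⟩ := hb (ε / 2) (by
        rw [mem_ball_zero_iff, Real.norm_eq_abs, abs_of_pos (by linarith)]
        linarith)
      have b3 := b1 (by linarith)
      have b4 := h2 _ b2 (by
        set k := dslope L a (a + ((ε / 2 : ℝ) : ℂ) * u) with hkdef
        have e1 : L (a + ((ε / 2 : ℝ) : ℂ) * u) = 1 + ((ε / 2 : ℝ) : ℂ) * (u * k) := by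
          have e2 := sub_smul_dslope L a (a + ((ε / 2 : ℝ) : ℂ) * u)
          rw [add_sub_cancel_left, smul_eq_mul, hLa, ← hkdef] at e2
          have e3 : L (a + ((ε / 2 : ℝ) : ℂ) * u) =
              1 + ((ε / 2 : ℝ) : ℂ) * u * k := by
            rw [e2]
            ring
          rw [e3]
          ring
        have e4 : normSq (L (a + ((ε / 2 : ℝ) : ℂ) * u)) < 1 := by
          rw [e1, normSq_add, normSq_one, normSq_mul, normSq_ofReal, one_mul, conj_re,
            re_ofReal_mul]
          nlinarith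
        rw [normSq_eq_norm_sq] at e4
        nlinarith [norm_nonneg (L (a + ((ε / 2 : ℝ) : ℂ) * u))])
      linarith

end Pool.Agent.PSat.HLF_

namespace Pool.Agent.PSat

theorem p_HLF : T_HLF := HLF_.main

end Pool.Agent.PSat
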