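import Pool.Agent.PSat.Targets

/-!
# PSAT: IDN, identification with the parametrization of the component
-/

set_option autoImplicit false

open Complex Filter Topology Set
open Pool.Agent.MEY (Pt)

namespace Pool.Agent.PSat

namespace IDN_

/-- an analytic function with nonzero derivative is injective near the point -/
theorem inj_near (f : ℂ → ℂ) (a : ℂ) (U : Set ℂ) (hU : IsOpen U) (ha : a ∈ U)
    (hf : DifferentiableOn ℂ f U) (hd : deriv f a ≠ 0) :
    ∃ N ∈ 𝓝 a, ∀ x ∈ N, ∀ y ∈ N, f x = f y → x = y := by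
  have han : AnalyticAt ℂ f a := hf.analyticAt (hU.mem_nhds ha)
  have hs : HasStrictDerivAt f (deriv f a) a := han.hasStrictDerivAt
  refine ⟨_, hs.eventually_left_inverse hd, ?_⟩
  intro x hx y hy hxy
  have hx' : hs.localInverse f (deriv f a) a hd (f x) = x := hx
  have hy' : hs.localInverse f (deriv f a) a hd (f y) = y := hy
  rw [← hx', ← hy', hxy]

/-- an analytic function with nonzero derivative is open at the point -/
theorem open_near (f : ℂ → ℂ) (a : ℂ) (U : Set ℂ) (hU : IsOpen U) (ha : a ∈ U)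
    (hf : DifferentiableOn ℂ f U) (hd : deriv f a ≠ 0) :
    map f (𝓝 a) = 𝓝 (f a) := by
  have han : AnalyticAt ℂ f a := hf.analyticAt (hU.mem_nhds ha)
  have hs : HasStrictDerivAt f (deriv f a) a := han.hasStrictDerivAt
  exact hs.map_nhds_eq hd

theorem norm_exp_lt {ν : ℂ} (h : ν.re < 0) : exp ν ∈ Metric.ball (0 : ℂ) 1 := by
  rw [mem_ball_zero_iff, Complex.norm_exp]
  exact Real.exp_lt_one_iff.2 h

/-- the local identification -/
theorem loc (X : Ctx) (hX : Dt X) (L : ℂ → ℂ) (T : ℂ → Finset ℂ) (hR : Root X L T)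
    (g : ℂ → ℂ) (R : ℝ) (hR0 : 0 < R) (hg0 : g 0 = X.m0)
    (hgd : DifferentiableOn ℂ g (Metric.ball 0 R))
    (hg : ∀ ν ∈ Metric.ball (0 : ℂ) R, g ν ∈ Metric.ball X.m0 X.ρ ∧ L (g ν) = exp ν ∧
      deriv g ν ≠ 0)
    (P : ℂ → ℂ) (hP : Comp X.K P) (hT : Tendsto P (𝓝[Metric.ball 0 1] 1) (𝓝 (X.ψ X.m0))) :
    ∀ᶠ ν in 𝓝 (0 : ℂ), ν.re < 0 → P (exp ν) = X.ψ (g ν) := by
  have hρ := hX.hρ
  have hq : 0 < X.q := lt_trans hX.hp hX.hpq
  obtain ⟨N, hN, hinj⟩ := inj_near L X.m0 (Metric.ball X.m0 X.ρ) Metric.isOpen_ball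
    (Metric.mem_ball_self hρ) hR.dL (by
      rw [hR.L1]
      have : (X.q : ℂ) ≠ 0 := by exact_mod_cast hq.ne'
      exact neg_ne_zero.2 (pow_ne_zero 2 this))
  have hopen : map X.ψ (𝓝 X.m0) = 𝓝 (X.ψ X.m0) :=
    open_near X.ψ X.m0 (Metric.ball X.m0 (2 * X.ρ)) Metric.isOpen_ball
      (Metric.mem_ball_self (by linarith)) hX.dψ
      (hX.dn X.m0 (Metric.mem_ball_self (by linarith)))
  obtain ⟨δ, hδ, hnear⟩ := hR.near
  have hN' : N ∩ Metric.ball X.m0 δ ∈ 𝓝 X.m0 := inter_mem hN (Metric.ball_mem_nhds _ hδ)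
  have himg : X.ψ '' (N ∩ Metric.ball X.m0 δ) ∈ 𝓝 (X.ψ X.m0) := by
    rw [← hopen]
    exact image_mem_map hN'
  have hev1 : ∀ᶠ v in 𝓝[Metric.ball (0 : ℂ) 1] 1, P v ∈ X.ψ '' (N ∩ Metric.ball X.m0 δ) :=
    hT.eventually himg
  rw [eventually_nhdsWithin_iff] at hev1
  have hexp : Tendsto (fun ν : ℂ => exp ν) (𝓝 0) (𝓝 1) := by
    have h := Complex.continuous_exp.tendsto (0 : ℂ)
    rwa [Complex.exp_zero] at h
  have hev2 := hexp.eventually hev1
  have hgc : Tendsto g (𝓝 0) (𝓝 X.m0) := by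
    have h := (hgd.differentiableAt (Metric.ball_mem_nhds (0 : ℂ) hR0)).continuousAt.tendsto
    rwa [hg0] at h
  have hev3 : ∀ᶠ ν in 𝓝 (0 : ℂ), g ν ∈ N := hgc.eventually hN
  filter_upwards [hev2, hev3, Metric.ball_mem_nhds (0 : ℂ) hR0] with ν h2 h3 h4 hre
  obtain ⟨μ, ⟨hμN, hμδ⟩, hμ⟩ := h2 (norm_exp_lt hre)
  obtain ⟨z, hz⟩ := hP.pt (exp ν) (norm_exp_lt hre)
  rw [← hμ] at hz
  have hlt : ‖exp ν‖ < 1 := by
    have := norm_exp_lt hre
    rwa [mem_ball_zero_iff] at this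
  obtain ⟨-, hL⟩ := hnear μ z (exp ν) (by rwa [mem_ball_iff_norm] at hμδ) hz hlt
  have hLg := (hg ν h4).2.1
  have : μ = g ν := hinj μ hμN (g ν) h3 (by rw [← hL, hLg])
  rw [← hμ, this]

end IDN_

theorem p_IDN : T_IDN := by
  intro X hX L T hRoot g R hR0 hR1 hg0 hgd hg P hP hT
  have hρ := hX.hρ
  have hloc := IDN_.loc X hX L T hRoot g R hR0 hg0 hgd hg P hP hT
  obtain ⟨δ, hδ, hball⟩ := Metric.eventually_nhds_iff_ball.1 hloc
  set U : Set ℂ := Metric.ball (0 : ℂ) R ∩ {ν : ℂ | ν.re < 0} with hU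
  have hUo : IsOpen U := Metric.isOpen_ball.inter (isOpen_lt Complex.continuous_re continuous_const)
  have hUc : Convex ℝ U := (convex_ball (0 : ℂ) R).inter (convex_halfSpace_re_lt 0)
  have hd1 : DifferentiableOn ℂ (fun ν => P (exp ν)) U := by
    refine hP.dP.comp (Complex.differentiable_exp.differentiableOn) ?_
    intro ν hν
    exact IDN_.norm_exp_lt hν.2
  have hd2 : DifferentiableOn ℂ (fun ν => X.ψ (g ν)) U := by
    refine hX.dψ.comp (hgd.mono inter_subset_left) ?_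
    intro ν hν
    exact Metric.ball_subset_ball (by linarith) (hg ν hν.1).1
  have hpos : 0 < min R δ / 2 := by positivity
  have hz0 : ((-(min R δ / 2) : ℝ) : ℂ) ∈ U := by
    refine ⟨?_, ?_⟩
    · rw [mem_ball_zero_iff, Complex.norm_real, Real.norm_eq_abs, abs_neg, abs_of_pos hpos]
      have := min_le_left R δ
      linarith
    · simp only [mem_ofPred_eq, Complex.ofReal_re]
      linarith
  have hz1 : ((-(min R δ / 2) : ℝ) : ℂ) ∈ Metric.ball (0 : ℂ) δ := by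
    rw [mem_ball_zero_iff, Complex.norm_real, Real.norm_eq_abs, abs_neg, abs_of_pos hpos]
    have := min_le_right R δ
    linarith
  have heq : EqOn (fun ν => P (exp ν)) (fun ν => X.ψ (g ν)) U := by
    refine AnalyticOnNhd.eqOn_of_preconnected_of_eventuallyEq (hd1.analyticOnNhd hUo)
      (hd2.analyticOnNhd hUo) hUc.isPreconnected hz0 ?_
    filter_upwards [Metric.isOpen_ball.mem_nhds hz1, hUo.mem_nhds hz0] with ν h1 h2
    exact hball ν h1 h2.2
  intro ν hν hre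
  exact heq ⟨hν, hre⟩

end Pool.Agent.PSat
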