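import Pool.Agent.PSat.Targets
import Pool.Agent.PLim.DISPE
import Pool.Agent.PLim.GREEN
import Pool.Agent.PLim.IE

/-!
# INZ: rays of period `K` at repelling points, and their images
-/

set_option autoImplicit false

open Complex Filter Topology Set
open Pool.Agent.Multibrot (MM)
open Pool.Agent.Limb (F ray)
open Pool.Agent.PLim (G Rho IsBot IsInt Ex Disp Lands InZ OmR T_GREEN T_IE T_DISPE p_GREEN p_IE
  p_DISPE)

namespace Pool.Agent.PSat

namespace INZ_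

theorem step {Λ : ℂ → ℂ → ℂ} {c : ℂ} (hb : IsBot 2 Λ) (hG : G 2 c 0 = 0) {α t : ℝ}
    (ht : 0 < t) : ray Λ c (2 * α) (2 * t) = F 2 c (ray Λ c α t) := by
  have hre : ((t : ℂ) + 2 * Real.pi * α * I).re = t := by
    have h1 : (2 * (Real.pi : ℂ) * α * I).re = 0 := by
      rw [show (2 * (Real.pi : ℂ) * α * I) = ((2 * Real.pi * α : ℝ) : ℂ) * I by push_cast; ring]
      simp
    rw [add_re, h1, ofReal_re, add_zero]
  have h := hb.func c ((t : ℂ) + 2 * Real.pi * α * I) (by rw [hG, hre]; exact ht)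
  unfold ray
  rw [Pool.Agent.Limb.F, ← Complex.exp_nat_mul, h]
  have e : (((2 * t : ℝ) : ℂ) + 2 * Real.pi * ((2 * α : ℝ) : ℂ) * I) =
      ((2 : ℕ) : ℂ) * ((t : ℂ) + 2 * Real.pi * α * I) := by
    push_cast; ring
  rw [e]
  ring

theorem land1 {Λ : ℂ → ℂ → ℂ} {c z : ℂ} (hb : IsBot 2 Λ) (hG : G 2 c 0 = 0) {α : ℝ}
    (h : Lands Λ c α z) : Lands Λ c (2 * α) (F 2 c z) := by
  unfold Lands at h ⊢
  have hc : Continuous (F 2 c) := by
    unfold Pool.Agent.Limb.F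
    fun_prop
  have h1 : Tendsto (fun t : ℝ => t / 2) (𝓝[>] (0 : ℝ)) (𝓝[>] (0 : ℝ)) := by
    refine tendsto_nhdsWithin_iff.2 ⟨?_, ?_⟩
    · have : Tendsto (fun t : ℝ => t / 2) (𝓝 (0 : ℝ)) (𝓝 (0 / 2)) :=
        (continuous_id.div_const 2).tendsto 0
      rw [zero_div] at this
      exact this.mono_left nhdsWithin_le_nhds
    · filter_upwards [self_mem_nhdsWithin] with t ht
      exact half_pos (mem_Ioi.1 ht)
  have h2 : Tendsto (fun t : ℝ => F 2 c (ray Λ c α (t / 2))) (𝓝[>] (0 : ℝ)) (𝓝 (F 2 c z)) :=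
    (hc.tendsto z).comp (h.comp h1)
  refine h2.congr' ?_
  filter_upwards [self_mem_nhdsWithin] with t ht
  have ht' : (0 : ℝ) < t / 2 := half_pos (mem_Ioi.1 ht)
  rw [← step hb hG ht']
  congr 1
  ring

theorem landj {Λ : ℂ → ℂ → ℂ} {c z : ℂ} (hb : IsBot 2 Λ) (hG : G 2 c 0 = 0) {α : ℝ}
    (h : Lands Λ c α z) (j : ℕ) : Lands Λ c (2 ^ j * α) ((F 2 c)^[j] z) := by
  induction j with
  | zero => simpa using h
  | succ j ih =>
    rw [Function.iterate_succ_apply', pow_succ, show (2 : ℝ) ^ j * 2 * α = 2 * (2 ^ j * α) by ring]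
    exact land1 hb hG ih

end INZ_

open INZ_ in
theorem p_INZ : T_INZ := by
  intro K Λ lh c z α hK hb hc hl
  have hgr : T_GREEN := p_GREEN
  have hG : G 2 c 0 = 0 := ((hgr 2 le_rfl).2.2.2.2.2.1 c).1 hc
  refine ⟨landj hb hG hl, fun hP hz hr => Or.inl ⟨hc, ?_⟩⟩
  have hD : T_DISPE := p_DISPE hgr (p_IE hgr)
  have hP1 : IsInt ((((2 : ℕ) : ℝ) ^ (K * 1) - 1) * α) := by
    rw [mul_one, Nat.cast_ofNat]
    exact hP
  obtain ⟨v, hv1, hv2, -⟩ := hD 2 K 1 Λ c z α le_rfl hK le_rfl hb hc hP1 hl hz hr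
  refine ⟨α, 1, v, ⟨le_rfl, hP1, fun q' h1 h2 => absurd h1 (by omega)⟩, hl, hv1, ?_⟩
  rw [Nat.cast_one, div_one, hv2, pow_one, mul_one]

end Pool.Agent.PSat
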