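import Pool.Agent.PSat.Words
import Pool.Agent.PSat.Targets
import Pool.Agent.PLim.RINV
import Pool.Agent.PLim.RS
import Pool.Agent.PLim.All

/-!
# PSAT, IZE: rays of period `K` and labels in terms of one Böttcher coordinate
-/

set_option autoImplicit false

open Complex Filter Topology Set
open Pool.Agent.Multibrot (MM)
open Pool.Agent.Limb (F)
open Pool.Agent.PLim (Rho IsBot IsLog Crit Dig Rot IsInt Label lab Ex Cod Per Lands InZ LabR)

namespace Pool.Agent.PSat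

namespace IZE_

/-- translation of the angle by an integer -/
lemma shift (K : ℕ) (hK : 1 ≤ K) (θ : ℝ) (m : ℤ) : ∀ ε : ℕ → ℤ,
    lab 2 K (θ + m) ε = lab 2 K θ (fun t => ε t + m) ∧
    (IsInt (Rot 2 K (θ + m) ε) ↔ IsInt (Rot 2 K θ (fun t => ε t + m))) := by
  induction m using Int.induction_on with
  | zero => intro ε; simp
  | succ m ih =>
    intro ε
    have h := (Pool.Agent.PLim.a_RINV 2 K ε (θ + (m : ℤ)) le_rfl hK).2.2.1
    have h2 := ih (fun t => ε t + 1)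
    have e1 : θ + ((m : ℤ) : ℝ) + 1 = θ + (((m : ℤ) + 1 : ℤ) : ℝ) := by push_cast; ring
    have e2 : (fun t => ε t + 1 + (m : ℤ)) = fun t => ε t + ((m : ℤ) + 1) := by
      funext t; ring
    rw [e1] at h
    rw [e2] at h2
    exact ⟨h.1.trans h2.1, h.2.trans h2.2⟩
  | pred m ih =>
    intro ε
    have h := (Pool.Agent.PLim.a_RINV 2 K (fun t => ε t - 1) (θ + ((-(m : ℤ) - 1 : ℤ) : ℝ))
      le_rfl hK).2.2.1
    have h2 := ih (fun t => ε t - 1)
    have e1 : θ + ((-(m : ℤ) - 1 : ℤ) : ℝ) + 1 = θ + ((-(m : ℤ) : ℤ) : ℝ) := by push_cast; ring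
    have e2 : (fun t => ε t - 1 + -(m : ℤ)) = fun t => ε t + (-(m : ℤ) - 1) := by
      funext t; ring
    have e3 : (fun t => ε t - 1 + 1) = ε := by
      funext t; ring
    rw [e1] at h
    rw [e2] at h2
    simp only [e3] at h
    exact ⟨h.1.symm.trans h2.1, h.2.symm.trans h2.2⟩

lemma an_add (ζ : ℂ) (m : ℤ) : an (ζ + 2 * Real.pi * I * m) = an ζ + m := by
  unfold an
  have h : (ζ + 2 * Real.pi * I * m).im = ζ.im + 2 * Real.pi * m := by
    simp
  rw [h]
  have := Real.pi_pos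
  field_simp

end IZE_

open IZE_ in
/-- IZE -/
theorem p_IZE (hDSH : T_DSH) : T_IZE := by
  intro K Λ lh ls c ζ z η hK hB hL hC hfix hper hdig
  obtain ⟨h1, h2, h3, h4⟩ := hDSH Λ lh ls c ζ hB hL hC
  -- comparison of two coordinates
  have key : ∀ (ζ' : ℂ) (ε : ℕ → ℤ), Crit 2 Λ c ζ' →
      (∀ j : ℕ, Dig 2 lh c ζ' ((F 2 c)^[j] z) (ε j)) →
      lab 2 K (an ζ') ε = lab 2 K (an ζ) η ∧
      (IsInt (Rot 2 K (an ζ') ε) ↔ IsInt (Rot 2 K (an ζ) η)) := by
    intro ζ' ε hC' hd'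
    obtain ⟨m, hm⟩ := h2 ζ' hC'
    have hfj : ∀ j : ℕ, (F 2 c)^[K] ((F 2 c)^[j] z) = (F 2 c)^[j] z := by
      intro j
      rw [← Function.iterate_add_apply, Nat.add_comm, Function.iterate_add_apply, hfix]
    have heq : ∀ j : ℕ, (2 : ℤ) ∣ η j - (ε j + m) := by
      intro j
      have h5 := hd' j
      rw [hm] at h5
      have h6 := (h3 K _ m (ε j) hK (hfj j)).1 h5
      exact (h4 K _ (η j) (ε j + m) hK (hfj j) (hdig j)).1 h6
    have h7 := (Pool.Agent.PLim.a_RINV 2 K η (an ζ) le_rfl hK).2.1 (fun t => ε t + m) heq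
    have h8 := shift K hK (an ζ) m ε
    rw [hm, an_add]
    exact ⟨h8.1.trans h7.1, h8.2.trans h7.2⟩
  constructor
  · constructor
    · rintro (⟨hM, -⟩ | ⟨ζ', ε, hC', -, hd', hi⟩)
      · exact absurd hM hC.1
      · exact (key ζ' ε hC' hd').2.1 hi
    · intro hi
      exact Or.inr ⟨ζ, η, hC, hper, hdig, hi⟩
  · intro l
    constructor
    · rintro (⟨ζ', ε, hC', -, hd', hi, hl⟩ | ⟨hM, -⟩)
      · have hk := key ζ' ε hC' hd'
        exact ⟨fun h => hi (hk.2.2 h), hk.1.symm.trans hl⟩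
      · exact absurd hM hC.1
    · rintro ⟨hi, hl⟩
      exact Or.inl ⟨ζ, η, hC, hper, hdig, hi, hl⟩

end Pool.Agent.PSat
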