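import Pool.Agent.PSat.Targets

/-!
# PSAT: a priori bounds for the cycles
-/

set_option autoImplicit false

open Complex Filter Topology Set
open Pool.Agent.Limb (F)
open Pool.Agent.PLim (Rho)

namespace Pool.Agent.PSat

namespace KBD_

lemma step (c z : ℂ) (hc : ‖c‖ ≤ 16) (hz : 5 < ‖z‖) : ‖z‖ < ‖F 2 c z‖ := by
  have h1 : ‖z ^ 2‖ - ‖c‖ ≤ ‖F 2 c z‖ := by
    unfold Pool.Agent.Limb.F
    have h := norm_sub_norm_le (z ^ 2) (-c)
    rw [norm_neg, sub_neg_eq_add] at h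
    exact h
  rw [norm_pow] at h1
  nlinarith

lemma grow (c z : ℂ) (hc : ‖c‖ ≤ 16) (hz : 5 < ‖z‖) (k : ℕ) : ‖z‖ < ‖(F 2 c)^[k + 1] z‖ := by
  induction k with
  | zero => simpa using step c z hc hz
  | succ k ih =>
    rw [Function.iterate_succ_apply']
    exact ih.trans (step c _ hc (hz.trans ih))

lemma bound (K : ℕ) (c z : ℂ) (hK : 1 ≤ K) (hc : ‖c‖ ≤ 16) (h : (F 2 c)^[K] z = z) :
    ‖z‖ ≤ 5 := by
  by_contra hcon
  push Not at hcon
  obtain ⟨k, rfl⟩ : ∃ k, K = k + 1 := ⟨K - 1, by omega⟩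
  have h1 := grow c z hc hcon k
  rw [h] at h1
  exact lt_irrefl _ h1

lemma hda (c z : ℂ) (k : ℕ) :
    HasDerivAt ((F 2 c)^[k]) (∏ j ∈ Finset.range k, (2 * (F 2 c)^[j] z)) z := by
  induction k with
  | zero => simpa using hasDerivAt_id z
  | succ k ih =>
    have h1 : HasDerivAt (F 2 c) (2 * (F 2 c)^[k] z) ((F 2 c)^[k] z) := by
      unfold Pool.Agent.Limb.F
      have h2 := (hasDerivAt_pow 2 ((fun z => z ^ 2 + c)^[k] z)).add_const c
      simpa using h2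
    have h3 := h1.comp z ih
    rw [Finset.prod_range_succ, mul_comm (∏ j ∈ Finset.range k, (2 * (F 2 c)^[j] z))]
    rw [Function.iterate_succ']
    exact h3

end KBD_

open KBD_ in
/-- KBD: a priori bounds. -/
theorem p_KBD : T_KBD := by
  intro K c z hK hc h
  refine ⟨bound K c z hK hc h, ?_⟩
  have h1 : Rho 2 K c z = ∏ j ∈ Finset.range K, (2 * (F 2 c)^[j] z) := (hda c z K).deriv
  rw [h1, norm_prod]
  have h2 : ∀ j ∈ Finset.range K, ‖2 * (F 2 c)^[j] z‖ ≤ 10 := by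
    intro j _
    have h3 : (F 2 c)^[K] ((F 2 c)^[j] z) = (F 2 c)^[j] z := by
      rw [← Function.iterate_add_apply, Nat.add_comm, Function.iterate_add_apply, h]
    have h4 := bound K c _ hK hc h3
    rw [norm_mul]
    have h5 : ‖(2 : ℂ)‖ = 2 := by simp
    rw [h5]
    linarith
  calc ∏ j ∈ Finset.range K, ‖2 * (F 2 c)^[j] z‖ ≤ ∏ _j ∈ Finset.range K, (10 : ℝ) :=
        Finset.prod_le_prod (fun _ _ => norm_nonneg _) h2
    _ = 10 ^ K := by simp

end Pool.Agent.PSat
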