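import Pool.Agent.PSat.Targets

/-!
# PSAT: KFC, the fixed points depend continuously on the parameter
-/

set_option autoImplicit false

open Complex Filter Topology Set
open Pool.Agent.Limb (F)

namespace Pool.Agent.PSat

namespace KFC_

theorem cont_iter (n : ℕ) : ∀ j : ℕ, Continuous (fun q : ℂ × ℂ => (F n q.1)^[j] q.2) := by
  intro j
  induction j with
  | zero => simpa using continuous_snd
  | succ j ih =>
    simp only [Function.iterate_succ_apply']
    have : Continuous (fun q : ℂ × ℂ => ((F n q.1)^[j] q.2) ^ n + q.1) := by fun_prop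
    exact this

end KFC_

theorem p_KFC (hKBD : T_KBD) : T_KFC := by
  intro X hX μ1 hμ1 e he
  by_contra hcon
  push Not at hcon
  have hK : 1 ≤ X.K := by
    have h1 := hX.hk
    have h2 := hX.hp
    have h3 := hX.hpq
    exact Nat.mul_pos (by omega) (by omega)
  have hρ := hX.hρ
  have hsub : Metric.ball X.m0 X.ρ ⊆ Metric.ball X.m0 (2 * X.ρ) :=
    Metric.ball_subset_ball (by linarith)
  choose μ z hμ hz hfar using fun n : ℕ => hcon (1 / ((n : ℝ) + 1)) (by positivity)
  have hlim : Tendsto μ atTop (𝓝 μ1) := by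
    rw [tendsto_iff_norm_sub_tendsto_zero]
    exact squeeze_zero (fun _ => norm_nonneg _) (fun n => (hμ n).le)
      tendsto_one_div_add_atTop_nhds_zero_nat
  have hev : ∀ᶠ n in atTop, μ n ∈ Metric.ball X.m0 (2 * X.ρ) :=
    hlim.eventually (Metric.isOpen_ball.mem_nhds (hsub hμ1))
  obtain ⟨N, hN⟩ := eventually_atTop.1 hev
  have hz5 : ∀ n, z (n + N) ∈ Metric.closedBall (0 : ℂ) 5 := by
    intro n
    rw [mem_closedBall_zero_iff]
    exact (hKBD X.K _ _ hK (hX.bd _ (hN (n + N) (Nat.le_add_left N n))) (hz (n + N))).1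
  obtain ⟨z', -, φ, hφ, hφl⟩ := (isCompact_closedBall (0 : ℂ) 5).tendsto_subseq hz5
  have hψ : ContinuousAt X.ψ μ1 :=
    (hX.dψ.differentiableAt (Metric.isOpen_ball.mem_nhds (hsub hμ1))).continuousAt
  have hidx : Tendsto (fun n => φ n + N) atTop atTop :=
    tendsto_atTop_mono (fun n => Nat.le_add_right _ _) hφ.tendsto_atTop
  have hc : Tendsto (fun n => X.ψ (μ (φ n + N))) atTop (𝓝 (X.ψ μ1)) :=
    hψ.tendsto.comp (hlim.comp hidx)
  have hpair : Tendsto (fun n => (X.ψ (μ (φ n + N)), z (φ n + N))) atTop (𝓝 (X.ψ μ1, z')) :=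
    hc.prodMk_nhds hφl
  have hit := ((KFC_.cont_iter 2 X.K).tendsto (X.ψ μ1, z')).comp hpair
  have hfix : (F 2 (X.ψ μ1))^[X.K] z' = z' := by
    refine tendsto_nhds_unique hit ?_
    refine hφl.congr fun n => ?_
    exact (hz (φ n + N)).symm
  have hd : Tendsto (fun n => ‖z (φ n + N) - z'‖) atTop (𝓝 0) :=
    tendsto_iff_norm_sub_tendsto_zero.1 hφl
  obtain ⟨n, hn⟩ := (hd.eventually (gt_mem_nhds he)).exists
  exact absurd hn (not_lt.2 (hfar (φ n + N) z' hfix))

end Pool.Agent.PSat
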