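import Pool.Agent.PSat.Targets
import Pool.Agent.PSat.Words

/-!
# PWR: powers and shifts
-/

set_option autoImplicit false

open Set
open Pool.Agent.PLim (GWL GmL Rot IsInt Per)

namespace Pool.Agent.PSat

namespace PWR_

/-- concatenation -/
lemma gwl_add (θ : ℝ) (ε : ℕ → ℤ) (k m : ℕ) :
    GWL 2 θ ε (k + m) = GWL 2 θ ε k * GWL 2 θ (sh k ε) m := by
  induction m with
  | zero => rw [Nat.add_zero]; exact (mul_one _).symm
  | succ m ih =>
    change GWL 2 θ ε (k + m) * GmL 2 θ (ε (k + m)) =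
      GWL 2 θ ε k * (GWL 2 θ (sh k ε) m * GmL 2 θ (sh k ε m))
    rw [ih, sh_apply, Nat.add_comm m k, mul_assoc]

lemma gwl_mul {k : ℕ} (θ : ℝ) {ε : ℕ → ℤ} (h : Per k ε) (v : ℕ) :
    GWL 2 θ ε (k * v) = (GWL 2 θ ε k) ^ v := by
  induction v with
  | zero => rw [Nat.mul_zero, pow_zero]; rfl
  | succ v ih =>
    rw [Nat.mul_succ, Nat.add_comm, gwl_add, sh_self h, ih, pow_succ']

lemma rot_sh_one {k : ℕ} (hk : 1 ≤ k) (θ : ℝ) {ε : ℕ → ℤ} (h : Per k ε) :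
    Rot 2 k θ (sh 1 ε) = Rot 2 k θ ε := by
  obtain ⟨m, rfl⟩ : ∃ m, k = m + 1 := ⟨k - 1, by omega⟩
  have h1 : GWL 2 θ ε (m + 1) = GmL 2 θ (ε 0) * GWL 2 θ (sh 1 ε) m := by
    rw [Nat.add_comm m 1, gwl_add]
    congr 1
  have h2 : GWL 2 θ (sh 1 ε) (m + 1) = GWL 2 θ (sh 1 ε) m * GmL 2 θ (ε 0) := by
    change GWL 2 θ (sh 1 ε) m * GmL 2 θ (sh 1 ε m) = _
    rw [sh_apply]
    have := h 0
    rw [Nat.zero_add] at this
    rw [this]
  unfold Rot
  rw [h1, h2]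
  refine CircleDeg1Lift.translationNumber_eq_of_semiconjBy (f := GmL 2 θ (ε 0)) ?_
  unfold SemiconjBy
  rw [mul_assoc]

end PWR_

theorem p_PWR : T_PWR := by
  intro k θ ε hk h
  refine ⟨fun v => ?_, fun i => ?_⟩
  · unfold Rot
    rw [PWR_.gwl_mul θ h v, CircleDeg1Lift.translationNumber_pow]
  · induction i with
    | zero => rfl
    | succ i ih =>
      rw [← ih, Nat.add_comm i 1, ← sh_sh]
      exact PWR_.rot_sh_one hk θ (per_sh h i)

end Pool.Agent.PSat
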