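import Pool.Agent.PSat.Targets
import Pool.Agent.PSat.Words
import Pool.Agent.PSat.PWR
import Pool.Agent.PLim.RC

/-!
# KPR: the denominator of the rotation number at a periodic angle
-/

set_option autoImplicit false

open Set Filter Topology
open Pool.Agent.PLim (GWL GmL Gm Gm_eq Rot IsInt Per)

namespace Pool.Agent.PSat

namespace KPR_

lemma gm2 (θ : ℝ) (i : ℤ) (x : ℝ) : Gm 2 θ i x = (x + i + ⌊x - θ⌋) / 2 := by
  rw [Gm_eq]
  push_cast
  ring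

lemma gmL2 (θ : ℝ) (i : ℤ) (x : ℝ) : GmL 2 θ i x = (x + i + ⌊x - θ⌋) / 2 := gm2 θ i x

/-- the floor is locally constant off the integers -/
lemma floor_near {y : ℝ} (hy : ¬ IsInt y) :
    ∃ δ : ℝ, 0 < δ ∧ ∀ u : ℝ, |u - y| < δ → ⌊u⌋ = ⌊y⌋ := by
  have h1 : (⌊y⌋ : ℝ) < y := lt_of_le_of_ne (Int.floor_le y) fun h => hy ⟨⌊y⌋, h.symm⟩
  have h2 : y < ⌊y⌋ + 1 := Int.lt_floor_add_one y
  refine ⟨min (y - ⌊y⌋) (⌊y⌋ + 1 - y), lt_min (by linarith) (by linarith), fun u hu => ?_⟩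
  rw [Int.floor_eq_iff]
  have h3 := lt_of_lt_of_le hu (min_le_left _ _)
  have h4 := lt_of_lt_of_le hu (min_le_right _ _)
  rw [abs_lt] at h3 h4
  constructor <;> linarith [h3.1, h4.2]

/-- following the orbit backwards -/
lemma follow (θ : ℝ) (η : ℕ → ℤ) (T : ℕ)
    (h : ∀ t : ℕ, 1 ≤ t → t ≤ T → ¬ IsInt (2 ^ t * θ - θ) ∧ (2 : ℤ) ∣ ⌊2 ^ t * θ - θ⌋ - η (t - 1)) :
    ∀ s : ℤ, ∃ s' : ℤ, ∃ δ : ℝ, 0 < δ ∧ ∀ θ' : ℝ, |θ' - θ| < δ →
      GWL 2 θ' η T (2 ^ T * θ + s) = θ + s' := by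
  induction T with
  | zero =>
    intro s
    refine ⟨s, 1, one_pos, fun θ' _ => ?_⟩
    rw [pow_zero, one_mul]
    rfl
  | succ T ih =>
    intro s
    obtain ⟨hn, hd⟩ := h (T + 1) (by omega) le_rfl
    rw [Nat.add_sub_cancel] at hd
    obtain ⟨w, hw⟩ := hd
    obtain ⟨δ1, hδ1, h1⟩ := floor_near (y := 2 ^ (T + 1) * θ + s - θ) (by
      intro hi
      apply hn
      have := isInt_sub hi (isInt_int s)
      rwa [show 2 ^ (T + 1) * θ + s - θ - s = 2 ^ (T + 1) * θ - θ by ring] at this)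
    obtain ⟨s', δ2, hδ2, h2⟩ := ih (fun t h1 h2 => h t h1 (by omega)) (s + w + η T)
    refine ⟨s', min δ1 δ2, lt_min hδ1 hδ2, fun θ' hθ' => ?_⟩
    have h3 := h2 θ' (lt_of_lt_of_le hθ' (min_le_right _ _))
    have h4 := h1 (2 ^ (T + 1) * θ + s - θ') (by
      rw [show 2 ^ (T + 1) * θ + s - θ' - (2 ^ (T + 1) * θ + s - θ) = -(θ' - θ) by ring, abs_neg]
      exact lt_of_lt_of_le hθ' (min_le_left _ _))
    have h5 : ⌊2 ^ (T + 1) * θ + s - θ⌋ = ⌊2 ^ (T + 1) * θ - θ⌋ + s := by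
      rw [show 2 ^ (T + 1) * θ + s - θ = 2 ^ (T + 1) * θ - θ + s by ring, Int.floor_add_intCast]
    rw [← h3]
    change GWL 2 θ' η T (GmL 2 θ' (η T) (2 ^ (T + 1) * θ + s)) = _
    congr 1
    rw [gmL2, h4, h5]
    have h6 : ⌊2 ^ (T + 1) * θ - θ⌋ = 2 * w + η T := by linarith
    rw [h6]
    push_cast
    ring

/-- at a wrong digit or at the return to `θ` -/
lemma turn (θ : ℝ) (e : ℤ) (y : ℝ)
    (h : IsInt (2 * y - θ) ∨ ¬ (2 : ℤ) ∣ ⌊2 * y - θ⌋ - e) :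
    ∃ s : ℤ, (θ + e - 1) / 2 ≤ y + s ∧ y + s ≤ (θ + e) / 2 := by
  rcases h with ⟨N, hN⟩ | h
  · rcases Int.emod_two_eq_zero_or_one (e - N) with h1 | h1
    · refine ⟨(e - N) / 2, ?_, ?_⟩
      · have h2 : (((e - N) / 2 : ℤ) : ℝ) * 2 = e - N := by
          have : (e - N) / 2 * 2 = e - N := by omega
          exact_mod_cast this
        linarith
      · have h2 : (((e - N) / 2 : ℤ) : ℝ) * 2 = e - N := by
          have : (e - N) / 2 * 2 = e - N := by omega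
          exact_mod_cast this
        linarith
    · refine ⟨(e - N) / 2, ?_, ?_⟩
      · have h2 : (((e - N) / 2 : ℤ) : ℝ) * 2 = e - N - 1 := by
          have : (e - N) / 2 * 2 = e - N - 1 := by omega
          exact_mod_cast this
        linarith
      · have h2 : (((e - N) / 2 : ℤ) : ℝ) * 2 = e - N - 1 := by
          have : (e - N) / 2 * 2 = e - N - 1 := by omega
          exact_mod_cast this
        linarith
  · obtain ⟨f, hf⟩ : ∃ f : ℤ, f = ⌊2 * y - θ⌋ := ⟨_, rfl⟩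
    rw [← hf] at h
    have h1 : (f : ℝ) ≤ 2 * y - θ := by rw [hf]; exact Int.floor_le _
    have h2 : 2 * y - θ < f + 1 := by rw [hf]; exact Int.lt_floor_add_one _
    have h3 : (((e - 1 - f) / 2 : ℤ) : ℝ) * 2 = e - 1 - f := by
      have : (e - 1 - f) / 2 * 2 = e - 1 - f := by omega
      exact_mod_cast this
    refine ⟨(e - 1 - f) / 2, ?_, ?_⟩ <;> linarith

/-- the property `P (j, m)` for the word `η = sh j ε` -/
def PP (θ : ℝ) (η : ℕ → ℤ) (m : ℕ) : Prop := ∃ (s : ℤ) (δ : ℝ), 0 < δ ∧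
  (∀ θ' : ℝ, θ < θ' → θ' < θ + δ → GWL 2 θ' η m θ ≤ θ + s) ∧
  ∀ θ' : ℝ, θ - δ < θ' → θ' < θ → θ + s ≤ GWL 2 θ' η m θ

lemma PP_comp {θ : ℝ} {η : ℕ → ℤ} {m m' : ℕ} (h : PP θ η m) (h' : PP θ (sh m η) m') :
    PP θ η (m + m') := by
  obtain ⟨s, δ, hδ, h1, h2⟩ := h
  obtain ⟨s', δ', hδ', h1', h2'⟩ := h'
  refine ⟨s + s', min δ δ', lt_min hδ hδ', fun θ' h3 h4 => ?_, fun θ' h3 h4 => ?_⟩
  · rw [PWR_.gwl_add]
    have h5 := h1 θ' h3 (by linarith [min_le_left δ δ'])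
    have h6 := h1' θ' h3 (by linarith [min_le_right δ δ'])
    change GWL 2 θ' η m (GWL 2 θ' (sh m η) m' θ) ≤ _
    have h7 := (GWL 2 θ' η m).monotone h6
    rw [CircleDeg1Lift.map_add_int] at h7
    push_cast
    linarith
  · rw [PWR_.gwl_add]
    have h5 := h2 θ' (by linarith [min_le_left δ δ']) h4
    have h6 := h2' θ' (by linarith [min_le_right δ δ']) h4
    change _ ≤ GWL 2 θ' η m (GWL 2 θ' (sh m η) m' θ)
    have h7 := (GWL 2 θ' η m).monotone h6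
    rw [CircleDeg1Lift.map_add_int] at h7
    push_cast
    linarith

lemma PP_zero (θ : ℝ) (η : ℕ → ℤ) : PP θ η 0 := by
  refine ⟨0, 1, one_pos, fun θ' _ _ => ?_, fun θ' _ _ => ?_⟩ <;> simp [GWL]

/-- the claim -/
lemma claim {K : ℕ} (hK : 1 ≤ K) {θ : ℝ} (hθ : IsP K θ) (η : ℕ → ℤ) :
    ∃ m : ℕ, 1 ≤ m ∧ m ≤ K ∧ PP θ η m := by
  classical
  have hex : ∃ m : ℕ, 1 ≤ m ∧
      (IsInt (2 ^ m * θ - θ) ∨ ¬ (2 : ℤ) ∣ ⌊2 ^ m * θ - θ⌋ - η (m - 1)) :=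
    ⟨K, hK, Or.inl (isP_iff.mp hθ)⟩
  obtain ⟨hm1, hm2⟩ := Nat.find_spec hex
  have hmin := fun t (ht : t < Nat.find hex) => Nat.find_min hex ht
  have hle : Nat.find hex ≤ K := Nat.find_le ⟨hK, Or.inl (isP_iff.mp hθ)⟩
  obtain ⟨m, hm⟩ : ∃ m : ℕ, Nat.find hex = m + 1 := ⟨Nat.find hex - 1, by omega⟩
  rw [hm] at hm1 hm2 hmin hle
  refine ⟨m + 1, hm1, hle, ?_⟩
  have hfol := follow θ η m (fun t h1 h2 => by
    have h3 := hmin t (by omega)
    push Not at h3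
    exact h3 h1)
  rw [Nat.add_sub_cancel, pow_succ, mul_comm ((2 : ℝ) ^ m) 2, mul_assoc] at hm2
  obtain ⟨s1, h1, h2⟩ := turn θ (η m) (2 ^ m * θ) hm2
  obtain ⟨s', δ, hδ, h3⟩ := hfol s1
  refine ⟨s', min δ 1, lt_min hδ one_pos, fun θ' h4 h5 => ?_, fun θ' h4 h5 => ?_⟩
  · have h6 := h3 θ' (by rw [abs_of_pos (by linarith)]; linarith [min_le_left δ 1])
    change GWL 2 θ' η m (GmL 2 θ' (η m) θ) ≤ _
    rw [← h6]
    apply (GWL 2 θ' η m).monotone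
    rw [gmL2]
    have h7 : ⌊θ - θ'⌋ = -1 := by
      rw [Int.floor_eq_iff]
      push_cast
      constructor <;> linarith [min_le_right δ 1]
    rw [h7]
    push_cast
    linarith
  · have h6 := h3 θ' (by rw [abs_of_neg (by linarith)]; linarith [min_le_left δ 1])
    change _ ≤ GWL 2 θ' η m (GmL 2 θ' (η m) θ)
    rw [← h6]
    apply (GWL 2 θ' η m).monotone
    rw [gmL2]
    have h7 : ⌊θ - θ'⌋ = 0 := by
      rw [Int.floor_eq_iff]
      push_cast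
      constructor <;> linarith [min_le_right δ 1]
    rw [h7]
    push_cast
    linarith

/-- levels: a chain of steps -/
lemma chain {K : ℕ} (hK : 1 ≤ K) {θ : ℝ} (hθ : IsP K θ) (ε : ℕ → ℤ) :
    ∃ J : ℕ → ℕ, ∀ a d : ℕ, d ≤ J (a + d) - J a ∧ J a ≤ J (a + d) ∧
      J (a + d) - J a ≤ d * K ∧ PP θ (sh (J a) ε) (J (a + d) - J a) := by
  choose m hm1 hm2 hm3 using fun j : ℕ => claim hK hθ (sh j ε)
  obtain ⟨J, hJ0, hJ⟩ : ∃ J : ℕ → ℕ, J 0 = 0 ∧ ∀ i, J (i + 1) = J i + m (J i) :=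
    ⟨fun i => Nat.rec 0 (fun _ x => x + m x) i, rfl, fun i => rfl⟩
  refine ⟨J, fun a d => ?_⟩
  induction d with
  | zero =>
    refine ⟨Nat.zero_le _, le_rfl, ?_, ?_⟩
    · simp
    · rw [Nat.add_zero, Nat.sub_self]
      exact PP_zero θ _
  | succ d ih =>
    obtain ⟨h1, h2, h3, h4⟩ := ih
    have h5 := hJ (a + d)
    have h6 := hm1 (J (a + d))
    have h7 := hm2 (J (a + d))
    rw [← Nat.add_assoc, h5]
    refine ⟨by omega, by omega, ?_, ?_⟩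
    · rw [Nat.succ_mul]
      omega
    · rw [show J (a + d) + m (J (a + d)) - J a = (J (a + d) - J a) + m (J (a + d)) by omega]
      refine PP_comp h4 ?_
      rw [sh_sh, Nat.sub_add_cancel h2]
      exact hm3 _

end KPR_

open KPR_

theorem p_KPR : T_KPR := by
  intro k K θ ε hk hK hε hθ
  obtain ⟨J, hJ⟩ := chain hK hθ ε
  -- two levels agree modulo `k`
  obtain ⟨x, hx, y, hy, hxy, heq⟩ := Finset.exists_ne_map_eq_of_card_lt_of_maps_to
    (s := Finset.range (k + 1)) (t := Finset.range k) (f := fun i => J i % k)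
    (by rw [Finset.card_range, Finset.card_range]; omega)
    (fun i _ => by
      simp only [Finset.coe_range, Set.mem_Iio]
      exact Nat.mod_lt _ hk)
  obtain ⟨a, b, hab, hbk, hmod⟩ : ∃ a b : ℕ, a < b ∧ b ≤ k ∧ J a % k = J b % k := by
    rw [Finset.mem_range] at hx hy
    rcases lt_or_gt_of_ne hxy with h | h
    · exact ⟨x, y, h, by omega, heq⟩
    · exact ⟨y, x, h, by omega, heq.symm⟩
  obtain ⟨d, rfl⟩ : ∃ d, b = a + d := ⟨b - a, by omega⟩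
  obtain ⟨h1, h2, h3, h4⟩ := hJ a d
  obtain ⟨M, hM⟩ : k ∣ J (a + d) - J a := by
    rw [← Nat.modEq_iff_dvd' h2]
    exact hmod
  rw [hM] at h4
  have hM1 : 1 ≤ M := by
    rcases Nat.eq_zero_or_pos M with h0 | h0
    · rw [h0, Nat.mul_zero] at hM
      omega
    · exact h0
  have hMK : M ≤ K := by
    have h5 : k * M ≤ k * K := by
      rw [← hM]
      refine h3.trans (Nat.mul_le_mul_right _ ?_)
      omega
    exact Nat.le_of_mul_le_mul_left h5 hk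
  refine ⟨M, hM1, hMK, ?_⟩
  obtain ⟨s, δ, hδ, h5, h6⟩ := h4
  have hrot : ∀ θ' : ℝ, Rot 2 (k * M) θ' (sh (J a) ε) = M * Rot 2 k θ' ε := by
    intro θ'
    rw [(p_PWR k θ' (sh (J a) ε) hk (per_sh hε _)).1 M, (p_PWR k θ' ε hk hε).2]
  have hcont : Continuous fun θ' => (M : ℝ) * Rot 2 k θ' ε :=
    continuous_const.mul (Pool.Agent.PLim.p_RC 2 k ε le_rfl).1
  have hup : (M : ℝ) * Rot 2 k θ ε ≤ s := by
    have h7 : Tendsto (fun θ' => (M : ℝ) * Rot 2 k θ' ε) (𝓝[>] θ) (𝓝 (M * Rot 2 k θ ε)) :=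
      (hcont.tendsto θ).mono_left nhdsWithin_le_nhds
    refine le_of_tendsto h7 ?_
    filter_upwards [Ioo_mem_nhdsGT (show θ < θ + δ by linarith)] with θ' hθ'
    rw [← hrot]
    exact CircleDeg1Lift.translationNumber_le_of_le_add_int _ (h5 θ' hθ'.1 hθ'.2)
  have hlo : (s : ℝ) ≤ M * Rot 2 k θ ε := by
    have h7 : Tendsto (fun θ' => (M : ℝ) * Rot 2 k θ' ε) (𝓝[<] θ) (𝓝 (M * Rot 2 k θ ε)) :=
      (hcont.tendsto θ).mono_left nhdsWithin_le_nhds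
    refine ge_of_tendsto h7 ?_
    filter_upwards [Ioo_mem_nhdsLT (show θ - δ < θ by linarith)] with θ' hθ'
    rw [← hrot]
    exact CircleDeg1Lift.le_translationNumber_of_add_int_le _ (h6 θ' hθ'.1 hθ'.2)
  exact ⟨s, le_antisymm hup hlo⟩

end Pool.Agent.PSat
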