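import Pool.Agent.PSat.Basic
import Pool.Agent.PLim.IMP

/-!
# PSAT, LBA: the bifurcating points as a graph over `z`
-/

set_option autoImplicit false

open Complex Filter Topology Set
open Pool.Agent.Multibrot (MM)
open Pool.Agent.Limb (F)
open Pool.Agent.PLim (Rho HH)
open Pool.Agent.MEX (Exa)
open Pool.Agent.MEY (Pt)

namespace Pool.Agent.PSat

namespace LBA_

lemma iterA (j : ℕ) {u v : ℂ × ℂ → ℂ} {x : ℂ × ℂ} (hu : AnalyticAt ℂ u x)
    (hv : AnalyticAt ℂ v x) : AnalyticAt ℂ (fun y : ℂ × ℂ => (F 2 (u y))^[j] (v y)) x := by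
  induction j with
  | zero => exact hv
  | succ j ih =>
    have h : (fun y : ℂ × ℂ => (F 2 (u y))^[j + 1] (v y)) =
        fun y : ℂ × ℂ => ((F 2 (u y))^[j] (v y)) ^ 2 + u y := by
      funext y
      rw [Function.iterate_succ_apply']
      rfl
    rw [h]
    exact (ih.fun_pow 2).fun_add hu

lemma HHA (m : ℕ) {u v w : ℂ × ℂ → ℂ} {x : ℂ × ℂ} (hu : AnalyticAt ℂ u x)
    (hv : AnalyticAt ℂ v x) (hw : AnalyticAt ℂ w x) :
    AnalyticAt ℂ (fun y : ℂ × ℂ => HH 2 m (u y) (v y) (w y)) x := by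
  unfold HH
  refine AnalyticAt.fun_sub ?_ analyticAt_const
  refine Finset.analyticAt_fun_prod _ fun j _ => ?_
  refine Finset.analyticAt_fun_sum _ fun i _ => ?_
  exact ((iterA j hu hv).fun_pow _).fun_mul ((iterA j hu hw).fun_pow _)

end LBA_

open LBA_ in
/-- LBA: the bifurcating points as a graph over `z`. -/
theorem p_LBA : T_LBA := by
  intro X hX
  set z0 : ℂ := X.χ X.m0 with hz0
  have hm2 : X.m0 ∈ Metric.ball X.m0 (2 * X.ρ) := hX.sub2 hX.mem0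
  have hK1 : 1 ≤ X.K := hX.hK1
  have hq0 : (X.q : ℂ) ≠ 0 := by
    have := hX.hq
    exact_mod_cast (by omega : X.q ≠ 0)
  obtain ⟨hE1, hE2, -⟩ := Pool.Agent.PLim.a_HHE 2 X.K (by norm_num)
  have hsec : deriv (fun x => HH 2 X.K (X.ψ X.m0) x z0) z0 = 0 :=
    Pool.Agent.PLim.a_SEC0 2 X.k X.p X.q (X.ψ X.m0) z0 le_rfl hX.hk hX.hp hX.hpq hX.cop
      (hX.pt X.m0 hm2).fix (by rw [(hX.pt X.m0 hm2).mul, hX.exp_m0])
  -- the function `Φ (z, μ)`
  set Φ : ℂ × ℂ → ℂ := fun p => HH 2 X.K (X.ψ p.2) p.1 (X.χ p.2) with hΦ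
  have hΦA : ∀ p : ℂ × ℂ, p.2 ∈ Metric.ball X.m0 (2 * X.ρ) → AnalyticAt ℂ Φ p := by
    intro p hp
    have h1 : AnalyticAt ℂ (fun y : ℂ × ℂ => X.ψ y.2) p :=
      AnalyticAt.fun_comp (hX.dψ.analyticAt (Metric.isOpen_ball.mem_nhds hp)) analyticAt_snd
    have h2 : AnalyticAt ℂ (fun y : ℂ × ℂ => X.χ y.2) p :=
      AnalyticAt.fun_comp (hX.dχ.analyticAt (Metric.isOpen_ball.mem_nhds hp)) analyticAt_snd
    exact HHA X.K h1 analyticAt_fst h2
  have hfac : ∀ μ ∈ Metric.ball X.m0 (2 * X.ρ), ∀ z : ℂ,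
      (F 2 (X.ψ μ))^[X.K] z - z = (z - X.χ μ) * Φ (z, μ) := by
    intro μ hμ z
    have h1 := hE1 (X.ψ μ) z (X.χ μ)
    have h2 : (F 2 (X.ψ μ))^[X.K] (X.χ μ) = X.χ μ := hX.fx_chi hμ
    rw [h2, sub_self, sub_zero] at h1
    exact h1
  have hdiag : ∀ μ ∈ Metric.ball X.m0 (2 * X.ρ), Φ (X.χ μ, μ) = exp (X.q * μ) - 1 := by
    intro μ hμ
    have h1 : Φ (X.χ μ, μ) = Rho 2 X.K (X.ψ μ) (X.χ μ) - 1 := hE2 (X.ψ μ) (X.χ μ)
    have h2 : Rho 2 X.K (X.ψ μ) (X.χ μ) = exp (X.q * μ) := hX.rh_chi hμ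
    rw [h1, h2]
  have hexp : exp (X.q * X.m0) = 1 := by
    rw [Complex.exp_nat_mul, hX.exp_m0]
    exact Pool.Agent.PLim.IMP_.root_pow (by have := hX.hq; omega)
  have hΦ0 : Φ (z0, X.m0) = 0 := by
    rw [hdiag X.m0 hm2, hexp, sub_self]
  have hΦc : ContDiffAt ℂ 1 Φ (z0, X.m0) := (hΦA (z0, X.m0) hm2).contDiffAt
  set Ψ : ℂ × ℂ → ℂ × ℂ := fun p => (p.1, Φ p) with hΨ
  have hΨc : ContDiffAt ℂ 1 Ψ (z0, X.m0) := contDiffAt_fst.prodMk hΦc
  have hΦd : HasFDerivAt Φ (fderiv ℂ Φ (z0, X.m0)) (z0, X.m0) :=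
    (hΦc.differentiableAt one_ne_zero).hasFDerivAt
  -- the partial derivatives
  have hsplit : ∀ (p : ℂ × ℂ) (x y : ℂ), fderiv ℂ Φ p (x, y) =
      x * fderiv ℂ Φ p (1, 0) + y * fderiv ℂ Φ p (0, 1) := by
    intro p x y
    have h1 : ((x, y) : ℂ × ℂ) = x • ((1, 0) : ℂ × ℂ) + y • ((0, 1) : ℂ × ℂ) := by
      simp
    rw [h1, map_add, map_smul, map_smul, smul_eq_mul, smul_eq_mul]
  have hpz : ∀ p : ℂ × ℂ, p.2 ∈ Metric.ball X.m0 (2 * X.ρ) →
      HasDerivAt (fun z : ℂ => Φ (z, p.2)) (fderiv ℂ Φ p (1, 0)) p.1 := by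
    intro p hp
    have e2 : HasDerivAt (fun z : ℂ => ((z, p.2) : ℂ × ℂ)) (1, 0) p.1 :=
      (hasDerivAt_id p.1).prodMk (hasDerivAt_const p.1 p.2)
    have e3 : HasFDerivAt Φ (fderiv ℂ Φ p) ((fun z : ℂ => ((z, p.2) : ℂ × ℂ)) p.1) :=
      (hΦA p hp).differentiableAt.hasFDerivAt
    exact HasFDerivAt.comp_hasDerivAt (f := fun z : ℂ => ((z, p.2) : ℂ × ℂ)) p.1 e3 e2
  have hA0 : fderiv ℂ Φ (z0, X.m0) (1, 0) = 0 := by
    have e1 := (hpz (z0, X.m0) hm2).deriv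
    rw [← e1]
    exact hsec
  have hBq : fderiv ℂ Φ (z0, X.m0) (0, 1) = X.q := by
    have hχ : HasDerivAt X.χ (deriv X.χ X.m0) X.m0 :=
      (hX.dχ.differentiableAt (Metric.isOpen_ball.mem_nhds hm2)).hasDerivAt
    have e1 : HasDerivAt (fun μ : ℂ => Φ (X.χ μ, μ))
        (fderiv ℂ Φ (z0, X.m0) (deriv X.χ X.m0, 1)) X.m0 := by
      have e2 : HasDerivAt (fun μ : ℂ => ((X.χ μ, μ) : ℂ × ℂ)) (deriv X.χ X.m0, 1) X.m0 :=
        hχ.prodMk (hasDerivAt_id X.m0)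
      exact HasFDerivAt.comp_hasDerivAt (f := fun μ : ℂ => ((X.χ μ, μ) : ℂ × ℂ)) X.m0 hΦd e2
    have e4 : HasDerivAt (fun μ : ℂ => Φ (X.χ μ, μ)) X.q X.m0 := by
      have e5 : HasDerivAt (fun μ : ℂ => exp (X.q * μ) - 1) X.q X.m0 := by
        have e6 : HasDerivAt (fun μ : ℂ => (X.q : ℂ) * μ) ((X.q : ℂ) * 1) X.m0 :=
          (hasDerivAt_id X.m0).const_mul (X.q : ℂ)
        have e7 := e6.cexp.sub_const 1
        rw [hexp, one_mul, mul_one] at e7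
        exact e7
      refine e5.congr_of_eventuallyEq ?_
      filter_upwards [Metric.isOpen_ball.mem_nhds hm2] with μ hμ
      exact hdiag μ hμ
    have e5 := e1.unique e4
    rw [hsplit, hA0, mul_zero, zero_add, one_mul] at e5
    exact e5
  have hB0 : fderiv ℂ Φ (z0, X.m0) (0, 1) ≠ 0 := by
    rw [hBq]
    exact hq0
  have hfd : fderiv ℂ Φ (z0, X.m0) =
      fderiv ℂ Φ (z0, X.m0) (1, 0) • ContinuousLinearMap.fst ℂ ℂ ℂ +
        fderiv ℂ Φ (z0, X.m0) (0, 1) • ContinuousLinearMap.snd ℂ ℂ ℂ := by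
    refine ContinuousLinearMap.ext fun p => ?_
    obtain ⟨x, y⟩ := p
    rw [hsplit]
    simp only [add_apply, smul_apply,
      ContinuousLinearMap.coe_fst', ContinuousLinearMap.coe_snd', smul_eq_mul]
    ring
  have hΨd : HasFDerivAt Ψ ((Pool.Agent.PLim.LOCZ_.eqv (fderiv ℂ Φ (z0, X.m0) (1, 0))
      (fderiv ℂ Φ (z0, X.m0) (0, 1)) hB0 : (ℂ × ℂ) ≃L[ℂ] (ℂ × ℂ)) : (ℂ × ℂ) →L[ℂ] (ℂ × ℂ))
      (z0, X.m0) := by
    have h1 : HasFDerivAt Ψ ((ContinuousLinearMap.fst ℂ ℂ ℂ).prod (fderiv ℂ Φ (z0, X.m0)))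
        (z0, X.m0) := hasFDerivAt_fst.prodMk hΦd
    rw [hfd] at h1
    exact h1
  have hΨ0 : Ψ (z0, X.m0) = (z0, 0) := by
    simp only [hΨ, hΦ0]
  set e := hΨc.toOpenPartialHomeomorph Ψ hΨd one_ne_zero with he
  have hecoe : ∀ p, e p = Ψ p := fun p => rfl
  have hsrc : (z0, X.m0) ∈ e.source :=
    ContDiffAt.mem_toOpenPartialHomeomorph_source hΨc hΨd one_ne_zero
  have htgt : (z0, (0 : ℂ)) ∈ e.target := by
    have := ContDiffAt.image_mem_toOpenPartialHomeomorph_target hΨc hΨd one_ne_zero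
    rwa [hΨ0] at this
  have hsymm0 : e.symm (z0, 0) = (z0, X.m0) := by
    rw [← hΨ0, ← hecoe, e.left_inv hsrc]
  have hsd : ContDiffAt ℂ 1 e.symm (z0, 0) := by
    refine e.contDiffAt_symm htgt (f₀' := Pool.Agent.PLim.LOCZ_.eqv
      (fderiv ℂ Φ (z0, X.m0) (1, 0)) (fderiv ℂ Φ (z0, X.m0) (0, 1)) hB0) ?_ ?_
    · rw [hsymm0]
      exact hΨd
    · rw [hsymm0]
      exact hΨc
  set g : ℂ → ℂ := fun z => (e.symm (z, 0)).2 with hg
  have hgd : ContDiffAt ℂ 1 g z0 := by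
    have h1 : ContDiffAt ℂ 1 (fun z : ℂ => ((z, 0) : ℂ × ℂ)) z0 :=
      contDiffAt_id.prodMk contDiffAt_const
    have h2 : ContDiffAt ℂ 1 (fun z : ℂ => e.symm (z, 0)) z0 := hsd.comp z0 h1
    exact contDiffAt_snd.comp z0 h2
  have hg0 : g z0 = X.m0 := by
    simp only [hg, hsymm0]
  have hgt : Tendsto g (𝓝 z0) (𝓝 X.m0) := by
    have := hgd.continuousAt.tendsto
    rwa [hg0] at this
  -- the eventual properties
  have hev1 : ∀ᶠ z in 𝓝 z0, DifferentiableAt ℂ g z :=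
    (hgd.eventually (by simp)).mono fun c hc => hc.differentiableAt one_ne_zero
  have hev2 : ∀ᶠ z in 𝓝 z0, ((z, 0) : ℂ × ℂ) ∈ e.target := by
    have h1 : Continuous (fun c : ℂ => ((c, 0) : ℂ × ℂ)) := by fun_prop
    exact h1.continuousAt.eventually (e.open_target.mem_nhds htgt)
  have hev3 : ∀ᶠ z in 𝓝 z0, g z ∈ Metric.ball X.m0 X.ρ :=
    hgt.eventually (Metric.ball_mem_nhds _ hX.hρ)
  obtain ⟨r, hr, hball⟩ := Metric.eventually_nhds_iff_ball.mp (hev1.and (hev2.and hev3))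
  have hzero : ∀ z ∈ Metric.ball z0 r, Φ (z, g z) = 0 := by
    intro z hz
    obtain ⟨-, hz2, -⟩ := hball z hz
    have hinv : Ψ (e.symm (z, 0)) = (z, 0) := by
      rw [← hecoe]
      exact e.right_inv hz2
    have hi1 : (e.symm (z, 0)).1 = z := congrArg Prod.fst hinv
    have hi2 : Φ (e.symm (z, 0)) = 0 := congrArg Prod.snd hinv
    have : e.symm (z, 0) = (z, g z) := Prod.ext hi1 rfl
    rw [this] at hi2
    exact hi2
  have hgdo : DifferentiableOn ℂ g (Metric.ball z0 r) :=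
    fun z hz => (hball z hz).1.differentiableWithinAt
  refine ⟨r, g, fun z => fderiv ℂ Φ (z, g z) (0, 1), hr, hgdo, ?_, hg0, ?_, ?_, ?_⟩
  · intro z hz
    have hgA : AnalyticAt ℂ g z := hgdo.analyticAt (Metric.isOpen_ball.mem_nhds hz)
    have h1 : AnalyticAt ℂ (fderiv ℂ Φ) (z, g z) :=
      (hΦA (z, g z) (hX.sub2 (hball z hz).2.2)).fderiv
    have h2 : DifferentiableAt ℂ (fun w : ℂ => fderiv ℂ Φ (w, g w)) z := by
      have h3 : DifferentiableAt ℂ (fun w : ℂ => ((w, g w) : ℂ × ℂ)) z :=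
        differentiableAt_id.prodMk hgA.differentiableAt
      exact DifferentiableAt.comp (f := fun w : ℂ => ((w, g w) : ℂ × ℂ)) z
        h1.differentiableAt h3
    exact (h2.clm_apply (differentiableAt_const _)).differentiableWithinAt
  · simp only [hg0]
    exact hBq
  · intro z hz
    have hgz := (hball z hz).2.2
    have hgz2 := hX.sub2 hgz
    have hfx : X.Fx (g z) z := by
      have h1 := hfac (g z) hgz2 z
      rw [hzero z hz, mul_zero] at h1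
      exact sub_eq_zero.1 h1
    refine ⟨hgz, hfx, ?_⟩
    -- the derivative in `z`
    have h1 : HasDerivAt (fun w : ℂ => (F 2 (X.ψ (g z)))^[X.K] w - w) (X.rh (g z) z - 1) z := by
      have h2 : HasDerivAt ((F 2 (X.ψ (g z)))^[X.K]) (X.rh (g z) z) z :=
        (Pool.Agent.PLim.IMP_.iter_diff 2 X.K (X.ψ (g z))).differentiableAt.hasDerivAt
      exact h2.sub (hasDerivAt_id z)
    have h3 := hpz (z, g z) hgz2
    have h4 : HasDerivAt (fun w : ℂ => (w - X.χ (g z)) * Φ (w, g z))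
        (1 * Φ (z, g z) + (z - X.χ (g z)) * fderiv ℂ Φ (z, g z) (1, 0)) z :=
      ((hasDerivAt_id' z).sub_const (X.χ (g z))).mul h3
    have h5 : (fun w : ℂ => (F 2 (X.ψ (g z)))^[X.K] w - w) =
        fun w : ℂ => (w - X.χ (g z)) * Φ (w, g z) := funext fun w => hfac (g z) hgz2 w
    rw [h5] at h1
    have h6 := h1.unique h4
    rw [hzero z hz, mul_zero, zero_add] at h6
    -- the derivative along the graph
    have h7 : HasDerivAt (fun w : ℂ => Φ (w, g w)) (fderiv ℂ Φ (z, g z) (1, deriv g z)) z := by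
      have e2 : HasDerivAt (fun w : ℂ => ((w, g w) : ℂ × ℂ)) (1, deriv g z) z :=
        (hasDerivAt_id z).prodMk (hball z hz).1.hasDerivAt
      have e3 : HasFDerivAt Φ (fderiv ℂ Φ (z, g z)) ((fun w : ℂ => ((w, g w) : ℂ × ℂ)) z) :=
        (hΦA (z, g z) hgz2).differentiableAt.hasFDerivAt
      exact HasFDerivAt.comp_hasDerivAt (f := fun w : ℂ => ((w, g w) : ℂ × ℂ)) z e3 e2
    have h8 : HasDerivAt (fun w : ℂ => Φ (w, g w)) 0 z := by
      refine (hasDerivAt_const z (0 : ℂ)).congr_of_eventuallyEq ?_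
      filter_upwards [Metric.isOpen_ball.mem_nhds hz] with w hw
      exact hzero w hw
    have h9 := h7.unique h8
    rw [hsplit] at h9
    rw [h6]
    linear_combination (z - X.χ (g z)) * h9
  · -- uniqueness
    have hu : ∀ᶠ p : ℂ × ℂ in 𝓝 (X.m0, z0), ((p.2, p.1) : ℂ × ℂ) ∈ e.source ∧
        p.2 ∈ Metric.ball z0 r ∧ p.1 ∈ Metric.ball X.m0 (2 * X.ρ) := by
      have c1 : Tendsto (fun p : ℂ × ℂ => ((p.2, p.1) : ℂ × ℂ)) (𝓝 (X.m0, z0))
          (𝓝 (z0, X.m0)) := by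
        have : Continuous (fun p : ℂ × ℂ => ((p.2, p.1) : ℂ × ℂ)) := by fun_prop
        exact this.continuousAt
      have c2 : Tendsto (fun p : ℂ × ℂ => p.2) (𝓝 (X.m0, z0)) (𝓝 z0) :=
        continuous_snd.continuousAt
      have c3 : Tendsto (fun p : ℂ × ℂ => p.1) (𝓝 (X.m0, z0)) (𝓝 X.m0) :=
        continuous_fst.continuousAt
      exact (c1.eventually (e.open_source.mem_nhds hsrc)).and
        ((c2.eventually (Metric.ball_mem_nhds _ hr)).and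
          (c3.eventually (Metric.isOpen_ball.mem_nhds hm2)))
    obtain ⟨δ, hδ, hδ'⟩ := (near_iff (P := fun μ z => ((z, μ) : ℂ × ℂ) ∈ e.source ∧
      z ∈ Metric.ball z0 r ∧ μ ∈ Metric.ball X.m0 (2 * X.ρ))).1 hu
    refine ⟨δ, hδ, fun μ z h1 h2 h3 => ?_⟩
    obtain ⟨k1, k2, k3⟩ := hδ' μ z h1 h2
    have k4 := hfac μ k3 z
    have k5 : (F 2 (X.ψ μ))^[X.K] z = z := h3
    rw [k5, sub_self] at k4
    rcases mul_eq_zero.1 k4.symm with k6 | k6
    · exact Or.inl (sub_eq_zero.1 k6)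
    · refine Or.inr ⟨k2, ?_⟩
      have k7 : Ψ (z, μ) = (z, 0) := by
        simp only [hΨ, k6]
      have k8 : e.symm (z, 0) = (z, μ) := by
        rw [← k7, ← hecoe, e.left_inv k1]
      simp only [hg, k8]

end Pool.Agent.PSat
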