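import Pool.Agent.PSat.Basic

/-!
# PSAT: target T_LBB (the order of the bifurcation)
-/

set_option autoImplicit false

open Complex Filter Topology Set
open Pool.Agent.Multibrot (MM)
open Pool.Agent.Limb (F)
open Pool.Agent.PLim (Rho)
open Pool.Agent.MEX (Exa)
open Pool.Agent.MEY (Pt)

namespace Pool.Agent.PSat

namespace LBB_

/-! ### a local root -/

lemma root_form {f : ℂ → ℂ} {z0 : ℂ} (hf : AnalyticAt ℂ f z0) (h0 : f z0 = 0)
    (hne : ¬ ∀ᶠ z in 𝓝 z0, f z = 0) :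
    ∃ (s : ℕ) (φ : ℂ → ℂ), 1 ≤ s ∧ AnalyticAt ℂ φ z0 ∧ φ z0 = 0 ∧ deriv φ z0 ≠ 0 ∧
      ∀ᶠ z in 𝓝 z0, f z = φ z ^ s := by
  obtain ⟨s, h, hh, hh0, hev⟩ := hf.exists_eventuallyEq_pow_smul_nonzero_iff.2 hne
  have hs : s ≠ 0 := by
    rintro rfl
    have h1 := hev.self_of_nhds
    rw [h0] at h1
    simp only [pow_zero, one_smul] at h1
    exact hh0 h1.symm
  -- the root of the nonvanishing factor
  have hq : AnalyticAt ℂ (fun z => h z / h z0) z0 := hh.div analyticAt_const hh0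
  have hq1 : h z0 / h z0 ∈ slitPlane := by
    rw [div_self hh0]
    exact one_mem_slitPlane
  have hk : AnalyticAt ℂ (fun z => (h z0) ^ ((s : ℂ)⁻¹) * (h z / h z0) ^ ((s : ℂ)⁻¹)) z0 :=
    analyticAt_const.mul (hq.cpow analyticAt_const hq1)
  have hkp : ∀ z, ((h z0) ^ ((s : ℂ)⁻¹) * (h z / h z0) ^ ((s : ℂ)⁻¹)) ^ s = h z := by
    intro z
    rw [mul_pow, Complex.cpow_nat_inv_pow _ hs, Complex.cpow_nat_inv_pow _ hs,
      mul_div_cancel₀ _ hh0]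
  set κ : ℂ → ℂ := fun z => (h z0) ^ ((s : ℂ)⁻¹) * (h z / h z0) ^ ((s : ℂ)⁻¹) with hκ
  have hκ0 : κ z0 ≠ 0 := by
    intro h1
    have h2 := hkp z0
    rw [show (h z0) ^ ((s : ℂ)⁻¹) * (h z0 / h z0) ^ ((s : ℂ)⁻¹) = κ z0 from rfl, h1,
      zero_pow hs] at h2
    exact hh0 h2.symm
  refine ⟨s, fun z => (z - z0) * κ z, Nat.one_le_iff_ne_zero.2 hs,
    (analyticAt_id.sub analyticAt_const).mul hk, by simp, ?_, ?_⟩
  · have h1 : HasDerivAt (fun z => (z - z0) * κ z) (1 * κ z0 + (z0 - z0) * deriv κ z0) z0 :=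
      ((hasDerivAt_id z0).sub_const z0).mul hk.differentiableAt.hasDerivAt
    rw [h1.deriv, sub_self, zero_mul, add_zero, one_mul]
    exact hκ0
  · filter_upwards [hev] with z hz
    rw [hz, mul_pow, hkp z, smul_eq_mul]

/-- a local inverse and local injectivity -/
lemma loc_inv {φ : ℂ → ℂ} {z0 : ℂ} (hφ : AnalyticAt ℂ φ z0) (h0 : φ z0 = 0)
    (hd : deriv φ z0 ≠ 0) :
    (∃ σ : ℂ → ℂ, ContinuousAt σ 0 ∧ σ 0 = z0 ∧ ∀ᶠ w in 𝓝 (0 : ℂ), φ (σ w) = w) ∧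
    ∃ R : ℝ, 0 < R ∧ InjOn φ (Metric.ball z0 R) := by
  have hs : HasStrictDerivAt φ (deriv φ z0) z0 := hφ.hasStrictDerivAt
  have hl := (hs.hasStrictFDerivAt_equiv hd).eventually_left_inverse
  constructor
  · refine ⟨hs.localInverse φ (deriv φ z0) z0 hd, ?_, ?_, ?_⟩
    · have := (hs.to_localInverse hd).hasDerivAt.continuousAt
      rwa [h0] at this
    · have := (hs.hasStrictFDerivAt_equiv hd).localInverse_apply_image
      rwa [h0] at this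
    · have := (hs.hasStrictFDerivAt_equiv hd).eventually_right_inverse
      rwa [h0] at this
  · obtain ⟨R, hR, hR'⟩ := Metric.eventually_nhds_iff_ball.mp hl
    refine ⟨R, hR, fun x hx y hy hxy => ?_⟩
    rw [← hR' x hx, ← hR' y hy, hxy]

variable {X : Ctx}

/-! ### exponentials -/

lemma q_m0 (h : Dt X) : (X.q : ℂ) * X.m0 = X.p * (2 * Real.pi * I) := by
  have hq : (X.q : ℂ) ≠ 0 := by
    have := h.hq
    exact_mod_cast (by omega : X.q ≠ 0)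
  unfold Ctx.m0
  push_cast
  field_simp

lemma exp_m0_pow (h : Dt X) {d : ℕ} (h0 : 0 < d) (h1 : d < X.q) : exp X.m0 ^ d ≠ 1 := by
  intro h2
  rw [← Complex.exp_nat_mul, Complex.exp_eq_one_iff] at h2
  obtain ⟨n, hn⟩ := h2
  have h3 : ((X.p * d : ℕ) : ℂ) * (2 * Real.pi * I) = ((n * X.q : ℤ) : ℂ) * (2 * Real.pi * I) := by
    calc ((X.p * d : ℕ) : ℂ) * (2 * Real.pi * I) = d * (X.p * (2 * Real.pi * I)) := by
          push_cast
          ring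
      _ = d * (X.q * X.m0) := by rw [q_m0 h]
      _ = X.q * (d * X.m0) := by ring
      _ = ((n * X.q : ℤ) : ℂ) * (2 * Real.pi * I) := by
          rw [hn]
          push_cast
          ring
  have h4 := mul_right_cancel₀ Complex.two_pi_I_ne_zero h3
  have h5 : ((X.p * d : ℕ) : ℤ) = n * X.q := by exact_mod_cast h4
  have h6 : (X.q : ℤ) ∣ ((X.p * d : ℕ) : ℤ) := ⟨n, by rw [h5, mul_comm]⟩
  have h7 : X.q ∣ X.p * d := by exact_mod_cast h6
  have h8 : X.q ∣ d := h.cop.symm.dvd_of_dvd_mul_left h7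
  exact absurd (Nat.le_of_dvd h0 h8) (not_le.2 h1)

lemma exp_q (h : Dt X) {μ : ℂ} (hμ : μ ∈ Metric.ball X.m0 X.ρ) (h1 : exp (X.q * μ) = 1) :
    μ = X.m0 := by
  rw [Complex.exp_eq_one_iff] at h1
  obtain ⟨n, hn⟩ := h1
  have hq : (0 : ℝ) < X.q := by
    have := h.hq
    exact_mod_cast (by omega : 0 < X.q)
  have hqc : (X.q : ℂ) ≠ 0 := by
    exact_mod_cast hq.ne'
  have h3 : (X.q : ℂ) * (μ - X.m0) = ((n - X.p : ℤ) : ℂ) * (2 * Real.pi * I) := by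
    rw [mul_sub, hn, q_m0 h]
    push_cast
    ring
  by_cases h4 : n - X.p = 0
  · rw [h4] at h3
    simp only [Int.cast_zero, zero_mul, mul_eq_zero] at h3
    rcases h3 with h3 | h3
    · exact absurd h3 hqc
    · exact sub_eq_zero.1 h3
  · exfalso
    have h5 : (1 : ℝ) ≤ ‖((n - X.p : ℤ) : ℂ)‖ := by
      rw [Complex.norm_intCast]
      have h9 := Int.one_le_abs h4
      exact_mod_cast h9
    have h6 := congrArg norm h3
    rw [norm_mul, norm_mul, Complex.norm_natCast] at h6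
    have h7 : ‖(2 * (Real.pi : ℂ) * I)‖ = 2 * Real.pi := by
      rw [norm_mul, norm_mul, Complex.norm_I, mul_one, Complex.norm_real,
        Real.norm_of_nonneg Real.pi_pos.le]
      simp
    rw [h7] at h6
    rw [mem_ball_iff_norm] at hμ
    have h8 : (X.q : ℝ) * ‖μ - X.m0‖ ≤ X.q * X.ρ := mul_le_mul_of_nonneg_left hμ.le hq.le
    have h9 : X.ρ * X.q ≤ 1 := by
      have h13 := h.rho_K
      have h14 : (X.q : ℝ) ≤ X.K := by exact_mod_cast h.hqK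
      have := h.hρ
      nlinarith
    have hpi := Real.pi_gt_three
    nlinarith

lemma chi_ne (h : Dt X) {g E : ℂ → ℂ} {z : ℂ} (hg : g z ∈ Metric.ball X.m0 X.ρ)
    (hrh : X.rh (g z) z - 1 = -((z - X.χ (g z)) * deriv g z * E z)) (hz : z ≠ X.χ X.m0) :
    z ≠ X.χ (g z) := by
  intro h1
  rw [← h1, sub_self, zero_mul, zero_mul, neg_zero, sub_eq_zero] at hrh
  have h3 := h.rh_chi (h.sub2 hg)
  rw [← h1, hrh] at h3
  have h4 := exp_q h hg h3.symm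
  rw [h4] at h1
  exact hz h1

/-! ### continuity -/

lemma orb_cont (h : Dt X) {g : ℂ → ℂ} {z0 : ℂ} (hgc : ContinuousAt g z0) (hg0 : g z0 = X.m0)
    (d : ℕ) : ContinuousAt (fun z => (F 2 (X.ψ (g z)))^[d] z) z0 := by
  have h1 := h.iter_cont (h.sub2 h.mem0) z0 d
  rw [← hg0] at h1
  exact ContinuousAt.comp (f := fun z => (g z, z))
    (g := fun x : ℂ × ℂ => (F 2 (X.ψ x.1))^[d] x.2) h1 (hgc.prodMk continuousAt_id)

lemma orb_val {g : ℂ → ℂ} {z0 : ℂ} (hg0 : g z0 = X.m0) (d : ℕ) :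
    (F 2 (X.ψ (g z0)))^[d] z0 = (F 2 (X.ψ X.m0))^[d] z0 := by rw [hg0]

lemma fix0 (h : Dt X) (j : ℕ) : (F 2 (X.ψ X.m0))^[X.k * j] (X.χ X.m0) = X.χ X.m0 :=
  fix_mul (h.pt X.m0 (h.sub2 h.mem0)).fix j

lemma nfix0 (h : Dt X) {j : ℕ} (hj : ¬ X.k ∣ j) :
    (F 2 (X.ψ X.m0))^[j] (X.χ X.m0) ≠ X.χ X.m0 := by
  have hP := h.pt X.m0 (h.sub2 h.mem0)
  rw [← fix_mod hP.fix j]
  refine hP.exa _ ?_ (Nat.mod_lt _ h.hk)
  exact Nat.pos_of_ne_zero fun h0 => hj (Nat.dvd_of_mod_eq_zero h0)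

/-! ### exactness -/

lemma exa_ev (h : Dt X) {g : ℂ → ℂ} (hgc : ContinuousAt g (X.χ X.m0))
    (hg0 : g (X.χ X.m0) = X.m0)
    (hev : ∀ᶠ z in 𝓝 (X.χ X.m0), z ≠ X.χ X.m0 → z ≠ X.χ (g z))
    (hgρ : ∀ᶠ z in 𝓝 (X.χ X.m0), g z ∈ Metric.ball X.m0 X.ρ) :
    ∀ᶠ z in 𝓝 (X.χ X.m0), z ≠ X.χ X.m0 → Exa 2 X.K (X.ψ (g z)) z := by
  have key : ∀ d ∈ Finset.range X.K, ∀ᶠ z in 𝓝 (X.χ X.m0), 0 < d → z ≠ X.χ X.m0 →
      (F 2 (X.ψ (g z)))^[d] z ≠ z := by
    intro d hd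
    rw [Finset.mem_range] at hd
    by_cases hkd : X.k ∣ d
    · obtain ⟨d', rfl⟩ := hkd
      by_cases hd0 : 0 < d'
      · have hdq : d' < X.q := Nat.lt_of_mul_lt_mul_left hd
        have hP := h.pt X.m0 (h.sub2 h.mem0)
        have hR : Rho 2 (X.k * d') (X.ψ X.m0) (X.χ X.m0) ≠ 1 := by
          rw [rho_mul hP.fix, hP.mul]
          exact exp_m0_pow h hd0 hdq
        obtain ⟨δ1, r1, zf, -, -, hL⟩ := Pool.Agent.PLim.p_LOCZ 2 (X.k * d') (X.ψ X.m0)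
          (X.χ X.m0) 1 le_rfl one_pos (fix0 h d') hR
        have hψ : ∀ᶠ z in 𝓝 (X.χ X.m0), X.ψ (g z) ∈ Metric.ball (X.ψ X.m0) δ1 := by
          have h1 : ContinuousAt (fun z => X.ψ (g z)) (X.χ X.m0) := by
            refine ContinuousAt.comp (f := g) (g := X.ψ) ?_ hgc
            rw [hg0]
            exact h.psi_cont (h.sub2 h.mem0)
          have h2 := h1.eventually (Metric.ball_mem_nhds _ hL.hδ)
          simp only [hg0] at h2
          exact h2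
        have hχ : ∀ᶠ z in 𝓝 (X.χ X.m0), X.χ (g z) ∈ Metric.ball (X.χ X.m0) r1 := by
          have h1 : ContinuousAt (fun z => X.χ (g z)) (X.χ X.m0) := by
            refine ContinuousAt.comp (f := g) (g := X.χ) ?_ hgc
            rw [hg0]
            exact h.chi_cont (h.sub2 h.mem0)
          have h2 := h1.eventually (Metric.ball_mem_nhds _ hL.hr)
          simp only [hg0] at h2
          exact h2
        filter_upwards [hψ, hχ, hev, hgρ, Metric.ball_mem_nhds (X.χ X.m0) hL.hr]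
          with z h1 h2 h3 h4 h5 _ hz hfix
        exact h3 hz ((hL.uniq _ h1 z h5 hfix).trans
          (hL.uniq _ h1 _ h2 (fix_mul (h.pt _ (h.sub2 h4)).fix d')).symm)
      · have : d' = 0 := by omega
        subst this
        exact Eventually.of_forall fun z h1 => absurd h1 (by simp)
    · have h1 := orb_cont h hgc hg0 d
      have h2 : (F 2 (X.ψ (g (X.χ X.m0))))^[d] (X.χ X.m0) ≠ X.χ X.m0 := by
        rw [orb_val hg0]
        exact nfix0 h hkd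
      have h3 : ContinuousAt (fun z => (F 2 (X.ψ (g z)))^[d] z - z) (X.χ X.m0) :=
        h1.sub continuousAt_id
      filter_upwards [h3.eventually_ne (sub_ne_zero.2 h2)] with z hz _ _
      exact sub_ne_zero.1 hz
  have h2 := (Finset.eventually_all (Finset.range X.K)).2 key
  filter_upwards [h2] with z hz hne j hj0 hjK
  exact hz j (Finset.mem_range.2 hjK) hj0 hne

/-! ### the data -/

/-- The data near the point. -/
structure Dat (X : Ctx) (g φ : ℂ → ℂ) (s : ℕ) (δ R1 R2 : ℝ) : Prop where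
  hR2 : 0 < R2
  R21 : R2 ≤ R1
  R1δ : R1 ≤ δ
  hs : 1 ≤ s
  φ0 : φ (X.χ X.m0) = 0
  inj : InjOn φ (Metric.ball (X.χ X.m0) R1)
  uq : ∀ μ z : ℂ, ‖μ - X.m0‖ < δ → ‖z - X.χ X.m0‖ < δ → X.Fx μ z → z = X.χ μ ∨ g z = μ
  gδ : ∀ z ∈ Metric.ball (X.χ X.m0) R1, ‖g z - X.m0‖ < δ
  gρ : ∀ z ∈ Metric.ball (X.χ X.m0) R1, g z ∈ Metric.ball X.m0 X.ρ
  fx : ∀ z ∈ Metric.ball (X.χ X.m0) R1, X.Fx (g z) z
  gφ : ∀ z ∈ Metric.ball (X.χ X.m0) R1, g z = X.m0 + φ z ^ s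
  ne : ∀ z ∈ Metric.ball (X.χ X.m0) R1, z ≠ X.χ X.m0 → z ≠ X.χ (g z)
  exa : ∀ z ∈ Metric.ball (X.χ X.m0) R1, z ≠ X.χ X.m0 → Exa 2 X.K (X.ψ (g z)) z
  orb : ∀ z ∈ Metric.ball (X.χ X.m0) R2, ∀ j < X.q,
    (F 2 (X.ψ (g z)))^[X.k * j] z ∈ Metric.ball (X.χ X.m0) R1
  far : ∀ z ∈ Metric.ball (X.χ X.m0) R2, ∀ j < X.K, ¬ X.k ∣ j →
    (F 2 (X.ψ (g z)))^[j] z ∉ Metric.ball (X.χ X.m0) R2

section dat

variable {g φ : ℂ → ℂ} {s : ℕ} {δ R1 R2 : ℝ}

lemma Dat.hR1 (D : Dat X g φ s δ R1 R2) : 0 < R1 := lt_of_lt_of_le D.hR2 D.R21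

lemma Dat.sub21 (D : Dat X g φ s δ R1 R2) :
    Metric.ball (X.χ X.m0) R2 ⊆ Metric.ball (X.χ X.m0) R1 := Metric.ball_subset_ball D.R21

lemma Dat.phi_ne (D : Dat X g φ s δ R1 R2) {z : ℂ} (hz : z ∈ Metric.ball (X.χ X.m0) R1)
    (hne : z ≠ X.χ X.m0) : φ z ≠ 0 := fun h0 =>
  hne (D.inj hz (Metric.mem_ball_self D.hR1) (h0.trans D.φ0.symm))

lemma Dat.g_ne (D : Dat X g φ s δ R1 R2) {z : ℂ} (hz : z ∈ Metric.ball (X.χ X.m0) R1)
    (hne : z ≠ X.χ X.m0) : g z ≠ X.m0 := by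
  rw [D.gφ z hz]
  intro h1
  have h2 : φ z ^ s = 0 := by
    have h3 := congrArg (fun x => x - X.m0) h1
    simpa using h3
  exact D.phi_ne hz hne (pow_eq_zero_iff (by have := D.hs; omega) |>.1 h2)

lemma Dat.g0 (D : Dat X g φ s δ R1 R2) : g (X.χ X.m0) = X.m0 := by
  have hs : s ≠ 0 := by
    have := D.hs
    omega
  rw [D.gφ _ (Metric.mem_ball_self D.hR1), D.φ0, zero_pow hs, add_zero]

/-- the orbit is in the fibre -/
lemma Dat.orb1 (h : Dt X) (D : Dat X g φ s δ R1 R2) {z : ℂ}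
    (hz : z ∈ Metric.ball (X.χ X.m0) R2) (hne : z ≠ X.χ X.m0) {j : ℕ} (hj : j < X.q) :
    g ((F 2 (X.ψ (g z)))^[X.k * j] z) = g z ∧ (F 2 (X.ψ (g z)))^[X.k * j] z ≠ X.χ X.m0 := by
  have hy := D.orb z hz j hj
  have hz1 := D.sub21 hz
  have hfz := D.fx z hz1
  have hfy : X.Fx (g z) ((F 2 (X.ψ (g z)))^[X.k * j] z) := fix_iter hfz _
  have key : g ((F 2 (X.ψ (g z)))^[X.k * j] z) = g z := by
    rcases D.uq (g z) _ (D.gδ z hz1) (lt_of_lt_of_le (mem_ball_iff_norm.1 hy) D.R1δ) hfy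
      with h1 | h1
    · exfalso
      have h2 : (F 2 (X.ψ (g z)))^[X.k] ((F 2 (X.ψ (g z)))^[X.k * j] z) =
          (F 2 (X.ψ (g z)))^[X.k * j] z := by
        rw [h1]
        exact (h.pt _ (h.sub2 (D.gρ z hz1))).fix
      have h3 := fix_back hfz h.hK1 (X.k * j)
      have h4 : X.K * (X.k * j) - X.k * j = X.k * (X.K * j - j) := by
        rw [Nat.mul_sub]
        congr 1
        ring
      rw [h4, fix_mul h2 (X.K * j - j)] at h3
      exact D.ne z hz1 hne (h3.symm.trans h1)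
    · exact h1
  refine ⟨key, fun h2 => D.g_ne hz1 hne ?_⟩
  rw [← key, h2]
  exact D.g0

lemma Dat.orb_inj (h : Dt X) (D : Dat X g φ s δ R1 R2) {z : ℂ}
    (hz : z ∈ Metric.ball (X.χ X.m0) R2) (hne : z ≠ X.χ X.m0) {i j : ℕ} (hij : i < j)
    (hj : j < X.q) :
    (F 2 (X.ψ (g z)))^[X.k * i] z ≠ (F 2 (X.ψ (g z)))^[X.k * j] z := by
  intro h1
  have hz1 := D.sub21 hz
  have h2 := exa_iter (D.fx z hz1) h.hK1 (D.exa z hz1 hne) (X.k * i)
  have hk := h.hk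
  refine h2 (X.k * (j - i)) (Nat.mul_pos (by omega) (by omega)) ?_ ?_
  · exact (Nat.mul_lt_mul_left (by omega)).2 (by omega)
  · rw [← Function.iterate_add_apply, ← Nat.mul_add, Nat.sub_add_cancel hij.le]
    exact h1.symm

/-- the images of the orbit are roots -/
lemma Dat.roots (h : Dt X) (D : Dat X g φ s δ R1 R2) {z : ℂ}
    (hz : z ∈ Metric.ball (X.χ X.m0) R2) (hne : z ≠ X.χ X.m0) {j : ℕ} (hj : j < X.q) :
    φ ((F 2 (X.ψ (g z)))^[X.k * j] z) ^ s = g z - X.m0 := by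
  have h1 := (D.orb1 h hz hne hj).1
  rw [D.gφ _ (D.orb z hz j hj)] at h1
  linear_combination h1

lemma Dat.injOn (h : Dt X) (D : Dat X g φ s δ R1 R2) {z : ℂ}
    (hz : z ∈ Metric.ball (X.χ X.m0) R2) (hne : z ≠ X.χ X.m0) :
    InjOn (fun j => φ ((F 2 (X.ψ (g z)))^[X.k * j] z)) (Finset.range X.q : Set ℕ) := by
  intro i hi j hj hij
  rw [Finset.mem_coe, Finset.mem_range] at hi hj
  have h1 := D.inj (D.orb z hz i hi) (D.orb z hz j hj) hij
  rcases lt_trichotomy i j with h2 | h2 | h2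
  · exact absurd h1 (D.orb_inj h hz hne h2 hj)
  · exact h2
  · exact absurd h1.symm (D.orb_inj h hz hne h2 hi)

lemma card_roots (s : ℕ) (a : ℂ) :
    (Polynomial.nthRoots s a).toFinset.card ≤ s :=
  (Multiset.toFinset_card_le _).trans (Polynomial.card_nthRoots s a)

lemma Dat.q_le (h : Dt X) (D : Dat X g φ s δ R1 R2) : X.q ≤ s := by
  have hR2 := D.hR2
  obtain ⟨z, hz, hne⟩ : ∃ z ∈ Metric.ball (X.χ X.m0) R2, z ≠ X.χ X.m0 := by
    refine ⟨X.χ X.m0 + ((R2 / 2 : ℝ) : ℂ), ?_, ?_⟩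
    · rw [mem_ball_iff_norm, add_sub_cancel_left, Complex.norm_real,
        Real.norm_of_nonneg (by linarith)]
      linarith
    · intro h1
      rw [add_eq_left] at h1
      have h2 : (R2 / 2 : ℝ) = 0 := by exact_mod_cast h1
      linarith
  have hs0 : 0 < s := D.hs
  have h1 := Finset.card_le_card_of_injOn
    (s := Finset.range X.q) (t := (Polynomial.nthRoots s (g z - X.m0)).toFinset)
    (fun j => φ ((F 2 (X.ψ (g z)))^[X.k * j] z)) (fun j hj => by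
      rw [Finset.mem_coe, Finset.mem_range] at hj
      rw [Finset.mem_coe, Multiset.mem_toFinset, Polynomial.mem_nthRoots hs0]
      exact D.roots h hz hne hj) (D.injOn h hz hne)
  rw [Finset.card_range] at h1
  exact h1.trans (card_roots s _)

/-- two points of a fibre are in one cycle -/
lemma Dat.one (h : Dt X) (D : Dat X g φ s δ R1 R2) (hsq : s = X.q) {z z' : ℂ}
    (hz : z ∈ Metric.ball (X.χ X.m0) R2) (hz' : z' ∈ Metric.ball (X.χ X.m0) R2)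
    (hne : z ≠ X.χ X.m0) (hg : g z = g z') : ∃ j : ℕ, (F 2 (X.ψ (g z)))^[j] z = z' := by
  classical
  have hs0 : 0 < s := D.hs
  set A : Finset ℂ := (Finset.range X.q).image (fun j => φ ((F 2 (X.ψ (g z)))^[X.k * j] z))
    with hA
  have hAB : A ⊆ (Polynomial.nthRoots s (g z - X.m0)).toFinset := by
    intro x hx
    rw [hA, Finset.mem_image] at hx
    obtain ⟨j, hj, rfl⟩ := hx
    rw [Multiset.mem_toFinset, Polynomial.mem_nthRoots hs0]
    exact D.roots h hz hne (Finset.mem_range.1 hj)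
  have hAc : A.card = X.q := by
    rw [hA, Finset.card_image_of_injOn (D.injOn h hz hne), Finset.card_range]
  have hEq := Finset.eq_of_subset_of_card_le hAB (by
    rw [hAc, ← hsq]
    exact card_roots s _)
  have hmem : φ z' ∈ A := by
    rw [hEq, Multiset.mem_toFinset, Polynomial.mem_nthRoots hs0, hg, D.gφ _ (D.sub21 hz')]
    ring
  rw [hA, Finset.mem_image] at hmem
  obtain ⟨j, hj, hj'⟩ := hmem
  exact ⟨X.k * j, D.inj (D.orb z hz j (Finset.mem_range.1 hj)) (D.sub21 hz') hj'⟩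

/-- the order is at most `q`, when the points over `m0 + t` are attracting -/
lemma Dat.le_q (h : Dt X) (D : Dat X g φ s δ R1 R2) {σ : ℂ → ℂ} (hσ : ContinuousAt σ 0)
    (hσ0 : σ 0 = X.χ X.m0) (hσi : ∀ᶠ w in 𝓝 (0 : ℂ), φ (σ w) = w)
    (hatt : ∃ (R3 t0 : ℝ), 0 < R3 ∧ 0 < t0 ∧ ∀ z ∈ Metric.ball (X.χ X.m0) R3, ∀ t : ℝ, 0 < t →
      t < t0 → g z = X.m0 + t → ‖X.rh (g z) z‖ < 1) : s ≤ X.q := by
  obtain ⟨R3, t0, hR3, ht0, hatt⟩ := hatt
  have hR2 := D.hR2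
  have hs0 : s ≠ 0 := by
    have := D.hs
    omega
  have hk := h.hk
  have h1 : ∀ᶠ w in 𝓝 (0 : ℂ), φ (σ w) = w ∧ σ w ∈ Metric.ball (X.χ X.m0) R2 ∧
      σ w ∈ Metric.ball (X.χ X.m0) R3 := by
    have h2 := hσ.eventually (by
      rw [hσ0]
      exact Metric.ball_mem_nhds (X.χ X.m0) hR2)
    have h3 := hσ.eventually (by
      rw [hσ0]
      exact Metric.ball_mem_nhds (X.χ X.m0) hR3)
    exact hσi.and (h2.and h3)
  obtain ⟨η, hη, hη'⟩ := Metric.eventually_nhds_iff_ball.mp h1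
  -- the small number
  obtain ⟨x, hx0, hx1, hx2, hx3⟩ : ∃ x : ℝ, 0 < x ∧ x < η ∧ x < t0 ∧ x ≤ 1 := by
    refine ⟨min (min (η / 2) (t0 / 2)) 1, ?_, ?_, ?_, min_le_right _ _⟩
    · exact lt_min (lt_min (by linarith) (by linarith)) one_pos
    · calc min (min (η / 2) (t0 / 2)) 1 ≤ η / 2 := (min_le_left _ _).trans (min_le_left _ _)
        _ < η := by linarith
    · calc min (min (η / 2) (t0 / 2)) 1 ≤ t0 / 2 := (min_le_left _ _).trans (min_le_right _ _)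
        _ < t0 := by linarith
  have hζ := Complex.isPrimitiveRoot_exp s hs0
  set ζ : ℂ := Complex.exp (2 * Real.pi * I / s) with hζd
  have hζn : ‖ζ‖ = 1 := hζ.norm'_eq_one hs0
  have hw : ∀ i : ℕ, ζ ^ i * (x : ℂ) ∈ Metric.ball (0 : ℂ) η := by
    intro i
    rw [mem_ball_zero_iff, norm_mul, norm_pow, hζn, one_pow, one_mul, Complex.norm_real,
      Real.norm_of_nonneg hx0.le]
    exact hx1
  have hxs : (x : ℝ) ^ s < t0 := by
    calc x ^ s ≤ x ^ 1 := pow_le_pow_of_le_one hx0.le hx3 D.hs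
      _ = x := pow_one x
      _ < t0 := hx2
  -- the points
  have hz2 : ∀ i, σ (ζ ^ i * x) ∈ Metric.ball (X.χ X.m0) R2 := fun i => (hη' _ (hw i)).2.1
  have hz3 : ∀ i, σ (ζ ^ i * x) ∈ Metric.ball (X.χ X.m0) R3 := fun i => (hη' _ (hw i)).2.2
  have hgz : ∀ i, g (σ (ζ ^ i * x)) = X.m0 + ((x ^ s : ℝ) : ℂ) := by
    intro i
    rw [D.gφ _ (D.sub21 (hz2 i)), (hη' _ (hw i)).1, mul_pow, ← pow_mul, mul_comm i s, pow_mul,
      hζ.pow_eq_one, one_pow, one_mul]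
    push_cast
    rfl
  have hat : ∀ i, ‖Rho 2 X.K (X.ψ (X.m0 + ((x ^ s : ℝ) : ℂ))) (σ (ζ ^ i * x))‖ < 1 := by
    intro i
    have h5 := hatt _ (hz3 i) (x ^ s) (by positivity) hxs (hgz i)
    rw [hgz i] at h5
    exact h5
  have hfx : ∀ i, (F 2 (X.ψ (X.m0 + ((x ^ s : ℝ) : ℂ))))^[X.K] (σ (ζ ^ i * x)) =
      σ (ζ ^ i * x) := by
    intro i
    have h5 := D.fx _ (D.sub21 (hz2 i))
    rw [hgz i] at h5
    exact h5
  have hone : ∀ i : ℕ, ∃ j' : ℕ, j' < X.q ∧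
      (F 2 (X.ψ (X.m0 + ((x ^ s : ℝ) : ℂ))))^[X.k * j'] (σ (ζ ^ 0 * x)) = σ (ζ ^ i * x) := by
    intro i
    obtain ⟨j, hj⟩ := Pool.Agent.PLim.a_ATU 2 X.K X.K _ _ _ le_rfl h.hK1 h.hK1 (hfx 0) (hfx i)
      (hat 0) (hat i)
    rw [← fix_mod (hfx 0) j] at hj
    have hjK : j % X.K < X.K := Nat.mod_lt _ h.hK1
    have hkd : X.k ∣ j % X.K := by
      by_contra hnd
      have h6 := D.far _ (hz2 0) _ hjK hnd
      rw [hgz 0, hj] at h6
      exact h6 (hz2 i)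
    obtain ⟨j', hj'⟩ := hkd
    refine ⟨j', ?_, by rw [← hj', hj]⟩
    rw [hj'] at hjK
    exact Nat.lt_of_mul_lt_mul_left hjK
  choose J hJ1 hJ2 using hone
  have h9 := Finset.card_le_card_of_injOn (s := Finset.range s) (t := Finset.range X.q) J
    (fun i _ => by
      rw [Finset.mem_coe, Finset.mem_range]
      exact hJ1 i) (by
      intro i hi i' hi' hii
      rw [Finset.mem_coe, Finset.mem_range] at hi hi'
      have h6 : σ (ζ ^ i * x) = σ (ζ ^ i' * x) := by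
        rw [← hJ2 i, ← hJ2 i', hii]
      have h7 : ζ ^ i * (x : ℂ) = ζ ^ i' * x := by
        rw [← (hη' _ (hw i)).1, ← (hη' _ (hw i')).1, h6]
      have hx' : (x : ℂ) ≠ 0 := by exact_mod_cast hx0.ne'
      exact hζ.pow_inj hi hi' (mul_right_cancel₀ hx' h7))
  rwa [Finset.card_range, Finset.card_range] at h9

end dat

/-! ### the attracting points -/

/-- the points over `m0 + t` are attracting -/
lemma att (h : Dt X) {g φ E : ℂ → ℂ} {s : ℕ} (hs : 2 ≤ s)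
    (hga : AnalyticAt ℂ g (X.χ X.m0)) (hg0 : g (X.χ X.m0) = X.m0)
    (hφ : AnalyticAt ℂ φ (X.χ X.m0)) (hφ0 : φ (X.χ X.m0) = 0) (hφd : deriv φ (X.χ X.m0) ≠ 0)
    (hgφ : ∀ᶠ z in 𝓝 (X.χ X.m0), g z = X.m0 + φ z ^ s)
    (hEc : ContinuousAt E (X.χ X.m0)) (hE : E (X.χ X.m0) = X.q)
    (hrh : ∀ᶠ z in 𝓝 (X.χ X.m0),
      X.rh (g z) z - 1 = -((z - X.χ (g z)) * deriv g z * E z)) :
    ∃ (R3 t0 : ℝ), 0 < R3 ∧ 0 < t0 ∧ ∀ z ∈ Metric.ball (X.χ X.m0) R3, ∀ t : ℝ, 0 < t →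
      t < t0 → g z = X.m0 + t → ‖X.rh (g z) z‖ < 1 := by
  have hgd : ∀ᶠ z in 𝓝 (X.χ X.m0), deriv g z = s * φ z ^ (s - 1) * deriv φ z := by
    filter_upwards [hgφ.eventually_nhds, hφ.eventually_analyticAt] with z hz hz'
    have h3 : HasDerivAt (fun y => X.m0 + φ y ^ s) (s * φ z ^ (s - 1) * deriv φ z) z :=
      (hz'.differentiableAt.hasDerivAt.pow s).const_add _
    have h4 : g =ᶠ[𝓝 z] fun y => X.m0 + φ y ^ s := hz
    rw [h4.deriv_eq, h3.deriv]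
  have hg'0 : deriv g (X.χ X.m0) = 0 := by
    rw [hgd.self_of_nhds, hφ0, zero_pow (by omega)]
    ring
  have hD : HasDerivAt (fun z => z - X.χ (g z)) 1 (X.χ X.m0) := by
    have h1 : HasDerivAt X.χ (deriv X.χ (g (X.χ X.m0))) (g (X.χ X.m0)) := by
      rw [hg0]
      exact (h.dχ.differentiableAt
        (Metric.isOpen_ball.mem_nhds (h.sub2 h.mem0))).hasDerivAt
    have h2 : HasDerivAt g 0 (X.χ X.m0) := by
      rw [← hg'0]
      exact hga.differentiableAt.hasDerivAt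
    have h3 := (hasDerivAt_id (X.χ X.m0)).sub (h1.comp (X.χ X.m0) h2)
    rw [mul_zero, sub_zero] at h3
    exact h3
  have T1 : Tendsto (fun z => (z - X.χ (g z)) / (z - X.χ X.m0)) (𝓝[≠] (X.χ X.m0)) (𝓝 1) := by
    refine (hasDerivAt_iff_tendsto_slope.1 hD).congr (fun z => ?_)
    rw [slope_def_field, hg0, sub_self, sub_zero]
  have T2 : Tendsto (fun z => φ z / (z - X.χ X.m0)) (𝓝[≠] (X.χ X.m0))
      (𝓝 (deriv φ (X.χ X.m0))) := by
    refine (hasDerivAt_iff_tendsto_slope.1 hφ.differentiableAt.hasDerivAt).congr (fun z => ?_)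
    rw [slope_def_field, hφ0, sub_zero]
  have T3 : Tendsto (deriv φ) (𝓝[≠] (X.χ X.m0)) (𝓝 (deriv φ (X.χ X.m0))) :=
    hφ.deriv.continuousAt.tendsto.mono_left nhdsWithin_le_nhds
  have T4 : Tendsto E (𝓝[≠] (X.χ X.m0)) (𝓝 (X.q : ℂ)) := by
    rw [← hE]
    exact hEc.tendsto.mono_left nhdsWithin_le_nhds
  have TQ : Tendsto (fun z => (z - X.χ (g z)) / (z - X.χ X.m0) *
      (deriv φ z * (φ z / (z - X.χ X.m0))⁻¹) * (s * E z)) (𝓝[≠] (X.χ X.m0))
      (𝓝 ((s : ℂ) * X.q)) := by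
    have h1 := (T1.mul (T3.mul (T2.inv₀ hφd))).mul (T4.const_mul (s : ℂ))
    rwa [mul_inv_cancel₀ hφd, one_mul, one_mul] at h1
  have hq1 : (1 : ℝ) ≤ X.q := by
    have := h.hq
    exact_mod_cast (by omega : 1 ≤ X.q)
  have hs1 : (1 : ℝ) ≤ s := by exact_mod_cast (by omega : 1 ≤ s)
  have hsq : (1 : ℝ) ≤ s * X.q := by nlinarith
  have hev1 := TQ.eventually (Metric.ball_mem_nhds _ (by norm_num : (0 : ℝ) < 1 / 2))
  have hev2 := T2.eventually_ne hφd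
  have hev : ∀ᶠ z in 𝓝 (X.χ X.m0), (z ≠ X.χ X.m0 →
      (‖(z - X.χ (g z)) / (z - X.χ X.m0) * (deriv φ z * (φ z / (z - X.χ X.m0))⁻¹) * (s * E z) -
        (s : ℂ) * X.q‖ < 1 / 2 ∧ φ z / (z - X.χ X.m0) ≠ 0)) ∧
      deriv g z = s * φ z ^ (s - 1) * deriv φ z ∧ g z = X.m0 + φ z ^ s ∧
      X.rh (g z) z - 1 = -((z - X.χ (g z)) * deriv g z * E z) := by
    have h1 := eventually_nhdsWithin_iff.1 (hev1.and hev2)
    filter_upwards [h1, hgd, hgφ, hrh] with z a1 a2 a3 a4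
    refine ⟨fun hz => ?_, a2, a3, a4⟩
    obtain ⟨b1, b2⟩ := a1 hz
    rw [dist_eq_norm] at b1
    exact ⟨b1, b2⟩
  obtain ⟨R3, hR3, hR3'⟩ := Metric.eventually_nhds_iff_ball.mp hev
  refine ⟨R3, 1 / (s * X.q), hR3, by positivity, fun z hz t ht0 ht1 hgt => ?_⟩
  obtain ⟨a1, a2, a3, a4⟩ := hR3' z hz
  have hz0 : z ≠ X.χ X.m0 := by
    rintro rfl
    rw [hg0] at hgt
    have h2 : (t : ℂ) = 0 := by
      have h3 := congrArg (fun x => x - X.m0) hgt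
      simpa using h3.symm
    exact ht0.ne' (by exact_mod_cast h2)
  obtain ⟨b1, b2⟩ := a1 hz0
  have hzz : z - X.χ X.m0 ≠ 0 := sub_ne_zero.2 hz0
  have hφz : φ z ≠ 0 := fun h0 => b2 (by rw [h0, zero_div])
  have ht : φ z ^ s = t := by
    rw [hgt] at a3
    exact (add_left_cancel a3).symm
  have key : X.rh (g z) z = (1 - t * (s * X.q : ℝ)) - t * ((z - X.χ (g z)) / (z - X.χ X.m0) *
      (deriv φ z * (φ z / (z - X.χ X.m0))⁻¹) * (s * E z) - (s : ℂ) * X.q) := by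
    have h1 : X.rh (g z) z = 1 - (z - X.χ (g z)) * deriv g z * E z := by
      linear_combination a4
    rw [h1, a2, ← ht]
    obtain ⟨s', rfl⟩ : ∃ s', s = s' + 1 := ⟨s - 1, by omega⟩
    rw [Nat.add_sub_cancel, pow_succ]
    push_cast
    field_simp
    ring
  have htsq : t * (s * X.q) < 1 := by
    rw [lt_div_iff₀ (by positivity)] at ht1
    exact ht1
  rw [key]
  calc ‖((1 : ℂ) - t * (s * X.q : ℝ)) - t * ((z - X.χ (g z)) / (z - X.χ X.m0) *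
      (deriv φ z * (φ z / (z - X.χ X.m0))⁻¹) * (s * E z) - (s : ℂ) * X.q)‖
      ≤ ‖((1 : ℂ) - t * (s * X.q : ℝ))‖ + ‖(t : ℂ) * ((z - X.χ (g z)) / (z - X.χ X.m0) *
      (deriv φ z * (φ z / (z - X.χ X.m0))⁻¹) * (s * E z) - (s : ℂ) * X.q)‖ := norm_sub_le _ _
    _ = (1 - t * (s * X.q)) + t * ‖((z - X.χ (g z)) / (z - X.χ X.m0) *
      (deriv φ z * (φ z / (z - X.χ X.m0))⁻¹) * (s * E z) - (s : ℂ) * X.q)‖ := by
        rw [norm_mul, Complex.norm_real, Real.norm_of_nonneg ht0.le]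
        congr 1
        rw [show ((1 : ℂ) - t * (s * X.q : ℝ)) = ((1 - t * (s * X.q) : ℝ) : ℂ) by push_cast; ring,
          Complex.norm_real, Real.norm_of_nonneg (by linarith)]
    _ < 1 := by
        have h2 : t * ‖((z - X.χ (g z)) / (z - X.χ X.m0) *
          (deriv φ z * (φ z / (z - X.χ X.m0))⁻¹) * (s * E z) - (s : ℂ) * X.q)‖ ≤ t * (1 / 2) :=
          mul_le_mul_of_nonneg_left b1.le ht0.le
        have h3 : t * 1 ≤ t * (s * X.q) := mul_le_mul_of_nonneg_left hsq ht0.le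
        linarith

lemma small_ev {z0 : ℂ} {P : ℂ → Prop} (h : ∀ᶠ z in 𝓝 z0, P z) :
    ∀ᶠ e in 𝓝[>] (0 : ℝ), ∀ z ∈ Metric.ball z0 e, P z := by
  obtain ⟨R, hR, hR'⟩ := Metric.eventually_nhds_iff_ball.mp h
  filter_upwards [Ioo_mem_nhdsGT hR] with e he z hz
  exact hR' z (Metric.ball_subset_ball he.2.le hz)

end LBB_

theorem p_LBB : T_LBB := by
  intro X h r g E hr hg hE hg0 hE0 hpr huq
  obtain ⟨δ0, hδ0, huq⟩ := huq
  have hball : Metric.ball (X.χ X.m0) r ∈ 𝓝 (X.χ X.m0) := Metric.ball_mem_nhds (X.χ X.m0) hr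
  have hga : AnalyticAt ℂ g (X.χ X.m0) := hg.analyticAt hball
  have hEc : ContinuousAt E (X.χ X.m0) := (hE.differentiableAt hball).continuousAt
  have hgc := hga.continuousAt
  -- the function is not constant
  have hnc : ¬ ∀ᶠ z in 𝓝 (X.χ X.m0), g z - X.m0 = 0 := by
    intro h1
    have h2 : ∀ᶠ z in 𝓝 (X.χ X.m0), (F 2 (X.ψ X.m0))^[X.K] z = z := by
      filter_upwards [h1, hball] with z hz hz'
      have h3 := (hpr z hz').2.1
      rw [sub_eq_zero.1 hz] at h3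
      exact h3
    have hfin : {z : ℂ | (F 2 (X.ψ X.m0))^[X.K] z = z}.Finite := by
      refine (((Pool.Agent.PLim.FPol 2 (X.ψ X.m0) X.K -
        Polynomial.X).roots.toFinset).finite_toSet).subset ?_
      intro z hz
      rw [Finset.mem_coe, Multiset.mem_toFinset, Pool.Agent.PLim.CNT_mem le_rfl h.hK1]
      exact hz
    exact (infinite_of_mem_nhds _ h2) hfin
  obtain ⟨s, φ, hs, hφ, hφ0, hφd, hev⟩ := LBB_.root_form
    (hga.sub (analyticAt_const (v := X.m0))) (by simp [hg0]) hnc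
  have hgφ : ∀ᶠ z in 𝓝 (X.χ X.m0), g z = X.m0 + φ z ^ s := by
    filter_upwards [hev] with z hz
    rw [← hz]
    simp
  obtain ⟨⟨σ, hσ, hσ0, hσi⟩, Ri, hRi, hinj⟩ := LBB_.loc_inv hφ hφ0 hφd
  have hne : ∀ z ∈ Metric.ball (X.χ X.m0) r, z ≠ X.χ X.m0 → z ≠ X.χ (g z) :=
    fun z hz hz' => LBB_.chi_ne h (hpr z hz).1 (hpr z hz).2.2 hz'
  have hex := LBB_.exa_ev h hgc hg0 (by filter_upwards [hball] with z hz using hne z hz)
    (by filter_upwards [hball] with z hz using (hpr z hz).1)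
  have hgδ : ∀ᶠ z in 𝓝 (X.χ X.m0), ‖g z - X.m0‖ < δ0 := by
    have h1 := hgc.eventually (Metric.ball_mem_nhds _ hδ0)
    rw [hg0] at h1
    filter_upwards [h1] with z hz
    exact mem_ball_iff_norm.1 hz
  -- the first radius
  obtain ⟨R1', hR1', hR1⟩ := Metric.eventually_nhds_iff_ball.mp
    (hex.and (hgδ.and (hgφ.and hφ.eventually_analyticAt)))
  obtain ⟨R1, hR10, hR11, hR1r, hR1i, hR1δ⟩ : ∃ R1 : ℝ, 0 < R1 ∧ R1 ≤ R1' ∧ R1 ≤ r ∧ R1 ≤ Ri ∧
      R1 ≤ δ0 := by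
    refine ⟨min (min R1' r) (min Ri δ0), lt_min (lt_min hR1' hr) (lt_min hRi hδ0), ?_, ?_, ?_,
      ?_⟩
    · exact (min_le_left _ _).trans (min_le_left _ _)
    · exact (min_le_left _ _).trans (min_le_right _ _)
    · exact (min_le_right _ _).trans (min_le_left _ _)
    · exact (min_le_right _ _).trans (min_le_right _ _)
  have hB : ∀ z ∈ Metric.ball (X.χ X.m0) R1, (z ≠ X.χ X.m0 → Exa 2 X.K (X.ψ (g z)) z) ∧
      ‖g z - X.m0‖ < δ0 ∧ g z = X.m0 + φ z ^ s ∧ AnalyticAt ℂ φ z :=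
    fun z hz => hR1 z (Metric.ball_subset_ball hR11 hz)
  have hBr : ∀ z ∈ Metric.ball (X.χ X.m0) R1, z ∈ Metric.ball (X.χ X.m0) r :=
    fun z hz => Metric.ball_subset_ball hR1r hz
  -- the second radius
  have e1 : ∀ j ∈ Finset.range X.q, ∀ᶠ e in 𝓝[>] (0 : ℝ), ∀ z ∈ Metric.ball (X.χ X.m0) e,
      (F 2 (X.ψ (g z)))^[X.k * j] z ∈ Metric.ball (X.χ X.m0) R1 := by
    intro j _
    apply LBB_.small_ev
    have h1 := (LBB_.orb_cont h hgc hg0 (X.k * j)).tendsto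
    have h2 : (F 2 (X.ψ (g (X.χ X.m0))))^[X.k * j] (X.χ X.m0) = X.χ X.m0 := by
      rw [LBB_.orb_val hg0, LBB_.fix0 h j]
    simp only [h2] at h1
    exact h1.eventually (Metric.ball_mem_nhds _ hR10)
  have e2 : ∀ j ∈ Finset.range X.K, ∀ᶠ e in 𝓝[>] (0 : ℝ), ¬ X.k ∣ j →
      ∀ z ∈ Metric.ball (X.χ X.m0) e,
        (F 2 (X.ψ (g z)))^[j] z ∉ Metric.ball (X.χ X.m0) e := by
    intro j _
    by_cases hkj : X.k ∣ j
    · exact Eventually.of_forall fun e h1 => absurd hkj h1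
    · have hd : 0 < ‖(F 2 (X.ψ X.m0))^[j] (X.χ X.m0) - X.χ X.m0‖ :=
        norm_pos_iff.2 (sub_ne_zero.2 (LBB_.nfix0 h hkj))
      have h1 := LBB_.orb_cont h hgc hg0 j
      have h2 : ∀ᶠ z in 𝓝 (X.χ X.m0), ‖(F 2 (X.ψ X.m0))^[j] (X.χ X.m0) - X.χ X.m0‖ / 2 <
          ‖(F 2 (X.ψ (g z)))^[j] z - X.χ X.m0‖ := by
        have h3 : ContinuousAt (fun z => ‖(F 2 (X.ψ (g z)))^[j] z - X.χ X.m0‖) (X.χ X.m0) :=
          (h1.sub continuousAt_const).norm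
        refine h3.eventually (lt_mem_nhds ?_)
        show ‖(F 2 (X.ψ X.m0))^[j] (X.χ X.m0) - X.χ X.m0‖ / 2 <
          ‖(F 2 (X.ψ (g (X.χ X.m0))))^[j] (X.χ X.m0) - X.χ X.m0‖
        rw [LBB_.orb_val hg0]
        linarith
      filter_upwards [LBB_.small_ev h2, Ioo_mem_nhdsGT (half_pos hd)] with e he1 he2 _ z hz hz'
      have h4 := he1 z hz
      rw [mem_ball_iff_norm] at hz'
      linarith [he2.2]
  have e3 : ∀ᶠ e in 𝓝[>] (0 : ℝ), e ∈ Ioo 0 R1 := Ioo_mem_nhdsGT hR10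
  obtain ⟨R2, h1, h2, h3⟩ := (((Finset.eventually_all (Finset.range X.q)).2 e1).and
    (((Finset.eventually_all (Finset.range X.K)).2 e2).and e3)).exists
  have D : LBB_.Dat X g φ s δ0 R1 R2 :=
    { hR2 := h3.1
      R21 := h3.2.le
      R1δ := hR1δ
      hs := hs
      φ0 := hφ0
      inj := hinj.mono (Metric.ball_subset_ball hR1i)
      uq := fun μ z a1 a2 a3 => (huq μ z a1 a2 a3).imp id And.right
      gδ := fun z hz => (hB z hz).2.1
      gρ := fun z hz => (hpr z (hBr z hz)).1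
      fx := fun z hz => (hpr z (hBr z hz)).2.1
      gφ := fun z hz => (hB z hz).2.2.1
      ne := fun z hz => hne z (hBr z hz)
      exa := fun z hz => (hB z hz).1
      orb := fun z hz j hj => h1 j (Finset.mem_range.2 hj) z hz
      far := fun z hz j hj hkj => h2 j (Finset.mem_range.2 hj) hkj z hz }
  have hqs := D.q_le h
  have hs2 : 2 ≤ s := le_trans h.hq hqs
  have hatt := LBB_.att h hs2 hga hg0 hφ hφ0 hφd hgφ hEc hE0
    (by filter_upwards [hball] with z hz using (hpr z hz).2.2)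
  have hsq : s = X.q := le_antisymm (D.le_q h hσ hσ0 hσi hatt) hqs
  refine ⟨R2, φ, D.hR2, D.R21.trans hR1r, ?_, D.inj.mono D.sub21, hφ0, ?_, ?_⟩
  · exact fun z hz => (hB z (D.sub21 hz)).2.2.2.differentiableAt.differentiableWithinAt
  · intro z hz
    refine ⟨?_, D.exa z (D.sub21 hz)⟩
    rw [← hsq]
    exact D.gφ z (D.sub21 hz)
  · intro z hz z' hz' hne1 _ hgg
    exact D.one h hsq hz hz' hne1 hgg

end Pool.Agent.PSat
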