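import Pool.Agent.PSat.Targets
import Pool.Agent.PLim.PHIp
import Pool.Agent.PLim.TRANS

/-!
# PSAT-LBC: the bifurcating cycle and its multiplier
-/

set_option autoImplicit false

open Complex Filter Topology Set
open Pool.Agent.Limb (F)
open Pool.Agent.PLim (Rho)
open Pool.Agent.MEX (Exa)
open Pool.Agent.MEY (Pt)

namespace Pool.Agent.PSat

namespace LBC_

lemma fix_iter' {K : ℕ} {c z : ℂ} (h : (F 2 c)^[K] z = z) (j : ℕ) :
    (F 2 c)^[K] ((F 2 c)^[j] z) = (F 2 c)^[j] z := by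
  rw [← Function.iterate_add_apply, Nat.add_comm, Function.iterate_add_apply, h]

lemma rho_step' {K : ℕ} {c z : ℂ} (h : (F 2 c)^[K] z = z) :
    Rho 2 K c (F 2 c z) = Rho 2 K c z := by
  rw [Pool.Agent.PLim.TRANS_.Rho_eq, Pool.Agent.PLim.TRANS_.Rho_eq]
  rcases K with _ | K
  · rfl
  · rw [Finset.prod_range_succ, Finset.prod_range_succ']
    have h1 : (F 2 c)^[K] (F 2 c z) = z := by
      rw [← Function.iterate_succ_apply]
      exact h
    rw [h1]
    rfl

lemma rho_iter' {K : ℕ} {c z : ℂ} (h : (F 2 c)^[K] z = z) (j : ℕ) :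
    Rho 2 K c ((F 2 c)^[j] z) = Rho 2 K c z := by
  induction j with
  | zero => rfl
  | succ j ih =>
    rw [Function.iterate_succ_apply', rho_step' (fix_iter' h j), ih]

lemma iter_diff {c f : ℂ → ℂ} {U : Set ℂ} (hc : DifferentiableOn ℂ c U)
    (hf : DifferentiableOn ℂ f U) (j : ℕ) :
    DifferentiableOn ℂ (fun z => (F 2 (c z))^[j] (f z)) U := by
  induction j with
  | zero => simpa using hf
  | succ j ih =>
    have h1 : (fun z => (F 2 (c z))^[j + 1] (f z)) =
        fun z => ((F 2 (c z))^[j] (f z)) ^ 2 + c z := by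
      funext z
      rw [Function.iterate_succ_apply']
      rfl
    rw [h1]
    exact (ih.pow 2).add hc

lemma rho_diff {c f : ℂ → ℂ} {U : Set ℂ} (hc : DifferentiableOn ℂ c U)
    (hf : DifferentiableOn ℂ f U) (K : ℕ) :
    DifferentiableOn ℂ (fun z => Rho 2 K (c z) (f z)) U := by
  induction K with
  | zero =>
    have h1 : (fun z => Rho 2 0 (c z) (f z)) = fun _ => (1 : ℂ) := by
      funext z
      rw [Pool.Agent.PLim.TRANS_.Rho_eq]
      simp
    rw [h1]
    exact differentiableOn_const _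
  | succ K ih =>
    have h1 : (fun z => Rho 2 (K + 1) (c z) (f z)) =
        fun z => Rho 2 K (c z) (f z) * (2 * (F 2 (c z))^[K] (f z)) := by
      funext z
      rw [Pool.Agent.PLim.TRANS_.Rho_eq, Pool.Agent.PLim.TRANS_.Rho_eq,
        Finset.prod_range_succ]
      simp [Pool.Agent.PLim.fp]
    rw [h1]
    exact ih.mul ((iter_diff hc hf K).const_mul 2)

section core

variable {z0 m0 : ℂ} {r1 : ℝ} {q : ℕ} {φ g lam : ℂ → ℂ}

lemma phi_ne (hφ0 : φ z0 = 0) (hi : InjOn φ (Metric.ball z0 r1)) {z : ℂ}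
    (hz : z ∈ Metric.ball z0 r1) (hne : z ≠ z0) : φ z ≠ 0 := by
  intro h
  have h1 : 0 < r1 := lt_of_le_of_lt dist_nonneg (Metric.mem_ball.1 hz)
  exact hne (hi hz (Metric.mem_ball_self h1) (h.trans hφ0.symm))

/-- points with small values are near the centre -/
lemma prop_lem (hd : DifferentiableOn ℂ φ (Metric.ball z0 r1))
    (hi : InjOn φ (Metric.ball z0 r1)) (hφ0 : φ z0 = 0)
    (hg : ∀ z ∈ Metric.ball z0 r1, g z = m0 + φ z ^ q) {r : ℝ} (hr : r < r1) {e : ℝ}
    (he : 0 < e) :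
    ∃ δ : ℝ, 0 < δ ∧ ∀ z ∈ Metric.ball z0 r, ‖g z - m0‖ < δ → ‖z - z0‖ < e := by
  set A : Set ℂ := Metric.closedBall z0 r \ Metric.ball z0 e with hA
  rcases Set.eq_empty_or_nonempty A with h0 | hne
  · refine ⟨1, one_pos, fun z hz _ => ?_⟩
    by_contra hcon
    have hzA : z ∈ A := ⟨Metric.ball_subset_closedBall hz, fun h => hcon (mem_ball_iff_norm.1 h)⟩
    rw [h0] at hzA
    exact hzA
  · have hc : IsCompact A := (isCompact_closedBall z0 r).diff Metric.isOpen_ball
    have hsub : A ⊆ Metric.ball z0 r1 := fun z hz =>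
      Metric.closedBall_subset_ball hr hz.1
    have hcont : ContinuousOn (fun z => ‖φ z‖) A := (hd.continuousOn.mono hsub).norm
    obtain ⟨a, ha, hmin⟩ := hc.exists_isMinOn hne hcont
    have ha0 : a ≠ z0 := by
      intro h
      apply ha.2
      rw [h]
      exact Metric.mem_ball_self he
    have hφa : 0 < ‖φ a‖ := norm_pos_iff.2 (phi_ne hφ0 hi (hsub ha) ha0)
    refine ⟨‖φ a‖ ^ q, pow_pos hφa q, fun z hz hlt => ?_⟩
    by_contra hcon
    have hzA : z ∈ A := ⟨Metric.ball_subset_closedBall hz, fun h => hcon (mem_ball_iff_norm.1 h)⟩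
    have h1 : ‖φ a‖ ≤ ‖φ z‖ := hmin hzA
    have h2 : ‖g z - m0‖ = ‖φ z‖ ^ q := by
      rw [hg z (hsub hzA), add_sub_cancel_left, norm_pow]
    rw [h2] at hlt
    exact absurd (pow_le_pow_left₀ hφa.le h1 q) (not_le.2 hlt)

/-- all values near the centre are taken -/
lemma surj_lem (hd : DifferentiableOn ℂ φ (Metric.ball z0 r1))
    (hi : InjOn φ (Metric.ball z0 r1)) (hφ0 : φ z0 = 0) (hq : q ≠ 0)
    (hg : ∀ z ∈ Metric.ball z0 r1, g z = m0 + φ z ^ q) {r : ℝ} (hr0 : 0 < r) (hr : r ≤ r1) :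
    ∃ δ : ℝ, 0 < δ ∧ ∀ μ : ℂ, ‖μ - m0‖ < δ → ∃ z ∈ Metric.ball z0 r, g z = μ := by
  have hr1 : 0 < r1 := lt_of_lt_of_le hr0 hr
  have hmem : Metric.ball z0 r1 ∈ 𝓝 z0 := Metric.ball_mem_nhds _ hr1
  have han : AnalyticAt ℂ φ z0 := hd.analyticAt hmem
  have hne : deriv φ z0 ≠ 0 := Pool.Agent.PLim.PHIp_.deriv_ne_zero_of_injOn han hmem hi
  have hmap := han.hasStrictDerivAt.map_nhds_eq hne
  have h1 : φ '' Metric.ball z0 r ∈ 𝓝 (φ z0) := by
    rw [← hmap]
    exact image_mem_map (Metric.ball_mem_nhds _ hr0)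
  rw [hφ0] at h1
  obtain ⟨s, hs, hsub⟩ := Metric.mem_nhds_iff.1 h1
  refine ⟨s ^ q, pow_pos hs q, fun μ hμ => ?_⟩
  obtain ⟨w, hw⟩ := IsAlgClosed.exists_pow_nat_eq (μ - m0) (Nat.pos_of_ne_zero hq)
  have hw2 : ‖w‖ < s := by
    rw [← hw, norm_pow] at hμ
    exact lt_of_pow_lt_pow_left₀ q hs.le hμ
  obtain ⟨z, hz, hzw⟩ := hsub (mem_ball_zero_iff.2 hw2)
  refine ⟨z, hz, ?_⟩
  rw [hg z (Metric.ball_subset_ball hr hz), hzw, hw]
  ring

lemma g_deriv (hd : DifferentiableOn ℂ φ (Metric.ball z0 r1))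
    (hg : ∀ z ∈ Metric.ball z0 r1, g z = m0 + φ z ^ q) {z : ℂ}
    (hz : z ∈ Metric.ball z0 r1) :
    HasDerivAt g (q * φ z ^ (q - 1) * deriv φ z) z := by
  have hmem : Metric.ball z0 r1 ∈ 𝓝 z := Metric.isOpen_ball.mem_nhds hz
  have h1 : HasDerivAt φ (deriv φ z) z := (hd.differentiableAt hmem).hasDerivAt
  have h2 : HasDerivAt (fun x => m0 + φ x ^ q) (q * φ z ^ (q - 1) * deriv φ z) z := by
    simpa using (h1.pow q).const_add m0
  refine h2.congr_of_eventuallyEq ?_
  filter_upwards [hmem] with x hx using hg x hx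

lemma g_analytic (hd : DifferentiableOn ℂ φ (Metric.ball z0 r1))
    (hg : ∀ z ∈ Metric.ball z0 r1, g z = m0 + φ z ^ q) {z : ℂ}
    (hz : z ∈ Metric.ball z0 r1) : AnalyticAt ℂ g z := by
  have hmem : Metric.ball z0 r1 ∈ 𝓝 z := Metric.isOpen_ball.mem_nhds hz
  have h1 : DifferentiableOn ℂ g (Metric.ball z0 r1) := fun x hx =>
    (g_deriv hd hg hx).differentiableAt.differentiableWithinAt
  exact h1.analyticAt hmem

/-- the core statement -/
lemma core_lem (hr1 : 0 < r1) (hd : DifferentiableOn ℂ φ (Metric.ball z0 r1))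
    (hi : InjOn φ (Metric.ball z0 r1)) (hφ0 : φ z0 = 0) (hq : 2 ≤ q)
    (hg : ∀ z ∈ Metric.ball z0 r1, g z = m0 + φ z ^ q)
    (hlam : DifferentiableOn ℂ lam (Metric.ball z0 r1)) (hlam0 : lam z0 = 1)
    (hfib : ∀ z ∈ Metric.ball z0 r1, ∀ z' ∈ Metric.ball z0 r1, g z = g z' → lam z = lam z')
    {u E : ℂ → ℂ} (hu0 : u z0 = 0) (hu1 : HasDerivAt u 1 z0) (hE : ContinuousAt E z0)
    (hE0 : E z0 = q)
    (hrel : ∀ z ∈ Metric.ball z0 r1, lam z - 1 = -(u z * deriv g z * E z)) {e : ℝ}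
    (he : 0 < e) :
    ∃ (R r : ℝ) (L : ℂ → ℂ), 0 < R ∧ R ≤ e ∧ 0 < r ∧ r ≤ e ∧ r < r1 ∧
      (∀ z ∈ Metric.ball z0 r, g z ∈ Metric.ball m0 R) ∧
      DifferentiableOn ℂ L (Metric.ball m0 R) ∧ L m0 = 1 ∧ deriv L m0 = -(q : ℂ) ^ 2 ∧
      ∀ z ∈ Metric.ball z0 r, L (g z) = lam z := by
  classical
  have hq0 : q ≠ 0 := by omega
  have hz0 : z0 ∈ Metric.ball z0 r1 := Metric.mem_ball_self hr1
  have hgz0 : g z0 = m0 := by
    rw [hg z0 hz0, hφ0, zero_pow hq0, add_zero]
  set r2 : ℝ := r1 / 2 with hr2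
  have hr2p : 0 < r2 := by positivity
  have hr2l : r2 < r1 := by linarith
  have hsub2 : Metric.ball z0 r2 ⊆ Metric.ball z0 r1 := Metric.ball_subset_ball hr2l.le
  obtain ⟨δ, hδ, hsurj⟩ := surj_lem (m0 := m0) (g := g) hd hi hφ0 hq0 hg hr2p hr2l.le
  set R : ℝ := min δ e with hR
  have hRp : 0 < R := lt_min hδ he
  have hgc : ContinuousAt g z0 := (g_analytic hd hg hz0).continuousAt
  have hev : ∀ᶠ z in 𝓝 z0, g z ∈ Metric.ball m0 R := by
    have := hgc.tendsto
    rw [hgz0] at this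
    exact this.eventually (Metric.ball_mem_nhds _ hRp)
  obtain ⟨r3, hr3, hr3'⟩ := Metric.eventually_nhds_iff_ball.mp hev
  set r : ℝ := min r3 (min e r2) with hr
  have hrp : 0 < r := lt_min hr3 (lt_min he hr2p)
  have hrr2 : r ≤ r2 := (min_le_right _ _).trans (min_le_right _ _)
  set L : ℂ → ℂ := fun μ => if h : ∃ z ∈ Metric.ball z0 r2, g z = μ then lam h.choose else 1
    with hL
  have hLg : ∀ z ∈ Metric.ball z0 r2, L (g z) = lam z := by
    intro z hz
    have h : ∃ z' ∈ Metric.ball z0 r2, g z' = g z := ⟨z, hz, rfl⟩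
    have h1 : L (g z) = lam h.choose := by
      simp only [hL]
      rw [dif_pos h]
    rw [h1]
    exact hfib _ (hsub2 h.choose_spec.1) _ (hsub2 hz) h.choose_spec.2
  have hL0 : L m0 = 1 := by
    have h1 := hLg z0 (Metric.mem_ball_self hr2p)
    rw [hgz0, hlam0] at h1
    exact h1
  -- differentiability away from the centre
  have hdiff : ∀ μ1 ∈ Metric.ball m0 R, μ1 ≠ m0 → DifferentiableAt ℂ L μ1 := by
    intro μ1 hμ1 hne
    have h1 : ‖μ1 - m0‖ < δ := lt_of_lt_of_le (mem_ball_iff_norm.1 hμ1) (min_le_left _ _)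
    obtain ⟨z1, hz1, hgz1⟩ := hsurj μ1 h1
    have hz1' := hsub2 hz1
    have hz1ne : z1 ≠ z0 := by
      intro h
      rw [h, hgz0] at hgz1
      exact hne hgz1.symm
    have hmem1 : Metric.ball z0 r1 ∈ 𝓝 z1 := Metric.isOpen_ball.mem_nhds hz1'
    have hs : HasStrictDerivAt g (deriv g z1) z1 := (g_analytic hd hg hz1').hasStrictDerivAt
    have hne1 : deriv g z1 ≠ 0 := by
      rw [(g_deriv hd hg hz1').deriv]
      refine mul_ne_zero (mul_ne_zero (Nat.cast_ne_zero.2 hq0)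
        (pow_ne_zero _ (phi_ne hφ0 hi hz1' hz1ne))) ?_
      exact Pool.Agent.PLim.PHIp_.deriv_ne_zero_of_injOn (hd.analyticAt hmem1) hmem1 hi
    set σ : ℂ → ℂ := hs.localInverse g (deriv g z1) z1 hne1 with hσ
    have hσd : HasDerivAt σ (deriv g z1)⁻¹ (g z1) := (hs.to_localInverse hne1).hasDerivAt
    have hσ0 : σ (g z1) = z1 := (hs.hasStrictFDerivAt_equiv hne1).localInverse_apply_image
    have hσr : ∀ᶠ c in 𝓝 (g z1), g (σ c) = c :=
      (hs.hasStrictFDerivAt_equiv hne1).eventually_right_inverse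
    have hσm : ∀ᶠ c in 𝓝 (g z1), σ c ∈ Metric.ball z0 r2 := by
      have h2 : Tendsto σ (𝓝 (g z1)) (𝓝 z1) := by
        have := hσd.continuousAt.tendsto
        rwa [hσ0] at this
      exact h2.eventually (Metric.isOpen_ball.mem_nhds hz1)
    have heq : L =ᶠ[𝓝 μ1] fun c => lam (σ c) := by
      rw [← hgz1]
      filter_upwards [hσr, hσm] with c hc1 hc2
      rw [← hLg (σ c) hc2, hc1]
    have h3 : DifferentiableAt ℂ (fun c => lam (σ c)) μ1 := by
      rw [← hgz1]
      refine DifferentiableAt.comp (g := lam) (f := σ) (g z1) ?_ hσd.differentiableAt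
      rw [hσ0]
      exact hlam.differentiableAt hmem1
    exact h3.congr_of_eventuallyEq heq
  -- continuity at the centre
  have hcont : ContinuousAt L m0 := by
    rw [Metric.continuousAt_iff]
    intro ε hε
    have hlc : ContinuousAt lam z0 :=
      (hlam.differentiableAt (Metric.isOpen_ball.mem_nhds hz0)).continuousAt
    rw [Metric.continuousAt_iff] at hlc
    obtain ⟨e1, he1, hlc⟩ := hlc ε hε
    obtain ⟨δ1, hδ1, hprop⟩ := prop_lem (m0 := m0) (g := g) hd hi hφ0 hg hr2l he1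
    refine ⟨min δ δ1, lt_min hδ hδ1, fun {μ} hμ => ?_⟩
    rw [dist_eq_norm] at hμ
    obtain ⟨z, hz, hzμ⟩ := hsurj μ (lt_of_lt_of_le hμ (min_le_left _ _))
    have h1 : ‖z - z0‖ < e1 := by
      apply hprop z hz
      rw [hzμ]
      exact lt_of_lt_of_le hμ (min_le_right _ _)
    have h2 := hlc (x := z) (by rw [dist_eq_norm]; exact h1)
    rw [← hzμ, hLg z hz, hL0, ← hlam0]
    exact h2
  have hana : AnalyticAt ℂ L m0 := by
    refine Complex.analyticAt_of_differentiable_on_punctured_nhds_of_continuousAt ?_ hcont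
    rw [eventually_nhdsWithin_iff]
    filter_upwards [Metric.ball_mem_nhds m0 hRp] with μ hμ hne using hdiff μ hμ hne
  refine ⟨R, r, L, hRp, min_le_right _ _, hrp, (min_le_right _ _).trans (min_le_left _ _),
    lt_of_le_of_lt hrr2 hr2l, ?_, ?_, hL0, ?_, ?_⟩
  · exact fun z hz => hr3' z (Metric.ball_subset_ball (min_le_left _ _) hz)
  · intro μ hμ
    by_cases h : μ = m0
    · rw [h]
      exact hana.differentiableAt.differentiableWithinAt
    · exact (hdiff μ hμ h).differentiableWithinAt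
  · -- the derivative
    have hmem0 : Metric.ball z0 r1 ∈ 𝓝 z0 := Metric.isOpen_ball.mem_nhds hz0
    have hφd : HasDerivAt φ (deriv φ z0) z0 := (hd.differentiableAt hmem0).hasDerivAt
    have hφ1 : deriv φ z0 ≠ 0 :=
      Pool.Agent.PLim.PHIp_.deriv_ne_zero_of_injOn (hd.analyticAt hmem0) hmem0 hi
    have hφc : ContinuousAt (deriv φ) z0 := (hd.analyticAt hmem0).deriv.continuousAt
    have hA : Tendsto (fun z => slope L m0 (g z)) (𝓝[≠] z0) (𝓝 (deriv L m0)) := by
      have h1 := hasDerivAt_iff_tendsto_slope.1 hana.differentiableAt.hasDerivAt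
      refine h1.comp ?_
      rw [tendsto_nhdsWithin_iff]
      constructor
      · have h2 := hgc.tendsto
        rw [hgz0] at h2
        exact h2.mono_left nhdsWithin_le_nhds
      · rw [eventually_nhdsWithin_iff]
        filter_upwards [hmem0] with z hz hne
        simp only [Set.mem_compl_iff, Set.mem_singleton_iff] at hne ⊢
        rw [hg z hz]
        intro h3
        have h4 : φ z ^ q = 0 := by linear_combination h3
        exact phi_ne hφ0 hi hz hne (pow_eq_zero_iff hq0 |>.1 h4)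
    have hB : Tendsto (fun z => -(slope u z0 z * q * deriv φ z * E z) / slope φ z0 z)
        (𝓝[≠] z0) (𝓝 (-(1 * q * deriv φ z0 * q) / deriv φ z0)) := by
      have h1 := hasDerivAt_iff_tendsto_slope.1 hu1
      have h2 := hasDerivAt_iff_tendsto_slope.1 hφd
      have h3 : Tendsto (deriv φ) (𝓝[≠] z0) (𝓝 (deriv φ z0)) :=
        hφc.tendsto.mono_left nhdsWithin_le_nhds
      have h4 : Tendsto E (𝓝[≠] z0) (𝓝 (q : ℂ)) := by
        have := hE.tendsto.mono_left (nhdsWithin_le_nhds (s := {z0}ᶜ))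
        rwa [hE0] at this
      exact ((((h1.mul_const (q : ℂ)).mul h3).mul h4).neg).div h2 hφ1
    have heq : (fun z => slope L m0 (g z)) =ᶠ[𝓝[≠] z0]
        fun z => -(slope u z0 z * q * deriv φ z * E z) / slope φ z0 z := by
      rw [Filter.EventuallyEq, eventually_nhdsWithin_iff]
      filter_upwards [hmem0, Metric.ball_mem_nhds z0 hr2p] with z hz hz2 hne
      simp only [Set.mem_compl_iff, Set.mem_singleton_iff] at hne
      have hφz : φ z ≠ 0 := phi_ne hφ0 hi hz hne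
      have h5 : z - z0 ≠ 0 := sub_ne_zero.2 hne
      have h6 : φ z ^ q = φ z ^ (q - 1) * φ z := (pow_sub_one_mul hq0 _).symm
      have h7 := hrel z hz
      rw [(g_deriv hd hg hz).deriv] at h7
      simp only [slope_def_field, hLg z hz2, hL0, hu0, hφ0, sub_zero, h7]
      rw [hg z hz, add_sub_cancel_left, h6]
      field_simp
    have hlim := tendsto_nhds_unique (hA.congr' heq) hB
    rw [hlim]
    field_simp
  · exact fun z hz => hLg z (Metric.ball_subset_ball hrr2 hz)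

end core

end LBC_

/-- LBC: the bifurcating cycle and its multiplier. -/
theorem p_LBC (hA : T_LBA) (hB : T_LBB) : T_LBC := by
  intro X hX e he
  have hq : 2 ≤ X.q := by
    have := hX.hp
    have := hX.hpq
    omega
  obtain ⟨r0, g, E, hr0, hdg, hdE, hg0, hE0, hgp, δu, hδu, huq⟩ := hA X hX
  obtain ⟨r1, φ, hr1, hr10, hdφ, hiφ, hφ0, hgφ, hone⟩ :=
    hB X hX r0 g E hr0 hdg hdE hg0 hE0 hgp ⟨δu, hδu, huq⟩
  have hsub : Metric.ball (X.χ X.m0) r1 ⊆ Metric.ball (X.χ X.m0) r0 :=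
    Metric.ball_subset_ball hr10
  have hz0 : X.χ X.m0 ∈ Metric.ball (X.χ X.m0) r1 := Metric.mem_ball_self hr1
  have hρ := hX.hρ
  have hbig : Metric.ball X.m0 X.ρ ⊆ Metric.ball X.m0 (2 * X.ρ) :=
    Metric.ball_subset_ball (by linarith)
  have hg : ∀ z ∈ Metric.ball (X.χ X.m0) r1, g z = X.m0 + φ z ^ X.q := fun z hz => (hgφ z hz).1
  have hlam : DifferentiableOn ℂ (fun z => X.rh (g z) z) (Metric.ball (X.χ X.m0) r1) := by
    have h1 : DifferentiableOn ℂ (fun z => X.ψ (g z)) (Metric.ball (X.χ X.m0) r1) :=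
      hX.dψ.comp (hdg.mono hsub) fun z hz => hbig (hgp z (hsub hz)).1
    exact LBC_.rho_diff h1 differentiableOn_id X.K
  have hlam0 : (fun z => X.rh (g z) z) (X.χ X.m0) = 1 := by
    have h1 := (hgp _ (hsub hz0)).2.2
    rw [hg0, sub_self, zero_mul, zero_mul, neg_zero] at h1
    simp only [hg0]
    linear_combination h1
  have hgne : ∀ z ∈ Metric.ball (X.χ X.m0) r1, z ≠ X.χ X.m0 → g z ≠ X.m0 := by
    intro z hz hne h
    rw [hg z hz] at h
    have h4 : φ z ^ X.q = 0 := by linear_combination h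
    exact LBC_.phi_ne hφ0 hiφ hz hne ((pow_eq_zero_iff (by omega)).1 h4)
  have hfib : ∀ z ∈ Metric.ball (X.χ X.m0) r1, ∀ z' ∈ Metric.ball (X.χ X.m0) r1, g z = g z' →
      (fun z => X.rh (g z) z) z = (fun z => X.rh (g z) z) z' := by
    intro z hz z' hz' h
    by_cases h1 : z = X.χ X.m0
    · by_cases h2 : z' = X.χ X.m0
      · rw [h1, h2]
      · exfalso
        rw [h1, hg0] at h
        exact hgne z' hz' h2 h.symm
    · by_cases h2 : z' = X.χ X.m0
      · exfalso
        rw [h2, hg0] at h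
        exact hgne z hz h1 h
      · obtain ⟨j, hj⟩ := hone z hz z' hz' h1 h2 h
        have h3 := LBC_.rho_iter' (hgp z (hsub hz)).2.1 j
        simp only [Ctx.rh]
        rw [← h, ← hj, h3]
  have hχd : HasDerivAt X.χ (deriv X.χ X.m0) X.m0 :=
    (hX.dχ.differentiableAt (Metric.ball_mem_nhds _ (by linarith))).hasDerivAt
  have hu1 : HasDerivAt (fun z => z - X.χ (g z)) 1 (X.χ X.m0) := by
    have h1 := LBC_.g_deriv hdφ hg hz0
    rw [hφ0, zero_pow (by omega : X.q - 1 ≠ 0), mul_zero, zero_mul] at h1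
    have h2 : HasDerivAt (fun z => X.χ (g z)) (deriv X.χ X.m0 * 0) (X.χ X.m0) := by
      refine HasDerivAt.comp (h₂ := X.χ) (h := g) (X.χ X.m0) ?_ h1
      rw [hg0]
      exact hχd
    have h3 := (hasDerivAt_id (X.χ X.m0)).sub h2
    rw [mul_zero, sub_zero] at h3
    exact h3
  have hEc : ContinuousAt E (X.χ X.m0) :=
    (hdE.differentiableAt (Metric.ball_mem_nhds _ hr0)).continuousAt
  obtain ⟨R, r, L, hR, hRe, hr, hre, hrr1, hgR, hdL, hL0, hL1, hLg⟩ :=
    LBC_.core_lem (lam := fun z => X.rh (g z) z) (u := fun z => z - X.χ (g z)) (E := E) hr1 hdφ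
      hiφ hφ0 hq hg hlam hlam0 hfib (by simp only [hg0, sub_self]) hu1 hEc hE0
      (fun z hz => (hgp z (hsub hz)).2.2) (lt_min he hρ)
  have hsubr : Metric.ball (X.χ X.m0) r ⊆ Metric.ball (X.χ X.m0) r1 :=
    Metric.ball_subset_ball hrr1.le
  refine ⟨R, r, g, L, hRe.trans (min_le_left _ _), hre.trans (min_le_left _ _), ?_⟩
  exact
    { hR := hR
      hR1 := hRe.trans (min_le_right _ _)
      hr := hr
      dg := hdg.mono (hsubr.trans hsub)
      g0 := hg0
      gR := hgR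
      gne := fun z hz hne => hgne z (hsubr hz) hne
      pt := fun z hz hne =>
        { fix := (hgp z (hsub (hsubr hz))).2.1
          exa := (hgφ z (hsubr hz)).2 hne
          mul := (hLg z hz).symm }
      dL := hdL
      L0 := hL0
      L1 := hL1
      surj := by
        obtain ⟨δ, hδ, hs⟩ := LBC_.surj_lem (m0 := X.m0) (g := g) hdφ hiφ hφ0
          (by omega : X.q ≠ 0) hg hr hrr1.le
        refine ⟨δ, hδ, fun μ hne hμ => ?_⟩
        obtain ⟨z, hz, hzμ⟩ := hs μ hμ
        refine ⟨z, hz, ?_, hzμ⟩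
        intro h
        rw [h, hg0] at hzμ
        exact hne hzμ.symm
      prop := fun e' he' => LBC_.prop_lem hdφ hiφ hφ0 hg hrr1 he'
      one := fun z hz z' hz' h1 h2 h3 => hone z (hsubr hz) z' (hsubr hz') h1 h2 h3
      uq := by
        refine ⟨min δu r, lt_min hδu hr, fun μ z hμ hz hfx => ?_⟩
        rcases huq μ z (lt_of_lt_of_le hμ (min_le_left _ _))
          (lt_of_lt_of_le hz (min_le_left _ _)) hfx with h | ⟨h1, h2⟩
        · exact Or.inl h
        · by_cases h3 : z = X.χ X.m0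
          · left
            have h4 : μ = X.m0 := by rw [← h2, h3, hg0]
            rw [h3, h4]
          · exact Or.inr ⟨mem_ball_iff_norm.2 (lt_of_lt_of_le hz (min_le_right _ _)), h3, h2⟩ }

end Pool.Agent.PSat
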