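import Pool.Agent.PSat.Basic
import Pool.Agent.PLim.FINF

/-!
# PSAT, LCF: local branches
-/

set_option autoImplicit false

open Complex Filter Topology Set
open Pool.Agent.Multibrot (MM)
open Pool.Agent.Limb (F)
open Pool.Agent.PLim (Rho IsBot IsLog Crit Dig Rot IsInt Label lab Ex Cod Per Lands InZ LabR
  ZVn ONTOn NCn OMXn SECTn LocFix)
open Pool.Agent.MEX (Exa)
open Pool.Agent.MEY (Pt Omg DD Glob)

namespace Pool.Agent.PSat

namespace LCF_

lemma exists_le {α : Type} (Z : Finset α) (d : α → ℝ) (h : ∀ s ∈ Z, 0 < d s) :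
    ∃ δ : ℝ, 0 < δ ∧ ∀ s ∈ Z, δ ≤ d s := by
  classical
  induction Z using Finset.induction_on with
  | empty => exact ⟨1, one_pos, fun s hs => absurd hs (Finset.notMem_empty s)⟩
  | insert a Z _ ih =>
    obtain ⟨δ, hδ, hd⟩ := ih fun s hs => h s (Finset.mem_insert_of_mem hs)
    refine ⟨min δ (d a), lt_min hδ (h a (Finset.mem_insert_self a Z)), fun s hs => ?_⟩
    rcases Finset.mem_insert.1 hs with rfl | hs
    · exact min_le_right _ _
    · exact (min_le_left _ _).trans (hd s hs)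

/-- a locally constant predicate on a preconnected set is constant -/
lemma const_of_loc {S : Set ℂ} (hS : IsPreconnected S) (P : ℂ → Prop)
    (h : ∀ x ∈ S, (∀ᶠ y in 𝓝[S] x, P y) ∨ (∀ᶠ y in 𝓝[S] x, ¬ P y)) :
    (∀ x ∈ S, P x) ∨ (∀ x ∈ S, ¬ P x) := by
  classical
  have hc : ContinuousOn (fun x => decide (P x)) S := by
    intro x hx
    rcases h x hx with h1 | h1
    · have h2 : P x := h1.self_of_nhdsWithin hx
      have h3 : (fun _ : ℂ => true) =ᶠ[𝓝[S] x] fun y => decide (P y) := by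
        filter_upwards [h1] with y hy
        exact (decide_eq_true hy).symm
      have h4 : Tendsto (fun _ : ℂ => true) (𝓝[S] x) (𝓝 (decide (P x))) := by
        rw [decide_eq_true h2]
        exact tendsto_const_nhds
      exact h4.congr' h3
    · have h2 : ¬ P x := h1.self_of_nhdsWithin hx
      have h3 : (fun _ : ℂ => false) =ᶠ[𝓝[S] x] fun y => decide (P y) := by
        filter_upwards [h1] with y hy
        exact (decide_eq_false hy).symm
      have h4 : Tendsto (fun _ : ℂ => false) (𝓝[S] x) (𝓝 (decide (P x))) := by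
        rw [decide_eq_false h2]
        exact tendsto_const_nhds
      exact h4.congr' h3
  by_cases hex : ∃ x0 ∈ S, P x0
  · obtain ⟨x0, hx0, hP⟩ := hex
    left
    intro x hx
    have h1 := hS.constant hc hx hx0
    simp only [decide_eq_decide] at h1
    exact h1.2 hP
  · right
    intro x hx hP
    exact hex ⟨x, hx, hP⟩

/-- the situation near one fixed point -/
lemma point (hSBL : T_SBL) (hMPV : T_MPV) (hNFN : T_NFN) {X : Full} (hX : Ok X) {μ1 : ℂ}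
    (hμ1 : μ1 ∈ X.B) {e : ℝ} (he : 0 < e) (s : ℂ) (hs : X.Fx μ1 s) :
    ∃ (δ : ℝ) (f : ℂ → ℂ) (b : Prop), 0 < δ ∧
      (b → X.rh μ1 s ≠ 1 ∧ Exa 2 X.K (X.ψ μ1) s ∧ f μ1 = s ∧
        DifferentiableOn ℂ f (Metric.ball μ1 δ) ∧
        ∀ μ ∈ Metric.ball μ1 δ, ‖f μ - s‖ < e ∧ X.Fx μ (f μ) ∧ Exa 2 X.K (X.ψ μ) (f μ) ∧
          X.rh μ (f μ) ≠ 1) ∧
      ∀ μ ∈ Metric.ball μ1 δ, μ ≠ μ1 → (b → Sb X μ (f μ)) ∧
        ∀ z : ℂ, ‖z - s‖ < δ → X.Fx μ z → Sb X μ z → b ∧ f μ = z := by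
  have hμ0 : μ1 ∈ Metric.ball X.m0 X.ρ := B_sub _ hμ1
  have hμ2 : μ1 ∈ Metric.ball X.m0 (2 * X.ρ) := hX.dt.sub2 hμ0
  by_cases h1 : X.rh μ1 s = 1
  · obtain ⟨δ, hδ, h2⟩ := hMPV X hX μ1 s hμ1 hs h1
    refine ⟨δ, fun _ => 0, False, hδ, fun h => h.elim, fun μ hμ hne => ⟨fun h => h.elim, ?_⟩⟩
    intro z hz hfx hsb
    exact absurd hsb (h2 μ z hne (mem_ball_iff_norm.1 hμ) hz hfx)
  · obtain ⟨δ1, r, f, hδ1, -, hr, hre, hsub, hfd, hf0, hfm, hfu, hrd⟩ :=
      hX.dt.locfix hμ0 hs h1 he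
    obtain ⟨δ2, hδ2, hNF⟩ := hNFN X.toCtx hX.dt μ1 hμ0
    obtain ⟨δ3, hδ3, hex⟩ := hX.dt.exa_loc hμ2 hs h1
    have hnb : Metric.ball μ1 δ1 ∈ 𝓝 μ1 := Metric.ball_mem_nhds _ hδ1
    have hfc : ContinuousAt f μ1 := (hfd.differentiableAt hnb).continuousAt
    have hrc : ContinuousAt (fun μ => X.rh μ (f μ)) μ1 := (hrd.differentiableAt hnb).continuousAt
    have ev : ∀ᶠ μ in 𝓝 μ1, ‖f μ - s‖ < δ3 ∧ X.rh μ (f μ) ≠ 1 ∧ μ ∈ X.B := by
      have e1 : ∀ᶠ μ in 𝓝 μ1, f μ ∈ Metric.ball (f μ1) δ3 :=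
        hfc.eventually (Metric.ball_mem_nhds _ hδ3)
      have e2 : ∀ᶠ μ in 𝓝 μ1, X.rh μ (f μ) ≠ 1 := by
        refine hrc.eventually_ne ?_
        show X.rh μ1 (f μ1) ≠ 1
        rw [hf0]
        exact h1
      filter_upwards [e1, e2, hX.dt.B_isOpen.mem_nhds hμ1] with μ h2 h3 h4
      refine ⟨?_, h3, h4⟩
      rw [hf0] at h2
      exact mem_ball_iff_norm.1 h2
    obtain ⟨δ4, hδ4, hev⟩ := Metric.eventually_nhds_iff_ball.mp ev
    set δ : ℝ := min (min δ1 δ2) (min (min δ3 δ4) r) with hδdef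
    have hδ : 0 < δ := lt_min (lt_min hδ1 hδ2) (lt_min (lt_min hδ3 hδ4) hr)
    have hd1 : δ ≤ δ1 := (min_le_left _ _).trans (min_le_left _ _)
    have hd2 : δ ≤ δ2 := (min_le_left _ _).trans (min_le_right _ _)
    have hd3 : δ ≤ δ3 := (min_le_right _ _).trans ((min_le_left _ _).trans (min_le_left _ _))
    have hd4 : δ ≤ δ4 := (min_le_right _ _).trans ((min_le_left _ _).trans (min_le_right _ _))
    have hdr : δ ≤ r := (min_le_right _ _).trans (min_le_right _ _)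
    have hin : ∀ μ ∈ Metric.ball μ1 δ, X.Fx μ (f μ) := fun μ hμ =>
      (hfm μ (Metric.ball_subset_ball hd1 hμ)).2
    have hcl := const_of_loc (punct_conn μ1 δ) (fun μ => Sb X μ (f μ)) (by
      intro x hx
      have hxb : x ∈ Metric.ball μ1 δ := hx.1
      have hxne : x ≠ μ1 := hx.2
      have hxB : x ∈ X.B := (hev x (Metric.ball_subset_ball hd4 hxb)).2.2
      have hxnf : X.NF x := hNF x hxne (by
        have := mem_ball_iff_norm.1 hxb
        linarith)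
      obtain ⟨δ', hδ', hl⟩ := hSBL X hX x (f x) hxB hxnf (hin x hxb)
      have hfx : ContinuousAt f x := (hfd.differentiableAt
        (Metric.isOpen_ball.mem_nhds (Metric.ball_subset_ball hd1 hxb))).continuousAt
      have e1 : ∀ᶠ y in 𝓝 x, ‖y - x‖ < δ' ∧ ‖f y - f x‖ < δ' ∧ X.Fx y (f y) := by
        filter_upwards [Metric.ball_mem_nhds x hδ', hfx.eventually (Metric.ball_mem_nhds _ hδ'),
          Metric.isOpen_ball.mem_nhds hxb] with y h2 h3 h4
        exact ⟨mem_ball_iff_norm.1 h2, by rwa [← dist_eq_norm], hin y h4⟩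
      rcases hl with hl | hl
      · left
        filter_upwards [mem_nhdsWithin_of_mem_nhds e1] with y hy
        exact hl y (f y) hy.1 hy.2.1 hy.2.2
      · right
        filter_upwards [mem_nhdsWithin_of_mem_nhds e1] with y hy
        exact hl y (f y) hy.1 hy.2.1 hy.2.2)
    have huq : ∀ μ ∈ Metric.ball μ1 δ, ∀ z : ℂ, ‖z - s‖ < δ → X.Fx μ z → z = f μ := by
      intro μ hμ z hz hfx
      exact hfu μ (Metric.ball_subset_ball hd1 hμ) z
        (mem_ball_iff_norm.2 (hz.trans_le hdr)) hfx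
    rcases hcl with hcl | hcl
    · -- the branch is in `Sb`
      have hes : Exa 2 X.K (X.ψ μ1) s := by
        have hx : (μ1 + ((δ / 2 : ℝ) : ℂ)) ∈ Metric.ball μ1 δ := by
          rw [mem_ball_iff_norm, add_sub_cancel_left, Complex.norm_real, Real.norm_eq_abs,
            abs_of_pos (by linarith)]
          linarith
        have hxne : (μ1 + ((δ / 2 : ℝ) : ℂ)) ∉ ({μ1} : Set ℂ) := by
          rw [mem_singleton_iff]
          intro h
          have h2 : ((δ / 2 : ℝ) : ℂ) = 0 := by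
            have h3 : μ1 + ((δ / 2 : ℝ) : ℂ) = μ1 + 0 := by rw [h, add_zero]
            exact add_left_cancel h3
          rw [Complex.ofReal_eq_zero] at h2
          linarith
        have h2 := hcl _ ⟨hx, hxne⟩
        refine (hex _ (f (μ1 + ((δ / 2 : ℝ) : ℂ))) ?_ ?_ (hin _ hx)).1 h2.2.1
        · exact (mem_ball_iff_norm.1 hx).trans_le hd3
        · exact (hev _ (Metric.ball_subset_ball hd4 hx)).1
      refine ⟨δ, f, True, hδ, fun _ => ⟨h1, hes, hf0, ?_, ?_⟩, ?_⟩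
      · exact hfd.mono (Metric.ball_subset_ball hd1)
      · intro μ hμ
        have h2 := hev μ (Metric.ball_subset_ball hd4 hμ)
        have h3 := hfm μ (Metric.ball_subset_ball hd1 hμ)
        refine ⟨(mem_ball_iff_norm.1 h3.1).trans_le hre, h3.2, ?_, h2.2.1⟩
        exact (hex μ (f μ) ((mem_ball_iff_norm.1 hμ).trans_le hd3) h2.1 h3.2).2 hes
      · intro μ hμ hne
        refine ⟨fun _ => hcl μ ⟨hμ, hne⟩, fun z hz hfx _ => ⟨trivial, (huq μ hμ z hz hfx).symm⟩⟩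
    · refine ⟨δ, f, False, hδ, fun h => h.elim, fun μ hμ hne => ⟨fun h => h.elim, ?_⟩⟩
      intro z hz hfx hsb
      rw [huq μ hμ z hz hfx] at hsb
      exact absurd hsb (hcl μ ⟨hμ, hne⟩)

end LCF_

open LCF_ in
/-- LCF: local branches -/
theorem p_LCF (hSBL : T_SBL) (hMPV : T_MPV) (hKFC : T_KFC) (hNFN : T_NFN) : T_LCF := by
  intro X hX μ1 hμ1
  classical
  have hμ0 : μ1 ∈ Metric.ball X.m0 X.ρ := B_sub _ hμ1
  obtain ⟨Z, hZ⟩ : ∃ Z : Finset ℂ, ∀ z : ℂ, z ∈ Z ↔ X.Fx μ1 z := by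
    refine ⟨(Pool.Agent.PLim.FPol 2 (X.ψ μ1) X.K - Polynomial.X).roots.toFinset, fun z => ?_⟩
    rw [Multiset.mem_toFinset, Pool.Agent.PLim.FINF_.mem_roots 2 X.K (X.ψ μ1) z le_rfl hX.dt.hK1]
    rfl
  obtain ⟨e, he, hsep⟩ : ∃ e : ℝ, 0 < e ∧ ∀ s ∈ Z, ∀ s' ∈ Z, ‖s - s'‖ < 2 * e → s = s' := by
    obtain ⟨e, he, h⟩ := exists_le (Z ×ˢ Z) (fun p => if p.1 = p.2 then 1 else ‖p.1 - p.2‖) (by
      intro p _
      split_ifs with h
      · exact one_pos
      · exact norm_pos_iff.2 (sub_ne_zero.2 h))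
    refine ⟨e / 2, by linarith, fun s hs s' hs' hlt => ?_⟩
    by_contra hne
    have h1 := h (s, s') (Finset.mk_mem_product hs hs')
    simp only [if_neg hne] at h1
    linarith
  have key := point hSBL hMPV hNFN hX hμ1 he
  choose! δf f b hδf h1 h2 using key
  obtain ⟨δ0, hδ0, hδ0'⟩ := exists_le Z δf (fun s hs => hδf s ((hZ s).1 hs))
  obtain ⟨δk, hδk, hk⟩ := hKFC X.toCtx hX.dt μ1 hμ0 δ0 hδ0
  obtain ⟨δb, hδb, hb⟩ := Metric.isOpen_iff.1 hX.dt.B_isOpen μ1 hμ1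
  refine ⟨min δ0 (min δk δb), Z.filter (fun s => b s), f, lt_min hδ0 (lt_min hδk hδb), ?_, ?_, ?_,
    ?_, ?_⟩
  · exact (Metric.ball_subset_ball ((min_le_right _ _).trans (min_le_right _ _))).trans hb
  · intro s hs
    obtain ⟨hsZ, hsb⟩ := Finset.mem_filter.1 hs
    obtain ⟨h3, h4, h5, h6, h7⟩ := h1 s ((hZ s).1 hsZ) hsb
    refine ⟨(hZ s).1 hsZ, h3, h4, h5, h6.mono (Metric.ball_subset_ball ?_)⟩
    exact (min_le_left _ _).trans (hδ0' s hsZ)
  · intro s hs s' hs' μ hμ hff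
    obtain ⟨hsZ, hsb⟩ := Finset.mem_filter.1 hs
    obtain ⟨hsZ', hsb'⟩ := Finset.mem_filter.1 hs'
    have h3 := ((h1 s ((hZ s).1 hsZ) hsb).2.2.2.2 μ
      (Metric.ball_subset_ball ((min_le_left _ _).trans (hδ0' s hsZ)) hμ)).1
    have h4 := ((h1 s' ((hZ s').1 hsZ') hsb').2.2.2.2 μ
      (Metric.ball_subset_ball ((min_le_left _ _).trans (hδ0' s' hsZ')) hμ)).1
    refine hsep s hsZ s' hsZ' ?_
    have h5 : s - s' = (f s' μ - s') - (f s μ - s) := by
      rw [hff]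
      ring
    calc ‖s - s'‖ = ‖(f s' μ - s') - (f s μ - s)‖ := by rw [h5]
      _ ≤ ‖f s' μ - s'‖ + ‖f s μ - s‖ := norm_sub_le _ _
      _ < 2 * e := by linarith
  · intro s hs μ hμ
    obtain ⟨hsZ, hsb⟩ := Finset.mem_filter.1 hs
    exact ((h1 s ((hZ s).1 hsZ) hsb).2.2.2.2 μ
      (Metric.ball_subset_ball ((min_le_left _ _).trans (hδ0' s hsZ)) hμ)).2
  · intro μ hμ hne z
    have hμk : ‖μ - μ1‖ < δk := (mem_ball_iff_norm.1 hμ).trans_le
      ((min_le_right _ _).trans (min_le_left _ _))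
    constructor
    · intro hsb
      obtain ⟨s, hs, hsz⟩ := hk μ z hμk hsb.1
      have hsZ : s ∈ Z := (hZ s).2 hs
      obtain ⟨h3, h4⟩ := (h2 s hs μ (Metric.ball_subset_ball
        ((min_le_left _ _).trans (hδ0' s hsZ)) hμ) hne).2 z (hsz.trans_le (hδ0' s hsZ)) hsb.1 hsb
      exact ⟨s, Finset.mem_filter.2 ⟨hsZ, h3⟩, h4⟩
    · rintro ⟨s, hs, rfl⟩
      obtain ⟨hsZ, hsb⟩ := Finset.mem_filter.1 hs
      exact (h2 s ((hZ s).1 hsZ) μ (Metric.ball_subset_ball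
        ((min_le_left _ _).trans (hδ0' s hsZ)) hμ) hne).1 hsb

end Pool.Agent.PSat
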