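import Pool.Agent.PSat.Targets
import Pool.Agent.PLim.RS
import Pool.Agent.PLim.RINV

/-!
# PSAT, LFC: comparison of labels
-/

set_option autoImplicit false
set_option maxHeartbeats 4000000

open Complex Filter Topology Set
open Pool.Agent.PLim (Rot lab Per p_RS)

namespace Pool.Agent.PSat

namespace LFC_

/-- bounds for the floor of a multiple -/
lemma floor_bounds (v : ℕ) (R : ℝ) (f : ℤ) (hv : 1 ≤ v) (hf : ⌊R⌋ = f) :
    (v : ℤ) * f ≤ ⌊(v : ℝ) * R⌋ ∧ ⌊(v : ℝ) * R⌋ < v * f + v := by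
  have hv' : (0 : ℝ) < v := by exact_mod_cast hv
  have h1 : (f : ℝ) ≤ R := by rw [← hf]; exact Int.floor_le R
  have h2 : R < f + 1 := by rw [← hf]; exact Int.lt_floor_add_one R
  constructor
  · rw [Int.le_floor]
    push_cast
    exact mul_le_mul_of_nonneg_left h1 hv'.le
  · rw [Int.floor_lt]
    push_cast
    nlinarith

/-- two integers in the same window congruent modulo a number at least its length -/
lemma eq_of_window (v m : ℕ) (a b s : ℤ) (hvm : v ≤ m) (ha : s ≤ a ∧ a < s + v)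
    (hb : s ≤ b ∧ b < s + v) (h : (m : ℤ) ∣ b - a) : a = b := by
  obtain ⟨c, hc⟩ := h
  have hvm' : (v : ℤ) ≤ m := by exact_mod_cast hvm
  have hv0 : (0 : ℤ) ≤ v := by positivity
  obtain ⟨ha1, ha2⟩ := ha
  obtain ⟨hb1, hb2⟩ := hb
  rcases lt_trichotomy c 0 with h | h | h
  · have : (m : ℤ) * c ≤ -m := by nlinarith
    omega
  · subst h
    omega
  · have : (m : ℤ) ≤ m * c := by nlinarith
    omega

end LFC_

open LFC_ in
theorem p_LFC (hPWR : T_PWR) : T_LFC := by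
  intro k v θ θ' ε hk hv hε hfl hlab
  obtain ⟨N, hN⟩ := Pool.Agent.PLim.RINV_.norm_word p_RS 2 (k * v) le_rfl θ ε
  have h3 : ((⌊Rot 2 (k * v) (θ + ε 0) (fun j => (ε j - ε 0) % ((2 : ℕ) : ℤ))⌋ : ℤ) :
      ZMod (k * v * (2 - 1))) =
      ((⌊Rot 2 (k * v) (θ' + ε 0) (fun j => (ε j - ε 0) % ((2 : ℕ) : ℤ))⌋ : ℤ) :
      ZMod (k * v * (2 - 1))) := congrArg Prod.snd hlab
  rw [hN θ, hN θ', Int.floor_add_intCast, Int.floor_add_intCast, (hPWR k θ ε hk hε).1 v,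
    (hPWR k θ' ε hk hε).1 v, ZMod.intCast_eq_intCast_iff_dvd_sub] at h3
  refine eq_of_window v (k * v * (2 - 1)) _ _ (v * ⌊Rot 2 k θ ε⌋) ?_
    (floor_bounds v _ _ hv rfl) (floor_bounds v _ _ hv hfl.symm) ?_
  · nlinarith
  · have e : ⌊(v : ℝ) * Rot 2 k θ' ε⌋ + N - (⌊(v : ℝ) * Rot 2 k θ ε⌋ + N) =
      ⌊(v : ℝ) * Rot 2 k θ' ε⌋ - ⌊(v : ℝ) * Rot 2 k θ ε⌋ := by ring
    rwa [e] at h3

end Pool.Agent.PSat
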