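import Pool.Agent.PSat.Basic

/-!
# PSAT, LKV: no ray of period `k v` lands at `χ μ`, and the label of level `k v` is constant
-/

set_option autoImplicit false

open Complex Filter Topology Set
open Pool.Agent.Multibrot (MM)
open Pool.Agent.Limb (F)
open Pool.Agent.PLim (Rho IsBot IsLog Crit Dig Rot IsInt Label lab Ex Cod Per Lands InZ LabR
  ZVn ONTOn NCn OMXn SECTn LocFix)
open Pool.Agent.MEX (Exa)
open Pool.Agent.MEY (Pt Omg DD Glob)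

namespace Pool.Agent.PSat

namespace LKV_

variable {X : Ctx}

/-- the distance of the multiplier to the roots of unity of order `v` -/
lemma dist_ge (h : Dt X) {v : ℕ} (hv : 1 ≤ v) (hvK : v ≤ X.K + 1) (hq : ¬ X.q ∣ v) (n : ℤ) :
    2 * Real.pi ≤ ‖X.m0 + n * (2 * Real.pi * I) / v‖ * (X.q * (X.K + 1)) := by
  have hpi := Real.pi_pos
  have hq0 : (0 : ℝ) < X.q := by
    have := h.hq
    exact_mod_cast (by omega : 0 < X.q)
  have hv0 : (0 : ℝ) < v := by exact_mod_cast hv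
  have hne : (X.p * v + n * X.q : ℤ) ≠ 0 := by
    intro h0
    apply hq
    have h1 : (X.q : ℤ) ∣ X.p * v := ⟨-n, by linarith⟩
    have h2 : X.q ∣ X.p * v := by exact_mod_cast h1
    exact (Nat.Coprime.symm h.cop).dvd_of_dvd_mul_left h2
  have h1 : (1 : ℝ) ≤ |(X.p * v + n * X.q : ℝ)| := by
    have h3 := Int.one_le_abs hne
    have h4 : ((1 : ℤ) : ℝ) ≤ ((|X.p * v + n * X.q| : ℤ) : ℝ) := by exact_mod_cast h3
    push_cast at h4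
    exact h4
  have h2 : X.m0 + n * (2 * Real.pi * I) / v =
      ((2 * Real.pi * (X.p * v + n * X.q) / (X.q * v) : ℝ) : ℂ) * I := by
    unfold Ctx.m0
    push_cast
    have hqc : (X.q : ℂ) ≠ 0 := by exact_mod_cast hq0.ne'
    have hvc : (v : ℂ) ≠ 0 := by exact_mod_cast hv0.ne'
    field_simp
  have h3 : ‖X.m0 + n * (2 * Real.pi * I) / v‖ =
      2 * Real.pi * |(X.p * v + n * X.q : ℝ)| / (X.q * v) := by
    rw [h2, norm_mul, norm_I, mul_one, Complex.norm_real, Real.norm_eq_abs, abs_div, abs_mul,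
      abs_of_pos (by linarith : (0 : ℝ) < 2 * Real.pi),
      abs_of_pos (by positivity : (0 : ℝ) < X.q * v)]
  rw [h3, div_mul_eq_mul_div, le_div_iff₀ (by positivity)]
  have h4 : (v : ℝ) ≤ X.K + 1 := by exact_mod_cast hvK
  calc 2 * Real.pi * (X.q * v) ≤ 2 * Real.pi * (X.q * (X.K + 1)) := by gcongr
    _ = 2 * Real.pi * 1 * (X.q * (X.K + 1)) := by ring
    _ ≤ 2 * Real.pi * |(X.p * v + n * X.q : ℝ)| * (X.q * (X.K + 1)) := by gcongr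

lemma not_inZ (h : Dt X) (hC : Cst X.C1) {v : ℕ} (hv : 1 ≤ v) (hvK : v ≤ X.K + 1)
    (hq : ¬ X.q ∣ v) {μ : ℂ} (hμ : μ ∈ Metric.ball X.m0 X.ρ) (hre : 0 < μ.re) :
    ¬ InZ 2 (X.k * v) X.Λ X.lh (X.ψ μ) (X.χ μ) := by
  intro hZ
  have hμ2 := h.sub2 hμ
  have hq0 : (0 : ℝ) < X.q := by
    have := h.hq
    exact_mod_cast (by omega : 0 < X.q)
  have hv0 : (0 : ℝ) < v := by exact_mod_cast hv
  have hvK' : (v : ℝ) ≤ X.K + 1 := by exact_mod_cast hvK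
  have hk0 : (1 : ℝ) ≤ X.k := by exact_mod_cast h.hk
  have hK0 : (0 : ℝ) ≤ X.K := Nat.cast_nonneg _
  have hC1 := h.hC
  have hρ := h.hρ
  have hreρ : μ.re < X.ρ := lt_of_le_of_lt (le_abs_self _) (h.re_lt hμ)
  have hR : Rho 2 (X.k * v) (X.ψ μ) (X.χ μ) = exp (v * μ) := by
    rw [rho_mul (h.pt μ hμ2).fix, (h.pt μ hμ2).mul, ← Complex.exp_nat_mul]
  have hle : ‖Rho 2 (X.k * v) (X.ψ μ) (X.χ μ)‖ ≤ Real.exp 1 := by
    rw [hR, norm_exp]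
    refine Real.exp_le_exp.2 ?_
    have e : ((v : ℂ) * μ).re = v * μ.re := by simp
    rw [e]
    have h1 := h.rho_K
    calc (v : ℝ) * μ.re ≤ (X.K + 1) * X.ρ := by gcongr
      _ ≤ 1 := by linarith
  obtain ⟨ν, hν, hν2⟩ := hC.zv (X.k * v) X.Λ X.lh X.ls (X.ψ μ) (X.χ μ)
    (Nat.mul_pos h.hk hv) h.bot h.log (fix_mul (h.pt μ hμ2).fix v) (h.repK hμ2 hre hv) hle hZ
  rw [hR] at hν
  obtain ⟨n, hn⟩ := Complex.exp_eq_exp_iff_exists_int.1 hν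
  have hvc : (v : ℂ) ≠ 0 := by exact_mod_cast hv0.ne'
  have hνre : ν.re = v * μ.re := by
    rw [hn]
    simp
  set w : ℂ := μ + n * (2 * Real.pi * I) / v with hw
  have hνw : ν = v * w := by
    rw [hn, hw]
    field_simp
  have hnw : ‖ν‖ = v * ‖w‖ := by
    rw [hνw, norm_mul]
    simp
  have h1 : ‖w‖ ^ 2 ≤ X.C1 * X.k * μ.re := by
    rw [hnw, hνre] at hν2
    push_cast at hν2
    have h2 : (v : ℝ) ^ 2 * ‖w‖ ^ 2 ≤ (v : ℝ) ^ 2 * (X.C1 * X.k * μ.re) := by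
      calc (v : ℝ) ^ 2 * ‖w‖ ^ 2 = (v * ‖w‖) ^ 2 := by ring
        _ ≤ X.C1 * (X.k * v) * (v * μ.re) := hν2
        _ = (v : ℝ) ^ 2 * (X.C1 * X.k * μ.re) := by ring
    exact le_of_mul_le_mul_left h2 (by positivity)
  have h2 : (20 * (‖w‖ * (X.q * (X.K + 1)))) ^ 2 ≤ 1 ^ 2 := by
    have h3 : ‖w‖ ^ 2 ≤ X.C1 * X.k * X.ρ := by
      refine h1.trans ?_
      gcongr
    calc (20 * (‖w‖ * (X.q * (X.K + 1)))) ^ 2 =
        400 * X.q ^ 2 * (X.K + 1) ^ 2 * ‖w‖ ^ 2 := by ring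
      _ ≤ 400 * X.q ^ 2 * (X.K + 1) ^ 2 * (X.C1 * X.k * X.ρ) := by gcongr
      _ = 400 * X.C1 * X.k * X.q ^ 2 * (X.K + 1) ^ 2 * X.ρ := by ring
      _ ≤ 1 ^ 2 := by rw [one_pow]; exact h.sm
  have h3 : 20 * (‖w‖ * (X.q * (X.K + 1))) ≤ 1 :=
    (pow_le_pow_iff_left₀ (by positivity) (by norm_num) two_ne_zero).1 h2
  have h4 := dist_ge h hv hvK hq n
  have h5 : ‖X.m0 + n * (2 * Real.pi * I) / v‖ ≤ ‖w‖ + X.ρ := by
    have e : X.m0 + n * (2 * Real.pi * I) / v = w - (μ - X.m0) := by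
      rw [hw]
      ring
    rw [e]
    refine (norm_sub_le _ _).trans ?_
    have := mem_ball_iff_norm.1 hμ
    linarith
  have h6 : X.ρ * (X.q * (X.K + 1)) ≤ 1 / 400 := by
    have h7 := h.rho_le
    have h8 : (X.q : ℝ) ≤ X.K + 1 := by
      have : (X.q : ℝ) ≤ X.K := by exact_mod_cast h.hqK
      linarith
    calc X.ρ * (X.q * (X.K + 1)) ≤ X.ρ * ((X.K + 1) * (X.K + 1)) := by gcongr
      _ = X.ρ * (X.K + 1) ^ 2 := by ring
      _ ≤ 1 / 400 := h7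
  have h7 : ‖X.m0 + n * (2 * Real.pi * I) / v‖ * (X.q * (X.K + 1)) ≤
      (‖w‖ + X.ρ) * (X.q * (X.K + 1)) := by gcongr
  have hpi := Real.pi_gt_three
  nlinarith

/-- the half disc -/
lemma half_open (X : Ctx) : IsOpen (Metric.ball X.m0 X.ρ ∩ {μ : ℂ | 0 < μ.re}) :=
  Metric.isOpen_ball.inter (isOpen_lt continuous_const Complex.continuous_re)

lemma half_conn (X : Ctx) : IsPreconnected (Metric.ball X.m0 X.ρ ∩ {μ : ℂ | 0 < μ.re}) :=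
  ((convex_ball X.m0 X.ρ).inter (convex_halfSpace_re_gt 0)).isPreconnected

/-- the label of a point is the label of the nearby points -/
lemma lab_open (h : Dt X) {v : ℕ} (hv : 1 ≤ v) (P : Label 2 (X.k * v) → Prop) :
    IsOpen {μ : ℂ | (μ ∈ Metric.ball X.m0 X.ρ ∧ 0 < μ.re) ∧
      ∃ l, P l ∧ LabR 2 (X.k * v) X.Λ X.lh (X.ψ μ) (X.χ μ) l} := by
  rw [isOpen_iff_mem_nhds]
  rintro μ ⟨⟨hμ, hre⟩, l, hP, hl⟩
  have hμ2 := h.sub2 hμ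
  obtain ⟨δ, hδ, hL⟩ := Pool.Agent.PLim.a_LOP 2 (X.k * v) X.Λ X.lh X.ls (X.ψ μ) (X.χ μ) l le_rfl
    (Nat.mul_pos h.hk hv) h.bot h.log (fix_mul (h.pt μ hμ2).fix v) (h.repK hμ2 hre hv) hl
  have h1 := (h.psi_cont hμ2).eventually (Metric.ball_mem_nhds _ hδ)
  have h2 := (h.chi_cont hμ2).eventually (Metric.ball_mem_nhds _ hδ)
  have h3 : ∀ᶠ ν in 𝓝 μ, ν ∈ Metric.ball X.m0 X.ρ ∩ {μ : ℂ | 0 < μ.re} :=
    (half_open X).mem_nhds ⟨hμ, hre⟩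
  filter_upwards [h1, h2, h3] with ν h1 h2 h3
  refine ⟨⟨h3.1, h3.2⟩, l, hP, hL _ _ (mem_ball_iff_norm.1 h1) (mem_ball_iff_norm.1 h2)
    (fix_mul (h.pt ν (h.sub2 h3.1)).fix v)⟩

end LKV_

open LKV_ in
theorem p_LKV : T_LKV := by
  intro X h hC v hv hvK hq
  refine ⟨fun μ hμ hre => not_inZ h hC hv hvK hq hμ hre, ?_⟩
  have hLU : ∀ μ ∈ Metric.ball X.m0 X.ρ, 0 < μ.re →
      (∃ l, LabR 2 (X.k * v) X.Λ X.lh (X.ψ μ) (X.χ μ) l) ∧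
      ∀ l l', LabR 2 (X.k * v) X.Λ X.lh (X.ψ μ) (X.χ μ) l →
        LabR 2 (X.k * v) X.Λ X.lh (X.ψ μ) (X.χ μ) l' → l = l' := by
    intro μ hμ hre
    have hμ2 := h.sub2 hμ
    have h1 := Pool.Agent.PLim.a_LU 2 (X.k * v) X.Λ X.lh X.ls (X.ψ μ) (X.χ μ) le_rfl
      (Nat.mul_pos h.hk hv) h.bot h.log (fix_mul (h.pt μ hμ2).fix v) (h.repK hμ2 hre hv)
    exact ⟨h1.1 (not_inZ h hC hv hvK hq hμ hre), h1.2.1⟩
  have hρ := h.hρ
  have hb : X.m0 + ((X.ρ / 2 : ℝ) : ℂ) ∈ Metric.ball X.m0 X.ρ := by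
    rw [mem_ball_iff_norm, add_sub_cancel_left, Complex.norm_real, Real.norm_eq_abs,
      abs_of_pos (by linarith)]
    linarith
  have hbre : 0 < (X.m0 + ((X.ρ / 2 : ℝ) : ℂ)).re := by
    rw [add_re, m0_re, ofReal_re]
    linarith
  obtain ⟨l0, hl0⟩ := (hLU _ hb hbre).1
  refine ⟨l0, ?_⟩
  have hsub := (half_conn X).subset_left_of_subset_union (lab_open h hv (fun l => l = l0))
    (lab_open h hv (fun l => l ≠ l0)) ?_ ?_ ?_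
  · intro μ hμ hre
    obtain ⟨_, l, hl, hl'⟩ := hsub ⟨hμ, hre⟩
    subst hl
    exact hl'
  · rw [Set.disjoint_left]
    rintro μ ⟨⟨hμ, hre⟩, l, hl, h1⟩ ⟨_, l', hl', h2⟩
    exact hl' (((hLU μ hμ hre).2 l' l h2 h1).trans hl)
  · rintro μ ⟨hμ, hre⟩
    obtain ⟨l, hl⟩ := (hLU μ hμ hre).1
    by_cases hll : l = l0
    · exact Or.inl ⟨⟨hμ, hre⟩, l, hll, hl⟩
    · exact Or.inr ⟨⟨hμ, hre⟩, l, hll, hl⟩
  · exact ⟨_, ⟨hb, hbre⟩, ⟨hb, hbre⟩, l0, rfl, hl0⟩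

end Pool.Agent.PSat
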