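import Pool.Agent.PSat.Targets
import Pool.Agent.MEY.LUQ

/-!
# PSAT, LUF: uniqueness of the sections of the multiplier, for one period
-/

set_option autoImplicit false

open Complex Filter Topology Set
open Pool.Agent.Multibrot (MM)
open Pool.Agent.Limb (F)
open Pool.Agent.PLim (Rho IsBot IsLog Crit Dig Gm GWL Rot IsInt Label lab Ex Cod Per Lands InZ LabR
  Vreg ZVn ONTOn NCn OMXn SECTn LocFix)
open Pool.Agent.MEX (Exa LI)
open Pool.Agent.MEY (Pt Omg DD Glob)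

namespace Pool.Agent.PSat

theorem p_LUF : T_LUF := by
  intro n k N κ hn hk hG W ψ χ ψ' χ' μ0 hW hWO hψ hχ hψ' hχ' hP hP' hμ0 h0 h0'
  have hpc : PreconnectedSpace W := isPreconnected_iff_preconnectedSpace.mp hW
  rw [continuousOn_iff_continuous_domRestrict] at hψ hχ hψ' hχ'
  set S : Set W := {x | W.domRestrict ψ x = W.domRestrict ψ' x ∧
    W.domRestrict χ x = W.domRestrict χ' x} with hS
  have hcl : IsClosed S := (isClosed_eq hψ hψ').inter (isClosed_eq hχ hχ')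
  have hop : IsOpen S := by
    rw [isOpen_iff_mem_nhds]
    intro x hx
    obtain ⟨hx1, hx2⟩ := hx
    have hx1' : ψ x.1 = ψ' x.1 := hx1
    have hx2' : χ x.1 = χ' x.1 := hx2
    obtain ⟨-, hR⟩ := hG.pt (ψ x.1) (χ x.1) x.1 (hWO x.2) (hP x.1 x.2)
    obtain ⟨ε, r, zf, -, -, hL, hd⟩ := hR 1 one_pos
    obtain ⟨V, hV, hVu⟩ := Pool.Agent.MEY.LUQ_.loc hL hd
    have hb : Metric.ball (χ x.1) r ∈ 𝓝 (χ x.1) := Metric.ball_mem_nhds _ hL.hr
    have a1 : ∀ᶠ y : W in 𝓝 x, ψ y.1 ∈ V := hψ.continuousAt.eventually_mem hV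
    have a2 : ∀ᶠ y : W in 𝓝 x, ψ' y.1 ∈ V := by
      rw [hx1'] at hV
      exact hψ'.continuousAt.eventually_mem hV
    have a3 : ∀ᶠ y : W in 𝓝 x, χ y.1 ∈ Metric.ball (χ x.1) r := hχ.continuousAt.eventually_mem hb
    have a4 : ∀ᶠ y : W in 𝓝 x, χ' y.1 ∈ Metric.ball (χ x.1) r := by
      have hb' : Metric.ball (χ x.1) r ∈ 𝓝 (χ' x.1) := by rw [← hx2']; exact hb
      exact hχ'.continuousAt.eventually_mem hb'
    filter_upwards [a1, a2, a3, a4] with y h1 h2 h3 h4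
    have p1 := hP y.1 y.2
    have p2 := hP' y.1 y.2
    exact hVu _ h1 _ h2 _ h3 _ h4 p1.fix p2.fix (p1.mul.trans p2.mul.symm)
  have huniv : S = univ := IsClopen.eq_univ ⟨hcl, hop⟩ ⟨⟨μ0, hμ0⟩, h0, h0'⟩
  have key : ∀ μ ∈ W, ψ μ = ψ' μ ∧ χ μ = χ' μ := by
    intro μ hμ
    have : (⟨μ, hμ⟩ : W) ∈ S := by rw [huniv]; trivial
    exact this
  exact ⟨fun μ hμ => (key μ hμ).1, fun μ hμ => (key μ hμ).2⟩

end Pool.Agent.PSat
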