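import Pool.Agent.PSat.Basic

/-!
# PSAT, MKD: the data at a parabolic parameter
-/

set_option autoImplicit false

open Complex Filter Topology Set
open Pool.Agent.Multibrot (MM)
open Pool.Agent.Limb (F)
open Pool.Agent.PLim (Rho IsBot IsLog LocFix ZVn ONTOn NCn OMXn SECTn)
open Pool.Agent.MEX (Exa)
open Pool.Agent.MEY (Pt Omg DD Glob)

namespace Pool.Agent.PSat

namespace MKD_

/-- the exponential is different from one near `2 π i p / q` -/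
lemma exp_ne {p q : ℕ} {d : ℝ} (hp : 0 < p) (hpq : p < q) (hd : d * q ≤ 1) {μ : ℂ}
    (hμ : ‖μ - ((2 * Real.pi * p / q : ℝ) : ℂ) * I‖ < d) : exp μ ≠ 1 := by
  intro h1
  rw [Complex.exp_eq_one_iff] at h1
  obtain ⟨n, hn⟩ := h1
  have hpi := Real.pi_gt_three
  have hq : (0 : ℝ) < q := by exact_mod_cast (by omega : 0 < q)
  have h2 := abs_im_le_norm (μ - ((2 * Real.pi * p / q : ℝ) : ℂ) * I)
  have h3 : (μ - ((2 * Real.pi * p / q : ℝ) : ℂ) * I).im = 2 * Real.pi * (n - p / q) := by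
    rw [sub_im, hn]
    simp
    ring
  rw [h3] at h2
  have h4 : (1 : ℝ) ≤ |(n * q - p : ℝ)| := by
    have h5 : (n * q - p : ℤ) ≠ 0 := by
      intro h6
      have h7 : (p : ℤ) = n * q := by linarith
      rcases le_or_gt n 0 with h8 | h8
      · have : n * (q : ℤ) ≤ 0 := mul_nonpos_of_nonpos_of_nonneg h8 (Int.natCast_nonneg _)
        omega
      · have : (q : ℤ) ≤ n * q := le_mul_of_one_le_left (Int.natCast_nonneg _) h8
        omega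
    have h9 := Int.one_le_abs h5
    have h10 : ((1 : ℤ) : ℝ) ≤ ((|n * q - p| : ℤ) : ℝ) := by exact_mod_cast h9
    push_cast at h10
    exact h10
  have h11 : |2 * Real.pi * ((n : ℝ) - p / q)| * q = 2 * Real.pi * |(n * q - p : ℝ)| := by
    rw [abs_mul, abs_of_pos (by linarith : (0 : ℝ) < 2 * Real.pi), mul_assoc]
    congr 1
    nth_rewrite 2 [← abs_of_pos hq]
    rw [← abs_mul]
    congr 1
    field_simp
  have h15 : |2 * Real.pi * ((n : ℝ) - p / q)| * q ≤ d * q :=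
    mul_le_mul_of_nonneg_right (by linarith) hq.le
  nlinarith

/-- the radius -/
lemma radius {C : ℝ} {k p q : ℕ} (hC : 1 ≤ C) (hk : 1 ≤ k) (hp : 0 < p) (hpq : p < q) :
    2 * (1 / (400 * C * k * q ^ 2 * (k * q + 1) ^ 2)) ≤
      (min (2 * Real.pi * p / q) (2 * Real.pi - 2 * Real.pi * p / q)) ^ 2 / (C * k) := by
  have hpi := Real.pi_gt_three
  have hk' : (1 : ℝ) ≤ k := by exact_mod_cast hk
  have hp' : (1 : ℝ) ≤ p := by exact_mod_cast hp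
  have hpq' : (p : ℝ) + 1 ≤ q := by exact_mod_cast hpq
  have hq : (0 : ℝ) < q := by linarith
  have h1 : 1 / (q : ℝ) ≤ min (2 * Real.pi * p / q) (2 * Real.pi - 2 * Real.pi * p / q) := by
    refine le_min ?_ ?_
    · rw [div_le_div_iff_of_pos_right hq]
      nlinarith
    · have : 2 * Real.pi - 2 * Real.pi * p / q = 2 * Real.pi * (q - p) / q := by
        field_simp
      rw [this, div_le_div_iff_of_pos_right hq]
      nlinarith
  have h2 : (1 / (q : ℝ)) ^ 2 / (C * k) ≤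
      (min (2 * Real.pi * p / q) (2 * Real.pi - 2 * Real.pi * p / q)) ^ 2 / (C * k) := by
    apply div_le_div_of_nonneg_right _ (by positivity)
    exact pow_le_pow_left₀ (by positivity) h1 2
  refine le_trans ?_ h2
  have h3 : (1 : ℝ) ≤ (k * q + 1) ^ 2 := by
    apply one_le_pow₀
    have : (0 : ℝ) ≤ k * q := by positivity
    linarith
  have h4 : 2 * (1 / (400 * C * k * q ^ 2 * (k * q + 1) ^ 2)) =
      (1 / (q : ℝ)) ^ 2 / (C * k) * (1 / (200 * (k * q + 1) ^ 2)) := by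
    field_simp
    norm_num
  rw [h4]
  apply mul_le_of_le_one_right (by positivity)
  rw [div_le_one (by positivity)]
  linarith

lemma radius2 {C : ℝ} {k q : ℕ} (hC : 1 ≤ C) (hk : 1 ≤ k) (hq : 1 ≤ q) :
    2 * (1 / (400 * C * k * q ^ 2 * (k * q + 1) ^ 2)) * q ≤ 1 := by
  have hk' : (1 : ℝ) ≤ k := by exact_mod_cast hk
  have hq' : (1 : ℝ) ≤ q := by exact_mod_cast hq
  have h3 : (1 : ℝ) ≤ (k * q + 1) ^ 2 := by
    apply one_le_pow₀
    have : (0 : ℝ) ≤ k * q := by positivity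
    linarith
  have h4 : 2 * (1 / (400 * C * k * q ^ 2 * (k * q + 1) ^ 2)) * q =
      1 / (200 * C * k * q * (k * q + 1) ^ 2) := by
    field_simp
    norm_num
  rw [h4, div_le_one (by positivity)]
  have h5 : (1 : ℝ) ≤ C * k := by nlinarith
  have h6 : (1 : ℝ) ≤ C * k * q := by nlinarith
  have h7 : (1 : ℝ) ≤ C * k * q * (k * q + 1) ^ 2 := by nlinarith
  nlinarith

/-- the section is differentiable -/
lemma chi_diff {k : ℕ} {ψ χ : ℂ → ℂ} {U : Set ℂ} (hU : IsOpen U)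
    (dψ : DifferentiableOn ℂ ψ U) (cχ : ContinuousOn χ U)
    (hfix : ∀ μ ∈ U, (F 2 (ψ μ))^[k] (χ μ) = χ μ) (hR : ∀ μ ∈ U, Rho 2 k (ψ μ) (χ μ) ≠ 1) :
    DifferentiableOn ℂ χ U := by
  intro μ1 hμ1
  obtain ⟨δ, r, zf, -, -, hL⟩ := Pool.Agent.PLim.p_LOCZ 2 k (ψ μ1) (χ μ1) 1 le_rfl one_pos
    (hfix μ1 hμ1) (hR μ1 hμ1)
  have hUn : U ∈ 𝓝 μ1 := hU.mem_nhds hμ1
  have hψ : DifferentiableAt ℂ ψ μ1 := dψ.differentiableAt hUn
  have hχ : ContinuousAt χ μ1 := cχ.continuousAt hUn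
  have e1 : ∀ᶠ μ in 𝓝 μ1, ψ μ ∈ Metric.ball (ψ μ1) δ :=
    hψ.continuousAt.eventually (Metric.ball_mem_nhds _ hL.hδ)
  have e2 : ∀ᶠ μ in 𝓝 μ1, χ μ ∈ Metric.ball (χ μ1) r :=
    hχ.eventually (Metric.ball_mem_nhds _ hL.hr)
  have e3 : ∀ᶠ μ in 𝓝 μ1, χ μ = (zf ∘ ψ) μ := by
    filter_upwards [e1, e2, hUn] with μ h1 h2 h3
    exact hL.uniq _ h1 _ h2 (hfix μ h3)
  have h4 : DifferentiableAt ℂ (zf ∘ ψ) μ1 :=
    (hL.diff.differentiableAt (Metric.ball_mem_nhds _ hL.hδ)).comp μ1 hψ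
  exact (h4.congr_of_eventuallyEq e3).differentiableWithinAt

/-- the points of the section have exact period `k` -/
lemma exa_all {k : ℕ} {ψ χ : ℂ → ℂ} {U : Set ℂ} (hk : 1 ≤ k) (hU : IsOpen U)
    (hc : IsPreconnected U) (dψ : DifferentiableOn ℂ ψ U) (cχ : ContinuousOn χ U)
    (hfix : ∀ μ ∈ U, (F 2 (ψ μ))^[k] (χ μ) = χ μ) (hR : ∀ μ ∈ U, Rho 2 k (ψ μ) (χ μ) ≠ 1)
    {μ0 : ℂ} (hμ0 : μ0 ∈ U) (h0 : Exa 2 k (ψ μ0) (χ μ0)) :
    ∀ μ ∈ U, Exa 2 k (ψ μ) (χ μ) := by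
  have hcont : ∀ μ1 ∈ U, Tendsto (fun μ => (ψ μ, χ μ)) (𝓝 μ1) (𝓝 (ψ μ1, χ μ1)) := by
    intro μ1 hμ1
    have hUn : U ∈ 𝓝 μ1 := hU.mem_nhds hμ1
    exact (dψ.differentiableAt hUn).continuousAt.prodMk_nhds (cχ.continuousAt hUn)
  have o1 : IsOpen {μ | μ ∈ U ∧ Exa 2 k (ψ μ) (χ μ)} := by
    rw [isOpen_iff_mem_nhds]
    rintro μ1 ⟨hμ1, hex⟩
    filter_upwards [hU.mem_nhds hμ1,
      (hcont μ1 hμ1).eventually (Pool.Agent.MEX.SECX_.exact_nhds hex)] with μ h1 h2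
    exact ⟨h1, h2⟩
  have o2 : IsOpen {μ | μ ∈ U ∧ ¬ Exa 2 k (ψ μ) (χ μ)} := by
    rw [isOpen_iff_mem_nhds]
    rintro μ1 ⟨hμ1, hex⟩
    filter_upwards [hU.mem_nhds hμ1,
      (hcont μ1 hμ1).eventually (Pool.Agent.MEX.SECX_.nonexact_nhds le_rfl hk (hfix μ1 hμ1)
        (hR μ1 hμ1) hex)] with μ h1 h2
    exact ⟨h1, h2 (hfix μ h1)⟩
  by_contra hn
  push Not at hn
  obtain ⟨μ1, hμ1, hex1⟩ := hn
  obtain ⟨μ, -, ⟨-, h2⟩, ⟨-, h4⟩⟩ := hc _ _ o1 o2 (by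
    intro μ hμ
    by_cases h : Exa 2 k (ψ μ) (χ μ)
    · exact Or.inl ⟨hμ, h⟩
    · exact Or.inr ⟨hμ, h⟩) ⟨μ0, hμ0, hμ0, h0⟩ ⟨μ1, hμ1, hμ1, hex1⟩
  exact h4 h2

end MKD_

open MKD_ in
/-- MKD: the data. -/
theorem p_MKD : T_MKD := by
  intro C k p q r0 z0 hC hCst hk hp hpq hcop hP
  obtain ⟨Λ, hΛ⟩ := Pool.Agent.PLim.a_BOT 2 le_rfl
  obtain ⟨lh, ls, hlog⟩ := Pool.Agent.PLim.a_LOG 2 Λ le_rfl hΛ
  have hpi := Real.pi_pos
  have hk' : (1 : ℝ) ≤ k := by exact_mod_cast hk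
  have hp' : (0 : ℝ) < p := by exact_mod_cast hp
  have hpq' : (p : ℝ) < q := by exact_mod_cast hpq
  have hq' : (0 : ℝ) < q := by linarith
  have hτ0 : 0 < 2 * Real.pi * p / q := by positivity
  have hτ1 : 2 * Real.pi * p / q < 2 * Real.pi := by
    rw [div_lt_iff₀ hq']
    nlinarith
  have hmul : Rho 2 k r0 z0 = exp (((2 * Real.pi * p / q : ℝ) : ℂ) * I) := by
    rw [hP.mul]
    congr 1
    push_cast
    ring
  obtain ⟨ψ, χ, dψ, cχ, hψ0, hχ0, hall⟩ := hCst.sect k r0 z0 (2 * Real.pi * p / q)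
    ((min (2 * Real.pi * p / q) (2 * Real.pi - 2 * Real.pi * p / q)) ^ 2 / (C * k)) hk hτ0 hτ1
    hP.fix hmul rfl
  set ρ : ℝ := 1 / (400 * C * k * q ^ 2 * (k * q + 1) ^ 2) with hρ
  have hsub : Metric.ball (((2 * Real.pi * p / q : ℝ) : ℂ) * I) (2 * ρ) ⊆
      Metric.ball (((2 * Real.pi * p / q : ℝ) : ℂ) * I)
        ((min (2 * Real.pi * p / q) (2 * Real.pi - 2 * Real.pi * p / q)) ^ 2 / (C * k)) :=
    Metric.ball_subset_ball (radius hC hk hp hpq)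
  have hρ0 : 0 < ρ := by
    rw [hρ]
    positivity
  have hne : ∀ μ ∈ Metric.ball (((2 * Real.pi * p / q : ℝ) : ℂ) * I) (2 * ρ), exp μ ≠ 1 := by
    intro μ hμ
    rw [mem_ball_iff_norm] at hμ
    exact exp_ne hp hpq (radius2 hC hk (by omega)) hμ
  have hR : ∀ μ ∈ Metric.ball (((2 * Real.pi * p / q : ℝ) : ℂ) * I) (2 * ρ),
      Rho 2 k (ψ μ) (χ μ) ≠ 1 := by
    intro μ hμ
    rw [(hall μ (hsub hμ)).2.1]
    exact hne μ hμ
  have hfix : ∀ μ ∈ Metric.ball (((2 * Real.pi * p / q : ℝ) : ℂ) * I) (2 * ρ),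
      (F 2 (ψ μ))^[k] (χ μ) = χ μ := fun μ hμ => (hall μ (hsub hμ)).1
  have hmem : ((2 * Real.pi * p / q : ℝ) : ℂ) * I ∈
      Metric.ball (((2 * Real.pi * p / q : ℝ) : ℂ) * I) (2 * ρ) :=
    Metric.mem_ball_self (by linarith)
  have hexa := exa_all hk Metric.isOpen_ball (convex_ball _ _).isPreconnected (dψ.mono hsub)
    (cχ.mono hsub) hfix hR hmem (by rw [hψ0, hχ0]; exact hP.exa)
  refine ⟨⟨C, k, p, q, ρ, Λ, lh, ls, ψ, χ⟩, rfl, rfl, rfl, rfl, rfl, hψ0, hχ0, ?_⟩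
  exact {
    hk := hk
    hp := hp
    hpq := hpq
    cop := hcop
    bot := hΛ
    log := hlog
    hC := hC
    hρ := hρ0
    sm := by
      show 400 * C * k * q ^ 2 * (((k * q : ℕ) : ℝ) + 1) ^ 2 * ρ ≤ 1
      rw [hρ]
      push_cast
      rw [mul_one_div, div_self (by positivity)]
    dψ := dψ.mono hsub
    dχ := chi_diff Metric.isOpen_ball (dψ.mono hsub) (cχ.mono hsub) hfix hR
    pt := fun μ hμ => ⟨hfix μ hμ, hexa μ hμ, (hall μ (hsub hμ)).2.1⟩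
    bd := fun μ hμ => (hall μ (hsub hμ)).2.2.1
    dn := fun μ hμ => (hall μ (hsub hμ)).2.2.2 }

end Pool.Agent.PSat
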