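import Pool.Agent.PSat.Basic

/-!
# MPV: no points near the points of multiplier one
-/

set_option autoImplicit false

open Complex Filter Topology Set
open Pool.Agent.Multibrot (MM)
open Pool.Agent.Limb (F)
open Pool.Agent.PLim (Rho IsBot IsLog Crit Dig Rot IsInt Label lab Ex Cod Per Lands InZ LabR
  ZVn ONTOn NCn OMXn SECTn LocFix)
open Pool.Agent.MEX (Exa)
open Pool.Agent.MEY (Pt Omg DD Glob)

namespace Pool.Agent.PSat

namespace MPV_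

/-- a locally constant predicate on a preconnected set -/
lemma loc_const {D : Set ℂ} (hD : IsPreconnected D) (Q : ℂ → Prop)
    (h : ∀ z ∈ D, (∀ᶠ w in 𝓝 z, Q w) ∨ (∀ᶠ w in 𝓝 z, ¬ Q w)) {a b : ℂ} (ha : a ∈ D)
    (hb : b ∈ D) (hQ : Q a) : Q b := by
  have hU : IsOpen {z : ℂ | ∀ᶠ w in 𝓝 z, Q w} := isOpen_setOfPred_eventually_nhds
  have hV : IsOpen {z : ℂ | ∀ᶠ w in 𝓝 z, ¬ Q w} := isOpen_setOfPred_eventually_nhds
  have hdis : Disjoint {z : ℂ | ∀ᶠ w in 𝓝 z, Q w} {z : ℂ | ∀ᶠ w in 𝓝 z, ¬ Q w} := by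
    rw [Set.disjoint_left]
    intro z h1 h2
    exact h2.self_of_nhds h1.self_of_nhds
  have hsub : D ⊆ {z : ℂ | ∀ᶠ w in 𝓝 z, Q w} := by
    refine hD.subset_left_of_subset_union hU hV hdis (fun z hz => h z hz) ⟨a, ha, ?_⟩
    rcases h a ha with h1 | h1
    · exact h1
    · exact absurd hQ h1.self_of_nhds
  exact (hsub hb).self_of_nhds

/-- the parameter map is a local homeomorphism -/
lemma psi_hom {X : Ctx} (h : Dt X) {μ1 : ℂ} (hμ : μ1 ∈ Metric.ball X.m0 (2 * X.ρ)) :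
    ∃ φ : OpenPartialHomeomorph ℂ ℂ, (∀ μ : ℂ, φ μ = X.ψ μ) ∧ μ1 ∈ φ.source := by
  have hs : HasStrictDerivAt X.ψ (deriv X.ψ μ1) μ1 :=
    (h.dψ.analyticAt (Metric.isOpen_ball.mem_nhds hμ)).hasStrictDerivAt
  have hne := h.dn μ1 hμ
  refine ⟨(hs.hasStrictFDerivAt_equiv hne).toOpenPartialHomeomorph X.ψ, ?_, ?_⟩
  · intro μ
    rw [HasStrictFDerivAt.toOpenPartialHomeomorph_coe]
  · exact (hs.hasStrictFDerivAt_equiv hne).mem_toOpenPartialHomeomorph_source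

/-- outside `V` the points are repelling -/
lemma rep_out {X : Full} (hX : Ok X) {μ z : ℂ} (hV : μ ∉ X.V) (hS : Sb X μ z) :
    1 < ‖X.rh μ z‖ := by
  obtain ⟨hfx, -, h1 | h1 | h1 | h1⟩ := hS
  · exact rep_of_ext hX.dt.hK1 hX.dt.bot hfx h1.1
  · exact h1.2.2.1
  · exact absurd h1.2.1 hV
  · exact absurd h1.2.1 hV

/-- inside `V` the nonrepelling points are on a global section -/
lemma cl_in {X : Full} (hX : Ok X) {μ z : ℂ} (hV : μ ∈ X.V) (hS : Sb X μ z)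
    (hR : ‖X.rh μ z‖ ≤ 1) : Cl X μ z := by
  obtain ⟨hfx, -, h1 | h1 | h1 | h1⟩ := hS
  · exact absurd (mm_of_le hX.dt.hK1 hX.dt.bot hfx hR) h1.1
  · exact absurd hV h1.2.1
  · exact absurd h1.2.2.1 (not_lt.mpr hR)
  · exact h1.2.2.2

/-- the global section is always the same -/
lemma cl_same (hUCN : T_UCN) {X : Full} (hX : Ok X) {c0 : ℂ} {Ψ Z : ℂ → ℂ}
    (hG : Glob 2 X.K 1 X.kp c0 Ψ Z) (hL : HasL X Ψ Z) {μ z : ℂ} (hC : Cl X μ z) :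
    Ψ (X.rh μ z) = X.ψ μ ∧ ∃ j : ℕ, (F 2 (X.ψ μ))^[j] (Z (X.rh μ z)) = z := by
  obtain ⟨c0', Ψ', Z', hG', hD, hΨ, ⟨j, hj⟩, hL'⟩ := hC
  obtain ⟨i, hi⟩ := hUCN X hX c0 c0' Ψ Z Ψ' Z' hG hG' hL hL'
  obtain ⟨h1, h2⟩ := hi _ hD
  have h3 : Ψ (X.rh μ z) = X.ψ μ := by rw [← h1, hΨ]
  refine ⟨h3, j + i, ?_⟩
  rw [Function.iterate_add_apply]
  rw [h3] at h2
  rw [← h2, hj]

/-- the nonrepelling points with multiplier near one come from the bifurcating cycle -/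
lemma pts (hCLR : T_CLR) {X : Full} (hX : Ok X) {R r : ℝ} {g L : ℂ → ℂ}
    (hB : Bif X.toCtx R r g L) {c0 : ℂ} {Ψ Z : ℂ → ℂ} (hG : Glob 2 X.K 1 X.kp c0 Ψ Z)
    (hL : HasL X Ψ Z) {e : ℝ} (he : 0 < e) : ∃ δ : ℝ, 0 < δ ∧ ∀ μ z : ℂ,
      ‖X.rh μ z - 1‖ < δ → ‖X.rh μ z‖ ≤ 1 → X.rh μ z ≠ 1 → Ψ (X.rh μ z) = X.ψ μ →
      (∃ j : ℕ, (F 2 (X.ψ μ))^[j] (Z (X.rh μ z)) = z) →
      ∃ z' : ℂ, z' ∈ Metric.ball (X.χ X.m0) r ∧ z' ≠ X.χ X.m0 ∧ X.ψ (g z') = X.ψ μ ∧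
        ‖g z' - X.m0‖ < e ∧ ‖z' - X.χ X.m0‖ < e ∧ ∃ i : ℕ, (F 2 (X.ψ μ))^[i] z' = z := by
  have h := hX.dt
  obtain ⟨δu, hδu, huq⟩ := hB.uq
  have hm2 : X.m0 ∈ Metric.ball X.m0 (2 * X.ρ) := h.sub2 h.mem0
  have hfix : (F 2 (X.ψ X.m0))^[X.k] (X.χ X.m0) = X.χ X.m0 := (h.pt _ hm2).fix
  have hev : ∀ᶠ x : ℂ × ℂ in 𝓝 (X.m0, X.χ X.m0), ∀ t ∈ Finset.range X.q,
      ‖(F 2 (X.ψ x.1))^[X.k * t] x.2 - X.χ X.m0‖ < min e δu := by
    rw [Filter.eventually_all_finset]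
    intro t _
    have h1 : Tendsto (fun x : ℂ × ℂ => (F 2 (X.ψ x.1))^[X.k * t] x.2) (𝓝 (X.m0, X.χ X.m0))
        (𝓝 ((F 2 (X.ψ X.m0))^[X.k * t] (X.χ X.m0))) := h.iter_cont hm2 (X.χ X.m0) (X.k * t)
    rw [fix_mul hfix t] at h1
    filter_upwards [h1.eventually (Metric.ball_mem_nhds _ (lt_min he hδu))] with x hx
    rwa [dist_eq_norm] at hx
  obtain ⟨δc, hδc, hc⟩ := (near_iff (P := fun μ z => ∀ t ∈ Finset.range X.q,
    ‖(F 2 (X.ψ μ))^[X.k * t] z - X.χ X.m0‖ < min e δu)).mp hev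
  obtain ⟨δp, hδp, hp⟩ := hB.prop δc hδc
  obtain ⟨δ, hδ, hcl⟩ := hCLR X hX R r g L hB c0 Ψ Z hG hL (min (min e δc) (min δp δu))
    (lt_min (lt_min he hδc) (lt_min hδp hδu))
  refine ⟨δ, hδ, ?_⟩
  rintro μ z h1 h2 h3 h4 ⟨j, hj⟩
  obtain ⟨μ', hne, hlt, hψ, z', hz', hz0, hg, j', hj'⟩ := hcl _ h1 h2 h3
  have hψ' : X.ψ μ' = X.ψ μ := by rw [← hψ, h4]
  have l1 : ‖μ' - X.m0‖ < e := lt_of_lt_of_le hlt ((min_le_left _ _).trans (min_le_left _ _))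
  have l2 : ‖μ' - X.m0‖ < δc := lt_of_lt_of_le hlt ((min_le_left _ _).trans (min_le_right _ _))
  have l3 : ‖μ' - X.m0‖ < δp := lt_of_lt_of_le hlt ((min_le_right _ _).trans (min_le_left _ _))
  have l4 : ‖μ' - X.m0‖ < δu := lt_of_lt_of_le hlt ((min_le_right _ _).trans (min_le_right _ _))
  have l5 : ‖z' - X.χ X.m0‖ < δc := hp z' hz' (by rw [hg]; exact l3)
  have hfx : (F 2 (X.ψ μ))^[X.K] z' = z' := by
    have h5 := (hB.pt z' hz' hz0).fix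
    rwa [hg, hψ'] at h5
  have hex : Exa 2 X.K (X.ψ μ) z' := by
    have h5 := (hB.pt z' hz' hz0).exa
    rwa [hg, hψ'] at h5
  have hμ' : μ' ∈ Metric.ball X.m0 (2 * X.ρ) := by
    have h5 := hB.gR z' hz'
    rw [hg] at h5
    exact h.sub2 (Metric.ball_subset_ball hB.hR1 h5)
  rw [hψ'] at hj'
  have hz : (F 2 (X.ψ μ))^[j + j'] z' = z := by
    rw [Function.iterate_add_apply, hj', hj]
  have hkpos : 0 < X.k := h.hk
  have hn : (j + j') % X.K < X.k * X.q := Nat.mod_lt _ h.hK1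
  have ht : (j + j') % X.K / X.k < X.q := Nat.div_lt_of_lt_mul hn
  have l6 : ‖(F 2 (X.ψ μ))^[X.k * ((j + j') % X.K / X.k)] z' - X.χ X.m0‖ < min e δu := by
    have h5 := hc μ' z' l2 l5 _ (Finset.mem_range.mpr ht)
    rwa [hψ'] at h5
  have hz2 : (F 2 (X.ψ μ))^[(j + j') % X.K % X.k]
      ((F 2 (X.ψ μ))^[X.k * ((j + j') % X.K / X.k)] z') = z := by
    rw [← Function.iterate_add_apply, Nat.mod_add_div, fix_mod hfx, hz]
  have hfx2 : X.Fx μ' ((F 2 (X.ψ μ))^[X.k * ((j + j') % X.K / X.k)] z') := by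
    unfold Ctx.Fx
    rw [hψ']
    exact fix_iter hfx _
  rcases huq μ' _ l4 (lt_of_lt_of_le l6 (min_le_right _ _)) hfx2 with h6 | ⟨h6, h7, h8⟩
  · exfalso
    have h7 := exa_iter hfx h.hK1 hex (X.k * ((j + j') % X.K / X.k))
    have hkK : X.k < X.K := by
      have h8 := h.hq
      calc X.k = X.k * 1 := (mul_one _).symm
        _ < X.k * X.q := Nat.mul_lt_mul_of_pos_left (by omega) hkpos
    apply h7 X.k hkpos hkK
    rw [h6, ← hψ']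
    exact (h.pt μ' hμ').fix
  · refine ⟨_, h6, h7, ?_, ?_, lt_of_lt_of_le l6 (min_le_left _ _), _, hz2⟩
    · rw [h8, hψ']
    · rw [h8]
      exact l1

/-- the contradiction -/
lemma core (hSBL : T_SBL) (hNR0 : T_NR0) (hINZ : T_INZ) {X : Full} (hX : Ok X) {μ1 : ℂ}
    (hμ1 : μ1 ∈ X.B) {δ0 : ℝ} (hδ0 : 0 < δ0) (hV : Metric.ball μ1 δ0 ⊆ X.V)
    (hBB : Metric.ball μ1 δ0 ⊆ X.B)
    (hNF : ∀ μ : ℂ, μ ≠ μ1 → ‖μ - μ1‖ < δ0 → X.NF μ)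
    {R r : ℝ} {g L : ℂ → ℂ} (hB : Bif X.toCtx R r g L)
    (hp : ∀ e : ℝ, 0 < e → ∃ μ z z' : ℂ, μ ≠ μ1 ∧ ‖μ - μ1‖ < e ∧ Sb X μ z ∧
      z' ∈ Metric.ball (X.χ X.m0) r ∧ z' ≠ X.χ X.m0 ∧ X.ψ (g z') = X.ψ μ ∧ ‖g z' - X.m0‖ < e ∧
      ‖z' - X.χ X.m0‖ < e ∧ ∃ i : ℕ, (F 2 (X.ψ μ))^[i] z' = z) : False := by
  have h := hX.dt
  have hm2 : X.m0 ∈ Metric.ball X.m0 (2 * X.ρ) := h.sub2 h.mem0
  have hμ2 : μ1 ∈ Metric.ball X.m0 (2 * X.ρ) := h.sub2 (B_sub _ hμ1)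
  -- the two parameters coincide
  have hψ : X.ψ μ1 = X.ψ X.m0 := by
    apply eq_of_forall_dist_le
    intro ε hε
    have h1 := (h.psi_cont hμ2).eventually (Metric.ball_mem_nhds _ (half_pos hε))
    have h2 := (h.psi_cont hm2).eventually (Metric.ball_mem_nhds _ (half_pos hε))
    obtain ⟨e1, he1, h3⟩ := Metric.eventually_nhds_iff_ball.mp h1
    obtain ⟨e2, he2, h4⟩ := Metric.eventually_nhds_iff_ball.mp h2
    obtain ⟨μ, z, z', -, h5, -, -, -, h6, h7, -⟩ := hp (min e1 e2) (lt_min he1 he2)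
    have h8 := h3 μ (mem_ball_iff_norm.mpr (lt_of_lt_of_le h5 (min_le_left _ _)))
    have h9 := h4 (g z') (mem_ball_iff_norm.mpr (lt_of_lt_of_le h7 (min_le_right _ _)))
    rw [h6] at h9
    have h10 := dist_triangle_left (X.ψ μ1) (X.ψ X.m0) (X.ψ μ)
    linarith
  obtain ⟨φ1, hφ1, hs1⟩ := psi_hom h hμ2
  obtain ⟨φ0, hφ0, hs0⟩ := psi_hom h hm2
  -- the map `m`
  obtain ⟨m, hm⟩ : ∃ m : ℂ → ℂ, ∀ w, m w = φ1.symm (X.ψ (g w)) := ⟨_, fun _ => rfl⟩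
  have hgc : ∀ w ∈ Metric.ball (X.χ X.m0) r, ContinuousAt g w := fun w hw =>
    (hB.dg.differentiableAt (Metric.isOpen_ball.mem_nhds hw)).continuousAt
  have hz0 : X.χ X.m0 ∈ Metric.ball (X.χ X.m0) r := Metric.mem_ball_self hB.hr
  have hg2 : ∀ w ∈ Metric.ball (X.χ X.m0) r, g w ∈ Metric.ball X.m0 (2 * X.ρ) := fun w hw =>
    h.sub2 (Metric.ball_subset_ball hB.hR1 (hB.gR w hw))
  have hψg : ∀ w ∈ Metric.ball (X.χ X.m0) r, ContinuousAt (fun w => X.ψ (g w)) w := fun w hw =>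
    ContinuousAt.comp (f := g) (g := X.ψ) (h.psi_cont (hg2 w hw)) (hgc w hw)
  have hψg0 : X.ψ (g (X.χ X.m0)) = X.ψ μ1 := by rw [hB.g0, hψ]
  have ht1 : X.ψ μ1 ∈ φ1.target := by
    rw [← hφ1]
    exact φ1.map_source hs1
  have hsymm1 : φ1.symm (X.ψ μ1) = μ1 := by
    rw [← hφ1]
    exact φ1.left_inv hs1
  have hmc : ∀ w ∈ Metric.ball (X.χ X.m0) r, X.ψ (g w) ∈ φ1.target → ContinuousAt m w := by
    intro w hw ht
    have h1 : ContinuousAt (fun w => φ1.symm (X.ψ (g w))) w :=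
      ContinuousAt.comp (f := fun w => X.ψ (g w)) (g := φ1.symm) (φ1.continuousAt_symm ht)
        (hψg w hw)
    have h2 : m = fun w => φ1.symm (X.ψ (g w)) := funext hm
    rw [h2]
    exact h1
  have hm0 : m (X.χ X.m0) = μ1 := by rw [hm, hψg0, hsymm1]
  have hev : ∀ᶠ w in 𝓝 (X.χ X.m0), w ∈ Metric.ball (X.χ X.m0) r ∧ g w ∈ φ0.source ∧
      X.ψ (g w) ∈ φ1.target ∧ m w ∈ Metric.ball μ1 δ0 := by
    have e1 : ∀ᶠ w in 𝓝 (X.χ X.m0), w ∈ Metric.ball (X.χ X.m0) r :=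
      Metric.isOpen_ball.mem_nhds hz0
    have e2 : ∀ᶠ w in 𝓝 (X.χ X.m0), g w ∈ φ0.source := by
      refine (hgc _ hz0).eventually (φ0.open_source.mem_nhds ?_)
      rw [hB.g0]
      exact hs0
    have e3 : ∀ᶠ w in 𝓝 (X.χ X.m0), X.ψ (g w) ∈ φ1.target := by
      refine (hψg _ hz0).eventually (φ1.open_target.mem_nhds ?_)
      show X.ψ (g (X.χ X.m0)) ∈ φ1.target
      rw [hψg0]
      exact ht1
    have e4 : ∀ᶠ w in 𝓝 (X.χ X.m0), m w ∈ Metric.ball μ1 δ0 := by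
      refine (hmc _ hz0 ?_).eventually (Metric.isOpen_ball.mem_nhds ?_)
      · rw [hψg0]
        exact ht1
      · rw [hm0]
        exact Metric.mem_ball_self hδ0
    filter_upwards [e1, e2, e3, e4] with w a1 a2 a3 a4 using ⟨a1, a2, a3, a4⟩
  obtain ⟨r1, hr1, hr1'⟩ := Metric.eventually_nhds_iff_ball.mp hev
  -- properties of `m` on the small disc
  have hψm : ∀ w ∈ Metric.ball (X.χ X.m0) r1, X.ψ (m w) = X.ψ (g w) := by
    intro w hw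
    rw [hm, ← hφ1]
    exact φ1.right_inv (hr1' w hw).2.2.1
  have hmne : ∀ w ∈ Metric.ball (X.χ X.m0) r1, w ≠ X.χ X.m0 → m w ≠ μ1 := by
    intro w hw hw0 hc
    have h1 := hψm w hw
    rw [hc, hψ, ← hφ0, ← hφ0] at h1
    exact hB.gne w (hr1' w hw).1 hw0 (φ0.injOn hs0 (hr1' w hw).2.1 h1).symm
  have hfx : ∀ w ∈ Metric.ball (X.χ X.m0) r1, w ≠ X.χ X.m0 → (F 2 (X.ψ (m w)))^[X.K] w = w := by
    intro w hw hw0
    rw [hψm w hw]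
    exact (hB.pt w (hr1' w hw).1 hw0).fix
  have hm2 : ∀ w ∈ Metric.ball (X.χ X.m0) r1, m w ∈ Metric.ball X.m0 (2 * X.ρ) := fun w hw =>
    h.sub2 (B_sub _ (hBB (hr1' w hw).2.2.2))
  -- a point where the predicate is true
  have hs1e : ∀ᶠ μ in 𝓝 μ1, μ ∈ φ1.source := φ1.open_source.mem_nhds hs1
  obtain ⟨δs, hδs, hδs'⟩ := Metric.eventually_nhds_iff_ball.mp hs1e
  obtain ⟨μ, z, z', -, q2, q3, q4, q5, q6, q7, q8, i, q9⟩ := hp (min r1 δs) (lt_min hr1 hδs)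
  have hz' : z' ∈ Metric.ball (X.χ X.m0) r1 :=
    mem_ball_iff_norm.mpr (lt_of_lt_of_le q8 (min_le_left _ _))
  have hmz' : m z' = μ := by
    rw [hm, q6, ← hφ1]
    exact φ1.left_inv (hδs' μ (mem_ball_iff_norm.mpr (lt_of_lt_of_le q2 (min_le_right _ _))))
  have hQ : Sb X (m z') ((F 2 (X.ψ (m z')))^[i] z') := by
    rw [hmz', q9]
    exact q3
  -- the predicate is constant
  have hconst : ∀ w ∈ Metric.ball (X.χ X.m0) r1, w ≠ X.χ X.m0 →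
      Sb X (m w) ((F 2 (X.ψ (m w)))^[i] w) := by
    intro w hw hw0
    refine loc_const (punct_conn (X.χ X.m0) r1) (fun w => Sb X (m w) ((F 2 (X.ψ (m w)))^[i] w))
      ?_ (a := z') ⟨hz', q5⟩ ⟨hw, hw0⟩ hQ
    rintro v ⟨hv, hv0⟩
    have hv0' : v ≠ X.χ X.m0 := hv0
    have hfv : X.Fx (m v) ((F 2 (X.ψ (m v)))^[i] v) := fix_iter (hfx v hv hv0') i
    obtain ⟨δ, hδ, hl⟩ := hSBL X hX (m v) _ (hBB (hr1' v hv).2.2.2)
      (hNF (m v) (hmne v hv hv0') (mem_ball_iff_norm.mp (hr1' v hv).2.2.2)) hfv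
    have hcv : ContinuousAt m v := hmc v (hr1' v hv).1 (hr1' v hv).2.2.1
    have hci : ContinuousAt (fun w => (F 2 (X.ψ (m w)))^[i] w) v :=
      ContinuousAt.comp (f := fun w => (m w, w))
        (g := fun x : ℂ × ℂ => (F 2 (X.ψ x.1))^[i] x.2) (h.iter_cont (hm2 v hv) v i)
        (hcv.prodMk continuousAt_id)
    have e1 : ∀ᶠ w in 𝓝 v, ‖m w - m v‖ < δ := by
      filter_upwards [hcv.eventually (Metric.ball_mem_nhds _ hδ)] with x hx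
      rwa [dist_eq_norm] at hx
    have e2 : ∀ᶠ w in 𝓝 v, ‖(F 2 (X.ψ (m w)))^[i] w - (F 2 (X.ψ (m v)))^[i] v‖ < δ := by
      filter_upwards [hci.eventually (Metric.ball_mem_nhds _ hδ)] with x hx
      rwa [dist_eq_norm] at hx
    have e3 : ∀ᶠ w in 𝓝 v, w ∈ Metric.ball (X.χ X.m0) r1 ∧ w ≠ X.χ X.m0 := by
      filter_upwards [Metric.isOpen_ball.mem_nhds hv, isOpen_ne.mem_nhds hv0'] with w a1 a2
        using ⟨a1, a2⟩
    rcases hl with hl | hl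
    · left
      filter_upwards [e1, e2, e3] with w a1 a2 a3
      exact hl _ _ a1 a2 (fix_iter (hfx w a3.1 a3.2) i)
    · right
      filter_upwards [e1, e2, e3] with w a1 a2 a3
      exact hl _ _ a1 a2 (fix_iter (hfx w a3.1 a3.2) i)
  -- the point over the left half plane
  obtain ⟨d1, hd1, hsurj⟩ := hB.surj
  obtain ⟨d2, hd2, hprop⟩ := hB.prop r1 hr1
  obtain ⟨d3, hd3, hnr⟩ := hNR0 X hX R r g L hB
  obtain ⟨s, hs, hs'⟩ : ∃ s : ℝ, 0 < s ∧ s < min d1 (min d2 (min d3 X.ρ)) :=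
    exists_between (lt_min hd1 (lt_min hd2 (lt_min hd3 h.hρ)))
  have hsd : ‖(X.m0 - (s : ℂ)) - X.m0‖ = s := by
    rw [sub_sub_cancel_left, norm_neg, norm_real, Real.norm_eq_abs, abs_of_pos hs]
  have hsne : X.m0 - (s : ℂ) ≠ X.m0 := by
    intro hc
    have h1 : (s : ℂ) = 0 := by linear_combination -hc
    exact hs.ne' (by exact_mod_cast h1)
  obtain ⟨y, hy, hy0, hgy⟩ := hsurj (X.m0 - (s : ℂ)) hsne
    (by rw [hsd]; exact lt_of_lt_of_le hs' (min_le_left _ _))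
  have hy1 : y ∈ Metric.ball (X.χ X.m0) r1 := by
    refine mem_ball_iff_norm.mpr (hprop y hy ?_)
    rw [hgy, hsd]
    exact lt_of_lt_of_le hs' ((min_le_right _ _).trans (min_le_left _ _))
  have hre : (g y).re = -s := by
    rw [hgy, sub_re, m0_re, ofReal_re, zero_sub]
  have hgyb : g y ∈ Metric.ball X.m0 (2 * X.ρ) := hg2 y hy
  have hfy : X.Fx (g y) y := (hB.pt y hy hy0).fix
  have hMM : X.ψ (g y) ∈ MM 2 := h.mm_of_re hgyb (by rw [hre]; linarith)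
  have hSy : Sb X (g y) y := by
    refine (hnr (g y) y ?_ ?_ hfy).mpr ⟨y, hy, hy0, rfl, 0, rfl⟩
    · rw [hgy]
      exact hsne
    · rw [hgy, hsd]
      exact lt_of_lt_of_le hs' ((min_le_right _ _).trans ((min_le_right _ _).trans
        (min_le_left _ _)))
  have hnV : g y ∉ X.V := by
    intro hc
    have h1 := hc.2.1
    rw [hre] at h1
    linarith
  obtain ⟨hrep, i', hland⟩ : 1 < ‖X.rh (g y) y‖ ∧
      ∃ i' : ℕ, Lands X.Λ (X.ψ (g y)) (2 ^ i' * X.a) y := by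
    obtain ⟨-, -, h1 | h1 | h1 | h1⟩ := hSy
    · exact absurd hMM h1.1
    · exact h1.2.2
    · exact absurd h1.2.1 hnV
    · exact absurd h1.2.1 hnV
  -- the label
  have hmy : X.ψ (m y) = X.ψ (g y) := hψm y hy1
  have hmV : m y ∈ X.V := hV (hr1' y hy1).2.2.2
  have hrm : ‖X.rh (m y) ((F 2 (X.ψ (m y)))^[i] y)‖ = ‖X.rh (g y) y‖ := by
    unfold Ctx.rh
    rw [hmy, rho_iter hfy]
  obtain ⟨j, hlab⟩ : ∃ j : ℕ, LabR 2 X.K X.Λ X.lh (X.ψ (m y))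
      ((F 2 (X.ψ (m y)))^[j] ((F 2 (X.ψ (m y)))^[i] y)) X.l := by
    obtain ⟨-, -, h1 | h1 | h1 | h1⟩ := hconst y hy1 hy0
    · rw [hmy] at h1
      exact absurd hMM h1.1
    · exact absurd hmV h1.2.1
    · exact h1.2.2.2
    · rw [hrm] at h1
      exact absurd h1.2.2.1 (not_le.mpr hrep)
  rw [hmy, ← Function.iterate_add_apply] at hlab
  have hfj : (F 2 (X.ψ (g y)))^[X.K] ((F 2 (X.ψ (g y)))^[j + i] y) =
    (F 2 (X.ψ (g y)))^[j + i] y := fix_iter hfy _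
  have hRj : 1 < ‖Rho 2 X.K (X.ψ (g y)) ((F 2 (X.ψ (g y)))^[j + i] y)‖ := by
    rw [rho_iter hfy]
    exact hrep
  have hnot := (Pool.Agent.PLim.a_LU 2 X.K X.Λ X.lh X.ls (X.ψ (g y)) _ le_rfl h.hK1 h.bot h.log
    hfj hRj).2.2 X.l hlab
  have hl2 := (hINZ X.K X.Λ X.lh (X.ψ (g y)) y (2 ^ i' * X.a) h.hK1 h.bot hMM hland).1 (j + i)
  refine hnot ((hINZ X.K X.Λ X.lh (X.ψ (g y)) _ _ h.hK1 h.bot hMM hl2).2 ?_ hfj hRj)
  obtain ⟨n, hn⟩ := hX.cmb.aK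
  refine ⟨2 ^ (j + i) * 2 ^ i' * n, ?_⟩
  push_cast
  rw [← hn]
  unfold Ctx.K
  ring

end MPV_

theorem p_MPV (hMPL : T_MPL) (hSBL : T_SBL) (hNFN : T_NFN) (hVPR : T_VPR) (hNR0 : T_NR0)
    (hCLR : T_CLR) (hUCN : T_UCN) (hLBC : T_LBC) (hINZ : T_INZ) : T_MPV := by
  intro X hX μ1 z1 hμ1 hfx hrh
  have h := hX.dt
  have hb1 : μ1 ∈ Metric.ball X.m0 X.ρ := B_sub _ hμ1
  have hM1 : X.ψ μ1 ∈ MM 2 := by
    refine mm_of_le h.hK1 h.bot hfx ?_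
    have h1 : Rho 2 X.K (X.ψ μ1) z1 = 1 := hrh
    rw [h1, norm_one]
  obtain ⟨d1, hd1, hNF⟩ := hNFN X.toCtx h μ1 hb1
  obtain ⟨d2, hd2, hB2⟩ := Metric.isOpen_iff.mp h.B_isOpen μ1 hμ1
  -- the case of repelling points
  have hA : ∀ d3 : ℝ, 0 < d3 → (∀ μ z : ℂ, μ ≠ μ1 → ‖μ - μ1‖ < d3 → ‖z - z1‖ < d3 → X.Fx μ z →
      Sb X μ z → 1 < ‖X.rh μ z‖) → ∃ δ : ℝ, 0 < δ ∧ ∀ μ z : ℂ, μ ≠ μ1 → ‖μ - μ1‖ < δ →
      ‖z - z1‖ < δ → X.Fx μ z → ¬ Sb X μ z := by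
    intro d3 hd3 hrep
    refine hMPL X.toCtx h (Sb X) μ1 z1 (min d1 (min d2 d3)) hb1 hfx hrh
      (lt_min hd1 (lt_min hd2 hd3)) ?_
    intro μ z hne h1 h2 h3
    have a1 : ‖μ - μ1‖ < d1 := lt_of_lt_of_le h1 (min_le_left _ _)
    have a2 : ‖μ - μ1‖ < d2 := lt_of_lt_of_le h1 ((min_le_right _ _).trans (min_le_left _ _))
    have a3 : ‖μ - μ1‖ < d3 := lt_of_lt_of_le h1 ((min_le_right _ _).trans (min_le_right _ _))
    have a4 : ‖z - z1‖ < d3 := lt_of_lt_of_le h2 ((min_le_right _ _).trans (min_le_right _ _))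
    have hnf := hNF μ hne a1
    exact ⟨hnf z h3, hSBL X hX μ z (hB2 (mem_ball_iff_norm.mpr a2)) hnf h3,
      hrep μ z hne a3 a4 h3⟩
  by_cases hV1 : μ1 ∈ X.V
  · by_contra hcon
    obtain ⟨d4, hd4, hV4⟩ := (hVPR X.toCtx h hX.cst).2.1 μ1 hV1 hM1
    -- there are nonrepelling points
    have hN : ∀ d : ℝ, 0 < d → ∃ μ z : ℂ, μ ≠ μ1 ∧ ‖μ - μ1‖ < d ∧ ‖z - z1‖ < d ∧ X.Fx μ z ∧
        Sb X μ z ∧ ‖X.rh μ z‖ ≤ 1 := by
      intro d hd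
      by_contra hno
      push Not at hno
      exact hcon (hA d hd fun μ z b1 b2 b3 b4 b5 => hno μ z b1 b2 b3 b4 b5)
    obtain ⟨R, r, g, L, -, -, hB⟩ := hLBC X.toCtx h 1 one_pos
    have hd0 : 0 < min d1 (min d2 d4) := lt_min hd1 (lt_min hd2 hd4)
    obtain ⟨μ, z, b1, b2, b3, b4, b5, b6⟩ := hN _ hd0
    have hC := MPV_.cl_in hX (hV4 (mem_ball_iff_norm.mpr (lt_of_lt_of_le b2
      ((min_le_right _ _).trans (min_le_right _ _))))) b5 b6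
    obtain ⟨c0, Ψ, Z, hG, -, -, -, hL⟩ := hC
    refine MPV_.core hSBL hNR0 hINZ hX hμ1 hd0 ?_ ?_ ?_ hB ?_
    · exact (Metric.ball_subset_ball ((min_le_right _ _).trans (min_le_right _ _))).trans hV4
    · exact (Metric.ball_subset_ball ((min_le_right _ _).trans (min_le_left _ _))).trans hB2
    · exact fun μ c1 c2 => hNF μ c1 (lt_of_lt_of_le c2 (min_le_left _ _))
    · intro e he
      obtain ⟨d5, hd5, hpts⟩ := MPV_.pts hCLR hX hB hG hL he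
      have hrc : Tendsto (fun x : ℂ × ℂ => X.rh x.1 x.2) (𝓝 (μ1, z1)) (𝓝 (X.rh μ1 z1)) :=
        h.rh_cont (h.sub2 hb1) z1
      rw [hrh] at hrc
      have hrc2 : ∀ᶠ x : ℂ × ℂ in 𝓝 (μ1, z1), ‖X.rh x.1 x.2 - 1‖ < d5 := by
        filter_upwards [hrc.eventually (Metric.ball_mem_nhds _ hd5)] with x hx
        rwa [dist_eq_norm] at hx
      obtain ⟨d6, hd6, hrc3⟩ := (near_iff (P := fun μ z => ‖X.rh μ z - 1‖ < d5)).mp hrc2
      obtain ⟨μ, z, b1, b2, b3, b4, b5, b6⟩ := hN (min (min e d6) (min d1 (min d2 d4)))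
        (lt_min (lt_min he hd6) hd0)
      have c1 : ‖μ - μ1‖ < e := lt_of_lt_of_le b2 ((min_le_left _ _).trans (min_le_left _ _))
      have c2 : ‖μ - μ1‖ < d6 := lt_of_lt_of_le b2 ((min_le_left _ _).trans (min_le_right _ _))
      have c3 : ‖z - z1‖ < d6 := lt_of_lt_of_le b3 ((min_le_left _ _).trans (min_le_right _ _))
      have c4 : ‖μ - μ1‖ < min d1 (min d2 d4) := lt_of_lt_of_le b2 (min_le_right _ _)
      have hC := MPV_.cl_in hX (hV4 (mem_ball_iff_norm.mpr (lt_of_lt_of_le c4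
        ((min_le_right _ _).trans (min_le_right _ _))))) b5 b6
      obtain ⟨e1, e2⟩ := MPV_.cl_same hUCN hX hG hL hC
      obtain ⟨z', f1, f2, f3, f4, f5, f6⟩ := hpts μ z (hrc3 μ z c2 c3) b6
        (hNF μ b1 (lt_of_lt_of_le c4 (min_le_left _ _)) z b4) e1 e2
      exact ⟨μ, z, z', b1, c1, b5, f1, f2, f3, f4, f5, f6⟩
  · obtain ⟨d3, hd3, h3⟩ := (hVPR X.toCtx h hX.cst).2.2 μ1 hμ1 hV1
    exact hA d3 hd3 fun μ z _ h1 _ _ h4 =>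
      MPV_.rep_out hX (h3 μ (mem_ball_iff_norm.mpr h1)) h4

end Pool.Agent.PSat
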