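import Pool.Agent.PSat.Targets
import Pool.Agent.PLim.FINF
import Pool.Agent.PLim.MP

/-!
# PSAT-NFN: multipliers one are isolated
-/

set_option autoImplicit false

open Complex Filter Topology Set

namespace Pool.Agent.PSat

namespace NFN_

lemma K1 {X : Ctx} (h : Dt X) : 1 ≤ X.K := by
  have h1 := h.hk
  have h2 := h.hpq
  have h3 := h.hp
  have h4 : 1 ≤ X.q := by omega
  exact Nat.mul_pos h1 h4

end NFN_

theorem p_NFN : T_NFN := by
  intro X hX μ1 hμ1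
  have hfin := Pool.Agent.PLim.p_FINF Pool.Agent.PLim.p_MP 2 X.K le_rfl (NFN_.K1 hX)
  set S : Set ℂ := {c : ℂ | ∃ z : ℂ, (Pool.Agent.Limb.F 2 c)^[X.K] z = z ∧
    Pool.Agent.PLim.Rho 2 X.K c z = 1} with hS
  have hρ := hX.hρ
  have hμ2 : μ1 ∈ Metric.ball X.m0 (2 * X.ρ) :=
    Metric.ball_subset_ball (by linarith) hμ1
  have hd : HasDerivAt X.ψ (deriv X.ψ μ1) μ1 :=
    (hX.dψ.differentiableAt (Metric.isOpen_ball.mem_nhds hμ2)).hasDerivAt
  have hne := hX.dn μ1 hμ2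
  have hev : ∀ᶠ μ in 𝓝[≠] μ1, ∀ s ∈ S, X.ψ μ ≠ s :=
    (Set.Finite.eventually_all hfin).2 fun s _ => hd.eventually_ne hne
  rw [eventually_nhdsWithin_iff, Metric.eventually_nhds_iff] at hev
  obtain ⟨δ, hδ, hall⟩ := hev
  refine ⟨δ, hδ, ?_⟩
  intro μ hμ hdist z hz hr
  have h1 := hall (y := μ) (by rw [dist_eq_norm]; exact hdist) hμ
  exact h1 (X.ψ μ) ⟨z, hz, hr⟩ rfl

end Pool.Agent.PSat
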