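import Pool.Agent.PSat.Basic

/-!
# PSAT, job NR0: near the root the points of `Sb` are those of the bifurcating cycle
-/

set_option autoImplicit false

open Complex Filter Topology Set
open Pool.Agent.Multibrot (MM)
open Pool.Agent.Limb (F)
open Pool.Agent.PLim (Rho IsBot IsLog Crit Dig Rot IsInt Label lab Ex Cod Per Lands InZ LabR
  ZVn ONTOn NCn OMXn SECTn LocFix)
open Pool.Agent.MEX (Exa)
open Pool.Agent.MEY (Pt Omg DD Glob)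

namespace Pool.Agent.PSat

namespace NR0_

/-- locally constant predicates on a preconnected set are constant -/
lemma const_of_loc {S : Set ℂ} (hS : IsPreconnected S) (P : ℂ → Prop)
    (hloc : ∀ x ∈ S, ∃ U ∈ 𝓝 x, (∀ y ∈ U ∩ S, P y) ∨ (∀ y ∈ U ∩ S, ¬ P y)) :
    (∀ x ∈ S, P x) ∨ ∀ x ∈ S, ¬ P x := by
  by_contra hcon
  push Not at hcon
  obtain ⟨⟨x, hx, hxP⟩, ⟨y, hy, hyP⟩⟩ := hcon
  choose! U hU1 hU2 using hloc
  let A : Set ℂ := ⋃ z ∈ {z | z ∈ S ∧ P z}, interior (U z)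
  let B : Set ℂ := ⋃ z ∈ {z | z ∈ S ∧ ¬ P z}, interior (U z)
  have hA : IsOpen A := isOpen_biUnion fun _ _ => isOpen_interior
  have hB : IsOpen B := isOpen_biUnion fun _ _ => isOpen_interior
  have hmem : ∀ z ∈ S, z ∈ interior (U z) := fun z hz => mem_interior_iff_mem_nhds.2 (hU1 z hz)
  have hsub : S ⊆ A ∪ B := by
    intro z hz
    by_cases hP : P z
    · exact Or.inl (mem_biUnion (show z ∈ {z | z ∈ S ∧ P z} from ⟨hz, hP⟩) (hmem z hz))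
    · exact Or.inr (mem_biUnion (show z ∈ {z | z ∈ S ∧ ¬ P z} from ⟨hz, hP⟩) (hmem z hz))
  obtain ⟨w, hwS, hwA, hwB⟩ := hS A B hA hB hsub
    ⟨y, hy, mem_biUnion (show y ∈ {z | z ∈ S ∧ P z} from ⟨hy, hyP⟩) (hmem y hy)⟩
    ⟨x, hx, mem_biUnion (show x ∈ {z | z ∈ S ∧ ¬ P z} from ⟨hx, hxP⟩) (hmem x hx)⟩
  simp only [A, B, mem_iUnion, mem_ofPred_eq] at hwA hwB
  obtain ⟨a, ⟨ha, haP⟩, haw⟩ := hwA
  obtain ⟨b, ⟨hb, hbP⟩, hbw⟩ := hwB
  have h1 : P w := by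
    rcases hU2 a ha with h | h
    · exact h w ⟨interior_subset haw, hwS⟩
    · exact absurd haP (h a ⟨mem_of_mem_nhds (hU1 a ha), ha⟩)
  have h2 : ¬ P w := by
    rcases hU2 b hb with h | h
    · exact absurd (h b ⟨mem_of_mem_nhds (hU1 b hb), hb⟩) hbP
    · exact h w ⟨interior_subset hbw, hwS⟩
  exact h2 h1

variable {X : Full}

lemma sbi_iter (hSBI : T_SBI) (hX : Ok X) {μ z : ℂ} (hμ : μ ∈ X.B) (hz : X.Fx μ z) (j : ℕ) :
    Sb X μ z ↔ Sb X μ ((F 2 (X.ψ μ))^[j] z) := by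
  induction j with
  | zero => rfl
  | succ j ih =>
    rw [ih, Function.iterate_succ_apply']
    exact hSBI X hX μ _ hμ (fix_iter hz j)

/-- the orbit of `χ μ` is not exact -/
lemma not_sb_chi (hX : Ok X) {μ : ℂ} (hμ : μ ∈ Metric.ball X.m0 X.ρ) (j : ℕ) :
    ¬ Exa 2 X.K (X.ψ μ) ((F 2 (X.ψ μ))^[j] (X.χ μ)) := by
  intro h
  have hpt := hX.dt.pt μ (hX.dt.sub2 hμ)
  have hk := hX.dt.hk
  have hq := hX.dt.hq
  refine h X.k hk ?_ (fix_iter hpt.fix j)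
  calc X.k = X.k * 1 := (Nat.mul_one _).symm
    _ < X.k * X.q := Nat.mul_lt_mul_of_pos_left (by omega) hk

/-- the digit determines its index modulo two -/
lemma dig_mod {lh : ℂ → ℂ → ℂ → ℂ} {c ζ z : ℂ} {i j : ℤ} (hi : Dig 2 lh c ζ z i)
    (hj : Dig 2 lh c ζ z j) : (2 : ℤ) ∣ i - j := by
  unfold Dig Pool.Agent.PLim.br at hi hj
  have h := hi.trans hj.symm
  rw [Complex.exp_eq_exp_iff_exists_int] at h
  obtain ⟨n, hn⟩ := h
  refine ⟨n, ?_⟩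
  have hpi : (2 * Real.pi * I : ℂ) ≠ 0 := Complex.two_pi_I_ne_zero
  have h1 : (2 * Real.pi * I : ℂ) * ((i : ℂ) - j) = (2 * Real.pi * I) * (2 * n) := by
    have h2 : (((2 : ℕ) : ℂ)) = 2 := by norm_num
    rw [h2] at hn
    linear_combination 2 * hn
  have h3 := mul_left_cancel₀ hpi h1
  exact_mod_cast h3

/-- outside `V` and inside the Mandelbrot set all the points are endpoints of rays of period `K` -/
lemma inz_left (hINZ : T_INZ) (hX : Ok X) {μ z : ℂ} (hz : X.Fx μ z) (hM : X.ψ μ ∈ MM 2)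
    (hV : μ ∉ X.V) (hS : Sb X μ z) (j : ℕ) :
    1 < ‖X.rh μ z‖ ∧ InZ 2 X.K X.Λ X.lh (X.ψ μ) ((F 2 (X.ψ μ))^[j] z) := by
  obtain ⟨-, -, h | h | h | h⟩ := hS
  · exact absurd hM h.1
  · obtain ⟨-, -, h1, i, hi⟩ := h
    refine ⟨h1, ?_⟩
    obtain ⟨h2, -⟩ := hINZ X.K X.Λ X.lh (X.ψ μ) z (2 ^ i * X.a) hX.dt.hK1 hX.dt.bot hM hi
    obtain ⟨-, h3⟩ := hINZ X.K X.Λ X.lh (X.ψ μ) _ _ hX.dt.hK1 hX.dt.bot hM (h2 j)
    refine h3 ((hX.cmb.aK.pow i).pow j) (fix_iter hz j) ?_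
    rw [rho_iter hz]
    exact h1
  · exact absurd h.2.1 hV
  · exact absurd h.2.1 hV

/-- in `V`, repelling -/
lemma lab_right (_hX : Ok X) {μ z : ℂ} (hM : X.ψ μ ∈ MM 2) (hV : μ ∈ X.V)
    (hr : 1 < ‖X.rh μ z‖) (hS : Sb X μ z) :
    ∃ j : ℕ, LabR 2 X.K X.Λ X.lh (X.ψ μ) ((F 2 (X.ψ μ))^[j] z) X.l := by
  obtain ⟨-, -, h | h | h | h⟩ := hS
  · exact absurd hM h.1
  · exact absurd hV h.2.1
  · exact h.2.2.2
  · exact absurd hr (not_lt.mpr h.2.2.1)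

lemma mem_B_of {X : Ctx} {μ : ℂ} (h0 : μ ≠ X.m0) (h1 : ‖μ - X.m0‖ < X.ρ) : μ ∈ X.B :=
  ⟨mem_ball_iff_norm.2 h1, h0⟩

/-- (c): the repelling points at the root which are not in the cycle of `χ` -/
lemma away (hLU : Pool.Agent.PLim.T_LU) (hLOP : Pool.Agent.PLim.T_LOP)
    (hZOP : Pool.Agent.PLim.T_ZOP) (hSBL : T_SBL) (hNFN : T_NFN) (hVPS : T_VPS) (hINZ : T_INZ)
    (hX : Ok X) {e0 : ℂ} (he0 : X.Fx X.m0 e0) (hr0 : 1 < ‖X.rh X.m0 e0‖) :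
    ∃ δ r : ℝ, 0 < δ ∧ 0 < r ∧ ∀ μ z : ℂ, μ ≠ X.m0 → ‖μ - X.m0‖ < δ → ‖z - e0‖ < r →
      X.Fx μ z → ¬ Sb X μ z := by
  have hd := hX.dt
  have hne : X.rh X.m0 e0 ≠ 1 := by
    intro h
    rw [h] at hr0
    simp at hr0
  obtain ⟨δN, hδN, hN⟩ := hNFN X.toCtx hd X.m0 hd.mem0
  obtain ⟨δ, r, f, hδ, -, hr, -, hsub, hdf, hf0, hf1, hf2, -⟩ :=
    hd.locfix hd.mem0 he0 hne (e := 1) one_pos
  have hcf : ContinuousAt f X.m0 :=
    (hdf.differentiableAt (Metric.isOpen_ball.mem_nhds (Metric.mem_ball_self hδ))).continuousAt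
  -- the punctured disc
  set δ1 := min δ δN with hδ1
  have hδ1p : 0 < δ1 := lt_min hδ hδN
  have hconst := const_of_loc (punct_conn X.m0 δ1) (fun μ => Sb X μ (f μ)) (by
    intro μ1 hμ1
    have hb1 : μ1 ∈ Metric.ball X.m0 δ := Metric.ball_subset_ball (min_le_left _ _) hμ1.1
    have hb2 : ‖μ1 - X.m0‖ < δN :=
      lt_of_lt_of_le (mem_ball_iff_norm.1 hμ1.1) (min_le_right _ _)
    have hB : μ1 ∈ X.B := ⟨hsub hb1, hμ1.2⟩
    obtain ⟨η, hη, hη'⟩ := hSBL X hX μ1 (f μ1) hB (hN μ1 hμ1.2 hb2) (hf1 μ1 hb1).2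
    have hcf1 : ContinuousAt f μ1 :=
      (hdf.differentiableAt (Metric.isOpen_ball.mem_nhds hb1)).continuousAt
    have hU : {μ | ‖μ - μ1‖ < η ∧ ‖f μ - f μ1‖ < η} ∈ 𝓝 μ1 := by
      have h1 : ∀ᶠ μ in 𝓝 μ1, μ ∈ Metric.ball μ1 η := Metric.ball_mem_nhds _ hη
      have h2 : ∀ᶠ μ in 𝓝 μ1, f μ ∈ Metric.ball (f μ1) η :=
        hcf1.eventually (Metric.ball_mem_nhds _ hη)
      filter_upwards [h1, h2] with μ h3 h4
      exact ⟨mem_ball_iff_norm.1 h3, mem_ball_iff_norm.1 h4⟩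
    refine ⟨_, hU, ?_⟩
    rcases hη' with h | h
    · refine Or.inl fun μ hμ => h μ (f μ) hμ.1.1 hμ.1.2 (hf1 μ ?_).2
      exact Metric.ball_subset_ball (min_le_left _ _) hμ.2.1
    · refine Or.inr fun μ hμ => h μ (f μ) hμ.1.1 hμ.1.2 (hf1 μ ?_).2
      exact Metric.ball_subset_ball (min_le_left _ _) hμ.2.1)
  have hfalse : ∀ μ ∈ Metric.ball X.m0 δ1 \ {X.m0}, ¬ Sb X μ (f μ) := by
    rcases hconst with htrue | h
    swap
    · exact h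
    exfalso
    have hM0 : X.ψ X.m0 ∈ MM 2 := hd.mm_of_re (hd.sub2 hd.mem0) (by rw [m0_re])
    -- the alternative at the root, for every iterate
    have halt : ∀ j : ℕ, (∀ᶠ x : ℂ × ℂ in 𝓝 (X.m0, e0), X.Fx x.1 x.2 →
        InZ 2 X.K X.Λ X.lh (X.ψ x.1) ((F 2 (X.ψ x.1))^[j] x.2)) ∨
        (∀ᶠ x : ℂ × ℂ in 𝓝 (X.m0, e0), X.Fx x.1 x.2 → 1 < ‖X.rh x.1 x.2‖ →
        ¬ InZ 2 X.K X.Λ X.lh (X.ψ x.1) ((F 2 (X.ψ x.1))^[j] x.2)) := by
      intro j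
      have hfj : (F 2 (X.ψ X.m0))^[X.K] ((F 2 (X.ψ X.m0))^[j] e0) = (F 2 (X.ψ X.m0))^[j] e0 :=
        fix_iter he0 j
      have hrj : 1 < ‖Rho 2 X.K (X.ψ X.m0) ((F 2 (X.ψ X.m0))^[j] e0)‖ := by
        rw [rho_iter he0]; exact hr0
      have hc1 := hd.iter_cont (hd.sub2 hd.mem0) e0 j
      have hc2 : ContinuousAt (fun x : ℂ × ℂ => X.ψ x.1) (X.m0, e0) :=
        ContinuousAt.comp (f := fun x : ℂ × ℂ => x.1) (g := X.ψ)
          (hd.psi_cont (hd.sub2 hd.mem0)) continuous_fst.continuousAt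
      by_cases hz : InZ 2 X.K X.Λ X.lh (X.ψ X.m0) ((F 2 (X.ψ X.m0))^[j] e0)
      · left
        obtain ⟨η, hη, hη'⟩ := hZOP 2 X.K X.Λ X.lh X.ls (X.ψ X.m0) _ le_rfl hd.hK1 hd.bot hd.log
          hM0 hfj hrj hz
        filter_upwards [hc1.eventually (Metric.ball_mem_nhds _ hη),
          hc2.eventually (Metric.ball_mem_nhds _ hη)] with x h1 h2 h3
        exact hη' _ _ (mem_ball_iff_norm.1 h2) (mem_ball_iff_norm.1 h1) (fix_iter h3 j)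
      · right
        obtain ⟨l', hl'⟩ := (hLU 2 X.K X.Λ X.lh X.ls (X.ψ X.m0) _ le_rfl hd.hK1 hd.bot hd.log
          hfj hrj).1 hz
        obtain ⟨η, hη, hη'⟩ := hLOP 2 X.K X.Λ X.lh X.ls (X.ψ X.m0) _ l' le_rfl hd.hK1 hd.bot
          hd.log hfj hrj hl'
        filter_upwards [hc1.eventually (Metric.ball_mem_nhds _ hη),
          hc2.eventually (Metric.ball_mem_nhds _ hη)] with x h1 h2 h3 h4
        have h5 := hη' _ _ (mem_ball_iff_norm.1 h2) (mem_ball_iff_norm.1 h1) (fix_iter h3 j)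
        refine (hLU 2 X.K X.Λ X.lh X.ls (X.ψ x.1) _ le_rfl hd.hK1 hd.bot hd.log
          (fix_iter h3 j) ?_).2.2 l' h5
        rw [rho_iter h3]; exact h4
    -- continuity along `f`
    have hcf' : ContinuousAt (fun μ => (μ, f μ)) X.m0 := continuousAt_id.prodMk hcf
    have hT : Tendsto (fun μ => (μ, f μ)) (𝓝 X.m0) (𝓝 (X.m0, e0)) := by
      have := hcf'.tendsto
      rwa [hf0] at this
    have hrep : ∀ᶠ μ in 𝓝 X.m0, 1 < ‖X.rh μ (f μ)‖ := by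
      have h1 := (hd.rh_cont (hd.sub2 hd.mem0) e0).norm.tendsto.comp hT
      exact h1.eventually (lt_mem_nhds hr0)
    have hball : ∀ᶠ μ in 𝓝 X.m0, μ ∈ Metric.ball X.m0 δ1 := Metric.ball_mem_nhds _ hδ1p
    -- the real points near the root
    have hleft : Tendsto (fun s : ℝ => X.m0 - (s : ℂ)) (𝓝[>] 0) (𝓝 X.m0) := by
      have h1 : Tendsto (fun s : ℝ => X.m0 - (s : ℂ)) (𝓝 0) (𝓝 (X.m0 - ((0 : ℝ) : ℂ))) :=
        (continuous_const.sub Complex.continuous_ofReal).tendsto 0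
      rw [ofReal_zero, sub_zero] at h1
      exact h1.mono_left nhdsWithin_le_nhds
    have hright : Tendsto (fun s : ℝ => X.m0 + (s : ℂ)) (𝓝[>] 0) (𝓝 X.m0) := by
      have h1 : Tendsto (fun s : ℝ => X.m0 + (s : ℂ)) (𝓝 0) (𝓝 (X.m0 + ((0 : ℝ) : ℂ))) :=
        (continuous_const.add Complex.continuous_ofReal).tendsto 0
      rw [ofReal_zero, add_zero] at h1
      exact h1.mono_left nhdsWithin_le_nhds
    have hpos : ∀ᶠ s : ℝ in 𝓝[>] 0, 0 < s := eventually_mem_nhdsWithin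
    -- no iterate has a label at the root
    have hall : ∀ j : ℕ, ∀ᶠ x : ℂ × ℂ in 𝓝 (X.m0, e0), X.Fx x.1 x.2 →
        InZ 2 X.K X.Λ X.lh (X.ψ x.1) ((F 2 (X.ψ x.1))^[j] x.2) := by
      intro j
      rcases halt j with h | h
      · exact h
      exfalso
      have h1 := hleft.eventually (hT.eventually h)
      have h2 := hleft.eventually hrep
      have h3 := hleft.eventually hball
      obtain ⟨s, h4, h5, h6, h7⟩ := (h1.and (h2.and (h3.and hpos))).exists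
      have hre : (X.m0 - (s : ℂ)).re ≤ 0 := by
        rw [sub_re, m0_re, ofReal_re]; linarith
      have hne' : X.m0 - (s : ℂ) ≠ X.m0 := by
        intro h8
        have : (s : ℂ) = 0 := by linear_combination -h8
        rw [ofReal_eq_zero] at this
        linarith
      have hbδ : X.m0 - (s : ℂ) ∈ Metric.ball X.m0 δ :=
        Metric.ball_subset_ball (min_le_left _ _) h6
      have hM : X.ψ (X.m0 - s) ∈ MM 2 := hd.mm_of_re (hd.sub2 (hsub hbδ)) hre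
      have hV : X.m0 - (s : ℂ) ∉ X.V := fun hV => not_lt.mpr hre hV.2.1
      have hfx := (hf1 _ hbδ).2
      have h9 := (inz_left hINZ hX hfx hM hV (htrue _ ⟨h6, hne'⟩) j).2
      exact h4 hfx h5 h9
    obtain ⟨s0, hs0, hs0'⟩ := hVPS X.toCtx hd hX.cst
    have hsmall : ∀ᶠ s : ℝ in 𝓝[>] 0, s < s0 := by
      have : ∀ᶠ s : ℝ in 𝓝 0, s < s0 := gt_mem_nhds hs0
      exact this.filter_mono nhdsWithin_le_nhds
    have hall' : ∀ᶠ x : ℂ × ℂ in 𝓝 (X.m0, e0), ∀ j ∈ Finset.range X.K, X.Fx x.1 x.2 →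
        InZ 2 X.K X.Λ X.lh (X.ψ x.1) ((F 2 (X.ψ x.1))^[j] x.2) :=
      (Finset.eventually_all (Finset.range X.K)).2 fun j _ => hall j
    obtain ⟨s, h4, h5, h6, h7, h8⟩ := ((hright.eventually (hT.eventually hall')).and
      ((hright.eventually hrep).and ((hright.eventually hball).and (hpos.and hsmall)))).exists
    obtain ⟨hV, hM⟩ := hs0' s h7 h8
    have hne' : X.m0 + (s : ℂ) ≠ X.m0 := by
      intro h9
      have : (s : ℂ) = 0 := by linear_combination h9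
      rw [ofReal_eq_zero] at this
      linarith
    have hfx := (hf1 _ (Metric.ball_subset_ball (min_le_left _ _) h6)).2
    obtain ⟨j, hj⟩ := lab_right hX hM hV h5 (htrue _ ⟨h6, hne'⟩)
    rw [← fix_mod hfx j] at hj
    have h10 := h4 (j % X.K) (Finset.mem_range.2 (Nat.mod_lt _ hd.hK1)) hfx
    refine (hLU 2 X.K X.Λ X.lh X.ls (X.ψ (X.m0 + s)) _ le_rfl hd.hK1 hd.bot hd.log
      (fix_iter hfx _) ?_).2.2 X.l hj h10
    rw [rho_iter hfx]; exact h5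
  refine ⟨δ1, r, hδ1p, hr, fun μ z h1 h2 h3 h4 => ?_⟩
  have hb : μ ∈ Metric.ball X.m0 δ1 := mem_ball_iff_norm.2 h2
  have h5 := hf2 μ (Metric.ball_subset_ball (min_le_left _ _) hb) z (mem_ball_iff_norm.2 h3) h4
  rw [h5]
  exact hfalse μ ⟨hb, h1⟩

/-- (d): a `K`-fixed point near the cycle of `χ m0` -/
lemma near_cycle (hX : Ok X) {R r : ℝ} {g L : ℂ → ℂ} (hB : Bif X.toCtx R r g L) (j : ℕ)
    (hj : j < X.K) {r1 : ℝ} (hr1 : 0 < r1) :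
    ∃ δ r' : ℝ, 0 < δ ∧ 0 < r' ∧ ∀ μ z : ℂ, ‖μ - X.m0‖ < δ →
      ‖z - (F 2 (X.ψ X.m0))^[j] (X.χ X.m0)‖ < r' → X.Fx μ z →
      ∃ i : ℕ, (F 2 (X.ψ μ))^[i] z = X.χ μ ∨ ((F 2 (X.ψ μ))^[i] z ∈ Metric.ball (X.χ X.m0) r ∧
        ‖(F 2 (X.ψ μ))^[i] z - X.χ X.m0‖ < r1 ∧
        (F 2 (X.ψ μ))^[i] z ≠ X.χ X.m0 ∧ g ((F 2 (X.ψ μ))^[i] z) = μ) := by
  have hd := hX.dt
  obtain ⟨δu, hδu, hu⟩ := hB.uq
  have hfx0 : X.Fx X.m0 (X.χ X.m0) := hd.fx_chi (hd.sub2 hd.mem0)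
  have hc := hd.iter_cont (hd.sub2 hd.mem0) ((F 2 (X.ψ X.m0))^[j] (X.χ X.m0)) (X.K - j)
  have hval : (F 2 (X.ψ X.m0))^[X.K - j] ((F 2 (X.ψ X.m0))^[j] (X.χ X.m0)) = X.χ X.m0 := by
    rw [← Function.iterate_add_apply, Nat.sub_add_cancel hj.le]
    exact hfx0
  have hc' := hc.tendsto
  simp only at hc'
  rw [hval] at hc'
  have h1 := hc'.eventually (Metric.ball_mem_nhds _ (lt_min hδu hr1))
  obtain ⟨δ, hδ, h2⟩ := (near_iff (P := fun μ z => (F 2 (X.ψ μ))^[X.K - j] z ∈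
    Metric.ball (X.χ X.m0) (min δu r1))).1 h1
  refine ⟨min δ δu, δ, lt_min hδ hδu, hδ, fun μ z h3 h4 h5 => ⟨X.K - j, ?_⟩⟩
  have h6 := mem_ball_iff_norm.1 (h2 μ z (lt_of_lt_of_le h3 (min_le_left _ _)) h4)
  rcases hu μ _ (lt_of_lt_of_le h3 (min_le_right _ _))
    (lt_of_lt_of_le h6 (min_le_left _ _)) (fix_iter h5 _) with h7 | h7
  · exact Or.inl h7
  · exact Or.inr ⟨h7.1, lt_of_lt_of_le h6 (min_le_right _ _), h7.2.1, h7.2.2⟩

/-- the fixed points at the root are finite in number -/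
lemma fix_finite {K : ℕ} (hK : 1 ≤ K) (c : ℂ) : {z : ℂ | (F 2 c)^[K] z = z}.Finite := by
  have hpoly : ∀ j : ℕ, ∃ p : Polynomial ℂ, p.natDegree = 2 ^ j ∧ p.Monic ∧
      ∀ z : ℂ, p.eval z = (F 2 c)^[j] z := by
    intro j
    induction j with
    | zero =>
      refine ⟨Polynomial.X, ?_, Polynomial.monic_X, ?_⟩
      · simp
      · intro z; simp
    | succ j ih =>
      obtain ⟨p, hp1, hp2, hp3⟩ := ih
      have h1 : (p ^ 2).natDegree = 2 ^ (j + 1) := by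
        rw [Polynomial.natDegree_pow, hp1]; ring
      refine ⟨p ^ 2 + Polynomial.C c, ?_, ?_, ?_⟩
      · rw [Polynomial.natDegree_add_C, h1]
      · refine (hp2.pow 2).add_of_left (lt_of_le_of_lt Polynomial.degree_C_le ?_)
        refine Polynomial.natDegree_pos_iff_degree_pos.1 ?_
        rw [h1]
        positivity
      · intro z
        rw [Function.iterate_succ_apply', Polynomial.eval_add, Polynomial.eval_pow, hp3,
          Polynomial.eval_C]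
        rfl
  obtain ⟨p, hp1, hp2, hp3⟩ := hpoly K
  have hne : p - Polynomial.X ≠ 0 := by
    intro h0
    have h1 : p = Polynomial.X := sub_eq_zero.1 h0
    rw [h1, Polynomial.natDegree_X] at hp1
    have : 2 ≤ 2 ^ K := by
      calc 2 = 2 ^ 1 := rfl
        _ ≤ 2 ^ K := Nat.pow_le_pow_right (by norm_num) hK
    omega
  refine (p - Polynomial.X).roots.toFinset.finite_toSet.subset fun z hz => ?_
  simp only [Finset.mem_coe, Multiset.mem_toFinset]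
  rw [Polynomial.mem_roots hne, Polynomial.IsRoot, Polynomial.eval_sub, hp3, Polynomial.eval_X]
  exact sub_eq_zero.2 hz

/-- (a), (c), (d) together -/
lemma sb_sub (hLU : Pool.Agent.PLim.T_LU) (hLOP : Pool.Agent.PLim.T_LOP)
    (hZOP : Pool.Agent.PLim.T_ZOP) (hSBL : T_SBL) (hSBI : T_SBI) (hKFC : T_KFC) (hNFN : T_NFN)
    (hRP0 : T_RP0) (hVPS : T_VPS) (hINZ : T_INZ) (hX : Ok X) {R r : ℝ} {g L : ℂ → ℂ}
    (hB : Bif X.toCtx R r g L) {r1 : ℝ} (hr1 : 0 < r1) :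
    ∃ δ : ℝ, 0 < δ ∧ ∀ μ z : ℂ, μ ≠ X.m0 → ‖μ - X.m0‖ < δ → X.Fx μ z → Sb X μ z →
      ∃ i : ℕ, (F 2 (X.ψ μ))^[i] z ∈ Metric.ball (X.χ X.m0) r ∧
        ‖(F 2 (X.ψ μ))^[i] z - X.χ X.m0‖ < r1 ∧
        (F 2 (X.ψ μ))^[i] z ≠ X.χ X.m0 ∧ g ((F 2 (X.ψ μ))^[i] z) = μ := by
  have hd := hX.dt
  have hfx0 : X.Fx X.m0 (X.χ X.m0) := hd.fx_chi (hd.sub2 hd.mem0)
  -- for each fixed point at the root
  have key : ∀ e0 : ℂ, X.Fx X.m0 e0 → ∃ δ r' : ℝ, 0 < δ ∧ 0 < r' ∧ ∀ μ z : ℂ, μ ≠ X.m0 →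
      ‖μ - X.m0‖ < δ → ‖z - e0‖ < r' → X.Fx μ z → Sb X μ z →
      ∃ i : ℕ, (F 2 (X.ψ μ))^[i] z ∈ Metric.ball (X.χ X.m0) r ∧
        ‖(F 2 (X.ψ μ))^[i] z - X.χ X.m0‖ < r1 ∧
        (F 2 (X.ψ μ))^[i] z ≠ X.χ X.m0 ∧ g ((F 2 (X.ψ μ))^[i] z) = μ := by
    intro e0 he0
    rcases hRP0 X.toCtx hd R r g L hB e0 he0 with ⟨j, hj⟩ | hrep
    · have hj' : (F 2 (X.ψ X.m0))^[j % X.K] (X.χ X.m0) = e0 := by rw [fix_mod hfx0, hj]
      obtain ⟨δ, r', hδ, hr', h1⟩ := near_cycle hX hB (j % X.K) (Nat.mod_lt _ hd.hK1) hr1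
      refine ⟨min δ X.ρ, r', lt_min hδ hd.hρ, hr', fun μ z h2 h3 h4 h5 h6 => ?_⟩
      rw [← hj'] at h4
      obtain ⟨i, h7⟩ := h1 μ z (lt_of_lt_of_le h3 (min_le_left _ _)) h4 h5
      refine ⟨i, h7.resolve_left fun h8 => ?_⟩
      have hμB : μ ∈ X.B := mem_B_of h2 (lt_of_lt_of_le h3 (min_le_right _ _))
      have h9 := (sbi_iter hSBI hX hμB h5 i).1 h6
      rw [h8] at h9
      exact not_sb_chi hX hμB.1 0 h9.2.1
    · obtain ⟨δ, r', hδ, hr', h1⟩ := away hLU hLOP hZOP hSBL hNFN hVPS hINZ hX he0 hrep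
      exact ⟨δ, r', hδ, hr', fun μ z h2 h3 h4 h5 h6 => absurd h6 (h1 μ z h2 h3 h4 h5)⟩
  choose! dl rr hdl hrr hkey using key
  have hfin : {z : ℂ | X.Fx X.m0 z}.Finite := fix_finite hd.hK1 _
  -- a common radius
  have hcom : ∃ e : ℝ, 0 < e ∧ ∀ e0 : ℂ, X.Fx X.m0 e0 → e ≤ dl e0 ∧ e ≤ rr e0 := by
    have h1 : ∀ᶠ e : ℝ in 𝓝[>] 0, ∀ e0 ∈ {z : ℂ | X.Fx X.m0 z}, e ≤ dl e0 ∧ e ≤ rr e0 := by
      rw [Filter.eventually_all_finite hfin]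
      intro e0 he0
      have h2 : ∀ᶠ e : ℝ in 𝓝 0, e < min (dl e0) (rr e0) :=
        gt_mem_nhds (lt_min (hdl e0 he0) (hrr e0 he0))
      filter_upwards [h2.filter_mono nhdsWithin_le_nhds] with e he
      exact ⟨(he.trans_le (min_le_left _ _)).le, (he.trans_le (min_le_right _ _)).le⟩
    obtain ⟨e, h2, h3⟩ := (h1.and eventually_mem_nhdsWithin).exists
    exact ⟨e, h3, fun e0 he0 => h2 e0 he0⟩
  obtain ⟨e, he, he'⟩ := hcom
  obtain ⟨δK, hδK, hK⟩ := hKFC X.toCtx hd X.m0 hd.mem0 e he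
  refine ⟨min δK e, lt_min hδK he, fun μ z h1 h2 h3 h4 => ?_⟩
  obtain ⟨e0, he0, h5⟩ := hK μ z (lt_of_lt_of_le h2 (min_le_left _ _)) h3
  exact hkey e0 he0 μ z h1 (lt_of_lt_of_le h2 ((min_le_right _ _).trans (he' e0 he0).1))
    (lt_of_lt_of_le h5 (he' e0 he0).2) h3 h4

/-- (e): there are points of `Sb` near the root -/
lemma exists_sb (hFIXE : Pool.Agent.PLim.T_FIXE) (hVEX : T_VEX) (hX : Ok X) {e : ℝ}
    (he : 0 < e) : ∃ μ z : ℂ, μ ≠ X.m0 ∧ ‖μ - X.m0‖ < e ∧ X.Fx μ z ∧ Sb X μ z := by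
  have hd := hX.dt
  obtain ⟨μ, hV, hμe, hM⟩ := hVEX X.toCtx hd hX.cst e he
  have hne : μ ≠ X.m0 := by
    intro h
    have := hV.2.1
    rw [h, m0_re] at this
    exact lt_irrefl _ this
  obtain ⟨ζ, hζ⟩ := hX.xt μ hV.1 hM
  obtain ⟨z, h1, h2, -⟩ := (hFIXE 2 X.K X.Λ X.lh X.ls (X.ψ μ) ζ le_rfl hd.hK1 hd.bot hd.log
    hζ.2.1).1 X.ω hX.cmb.exo.per
  have hex : Exa 2 X.K (X.ψ μ) z := by
    intro d h3 h4 h5
    refine hX.cmb.exo.exa d h3 h4 fun t => ?_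
    have h6 := h2 (t + d)
    rw [Function.iterate_add_apply, h5] at h6
    exact dig_mod h6 (h2 t)
  exact ⟨μ, z, hne, hμe, h1, h1, hex, Or.inl ⟨hM, ζ, 0, hζ, fun j => h2 j⟩⟩

theorem core (hLU : Pool.Agent.PLim.T_LU) (hLOP : Pool.Agent.PLim.T_LOP)
    (hZOP : Pool.Agent.PLim.T_ZOP) (hFIXE : Pool.Agent.PLim.T_FIXE) (hSBL : T_SBL)
    (hSBI : T_SBI) (hKFC : T_KFC) (hNFN : T_NFN) (hRP0 : T_RP0) (hVPS : T_VPS) (hVEX : T_VEX)
    (hINZ : T_INZ) : T_NR0 := by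
  intro X hX R r g L hB
  have hd := hX.dt
  obtain ⟨δN, hδN, hN⟩ := hNFN X.toCtx hd X.m0 hd.mem0
  have hcg : ContinuousAt g (X.χ X.m0) := (hB.dg.differentiableAt
    (Metric.isOpen_ball.mem_nhds (Metric.mem_ball_self hB.hr))).continuousAt
  -- the radius
  have h0 : ∀ᶠ z in 𝓝 (X.χ X.m0), g z ∈ Metric.ball X.m0 δN ∧ z ∈ Metric.ball (X.χ X.m0) r := by
    refine Filter.Eventually.and ?_ (Metric.ball_mem_nhds _ hB.hr)
    have := hcg.tendsto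
    rw [hB.g0] at this
    exact this.eventually (Metric.ball_mem_nhds _ hδN)
  obtain ⟨r1, hr1, h1⟩ := Metric.eventually_nhds_iff_ball.1 h0
  -- the predicate is constant on the punctured disc
  have hconst := const_of_loc (punct_conn (X.χ X.m0) r1) (fun z => Sb X (g z) z) (by
    intro z1 hz1
    obtain ⟨h2, h3⟩ := h1 z1 hz1.1
    have hne : g z1 ≠ X.m0 := hB.gne z1 h3 hz1.2
    have hball : g z1 ∈ Metric.ball X.m0 X.ρ :=
      Metric.ball_subset_ball hB.hR1 (hB.gR z1 h3)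
    have hfx : X.Fx (g z1) z1 := (hB.pt z1 h3 hz1.2).fix
    obtain ⟨η, hη, hη'⟩ := hSBL X hX (g z1) z1 ⟨hball, hne⟩
      (hN _ hne (mem_ball_iff_norm.1 h2)) hfx
    have hcg1 : ContinuousAt g z1 :=
      (hB.dg.differentiableAt (Metric.isOpen_ball.mem_nhds h3)).continuousAt
    have hU : {z | ‖z - z1‖ < η ∧ ‖g z - g z1‖ < η} ∈ 𝓝 z1 := by
      have h4 : ∀ᶠ z in 𝓝 z1, z ∈ Metric.ball z1 η := Metric.ball_mem_nhds _ hη
      have h5 : ∀ᶠ z in 𝓝 z1, g z ∈ Metric.ball (g z1) η :=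
        hcg1.eventually (Metric.ball_mem_nhds _ hη)
      filter_upwards [h4, h5] with z h6 h7
      exact ⟨mem_ball_iff_norm.1 h6, mem_ball_iff_norm.1 h7⟩
    refine ⟨_, hU, ?_⟩
    rcases hη' with h | h
    · exact Or.inl fun z hz => h (g z) z hz.1.2 hz.1.1
        (hB.pt z (h1 z hz.2.1).2 hz.2.2).fix
    · exact Or.inr fun z hz => h (g z) z hz.1.2 hz.1.1
        (hB.pt z (h1 z hz.2.1).2 hz.2.2).fix)
  obtain ⟨δ1, hδ1, hsub⟩ := sb_sub hLU hLOP hZOP hSBL hSBI hKFC hNFN hRP0 hVPS hINZ hX hB hr1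
  have htrue : ∀ z ∈ Metric.ball (X.χ X.m0) r1 \ {X.χ X.m0}, Sb X (g z) z := by
    rcases hconst with h | h
    · exact h
    exfalso
    obtain ⟨μ, z, h2, h3, h4, h5⟩ := exists_sb hFIXE hVEX hX (lt_min hδ1 hd.hρ)
    obtain ⟨i, h6, h7, h8, h9⟩ := hsub μ z h2 (lt_of_lt_of_le h3 (min_le_left _ _)) h4 h5
    have hμB : μ ∈ X.B := mem_B_of h2 (lt_of_lt_of_le h3 (min_le_right _ _))
    have h10 := (sbi_iter hSBI hX hμB h4 i).1 h5
    refine h _ ⟨mem_ball_iff_norm.2 h7, h8⟩ ?_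
    rw [h9]
    exact h10
  obtain ⟨δ2, hδ2, hprop⟩ := hB.prop r1 hr1
  refine ⟨min δ1 (min δ2 X.ρ), lt_min hδ1 (lt_min hδ2 hd.hρ), fun μ z h2 h3 h4 => ?_⟩
  have h31 : ‖μ - X.m0‖ < δ1 := lt_of_lt_of_le h3 (min_le_left _ _)
  have h32 : ‖μ - X.m0‖ < δ2 := lt_of_lt_of_le h3 ((min_le_right _ _).trans (min_le_left _ _))
  have h33 : ‖μ - X.m0‖ < X.ρ := lt_of_lt_of_le h3 ((min_le_right _ _).trans (min_le_right _ _))
  have hμB : μ ∈ X.B := mem_B_of h2 h33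
  constructor
  · intro h5
    obtain ⟨i, h6, h7, h8, h9⟩ := hsub μ z h2 h31 h4 h5
    exact ⟨_, h6, h8, h9, _, fix_back h4 hd.hK1 i⟩
  · rintro ⟨w, h6, h7, h8, j, h9⟩
    have h10 : Sb X μ w := by
      have h11 := htrue w ⟨mem_ball_iff_norm.2 (hprop w h6 (by rw [h8]; exact h32)), h7⟩
      rw [h8] at h11
      exact h11
    rw [← h9]
    exact (sbi_iter hSBI hX hμB h10.1 j).1 h10

end NR0_

/-- NR0: near the root the points of `Sb` are those of the bifurcating cycle. -/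
theorem p_NR0 (hSBL : T_SBL) (hSBI : T_SBI) (hKFC : T_KFC) (hNFN : T_NFN) (hRP0 : T_RP0)
    (hVPS : T_VPS) (hVEX : T_VEX) (hINZ : T_INZ) : T_NR0 :=
  NR0_.core Pool.Agent.PLim.a_LU Pool.Agent.PLim.a_LOP Pool.Agent.PLim.a_ZOP
    Pool.Agent.PLim.a_FIXE hSBL hSBI hKFC hNFN hRP0 hVPS hVEX hINZ

end Pool.Agent.PSat
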