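import Pool.Agent.PSat.Words
import Pool.Agent.PSat.Targets
import Pool.Agent.PLim.RS
import Pool.Agent.PLim.RC
import Pool.Agent.PLim.RINV

/-!
# PSAT: NRC, normalization of the words and the angles
-/

set_option autoImplicit false

open Complex Filter Topology Set
open Pool.Agent.PLim (Rot IsInt Cod Per lab Label)

namespace Pool.Agent.PSat.NRC_

lemma rinv : Pool.Agent.PLim.T_RINV :=
  Pool.Agent.PLim.p_RINV Pool.Agent.PLim.p_RS Pool.Agent.PLim.p_RC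

/-- translation of the angle by an integer: the label -/
lemma lab_int {K : ℕ} (hK : 1 ≤ K) (m : ℤ) : ∀ (θ : ℝ) (ε : ℕ → ℤ),
    lab 2 K (θ + m) ε = lab 2 K θ (fun t => ε t + m) := by
  induction m using Int.induction_on with
  | zero =>
    intro θ ε
    simp
  | succ i ih =>
    intro θ ε
    have h1 := (rinv 2 K ε (θ + (i : ℤ)) le_rfl hK).2.2.1.1
    have h2 : θ + (((i : ℤ) + 1 : ℤ) : ℝ) = θ + (i : ℤ) + 1 := by
      push_cast
      ring
    rw [h2, h1, ih]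
    congr 1
    funext t
    ring
  | pred i ih =>
    intro θ ε
    have h1 := (rinv 2 K (fun t => ε t - 1) (θ + ((-(i : ℤ) - 1 : ℤ) : ℝ))
      le_rfl hK).2.2.1.1
    have h2 : θ + ((-(i : ℤ) - 1 : ℤ) : ℝ) + 1 = θ + ((-(i : ℤ) : ℤ) : ℝ) := by
      push_cast
      ring
    have h3 : (fun t => ε t - 1 + 1) = ε := by
      funext t
      ring
    rw [h2, ih, h3] at h1
    rw [← h1]
    congr 1
    funext t
    ring

/-- translation of the angle by an integer: the rotation number -/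
lemma rot_int (k : ℕ) (m : ℤ) : ∀ (θ : ℝ) (ε : ℕ → ℤ),
    Rot 2 k (θ + m) ε = Rot 2 k θ (fun t => ε t + m) - k * m := by
  induction m using Int.induction_on with
  | zero =>
    intro θ ε
    simp
  | succ i ih =>
    intro θ ε
    have h1 := (Pool.Agent.PLim.p_RS 2 k ε (θ + (i : ℤ)) le_rfl).1
    have h2 : θ + (((i : ℤ) + 1 : ℤ) : ℝ) = θ + (i : ℤ) + 1 := by
      push_cast
      ring
    rw [h2, h1, ih]
    have h3 : (fun t => ε t + 1 + (i : ℤ)) = fun t => ε t + ((i : ℤ) + 1) := by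
      funext t
      ring
    rw [h3]
    push_cast
    ring
  | pred i ih =>
    intro θ ε
    have h1 := (Pool.Agent.PLim.p_RS 2 k (fun t => ε t - 1) (θ + ((-(i : ℤ) - 1 : ℤ) : ℝ))
      le_rfl).1
    have h2 : θ + ((-(i : ℤ) - 1 : ℤ) : ℝ) + 1 = θ + ((-(i : ℤ) : ℤ) : ℝ) := by
      push_cast
      ring
    have h3 : (fun t => ε t - 1 + 1) = ε := by
      funext t
      ring
    rw [h2, ih, h3] at h1
    have h4 : (fun t => ε t - 1 + -(i : ℤ)) = fun t => ε t + (-(i : ℤ) - 1) := by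
      funext t
      ring
    rw [h4] at h1
    push_cast at h1 ⊢
    linarith

/-- adding even integers to the word -/
lemma rot_even (k : ℕ) (θ : ℝ) (ε m : ℕ → ℤ) :
    Rot 2 k θ (fun t => ε t + 2 * m t) = Rot 2 k θ ε + ((∑ t ∈ Finset.range k, m t : ℤ) : ℝ) := by
  have h1 := (Pool.Agent.PLim.p_RS 2 k ε θ le_rfl).2.1 m
  exact_mod_cast h1

/-- translation of the angle by an even integer -/
lemma rot_two (k : ℕ) (θ : ℝ) (ε : ℕ → ℤ) (N : ℤ) :
    Rot 2 k (θ + ((2 * N : ℤ) : ℝ)) ε = Rot 2 k θ ε - k * N := by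
  rw [rot_int, rot_even k θ ε (fun _ => N)]
  simp only [Finset.sum_const, Finset.card_range, nsmul_eq_mul]
  push_cast
  ring

/-- the rotation number in the second component of the label -/
lemma rot_norm (k : ℕ) (ε : ℕ → ℤ) : ∃ C : ℤ, ∀ θ : ℝ,
    Rot 2 k (θ + ε 0) (fun j => (ε j - ε 0) % ((2 : ℕ) : ℤ)) = Rot 2 k θ ε + C := by
  refine ⟨(∑ t ∈ Finset.range k, -((ε t - ε 0) / 2)) - k * ε 0, fun θ => ?_⟩
  rw [rot_int]
  have h1 : (fun t => (ε t - ε 0) % ((2 : ℕ) : ℤ) + ε 0) =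
      fun t => ε t + 2 * (-((ε t - ε 0) / 2)) := by
    funext t
    have := Int.emod_add_mul_ediv (ε t - ε 0) 2
    push_cast
    linarith
  rw [h1, rot_even k θ ε (fun t => -((ε t - ε 0) / 2))]
  push_cast
  ring

/-- the second components of the labels -/
lemma floor_cong {k : ℕ} {θ θ' : ℝ} {ε : ℕ → ℤ} (h : lab 2 k θ ε = lab 2 k θ' ε) :
    (k : ℤ) ∣ ⌊Rot 2 k θ' ε⌋ - ⌊Rot 2 k θ ε⌋ := by
  obtain ⟨C, hC⟩ := rot_norm k ε
  have h1 : (lab 2 k θ ε).2 = (lab 2 k θ' ε).2 := by rw [h]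
  simp only [lab] at h1
  rw [hC θ, hC θ', Int.floor_add_intCast, Int.floor_add_intCast,
    ZMod.intCast_eq_intCast_iff_dvd_sub] at h1
  have h2 : ((k * (2 - 1) : ℕ) : ℤ) = k := by simp
  rw [h2] at h1
  have h3 : ⌊Rot 2 k θ' ε⌋ + C - (⌊Rot 2 k θ ε⌋ + C) = ⌊Rot 2 k θ' ε⌋ - ⌊Rot 2 k θ ε⌋ := by ring
  rwa [h3] at h1

end Pool.Agent.PSat.NRC_

namespace Pool.Agent.PSat

open NRC_

/-- NRC. -/
theorem p_NRC : T_NRC := by
  intro k θ θ' ε ε' hk hε hε' hlab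
  -- the words
  have hw : ∀ t : ℕ, (2 : ℤ) ∣ (ε' t - ε' 0) - (ε t - ε 0) := by
    have h1 : ∀ j : ℕ, j < k - 1 → (2 : ℤ) ∣ (ε' (j + 1) - ε' 0) - (ε (j + 1) - ε 0) := by
      intro j hj
      have h2 : (lab 2 k θ ε).1 ⟨j, hj⟩ = (lab 2 k θ' ε').1 ⟨j, hj⟩ := by rw [hlab]
      simp only [lab] at h2
      rw [ZMod.intCast_eq_intCast_iff_dvd_sub] at h2
      exact_mod_cast h2
    intro t
    rw [← per_mod hε t, ← per_mod hε' t]
    have h3 : t % k < k := Nat.mod_lt _ hk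
    rcases Nat.eq_zero_or_pos (t % k) with h4 | h4
    · rw [h4]
      simp
    · have h5 := h1 (t % k - 1) (by omega)
      rwa [Nat.sub_add_cancel h4] at h5
  have hE : ∀ N : ℤ, Eq2 (fun t => ε' t - (ε' 0 - ε 0 + 2 * N)) ε := by
    intro N t
    have := hw t
    simp only
    omega
  -- the labels
  have hL : ∀ (N : ℤ) (v : ℕ), 1 ≤ v →
      lab 2 (k * v) (θ' + ((ε' 0 - ε 0 + 2 * N : ℤ) : ℝ)) ε = lab 2 (k * v) θ' ε' := by
    intro N v hv
    have hkv : 1 ≤ k * v := Nat.mul_pos hk hv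
    rw [lab_int hkv]
    refine (rinv 2 (k * v) ε' θ' le_rfl hkv).2.1 _ (fun t => ?_) |>.1
    have := hE N t
    simp only at this
    push_cast
    omega
  -- the floor
  have hD := hL 0 1 le_rfl
  rw [Nat.mul_one, ← hlab] at hD
  obtain ⟨N, hN⟩ := floor_cong hD
  have hfl : ∀ N : ℤ, ⌊Rot 2 k (θ' + ((ε' 0 - ε 0 + 2 * N : ℤ) : ℝ)) ε⌋ =
      ⌊Rot 2 k (θ' + ((ε' 0 - ε 0 + 2 * 0 : ℤ) : ℝ)) ε⌋ - k * N := by
    intro N
    have h1 : θ' + ((ε' 0 - ε 0 + 2 * N : ℤ) : ℝ) =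
        θ' + ((ε' 0 - ε 0 + 2 * 0 : ℤ) : ℝ) + ((2 * N : ℤ) : ℝ) := by
      push_cast
      ring
    rw [h1, rot_two]
    have h2 : (k : ℝ) * (N : ℝ) = (((k : ℤ) * N : ℤ) : ℝ) := by push_cast; ring
    rw [h2, Int.floor_sub_intCast]
  refine ⟨ε' 0 - ε 0 + 2 * -N, hE _, ?_, fun v hv => hL _ v hv⟩
  rw [hfl]
  linarith

end Pool.Agent.PSat
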