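import Pool.Agent.PSat.Basic

/-!
# PSAT, NRM: the full data
-/

set_option autoImplicit false

open Complex Filter Topology Set
open Pool.Agent.Multibrot (MM)
open Pool.Agent.Limb (F)
open Pool.Agent.PLim (Rho IsBot IsLog Crit Dig Rot IsInt Label lab Ex Cod Per Lands InZ LabR G
  ZVn ONTOn NCn OMXn SECTn LocFix)
open Pool.Agent.MEX (Exa)
open Pool.Agent.MEY (Pt Omg DD Glob)

namespace Pool.Agent.PSat

namespace NRM_

/-- existence of the coordinate -/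
lemma ex_crit {Λ : ℂ → ℂ → ℂ} (hΛ : IsBot 2 Λ) {c : ℂ} (hc : c ∉ MM 2) :
    ∃ ζ : ℂ, Crit 2 Λ c ζ := by
  obtain ⟨-, h0, -, -, -, hM, hcc, -⟩ := Pool.Agent.PLim.a_GREEN 2 le_rfl
  have hpos : 0 < G 2 c 0 := lt_of_le_of_ne (h0 c 0) fun h => hc ((hM c).2 h.symm)
  have hlt : G 2 c 0 < G 2 c c := by
    rw [hcc c]
    push_cast
    linarith
  obtain ⟨s, hs, hsc⟩ := hΛ.surj c c hlt
  exact ⟨s, hc, hs, hsc⟩

/-- shifts of codings -/
lemma cod_sh {θ x : ℝ} {η : ℕ → ℤ} (h : Cod 2 θ x η) (i : ℕ) : Cod 2 θ (2 ^ i * x) (sh i η) := by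
  obtain ⟨h1, h2⟩ := h
  push_cast at h1 h2
  refine ⟨fun t ht => ?_, fun t => ?_⟩
  · push_cast
    have e : (2 : ℝ) ^ t * (2 ^ i * x) - θ = 2 ^ (t + i) * x - θ := by rw [pow_add]; ring
    rw [e]
    exact h1 (t + i) (by omega)
  · push_cast
    have e : (2 : ℝ) ^ (t + 1) * (2 ^ i * x) - θ = 2 ^ (t + i + 1) * x - θ := by
      rw [show t + i + 1 = (t + 1) + i by omega, pow_add]; ring
    rw [e, sh_apply]
    exact h2 (t + i)

/-- codings depend on the angle modulo one -/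
lemma cod_congr {θ x y : ℝ} {η : ℕ → ℤ} (h : Cod 2 θ x η) (hxy : IsInt (y - x)) :
    Cod 2 θ y η := by
  obtain ⟨m, hm⟩ := hxy
  obtain ⟨h1, h2⟩ := h
  push_cast at h1 h2
  have hy : y = x + m := by linarith
  refine ⟨fun t ht hcon => ?_, fun t => ?_⟩
  · push_cast at hcon
    refine h1 t ht ?_
    have e : (2 : ℝ) ^ t * x - θ = (2 ^ t * y - θ) - 2 ^ t * m := by rw [hy]; ring
    rw [e]
    exact isInt_sub hcon (isInt_mul (isInt_pow t) (isInt_int m))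
  · push_cast
    have e : (2 : ℝ) ^ (t + 1) * y - θ = (2 ^ (t + 1) * x - θ) + ((2 ^ (t + 1) * m : ℤ) : ℝ) := by
      rw [hy]; push_cast; ring
    rw [e, Int.floor_add_intCast]
    have h3 := h2 t
    have h4 : (2 : ℤ) ∣ 2 ^ (t + 1) * m := Dvd.dvd.mul_right (dvd_pow_self 2 (by omega)) m
    have e2 : ⌊(2 : ℝ) ^ (t + 1) * x - θ⌋ + 2 ^ (t + 1) * m - η t =
        (⌊(2 : ℝ) ^ (t + 1) * x - θ⌋ - η t) + 2 ^ (t + 1) * m := by ring
    rw [e2]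
    exact dvd_add h3 h4

lemma an_add (ζ : ℂ) (m : ℤ) : an (ζ + 2 * Real.pi * I * m) = an ζ + m := by
  unfold an
  have hpi := Real.pi_pos
  have e : (ζ + 2 * Real.pi * I * m).im = ζ.im + 2 * Real.pi * m := by
    simp
  rw [e]
  field_simp

end NRM_

open NRM_ in
theorem p_NRM (hVEX : T_VEX) (hLKV : T_LKV) (hCMB : T_CMB) (hKPR : T_KPR) (hFAR : T_FAR)
    (hNRC : T_NRC) (hLFC : T_LFC) (hDSH : T_DSH) (hIZE : T_IZE) (hPWR : T_PWR) : T_NRM := by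
  intro X hX hC
  have hk := hX.hk
  have hq := hX.hq
  have hq0 : 0 < X.q := by omega
  have hqK := hX.hqK
  have hK1 := hX.hK1
  -- the base point
  obtain ⟨μb, hμbV, -, hμbM⟩ := hVEX X hX hC X.ρ hX.hρ
  obtain ⟨hμb, hμbre, hμbZ⟩ := hμbV
  obtain ⟨ζb, hζb⟩ := ex_crit hX.bot hμbM
  have hptb := hX.pt μb (hX.sub2 hμb)
  have hFIX := fun (k : ℕ) (hk : 1 ≤ k) (c ζ : ℂ) (hζ : Crit 2 X.Λ c ζ) =>
    Pool.Agent.PLim.a_FIXE 2 k X.Λ X.lh X.ls c ζ le_rfl hk hX.bot hX.log hζ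
  obtain ⟨ε, hεp, hεd⟩ := ((hFIX X.k hk (X.ψ μb) ζb hζb).2 (X.χ μb) hptb.fix).2.2
  have hDS := fun (c ζ : ℂ) (hζ : Crit 2 X.Λ c ζ) => hDSH X.Λ X.lh X.ls c ζ hX.bot hX.log hζ
  -- the word has exact period `k`
  have hex : ExW X.k ε := by
    refine ⟨hεp, fun d hd0 hdk hE => ?_⟩
    obtain ⟨z0, -, -, huniq⟩ := (hFIX X.k hk (X.ψ μb) ζb hζb).1 ε hεp
    have h1 : X.χ μb = z0 := huniq _ hptb.fix hεd
    have h2 : (F 2 (X.ψ μb))^[d] (X.χ μb) = z0 := by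
      refine huniq _ (fix_iter hptb.fix d) fun j => ?_
      have h3 := hεd (j + d)
      rw [Function.iterate_add_apply] at h3
      have hfx : (F 2 (X.ψ μb))^[X.k] ((F 2 (X.ψ μb))^[j] ((F 2 (X.ψ μb))^[d] (X.χ μb))) =
          (F 2 (X.ψ μb))^[j] ((F 2 (X.ψ μb))^[d] (X.χ μb)) :=
        fix_iter (fix_iter hptb.fix d) j
      refine ((hDS _ ζb hζb).2.2.2 X.k _ (ε (j + d)) (ε j) hk hfx h3).2 ?_
      exact hE j
    exact hptb.exa d hd0 hdk (h2.trans h1.symm)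
  -- rotation numbers at all levels
  have hlev : ∀ (μ ζ : ℂ) (η : ℕ → ℤ), μ ∈ Metric.ball X.m0 X.ρ → Crit 2 X.Λ (X.ψ μ) ζ →
      Per X.k η → X.Wd μ ζ (X.χ μ) η → ∀ v : ℕ, 1 ≤ v →
      (InZ 2 (X.k * v) X.Λ X.lh (X.ψ μ) (X.χ μ) ↔ IsInt (v * Rot 2 X.k (an ζ) η)) ∧
      ∀ l : Label 2 (X.k * v), LabR 2 (X.k * v) X.Λ X.lh (X.ψ μ) (X.χ μ) l ↔
        ¬ IsInt (v * Rot 2 X.k (an ζ) η) ∧ lab 2 (X.k * v) (an ζ) η = l := by
    intro μ ζ η hμ hζ hη hw v hv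
    have hpt := hX.pt μ (hX.sub2 hμ)
    have hkv : 1 ≤ X.k * v := Nat.mul_pos hk hv
    have h1 := hIZE (X.k * v) X.Λ X.lh X.ls (X.ψ μ) ζ (X.χ μ) η hkv hX.bot hX.log hζ
      (fix_mul hpt.fix v) (per_mul hη v) hw
    rw [(hPWR X.k (an ζ) η hk hη).1 v] at h1
    exact h1
  set R0 : ℝ := Rot 2 X.k (an ζb) ε with hR0
  have hqR0 : IsInt (X.q * R0) := by
    have := (hlev μb ζb ε hμb hζb hεp hεd X.q hq0).1
    exact this.mp hμbZ
  have hnotV : ∀ (μ ζ : ℂ) (η : ℕ → ℤ), μ ∈ Metric.ball X.m0 X.ρ → Crit 2 X.Λ (X.ψ μ) ζ →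
      Per X.k η → X.Wd μ ζ (X.χ μ) η → ∀ v : ℕ, 1 ≤ v → v ≤ X.K + 1 → ¬ X.q ∣ v →
      ¬ IsInt (v * Rot 2 X.k (an ζ) η) := by
    intro μ ζ η hμ hζ hη hw v hv hvK hqv hI
    have hre : 0 < μ.re := hX.re_pos (hX.sub2 hμ) hζ.1
    exact (hLKV X hX hC v hv hvK hqv).1 μ hμ hre ((hlev μ ζ η hμ hζ hη hw v hv).1.mpr hI)
  have hvR0 : ∀ v : ℕ, 0 < v → v < X.q → ¬ IsInt (v * R0) := by
    intro v hv hvq
    refine hnotV μb ζb ε hμb hζb hεp hεd v hv (by omega) ?_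
    exact fun h => absurd (Nat.le_of_dvd hv h) (by omega)
  have hR0n : ¬ IsInt R0 := by
    have := hvR0 1 one_pos (by omega)
    rwa [Nat.cast_one, one_mul] at this
  have hfl : ((⌊R0⌋ : ℤ) : ℝ) < R0 ∧ R0 < (⌊R0⌋ : ℤ) + 1 := by
    refine ⟨lt_of_le_of_ne (Int.floor_le R0) fun h => hR0n ⟨⌊R0⌋, h.symm⟩, Int.lt_floor_add_one R0⟩
  obtain ⟨a, b, m, ω, l, hcmb⟩ := hCMB X.k X.q ε R0 ⌊R0⌋ hk hq hex hqR0 hvR0 hfl.1 hfl.2
  set Y : Full := Full.mk X ε R0 ⌊R0⌋ a b m ω l with hY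
  -- equality of the labels
  have hlabel : ∀ (μ ζ : ℂ) (η : ℕ → ℤ), μ ∈ Metric.ball X.m0 X.ρ → Crit 2 X.Λ (X.ψ μ) ζ →
      Per X.k η → X.Wd μ ζ (X.χ μ) η → ∀ v : ℕ, 1 ≤ v → v ≤ X.K + 1 → ¬ X.q ∣ v →
      lab 2 (X.k * v) (an ζb) ε = lab 2 (X.k * v) (an ζ) η := by
    intro μ ζ η hμ hζ hη hw v hv hvK hqv
    have hre : 0 < μ.re := hX.re_pos (hX.sub2 hμ) hζ.1
    obtain ⟨l1, hl1⟩ := (hLKV X hX hC v hv hvK hqv).2
    have h1 := ((hlev μ ζ η hμ hζ hη hw v hv).2 l1).mp (hl1 μ hμ hre)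
    have h2 := ((hlev μb ζb ε hμb hζb hεp hεd v hv).2 l1).mp (hl1 μb hμb hμbre)
    rw [h1.2, h2.2]
  have hnq1 : ¬ X.q ∣ 1 := fun h => absurd (Nat.le_of_dvd one_pos h) (by omega)
  -- the normalized coordinate
  have hxt : ∀ μ ∈ Metric.ball X.m0 X.ρ, X.ψ μ ∉ MM 2 → ∃ ζ : ℂ, Xt Y μ ζ := by
    intro μ hμ hμM
    obtain ⟨ζ', hζ'⟩ := ex_crit hX.bot hμM
    have hpt := hX.pt μ (hX.sub2 hμ)
    obtain ⟨ε', hε'p, hε'd⟩ := ((hFIX X.k hk (X.ψ μ) ζ' hζ').2 (X.χ μ) hpt.fix).2.2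
    have h1 := hlabel μ ζ' ε' hμ hζ' hε'p hε'd 1 le_rfl (by omega) hnq1
    rw [Nat.mul_one] at h1
    obtain ⟨m', hm1, hm2, -⟩ := hNRC X.k (an ζb) (an ζ') ε ε' hk hεp hε'p h1
    have hcr : Crit 2 X.Λ (X.ψ μ) (ζ' + 2 * Real.pi * I * m') := (hDS _ ζ' hζ').1 m'
    have hwd : X.Wd μ (ζ' + 2 * Real.pi * I * m') (X.χ μ) ε := by
      intro j
      have hfx := fix_iter hpt.fix j
      rw [(hDS _ ζ' hζ').2.2.1 X.k _ m' (ε j) hk hfx]
      refine ((hDS _ ζ' hζ').2.2.2 X.k _ (ε' j) (ε j + m') hk hfx (hε'd j)).2 ?_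
      have h2 := hm1 j
      have e : ε' j - (ε j + m') = (ε' j - m') - ε j := by ring
      rw [e]
      exact h2
    refine ⟨ζ' + 2 * Real.pi * I * m', hμ, hcr, hwd, ?_⟩
    have hni := hnotV μ _ ε hμ hcr hεp hwd 1 le_rfl (by omega) hnq1
    rw [Nat.cast_one, one_mul] at hni
    rw [← an_add] at hm2
    show ((⌊R0⌋ : ℤ) : ℝ) < Rot 2 X.k (an (ζ' + 2 * Real.pi * I * m')) ε ∧
      Rot 2 X.k (an (ζ' + 2 * Real.pi * I * m')) ε < ((⌊R0⌋ : ℤ) : ℝ) + 1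
    rw [hR0, ← hm2]
    exact ⟨lt_of_le_of_ne (Int.floor_le _) fun h => hni ⟨_, h.symm⟩, Int.lt_floor_add_one _⟩
  -- no fractions with small denominator
  have hnrk : ∀ μ ζ : ℂ, Xt Y μ ζ → ∀ (u : ℤ) (v : ℕ), 1 ≤ v → v ≤ X.K + 1 → ¬ X.q ∣ v →
      ¬ (R0 < u / v ∧ (u : ℝ) / v ≤ Rot 2 X.k (an ζ) ε) ∧
      ¬ (Rot 2 X.k (an ζ) ε ≤ u / v ∧ (u : ℝ) / v < R0) := by
    intro μ ζ hXt u v hv hvK hqv
    obtain ⟨hμ, hcr, hwd, hx1, hx2⟩ := hXt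
    have hx1' : ((⌊R0⌋ : ℤ) : ℝ) < Rot 2 X.k (an ζ) ε := hx1
    have hx2' : Rot 2 X.k (an ζ) ε < ((⌊R0⌋ : ℤ) : ℝ) + 1 := hx2
    have hv0 : (0 : ℝ) < v := by exact_mod_cast hv
    have hfloor : ⌊Rot 2 X.k (an ζb) ε⌋ = ⌊Rot 2 X.k (an ζ) ε⌋ := by
      rw [← hR0]
      refine (Int.floor_eq_iff.mpr ⟨hx1'.le, hx2'⟩).symm
    have hlab := hlabel μ ζ ε hμ hcr hεp hwd v hv hvK hqv
    have h1 := hLFC X.k v (an ζb) (an ζ) ε hk hv hεp hfloor hlab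
    rw [← hR0] at h1
    have hni := hnotV μ ζ ε hμ hcr hεp hwd v hv hvK hqv
    constructor
    · rintro ⟨h2, h3⟩
      rw [lt_div_iff₀ hv0] at h2
      rw [div_le_iff₀ hv0] at h3
      have h4 : u ≤ ⌊(v : ℝ) * Rot 2 X.k (an ζ) ε⌋ := Int.le_floor.mpr (by linarith)
      rw [← h1] at h4
      have h5 := Int.le_floor.mp h4
      linarith
    · rintro ⟨h2, h3⟩
      rw [div_lt_iff₀ hv0] at h3
      rw [le_div_iff₀ hv0] at h2
      have h4 : u ≤ ⌊(v : ℝ) * R0⌋ := Int.le_floor.mpr (by linarith)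
      rw [h1] at h4
      have h5 := Int.le_floor.mp h4
      exact hni ⟨u, by linarith⟩
  have hRC := Pool.Agent.PLim.a_RC 2 X.k ε le_rfl
  have hKe : X.k * X.q = X.K := rfl
  have haK : ∀ (t : ℕ) (s : ℤ), IsP X.K (2 ^ t * a + s) := fun t s => (hcmb.aK.pow t).add_int s
  have hRa : Rot 2 X.k a ε = R0 := (hcmb.pla a).mpr ⟨le_rfl, hcmb.ab.le⟩
  have hRb : Rot 2 X.k b ε = R0 := (hcmb.pla b).mpr ⟨hcmb.ab.le, le_rfl⟩
  refine ⟨Y, rfl, ⟨hX, hC, hcmb, hxt, ?_, ?_⟩⟩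
  · -- vab
    intro μ ζ hXt
    have hnr := hnrk μ ζ hXt
    obtain ⟨hμ, hcr, hwd, hx1, hx2⟩ := hXt
    have hre : 0 < μ.re := hX.re_pos (hX.sub2 hμ) hcr.1
    have hiff := (hlev μ ζ ε hμ hcr hεp hwd X.q hq0).1
    have h1 : μ ∈ X.V ↔ IsInt (X.q * Rot 2 X.k (an ζ) ε) := by
      rw [← hiff]
      exact ⟨fun h => h.2.2, fun h => ⟨hμ, hre, h⟩⟩
    have h2 : IsInt (X.q * Rot 2 X.k (an ζ) ε) ↔ Rot 2 X.k (an ζ) ε = R0 := by
      constructor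
      · intro hI
        by_contra hne
        obtain ⟨u, v, hv1, hv2, hv3, h4⟩ := hFAR X.q X.K X.q R0 _ hq hq0 hqK hqR0 hI hne
        have h5 := hnr u v hv1 hv2 hv3
        rcases h4 with h4 | h4
        · exact h5.1 h4
        · exact h5.2 h4
      · intro h
        rw [h]; exact hqR0
    show μ ∈ X.V ↔ a ≤ an ζ ∧ an ζ ≤ b
    rw [h1, h2]
    exact hcmb.pla (an ζ)
  · -- noi
    intro μ ζ hXt hμV
    have hnr := hnrk μ ζ hXt
    obtain ⟨hμ, hcr, hwd, hx1, hx2⟩ := hXt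
    have hre : 0 < μ.re := hX.re_pos (hX.sub2 hμ) hcr.1
    have hout : ¬ (a ≤ an ζ ∧ an ζ ≤ b) := by
      intro h
      apply hμV
      have h3 : Rot 2 X.k (an ζ) ε = R0 := (hcmb.pla (an ζ)).mpr h
      have hiff := (hlev μ ζ ε hμ hcr hεp hwd X.q hq0).1
      refine ⟨hμ, hre, hiff.mpr ?_⟩
      rw [h3]; exact hqR0
    show (∀ i : ℕ, ∃ i' : ℕ, Cod 2 (an ζ) (2 ^ i * a) (sh i' ω)) ∧
      ∀ i' : ℕ, ∃ i : ℕ, Cod 2 (an ζ) (2 ^ i * a) (sh i' ω)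
    rcases lt_or_ge (an ζ) a with hlt | hge
    · have hno : ∀ (t : ℕ) (s : ℤ), ¬ (an ζ ≤ 2 ^ t * a + s ∧ 2 ^ t * a + s < a) := by
        rintro t s ⟨h1, h2⟩
        have hne : Rot 2 X.k (2 ^ t * a + s) ε ≠ R0 := by
          intro h
          exact absurd ((hcmb.pla _).mp h).1 (not_le.mpr h2)
        have hge' : R0 ≤ Rot 2 X.k (2 ^ t * a + s) ε := by
          have := hRC.2 h2.le
          simp only at this
          rw [hRa] at this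
          exact this
        obtain ⟨M, hM1, hM2, hM3⟩ := hKPR X.k X.K (2 ^ t * a + s) ε hk hK1 hεp (haK t s)
        obtain ⟨u, v, hv1, hv2, hv3, h4⟩ := hFAR X.q X.K M R0 _ hq hM1 hM2 hqR0 hM3 hne
        have h5 := hnr u v hv1 hv2 hv3
        have h6 : Rot 2 X.k (2 ^ t * a + s) ε ≤ Rot 2 X.k (an ζ) ε := hRC.2 h1
        rcases h4 with h4 | h4
        · exact h5.1 ⟨h4.1, h4.2.trans h6⟩
        · linarith [h4.1, h4.2]
      have hcod := hcmb.left (an ζ) hlt hno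
      exact ⟨fun i => ⟨i, cod_sh hcod i⟩, fun i => ⟨i, cod_sh hcod i⟩⟩
    · have hgt : b < an ζ := by
        by_contra h
        exact hout ⟨hge, not_lt.mp h⟩
      have hno : ∀ (t : ℕ) (s : ℤ), ¬ (b < 2 ^ t * a + s ∧ 2 ^ t * a + s ≤ an ζ) := by
        rintro t s ⟨h1, h2⟩
        have hne : Rot 2 X.k (2 ^ t * a + s) ε ≠ R0 := by
          intro h
          exact absurd ((hcmb.pla _).mp h).2 (not_le.mpr h1)
        have hge' : Rot 2 X.k (2 ^ t * a + s) ε ≤ R0 := by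
          have := hRC.2 h1.le
          simp only at this
          rw [hRb] at this
          exact this
        obtain ⟨M, hM1, hM2, hM3⟩ := hKPR X.k X.K (2 ^ t * a + s) ε hk hK1 hεp (haK t s)
        obtain ⟨u, v, hv1, hv2, hv3, h4⟩ := hFAR X.q X.K M R0 _ hq hM1 hM2 hqR0 hM3 hne
        have h5 := hnr u v hv1 hv2 hv3
        have h6 : Rot 2 X.k (an ζ) ε ≤ Rot 2 X.k (2 ^ t * a + s) ε := hRC.2 h2
        rcases h4 with h4 | h4
        · linarith [h4.1, h4.2]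
        · exact h5.2 ⟨h6.trans h4.1, h4.2⟩
      have hcod := hcmb.right (an ζ) hgt hno
      refine ⟨fun i => ⟨i + X.K * m - m, ?_⟩, fun i' => ⟨i' + m, ?_⟩⟩
      · have hmK : m ≤ X.K * m := Nat.le_mul_of_pos_left m hK1
        refine cod_congr (cod_sh hcod (i + X.K * m - m)) ?_
        have h1 : IsInt (2 ^ (i + X.K * m - m) * (2 ^ m * a - b)) := by
          refine isInt_mul (isInt_pow _) ?_
          have := isInt_neg hcmb.orb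
          rwa [neg_sub] at this
        have h2 : IsInt (2 ^ i * (2 ^ (X.K * m) * a - a)) :=
          isInt_mul (isInt_pow _) (isP_iff.mp ((show IsP X.K a from hcmb.aK).mul m))
        have e : (2 : ℝ) ^ i * a - 2 ^ (i + X.K * m - m) * b =
            2 ^ (i + X.K * m - m) * (2 ^ m * a - b) - 2 ^ i * (2 ^ (X.K * m) * a - a) := by
          have e1 : (2 : ℝ) ^ (i + X.K * m - m) * 2 ^ m = 2 ^ i * 2 ^ (X.K * m) := by
            rw [← pow_add, ← pow_add]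
            congr 1
            omega
          linear_combination (-a) * e1
        rw [e]
        exact isInt_sub h1 h2
      · refine cod_congr (cod_sh hcod i') ?_
        have h1 : IsInt (2 ^ i' * (2 ^ m * a - b)) := by
          refine isInt_mul (isInt_pow _) ?_
          have := isInt_neg hcmb.orb
          rwa [neg_sub] at this
        have e : (2 : ℝ) ^ (i' + m) * a - 2 ^ i' * b = 2 ^ i' * (2 ^ m * a - b) := by
          rw [pow_add]; ring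
        rw [e]
        exact h1

end Pool.Agent.PSat
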