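import Pool.Agent.PSat.Targets
import Pool.Agent.PSat.Words
import Pool.Agent.PLim.RC
import Pool.Agent.PLim.RS

/-!
# PSAT: target PLA, the plateau
-/

set_option autoImplicit false

open Filter Topology Set
open Pool.Agent.PLim (Rot IsInt Cod Per)

namespace Pool.Agent.PSat

namespace PLA_

lemma rot_cont (k : ℕ) (ε : ℕ → ℤ) : Continuous (fun θ => Rot 2 k θ ε) :=
  (Pool.Agent.PLim.p_RC 2 k ε le_rfl).1

lemma rot_anti (k : ℕ) (ε : ℕ → ℤ) : Antitone (fun θ => Rot 2 k θ ε) :=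
  (Pool.Agent.PLim.p_RC 2 k ε le_rfl).2

/-- the rotation number takes all values -/
lemma rot_surj (k : ℕ) (ε : ℕ → ℤ) (hk : 1 ≤ k) (R0 : ℝ) : ∃ θ : ℝ, Rot 2 k θ ε = R0 := by
  have hshift : ∀ θ : ℝ, Rot 2 k (θ + 2) ε = Rot 2 k θ ε - k := by
    intro θ
    have h := (Pool.Agent.PLim.p_RS 2 k ε θ le_rfl).2.2
    push_cast at h
    rw [h]
    norm_num
  have hup : ∀ m : ℕ, Rot 2 k (0 + 2 * m) ε = Rot 2 k 0 ε - k * m := by
    intro m
    induction m with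
    | zero => simp
    | succ m ih =>
      have h1 : (0 : ℝ) + 2 * ((m + 1 : ℕ) : ℝ) = (0 + 2 * m) + 2 := by push_cast; ring
      rw [h1, hshift, ih]
      push_cast
      ring
  have hdown : ∀ m : ℕ, Rot 2 k (0 - 2 * m) ε = Rot 2 k 0 ε + k * m := by
    intro m
    induction m with
    | zero => simp
    | succ m ih =>
      have h1 : (0 : ℝ) - 2 * m = (0 - 2 * ((m + 1 : ℕ) : ℝ)) + 2 := by push_cast; ring
      rw [h1, hshift] at ih
      push_cast at ih ⊢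
      linarith
  have hk' : (1 : ℝ) ≤ k := by exact_mod_cast hk
  have hr := mem_range_of_exists_le_of_exists_ge (rot_cont k ε) (c := R0)
    (by
      obtain ⟨m, hm⟩ := exists_nat_ge (Rot 2 k 0 ε - R0)
      refine ⟨0 + 2 * m, ?_⟩
      show Rot 2 k (0 + 2 * m) ε ≤ R0
      rw [hup]
      have : (m : ℝ) ≤ k * m := le_mul_of_one_le_left (Nat.cast_nonneg m) hk'
      linarith)
    (by
      obtain ⟨m, hm⟩ := exists_nat_ge (R0 - Rot 2 k 0 ε)
      refine ⟨0 - 2 * m, ?_⟩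
      show R0 ≤ Rot 2 k (0 - 2 * m) ε
      rw [hdown]
      have : (m : ℝ) ≤ k * m := le_mul_of_one_le_left (Nat.cast_nonneg m) hk'
      linarith)
  exact hr

/-- The hypotheses. -/
structure Hy (k q : ℕ) (ε : ℕ → ℤ) (R0 : ℝ) : Prop where
  hk : 1 ≤ k
  hq : 2 ≤ q
  exw : ExW k ε
  den : IsInt (q * R0)
  den' : ∀ v : ℕ, 0 < v → v < q → ¬ IsInt (v * R0)
  THB : T_THB
  TLC : T_TLC
  SNG : T_SNG
  RTH : T_RTH
  PWR : T_PWR

variable {k q : ℕ} {ε : ℕ → ℤ} {R0 : ℝ}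

lemma Hy.K1 (H : Hy k q ε R0) : 1 ≤ k * q := by
  have h1 := H.hk
  have h2 := H.hq
  calc 1 = 1 * 1 := rfl
    _ ≤ k * q := Nat.mul_le_mul h1 (by omega)

lemma Hy.perK (H : Hy k q ε R0) (i : ℕ) : Per (k * q) (sh i ε) := per_mul (per_sh H.exw.per i) q

lemma Hy.rotK (H : Hy k q ε R0) (θ : ℝ) (i : ℕ) :
    Rot 2 (k * q) θ (sh i ε) = q * Rot 2 k θ ε := by
  rw [(H.PWR k θ (sh i ε) H.hk (per_sh H.exw.per i)).1 q, (H.PWR k θ ε H.hk H.exw.per).2 i]

lemma Hy.rotk (H : Hy k q ε R0) (θ : ℝ) (i : ℕ) :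
    Rot 2 k θ (sh i ε) = Rot 2 k θ ε := (H.PWR k θ ε H.hk H.exw.per).2 i

/-- nonempty sets give integers -/
lemma Hy.int_of_ne (H : Hy k q ε R0) {θ : ℝ} {i : ℕ} (h : (Th (k * q) θ (sh i ε)).Nonempty) :
    IsInt (q * Rot 2 k θ ε) := by
  rw [← H.rotK θ i]
  exact (H.RTH (k * q) θ (sh i ε) H.K1 (H.perK i)).1 h

/-- points of the plateau -/
lemma Hy.ne (H : Hy k q ε R0) {θ : ℝ} (hR : Rot 2 k θ ε = R0) (hP : ¬ IsP (k * q) θ) (i : ℕ) :
    (Th (k * q) θ (sh i ε)).Nonempty := by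
  refine (H.RTH (k * q) θ (sh i ε) H.K1 (H.perK i)).2.1 ?_ hP
  rw [H.rotK θ i, hR]
  exact H.den

lemma Hy.nop (H : Hy k q ε R0) {θ : ℝ} (hR : Rot 2 k θ ε = R0) {i : ℕ} {x : ℝ}
    (hx : x ∈ Th (k * q) θ (sh i ε)) : ∀ v : ℕ, 0 < v → v < q → ¬ IsP (k * v) x := by
  refine (H.RTH (k * q) θ (sh i ε) H.K1 (H.perK i)).2.2.2.2 k q x rfl H.hk
    (per_sh H.exw.per i) hx ?_
  intro v h0 h1
  rw [H.rotk θ i, hR]
  exact H.den' v h0 h1

lemma Hy.nopk (H : Hy k q ε R0) {θ : ℝ} (hR : Rot 2 k θ ε = R0) {i : ℕ} {x : ℝ}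
    (hx : x ∈ Th (k * q) θ (sh i ε)) : ¬ IsP k x := by
  have := H.nop hR hx 1 one_pos (by have := H.hq; omega)
  rwa [Nat.mul_one] at this

lemma Hy.sng (H : Hy k q ε R0) {θ : ℝ} (hR : Rot 2 k θ ε = R0) (hP : ¬ IsP (k * q) θ) (i : ℕ) :
    (∃ (i' : ℕ) (u v : ℝ), Gap (Th (k * q) θ (sh i' (sh i ε))) u v ∧ v - u ≤ 1 / 2 ∧ u < θ ∧ θ < v ∧
    ∀ (i'' : ℕ) (z : ℝ), z ∈ Th (k * q) θ (sh i'' (sh i ε)) → ¬ (u < z ∧ z < v)) ∧
    ∀ x ∈ Th (k * q) θ (sh i ε), ∀ y ∈ Th (k * q) θ (sh i ε), ∃ t : ℕ,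
      IsInt (2 ^ (k * t) * x - y) :=
  H.SNG k q θ (sh i ε) H.hk H.hq (H.exw.shift H.hk i) (H.ne hR hP i) (fun _ hx => H.nopk hR hx)

/-- The gap around `θ`. -/
structure Gp (k q : ℕ) (ε : ℕ → ℤ) (θ : ℝ) (i : ℕ) (u v : ℝ) : Prop where
  hu : u ∈ Th (k * q) θ (sh i ε)
  hv : v ∈ Th (k * q) θ (sh i ε)
  l2 : v - u ≤ 1 / 2
  ut : u < θ
  tv : θ < v
  no : ∀ (i' : ℕ) (z : ℝ), z ∈ Th (k * q) θ (sh i' ε) → ¬ (u < z ∧ z < v)

lemma Hy.gp (H : Hy k q ε R0) {θ : ℝ} (hR : Rot 2 k θ ε = R0) (hP : ¬ IsP (k * q) θ) :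
    ∃ (i : ℕ) (u v : ℝ), Gp k q ε θ i u v := by
  obtain ⟨⟨i, u, v, hg, h2, hu, hv, hno⟩, _⟩ := H.sng hR hP 0
  simp only [sh_zero] at hg hno
  exact ⟨i, u, v, hg.1, hg.2.1, h2, hu, hv, hno⟩

/-- the images of the points of the sets -/
lemma Hy.img (H : Hy k q ε R0) {θ x : ℝ} {i : ℕ} (hx : x ∈ Th (k * q) θ (sh i ε)) (t : ℕ)
    (s : ℤ) : 2 ^ t * x + s ∈ Th (k * q) θ (sh (t + i) ε) := by
  have := (H.THB (k * q) θ (sh i ε) H.K1 (H.perK i)).2.2.2.2.2.1 x hx t s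
  rwa [sh_sh] at this

/-- inclusion of the sets along the gap -/
lemma Hy.incl (H : Hy k q ε R0) {θ θ' u v : ℝ} {i : ℕ} (G : Gp k q ε θ i u v) (hu : u < θ')
    (hv : θ' < v) {i' : ℕ} {x : ℝ} (hx : x ∈ Th (k * q) θ (sh i' ε)) :
    x ∈ Th (k * q) θ' (sh i' ε) := by
  refine ⟨hx.1, ?_⟩
  have hno : ∀ (t : ℕ) (s : ℤ), ¬ (u < 2 ^ t * x + s ∧ 2 ^ t * x + s < v) := fun t s =>
    G.no _ _ (H.img hx t s)
  rcases le_total θ θ' with h | h
  · refine (H.TLC θ θ' x (sh i' ε) h ?_).1 hx.2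
    intro t s _ hc
    exact hno t s ⟨lt_of_lt_of_le G.ut hc.1, lt_of_le_of_lt hc.2 hv⟩
  · refine (H.TLC θ' θ x (sh i' ε) h ?_).2 hx.2
    intro t s _ hc
    exact hno t s ⟨lt_of_lt_of_le hu hc.1, lt_of_le_of_lt hc.2 G.tv⟩

lemma nonint_half {x : ℝ} (h : IsInt x) : ¬ IsInt (x + 1 / 2) := by
  intro h2
  have h3 := isInt_sub h2 h
  have h4 : x + 1 / 2 - x = 1 / 2 := by ring
  rw [h4] at h3
  have := isInt_eq_zero h3 (by rw [abs_of_pos (by norm_num)]; norm_num)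
  norm_num at this

/-- the rotation number is constant along the gap (open) -/
lemma Hy.const_open (H : Hy k q ε R0) {θ u v : ℝ} {i : ℕ} (hR : Rot 2 k θ ε = R0)
    (G : Gp k q ε θ i u v) {θ' : ℝ} (hu : u < θ') (hv : θ' < v) : Rot 2 k θ' ε = R0 := by
  have hq0 : (0 : ℝ) < q := by
    have := H.hq
    exact_mod_cast (by omega : 0 < q)
  have hint : ∀ s : ℝ, u < s → s < v → IsInt (q * Rot 2 k s ε) := fun s h1 h2 =>
    H.int_of_ne (i := i) ⟨u, H.incl G h1 h2 G.hu⟩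
  have hc : Continuous (fun s => (q : ℝ) * Rot 2 k s ε) :=
    continuous_const.mul (rot_cont k ε)
  have ha := rot_anti k ε
  by_contra hne
  rcases lt_or_gt_of_ne hne with hlt | hgt
  · -- Rot θ' < R0, so θ < θ'
    have hθ : θ < θ' := by
      by_contra hc'
      have := ha (not_lt.1 hc')
      simp only at this
      rw [hR] at this
      linarith
    have h1 : (q : ℝ) * Rot 2 k θ' ε + 1 / 2 ≤ q * Rot 2 k θ ε := by
      have h2 := isInt_sub (hint θ G.ut G.tv) (hint θ' hu hv)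
      have h3 : 0 < (q : ℝ) * Rot 2 k θ ε - q * Rot 2 k θ' ε := by
        rw [hR, ← mul_sub]
        exact mul_pos hq0 (by linarith)
      by_contra h4
      rw [not_le] at h4
      have h5 := isInt_eq_zero h2 (by rw [abs_of_pos h3]; linarith)
      linarith
    obtain ⟨s, hs, hs2⟩ := intermediate_value_Icc' hθ.le hc.continuousOn
      (show (q : ℝ) * Rot 2 k θ' ε + 1 / 2 ∈ Icc ((q : ℝ) * Rot 2 k θ' ε) (q * Rot 2 k θ ε) from
        ⟨by linarith, h1⟩)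
    have h6 := hint s (lt_of_lt_of_le G.ut hs.1) (lt_of_le_of_lt hs.2 hv)
    simp only at hs2
    rw [hs2] at h6
    exact nonint_half (hint θ' hu hv) h6
  · have hθ : θ' < θ := by
      by_contra hc'
      have := ha (not_lt.1 hc')
      simp only at this
      rw [hR] at this
      linarith
    have h1 : (q : ℝ) * Rot 2 k θ ε + 1 / 2 ≤ q * Rot 2 k θ' ε := by
      have h2 := isInt_sub (hint θ' hu hv) (hint θ G.ut G.tv)
      have h3 : 0 < (q : ℝ) * Rot 2 k θ' ε - q * Rot 2 k θ ε := by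
        rw [hR, ← mul_sub]
        exact mul_pos hq0 (by linarith)
      by_contra h4
      rw [not_le] at h4
      have h5 := isInt_eq_zero h2 (by rw [abs_of_pos h3]; linarith)
      linarith
    obtain ⟨s, hs, hs2⟩ := intermediate_value_Icc' hθ.le hc.continuousOn
      (show (q : ℝ) * Rot 2 k θ ε + 1 / 2 ∈ Icc ((q : ℝ) * Rot 2 k θ ε) (q * Rot 2 k θ' ε) from
        ⟨by linarith, h1⟩)
    have h6 := hint s (lt_of_lt_of_le hu hs.1) (lt_of_le_of_lt hs.2 G.tv)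
    simp only at hs2
    rw [hs2] at h6
    exact nonint_half (hint θ G.ut G.tv) h6

lemma Hy.const (H : Hy k q ε R0) {θ u v : ℝ} {i : ℕ} (hR : Rot 2 k θ ε = R0)
    (G : Gp k q ε θ i u v) {θ' : ℝ} (hu : u ≤ θ') (hv : θ' ≤ v) : Rot 2 k θ' ε = R0 := by
  have h1 : EqOn (fun s => Rot 2 k s ε) (fun _ => R0) (Ioo u v) := fun s hs =>
    H.const_open hR G hs.1 hs.2
  have h2 := h1.closure (rot_cont k ε) continuous_const
  rw [closure_Ioo (ne_of_lt (G.ut.trans G.tv))] at h2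
  exact h2 ⟨hu, hv⟩

/-- equality of the sets along the gap -/
lemma Hy.incl' (H : Hy k q ε R0) {θ θ' u v : ℝ} {i : ℕ} (hR : Rot 2 k θ ε = R0)
    (hP : ¬ IsP (k * q) θ) (G : Gp k q ε θ i u v) (hu : u < θ') (hv : θ' < v)
    (hP' : ¬ IsP (k * q) θ') {i' : ℕ} {y : ℝ} (hy : y ∈ Th (k * q) θ' (sh i' ε)) :
    y ∈ Th (k * q) θ (sh i' ε) := by
  obtain ⟨x, hx⟩ := H.ne hR hP i'
  have hx' := H.incl G hu hv hx
  obtain ⟨t, m, ht⟩ := (H.sng (H.const_open hR G hu hv) hP' i').2 x hx' y hy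
  have h1 := H.img hx (k * t) (-m)
  have h2 : sh (k * t + i') ε = sh i' ε := by
    rw [Nat.add_comm]
    exact sh_mul H.exw.per i' t
  rw [h2] at h1
  have h3 : y = 2 ^ (k * t) * x + ((-m : ℤ) : ℝ) := by
    push_cast
    linarith
  rw [h3]
  exact h1

/-- periodic angles nearby -/
lemma Hy.nearL (H : Hy k q ε R0) {a θ : ℝ} (h : θ < a) :
    ∃ θ' : ℝ, θ < θ' ∧ θ' < a ∧ ∀ x : ℝ, IsP (k * q) x → ¬ (θ' ≤ x ∧ x < a) := by
  obtain ⟨δ, hδ, hd⟩ := isP_iso H.K1 a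
  have hm : max θ (a - δ) < a := max_lt h (by linarith)
  refine ⟨(max θ (a - δ) + a) / 2, ?_, by linarith, ?_⟩
  · have := le_max_left θ (a - δ)
    linarith
  · rintro x hx ⟨h1, h2⟩
    have h3 := hd x hx (ne_of_lt h2)
    rw [abs_of_neg (by linarith)] at h3
    have := le_max_right θ (a - δ)
    linarith

lemma Hy.nearR (H : Hy k q ε R0) {b θ : ℝ} (h : b < θ) :
    ∃ θ' : ℝ, b < θ' ∧ θ' < θ ∧ ∀ x : ℝ, IsP (k * q) x → ¬ (b < x ∧ x ≤ θ') := by
  obtain ⟨δ, hδ, hd⟩ := isP_iso H.K1 b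
  have hm : b < min θ (b + δ) := lt_min h (by linarith)
  refine ⟨(min θ (b + δ) + b) / 2, by linarith, ?_, ?_⟩
  · have := min_le_left θ (b + δ)
    linarith
  · rintro x hx ⟨h1, h2⟩
    have h3 := hd x hx (ne_of_gt h1)
    rw [abs_of_pos (by linarith)] at h3
    have := min_le_right θ (b + δ)
    linarith

/-- the digits of a periodic angle change at the positions divisible by the period -/
lemma Hy.nochange (H : Hy k q ε R0) {c θ1 θ2 : ℝ} {i1 i2 : ℕ} (hc : IsP (k * q) c)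
    (hex : ∀ d : ℕ, 0 < d → d < k * q → ¬ IsP d c) (h1 : θ1 < c) (h2 : c < θ2)
    (h1' : c < θ1 + 1) (h2' : θ2 < c + 1)
    (hno : ∀ (t : ℕ) (s : ℤ), θ1 ≤ 2 ^ t * c + s → 2 ^ t * c + s ≤ θ2 → 2 ^ t * c + s = c)
    (w1 : Cod 2 θ1 c (sh i1 ε)) (w2 : Cod 2 θ2 c (sh i2 ε)) : False := by
  have hk := H.hk
  have hq := H.hq
  have hK := H.K1
  have hkK : k < k * q := by
    calc k = k * 1 := (Nat.mul_one k).symm
      _ < k * q := Nat.mul_lt_mul_of_pos_left (by omega) (by omega)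
  -- position K - 1
  obtain ⟨N, hN⟩ := isP_iff.1 hc
  have hA1 := w1.2 (k * q - 1)
  have hA2 := w2.2 (k * q - 1)
  rw [Nat.sub_add_cancel hK] at hA1 hA2
  have e1 : ⌊((2 : ℕ) : ℝ) ^ (k * q) * c - θ1⌋ = N := by
    rw [Int.floor_eq_iff]
    push_cast
    constructor <;> linarith
  have e2 : ⌊((2 : ℕ) : ℝ) ^ (k * q) * c - θ2⌋ = N - 1 := by
    rw [Int.floor_eq_iff]
    push_cast
    constructor <;> linarith
  rw [e1] at hA1
  rw [e2] at hA2
  -- position K - 1 + k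
  have hB1 := w1.2 (k * q - 1 + k)
  have hB2 := w2.2 (k * q - 1 + k)
  rw [show k * q - 1 + k + 1 = k * q + k by omega] at hB1 hB2
  have hne : ∀ s : ℤ, ¬ (θ1 ≤ 2 ^ (k * q + k) * c + s ∧ 2 ^ (k * q + k) * c + s ≤ θ2) := by
    rintro s ⟨g1, g2⟩
    have h3 := hno (k * q + k) s g1 g2
    have h4 : IsP (k * q + k) c := by
      rw [isP_iff]
      exact ⟨-s, by push_cast; linarith⟩
    have h5 := isP_exact_dvd hK hc hex h4
    have h6 : k * q ∣ k := (Nat.dvd_add_right (dvd_refl (k * q))).1 h5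
    have := Nat.le_of_dvd (by omega) h6
    omega
  have e3 : ⌊((2 : ℕ) : ℝ) ^ (k * q + k) * c - θ2⌋ = ⌊((2 : ℕ) : ℝ) ^ (k * q + k) * c - θ1⌋ := by
    rw [Int.floor_eq_iff]
    set m : ℤ := ⌊((2 : ℕ) : ℝ) ^ (k * q + k) * c - θ1⌋ with hm
    have f1 : (m : ℝ) ≤ ((2 : ℕ) : ℝ) ^ (k * q + k) * c - θ1 := Int.floor_le _
    have f2 : ((2 : ℕ) : ℝ) ^ (k * q + k) * c - θ1 < m + 1 := Int.lt_floor_add_one _
    push_cast at f1 f2 ⊢
    refine ⟨?_, by linarith⟩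
    by_contra hcc
    rw [not_le] at hcc
    refine hne (-m) ⟨?_, ?_⟩ <;> push_cast <;> linarith
  rw [e3] at hB2
  have p1 : sh i1 ε (k * q - 1 + k) = sh i1 ε (k * q - 1) := per_sh H.exw.per i1 _
  have p2 : sh i2 ε (k * q - 1 + k) = sh i2 ε (k * q - 1) := per_sh H.exw.per i2 _
  rw [p1] at hB1
  rw [p2] at hB2
  push_cast at hA1 hA2 hB1 hB2
  omega

/-- exactness of the period of the points -/
lemma Hy.exact (H : Hy k q ε R0) {θ : ℝ} (hR : Rot 2 k θ ε = R0) {i : ℕ} {x : ℝ}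
    (hx : x ∈ Th (k * q) θ (sh i ε)) : ∀ d : ℕ, 0 < d → d < k * q → ¬ IsP d x := by
  intro d h0 h1 hd
  obtain ⟨m, hm⟩ := isP_iff.1 hd
  have h2 := H.img hx d (-m)
  have h3 : 2 ^ d * x + ((-m : ℤ) : ℝ) = x := by push_cast; linarith
  rw [h3] at h2
  have h4 : Eq2 (sh i ε) (sh (d + i) ε) :=
    (H.THB (k * q) θ (sh i ε) H.K1 (H.perK i)).2.2.2.2.1 _ ⟨x, hx, h2⟩
  rw [← sh_sh] at h4
  obtain ⟨d', rfl⟩ := (H.exw.shift H.hk i).dvd H.hk h4.symm
  have h5 : 0 < d' := Nat.pos_of_ne_zero (by rintro rfl; simp at h0)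
  have h6 : d' < q := by
    by_contra hc
    have := Nat.mul_le_mul_left k (not_lt.1 hc)
    omega
  exact H.nop hR hx d' h5 h6 hd

theorem main (H : Hy k q ε R0) : ∃ (a b : ℝ) (i m : ℕ), Pla k q ε R0 a b i m := by
  -- a point which is not periodic
  obtain ⟨θ0, hR0, hP0⟩ : ∃ θ0 : ℝ, Rot 2 k θ0 ε = R0 ∧ ¬ IsP (k * q) θ0 := by
    obtain ⟨θ1, h1⟩ := rot_surj k ε H.hk R0
    have hc : Continuous (fun s => (q : ℝ) * Rot 2 k s ε) := continuous_const.mul (rot_cont k ε)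
    obtain ⟨δ, hδ, hd⟩ := Metric.continuous_iff.1 hc θ1 1 one_pos
    have hint : IsInt (Rot 2 (k * q) θ1 (sh 0 ε)) := by
      rw [H.rotK θ1 0, h1]
      exact H.den
    obtain ⟨θ', h2, h3, h4⟩ := (H.RTH (k * q) θ1 (sh 0 ε) H.K1 (H.perK 0)).2.2.1 hint δ hδ
    refine ⟨θ', ?_, h3⟩
    have h5 := hd θ' (by rw [Real.dist_eq]; exact h2)
    rw [Real.dist_eq] at h5
    have h6 : IsInt ((q : ℝ) * Rot 2 k θ' ε - q * Rot 2 k θ1 ε) := by
      refine isInt_sub (H.int_of_ne h4) ?_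
      rw [h1]
      exact H.den
    have h7 := isInt_eq_zero h6 h5
    have hq0 : (q : ℝ) ≠ 0 := by
      have := H.hq
      exact_mod_cast (by omega : q ≠ 0)
    rw [h1, ← mul_sub] at h7
    rcases mul_eq_zero.1 h7 with h8 | h8
    · exact absurd h8 hq0
    · linarith
  obtain ⟨i, a, b, G⟩ := H.gp hR0 hP0
  have hab : a < b := G.ut.trans G.tv
  have hl2 := G.l2
  obtain ⟨t0, ht0⟩ := (H.sng hR0 hP0 i).2 a G.hu b G.hv
  have hcod : ∀ θ : ℝ, a < θ → θ < b → Cod 2 θ a (sh i ε) ∧ Cod 2 θ b (sh i ε) := fun θ h1 h2 =>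
    ⟨(H.incl G h1 h2 G.hu).2, (H.incl G h1 h2 G.hv).2⟩
  have hgapa : ∀ (t : ℕ) (s : ℤ), ¬ (a < 2 ^ t * a + s ∧ 2 ^ t * a + s < b) := fun t s =>
    G.no _ _ (H.img G.hu t s)
  have hgapb : ∀ (t : ℕ) (s : ℤ), ¬ (a < 2 ^ t * b + s ∧ 2 ^ t * b + s < b) := fun t s =>
    G.no _ _ (H.img G.hv t s)
  have hexa := H.exact hR0 G.hu
  have hexb := H.exact hR0 G.hv
  refine ⟨a, b, i, k * t0, ⟨H.hk, H.hq, H.exw, hab, G.l2, ?_, G.hu.1, hexa, ?_, hgapa, hcod⟩⟩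
  · intro θ
    constructor
    · intro hR
      by_contra hn
      rw [not_and_or, not_le, not_le] at hn
      rcases hn with hlt | hgt
      · -- θ < a
        obtain ⟨θ', h1, h2, h3⟩ := H.nearL (max_lt hlt (by linarith : a - 1 < a))
        have h1a := lt_of_le_of_lt (le_max_left _ _) h1
        have h1b := lt_of_le_of_lt (le_max_right _ _) h1
        have hR' : Rot 2 k θ' ε = R0 := by
          have g1 := rot_anti k ε h1a.le
          have g2 := rot_anti k ε (h2.trans G.ut).le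
          simp only at g1 g2
          rw [hR] at g1
          rw [hR0] at g2
          exact le_antisymm g1 g2
        have hP' : ¬ IsP (k * q) θ' := fun hp => h3 θ' hp ⟨le_rfl, h2⟩
        obtain ⟨i', u', v', G'⟩ := H.gp hR' hP'
        have hva : a ≤ v' := by
          by_contra hc
          exact h3 v' G'.hv.1 ⟨G'.tv.le, not_le.1 hc⟩
        rcases eq_or_lt_of_le hva with heq | hlt'
        · -- v' = a
          rw [← heq] at G'
          obtain ⟨θ'', k1, k2⟩ := exists_between hab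
          refine H.nochange (c := a) (θ1 := θ') (θ2 := θ'') G.hu.1 hexa h2 k1 (by linarith)
            (by linarith) ?_ G'.hv.2 (hcod θ'' k1 k2).1
          intro t s g1 g2
          by_contra hne
          rcases lt_or_gt_of_ne hne with g3 | g3
          · exact h3 _ (((G.hu.1).pow t).add_int s) ⟨g1, g3⟩
          · exact hgapa t s ⟨g3, lt_of_le_of_lt g2 k2⟩
        · -- a < v'
          obtain ⟨θ'', k1, k2, k3⟩ := H.nearR (lt_min hab hlt')
          have hP'' : ¬ IsP (k * q) θ'' := fun hp => k3 θ'' hp ⟨k1, le_rfl⟩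
          have k2a := lt_of_lt_of_le k2 (min_le_left _ _)
          have k2b := lt_of_lt_of_le k2 (min_le_right _ _)
          have m1 : a ∈ Th (k * q) θ'' (sh i ε) := H.incl G k1 k2a G.hu
          have m2 := H.incl' hR' hP' G' (G'.ut.trans (h2.trans k1)) k2b hP'' m1
          exact G'.no _ _ m2 ⟨G'.ut.trans h2, hlt'⟩
      · -- b < θ
        obtain ⟨θ', h1, h2, h3⟩ := H.nearR (lt_min hgt (by linarith : b < b + 1))
        have h2a := lt_of_lt_of_le h2 (min_le_left _ _)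
        have h2b := lt_of_lt_of_le h2 (min_le_right _ _)
        have hR' : Rot 2 k θ' ε = R0 := by
          have g1 := rot_anti k ε h2a.le
          have g2 := rot_anti k ε (G.tv.trans h1).le
          simp only at g1 g2
          rw [hR] at g1
          rw [hR0] at g2
          exact le_antisymm g2 g1
        have hP' : ¬ IsP (k * q) θ' := fun hp => h3 θ' hp ⟨h1, le_rfl⟩
        obtain ⟨i', u', v', G'⟩ := H.gp hR' hP'
        have hub : u' ≤ b := by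
          by_contra hc
          exact h3 u' G'.hu.1 ⟨not_le.1 hc, G'.ut.le⟩
        rcases eq_or_lt_of_le hub with heq | hlt'
        · rw [heq] at G'
          obtain ⟨θ'', k1, k2⟩ := exists_between hab
          refine H.nochange (c := b) (θ1 := θ'') (θ2 := θ') G.hv.1 hexb k2 h1 (by linarith)
            (by linarith) ?_ (hcod θ'' k1 k2).2 G'.hu.2
          intro t s g1 g2
          by_contra hne
          rcases lt_or_gt_of_ne hne with g3 | g3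
          · exact hgapb t s ⟨lt_of_lt_of_le k1 g1, g3⟩
          · exact h3 _ (((G.hv.1).pow t).add_int s) ⟨g3, g2⟩
        · obtain ⟨θ'', k1, k2, k3⟩ := H.nearL (max_lt hab hlt')
          have hP'' : ¬ IsP (k * q) θ'' := fun hp => k3 θ'' hp ⟨le_rfl, k2⟩
          have k1a := lt_of_le_of_lt (le_max_left _ _) k1
          have k1b := lt_of_le_of_lt (le_max_right _ _) k1
          have m1 : b ∈ Th (k * q) θ'' (sh i ε) := H.incl G k1a k2 G.hv
          have m2 := H.incl' hR' hP' G' k1b ((k2.trans h1).trans G'.tv) hP'' m1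
          exact G'.no _ _ m2 ⟨hlt', h1.trans G'.tv⟩
    · rintro ⟨h1, h2⟩
      exact H.const hR0 G h1 h2
  · have := isInt_neg ht0
    rwa [neg_sub] at this

end PLA_

/-- PLA: the plateau. -/
theorem p_PLA (hTHB : T_THB) (hTLC : T_TLC) (hSNG : T_SNG) (hRTH : T_RTH) (hPWR : T_PWR) :
    T_PLA := by
  intro k q ε R0 hk hq hex hden hden'
  exact PLA_.main ⟨hk, hq, hex, hden, hden', hTHB, hTLC, hSNG, hRTH, hPWR⟩

end Pool.Agent.PSat
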