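import Pool.Agent.PSat.Basic

/-!
# ROT: the continuation of the bifurcating cycle over the disc
-/

set_option autoImplicit false

open Complex Filter Topology Set
open Pool.Agent.Multibrot (MM)
open Pool.Agent.Limb (F)
open Pool.Agent.PLim (Rho IsBot IsLog Crit Dig Rot IsInt Label lab Ex Cod Per Lands InZ LabR
  ZVn ONTOn NCn OMXn SECTn LocFix)
open Pool.Agent.MEX (Exa)
open Pool.Agent.MEY (Pt Omg DD Glob)

namespace Pool.Agent.PSat

namespace ROT_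

/-- value sets of two finite families which agree off the centre agree at the centre -/
lemma vals_sub {S1 S2 : Finset ℂ} {f1 f2 : ℂ → ℂ → ℂ} {μ0 : ℂ}
    (h1 : ∀ s ∈ S1, ContinuousAt (f1 s) μ0) (h2 : ∀ s ∈ S2, ContinuousAt (f2 s) μ0)
    (h : ∀ᶠ μ in 𝓝[≠] μ0, ∀ z, (∃ s ∈ S1, f1 s μ = z) → ∃ s ∈ S2, f2 s μ = z) :
    ∀ z, (∃ s ∈ S1, f1 s μ0 = z) → ∃ s ∈ S2, f2 s μ0 = z := by
  rintro z ⟨s, hs, rfl⟩
  by_contra hn
  push Not at hn
  have h3 : ∀ᶠ μ in 𝓝 μ0, ∀ s' ∈ S2, f2 s' μ ≠ f1 s μ := by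
    rw [Filter.eventually_all_finset]
    intro s' hs'
    have h4 := ((h2 s' hs').sub (h1 s hs)).eventually_ne (y := (0 : ℂ))
      (sub_ne_zero.mpr (hn s' hs'))
    filter_upwards [h4] with μ hμ
    exact sub_ne_zero.mp hμ
  obtain ⟨μ, h5, h6⟩ := (h.and (h3.filter_mono nhdsWithin_le_nhds)).exists
  obtain ⟨s', hs', h7⟩ := h5 (f1 s μ) ⟨s, hs, rfl⟩
  exact h6 s' hs' h7

lemma diffI {ψ f : ℂ → ℂ} {s : Set ℂ} (hψ : DifferentiableOn ℂ ψ s) (hf : DifferentiableOn ℂ f s)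
    (j : ℕ) : DifferentiableOn ℂ (fun μ => (F 2 (ψ μ))^[j] (f μ)) s := by
  induction j with
  | zero => simpa using hf
  | succ j ih =>
    simp only [Function.iterate_succ_apply', F]
    exact (ih.pow 2).add hψ

lemma diffR {ψ f : ℂ → ℂ} {s : Set ℂ} (hψ : DifferentiableOn ℂ ψ s) (hf : DifferentiableOn ℂ f s)
    (K : ℕ) : DifferentiableOn ℂ (fun μ => Rho 2 K (ψ μ) (f μ)) s := by
  simp only [Pool.Agent.PLim.CNT_rho]
  apply DifferentiableOn.fun_finsetProd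
  intro j _
  exact ((diffI hψ hf j).pow _).const_mul _

/-- the cycle has exactly `K` points -/
lemma cyc_card {K : ℕ} {c z : ℂ} (h : (F 2 c)^[K] z = z) (hex : Exa 2 K c z) :
    ((Finset.range K).image (fun j => (F 2 c)^[j] z)).card = K := by
  rw [Finset.card_image_of_injOn, Finset.card_range]
  have key : ∀ i j : ℕ, i < j → j < K → (F 2 c)^[i] z = (F 2 c)^[j] z → False := by
    intro i j hij hj he
    refine hex (K - j + i) (by omega) (by omega) ?_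
    rw [Function.iterate_add_apply, he, ← Function.iterate_add_apply]
    rw [show K - j + j = K by omega, h]
  intro i hi j hj hij
  rw [Finset.coe_range, mem_Iio] at hi hj
  simp only at hij
  rcases lt_trichotomy i j with h1 | h1 | h1
  · exact (key i j h1 hj hij).elim
  · exact h1
  · exact (key j i h1 hi hij.symm).elim

/-- the local branches -/
structure LB (Y : Full) (μ1 : ℂ) (δ : ℝ) (S : Finset ℂ) (f : ℂ → ℂ → ℂ) : Prop where
  hδ : 0 < δ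
  sub : Metric.ball μ1 δ ⊆ Y.B
  pt : ∀ s ∈ S, Y.Fx μ1 s ∧ Y.rh μ1 s ≠ 1 ∧ Exa 2 Y.K (Y.ψ μ1) s ∧ f s μ1 = s ∧
    DifferentiableOn ℂ (f s) (Metric.ball μ1 δ)
  inj : ∀ s ∈ S, ∀ s' ∈ S, ∀ μ ∈ Metric.ball μ1 δ, f s μ = f s' μ → s = s'
  all : ∀ s ∈ S, ∀ μ ∈ Metric.ball μ1 δ, Y.Fx μ (f s μ) ∧ Exa 2 Y.K (Y.ψ μ) (f s μ) ∧
    Y.rh μ (f s μ) ≠ 1
  iff : ∀ μ ∈ Metric.ball μ1 δ, μ ≠ μ1 → ∀ z : ℂ, Sb Y μ z ↔ ∃ s ∈ S, f s μ = z

variable {Y : Full}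

lemma LB.cont {μ1 : ℂ} {δ : ℝ} {S : Finset ℂ} {f : ℂ → ℂ → ℂ} (h : LB Y μ1 δ S f) {s : ℂ}
    (hs : s ∈ S) {μ : ℂ} (hμ : μ ∈ Metric.ball μ1 δ) : ContinuousAt (f s) μ :=
  ((h.pt s hs).2.2.2.2.differentiableAt (Metric.isOpen_ball.mem_nhds hμ)).continuousAt

lemma LB.trans {μ1 μ2 : ℂ} {δ1 δ2 : ℝ} {S1 S2 : Finset ℂ} {f1 f2 : ℂ → ℂ → ℂ}
    (h1 : LB Y μ1 δ1 S1 f1) (h2 : LB Y μ2 δ2 S2 f2) (hm : μ2 ∈ Metric.ball μ1 δ1) (z : ℂ) :
    z ∈ S2 ↔ ∃ s ∈ S1, f1 s μ2 = z := by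
  have h3 : z ∈ S2 ↔ ∃ s ∈ S2, f2 s μ2 = z := by
    constructor
    · intro hz
      exact ⟨z, hz, (h2.pt z hz).2.2.2.1⟩
    · rintro ⟨s, hs, rfl⟩
      rw [(h2.pt s hs).2.2.2.1]
      exact hs
  have hne : ∀ᶠ μ in 𝓝[≠] μ2, μ ≠ μ1 := by
    by_cases he : μ2 = μ1
    · rw [he]
      exact self_mem_nhdsWithin
    · exact (continuousAt_id.eventually_ne he).filter_mono nhdsWithin_le_nhds
  have hev : ∀ᶠ μ in 𝓝[≠] μ2, ∀ z, (∃ s ∈ S1, f1 s μ = z) ↔ ∃ s ∈ S2, f2 s μ = z := by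
    filter_upwards [hne, self_mem_nhdsWithin,
      nhdsWithin_le_nhds (Metric.isOpen_ball.mem_nhds hm),
      nhdsWithin_le_nhds (Metric.ball_mem_nhds μ2 h2.hδ)] with μ ha hb hc hd z
    rw [← h1.iff μ hc ha z, ← h2.iff μ hd hb z]
  rw [h3]
  constructor
  · exact vals_sub (fun s hs => h2.cont hs (Metric.mem_ball_self h2.hδ))
      (fun s hs => h1.cont hs hm) (hev.mono fun μ h z => (h z).mpr) z
  · exact vals_sub (fun s hs => h1.cont hs hm)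
      (fun s hs => h2.cont hs (Metric.mem_ball_self h2.hδ)) (hev.mono fun μ h z => (h z).mp) z

lemma LB.card_eq {μ1 μ2 : ℂ} {δ1 δ2 : ℝ} {S1 S2 : Finset ℂ} {f1 f2 : ℂ → ℂ → ℂ}
    (h1 : LB Y μ1 δ1 S1 f1) (h2 : LB Y μ2 δ2 S2 f2) (hm : μ2 ∈ Metric.ball μ1 δ1) :
    S2.card = S1.card := by
  have h3 : S2 = S1.image (fun s => f1 s μ2) := by
    ext z
    rw [h1.trans h2 hm z, Finset.mem_image]
  rw [h3]
  exact Finset.card_image_of_injOn fun s hs s' hs' he => h1.inj s hs s' hs' μ2 hm he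

/-- near the root -/
lemma near_root {R r : ℝ} {g L : ℂ → ℂ} (hY : Dt Y.toCtx) (hB : Bif Y.toCtx R r g L)
    {δ0 : ℝ} (hδ0 : 0 < δ0)
    (hn : ∀ μ z : ℂ, μ ≠ Y.m0 → ‖μ - Y.m0‖ < δ0 → Y.Fx μ z → (Sb Y μ z ↔ Bc Y.toCtx r g μ z)) :
    ∃ δ : ℝ, 0 < δ ∧ δ ≤ R ∧ ∀ (μ1 : ℂ) (δ1 : ℝ) (S1 : Finset ℂ) (f1 : ℂ → ℂ → ℂ),
      LB Y μ1 δ1 S1 f1 → ‖μ1 - Y.m0‖ < δ → S1.card = Y.K ∧ ∀ z ∈ S1, Y.rh μ1 z = L μ1 := by
  obtain ⟨δs, hδs, hsurj⟩ := hB.surj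
  refine ⟨min (min δ0 δs) R, lt_min (lt_min hδ0 hδs) hB.hR, min_le_right _ _, ?_⟩
  intro μ1 δ1 S1 f1 h hd
  have hd0 : ‖μ1 - Y.m0‖ < δ0 := lt_of_lt_of_le hd ((min_le_left _ _).trans (min_le_left _ _))
  have hds : ‖μ1 - Y.m0‖ < δs := lt_of_lt_of_le hd ((min_le_left _ _).trans (min_le_right _ _))
  have hdR : ‖μ1 - Y.m0‖ < R := lt_of_lt_of_le hd (min_le_right _ _)
  have hμB : μ1 ∈ Y.B := h.sub (Metric.mem_ball_self h.hδ)
  have hcn : ContinuousAt (fun μ : ℂ => ‖μ - Y.m0‖) μ1 := by fun_prop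
  -- the nearby points
  have key : ∀ᶠ μ in 𝓝[≠] μ1, μ ∈ Metric.ball μ1 δ1 ∧ μ ≠ Y.m0 ∧ ‖μ - Y.m0‖ < δ0 ∧
      ‖μ - Y.m0‖ < δs ∧ μ ≠ μ1 := by
    filter_upwards [self_mem_nhdsWithin, nhdsWithin_le_nhds (Metric.ball_mem_nhds μ1 h.hδ),
      nhdsWithin_le_nhds (hcn.eventually_lt_const hd0),
      nhdsWithin_le_nhds (hcn.eventually_lt_const hds)] with μ ha hb hc hd'
    exact ⟨hb, fun h0 => (h.sub hb).2 h0, hc, hd', ha⟩
  constructor
  · obtain ⟨μ2, hb, h0, hc, hd', hne⟩ := key.exists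
    obtain ⟨z', hz', hz0, hg⟩ := hsurj μ2 h0 hd'
    have hp := hB.pt z' hz' hz0
    rw [hg] at hp
    have h3 : S1.image (fun s => f1 s μ2) =
        (Finset.range Y.K).image (fun j => (F 2 (Y.ψ μ2))^[j] z') := by
      ext z
      rw [Finset.mem_image, Finset.mem_image]
      rw [← h.iff μ2 hb hne z]
      constructor
      · intro hs
        have hfx : Y.Fx μ2 z := hs.1
        obtain ⟨z'', hz'', hz0', hg', j, hj⟩ := (hn μ2 z h0 hc hfx).mp hs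
        obtain ⟨i, hi⟩ := hB.one z' hz' z'' hz'' hz0 hz0' (by rw [hg, hg'])
        rw [hg] at hi
        refine ⟨(j + i) % Y.K, Finset.mem_range.mpr (Nat.mod_lt _ hY.hK1), ?_⟩
        rw [fix_mod hp.fix, Function.iterate_add_apply, hi, hj]
      · rintro ⟨j, -, hj⟩
        have hfx : Y.Fx μ2 z := by
          rw [← hj]
          exact fix_iter hp.fix j
        exact (hn μ2 z h0 hc hfx).mpr ⟨z', hz', hz0, hg, j, hj⟩
    have h4 : (S1.image (fun s => f1 s μ2)).card = S1.card :=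
      Finset.card_image_of_injOn fun s hs s' hs' he => h.inj s hs s' hs' μ2 hb he
    rw [← h4, h3]
    exact cyc_card hp.fix hp.exa
  · intro z hz
    have hself : μ1 ∈ Metric.ball μ1 δ1 := Metric.mem_ball_self h.hδ
    have hψ : DifferentiableOn ℂ Y.ψ (Metric.ball μ1 δ1) := hY.dψ.mono fun μ hμ =>
      hY.sub2 (h.sub hμ).1
    have hc1 : ContinuousAt (fun μ => Y.rh μ (f1 z μ)) μ1 :=
      ((diffR hψ (h.pt z hz).2.2.2.2 Y.K).differentiableAt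
        (Metric.isOpen_ball.mem_nhds hself)).continuousAt
    have hc2 : ContinuousAt L μ1 := (hB.dL.differentiableAt
      (Metric.isOpen_ball.mem_nhds (mem_ball_iff_norm.mpr hdR))).continuousAt
    have he : ∀ᶠ μ in 𝓝[≠] μ1, Y.rh μ (f1 z μ) = L μ := by
      filter_upwards [key] with μ ⟨hb, h0, hc, _, hne⟩
      have hs : Sb Y μ (f1 z μ) := (h.iff μ hb hne _).mpr ⟨z, hz, rfl⟩
      obtain ⟨z', hz', hz0, hg, j, hj⟩ := (hn μ _ h0 hc hs.1).mp hs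
      have hp := hB.pt z' hz' hz0
      rw [hg] at hp
      rw [← hj]
      exact (rho_iter hp.fix j).trans hp.mul
    have h5 := tendsto_nhds_unique_of_eventuallyEq (hc1.tendsto.mono_left nhdsWithin_le_nhds)
      (hc2.tendsto.mono_left nhdsWithin_le_nhds) he
    simp only [(h.pt z hz).2.2.2.1] at h5
    exact h5

/-- the multipliers near the root: the only attracting points are the bifurcating ones -/
lemma near_att {R r : ℝ} {g L : ℂ → ℂ} {X : Ctx} (hX : Dt X) (hKB : T_KBD)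
    (hB : Bif X R r g L)
    (hR0 : ∀ z : ℂ, X.Fx X.m0 z →
      (∃ j : ℕ, (F 2 (X.ψ X.m0))^[j] (X.χ X.m0) = z) ∨ 1 < ‖X.rh X.m0 z‖) :
    ∃ δ : ℝ, 0 < δ ∧ ∀ μ z w : ℂ, ‖μ - X.m0‖ < δ → Pt 2 X.K (X.ψ μ) z w → ‖w‖ < 1 →
      μ ≠ X.m0 ∧ w = L μ := by
  have hm2 : X.m0 ∈ Metric.ball X.m0 (2 * X.ρ) := hX.sub2 hX.mem0
  have hloc : ∀ z1 ∈ Metric.closedBall (0 : ℂ) 5, ∀ᶠ x : ℂ × ℂ in 𝓝 (X.m0, z1),
      ∀ w : ℂ, Pt 2 X.K (X.ψ x.1) x.2 w → ‖w‖ < 1 → x.1 ≠ X.m0 ∧ w = L x.1 := by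
    intro z1 _
    by_cases hfx : X.Fx X.m0 z1
    · rcases hR0 z1 hfx with ⟨j, hj⟩ | hrep
      · -- the cycle of `χ m0`
        obtain ⟨δu, hδu, huq⟩ := hB.uq
        -- `F^(k j' - j) z1 = χ m0`
        have hk := hX.pt X.m0 hm2
        have hback : (F 2 (X.ψ X.m0))^[X.k * j - j] z1 = X.χ X.m0 := by
          rw [← hj]
          exact fix_back hk.fix hX.hk j
        have hc := hX.iter_cont hm2 z1 (X.k * j - j)
        have h1 : ∀ᶠ x : ℂ × ℂ in 𝓝 (X.m0, z1),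
            ‖(F 2 (X.ψ x.1))^[X.k * j - j] x.2 - X.χ X.m0‖ < δu := by
          have h2 : ContinuousAt (fun x : ℂ × ℂ =>
              ‖(F 2 (X.ψ x.1))^[X.k * j - j] x.2 - X.χ X.m0‖) (X.m0, z1) :=
            (hc.sub continuousAt_const).norm
          refine h2.eventually_lt_const ?_
          simp only
          rw [hback, sub_self, norm_zero]
          exact hδu
        have h3 : ∀ᶠ x : ℂ × ℂ in 𝓝 (X.m0, z1), ‖x.1 - X.m0‖ < δu := by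
          have h2 : ContinuousAt (fun x : ℂ × ℂ => ‖x.1 - X.m0‖) (X.m0, z1) := by fun_prop
          refine h2.eventually_lt_const ?_
          simp only
          rw [sub_self, norm_zero]
          exact hδu
        have h4 : ∀ᶠ x : ℂ × ℂ in 𝓝 (X.m0, z1), x.1 ∈ Metric.ball X.m0 (2 * X.ρ) :=
          continuousAt_fst.eventually (Metric.isOpen_ball.mem_nhds hm2)
        filter_upwards [h1, h3, h4] with x hx1 hx3 hx4 w hp hw
        have hfx' : X.Fx x.1 ((F 2 (X.ψ x.1))^[X.k * j - j] x.2) := fix_iter hp.fix _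
        rcases huq x.1 _ hx3 hx1 hfx' with h5 | ⟨h5, h6, h7⟩
        · exfalso
          have h8 := exa_iter hp.fix hX.hK1 hp.exa (X.k * j - j)
          rw [h5] at h8
          refine h8 X.k hX.hk ?_ (hX.pt x.1 hx4).fix
          have := hX.hq
          have := hX.hk
          calc X.k = X.k * 1 := (mul_one _).symm
            _ < X.k * X.q := Nat.mul_lt_mul_of_pos_left (by omega) (by omega)
        · have hp' := hB.pt _ h5 h6
          rw [h7] at hp'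
          refine ⟨fun h8 => hB.gne _ h5 h6 (by rw [h7, h8]), ?_⟩
          rw [← hp.mul, ← hp'.mul]
          exact (rho_iter hp.fix _).symm
      · have h1 : ContinuousAt (fun x : ℂ × ℂ => ‖X.rh x.1 x.2‖) (X.m0, z1) :=
          (hX.rh_cont hm2 z1).norm
        filter_upwards [h1.eventually_const_lt hrep] with x hx w hp hw
        exfalso
        have h2 : X.rh x.1 x.2 = w := hp.mul
        rw [h2] at hx
        linarith
    · have h1 : ContinuousAt (fun x : ℂ × ℂ => (F 2 (X.ψ x.1))^[X.K] x.2 - x.2) (X.m0, z1) :=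
        (hX.iter_cont hm2 z1 X.K).sub continuousAt_snd
      filter_upwards [h1.eventually_ne (y := (0 : ℂ)) (sub_ne_zero.mpr hfx)] with x hx w hp _
      exact absurd (sub_eq_zero.mpr hp.fix) hx
  have h2 := (isCompact_closedBall (0 : ℂ) 5).eventually_forall_of_forall_eventually
    (P := fun μ z => ∀ w : ℂ, Pt 2 X.K (X.ψ μ) z w → ‖w‖ < 1 → μ ≠ X.m0 ∧ w = L μ) hloc
  have h3 : ∀ᶠ μ in 𝓝 X.m0, μ ∈ Metric.ball X.m0 (2 * X.ρ) :=
    Metric.isOpen_ball.mem_nhds hm2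
  obtain ⟨δ, hδ, hδ'⟩ := Metric.eventually_nhds_iff_ball.mp (h2.and h3)
  refine ⟨δ, hδ, fun μ z w hμ hp hw => ?_⟩
  obtain ⟨h4, h5⟩ := hδ' μ (mem_ball_iff_norm.mpr hμ)
  refine h4 z ?_ w hp hw
  rw [mem_closedBall_zero_iff]
  exact (hKB X.K (X.ψ μ) z hX.hK1 (hX.bd μ h5) hp.fix).1

end ROT_

open ROT_

theorem p_ROT (hNRM : T_NRM) (hLBC : T_LBC) (hLCF : T_LCF) (hNR0 : T_NR0) (hRP0 : T_RP0)
    (hKBD : T_KBD) : T_ROT := by
  intro X hX hC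
  obtain ⟨Y, rfl, hY⟩ := hNRM X hX hC
  obtain ⟨R, r, g, L0, -, -, hB⟩ := hLBC Y.toCtx hX 1 one_pos
  obtain ⟨δ0, hδ0, hn⟩ := hNR0 Y hY R r g L0 hB
  obtain ⟨δr, hδr, hδrR, hroot⟩ := near_root hX hB hδ0 hn
  have hex : ∀ μ1 : ℂ, ∃ (δ : ℝ) (S : Finset ℂ) (f : ℂ → ℂ → ℂ), μ1 ∈ Y.B → LB Y μ1 δ S f := by
    intro μ1
    by_cases h : μ1 ∈ Y.B
    · obtain ⟨δ, S, f, h1, h2, h3, h4, h5, h6⟩ := hLCF Y hY μ1 h
      exact ⟨δ, S, f, fun _ => ⟨h1, h2, h3, h4, h5, h6⟩⟩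
    · exact ⟨0, ∅, fun _ _ => 0, fun h' => absurd h' h⟩
  choose D S f hLB using hex
  -- a point near the root
  obtain ⟨μ0, hμ0B, hμ0⟩ : ∃ μ0 ∈ Y.B, ‖μ0 - Y.m0‖ < δr := by
    have h1 : ∀ᶠ μ in 𝓝[≠] Y.m0, μ ∈ Y.B ∧ ‖μ - Y.m0‖ < δr := by
      filter_upwards [self_mem_nhdsWithin, nhdsWithin_le_nhds (Metric.ball_mem_nhds Y.m0 hδr),
        nhdsWithin_le_nhds (Metric.isOpen_ball.mem_nhds hX.mem0)] with μ ha hb hc
      exact ⟨⟨hc, ha⟩, mem_ball_iff_norm.mp hb⟩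
    obtain ⟨μ, h2, h3⟩ := h1.exists
    exact ⟨μ, h2, h3⟩
  have hBo := hX.B_isOpen
  -- the number of points
  have hcard : ∀ μ ∈ Y.B, (S μ).card = Y.K := by
    have h1 : Y.B ⊆ {μ | ∀ᶠ μ' in 𝓝 μ, μ' ∈ Y.B → (S μ').card = Y.K} := by
      refine hX.B_conn.subset_of_closure_inter_subset isOpen_setOfPred_eventually_nhds ?_ ?_
      · refine ⟨μ0, hμ0B, ?_⟩
        have hcn : ContinuousAt (fun μ : ℂ => ‖μ - Y.m0‖) μ0 := by fun_prop
        filter_upwards [hcn.eventually_lt_const hμ0] with μ hμ hμB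
        exact (hroot μ _ _ _ (hLB μ hμB) hμ).1
      · rintro μ1 ⟨hcl, hμ1⟩
        have h1 := hLB μ1 hμ1
        obtain ⟨μ2, h2, h3⟩ := mem_closure_iff_nhds.mp hcl _ (Metric.ball_mem_nhds μ1 h1.hδ)
        have h4 : (S μ2).card = Y.K := h3.self_of_nhds (h1.sub h2)
        have h5 : (S μ1).card = Y.K := by
          rw [← h4]
          exact (h1.card_eq (hLB μ2 (h1.sub h2)) h2).symm
        filter_upwards [Metric.ball_mem_nhds μ1 h1.hδ] with μ hμ hμB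
        rw [h1.card_eq (hLB μ hμB) hμ, h5]
    intro μ hμ
    exact (h1 hμ).self_of_nhds hμ
  -- the multipliers are the same
  have hrh : ∀ μ ∈ Y.B, ∀ z ∈ S μ, ∀ z' ∈ S μ, Y.rh μ z = Y.rh μ z' := by
    have h1 : Y.B ⊆ {μ | ∀ᶠ μ' in 𝓝 μ, μ' ∈ Y.B → ∀ z ∈ S μ', ∀ z' ∈ S μ',
        Y.rh μ' z = Y.rh μ' z'} := by
      refine hX.B_conn.subset_of_closure_inter_subset isOpen_setOfPred_eventually_nhds ?_ ?_
      · refine ⟨μ0, hμ0B, ?_⟩
        have hcn : ContinuousAt (fun μ : ℂ => ‖μ - Y.m0‖) μ0 := by fun_prop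
        filter_upwards [hcn.eventually_lt_const hμ0] with μ hμ hμB z hz z' hz'
        have h2 := (hroot μ _ _ _ (hLB μ hμB) hμ).2
        rw [h2 z hz, h2 z' hz']
      · rintro μ1 ⟨hcl, hμ1⟩
        have h1 := hLB μ1 hμ1
        obtain ⟨μ2, h2, h3⟩ := mem_closure_iff_nhds.mp hcl _ (Metric.ball_mem_nhds μ1 h1.hδ)
        have hψ : DifferentiableOn ℂ Y.ψ (Metric.ball μ1 (D μ1)) := hX.dψ.mono fun μ hμ =>
          hX.sub2 (h1.sub hμ).1
        have h4 : ∀ s ∈ S μ1, ∀ s' ∈ S μ1, EqOn (fun μ => Y.rh μ (f μ1 s μ))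
            (fun μ => Y.rh μ (f μ1 s' μ)) (Metric.ball μ1 (D μ1)) := by
          intro s hs s' hs'
          refine AnalyticOnNhd.eqOn_of_preconnected_of_eventuallyEq
            ((diffR hψ (h1.pt s hs).2.2.2.2 Y.K).analyticOnNhd Metric.isOpen_ball)
            ((diffR hψ (h1.pt s' hs').2.2.2.2 Y.K).analyticOnNhd Metric.isOpen_ball)
            (convex_ball _ _).isPreconnected h2 ?_
          filter_upwards [h3, Metric.isOpen_ball.mem_nhds h2] with μ ha hb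
          have hb' := h1.sub hb
          exact ha hb' _ ((h1.trans (hLB μ hb') hb _).mpr ⟨s, hs, rfl⟩) _
            ((h1.trans (hLB μ hb') hb _).mpr ⟨s', hs', rfl⟩)
        filter_upwards [Metric.ball_mem_nhds μ1 h1.hδ] with μ hμ hμB z hz z' hz'
        obtain ⟨s, hs, rfl⟩ := (h1.trans (hLB μ hμB) hμ z).mp hz
        obtain ⟨s', hs', rfl⟩ := (h1.trans (hLB μ hμB) hμ z').mp hz'
        exact h4 s hs s' hs' hμ
    intro μ hμ
    exact (h1 hμ).self_of_nhds hμ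
  -- the multiplier
  obtain ⟨L, hL0, hL⟩ : ∃ L : ℂ → ℂ, L Y.m0 = 1 ∧ ∀ μ ∈ Y.B, ∀ z ∈ S μ, Y.rh μ z = L μ := by
    classical
    refine ⟨fun μ => if μ = Y.m0 then 1 else
      if h : ∃ z, z ∈ S μ then Y.rh μ h.choose else 0, if_pos rfl, ?_⟩
    intro μ hμ z hz
    have h0 : μ ≠ Y.m0 := fun h0 => hμ.2 h0
    have h1 : ∃ z, z ∈ S μ := ⟨z, hz⟩
    simp only [if_neg h0, dif_pos h1]
    exact hrh μ hμ z hz _ h1.choose_spec
  have hne : ∀ μ ∈ Y.B, ∃ z, z ∈ S μ := by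
    intro μ hμ
    have h1 : 0 < (S μ).card := by
      rw [hcard μ hμ]
      exact hX.hK1
    exact Finset.card_pos.mp h1
  have hLnear : ∀ μ : ℂ, ‖μ - Y.m0‖ < δr → μ ∈ Metric.ball Y.m0 Y.ρ → L μ = L0 μ := by
    intro μ hμ hμ'
    by_cases h0 : μ = Y.m0
    · rw [h0, hL0, hB.L0]
    · obtain ⟨z, hz⟩ := hne μ ⟨hμ', h0⟩
      rw [← hL μ ⟨hμ', h0⟩ z hz]
      exact (hroot μ _ _ _ (hLB μ ⟨hμ', h0⟩) hμ).2 z hz
  have hLev : L =ᶠ[𝓝 Y.m0] L0 := by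
    filter_upwards [Metric.ball_mem_nhds Y.m0 hδr, Metric.isOpen_ball.mem_nhds hX.mem0] with μ ha hb
    exact hLnear μ (mem_ball_iff_norm.mp ha) hb
  have hL0d : DifferentiableAt ℂ L0 Y.m0 := hB.dL.differentiableAt
    (Metric.ball_mem_nhds _ hB.hR)
  refine ⟨L, S, ?_, hL0, ?_, ?_, ?_, hcard, ?_, ?_, ?_⟩
  · -- differentiability
    intro μ1 hμ1
    refine DifferentiableAt.differentiableWithinAt ?_
    by_cases h0 : μ1 = Y.m0
    · rw [h0]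
      exact hL0d.congr_of_eventuallyEq hLev
    · have hμB : μ1 ∈ Y.B := ⟨hμ1, h0⟩
      have h1 := hLB μ1 hμB
      obtain ⟨s, hs⟩ := hne μ1 hμB
      have hψ : DifferentiableOn ℂ Y.ψ (Metric.ball μ1 (D μ1)) := hX.dψ.mono fun μ hμ =>
        hX.sub2 (h1.sub hμ).1
      have h2 := (diffR hψ (h1.pt s hs).2.2.2.2 Y.K).differentiableAt
        (Metric.ball_mem_nhds μ1 h1.hδ)
      refine h2.congr_of_eventuallyEq ?_
      filter_upwards [Metric.ball_mem_nhds μ1 h1.hδ] with μ hμ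
      have hb' := h1.sub hμ
      exact (hL μ hb' _ ((h1.trans (hLB μ hb') hμ _).mpr ⟨s, hs, rfl⟩)).symm
  · rw [hLev.deriv_eq]
    exact hB.L1
  · -- the bound
    intro μ hμ
    by_cases h0 : μ = Y.m0
    · rw [h0, hL0, norm_one]
      exact Real.one_le_exp (by positivity)
    · obtain ⟨z, hz⟩ := hne μ ⟨hμ, h0⟩
      rw [← hL μ ⟨hμ, h0⟩ z hz]
      have h1 := (hLB μ ⟨hμ, h0⟩).pt z hz
      have h2 := (hKBD Y.K (Y.ψ μ) z hX.hK1 (hX.bd μ (hX.sub2 hμ)) h1.1).2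
      refine h2.trans ?_
      have h3 : Real.exp (3 * Y.K) = Real.exp 3 ^ Y.K := by
        rw [mul_comm, Real.exp_nat_mul]
      rw [h3]
      refine pow_le_pow_left₀ (by norm_num) ?_ _
      have h4 := Real.exp_one_gt_d9
      have h5 : Real.exp 3 = Real.exp 1 ^ 3 := by
        rw [← Real.exp_nat_mul]
        norm_num
      rw [h5]
      have h6 : (2.7182818283 : ℝ) ^ 3 ≤ Real.exp 1 ^ 3 :=
        pow_le_pow_left₀ (by norm_num) h4.le 3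
      norm_num at h6 ⊢
      linarith
  · intro μ hμ h0
    obtain ⟨z, hz⟩ := hne μ ⟨hμ, h0⟩
    rw [← hL μ ⟨hμ, h0⟩ z hz]
    exact ((hLB μ ⟨hμ, h0⟩).pt z hz).2.1
  · intro μ hμ z hz
    have h1 := (hLB μ hμ).pt z hz
    exact ⟨h1.1, h1.2.2.1, hL μ hμ z hz⟩
  · intro μ1 hμ1 z1 hz1
    have h1 := hLB μ1 hμ1
    refine ⟨D μ1, f μ1 z1, h1.hδ, h1.sub, (h1.pt z1 hz1).2.2.2.2, (h1.pt z1 hz1).2.2.2.1, ?_⟩
    intro μ hμ
    exact (h1.trans (hLB μ (h1.sub hμ)) hμ _).mpr ⟨z1, hz1, rfl⟩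
  · obtain ⟨δa, hδa, hatt⟩ := near_att hX hKBD hB (hRP0 Y.toCtx hX R r g L0 hB)
    refine ⟨min δa (min δr Y.ρ), lt_min hδa (lt_min hδr hX.hρ), ?_⟩
    intro μ z w hμ hp hw
    obtain ⟨h1, h2⟩ := hatt μ z w (lt_of_lt_of_le hμ (min_le_left _ _)) hp hw
    refine ⟨h1, ?_⟩
    rw [h2]
    refine (hLnear μ (lt_of_lt_of_le hμ ((min_le_right _ _).trans (min_le_left _ _))) ?_).symm
    exact mem_ball_iff_norm.mpr (lt_of_lt_of_le hμ ((min_le_right _ _).trans (min_le_right _ _)))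

end Pool.Agent.PSat
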