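import Pool.Agent.PSat.Basic

/-!
# PSAT, RP0: the other points are repelling at the root
-/

set_option autoImplicit false

open Complex Filter Topology Set
open Pool.Agent.Multibrot (MM)
open Pool.Agent.Limb (F)
open Pool.Agent.PLim (Rho IsBot IsLog Crit Dig Rot IsInt Label lab Ex Cod Per Lands InZ LabR
  ZVn ONTOn NCn OMXn SECTn LocFix)
open Pool.Agent.MEX (Exa)
open Pool.Agent.MEY (Pt Omg DD Glob)

namespace Pool.Agent.PSat

namespace RP0_

/-- no image of a point near `χ m0` is near `z` -/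
lemma sep {X : Ctx} (h : Dt X) {z : ℂ}
    (hz : ∀ j : ℕ, (F 2 (X.ψ X.m0))^[j] (X.χ X.m0) ≠ z) :
    ∃ η : ℝ, 0 < η ∧ ∀ μ w z' : ℂ, ‖μ - X.m0‖ < η → ‖w - X.χ X.m0‖ < η → ‖z' - z‖ < η →
      ∀ j < X.K, (F 2 (X.ψ μ))^[j] w ≠ z' := by
  have hm : X.m0 ∈ Metric.ball X.m0 (2 * X.ρ) := h.sub2 h.mem0
  have h1 : ∀ j ∈ Finset.range X.K, ∀ᶠ p : (ℂ × ℂ) × ℂ in 𝓝 ((X.m0, X.χ X.m0), z),
      (F 2 (X.ψ p.1.1))^[j] p.1.2 ≠ p.2 := by
    intro j _
    have hc1 : ContinuousAt (fun p : (ℂ × ℂ) × ℂ => (F 2 (X.ψ p.1.1))^[j] p.1.2)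
        ((X.m0, X.χ X.m0), z) :=
      ContinuousAt.comp (f := fun p : (ℂ × ℂ) × ℂ => p.1)
        (g := fun x : ℂ × ℂ => (F 2 (X.ψ x.1))^[j] x.2) (h.iter_cont hm (X.χ X.m0) j)
        continuous_fst.continuousAt
    have hc2 : ContinuousAt (fun p : (ℂ × ℂ) × ℂ => p.2) ((X.m0, X.χ X.m0), z) :=
      continuous_snd.continuousAt
    exact (hc1.ne_iff_eventually_ne hc2).1 (hz j)
  have h2 := (Filter.eventually_all_finset (Finset.range X.K)).2 h1
  obtain ⟨η, hη, hη'⟩ := Metric.eventually_nhds_iff_ball.mp h2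
  refine ⟨η, hη, fun μ w z' h3 h4 h5 j hj => ?_⟩
  have h6 : ((μ, w), z') ∈ Metric.ball ((X.m0, X.χ X.m0), z) η := by
    rw [Metric.mem_ball, Prod.dist_eq, max_lt_iff, Prod.dist_eq, max_lt_iff, dist_eq_norm,
      dist_eq_norm, dist_eq_norm]
    exact ⟨⟨h3, h4⟩, h5⟩
  exact hη' _ h6 j (Finset.mem_range.2 hj)

/-- near the root the points near `z` are not attracting -/
lemma main {X : Ctx} (h : Dt X) {R r : ℝ} {g L : ℂ → ℂ} (hB : Bif X R r g L) {z : ℂ}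
    (hz : ∀ j : ℕ, (F 2 (X.ψ X.m0))^[j] (X.χ X.m0) ≠ z) :
    ∃ δ : ℝ, 0 < δ ∧ δ ≤ X.ρ ∧ ∀ μ z' : ℂ, ‖μ - X.m0‖ < δ → ‖z' - z‖ < δ → X.Fx μ z' →
      (μ.re < 0 ∨ (μ ≠ X.m0 ∧ ‖L μ‖ < 1)) → 1 ≤ ‖X.rh μ z'‖ := by
  obtain ⟨η, hη, hsep⟩ := sep h hz
  have hm : X.m0 ∈ Metric.ball X.m0 (2 * X.ρ) := h.sub2 h.mem0
  obtain ⟨δ1, hδ1, hδ1'⟩ := Metric.continuousAt_iff.mp (h.chi_cont hm) η hη
  obtain ⟨δ2, hδ2, hsurj⟩ := hB.surj
  obtain ⟨δ3, hδ3, hprop⟩ := hB.prop η hη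
  refine ⟨min (min (min δ1 δ2) (min δ3 η)) X.ρ, by
    refine lt_min (lt_min (lt_min hδ1 hδ2) (lt_min hδ3 hη)) h.hρ, min_le_right _ _, ?_⟩
  intro μ z' h1 h2 h3 h4
  have hμ1 : ‖μ - X.m0‖ < δ1 := lt_of_lt_of_le h1
    ((min_le_left _ _).trans ((min_le_left _ _).trans (min_le_left _ _)))
  have hμ2 : ‖μ - X.m0‖ < δ2 := lt_of_lt_of_le h1
    ((min_le_left _ _).trans ((min_le_left _ _).trans (min_le_right _ _)))
  have hμ3 : ‖μ - X.m0‖ < δ3 := lt_of_lt_of_le h1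
    ((min_le_left _ _).trans ((min_le_right _ _).trans (min_le_left _ _)))
  have hμ4 : ‖μ - X.m0‖ < η := lt_of_lt_of_le h1
    ((min_le_left _ _).trans ((min_le_right _ _).trans (min_le_right _ _)))
  have hz4 : ‖z' - z‖ < η := lt_of_lt_of_le h2
    ((min_le_left _ _).trans ((min_le_right _ _).trans (min_le_right _ _)))
  have hμρ : μ ∈ Metric.ball X.m0 (2 * X.ρ) := h.sub2 (by
    rw [mem_ball_iff_norm]
    exact lt_of_lt_of_le h1 (min_le_right _ _))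
  by_contra hn
  rw [not_le] at hn
  rcases h4 with h5 | ⟨h5, h6⟩
  · have hp := h.pt μ hμρ
    obtain ⟨j, hj⟩ := Pool.Agent.PLim.a_ATU 2 X.k X.K (X.ψ μ) (X.χ μ) z' le_rfl h.hk h.hK1
      hp.fix h3 (by rw [hp.mul, norm_exp]; exact Real.exp_lt_one_iff.2 h5) hn
    have hχ : ‖X.χ μ - X.χ X.m0‖ < η := by
      rw [← dist_eq_norm]
      exact hδ1' (by rw [dist_eq_norm]; exact hμ1)
    refine hsep μ (X.χ μ) z' hμ4 hχ hz4 (j % X.K) (Nat.mod_lt _ h.hK1) ?_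
    rw [fix_mod (h.fx_chi hμρ) j, hj]
  · obtain ⟨w, hw1, hw2, hw3⟩ := hsurj μ h5 hμ2
    have hp := hB.pt w hw1 hw2
    rw [hw3] at hp
    obtain ⟨j, hj⟩ := Pool.Agent.PLim.a_ATU 2 X.K X.K (X.ψ μ) w z' le_rfl h.hK1 h.hK1
      hp.fix h3 (by rw [hp.mul]; exact h6) hn
    have hχ : ‖w - X.χ X.m0‖ < η := hprop w hw1 (by rw [hw3]; exact hμ3)
    refine hsep μ w z' hμ4 hχ hz4 (j % X.K) (Nat.mod_lt _ h.hK1) ?_
    rw [fix_mod hp.fix j, hj]

/-- the continuation, with the derivative of the multiplier -/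
lemma cont {X : Ctx} (h : Dt X) {μ1 z1 : ℂ} (hμ : μ1 ∈ Metric.ball X.m0 X.ρ) (hz : X.Fx μ1 z1)
    (hR : X.rh μ1 z1 ≠ 1) (h0 : X.rh μ1 z1 ≠ 0) (hle : ‖X.rh μ1 z1‖ ≤ 1) {e : ℝ} (he : 0 < e) :
    ∃ (δ : ℝ) (f : ℂ → ℂ), 0 < δ ∧ δ ≤ e ∧
      (∀ μ ∈ Metric.ball μ1 δ, ‖f μ - z1‖ < e ∧ X.Fx μ (f μ)) ∧
      DifferentiableOn ℂ (fun μ => X.rh μ (f μ)) (Metric.ball μ1 δ) ∧ f μ1 = z1 ∧
      deriv (fun μ => X.rh μ (f μ)) μ1 ≠ 0 := by
  obtain ⟨δ0, r, zf, h1, h2, hL⟩ := Pool.Agent.PLim.p_LOCZ 2 X.K (X.ψ μ1) z1 e le_rfl he hz hR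
  have hd : DifferentiableAt ℂ X.ψ μ1 := h.dψ.differentiableAt
    (Metric.isOpen_ball.mem_nhds (h.sub2 hμ))
  have h3 : ∀ᶠ μ in 𝓝 μ1, X.ψ μ ∈ Metric.ball (X.ψ μ1) δ0 ∧ μ ∈ Metric.ball X.m0 X.ρ :=
    (hd.continuousAt.eventually (Metric.ball_mem_nhds _ hL.hδ)).and
      (Metric.isOpen_ball.mem_nhds hμ)
  obtain ⟨δ, hδ, hδ'⟩ := Metric.eventually_nhds_iff_ball.mp h3
  have hdψ : DifferentiableOn ℂ X.ψ (Metric.ball μ1 (min δ e)) := h.dψ.mono fun μ hμ' =>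
    h.sub2 (hδ' μ (Metric.ball_subset_ball (min_le_left _ _) hμ')).2
  have hmaps : MapsTo X.ψ (Metric.ball μ1 (min δ e)) (Metric.ball (X.ψ μ1) δ0) := fun μ hμ' =>
    (hδ' μ (Metric.ball_subset_ball (min_le_left _ _) hμ')).1
  have hdR := Pool.Agent.PLim.CNT_diffR 2 X.K zf _ hL.diff
  refine ⟨min δ e, fun μ => zf (X.ψ μ), lt_min hδ he, min_le_right _ _, ?_, ?_, ?_, ?_⟩
  · intro μ hμ'
    have h4 := hL.mem _ (hmaps hμ')
    rw [mem_ball_iff_norm] at h4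
    exact ⟨lt_of_lt_of_le h4 h2, hL.fix _ (hmaps hμ')⟩
  · exact hdR.comp hdψ hmaps
  · exact hL.zf0
  · have h5 : deriv (fun c => Rho 2 X.K c (zf c)) (X.ψ μ1) ≠ 0 :=
      Pool.Agent.PLim.a_TRANS 2 X.K (X.ψ μ1) z1 δ0 r zf le_rfl h.hK1 hL h0 hle hR
    have h6 : DifferentiableAt ℂ (fun c => Rho 2 X.K c (zf c)) (X.ψ μ1) :=
      hdR.differentiableAt (Metric.ball_mem_nhds _ hL.hδ)
    have h7 : deriv (fun μ => X.rh μ (zf (X.ψ μ))) μ1 =
        deriv (fun c => Rho 2 X.K c (zf c)) (X.ψ μ1) * deriv X.ψ μ1 := by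
      have h8 := (h6.hasDerivAt.comp μ1 hd.hasDerivAt).deriv
      exact h8
    rw [h7]
    exact mul_ne_zero h5 (h.dn μ1 (h.sub2 hμ))

end RP0_

open RP0_

theorem p_RP0 (hHLF : T_HLF) (hSUM : T_SUM) (hNFN : T_NFN) : T_RP0 := by
  intro X h R r g L hB z hfx
  by_contra hcon
  rw [not_or, not_exists, not_lt] at hcon
  obtain ⟨hz, hle⟩ := hcon
  obtain ⟨δ, hδ, hδρ, hmain⟩ := main h hB hz
  have hm0 : X.m0 ∈ Metric.ball X.m0 X.ρ := h.mem0
  have hq0 : (0 : ℝ) < (X.q : ℝ) ^ 2 := by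
    have := h.hq
    have h1 : (0 : ℝ) < X.q := by exact_mod_cast (by omega : 0 < X.q)
    positivity
  -- the functions with nonnegative real part
  have hHL : ∀ (e : ℝ) (f : ℂ → ℂ), 0 < e → e ≤ δ → DifferentiableOn ℂ f (Metric.ball X.m0 e) →
      f X.m0 = 0 → (∀ x ∈ Metric.ball X.m0 e, x ≠ X.m0 → (x.re < 0 ∨ ‖L x‖ < 1) → 0 ≤ (f x).re) →
      ∀ x ∈ Metric.ball X.m0 (min e R), f x = 0 := by
    intro e f he heδ hf hf0 hf1
    have hs1 : Metric.ball X.m0 (min e R) ⊆ Metric.ball X.m0 e :=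
      Metric.ball_subset_ball (min_le_left _ _)
    have hs2 : Metric.ball X.m0 (min e R) ⊆ Metric.ball X.m0 R :=
      Metric.ball_subset_ball (min_le_right _ _)
    refine hHLF X.m0 ((X.q : ℝ) ^ 2) (min e R) L f hq0 (lt_min he hB.hR) (hB.dL.mono hs2)
      (hf.mono hs1) hB.L0 (by rw [hB.L1]; push_cast; ring) hf0 ?_ ?_
    · intro x hx hx2
      rw [m0_re] at hx2
      refine hf1 x (hs1 hx) ?_ (Or.inl hx2)
      rintro rfl
      rw [m0_re] at hx2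
      exact lt_irrefl _ hx2
    · intro x hx hx2
      refine hf1 x (hs1 hx) ?_ (Or.inr hx2)
      rintro rfl
      rw [hB.L0] at hx2
      simp at hx2
  by_cases hR : X.rh X.m0 z = 1
  · -- multiplier one
    obtain ⟨δ0, hδ0, hNF⟩ := hNFN X h X.m0 hm0
    obtain ⟨δ', δ1, hf, hδ', hδ'e, hδ1, hδ1e, hdf, hf0, hsum, hex⟩ :=
      hSUM X h (fun _ _ => True) X.m0 z δ0 (min δ δ0) hm0 hfx hR hδ0 (lt_min hδ hδ0) (by
        intro μ z' h1 h2 h3 h4
        refine ⟨hNF μ h1 h2 z' h4, 1, one_pos, Or.inl fun _ _ _ _ _ => trivial⟩)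
    have hterm : ∀ μ z' : ℂ, μ ∈ Metric.ball X.m0 δ' → μ ≠ X.m0 → (μ.re < 0 ∨ ‖L μ‖ < 1) →
        ‖z' - z‖ < δ1 → X.Fx μ z' → 1 ≤ ‖X.rh μ z'‖ := by
      intro μ z' h1 h2 h3 h4 h5
      rw [mem_ball_iff_norm] at h1
      refine hmain μ z' (lt_of_lt_of_le h1 (hδ'e.trans (min_le_left _ _)))
        (lt_of_lt_of_le h4 (hδ1e.trans (min_le_left _ _))) h5 ?_
      rcases h3 with h3 | h3
      · exact Or.inl h3
      · exact Or.inr ⟨h2, h3⟩
    have h0 := hHL δ' hf hδ' (hδ'e.trans (min_le_left _ _)) hdf hf0 (by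
      intro x hx hx0 hx1
      obtain ⟨S, hS, hS'⟩ := hsum x hx hx0
      rw [hS']
      refine Finset.sum_nonneg fun w hw => ?_
      obtain ⟨hw1, hw2, _⟩ := (hS w).1 hw
      exact Real.log_nonneg (hterm x w hx hx0 hx1 hw1 hw2))
    -- a point on the left
    set s : ℝ := min δ' R / 2 with hs
    have hmin : 0 < min δ' R := lt_min hδ' hB.hR
    have hs0 : 0 < s := by rw [hs]; linarith
    set μ1 : ℂ := X.m0 - s with hμ1
    have hμn : ‖μ1 - X.m0‖ = s := by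
      rw [hμ1, sub_sub_cancel_left, norm_neg, Complex.norm_real, Real.norm_of_nonneg hs0.le]
    have hμ1m : μ1 ∈ Metric.ball X.m0 (min δ' R) := by
      rw [mem_ball_iff_norm, hμn, hs]
      linarith
    have hμ1δ : μ1 ∈ Metric.ball X.m0 δ' := Metric.ball_subset_ball (min_le_left _ _) hμ1m
    have hμ1re : μ1.re < 0 := by
      rw [hμ1, sub_re, m0_re, ofReal_re]
      linarith
    have hμ1ne : μ1 ≠ X.m0 := by
      intro h1
      rw [h1, m0_re] at hμ1re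
      exact lt_irrefl _ hμ1re
    have hμ1δ0 : ‖μ1 - X.m0‖ < δ := by
      rw [mem_ball_iff_norm] at hμ1δ
      exact lt_of_lt_of_le hμ1δ (hδ'e.trans (min_le_left _ _))
    have hμ1δ00 : ‖μ1 - X.m0‖ < δ0 := by
      rw [mem_ball_iff_norm] at hμ1δ
      exact lt_of_lt_of_le hμ1δ (hδ'e.trans (min_le_right _ _))
    have hμ1ρ : μ1 ∈ Metric.ball X.m0 X.ρ := by
      rw [mem_ball_iff_norm]
      exact lt_of_lt_of_le hμ1δ0 hδρ
    obtain ⟨S, hS, hS'⟩ := hsum μ1 hμ1δ hμ1ne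
    obtain ⟨z1, hz1, hz1f⟩ := hex μ1 hμ1δ
    rw [h0 μ1 hμ1m, zero_re] at hS'
    have hz1S : z1 ∈ S := (hS z1).2 ⟨hz1, hz1f, trivial⟩
    have hnn : ∀ w ∈ S, 0 ≤ Real.log ‖X.rh μ1 w‖ := by
      intro w hw
      obtain ⟨hw1, hw2, _⟩ := (hS w).1 hw
      exact Real.log_nonneg (hterm μ1 w hμ1δ hμ1ne (Or.inl hμ1re) hw1 hw2)
    have hlog := (Finset.sum_eq_zero_iff_of_nonneg hnn).1 hS'.symm z1 hz1S
    have hge := hterm μ1 z1 hμ1δ hμ1ne (Or.inl hμ1re) hz1 hz1f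
    have hone : ‖X.rh μ1 z1‖ = 1 := by
      rcases Real.log_eq_zero.1 hlog with h1 | h1 | h1 <;> linarith
    have hne1 : X.rh μ1 z1 ≠ 1 := hNF μ1 hμ1ne hμ1δ00 z1 hz1f
    have hne0 : X.rh μ1 z1 ≠ 0 := by
      intro h1
      rw [h1, norm_zero] at hone
      exact zero_ne_one hone
    have he : 0 < min (min (δ - ‖μ1 - X.m0‖) (δ - ‖z1 - z‖)) s := by
      refine lt_min (lt_min (by linarith) ?_) hs0
      have := lt_of_lt_of_le hz1 (hδ1e.trans (min_le_left _ _))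
      linarith
    obtain ⟨δ2, f, hδ2, hδ2e, hf1, hf2, hf3, hf4⟩ :=
      cont h hμ1ρ hz1f hne1 hne0 hone.le he
    have hstrict : HasStrictDerivAt (fun μ => X.rh μ (f μ)) (deriv (fun μ => X.rh μ (f μ)) μ1) μ1 :=
      (hf2.analyticAt (Metric.ball_mem_nhds _ hδ2)).hasStrictDerivAt
    have hmap := hstrict.map_nhds_eq hf4
    have hfreq : ∃ᶠ w in 𝓝 (X.rh μ1 (f μ1)), ‖w‖ < 1 := by
      rw [hf3]
      have h1 : X.rh μ1 z1 ∈ closure (Metric.ball (0 : ℂ) 1) := by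
        rw [closure_ball _ one_ne_zero, mem_closedBall_zero_iff, hone]
      have h2 := mem_closure_iff_frequently.1 h1
      refine h2.mono fun w hw => ?_
      rw [mem_ball_zero_iff] at hw
      exact hw
    rw [← hmap, Filter.frequently_map] at hfreq
    obtain ⟨μ2, hμ2, hμ2'⟩ := (hfreq.and_eventually (Metric.ball_mem_nhds μ1 hδ2)).exists
    obtain ⟨h1, h2⟩ := hf1 μ2 hμ2'
    rw [dist_eq_norm] at hμ2'
    have h3 := lt_of_lt_of_le hμ2' hδ2e
    have h4 : ‖μ2 - X.m0‖ < δ := by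
      have h5 := lt_of_lt_of_le h3 ((min_le_left _ _).trans (min_le_left _ _))
      have h6 := norm_add_le (μ2 - μ1) (μ1 - X.m0)
      rw [sub_add_sub_cancel] at h6
      linarith
    have h5 : ‖f μ2 - z‖ < δ := by
      have h5 := lt_of_lt_of_le h1 ((min_le_left _ _).trans (min_le_right _ _))
      have h6 := norm_add_le (f μ2 - z1) (z1 - z)
      rw [sub_add_sub_cancel] at h6
      linarith
    have h6 : μ2.re < 0 := by
      have h7 := lt_of_lt_of_le h3 (min_le_right _ _)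
      have h8 := (le_abs_self _).trans (abs_re_le_norm (μ2 - μ1))
      rw [sub_re, hμ1, sub_re, m0_re, ofReal_re] at h8
      linarith
    have h7 := hmain μ2 (f μ2) h4 h5 h2 (Or.inl h6)
    linarith
  · rcases lt_or_eq_of_le hle with hlt | heq
    · -- attracting
      obtain ⟨δ', r', f, hδ', hδ'e, hr', hr'e, hsub, hdf, hf0, hmem, huniq, hdR⟩ :=
        h.locfix hm0 hfx hR hδ
      have hc : ContinuousAt (fun μ => X.rh μ (f μ)) X.m0 :=
        (hdR.differentiableAt (Metric.ball_mem_nhds _ hδ')).continuousAt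
      have h1 : ∀ᶠ μ in 𝓝 X.m0, ‖X.rh μ (f μ)‖ < 1 := by
        refine hc.norm.eventually_lt continuousAt_const ?_
        rw [hf0]
        exact hlt
      obtain ⟨δ2, hδ2, hδ2'⟩ := Metric.eventually_nhds_iff_ball.mp h1
      set s : ℝ := min δ' δ2 / 2 with hs
      have hmin : 0 < min δ' δ2 := lt_min hδ' hδ2
      have hs0 : 0 < s := by rw [hs]; linarith
      have hn : ‖X.m0 - s - X.m0‖ = s := by
        rw [sub_sub_cancel_left, norm_neg, Complex.norm_real, Real.norm_of_nonneg hs0.le]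
      have hμ' : X.m0 - s ∈ Metric.ball X.m0 δ' := by
        rw [mem_ball_iff_norm, hn, hs]
        linarith [min_le_left δ' δ2]
      have hμ2 : X.m0 - s ∈ Metric.ball X.m0 δ2 := by
        rw [mem_ball_iff_norm, hn, hs]
        linarith [min_le_right δ' δ2]
      obtain ⟨h2, h3⟩ := hmem _ hμ'
      rw [mem_ball_iff_norm] at h2 hμ'
      have h4 := hmain (X.m0 - s) (f (X.m0 - s)) (lt_of_lt_of_le hμ' hδ'e)
        (lt_of_lt_of_le h2 hr'e) h3 (Or.inl (by rw [sub_re, m0_re, ofReal_re]; linarith))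
      have h5 := hδ2' _ hμ2
      linarith
    · -- indifferent
      have hne0 : X.rh X.m0 z ≠ 0 := by
        intro h1
        rw [h1, norm_zero] at heq
        exact zero_ne_one heq
      obtain ⟨δ', f, hδ', hδ'e, hf1, hf2, hf3, hf4⟩ := cont h hm0 hfx hR hne0 hle hδ
      set w0 := X.rh X.m0 z with hw0
      have hc : ContinuousAt (fun μ => X.rh μ (f μ) / w0) X.m0 :=
        ((hf2.differentiableAt (Metric.ball_mem_nhds _ hδ')).continuousAt).div_const _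
      have h1 : ∀ᶠ μ in 𝓝 X.m0, X.rh μ (f μ) / w0 ∈ slitPlane := by
        refine hc.eventually (Complex.isOpen_slitPlane.mem_nhds ?_)
        show X.rh X.m0 (f X.m0) / w0 ∈ slitPlane
        rw [hf3, ← hw0, div_self hne0]
        exact Complex.one_mem_slitPlane
      obtain ⟨δ2, hδ2, hδ2'⟩ := Metric.eventually_nhds_iff_ball.mp h1
      have he0 : 0 < min δ' δ2 := lt_min hδ' hδ2
      have h2 := hHL (min δ' δ2) (fun μ => Complex.log (X.rh μ (f μ) / w0)) he0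
        ((min_le_left _ _).trans hδ'e) (by
          refine DifferentiableOn.clog ?_ fun x hx =>
            hδ2' x (Metric.ball_subset_ball (min_le_right _ _) hx)
          exact (hf2.mono (Metric.ball_subset_ball (min_le_left _ _))).div_const _)
        (by rw [hf3, ← hw0, div_self hne0, Complex.log_one])
        (by
          intro x hx hx0 hx1
          rw [Complex.log_re, norm_div, heq, div_one]
          obtain ⟨h3, h4⟩ := hf1 x (Metric.ball_subset_ball (min_le_left _ _) hx)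
          have hx2 := Metric.ball_subset_ball ((min_le_left _ _).trans hδ'e) hx
          rw [mem_ball_iff_norm] at hx2
          refine Real.log_nonneg (hmain x (f x) hx2 h3 h4 ?_)
          rcases hx1 with h5 | h5
          · exact Or.inl h5
          · exact Or.inr ⟨hx0, h5⟩)
      have hmin : 0 < min (min δ' δ2) R := lt_min he0 hB.hR
      have h3 : (fun μ => X.rh μ (f μ)) =ᶠ[𝓝 X.m0] fun _ => w0 := by
        filter_upwards [Metric.ball_mem_nhds X.m0 hmin] with x hx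
        have h4 := h2 x hx
        have h5 : X.rh x (f x) / w0 ∈ slitPlane := hδ2' x
          (Metric.ball_subset_ball ((min_le_left _ _).trans (min_le_right _ _)) hx)
        have h6 : X.rh x (f x) / w0 = 1 := by
          rw [← Complex.exp_log (Complex.slitPlane_ne_zero h5), h4, Complex.exp_zero]
        rw [div_eq_one_iff_eq hne0] at h6
        exact h6
      apply hf4
      rw [h3.deriv_eq, deriv_const]

end Pool.Agent.PSat
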