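import Pool.Agent.PSat.Targets
import Pool.Agent.PLim.RI
import Pool.Agent.PLim.RP
import Pool.Agent.PLim.RINV
import Pool.Agent.PLim.RS
import Pool.Agent.PLim.RC

/-!
# PSAT: rotation numbers and periodic angles (RTH)
-/

set_option autoImplicit false

open Complex Filter Topology Set
open Pool.Agent.PLim (Rot IsInt Ex Cod Per)

namespace Pool.Agent.PSat

namespace RTH_

lemma isInt_sub {x y : ℝ} (hx : IsInt x) (hy : IsInt y) : IsInt (x - y) := by
  obtain ⟨m, hm⟩ := hx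
  obtain ⟨n, hn⟩ := hy
  exact ⟨m - n, by rw [hm, hn]; push_cast; ring⟩

lemma isInt_small {x : ℝ} (hx : IsInt x) (h : |x| < 1) : x = 0 := by
  obtain ⟨m, hm⟩ := hx
  rw [hm] at h
  have h1 : |m| < 1 := by exact_mod_cast h
  have h2 : m = 0 := Int.abs_lt_one_iff.1 h1
  rw [hm, h2]
  simp

lemma ex_one {K : ℕ} {x : ℝ} (h : IsP K x) : Ex 2 K 1 x := by
  refine ⟨le_rfl, ?_, fun q' h1 h2 => by omega⟩
  rw [mul_one]
  exact h

lemma of_ex_one {K : ℕ} {x : ℝ} (h : Ex 2 K 1 x) : IsP K x := by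
  have h1 := h.2.1
  rw [mul_one] at h1
  exact h1

lemma isP_img {K : ℕ} {x : ℝ} (h : IsP K x) (t : ℕ) (s : ℤ) : IsP K (2 ^ t * x + s) := by
  obtain ⟨m, hm⟩ := h
  refine ⟨2 ^ t * m + (2 ^ K - 1) * s, ?_⟩
  push_cast
  rw [mul_add, mul_left_comm, hm]

lemma M_pos {K : ℕ} (hK : 1 ≤ K) : (0 : ℝ) < 2 ^ K - 1 := by
  have h : (2 : ℝ) ^ 1 ≤ 2 ^ K := pow_le_pow_right₀ (by norm_num) hK
  linarith

lemma dist_pos {x : ℝ} (h : ¬ IsInt x) : ∃ d : ℝ, 0 < d ∧ ∀ y : ℝ, IsInt y → d ≤ |y - x| := by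
  refine ⟨min (x - ⌊x⌋) (⌊x⌋ + 1 - x), ?_, ?_⟩
  · have h1 : (⌊x⌋ : ℝ) ≠ x := fun h2 => h ⟨⌊x⌋, h2.symm⟩
    have h2 : (⌊x⌋ : ℝ) ≤ x := Int.floor_le x
    have h3 := Int.lt_floor_add_one x
    exact lt_min (sub_pos.2 (lt_of_le_of_ne h2 h1)) (by linarith)
  · rintro y ⟨m, rfl⟩
    rcases le_or_gt m ⌊x⌋ with hm | hm
    · have h1 : (m : ℝ) ≤ ⌊x⌋ := by exact_mod_cast hm
      refine (min_le_left _ _).trans ?_
      rw [abs_sub_comm]
      exact le_trans (by linarith) (le_abs_self _)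
    · have h1 : (⌊x⌋ : ℝ) + 1 ≤ m := by exact_mod_cast hm
      refine (min_le_right _ _).trans ?_
      exact le_trans (by linarith) (le_abs_self _)

/-- no periodic point between `θ` and `θ'`: the itineraries agree -/
lemma tlc (hT : T_TLC) {K : ℕ} {θ θ' x : ℝ} {η : ℕ → ℤ} (hx : IsP K x)
    (h : ∀ y : ℝ, IsP K y → ¬ |y - θ| ≤ |θ' - θ|) : Cod 2 θ x η ↔ Cod 2 θ' x η := by
  rcases le_total θ θ' with h1 | h1
  · refine hT θ θ' x η h1 fun t s _ ⟨h2, h3⟩ => h _ (isP_img hx t s) ?_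
    rw [abs_of_nonneg (by linarith), abs_of_nonneg (by linarith)]
    linarith
  · refine (hT θ' θ x η h1 fun t s _ ⟨h2, h3⟩ => h _ (isP_img hx t s) ?_).symm
    rw [abs_of_nonpos (by linarith), abs_of_nonpos (by linarith)]
    linarith

end RTH_

open RTH_

theorem p_RTH (hT : T_TLC) : T_RTH := by
  intro K θ η hK hper
  have hM := M_pos hK
  refine ⟨?_, ?_, ?_, ?_, ?_⟩
  · rintro ⟨x, hx1, hx2⟩
    exact (Pool.Agent.PLim.p_RP 2 K 1 θ x η le_rfl hK (ex_one hx1) hx2 hper).2.2 rfl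
  · intro hI hθ
    obtain ⟨d, hd, hd2⟩ := dist_pos hθ
    obtain ⟨θ', α, h1, h2, h3⟩ := Pool.Agent.PLim.p_RI 2 K θ η le_rfl hK hper hI
      (d / (2 ^ K - 1)) (by positivity)
    have hα := of_ex_one h2
    refine ⟨α, hα, (tlc hT hα fun y hy h4 => ?_).2 h3⟩
    have h5 := hd2 _ hy
    rw [← mul_sub, abs_mul, abs_of_pos hM] at h5
    have h6 : (2 ^ K - 1) * |y - θ| < (2 ^ K - 1) * (d / (2 ^ K - 1)) :=
      mul_lt_mul_of_pos_left (lt_of_le_of_lt h4 h1) hM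
    rw [mul_div_cancel₀ _ hM.ne'] at h6
    linarith
  · intro hI δ hδ
    obtain ⟨θ₁, α, h1, h2, h3⟩ := Pool.Agent.PLim.p_RI 2 K θ η le_rfl hK hper hI
      (δ / 2) (by positivity)
    have hα := of_ex_one h2
    by_cases hθ : IsP K θ₁
    · obtain ⟨e, he⟩ : ∃ e : ℝ, e = min (δ / 2) (1 / (2 * (2 ^ K - 1))) := ⟨_, rfl⟩
      have he0 : 0 < e := by rw [he]; exact lt_min (by positivity) (by positivity)
      have he1 : e ≤ δ / 2 := by rw [he]; exact min_le_left _ _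
      have he2 : (2 ^ K - 1) * e ≤ 1 / 2 := by
        have h4 : e ≤ 1 / (2 * (2 ^ K - 1)) := by rw [he]; exact min_le_right _ _
        calc (2 ^ K - 1) * e ≤ (2 ^ K - 1) * (1 / (2 * (2 ^ K - 1))) :=
              mul_le_mul_of_nonneg_left h4 hM.le
          _ = 1 / 2 := by field_simp
      have key : ∀ y : ℝ, IsP K y → θ₁ ≤ y → y ≤ θ₁ + e → y = θ₁ := by
        intro y hy h4 h5
        have h6 : (2 ^ K - 1) * (y - θ₁) = 0 := by
          refine isInt_small (by rw [mul_sub]; exact isInt_sub hy hθ) ?_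
          rw [abs_of_nonneg (mul_nonneg hM.le (by linarith))]
          have h7 : (2 ^ K - 1) * (y - θ₁) ≤ (2 ^ K - 1) * e :=
            mul_le_mul_of_nonneg_left (by linarith) hM.le
          linarith
        have h8 := (mul_eq_zero.1 h6).resolve_left hM.ne'
        linarith
      refine ⟨θ₁ + e, ?_, ?_, α, hα, ?_⟩
      · have h4 := abs_add_le (θ₁ - θ) e
        rw [abs_of_pos he0] at h4
        have h5 : θ₁ + e - θ = θ₁ - θ + e := by ring
        rw [h5]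
        linarith
      · intro h4
        have h5 := key _ h4 (by linarith) le_rfl
        linarith
      · refine (hT θ₁ (θ₁ + e) α η (by linarith) ?_).1 h3
        rintro t s ht ⟨h4, h5⟩
        have h6 := key _ (isP_img hα t s) h4 h5
        refine h3.1 t ht ⟨-s, ?_⟩
        push_cast
        linarith
    · exact ⟨θ₁, by linarith, hθ, α, hα, h3⟩
  · intro η' h
    exact ((Pool.Agent.PLim.p_RINV Pool.Agent.PLim.p_RS Pool.Agent.PLim.p_RC
      2 K η θ le_rfl hK).2.1 η' h).2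
  · intro k q x hKq hk hperk hx hno v hv1 hv2 hv3
    classical
    obtain ⟨w, hw⟩ : ∃ w, w = Nat.find (p := fun v => 1 ≤ v ∧ IsP (k * v) x) ⟨v, hv1, hv3⟩ :=
      ⟨_, rfl⟩
    have hw1 := Nat.find_spec (p := fun v => 1 ≤ v ∧ IsP (k * v) x) ⟨v, hv1, hv3⟩
    have hw2 : ∀ u, u < w → ¬ (1 ≤ u ∧ IsP (k * u) x) := fun u hu => by
      rw [hw] at hu
      exact Nat.find_min _ hu
    have hw3 : w ≤ v := by rw [hw]; exact Nat.find_min' _ ⟨hv1, hv3⟩
    rw [← hw] at hw1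
    have hex : Ex 2 k w x := ⟨hw1.1, hw1.2, fun q' h1 h2 h3 => hw2 q' h2 ⟨h1, h3⟩⟩
    exact hno w hw1.1 (by omega)
      (Pool.Agent.PLim.p_RP 2 k w θ x η le_rfl hk hex hx.2 hperk).1

end Pool.Agent.PSat
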