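import Pool.Agent.PSat.Basic

/-!
# PSAT, target SBA: local constancy outside the Mandelbrot set
-/

set_option autoImplicit false

open Complex Filter Topology Set
open Pool.Agent.Multibrot (MM)
open Pool.Agent.Limb (F)
open Pool.Agent.PLim (Rho IsBot IsLog Crit Dig Rot IsInt Label lab Ex Cod Per Lands InZ LabR
  ZVn ONTOn NCn OMXn SECTn LocFix)
open Pool.Agent.MEX (Exa)
open Pool.Agent.MEY (Pt Omg DD Glob)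

namespace Pool.Agent.PSat

namespace SBA_

/-- the coordinate is unique in a small disc -/
lemma uniq (hDSH : T_DSH) {Λ : ℂ → ℂ → ℂ} {lh ls : ℂ → ℂ → ℂ → ℂ} {c ζ1 ζ ζ' : ℂ}
    (hΛ : IsBot 2 Λ) (hL : IsLog 2 Λ lh ls) (h : Crit 2 Λ c ζ) (h' : Crit 2 Λ c ζ')
    (h1 : ‖ζ - ζ1‖ < 1) (h2 : ‖ζ' - ζ1‖ < 1) : ζ' = ζ := by
  obtain ⟨m, hm⟩ := (hDSH Λ lh ls c ζ hΛ hL h).2.1 ζ' h'
  have h3 : ‖ζ' - ζ‖ < 2 := by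
    calc ‖ζ' - ζ‖ = ‖(ζ' - ζ1) - (ζ - ζ1)‖ := by congr 1; ring
      _ ≤ ‖ζ' - ζ1‖ + ‖ζ - ζ1‖ := norm_sub_le _ _
      _ < 2 := by linarith
  have h4 : ζ' - ζ = 2 * Real.pi * I * m := by rw [hm]; ring
  have h5 : ‖(2 * Real.pi * I * m : ℂ)‖ = 2 * Real.pi * |(m : ℝ)| := by
    simp [abs_of_pos Real.pi_pos]
  rw [h4, h5] at h3
  have hpi := Real.pi_gt_three
  have h6 : m = 0 := by
    by_contra hne
    have h7 : (1 : ℝ) ≤ |(m : ℝ)| := by exact_mod_cast Int.one_le_abs hne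
    nlinarith
  rw [hm, h6]
  simp

/-- the normalized coordinate and the word near `(μ1, z1)` -/
lemma near (hDSH : T_DSH) (hDLC : T_DLC) {X : Full} (hX : Ok X) {μ1 z1 ζ1 : ℂ} {η : ℕ → ℤ}
    (hXt : Xt X μ1 ζ1) (hz : X.Fx μ1 z1) (hη : X.Wd μ1 ζ1 z1 η) :
    ∃ δ : ℝ, 0 < δ ∧ ∀ μ z : ℂ, ‖μ - μ1‖ < δ → ‖z - z1‖ < δ → X.Fx μ z →
      ∃ ζ : ℂ, Xt X μ ζ ∧ X.Wd μ ζ z η := by
  obtain ⟨hμ1, hC, hW, hR1, hR2⟩ := hXt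
  have hdt := hX.dt
  have hμ2 := hdt.sub2 hμ1
  have hcont : ContinuousAt (fun ζ : ℂ => Rot 2 X.k (an ζ) X.ε) ζ1 := by
    have h1 : Continuous (fun θ : ℝ => Rot 2 X.k θ X.ε) :=
      (Pool.Agent.PLim.a_RC 2 X.k X.ε le_rfl).1
    have h2 : Continuous (fun ζ : ℂ => an ζ) := by
      unfold an
      exact continuous_im.div_const _
    exact (h1.comp h2).continuousAt
  have hev : ∀ᶠ ζ in 𝓝 ζ1, (X.j0 : ℝ) < Rot 2 X.k (an ζ) X.ε ∧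
      Rot 2 X.k (an ζ) X.ε < X.j0 + 1 :=
    (hcont.eventually (lt_mem_nhds hR1)).and (hcont.eventually (gt_mem_nhds hR2))
  obtain ⟨e, he, hee⟩ := Metric.eventually_nhds_iff_ball.mp hev
  obtain ⟨δa, hδa, ha⟩ := hDLC X.k X.Λ X.lh X.ls (X.ψ μ1) ζ1 (X.χ μ1) X.ε (min e 1) hdt.hk
    hdt.bot hdt.log hC (hdt.pt μ1 hμ2).fix hW (by positivity)
  obtain ⟨δb, hδb, hb⟩ := hDLC X.K X.Λ X.lh X.ls (X.ψ μ1) ζ1 z1 η (min e 1) hdt.hK1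
    hdt.bot hdt.log hC hz hη (by positivity)
  have h0 : ∀ᶠ μ in 𝓝 μ1, μ ∈ Metric.ball X.m0 X.ρ := Metric.isOpen_ball.mem_nhds hμ1
  have h3 : ∀ᶠ μ in 𝓝 μ1, μ ∈ Metric.ball X.m0 X.ρ ∧ X.ψ μ ∈ Metric.ball (X.ψ μ1) (min δa δb) ∧
      X.χ μ ∈ Metric.ball (X.χ μ1) δa :=
    h0.and
      (((hdt.psi_cont hμ2).eventually (Metric.ball_mem_nhds _ (lt_min hδa hδb))).and
        ((hdt.chi_cont hμ2).eventually (Metric.ball_mem_nhds _ hδa)))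
  obtain ⟨δ, hδ, hδ'⟩ := Metric.eventually_nhds_iff_ball.mp h3
  refine ⟨min δ δb, lt_min hδ hδb, fun μ z h4 h5 h6 => ?_⟩
  obtain ⟨h7, h8, h9⟩ := hδ' μ (by
    rw [mem_ball_iff_norm]
    exact lt_of_lt_of_le h4 (min_le_left _ _))
  rw [mem_ball_iff_norm] at h8 h9
  obtain ⟨ζ, g1, g2, g3⟩ := ha (X.ψ μ) (X.χ μ) (lt_of_lt_of_le h8 (min_le_left _ _)) h9
    (hdt.pt μ (hdt.sub2 h7)).fix
  obtain ⟨ζ', g4, g5, g6⟩ := hb (X.ψ μ) z (lt_of_lt_of_le h8 (min_le_right _ _))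
    (lt_of_lt_of_le h5 (min_le_right _ _)) h6
  have g7 : ζ' = ζ := uniq hDSH hdt.bot hdt.log g2 g5 (lt_of_lt_of_le g1 (min_le_right _ _))
    (lt_of_lt_of_le g4 (min_le_right _ _))
  rw [g7] at g6
  obtain ⟨g8, g9⟩ := hee ζ (by
    rw [mem_ball_iff_norm]
    exact lt_of_lt_of_le g1 (min_le_left _ _))
  exact ⟨ζ, ⟨h7, g2, g3, g8, g9⟩, g6⟩

end SBA_

open SBA_

theorem p_SBA (hDLC : T_DLC) (hDSH : T_DSH) (hXTU : T_XTU) : T_SBA := by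
  intro X hX μ1 z1 hμ1 hz hM
  have hdt := hX.dt
  have hμb : μ1 ∈ Metric.ball X.m0 X.ρ := B_sub _ hμ1
  have hμ2 := hdt.sub2 hμb
  obtain ⟨ζ1, hXt⟩ := hX.xt μ1 hμb hM
  obtain ⟨hrep, -, η, hper, hη⟩ := (Pool.Agent.PLim.a_FIXE 2 X.K X.Λ X.lh X.ls (X.ψ μ1) ζ1 le_rfl
    hdt.hK1 hdt.bot hdt.log hXt.2.1).2 z1 hz
  have hR : X.rh μ1 z1 ≠ 1 := by
    intro h0
    have h1 : 1 < ‖X.rh μ1 z1‖ := hrep
    rw [h0, norm_one] at h1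
    exact lt_irrefl _ h1
  obtain ⟨δ1, hδ1, h1⟩ := near hDSH hDLC hX hXt hz hη
  obtain ⟨δ2, hδ2, h2⟩ := hdt.exa_loc hμ2 hz hR
  have key : ∀ μ z : ℂ, ‖μ - μ1‖ < min δ1 δ2 → ‖z - z1‖ < min δ1 δ2 → X.Fx μ z →
      (Sb X μ z ↔ (Exa 2 X.K (X.ψ μ1) z1 ∧ ∃ i : ℕ, Eq2 η (sh i X.ω))) := by
    intro μ z h3 h4 h5
    obtain ⟨ζ, g1, g2⟩ := h1 μ z (lt_of_lt_of_le h3 (min_le_left _ _))
      (lt_of_lt_of_le h4 (min_le_left _ _)) h5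
    have g3 := h2 μ z (lt_of_lt_of_le h3 (min_le_right _ _))
      (lt_of_lt_of_le h4 (min_le_right _ _)) h5
    have g4 : X.ψ μ ∉ MM 2 := g1.2.1.1
    have g5 : ∀ i : ℕ, X.Wd μ ζ z (sh i X.ω) ↔ Eq2 η (sh i X.ω) := by
      intro i
      have g6 := (hDSH X.Λ X.lh X.ls (X.ψ μ) ζ hdt.bot hdt.log g1.2.1).2.2.2
      constructor
      · intro g7 j
        exact (g6 X.K ((F 2 (X.ψ μ))^[j] z) (η j) (sh i X.ω j) hdt.hK1 (fix_iter h5 j)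
          (g2 j)).1 (g7 j)
      · intro g7 j
        exact (g6 X.K ((F 2 (X.ψ μ))^[j] z) (η j) (sh i X.ω j) hdt.hK1 (fix_iter h5 j)
          (g2 j)).2 (g7 j)
    constructor
    · rintro ⟨-, g7, g8⟩
      refine ⟨g3.1 g7, ?_⟩
      rcases g8 with ⟨-, ζ', i, g9, g10⟩ | ⟨g9, -⟩ | ⟨g9, -⟩ | ⟨g9, -⟩
      · rw [hXTU X hX μ ζ' ζ g9 g1] at g10
        exact ⟨i, (g5 i).1 g10⟩
      · exact absurd g9 g4
      · exact absurd g9 g4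
      · exact absurd g9 g4
    · rintro ⟨g7, i, g8⟩
      exact ⟨h5, g3.2 g7, Or.inl ⟨g4, ζ, i, g1, (g5 i).2 g8⟩⟩
  refine ⟨min δ1 δ2, lt_min hδ1 hδ2, ?_⟩
  by_cases hc : Exa 2 X.K (X.ψ μ1) z1 ∧ ∃ i : ℕ, Eq2 η (sh i X.ω)
  · exact Or.inl fun μ z h3 h4 h5 => (key μ z h3 h4 h5).2 hc
  · exact Or.inr fun μ z h3 h4 h5 h6 => hc ((key μ z h3 h4 h5).1 h6)

end Pool.Agent.PSat
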