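import Pool.Agent.PSat.Basic

/-!
# PSAT: SBB, local constancy outside `V`
-/

set_option autoImplicit false

open Complex Filter Topology Set
open Pool.Agent.Multibrot (MM)
open Pool.Agent.Limb (F)
open Pool.Agent.PLim (Rho IsBot IsLog Crit Dig Rot IsInt Label lab Ex Cod Per Lands InZ LabR
  ZVn ONTOn NCn OMXn SECTn LocFix)
open Pool.Agent.MEX (Exa)
open Pool.Agent.MEY (Pt Omg DD Glob)

namespace Pool.Agent.PSat.SBB_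

/-- rays with the same angle modulo one -/
lemma lands_int {Λ : ℂ → ℂ → ℂ} {c z : ℂ} {α β : ℝ} (hΛ : IsBot 2 Λ) (hc : c ∈ MM 2)
    (h : IsInt (β - α)) (hl : Lands Λ c α z) : Lands Λ c β z := by
  have hE := Pool.Agent.PLim.a_IE 2 Λ le_rfl hΛ
  refine Tendsto.congr' ?_ hl
  filter_upwards [self_mem_nhdsWithin] with t ht
  exact (Pool.Agent.PLim.GMB_.ray_int le_rfl hE hc h ht).symm

/-- the itinerary depends on the angle modulo one -/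
lemma cod_int {θ α β : ℝ} {ε : ℕ → ℤ} (h : IsInt (β - α)) (hc : Cod 2 θ α ε) :
    Cod 2 θ β ε := by
  obtain ⟨m, hm⟩ := h
  have hβ : β = α + m := by linarith
  obtain ⟨h1, h2⟩ := hc
  refine ⟨fun t ht hI => h1 t ht ?_, fun t => ?_⟩
  · have e : ((2 : ℕ) : ℝ) ^ t * α - θ = (((2 : ℕ) : ℝ) ^ t * β - θ) -
        ((2 : ℕ) : ℝ) ^ t * (m : ℝ) := by
      rw [hβ]
      ring
    rw [e]
    refine isInt_sub hI (isInt_mul ?_ (isInt_int m))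
    have := isInt_pow t
    rwa [Nat.cast_ofNat]
  · have e : ((2 : ℕ) : ℝ) ^ (t + 1) * β - θ = (((2 : ℕ) : ℝ) ^ (t + 1) * α - θ) +
        ((2 ^ (t + 1) * m : ℤ) : ℝ) := by
      rw [hβ]
      push_cast
      ring
    rw [e, Int.floor_add_intCast]
    have h3 := h2 t
    have h4 : (2 : ℤ) ∣ 2 ^ (t + 1) * m := Dvd.dvd.mul_right (dvd_pow_self 2 (by omega)) m
    have h5 := dvd_add h3 h4
    have e2 : ⌊((2 : ℕ) : ℝ) ^ (t + 1) * α - θ⌋ + 2 ^ (t + 1) * m - ε t =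
        ⌊((2 : ℕ) : ℝ) ^ (t + 1) * α - θ⌋ - ε t + 2 ^ (t + 1) * m := by ring
    rw [e2]
    exact_mod_cast h5

/-- reduction of the exponent -/
lemma pow_mod {K : ℕ} {x : ℝ} (hx : IsP K x) (i : ℕ) :
    IsInt (2 ^ (i % K) * x - 2 ^ i * x) := by
  have h1 : IsInt (2 ^ (K * (i / K)) * x - x) := isP_iff.mp (hx.mul _)
  have h3 : (2 : ℝ) ^ i = 2 ^ (i % K) * 2 ^ (K * (i / K)) := by
    rw [← pow_add, Nat.mod_add_div]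
  have h4 : 2 ^ (i % K) * x - 2 ^ i * x = -(2 ^ (i % K) * (2 ^ (K * (i / K)) * x - x)) := by
    rw [h3]
    ring
  rw [h4]
  exact isInt_neg (isInt_mul (isInt_pow _) h1)

/-- the angles of the orbit have period `K` -/
lemma ang {X : Full} (hX : Ok X) (i : ℕ) : IsInt ((((2 : ℕ) : ℝ) ^ X.K - 1) * (2 ^ i * X.a)) := by
  have h1 : IsP X.K (2 ^ i * X.a) := hX.cmb.aK.pow i
  rw [Nat.cast_ofNat]
  exact h1

/-- the landing points -/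
lemma land_pt {X : Full} (hX : Ok X) {μ1 : ℂ} (hNF : X.NF μ1) (hM : X.ψ μ1 ∈ MM 2) (i : ℕ) :
    ∃ y : ℂ, X.Fx μ1 y ∧ Lands X.Λ (X.ψ μ1) (2 ^ i * X.a) y ∧ 1 < ‖X.rh μ1 y‖ := by
  have hE := Pool.Agent.PLim.a_IE 2 X.Λ le_rfl hX.dt.bot
  obtain ⟨m, hm⟩ := ang hX i
  obtain ⟨h1, h2⟩ := Pool.Agent.Limb.p_LAND Pool.Agent.Limb.p_AREA 2 le_rfl X.Λ hE (X.ψ μ1) hM
    X.K (2 ^ i * X.a) m hX.dt.hK1 hm
  refine ⟨_, h2, h1, ?_⟩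
  rcases Pool.Agent.PLim.a_SNAIL 2 X.K X.Λ (X.ψ μ1) _ (2 ^ i * X.a) le_rfl hX.dt.hK1 hX.dt.bot hM
    ⟨m, hm⟩ h1 h2 with h | h
  · exact h
  · exact absurd h (hNF _ h2)

/-- the point with the digits of the ray has the word -/
lemma wd_of_cod (h3 : T_DSH) {X : Full} (hX : Ok X) {μ z ζ : ℂ} {α : ℝ} {η : ℕ → ℤ}
    (hfx : X.Fx μ z) (hCr : Crit 2 X.Λ (X.ψ μ) ζ) (hcod : Cod 2 (an ζ) α η)
    (hd : ∀ t : ℕ, Dig 2 X.lh (X.ψ μ) ζ ((F 2 (X.ψ μ))^[t] z)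
      ⌊((2 : ℕ) : ℝ) ^ (t + 1) * α - ζ.im / (2 * Real.pi)⌋) : X.Wd μ ζ z η := by
  intro t
  refine ((h3 X.Λ X.lh X.ls (X.ψ μ) ζ hX.dt.bot hX.dt.log hCr).2.2.2 X.K _ _ (η t) hX.dt.hK1
    (fix_iter hfx t) (hd t)).2 ?_
  have h1 := hcod.2 t
  exact_mod_cast h1

/-- stability near the landing points -/
lemma stab (h3 : T_DSH) {X : Full} (hX : Ok X) {μ1 y : ℂ} (hμ : μ1 ∈ X.B) (hM : X.ψ μ1 ∈ MM 2)
    {i : ℕ} (hfx : X.Fx μ1 y) (hl : Lands X.Λ (X.ψ μ1) (2 ^ i * X.a) y)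
    (hrep : 1 < ‖X.rh μ1 y‖) :
    ∃ δ : ℝ, 0 < δ ∧ ∀ μ z : ℂ, ‖μ - μ1‖ < δ → ‖z - y‖ < δ → X.Fx μ z →
      (X.ψ μ ∈ MM 2 → Lands X.Λ (X.ψ μ) (2 ^ i * X.a) z) ∧
      ∀ (ζ : ℂ) (i' : ℕ), Crit 2 X.Λ (X.ψ μ) ζ → Cod 2 (an ζ) (2 ^ i * X.a) (sh i' X.ω) →
        X.Wd μ ζ z (sh i' X.ω) := by
  have hα := ang hX i
  obtain ⟨δ1, hδ1, H1⟩ := Pool.Agent.PLim.a_ST1 2 X.K 1 X.Λ (X.ψ μ1) y (2 ^ i * X.a) le_rfl
    hX.dt.hK1 le_rfl hX.dt.bot hM (by rwa [mul_one]) hl hfx hrep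
  obtain ⟨δ2, hδ2, H2⟩ := Pool.Agent.PLim.a_ST2 2 X.K 1 X.Λ X.lh X.ls (X.ψ μ1) y (2 ^ i * X.a)
    le_rfl hX.dt.hK1 le_rfl hX.dt.bot hX.dt.log hM (by rwa [mul_one]) hl hfx hrep
  have hc := hX.dt.psi_cont (hX.dt.sub2 (B_sub X.toCtx hμ))
  obtain ⟨δ3, hδ3, H3⟩ := Metric.continuousAt_iff.mp hc (min δ1 δ2) (lt_min hδ1 hδ2)
  refine ⟨min δ3 (min δ1 δ2), lt_min hδ3 (lt_min hδ1 hδ2), fun μ z h1 h2 h4 => ?_⟩
  have h5 : ‖X.ψ μ - X.ψ μ1‖ < min δ1 δ2 := by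
    rw [← dist_eq_norm]
    exact H3 (by rw [dist_eq_norm]; exact h1.trans_le (min_le_left _ _))
  have h6 : ‖z - y‖ < min δ1 δ2 := h2.trans_le (min_le_right _ _)
  refine ⟨fun hMμ => H1 _ _ (h5.trans_le (min_le_left _ _)) (h6.trans_le (min_le_left _ _)) h4
    hMμ, fun ζ i' hCr hcod => ?_⟩
  exact wd_of_cod h3 hX h4 hCr hcod (H2 _ _ ζ (h5.trans_le (min_le_right _ _))
    (h6.trans_le (min_le_right _ _)) h4 hCr).2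

/-- the other points near the parameter -/
lemma away (h3 : T_DSH) {X : Full} (hX : Ok X) {μ1 z1 y : ℂ} (hμ : μ1 ∈ X.B)
    (hM : X.ψ μ1 ∈ MM 2) {i : ℕ} (hfx : X.Fx μ1 y)
    (hl : Lands X.Λ (X.ψ μ1) (2 ^ i * X.a) y) (hrep : 1 < ‖X.rh μ1 y‖) (hne : z1 ≠ y) :
    ∀ᶠ x : ℂ × ℂ in 𝓝 (μ1, z1), X.Fx x.1 x.2 →
      ¬ (X.ψ x.1 ∈ MM 2 ∧ Lands X.Λ (X.ψ x.1) (2 ^ i * X.a) x.2) ∧
      ¬ ∃ (ζ : ℂ) (i' : ℕ), Crit 2 X.Λ (X.ψ x.1) ζ ∧ Cod 2 (an ζ) (2 ^ i * X.a) (sh i' X.ω) ∧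
        X.Wd x.1 ζ x.2 (sh i' X.ω) := by
  obtain ⟨δs, hδs, HS⟩ := stab h3 hX hμ hM hfx hl hrep
  have hR : X.rh μ1 y ≠ 1 := by
    intro h
    rw [h, norm_one] at hrep
    exact lt_irrefl _ hrep
  have hd : 0 < ‖z1 - y‖ := norm_pos_iff.2 (sub_ne_zero.2 hne)
  obtain ⟨δ, r, f, hδ, hδe, hr, hre, -, -, -, hf, -, -⟩ := hX.dt.locfix (B_sub X.toCtx hμ) hfx hR
    (lt_min hδs (half_pos hd))
  apply (near_iff (P := fun μ z => X.Fx μ z →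
    ¬ (X.ψ μ ∈ MM 2 ∧ Lands X.Λ (X.ψ μ) (2 ^ i * X.a) z) ∧
    ¬ ∃ (ζ : ℂ) (i' : ℕ), Crit 2 X.Λ (X.ψ μ) ζ ∧ Cod 2 (an ζ) (2 ^ i * X.a) (sh i' X.ω) ∧
      X.Wd μ ζ z (sh i' X.ω))).2
  refine ⟨min δ (‖z1 - y‖ / 2), lt_min hδ (half_pos hd), fun μ z h1 h2 h4 => ?_⟩
  have hμb : μ ∈ Metric.ball μ1 δ := by
    rw [mem_ball_iff_norm]
    exact h1.trans_le (min_le_left _ _)
  obtain ⟨hf1, hf2⟩ := hf μ hμb
  rw [mem_ball_iff_norm] at hf1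
  obtain ⟨HS1, HS2⟩ := HS μ (f μ) ((h1.trans_le (min_le_left _ _)).trans_le
    (hδe.trans (min_le_left _ _))) (hf1.trans_le (hre.trans (min_le_left _ _))) hf2
  have hzf : z ≠ f μ := by
    intro h
    have h5 : ‖z - z1‖ < ‖z1 - y‖ / 2 := h2.trans_le (min_le_right _ _)
    have h6 : ‖z - y‖ < ‖z1 - y‖ / 2 := by
      rw [h]
      exact hf1.trans_le (hre.trans (min_le_right _ _))
    have h7 : ‖z1 - y‖ ≤ ‖z - z1‖ + ‖z - y‖ := by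
      calc ‖z1 - y‖ = ‖(z - y) - (z - z1)‖ := by congr 1; ring
        _ ≤ ‖z - y‖ + ‖z - z1‖ := norm_sub_le _ _
        _ = _ := add_comm _ _
    linarith
  refine ⟨fun h => hzf (tendsto_nhds_unique h.2 (HS1 h.1)), ?_⟩
  rintro ⟨ζ, i', hCr, hcod, hw⟩
  obtain ⟨w, -, -, hw3⟩ := (Pool.Agent.PLim.a_FIXE 2 X.K X.Λ X.lh X.ls (X.ψ μ) ζ le_rfl hX.dt.hK1
    hX.dt.bot hX.dt.log hCr).1 (sh i' X.ω) (per_sh hX.cmb.exo.per i')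
  exact hzf ((hw3 z h4 hw).trans (hw3 (f μ) hf2 (HS2 ζ i' hCr hcod)).symm)

end Pool.Agent.PSat.SBB_

namespace Pool.Agent.PSat

open SBB_

theorem p_SBB (h1 : T_VPR) (h2 : T_XTU) (h3 : T_DSH) : T_SBB := by
  have _ := h2
  intro X hX μ1 z1 hμ hNF hfx hM hV
  have hμρ := B_sub X.toCtx hμ
  have hμ2 := hX.dt.sub2 hμρ
  have hR : X.rh μ1 z1 ≠ 1 := hNF z1 hfx
  obtain ⟨δV, hδV, HV⟩ := (h1 X.toCtx hX.dt hX.cst).2.2 μ1 hμ hV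
  obtain ⟨δE, hδE, HE⟩ := hX.dt.exa_loc hμ2 hfx hR
  by_cases hex : Exa 2 X.K (X.ψ μ1) z1
  swap
  · refine ⟨δE, hδE, Or.inr fun μ z h4 h5 h6 hS => hex ((HE μ z h4 h5 h6).1 hS.2.1)⟩
  have HY := fun i : ℕ => land_pt hX hNF hM i
  choose y hy1 hy2 hy3 using HY
  by_cases hz : ∃ i : ℕ, z1 = y i
  · obtain ⟨i, hi⟩ := hz
    obtain ⟨δS, hδS, HS⟩ := stab h3 hX hμ hM (hy1 i) (hy2 i) (hy3 i)
    have hrc := hX.dt.rh_cont hμ2 z1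
    have hrep : ∀ᶠ x : ℂ × ℂ in 𝓝 (μ1, z1), 1 < ‖X.rh x.1 x.2‖ := by
      refine hrc.norm.eventually (lt_mem_nhds ?_)
      show 1 < ‖X.rh μ1 z1‖
      rw [hi]
      exact hy3 i
    obtain ⟨δR, hδR, HR⟩ := (near_iff (P := fun μ z => 1 < ‖X.rh μ z‖)).1 hrep
    obtain ⟨δB, hδB, HB⟩ := Metric.isOpen_iff.mp Metric.isOpen_ball μ1 hμρ
    refine ⟨min (min δV δE) (min (min δS δR) δB),
      lt_min (lt_min hδV hδE) (lt_min (lt_min hδS hδR) hδB), Or.inl fun μ z h4 h5 h6 => ?_⟩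
    have a1 := fun {s : ℝ} (hs : s < min (min δV δE) (min (min δS δR) δB)) =>
      (hs.trans_le (min_le_left _ _)).trans_le (min_le_left _ _)
    have a2 := fun {s : ℝ} (hs : s < min (min δV δE) (min (min δS δR) δB)) =>
      (hs.trans_le (min_le_left _ _)).trans_le (min_le_right _ _)
    have a3 := fun {s : ℝ} (hs : s < min (min δV δE) (min (min δS δR) δB)) =>
      ((hs.trans_le (min_le_right _ _)).trans_le (min_le_left _ _)).trans_le (min_le_left _ _)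
    have a4 := fun {s : ℝ} (hs : s < min (min δV δE) (min (min δS δR) δB)) =>
      ((hs.trans_le (min_le_right _ _)).trans_le (min_le_left _ _)).trans_le (min_le_right _ _)
    have a5 := fun {s : ℝ} (hs : s < min (min δV δE) (min (min δS δR) δB)) =>
      (hs.trans_le (min_le_right _ _)).trans_le (min_le_right _ _)
    have hμV : μ ∉ X.V := HV μ (by rw [mem_ball_iff_norm]; exact a1 h4)
    have hE : Exa 2 X.K (X.ψ μ) z := (HE μ z (a2 h4) (a2 h5) h6).2 hex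
    have hrμ : 1 < ‖X.rh μ z‖ := HR μ z (a4 h4) (a4 h5)
    have hμB : μ ∈ Metric.ball X.m0 X.ρ := HB (by rw [mem_ball_iff_norm]; exact a5 h4)
    obtain ⟨HS1, HS2⟩ := HS μ z (a3 h4) (by rw [← hi]; exact a3 h5) h6
    refine ⟨h6, hE, ?_⟩
    by_cases hMμ : X.ψ μ ∈ MM 2
    · exact Or.inr (Or.inl ⟨hMμ, hμV, hrμ, i, HS1 hMμ⟩)
    · obtain ⟨ζ, hζ⟩ := hX.xt μ hμB hMμ
      obtain ⟨i', hi'⟩ := (hX.noi μ ζ hζ hμV).1 i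
      exact Or.inl ⟨hMμ, ζ, i', hζ, HS2 ζ i' hζ.2.1 hi'⟩
  · have hall : ∀ᶠ x : ℂ × ℂ in 𝓝 (μ1, z1), ∀ i ∈ Finset.range X.K, X.Fx x.1 x.2 →
        ¬ (X.ψ x.1 ∈ MM 2 ∧ Lands X.Λ (X.ψ x.1) (2 ^ i * X.a) x.2) ∧
        ¬ ∃ (ζ : ℂ) (i' : ℕ), Crit 2 X.Λ (X.ψ x.1) ζ ∧
          Cod 2 (an ζ) (2 ^ i * X.a) (sh i' X.ω) ∧ X.Wd x.1 ζ x.2 (sh i' X.ω) := by
      rw [Filter.eventually_all_finset]
      intro i _
      exact away h3 hX hμ hM (hy1 i) (hy2 i) (hy3 i) fun h => hz ⟨i, h⟩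
    obtain ⟨δA, hδA, HA⟩ := (near_iff (P := fun μ z => ∀ i ∈ Finset.range X.K, X.Fx μ z →
        ¬ (X.ψ μ ∈ MM 2 ∧ Lands X.Λ (X.ψ μ) (2 ^ i * X.a) z) ∧
        ¬ ∃ (ζ : ℂ) (i' : ℕ), Crit 2 X.Λ (X.ψ μ) ζ ∧
          Cod 2 (an ζ) (2 ^ i * X.a) (sh i' X.ω) ∧ X.Wd μ ζ z (sh i' X.ω))).1 hall
    refine ⟨min δV δA, lt_min hδV hδA, Or.inr fun μ z h4 h5 h6 hS => ?_⟩
    have hμV : μ ∉ X.V := HV μ (by rw [mem_ball_iff_norm]; exact h4.trans_le (min_le_left _ _))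
    have HA' := fun i : ℕ => HA μ z (h4.trans_le (min_le_right _ _))
      (h5.trans_le (min_le_right _ _)) (i % X.K) (Finset.mem_range.2 (Nat.mod_lt _ hX.dt.hK1)) h6
    obtain ⟨-, -, hS⟩ := hS
    rcases hS with ⟨hMμ, ζ, i', hXt, hw⟩ | ⟨hMμ, -, -, i, hl⟩ | ⟨-, hv, -⟩ | ⟨-, hv, -⟩
    · obtain ⟨i, hi⟩ := (hX.noi μ ζ hXt hμV).2 i'
      exact (HA' i).2 ⟨ζ, i', hXt.2.1, cod_int (pow_mod hX.cmb.aK i) hi, hw⟩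
    · exact (HA' i).1 ⟨hMμ, lands_int hX.dt.bot hMμ (pow_mod hX.cmb.aK i) hl⟩
    · exact hμV hv
    · exact hμV hv

end Pool.Agent.PSat
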