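import Pool.Agent.PSat.Basic
import Pool.Agent.MEY.OMG
import Pool.Agent.MEY.DDO

/-!
# SBD: local constancy in `V`, nonrepelling case
-/

set_option autoImplicit false

open Complex Filter Topology Set
open Pool.Agent.Multibrot (MM)
open Pool.Agent.Limb (F)
open Pool.Agent.PLim (Rho IsBot IsLog Crit Dig Rot IsInt Label lab Ex Cod Per Lands InZ LabR
  ZVn ONTOn NCn OMXn SECTn LocFix)
open Pool.Agent.MEX (Exa)
open Pool.Agent.MEY (Pt Omg DD Glob)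

namespace Pool.Agent.PSat

namespace SBD_

/-- the extended disc in degree two -/
lemma dd_exp {κ : ℝ} (hκ : 0 < κ) (ν : ℂ) : exp ν ∈ DD 2 1 κ ↔ ν ∈ Omg 1 κ := by
  have h := (Pool.Agent.MEY.p_DDO Pool.Agent.MEY.p_OMG 2 1 κ le_rfl hκ).2.2.2.1 ν
  simpa using h

/-- logarithms of the multipliers of modulus larger than one -/
lemma exists_log {κ : ℝ} (hκ : 0 < κ) {w : ℂ} (hw : w ∈ DD 2 1 κ) (h1 : 1 < ‖w‖) :
    ∃ ν : ℂ, ν ∈ Omg 1 κ ∧ exp ν = w ∧ 0 < ν.re ∧ 0 < ν.im ∧ ν.im < 2 * Real.pi := by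
  have hw0 : w ≠ 0 := by
    rintro rfl
    rw [norm_zero] at h1
    linarith
  have hL : log w ∈ Omg 1 κ := by
    rcases hw with h | h
    · exact absurd h hw0
    · simpa using h
  have hre : 0 < (log w).re := by
    rw [log_re]
    exact Real.log_pos h1
  have hexp : exp (log w) = w := exp_log hw0
  have him : (log w).im ≠ 0 := by
    intro h0
    rcases hL with h | ⟨δ, hδ, -, hF, -⟩
    · linarith
    · have h2 := hF 1 le_rfl le_rfl 0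
      rw [h0] at h2
      norm_num at h2
      linarith
  rcases lt_or_gt_of_ne him with h | h
  · refine ⟨log w + 2 * Real.pi * I, ?_, ?_, ?_, ?_, ?_⟩
    · have h2 := ((Pool.Agent.MEY.p_OMG 1 κ hκ).2.1 (log w) 1).2 hL
      simpa using h2
    · rw [exp_add, exp_two_pi_mul_I, mul_one, hexp]
    · simpa using hre
    · have h2 := neg_pi_lt_log_im w
      have h3 := Real.pi_pos
      simp only [add_im, mul_im, mul_re, I_im, I_re, ofReal_im, ofReal_re]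
      norm_num
      linarith
    · simp only [add_im, mul_im, mul_re, I_im, I_re, ofReal_im, ofReal_re]
      norm_num
      linarith
  · refine ⟨log w, hL, hexp, hre, h, ?_⟩
    have h2 := log_im_le_pi w
    linarith [Real.pi_pos]

lemma kp_pos {X : Ctx} (h : Dt X) : 0 < X.kp := by
  have h1 : (0 : ℝ) < X.K := by exact_mod_cast h.hK1
  have h2 : 0 < X.C1 := lt_of_lt_of_le one_pos h.hC
  unfold Ctx.kp
  positivity

/-- the label of the section and of its points -/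
lemma hasL_iff (hGLL : T_GLL) {X : Full} (h : Ok X) {c0 : ℂ} {Ψ Z : ℂ → ℂ}
    (hG : Glob 2 X.K 1 X.kp c0 Ψ Z) {c z ν : ℂ} {j : ℕ} (hν : ν ∈ Omg 1 X.kp) (h0 : 0 < ν.re)
    (h1 : 0 < ν.im) (h2 : ν.im < 2 * Real.pi) (hΨ : Ψ (exp ν) = c)
    (hZ : (F 2 c)^[j] (Z (exp ν)) = z) :
    HasL X Ψ Z ↔ ∃ i : ℕ, LabR 2 X.K X.Λ X.lh c ((F 2 c)^[i] z) X.l := by
  have hK := h.dt.hK1
  have hκ : 0 < X.kp := kp_pos h.dt
  have hpt : ∀ ν' ∈ Omg 1 X.kp, (F 2 (Ψ (exp ν')))^[X.K] (Z (exp ν')) = Z (exp ν') ∧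
      Rho 2 X.K (Ψ (exp ν')) (Z (exp ν')) = exp ν' := by
    intro ν' hν'
    have h3 := hG.pt (exp ν') ((dd_exp hκ ν').2 hν')
    refine ⟨h3.fix, ?_⟩
    rw [h3.mul]
    norm_num
  constructor
  · rintro ⟨i, ν0, hν0, b0, b1, b2, hlab⟩
    obtain ⟨l', hl'⟩ := hGLL X.C1 X.K X.Λ X.lh X.ls c0 Ψ Z h.dt.hC hK h.cst.zv h.dt.bot h.dt.log
      hG i
    have h4 := hpt ν0 hν0
    have h5 : 1 < ‖Rho 2 X.K (Ψ (exp ν0)) ((F 2 (Ψ (exp ν0)))^[i] (Z (exp ν0)))‖ := by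
      rw [rho_iter h4.1, h4.2, norm_exp]
      exact Real.one_lt_exp_iff.2 b0
    have h6 : l' = X.l := (Pool.Agent.PLim.a_LU 2 X.K X.Λ X.lh X.ls _ _ le_rfl hK h.dt.bot
      h.dt.log (fix_iter h4.1 i) h5).2.1 _ _ (hl' ν0 hν0 b0 b1 b2) hlab
    have h7 := hl' ν hν h0 h1 h2
    have h8 := (hpt ν hν).1
    rw [hΨ] at h7 h8
    refine ⟨i + (X.K * j - j), ?_⟩
    rw [← hZ, Function.iterate_add_apply, fix_back h8 hK j, ← h6]
    exact h7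
  · rintro ⟨i, hi⟩
    refine ⟨i + j, ν, hν, h0, h1, h2, ?_⟩
    rw [hΨ, Function.iterate_add_apply, hZ]
    exact hi

/-- two global sections with a common cycle have the same labels -/
lemma hasL_same (hSM2 : T_SM2) (hGD1 : T_GD1) {X : Full} (h : Ok X) {c0 c0' : ℂ}
    {Ψ Z Ψ' Z' : ℂ → ℂ} (hG : Glob 2 X.K 1 X.kp c0 Ψ Z) (hG' : Glob 2 X.K 1 X.kp c0' Ψ' Z')
    {c z w : ℂ} {j j' : ℕ} (hw : w ∈ DD 2 1 X.kp) (hΨ : Ψ w = c) (hΨ' : Ψ' w = c)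
    (hZ : (F 2 c)^[j] (Z w) = z) (hZ' : (F 2 c)^[j'] (Z' w) = z) (hL : HasL X Ψ' Z') :
    HasL X Ψ Z := by
  have hK := h.dt.hK1
  have hκ : 0 < X.kp := kp_pos h.dt
  have hGOD := hGD1 X.C1 X.K h.dt.hC hK h.cst.nc
  have hfix' : (F 2 c)^[X.K] (Z' w) = Z' w := by
    have h3 := (hG'.pt w hw).fix
    rw [hΨ'] at h3
    exact h3
  have h4 : (F 2 (Ψ w))^[(X.K * j' - j') + j] (Z w) = Z' w := by
    rw [hΨ, Function.iterate_add_apply, hZ, ← hZ', fix_back hfix' hK j']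
  have h5 := hSM2 X.K X.kp c0 c0' Ψ Z Ψ' Z' w _ hK hκ hGOD hG hG' hw (by rw [hΨ, hΨ']) h4
  obtain ⟨i, ν, hν, b0, b1, b2, hlab⟩ := hL
  have h6 := h5 (exp ν) ((dd_exp hκ ν).2 hν)
  refine ⟨i + ((X.K * j' - j') + j), ν, hν, b0, b1, b2, ?_⟩
  rw [Function.iterate_add_apply, ← h6.2, ← h6.1]
  exact hlab

end SBD_

theorem p_SBD (hVPR : T_VPR) (hEXL : T_EXL) (hEXV : T_EXV) (hGD1 : T_GD1) (hGEX : T_GEX)
    (hGNB : T_GNB) (hSM2 : T_SM2) (hGLL : T_GLL) : T_SBD := by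
  intro X h μ1 z1 hμ1 hfx hR1 hM hV hR
  have hK := h.dt.hK1
  have hκ : 0 < X.kp := SBD_.kp_pos h.dt
  have hμρ : μ1 ∈ Metric.ball X.m0 X.ρ := B_sub _ hμ1
  have hμ2 : μ1 ∈ Metric.ball X.m0 (2 * X.ρ) := h.dt.sub2 hμρ
  obtain ⟨δe, hδe, hexa⟩ := h.dt.exa_loc hμ2 hfx hR1
  by_cases hex : Exa 2 X.K (X.ψ μ1) z1
  swap
  · exact ⟨δe, hδe, Or.inr fun μ z a1 a2 a3 hS => hex ((hexa μ z a1 a2 a3).1 hS.2.1)⟩
  obtain ⟨c0, Ψ, Z, hG, hw1, hΨ1, j, hj⟩ := hGEX X.C1 X.K (X.ψ μ1) z1 h.dt.hC hK h.cst.nc hfx hex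
    hR hR1
  have hG' : Glob 2 X.K 1 X.kp c0 Ψ Z := hG
  have hGOD := hGD1 X.C1 X.K h.dt.hC hK h.cst.nc
  obtain ⟨δn, hδn, hnb⟩ := hGNB X.K X.kp c0 Ψ Z _ j 1 hK hκ hGOD hG' hw1 one_pos
  rw [hΨ1, hj] at hnb
  obtain ⟨-, hVo, -⟩ := hVPR X.toCtx h.dt h.cst
  obtain ⟨δv, hδv, hVo'⟩ := hVo μ1 hV hM
  obtain ⟨δx, hδx, hexl⟩ := hEXL X h μ1 hV hM
  obtain ⟨δc, hδc, hcont⟩ := Metric.eventually_nhds_iff_ball.mp
    ((h.dt.psi_cont hμ2).eventually (Metric.ball_mem_nhds _ hδn))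
  set δ : ℝ := min δe (min δn (min δv (min δx δc))) with hδ
  have hδ0 : 0 < δ := lt_min hδe (lt_min hδn (lt_min hδv (lt_min hδx hδc)))
  have key : ∀ μ z : ℂ, ‖μ - μ1‖ < δ → ‖z - z1‖ < δ → X.Fx μ z → (Sb X μ z ↔ HasL X Ψ Z) := by
    intro μ z hμ hz hf
    simp only [hδ, lt_min_iff] at hμ hz
    obtain ⟨m1, m2, m3, m4, m5⟩ := hμ
    obtain ⟨n1, n2, -, -, -⟩ := hz
    have hex' : Exa 2 X.K (X.ψ μ) z := (hexa μ z m1 n1 hf).2 hex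
    have hμV : μ ∈ X.V := hVo' (mem_ball_iff_norm.2 m3)
    have hc : ‖X.ψ μ - X.ψ μ1‖ < δn := mem_ball_iff_norm.1 (hcont μ (mem_ball_iff_norm.2 m5))
    obtain ⟨w1, -, w3, w4⟩ := hnb (X.ψ μ) z hc n2 hf
    set w : ℂ := Rho 2 X.K (X.ψ μ) z with hwdef
    rcases le_or_gt ‖w‖ 1 with hw | hw
    · have hMM : X.ψ μ ∈ MM 2 := mm_of_le hK h.dt.bot hf hw
      constructor
      · rintro ⟨-, -, hS | hS | hS | hS⟩
        · exact absurd hMM hS.1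
        · exact absurd hμV hS.2.1
        · exact absurd hS.2.2.1 (not_lt.2 hw)
        · obtain ⟨c0', Ψ', Z', hGl, -, hΨ', ⟨j', hj'⟩, hL⟩ := hS.2.2.2
          exact SBD_.hasL_same hSM2 hGD1 h hG' hGl w1 w3 hΨ' w4 hj' hL
      · intro hL
        exact ⟨hf, hex', Or.inr (Or.inr (Or.inr ⟨hMM, hμV, hw, c0, Ψ, Z, hG', w1, w3, ⟨j, w4⟩,
          hL⟩))⟩
    · obtain ⟨ν, hν, hνw, b0, b1, b2⟩ := SBD_.exists_log hκ w1 hw
      have hiff := SBD_.hasL_iff hGLL h hG' (c := X.ψ μ) (z := z) (j := j) hν b0 b1 b2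
        (by rw [hνw, w3]) (by rw [hνw, w4])
      rw [hiff]
      by_cases hMM : X.ψ μ ∈ MM 2
      · constructor
        · rintro ⟨-, -, hS | hS | hS | hS⟩
          · exact absurd hMM hS.1
          · exact absurd hμV hS.2.1
          · exact hS.2.2.2
          · exact absurd hw (not_lt.2 hS.2.2.1)
        · intro hL
          exact ⟨hf, hex', Or.inr (Or.inr (Or.inl ⟨hMM, hμV, hw, hL⟩))⟩
      · obtain ⟨ζ, hζ⟩ := h.xt μ hμV.1 hMM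
        have hab := hexl μ (mem_ball_iff_norm.2 m4) ζ hζ
        exact hEXV X h μ ζ z hζ hab.1 hab.2 hf
  refine ⟨δ, hδ0, ?_⟩
  by_cases hL : HasL X Ψ Z
  · exact Or.inl fun μ z a1 a2 a3 => (key μ z a1 a2 a3).2 hL
  · exact Or.inr fun μ z a1 a2 a3 hS => hL ((key μ z a1 a2 a3).1 hS)

end Pool.Agent.PSat
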