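import Pool.Agent.PSat.Basic

/-!
# PSAT: target T_SBI (invariance under the dynamics)
-/

set_option autoImplicit false

open Complex Filter Topology Set
open Pool.Agent.Multibrot (MM)
open Pool.Agent.Limb (F)
open Pool.Agent.PLim (Rho IsBot IsLog Crit Dig Rot IsInt Label lab Ex Cod Per Lands InZ LabR)
open Pool.Agent.MEX (Exa)
open Pool.Agent.MEY (Pt Omg DD Glob)

namespace Pool.Agent.PSat

namespace SBI_

/-- one step forward -/
lemma step (hINZ : T_INZ) {X : Full} (hX : Ok X) {μ z : ℂ} (h : Sb X μ z) :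
    Sb X μ (F 2 (X.ψ μ) z) := by
  obtain ⟨hfx, hex, hr⟩ := h
  have hK : 1 ≤ X.K := hX.dt.hK1
  have hrho : X.rh μ (F 2 (X.ψ μ) z) = X.rh μ z := rho_step hfx
  refine ⟨fix_iter hfx 1, exa_iter hfx hK hex 1, ?_⟩
  rcases hr with ⟨h1, ζ, i, h2, h3⟩ | ⟨h1, h2, h3, i, h4⟩ | ⟨h1, h2, h3, j, h4⟩ |
    ⟨h1, h2, h3, h4⟩
  · refine Or.inl ⟨h1, ζ, i + 1, h2, ?_⟩
    intro j
    have h5 := h3 (j + 1)
    rw [Function.iterate_succ_apply] at h5
    have h6 : sh (i + 1) X.ω j = sh i X.ω (j + 1) := by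
      simp only [sh_apply]
      congr 1
      omega
    rw [h6]
    exact h5
  · refine Or.inr (Or.inl ⟨h1, h2, ?_, i + 1, ?_⟩)
    · rw [hrho]; exact h3
    · have h5 := (hINZ X.K X.Λ X.lh (X.ψ μ) z (2 ^ i * X.a) hK hX.dt.bot h1 h4).1 1
      have h6 : (2 : ℝ) ^ 1 * (2 ^ i * X.a) = 2 ^ (i + 1) * X.a := by ring
      rw [h6] at h5
      exact h5
  · refine Or.inr (Or.inr (Or.inl ⟨h1, h2, ?_, j + (X.K - 1), ?_⟩))
    · rw [hrho]; exact h3
    · have h5 : (F 2 (X.ψ μ))^[j + (X.K - 1)] (F 2 (X.ψ μ) z) = (F 2 (X.ψ μ))^[j] z := by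
        rw [← Function.iterate_succ_apply]
        have h6 : (j + (X.K - 1)).succ = j + X.K := by omega
        rw [h6, Function.iterate_add_apply]
        congr 1
      rw [h5]
      exact h4
  · refine Or.inr (Or.inr (Or.inr ⟨h1, h2, ?_, ?_⟩))
    · rw [hrho]; exact h3
    · obtain ⟨c0, Ψ, Z, g1, g2, g3, ⟨j, g4⟩, g5⟩ := h4
      refine ⟨c0, Ψ, Z, g1, ?_, ?_, ⟨j + 1, ?_⟩, g5⟩
      · rw [hrho]; exact g2
      · rw [hrho]; exact g3
      · rw [hrho, Function.iterate_succ_apply', g4]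

/-- several steps forward -/
lemma steps (hINZ : T_INZ) {X : Full} (hX : Ok X) {μ z : ℂ} (h : Sb X μ z) (j : ℕ) :
    Sb X μ ((F 2 (X.ψ μ))^[j] z) := by
  induction j with
  | zero => exact h
  | succ j ih =>
    rw [Function.iterate_succ_apply']
    exact step hINZ hX ih

end SBI_

theorem p_SBI (hINZ : T_INZ) : T_SBI := by
  intro X hX μ z _ hfx
  refine ⟨fun h => SBI_.step hINZ hX h, fun h => ?_⟩
  have h1 := SBI_.steps hINZ hX h (X.K - 1)
  rw [← Function.iterate_succ_apply] at h1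
  have hK : 1 ≤ X.K := hX.dt.hK1
  have h2 : (X.K - 1).succ = X.K := by omega
  rw [h2] at h1
  have h3 : (F 2 (X.ψ μ))^[X.K] z = z := hfx
  rwa [h3] at h1

end Pool.Agent.PSat
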