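import Pool.Agent.PSat.Targets

/-!
# SBL: local constancy
-/

set_option autoImplicit false

open Set
open Pool.Agent.Multibrot (MM)

namespace Pool.Agent.PSat

theorem p_SBL (hA : T_SBA) (hB : T_SBB) (hC : T_SBC) (hD : T_SBD) : T_SBL := by
  intro X hX μ1 z1 hμ hnf hfx
  by_cases hM : X.ψ μ1 ∈ MM 2
  · by_cases hV : μ1 ∈ X.V
    · rcases le_or_gt ‖X.rh μ1 z1‖ 1 with h | h
      · exact hD X hX μ1 z1 hμ hfx (hnf z1 hfx) hM hV h
      · exact hC X hX μ1 z1 hμ hfx hM hV h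
    · exact hB X hX μ1 z1 hμ hnf hfx hM hV
  · exact hA X hX μ1 z1 hμ hfx hM

end Pool.Agent.PSat
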