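import Pool.Agent.PSat.Words
import Pool.Agent.PSat.Targets

/-!
# PSAT: the shortest gap
-/

set_option autoImplicit false

open Set
open Pool.Agent.PLim (Gm IsInt Cod Per)

namespace Pool.Agent.PSat

namespace SHG_

/-- A point of a set of period one with two classes has a successor at distance less than one. -/
lemma succ_ex {S : Set ℝ} (hadd : ∀ (x : ℝ) (m : ℤ), x + m ∈ S ↔ x ∈ S)
    (hfin : ∀ x : ℝ, (S ∩ Icc x (x + 1)).Finite)
    (h2 : ∃ a a' : ℝ, a ∈ S ∧ a' ∈ S ∧ a < a' ∧ a' < a + 1) {x : ℝ} (hx : x ∈ S) :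
    ∃ y : ℝ, Gap S x y ∧ y < x + 1 := by
  have hne : ∃ y : ℝ, y ∈ S ∧ x < y ∧ y < x + 1 := by
    obtain ⟨a, a', ha, ha', h3, h4⟩ := h2
    have h5 := Int.floor_le (x - a)
    have h6 := Int.lt_floor_add_one (x - a)
    rcases eq_or_lt_of_le h5 with h7 | h7
    · refine ⟨a' + ⌊x - a⌋, (hadd _ _).2 ha', ?_, ?_⟩ <;> linarith
    · refine ⟨a + ((⌊x - a⌋ + 1 : ℤ) : ℝ), (hadd _ _).2 ha, ?_, ?_⟩ <;> push_cast <;> linarith
  have hT : {y : ℝ | y ∈ S ∧ x < y ∧ y < x + 1}.Finite :=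
    (hfin x).subset fun y hy => ⟨hy.1, hy.2.1.le, hy.2.2.le⟩
  obtain ⟨y, ⟨h3, h4, h5⟩, h6⟩ := Set.exists_min_image _ id hT hne
  refine ⟨y, ⟨hx, h3, h4, ?_⟩, h5⟩
  rintro z hz ⟨h7, h8⟩
  have h9 : y ≤ z := h6 z ⟨hz, h7, by linarith⟩
  linarith

lemma gm_add (θ : ℝ) (i : ℤ) (y : ℝ) (s : ℤ) : Gm 2 θ i (y + s) = Gm 2 θ i y + s := by
  unfold Gm
  rw [show y + s - θ = y - θ + s by ring, Int.floor_add_intCast]
  push_cast
  ring

end SHG_

open SHG_ in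
theorem p_SHG (hB : T_THB) (hU : T_UNL) : T_SHG := by
  intro K θ η hK hp h0
  have hper : ∀ i : ℕ, Per K (sh i η) := per_sh hp
  have hadd : ∀ (i : ℕ) (x : ℝ) (m : ℤ), x + m ∈ Th K θ (sh i η) ↔ x ∈ Th K θ (sh i η) :=
    fun i => (hB K θ (sh i η) hK (hper i)).1
  have hfin : ∀ (i : ℕ) (x : ℝ), (Th K θ (sh i η) ∩ Icc x (x + 1)).Finite :=
    fun i => (hB K θ (sh i η) hK (hper i)).2.1
  -- the preceding level
  have hback : ∀ i : ℕ, sh 1 (sh (i + K - 1) η) = sh i η := by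
    intro i
    rw [sh_sh, show 1 + (i + K - 1) = i + K * 1 by omega]
    exact sh_mul hp i 1
  -- two classes at every level
  have htwo : ∀ i : ℕ, ∃ a a' : ℝ, a ∈ Th K θ (sh i η) ∧ a' ∈ Th K θ (sh i η) ∧ a < a' ∧
      a' < a + 1 := by
    have hstep : ∀ i : ℕ, (∃ a a' : ℝ, a ∈ Th K θ (sh (i + 1) η) ∧ a' ∈ Th K θ (sh (i + 1) η) ∧
        a < a' ∧ a' < a + 1) → ∃ a a' : ℝ, a ∈ Th K θ (sh i η) ∧ a' ∈ Th K θ (sh i η) ∧ a < a' ∧
        a' < a + 1 := by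
      rintro i ⟨a, a', ha, ha', h1, h2⟩
      have hb := hB K θ (sh i η) hK (hper i)
      have hs : sh 1 (sh i η) = sh (i + 1) η := by rw [sh_sh, Nat.add_comm]
      have h7 := hb.2.2.2.2.2.2.1
      have h9 := hb.2.2.2.2.2.2.2.2.1
      rw [hs] at h7 h9
      have ha1 : a + ((1 : ℤ) : ℝ) ∈ Th K θ (sh (i + 1) η) := (hadd _ _ _).2 ha
      refine ⟨Gm 2 θ (sh i η 0) a, Gm 2 θ (sh i η 0) a', (h7 a ha).1, (h7 a' ha').1,
        h9 a ha a' ha' h1, ?_⟩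
      have h3 := h9 a' ha' _ ha1 (by push_cast; linarith)
      rw [gm_add] at h3
      push_cast at h3
      exact h3
    have hdown : ∀ m i : ℕ, (∃ a a' : ℝ, a ∈ Th K θ (sh (i + m) η) ∧
        a' ∈ Th K θ (sh (i + m) η) ∧ a < a' ∧ a' < a + 1) →
        ∃ a a' : ℝ, a ∈ Th K θ (sh i η) ∧ a' ∈ Th K θ (sh i η) ∧ a < a' ∧ a' < a + 1 := by
      intro m
      induction m with
      | zero => exact fun i h => h
      | succ m ih => exact fun i h => ih i (hstep (i + m) h)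
    intro i
    refine hdown (K * i - i) i ?_
    have h1 : i ≤ K * i := Nat.le_mul_of_pos_left i hK
    have h2 : sh (i + (K * i - i)) η = η := by
      have := sh_mul hp 0 i
      rw [Nat.zero_add, sh_zero] at this
      rwa [Nat.add_sub_cancel' h1]
    rw [h2]
    obtain ⟨a, a', h3⟩ := h0
    exact ⟨a, a', h3⟩
  have hsucc : ∀ (i : ℕ) (x : ℝ), x ∈ Th K θ (sh i η) →
      ∃ y : ℝ, Gap (Th K θ (sh i η)) x y ∧ y < x + 1 :=
    fun i x hx => succ_ex (hadd i) (hfin i) (htwo i) hx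
  -- the lengths are discrete
  have hN : (0 : ℝ) < 2 ^ K - 1 := by
    have : (2 : ℝ) ^ 1 ≤ 2 ^ K := pow_le_pow_right₀ (by norm_num) hK
    linarith
  have hlen : ∀ (i : ℕ) (u v : ℝ), Gap (Th K θ (sh i η)) u v →
      ∃ n : ℕ, ((2 : ℝ) ^ K - 1) * (v - u) = n := by
    rintro i u v ⟨⟨⟨a, ha⟩, -⟩, ⟨⟨b, hb⟩, -⟩, huv, -⟩
    have h1 : ((2 : ℝ) ^ K - 1) * (v - u) = ((b - a : ℤ) : ℝ) := by
      push_cast
      rw [← ha, ← hb]
      ring
    have h2 : (0 : ℝ) < ((b - a : ℤ) : ℝ) := by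
      rw [← h1]
      exact mul_pos hN (by linarith)
    have h3 : 0 < b - a := by exact_mod_cast h2
    refine ⟨(b - a).toNat, ?_⟩
    rw [h1]
    have h4 : (((b - a).toNat : ℤ) : ℝ) = ((b - a : ℤ) : ℝ) := by
      rw [Int.toNat_of_nonneg h3.le]
    rw [← h4]
    push_cast
    rfl
  -- the minimal gap
  obtain ⟨i0, u0, v0, hg0, hmin⟩ : ∃ (i0 : ℕ) (u0 v0 : ℝ), Gap (Th K θ (sh i0 η)) u0 v0 ∧
      ∀ (i' : ℕ) (u' v' : ℝ), Gap (Th K θ (sh i' η)) u' v' → v0 - u0 ≤ v' - u' := by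
    classical
    have hex : ∃ n : ℕ, ∃ (i : ℕ) (u v : ℝ), Gap (Th K θ (sh i η)) u v ∧
        ((2 : ℝ) ^ K - 1) * (v - u) = n := by
      obtain ⟨a, -, ha, -⟩ := htwo 0
      obtain ⟨y, hy, -⟩ := hsucc 0 a ha
      obtain ⟨n, hn⟩ := hlen 0 a y hy
      exact ⟨n, 0, a, y, hy, hn⟩
    obtain ⟨i0, u0, v0, h1, h2⟩ := Nat.find_spec hex
    refine ⟨i0, u0, v0, h1, fun i' u' v' h3 => ?_⟩
    obtain ⟨n', hn'⟩ := hlen i' u' v' h3
    have h4 : Nat.find hex ≤ n' := Nat.find_min' hex ⟨i', u', v', h3, hn'⟩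
    have h5 : (Nat.find hex : ℝ) ≤ n' := by exact_mod_cast h4
    rw [← h2, ← hn'] at h5
    exact le_of_mul_le_mul_left h5 hN
  -- it contains a translate of `θ`
  obtain ⟨m, hm1, hm2⟩ : ∃ m : ℤ, u0 < θ + m ∧ θ + m < v0 := by
    by_contra hno
    push Not at hno
    have hb := hB K θ (sh i0 η) hK (hper i0)
    have h3 := hb.2.2.1
    have hfl : ⌊u0 - θ⌋ = ⌊v0 - θ⌋ := by
      refine le_antisymm (Int.floor_le_floor (by linarith [hg0.2.2.1])) ?_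
      rw [Int.le_floor]
      by_contra hlt
      push Not at hlt
      have h4 := hno ⌊v0 - θ⌋ (by linarith)
      have h5 := Int.floor_le (v0 - θ)
      exact h3 v0 hg0.2.1 ⌊v0 - θ⌋ (le_antisymm (by linarith) (by linarith))
    have hb' := hB K θ (sh (i0 + K - 1) η) hK (hper _)
    have h10 := hb'.2.2.2.2.2.2.2.2.2
    rw [hback] at h10
    have h5 := h10 u0 v0 hg0
    have h6 := hmin _ _ _ h5
    have h7 : Gm 2 θ (sh (i0 + K - 1) η 0) v0 - Gm 2 θ (sh (i0 + K - 1) η 0) u0 =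
        (v0 - u0) / 2 := by
      unfold Gm
      rw [hfl]
      push_cast
      ring
    rw [h7] at h6
    have := hg0.2.2.1
    linarith
  -- translate
  obtain ⟨u, hu⟩ : ∃ u, u = u0 + ((-m : ℤ) : ℝ) := ⟨_, rfl⟩
  obtain ⟨v, hv⟩ : ∃ v, v = v0 + ((-m : ℤ) : ℝ) := ⟨_, rfl⟩
  obtain ⟨i, hi, hiK⟩ : ∃ i : ℕ, sh i η = sh i0 η ∧ i < K :=
    ⟨i0 % K, sh_mod hp i0, Nat.mod_lt _ hK⟩
  have huv : v - u = v0 - u0 := by rw [hu, hv]; ring
  have hg : Gap (Th K θ (sh i η)) u v := by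
    rw [hi, hu, hv]
    refine ⟨(hadd _ _ _).2 hg0.1, (hadd _ _ _).2 hg0.2.1, by linarith [hg0.2.2.1], ?_⟩
    rintro z hz ⟨h1, h2⟩
    refine hg0.2.2.2 (z + m) ((hadd _ _ _).2 hz) ⟨?_, ?_⟩
    · push_cast at h1
      linarith
    · push_cast at h2
      linarith
  have hmin' : ∀ (i' : ℕ) (u' v' : ℝ), Gap (Th K θ (sh i' η)) u' v' → v - u ≤ v' - u' :=
    fun i' u' v' h => by rw [huv]; exact hmin i' u' v' h
  have huθ : u < θ := by
    rw [hu]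
    push_cast
    linarith
  have hθv : θ < v := by
    rw [hv]
    push_cast
    linarith
  have hv1 : v < u + 1 := by
    obtain ⟨y, hy, hy1⟩ := hsucc i u hg.1
    by_contra hn
    exact hg.2.2.2 y hy.2.1 ⟨hy.2.2.1, by linarith⟩
  have hu1 : u + 1 ∈ Th K θ (sh i η) := by
    have := (hadd i u 1).2 hg.1
    push_cast at this
    exact this
  have hhalf : v - u ≤ 1 / 2 := by
    obtain ⟨w, hw, -⟩ := hsucc i v hg.2.1
    have h1 := hmin' _ _ _ hw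
    have h2 : w ≤ u + 1 := by
      by_contra hn
      exact hw.2.2.2 (u + 1) hu1 ⟨hv1, by linarith⟩
    linarith
  refine ⟨i, u, v, hiK, hg, hhalf, huθ, hθv, hmin', ?_⟩
  rintro i' z hz ⟨h1, h2⟩
  have hbi := hB K θ (sh i' η) hK (hper i')
  by_cases heq : Eq2 (sh i' η) (sh i η)
  · have h3 := hbi.2.2.2.1 _ heq
    rw [← h3] at hz
    exact hg.2.2.2 z hz ⟨h1, h2⟩
  · obtain ⟨z', hz', hz1⟩ := hsucc i' z hz
    have h3 := hmin' _ _ _ hz'
    have h4 : v < z' := by linarith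
    rcases lt_trichotomy z' (u + 1) with h5 | h5 | h5
    · exact hU K θ (sh i η) (sh i' η) u v z z' (fun h => heq h.symm) hg.1 hg.2.1 hz hz'.2.1
        h1 h2 h4 h5
    · refine heq (hbi.2.2.2.2.1 _ ⟨u + 1, ?_, hu1⟩)
      rw [← h5]
      exact hz'.2.1
    · have h6 : z' + ((-1 : ℤ) : ℝ) ∈ Th K θ (sh i' η) := (hadd _ _ _).2 hz'.2.1
      obtain ⟨s, hs, -⟩ := hsucc i' _ h6
      have h7 := hmin' _ _ _ hs
      have h8 : s ≤ z := by
        by_contra hn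
        refine hs.2.2.2 z hz ⟨?_, by linarith⟩
        push_cast
        linarith
      push_cast at h7
      linarith

end Pool.Agent.PSat
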