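import Pool.Agent.PSat.Targets
import Pool.Agent.MEY.OMG
import Pool.Agent.MEY.DDO
import Pool.Agent.MEY.SAME

/-!
# PSAT, SM2: uniqueness of global sections
-/

set_option autoImplicit false

open Complex Filter Topology Set
open Pool.Agent.Limb (F)
open Pool.Agent.PLim (Rho)
open Pool.Agent.MEX (LI)
open Pool.Agent.MEY (Pt Omg DD Glob p_OMG p_DDO)

namespace Pool.Agent.PSat

namespace SM2_

/-- The case of a nonzero multiplier. -/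
lemma main (hLU : T_LUF) {K : ℕ} {κ : ℝ} {c0 c0' : ℂ} {Ψ Z Ψ' Z' : ℂ → ℂ} {w : ℂ} {j : ℕ}
    (hK : 1 ≤ K) (hκ : 0 < κ) (hG : GODf 2 K 1 κ) (hg : Glob 2 K 1 κ c0 Ψ Z)
    (hg' : Glob 2 K 1 κ c0' Ψ' Z') (hw : w ∈ DD 2 1 κ) (hw0 : w ≠ 0) (hΨ : Ψ w = Ψ' w)
    (hj : (F 2 (Ψ w))^[j] (Z w) = Z' w) :
    ∀ v ∈ DD 2 1 κ, Ψ' v = Ψ v ∧ Z' v = (F 2 (Ψ v))^[j] (Z v) := by
  obtain ⟨hLI, -, -⟩ := p_OMG 1 κ hκ
  obtain ⟨hO, -, -, hE, hL, -⟩ := p_DDO p_OMG 2 1 κ le_rfl hκ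
  obtain ⟨μ1, hμ1, hwμ⟩ := hL w hw hw0
  obtain ⟨e, hedef⟩ : ∃ e : ℂ → ℂ, e = fun μ => exp (μ / ((2 - 1 : ℕ) : ℂ)) := ⟨_, rfl⟩
  have he : Continuous e := by
    rw [hedef]
    fun_prop
  have heD : ∀ μ ∈ Omg 1 κ, e μ ∈ DD 2 1 κ := fun μ hμ => by
    rw [hedef]
    exact (hE μ).2 hμ
  have hepow : ∀ μ, (e μ) ^ (2 - 1) = exp μ := by
    intro μ
    rw [hedef]
    simp
  have c1 : ContinuousOn (fun μ => Ψ (e μ)) (Omg 1 κ) :=
    hg.dΨ.continuousOn.comp he.continuousOn heD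
  have c1' : ContinuousOn (fun μ => Z (e μ)) (Omg 1 κ) :=
    hg.dX.continuousOn.comp he.continuousOn heD
  have c2 : ContinuousOn (fun μ => (F 2 (Ψ (e μ)))^[j] (Z (e μ))) (Omg 1 κ) :=
    (Pool.Agent.MEY.SAME_.contI 2 j).comp_continuousOn (c1.prodMk c1')
  have c3 : ContinuousOn (fun μ => Ψ' (e μ)) (Omg 1 κ) :=
    hg'.dΨ.continuousOn.comp he.continuousOn heD
  have c4 : ContinuousOn (fun μ => Z' (e μ)) (Omg 1 κ) :=
    hg'.dX.continuousOn.comp he.continuousOn heD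
  have hew : e μ1 = w := by rw [hedef, hwμ]
  have key := hLU 2 K 1 κ le_rfl hK hG (Omg 1 κ) (fun μ => Ψ (e μ))
    (fun μ => (F 2 (Ψ (e μ)))^[j] (Z (e μ))) (fun μ => Ψ' (e μ)) (fun μ => Z' (e μ)) μ1
    hLI.isPreconnected Subset.rfl c1 c2 c3 c4
    (fun μ hμ => by
      have := Pool.Agent.MEY.SAME_.pt_iter hK (hg.pt (e μ) (heD μ hμ)) j
      rw [hepow] at this
      exact this)
    (fun μ hμ => by
      have := hg'.pt (e μ) (heD μ hμ)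
      rw [hepow] at this
      exact this) hμ1
    (by rw [hew, hΨ]) (by rw [hew, hj])
  have hv : ∀ v ∈ DD 2 1 κ, v ≠ 0 → Ψ' v = Ψ v ∧ Z' v = (F 2 (Ψ v))^[j] (Z v) := by
    intro v hv hv0
    obtain ⟨μ, hμ, hvμ⟩ := hL v hv hv0
    have h5 := key.1 hμ
    have h5' := key.2 hμ
    have h6 : e μ = v := by rw [hedef, hvμ]
    simp only [h6] at h5 h5'
    exact ⟨h5.symm, h5'.symm⟩
  intro v hvD
  by_cases hv0 : v = 0
  · subst hv0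
    have hD0 : DD 2 1 κ ∈ 𝓝 (0 : ℂ) := hO.mem_nhds hvD
    have q1 : ContinuousAt Ψ 0 := hg.dΨ.continuousOn.continuousAt hD0
    have q2 : ContinuousAt Z 0 := hg.dX.continuousOn.continuousAt hD0
    have q3 : ContinuousAt Ψ' 0 := hg'.dΨ.continuousOn.continuousAt hD0
    have q4 : ContinuousAt Z' 0 := hg'.dX.continuousOn.continuousAt hD0
    have q5 : ContinuousAt (fun v => (F 2 (Ψ v))^[j] (Z v)) 0 :=
      ContinuousAt.comp (f := fun v : ℂ => (Ψ v, Z v))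
        (Pool.Agent.MEY.SAME_.contI 2 j).continuousAt (q1.prodMk q2)
    constructor
    · have ev : Ψ' =ᶠ[𝓝[≠] 0] Ψ := by
        filter_upwards [self_mem_nhdsWithin, nhdsWithin_le_nhds hD0] with v hv1 hv2
        exact (hv v hv2 hv1).1
      exact tendsto_nhds_unique ((q3.tendsto.mono_left nhdsWithin_le_nhds).congr' ev)
        (q1.tendsto.mono_left nhdsWithin_le_nhds)
    · have ev : Z' =ᶠ[𝓝[≠] 0] fun v => (F 2 (Ψ v))^[j] (Z v) := by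
        filter_upwards [self_mem_nhdsWithin, nhdsWithin_le_nhds hD0] with v hv1 hv2
        exact (hv v hv2 hv1).2
      exact tendsto_nhds_unique ((q4.tendsto.mono_left nhdsWithin_le_nhds).congr' ev)
        (q5.tendsto.mono_left nhdsWithin_le_nhds)
  · exact hv v hvD hv0

end SM2_

open SM2_ in
/-- SM2. -/
theorem p_SM2 (hLU : T_LUF) (hGN : T_GNB) : T_SM2 := by
  intro K κ c0 c0' Ψ Z Ψ' Z' w j hK hκ hG hg hg' hw hΨ hj
  by_cases hw0 : w = 0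
  · subst hw0
    obtain ⟨hO, -, -, -, -, -⟩ := p_DDO p_OMG 2 1 κ le_rfl hκ
    have hD0 : DD 2 1 κ ∈ 𝓝 (0 : ℂ) := hO.mem_nhds hw
    obtain ⟨δ, hδ, hnear⟩ := hGN K κ c0 Ψ Z 0 j 1 hK hκ hG hg hw one_pos
    have q3 : ContinuousAt Ψ' 0 := hg'.dΨ.continuousOn.continuousAt hD0
    have q4 : ContinuousAt Z' 0 := hg'.dX.continuousOn.continuousAt hD0
    have e1 : ∀ᶠ v in 𝓝 (0 : ℂ), ‖Ψ' v - Ψ 0‖ < δ := by
      have := (Metric.tendsto_nhds.1 q3.tendsto) δ hδ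
      filter_upwards [this] with v hv
      rw [hΨ, ← dist_eq_norm]
      exact hv
    have e2 : ∀ᶠ v in 𝓝 (0 : ℂ), ‖Z' v - (F 2 (Ψ 0))^[j] (Z 0)‖ < δ := by
      have := (Metric.tendsto_nhds.1 q4.tendsto) δ hδ
      filter_upwards [this] with v hv
      rw [hj, ← dist_eq_norm]
      exact hv
    have e3 : ∀ᶠ v in 𝓝[≠] (0 : ℂ), ‖Ψ' v - Ψ 0‖ < δ ∧
        ‖Z' v - (F 2 (Ψ 0))^[j] (Z 0)‖ < δ ∧ v ∈ DD 2 1 κ ∧ v ≠ 0 := by
      filter_upwards [self_mem_nhdsWithin, nhdsWithin_le_nhds e1, nhdsWithin_le_nhds e2,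
        nhdsWithin_le_nhds hD0] with v h1 h2 h3 h4
      exact ⟨h2, h3, h4, h1⟩
    obtain ⟨v, h1, h2, h3, h4⟩ := e3.exists
    have hp := hg'.pt v h3
    obtain ⟨-, -, h7, h8⟩ := hnear (Ψ' v) (Z' v) h1 h2 hp.fix
    have hm : Rho 2 K (Ψ' v) (Z' v) = v := by
      rw [hp.mul]
      simp
    rw [hm] at h7 h8
    exact main hLU hK hκ hG hg hg' h3 h4 h7 (by rw [h7]; exact h8)
  · exact main hLU hK hκ hG hg hg' hw hw0 hΨ hj

end Pool.Agent.PSat
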