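import Pool.Agent.PSat.Targets
import Pool.Agent.PSat.Words

/-!
# SNG: there is a single orbit
-/

set_option autoImplicit false

open Set
open Pool.Agent.PLim (GWL GmL Gm Gm_eq Rot IsInt Per)

namespace Pool.Agent.PSat

namespace SNG_

/-! ### gaps of periodic locally finite sets -/

/-- invariant under integer translations and locally finite -/
structure LF (S : Set ℝ) : Prop where
  add : ∀ (x : ℝ) (m : ℤ), x + m ∈ S ↔ x ∈ S
  fin : ∀ x : ℝ, (S ∩ Icc x (x + 1)).Finite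

lemma LF.least_gt {S : Set ℝ} (h : LF S) (hne : S.Nonempty) (z : ℝ) :
    ∃ b ∈ S, z < b ∧ ∀ c ∈ S, z < c → b ≤ c := by
  obtain ⟨s, hs⟩ := hne
  obtain ⟨s', hs', h1, h4, h5⟩ : ∃ s' : ℝ, s' = s + ((⌊z - s⌋ + 1 : ℤ) : ℝ) ∧ s' ∈ S ∧ z < s' ∧
      s' ≤ z + 1 := by
    have h2 := Int.floor_le (z - s)
    have h3 := Int.lt_floor_add_one (z - s)
    refine ⟨_, rfl, (h.add _ _).2 hs, ?_, ?_⟩ <;> push_cast <;> linarith
  have hf : (S ∩ Icc z (z + 1) ∩ Ioi z).Finite := (h.fin z).subset inter_subset_left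
  obtain ⟨b, hb, hb'⟩ := Set.exists_min_image _ id hf ⟨s', ⟨h1, h4.le, h5⟩, h4⟩
  refine ⟨b, hb.1.1, hb.2, fun c hc hzc => ?_⟩
  rcases le_or_gt c (z + 1) with h6 | h6
  · exact hb' c ⟨⟨hc, hzc.le, h6⟩, hzc⟩
  · exact hb.1.2.2.trans h6.le

lemma LF.greatest_lt {S : Set ℝ} (h : LF S) (hne : S.Nonempty) (z : ℝ) :
    ∃ a ∈ S, a < z ∧ ∀ c ∈ S, c < z → c ≤ a := by
  obtain ⟨s, hs⟩ := hne
  obtain ⟨s', hs', h1, h4, h5⟩ : ∃ s' : ℝ, s' = s + ((⌈z - s⌉ - 1 : ℤ) : ℝ) ∧ s' ∈ S ∧ s' < z ∧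
      z - 1 ≤ s' := by
    have h2 := Int.le_ceil (z - s)
    have h3 := Int.ceil_lt_add_one (z - s)
    refine ⟨_, rfl, (h.add _ _).2 hs, ?_, ?_⟩ <;> push_cast <;> linarith
  have hf : (S ∩ Icc (z - 1) (z - 1 + 1) ∩ Iio z).Finite := (h.fin (z - 1)).subset
    inter_subset_left
  obtain ⟨a, ha, ha'⟩ := Set.exists_max_image _ id hf ⟨s', ⟨h1, h5, by linarith⟩, h4⟩
  refine ⟨a, ha.1.1, ha.2, fun c hc hzc => ?_⟩
  rcases le_or_gt (z - 1) c with h6 | h6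
  · exact ha' c ⟨⟨hc, h6, by linarith⟩, hzc⟩
  · exact h6.le.trans ha.1.2.1

lemma LF.succ {S : Set ℝ} (h : LF S) {x : ℝ} (hx : x ∈ S) : ∃ x' : ℝ, Gap S x x' := by
  obtain ⟨b, hb, hxb, hb'⟩ := h.least_gt ⟨x, hx⟩ x
  exact ⟨b, hx, hb, hxb, fun z hz hz' => not_lt.mpr (hb' z hz hz'.1) hz'.2⟩

lemma LF.pred {S : Set ℝ} (h : LF S) {x : ℝ} (hx : x ∈ S) : ∃ x' : ℝ, Gap S x' x := by
  obtain ⟨b, hb, hxb, hb'⟩ := h.greatest_lt ⟨x, hx⟩ x
  exact ⟨b, hb, hx, hxb, fun z hz hz' => not_lt.mpr (hb' z hz hz'.2) hz'.1⟩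

lemma LF.around {S : Set ℝ} (h : LF S) (hne : S.Nonempty) {z : ℝ} (hz : z ∉ S) :
    ∃ a b : ℝ, Gap S a b ∧ a < z ∧ z < b := by
  obtain ⟨a, ha, haz, ha'⟩ := h.greatest_lt hne z
  obtain ⟨b, hb, hzb, hb'⟩ := h.least_gt hne z
  refine ⟨a, b, ⟨ha, hb, haz.trans hzb, fun c hc hc' => ?_⟩, haz, hzb⟩
  rcases lt_trichotomy c z with h1 | h1 | h1
  · exact not_lt.mpr (ha' c hc h1) hc'.1
  · exact hz (h1 ▸ hc)
  · exact not_lt.mpr (hb' c hc h1) hc'.2

lemma LF.shift {S : Set ℝ} (h : LF S) {a b : ℝ} (hg : Gap S a b) (m : ℤ) :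
    Gap S (a + m) (b + m) := by
  obtain ⟨h1, h2, h3, h4⟩ := hg
  refine ⟨(h.add _ _).2 h1, (h.add _ _).2 h2, by linarith, fun z hz hz' => ?_⟩
  refine h4 (z - m) ?_ ⟨by linarith [hz'.1], by linarith [hz'.2]⟩
  exact (h.add (z - m) m).1 (by rwa [sub_add_cancel])

lemma gap_right {S : Set ℝ} {a b c : ℝ} (h : Gap S a b) (h' : Gap S a c) : b = c := by
  rcases lt_trichotomy b c with h1 | h1 | h1
  · exact absurd ⟨h.2.2.1, h1⟩ (h'.2.2.2 b h.2.1)
  · exact h1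
  · exact absurd ⟨h'.2.2.1, h1⟩ (h.2.2.2 c h'.2.1)

lemma gap_left {S : Set ℝ} {a b c : ℝ} (h : Gap S a c) (h' : Gap S b c) : a = b := by
  rcases lt_trichotomy a b with h1 | h1 | h1
  · exact absurd ⟨h1, h'.2.2.1⟩ (h.2.2.2 b h'.1)
  · exact h1
  · exact absurd ⟨h1, h.2.2.1⟩ (h'.2.2.2 a h.1)

/-- two gaps of total length greater than one coincide modulo one -/
lemma LF.two {S : Set ℝ} (h : LF S) {a b c d : ℝ} (h1 : Gap S a b) (h2 : Gap S c d)
    (hl : 1 < (b - a) + (d - c)) : ∃ m : ℤ, c = a + m ∧ d = b + m := by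
  have h3 := Int.floor_le (c - a)
  have h4 := Int.lt_floor_add_one (c - a)
  obtain ⟨f, hf⟩ : ∃ f : ℤ, f = ⌊c - a⌋ := ⟨_, rfl⟩
  rw [← hf] at h3 h4
  have h5 := h.shift h1 f
  rcases eq_or_lt_of_le (show a + f ≤ c by linarith) with h6 | h6
  · refine ⟨f, h6.symm, ?_⟩
    rw [h6] at h5
    exact gap_right h2 h5
  · exfalso
    have h7 : b + f ≤ c := by
      by_contra hn
      exact h5.2.2.2 c h2.1 ⟨h6, not_le.mp hn⟩
    have h8 : a + ((f + 1 : ℤ) : ℝ) ∈ S := (h.add _ _).2 h1.1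
    have h9 : d ≤ a + ((f + 1 : ℤ) : ℝ) := by
      by_contra hn
      exact h2.2.2.2 _ h8 ⟨by push_cast; linarith, not_le.mp hn⟩
    push_cast at h9
    linarith

/-! ### orbits -/

/-- `x` is in the forward orbit of `u` -/
def Orb (u x : ℝ) : Prop := ∃ t : ℕ, IsInt (2 ^ t * u - x)

lemma Orb.self (u : ℝ) : Orb u u := ⟨0, by rw [pow_zero, one_mul, sub_self]; exact isInt_zero⟩

lemma Orb.congr {u x y : ℝ} (h : Orb u x) (hxy : IsInt (x - y)) : Orb u y := by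
  obtain ⟨t, ht⟩ := h
  refine ⟨t, ?_⟩
  have := isInt_add ht hxy
  rwa [sub_add_sub_cancel] at this

lemma Orb.mul2 {u x : ℝ} (h : Orb u x) (j : ℕ) : Orb u (2 ^ j * x) := by
  obtain ⟨t, ht⟩ := h
  refine ⟨j + t, ?_⟩
  have := isInt_mul (isInt_pow j) ht
  rwa [mul_sub, ← mul_assoc, ← pow_add] at this

lemma Orb.back {K : ℕ} {u x : ℝ} (hK : 1 ≤ K) (hx : IsP K x) (j : ℕ) (h : Orb u (2 ^ j * x)) :
    Orb u x := (h.mul2 (K * j - j)).congr (isP_back hx hK j)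

/-- preimages are unique -/
lemma lift_unique {K : ℕ} {x y a : ℝ} (hK : 1 ≤ K) (hx : IsP K x) (hy : IsP K y) (j : ℕ)
    (h1 : IsInt (2 ^ j * x - a)) (h2 : IsInt (2 ^ j * y - a)) : IsInt (y - x) := by
  have h3 := isP_back hx hK j
  have h4 := isP_back hy hK j
  have h5 := isInt_mul (isInt_pow (K * j - j)) (isInt_sub h2 h1)
  have h6 := isInt_add (isInt_sub h3 h4) h5
  have h7 : 2 ^ (K * j - j) * (2 ^ j * x) - x - (2 ^ (K * j - j) * (2 ^ j * y) - y) +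
      2 ^ (K * j - j) * (2 ^ j * y - a - (2 ^ j * x - a)) = y - x := by ring
  rwa [h7] at h6

/-- two points on the same cycle -/
lemma cyc {k q : ℕ} {u a x : ℝ} (hq : 1 ≤ q) (hu : IsP (k * q) u) {s t : ℕ}
    (h1 : IsInt (2 ^ (k * s) * u - a)) (h2 : IsInt (2 ^ (k * t) * u - x)) :
    ∃ n : ℕ, IsInt (2 ^ (k * n) * x - a) := by
  refine ⟨s + (q * t - t), ?_⟩
  have h3 : IsInt (2 ^ (k * q * t) * u - u) := isP_iff.mp (hu.mul t)
  have h4 := isInt_mul (isInt_pow (k * (s + (q * t - t)))) h2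
  have h5 := isInt_mul (isInt_pow (k * s)) h3
  have h6 := isInt_add (isInt_sub h5 h4) h1
  have h7 : (2 : ℝ) ^ (k * (s + (q * t - t))) * 2 ^ (k * t) = 2 ^ (k * s) * 2 ^ (k * q * t) := by
    rw [← pow_add, ← pow_add]
    congr 1
    have h8 : t ≤ q * t := Nat.le_mul_of_pos_left t hq
    have h9 : k * (s + (q * t - t)) + k * t = k * (s + (q * t - t) + t) := by ring
    rw [h9, show s + (q * t - t) + t = s + q * t by omega]
    ring
  have h10 : 2 ^ (k * s) * (2 ^ (k * q * t) * u - u) -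
      2 ^ (k * (s + (q * t - t))) * (2 ^ (k * t) * u - x) + (2 ^ (k * s) * u - a) =
      (2 ^ (k * s) * 2 ^ (k * q * t) - 2 ^ (k * (s + (q * t - t))) * 2 ^ (k * t)) * u +
      (2 ^ (k * (s + (q * t - t))) * x - a) := by ring
  rw [h10, h7, sub_self, zero_mul, zero_add] at h6
  exact h6

/-! ### the pull back -/

lemma pull (hTHB : T_THB) {K : ℕ} (hK : 1 ≤ K) (θ : ℝ) {η : ℕ → ℤ} (hη : Per K η) (n : ℕ) :
    (∀ y ∈ Th K θ (sh n η), GWL 2 θ η n y ∈ Th K θ η ∧ IsInt (2 ^ n * GWL 2 θ η n y - y)) ∧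
    ∀ y y' : ℝ, Gap (Th K θ (sh n η)) y y' →
      Gap (Th K θ η) (GWL 2 θ η n y) (GWL 2 θ η n y') := by
  induction n with
  | zero =>
    refine ⟨fun y hy => ⟨hy, ?_⟩, fun y y' h => h⟩
    rw [pow_zero, one_mul]
    change IsInt (y - y)
    rw [sub_self]
    exact isInt_zero
  | succ n ih =>
    obtain ⟨ih1, ih2⟩ := ih
    obtain ⟨-, -, -, -, -, -, h7, -, -, h10⟩ := hTHB K θ (sh n η) hK (per_sh hη n)
    rw [sh_sh, Nat.add_comm 1 n] at h7 h10
    rw [sh_apply, Nat.zero_add] at h7 h10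
    refine ⟨fun y hy => ?_, fun y y' h => ?_⟩
    · obtain ⟨h1, h2⟩ := h7 y hy
      obtain ⟨h3, h4⟩ := ih1 _ h1
      refine ⟨h3, ?_⟩
      change IsInt (2 ^ (n + 1) * GWL 2 θ η n (Gm 2 θ (η n) y) - y)
      have h5 := isInt_add (isInt_mul (isInt_pow 1) h4) h2
      have h6 : 2 ^ 1 * (2 ^ n * GWL 2 θ η n (Gm 2 θ (η n) y) - Gm 2 θ (η n) y) +
          (2 * Gm 2 θ (η n) y - y) = 2 ^ (n + 1) * GWL 2 θ η n (Gm 2 θ (η n) y) - y := by ring
      rwa [h6] at h5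
    · exact ih2 _ _ (h10 y y' h)

/-- the exponent is a multiple of `k` -/
lemma exp_dvd (hTHB : T_THB) {k q : ℕ} (hk : 1 ≤ k) (hq : 1 ≤ q) {θ : ℝ} {η : ℕ → ℤ}
    (hη : ExW k η) {u x : ℝ} (hu : u ∈ Th (k * q) θ η) (hx : x ∈ Th (k * q) θ η) {t : ℕ}
    (h : IsInt (2 ^ t * u - x)) : ∃ s : ℕ, t = k * s := by
  obtain ⟨-, -, -, -, h5, h6, -, -, -, -⟩ := hTHB (k * q) θ η (Nat.mul_pos hk hq)
    (per_mul hη.per q)
  obtain ⟨N, hN⟩ := h
  have h7 := h6 u hu t (-N)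
  have h8 : 2 ^ t * u + ((-N : ℤ) : ℝ) = x := by push_cast; linarith
  rw [h8] at h7
  obtain ⟨s, hs⟩ := hη.dvd hk (h5 (sh t η) ⟨x, hx, h7⟩).symm
  exact ⟨s, hs⟩

/-- closed under successors -/
lemma closed (hTHB : T_THB) {k q : ℕ} (hk : 1 ≤ k) (hq : 1 ≤ q) {θ : ℝ} {η : ℕ → ℤ}
    (hη : ExW k η) (hLF : LF (Th (k * q) θ η)) {u a b : ℝ} (hu : u ∈ Th (k * q) θ η)
    (hab : Gap (Th (k * q) θ η) a b)
    (ha : Orb u a) (hb : Orb u b) {x x' : ℝ} (hx : Orb u x) (hxx : Gap (Th (k * q) θ η) x x') :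
    Orb u x' := by
  have hK : 1 ≤ k * q := Nat.mul_pos hk hq
  obtain ⟨t, ht⟩ := ha
  obtain ⟨t', ht'⟩ := hx
  obtain ⟨s, rfl⟩ := exp_dvd hTHB hk hq hη hu hab.1 ht
  obtain ⟨s', rfl⟩ := exp_dvd hTHB hk hq hη hu hxx.1 ht'
  obtain ⟨n, hn⟩ := cyc hq hu.1 ht ht'
  obtain ⟨h1, h2⟩ := pull hTHB hK θ (per_mul hη.per q) (k * n)
  have hsh : sh (k * n) η = η := by
    have := sh_mul hη.per 0 n
    rwa [Nat.zero_add, sh_zero] at this
  rw [hsh] at h1 h2
  obtain ⟨h3, h4⟩ := h1 a hab.1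
  obtain ⟨h5, h6⟩ := h1 b hab.2.1
  have h7 := h2 a b hab
  obtain ⟨m, hm⟩ := lift_unique hK hxx.1.1 h3.1 (k * n) hn h4
  have h8 := hLF.shift h7 (-m)
  have h9 : GWL 2 θ η (k * n) a + ((-m : ℤ) : ℝ) = x := by push_cast; linarith
  rw [h9] at h8
  have h10 := gap_right hxx h8
  have h11 : Orb u (GWL 2 θ η (k * n) b) := by
    refine Orb.back hK h5.1 (k * n) (hb.congr ?_)
    have := isInt_neg h6
    rwa [neg_sub] at this
  refine h11.congr ⟨m, ?_⟩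
  rw [h10]
  push_cast
  ring

/-- the differences of periodic angles -/
lemma diff_nat {K : ℕ} {x y : ℝ} (hx : IsP K x) (hy : IsP K y) (hxy : x < y) (hK : 1 ≤ K) :
    ∃ n : ℕ, (y - x) * (2 ^ K - 1) = n := by
  obtain ⟨a, ha⟩ := hx
  obtain ⟨b, hb⟩ := hy
  have hN : (0 : ℝ) < 2 ^ K - 1 := by
    have : (2 : ℝ) ^ 1 ≤ 2 ^ K := pow_le_pow_right₀ (by norm_num) hK
    linarith
  have h1 : (y - x) * (2 ^ K - 1) = ((b - a : ℤ) : ℝ) := by
    push_cast
    rw [← ha, ← hb]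
    ring
  have h2 : 0 ≤ b - a := by
    have h3 : (0 : ℝ) ≤ ((b - a : ℤ) : ℝ) := by
      rw [← h1]
      exact mul_nonneg (by linarith) hN.le
    exact_mod_cast h3
  obtain ⟨n, hn⟩ := Int.eq_ofNat_of_zero_le h2
  refine ⟨n, ?_⟩
  rw [h1, hn]
  rfl

/-- everything is in the orbit -/
lemma all_orb (hTHB : T_THB) {k q : ℕ} (hk : 1 ≤ k) (hq : 1 ≤ q) {θ : ℝ} {η : ℕ → ℤ}
    (hη : ExW k η) (hLF : LF (Th (k * q) θ η)) {u a b : ℝ} (hu : u ∈ Th (k * q) θ η)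
    (hab : Gap (Th (k * q) θ η) a b) (ha : Orb u a) (hb : Orb u b) :
    ∀ x ∈ Th (k * q) θ η, Orb u x := by
  have hK : 1 ≤ k * q := Nat.mul_pos hk hq
  have key : ∀ n : ℕ, ∀ x ∈ Th (k * q) θ η, (x - u) * (2 ^ (k * q) - 1) = n → Orb u x := by
    intro n
    induction n using Nat.strong_induction_on with
    | _ n ih =>
      intro x hx hn
      have hN : (0 : ℝ) < 2 ^ (k * q) - 1 := by
        have : (2 : ℝ) ^ 1 ≤ 2 ^ (k * q) := pow_le_pow_right₀ (by norm_num) hK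
        linarith
      have h0 : u ≤ x := by
        by_contra hlt
        have h1 : (x - u) * (2 ^ (k * q) - 1) < 0 :=
          mul_neg_of_neg_of_pos (by linarith [not_le.mp hlt]) hN
        rw [hn] at h1
        have : (0 : ℝ) ≤ n := Nat.cast_nonneg n
        linarith
      rcases eq_or_lt_of_le h0 with h1 | h1
      · rw [← h1]
        exact Orb.self u
      · obtain ⟨y, hy⟩ := hLF.pred hx
        have h2 : u ≤ y := by
          by_contra hlt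
          exact hy.2.2.2 u hu ⟨not_le.mp hlt, h1⟩
        have h3 : Orb u y := by
          rcases eq_or_lt_of_le h2 with h4 | h4
          · rw [← h4]
            exact Orb.self u
          · obtain ⟨n', hn'⟩ := diff_nat hu.1 hy.1.1 h4 hK
            refine ih n' ?_ y hy.1 hn'
            have h5 : (n' : ℝ) < n := by
              rw [← hn, ← hn']
              exact mul_lt_mul_of_pos_right (by linarith [hy.2.2.1]) hN
            exact_mod_cast h5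
        exact closed hTHB hk hq hη hLF hu hab ha hb h3 hy
  intro x hx
  obtain ⟨m, hm⟩ : ∃ m : ℤ, u < x + m := by
    refine ⟨⌊u - x⌋ + 1, ?_⟩
    push_cast
    linarith [Int.lt_floor_add_one (u - x)]
  have h1 : x + m ∈ Th (k * q) θ η := (hLF.add x m).2 hx
  obtain ⟨n, hn⟩ := diff_nat hu.1 h1.1 hm hK
  refine (key n _ h1 hn).congr ⟨m, by ring⟩

end SNG_

open SNG_

theorem p_SNG (hTHB : T_THB) (hUNL : T_UNL) (hSHG : T_SHG) : T_SNG := by
  intro k q θ ε hk hq hε hne hfix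
  have hq1 : 1 ≤ q := by omega
  have hK : 1 ≤ k * q := Nat.mul_pos hk hq1
  obtain ⟨K, hKdef⟩ : ∃ K, K = k * q := ⟨_, rfl⟩
  have hper : ∀ j : ℕ, Per K (sh j ε) := fun j => by rw [hKdef]; exact per_mul (per_sh hε.per j) q
  have hK' : 1 ≤ K := by rw [hKdef]; exact hK
  have hB := fun j : ℕ => hTHB K θ (sh j ε) hK' (hper j)
  have hLF : ∀ j : ℕ, LF (Th K θ (sh j ε)) := fun j => ⟨(hB j).1, (hB j).2.1⟩
  have hshK : ∀ j : ℕ, sh (j + K) ε = sh j ε := fun j => by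
    rw [hKdef]
    exact sh_mul hε.per j q
  rw [← hKdef] at hne hfix ⊢
  -- two points
  have h2 : ∃ x x' : ℝ, x ∈ Th K θ ε ∧ x' ∈ Th K θ ε ∧ x < x' ∧ x' < x + 1 := by
    obtain ⟨x, hx⟩ := hne
    have h6 := (hB 0).2.2.2.2.2.1 x (by rw [sh_zero]; exact hx) k
    rw [sh_zero, sh_self hε.per] at h6
    have h3 := Int.floor_le (2 ^ k * x - x)
    have h4 := Int.lt_floor_add_one (2 ^ k * x - x)
    obtain ⟨f, hf⟩ : ∃ f : ℤ, f = ⌊2 ^ k * x - x⌋ := ⟨_, rfl⟩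
    rw [← hf] at h3 h4
    refine ⟨x, 2 ^ k * x + ((-f : ℤ) : ℝ), hx, h6 (-f), ?_, ?_⟩
    · rcases eq_or_lt_of_le h3 with h5 | h5
      · exact absurd (isP_iff.mpr ⟨f, h5.symm⟩) (hfix x hx)
      · push_cast
        linarith
    · push_cast
      linarith
  obtain ⟨i, u, v, hi, hV, hV2, huθ, hθv, hVmin, hVno⟩ := hSHG K θ ε hK' (hper 0) h2
  have hexi : ExW k (sh i ε) := hε.shift hk i
  have hLFi : LF (Th (k * q) θ (sh i ε)) := by rw [← hKdef]; exact hLF i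
  -- no point of level `i` is fixed
  have hfixi : ∀ x ∈ Th K θ (sh i ε), ¬ IsP k x := by
    intro x hx hP
    have h6 := (hB i).2.2.2.2.2.1 x hx (K * i - i) 0
    rw [Int.cast_zero, add_zero, sh_sh] at h6
    have h7 : sh (K * i - i + i) ε = ε := by
      have := sh_back (per_mul hε.per q) hK i
      rw [sh_sh] at this
      rw [hKdef]
      exact this
    rw [h7] at h6
    exact hfix _ h6 (hP.pow _)
  -- all points are in the orbit of `u`
  have hall : ∀ x ∈ Th K θ (sh i ε), Orb u x := by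
    by_contra hcon
    push Not at hcon
    obtain ⟨x0, hx0, hx0'⟩ := hcon
    have hD : (0 : ℝ) < 2 ^ K - 1 := by
      have : (2 : ℝ) ^ 1 ≤ 2 ^ K := pow_le_pow_right₀ (by norm_num) hK'
      linarith
    -- a shortest bad gap
    have hexb : ∃ n : ℕ, ∃ (j : ℕ) (w w' : ℝ), Gap (Th K θ (sh j ε)) w w' ∧ ¬ Orb u w ∧
        (w' - w) * (2 ^ K - 1) = n := by
      obtain ⟨x1, hx1⟩ := (hLF i).succ hx0
      obtain ⟨n, hn⟩ := diff_nat hx1.1.1 hx1.2.1.1 hx1.2.2.1 hK'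
      exact ⟨n, i, x0, x1, hx1, hx0', hn⟩
    classical
    obtain ⟨n0, ⟨j, w0, w0', hW0, hbad0, hlen0⟩, hmin0⟩ : ∃ n : ℕ,
        (∃ (j : ℕ) (w w' : ℝ), Gap (Th K θ (sh j ε)) w w' ∧ ¬ Orb u w ∧
        (w' - w) * (2 ^ K - 1) = n) ∧ ∀ n' : ℕ, n' < n → ¬ ∃ (j : ℕ) (w w' : ℝ),
        Gap (Th K θ (sh j ε)) w w' ∧ ¬ Orb u w ∧ (w' - w) * (2 ^ K - 1) = n' :=
      ⟨Nat.find hexb, Nat.find_spec hexb, fun n' hn' => Nat.find_min hexb hn'⟩
    have hmin : ∀ (j' : ℕ) (z z' : ℝ), Gap (Th K θ (sh j' ε)) z z' → ¬ Orb u z →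
        w0' - w0 ≤ z' - z := by
      intro j' z z' hz hz'
      obtain ⟨n', hn'⟩ := diff_nat hz.1.1 hz.2.1.1 hz.2.2.1 hK'
      by_contra hlt
      refine hmin0 n' ?_ ⟨j', z, z', hz, hz', hn'⟩
      have h1 : (n' : ℝ) < n0 := by
        rw [← hn', ← hlen0]
        exact mul_lt_mul_of_pos_right (not_le.mp hlt) hD
      exact_mod_cast h1
    -- it contains a translate of `θ`
    obtain ⟨m, hm1, hm2⟩ : ∃ m : ℤ, w0 < θ + m ∧ θ + m < w0' := by
      by_contra hno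
      push Not at hno
      have hη := hTHB K θ (sh (j + (K - 1)) ε) hK' (hper _)
      have hsh1 : sh 1 (sh (j + (K - 1)) ε) = sh j ε := by
        rw [sh_sh, show 1 + (j + (K - 1)) = j + K by omega]
        exact hshK j
      obtain ⟨-, -, -, -, -, -, h7, -, -, h10⟩ := hη
      rw [hsh1] at h7 h10
      have h11 := h10 _ _ hW0
      have h12 := (h7 _ hW0.1).2
      have h13 : ⌊w0' - θ⌋ = ⌊w0 - θ⌋ := by
        apply le_antisymm
        · rw [Int.le_floor]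
          have h14 := Int.floor_le (w0' - θ)
          have h15 := (hB j).2.2.1 w0' hW0.2.1 ⌊w0' - θ⌋
          have h16 : θ + ⌊w0' - θ⌋ < w0' := lt_of_le_of_ne (by linarith) (Ne.symm h15)
          by_contra hlt
          exact absurd h16 (not_lt.mpr (hno _ (by linarith [not_le.mp hlt])))
        · exact Int.floor_le_floor (by linarith [hW0.2.2.1])
      have h14 := hmin (j + (K - 1)) _ _ h11 (fun h => hbad0 (by
        have h15 := h.mul2 1
        rw [pow_one] at h15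
        exact h15.congr h12))
      rw [Gm_eq, Gm_eq, h13] at h14
      push_cast at h14
      linarith [hW0.2.2.1]
    obtain ⟨w, hw⟩ : ∃ w : ℝ, w = w0 + ((-m : ℤ) : ℝ) := ⟨_, rfl⟩
    obtain ⟨w', hw'⟩ : ∃ w' : ℝ, w' = w0' + ((-m : ℤ) : ℝ) := ⟨_, rfl⟩
    have hW : Gap (Th K θ (sh j ε)) w w' := by
      rw [hw, hw']
      exact (hLF j).shift hW0 (-m)
    have hlen : w' - w = w0' - w0 := by rw [hw, hw']; ring
    have hwθ : w < θ := by rw [hw]; push_cast; linarith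
    have hθw : θ < w' := by rw [hw']; push_cast; linarith
    have hbad : ¬ Orb u w := fun h => hbad0 (h.congr ⟨-m, by rw [hw]; ring⟩)
    -- different levels
    have hneq : ¬ Eq2 (sh j ε) (sh i ε) := by
      intro he
      have h1 : Th K θ (sh i ε) = Th K θ (sh j ε) := (hB j).2.2.2.1 _ he
      rw [← h1] at hW
      apply hbad
      rcases lt_trichotomy w u with h3 | h3 | h3
      · exact absurd ⟨h3, huθ.trans hθw⟩ (hW.2.2.2 u hV.1)
      · rw [h3]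
        exact Orb.self u
      · exact absurd ⟨h3, hwθ.trans hθv⟩ (hV.2.2.2 w hW.1)
    have hdis : ∀ x : ℝ, x ∈ Th K θ (sh j ε) → x ∈ Th K θ (sh i ε) → False := fun x h1 h2 =>
      hneq ((hB j).2.2.2.2.1 _ ⟨x, h1, h2⟩)
    have hwu : w < u := by
      rcases lt_trichotomy w u with h3 | h3 | h3
      · exact h3
      · exact (hdis w hW.1 (h3 ▸ hV.1)).elim
      · exact absurd ⟨h3, hwθ.trans hθv⟩ (hVno j w hW.1)
    have hvw : v < w' := by
      rcases lt_trichotomy v w' with h3 | h3 | h3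
      · exact h3
      · exact (hdis w' hW.2.1 (h3 ▸ hV.2.1)).elim
      · exact absurd ⟨huθ.trans hθw, h3⟩ (hVno j w' hW.2.1)
    -- the long gap
    obtain ⟨u2, u3, hI, hI2, hI3⟩ := (hLF i).around ⟨u, hV.1⟩
      (z := w') (fun h => hdis w' hW.2.1 h)
    have hI4 : w + 1 < u3 := by
      rcases lt_trichotomy (w + 1) u3 with h3 | h3 | h3
      · exact h3
      · exfalso
        have h4 := ((hLF j).add w 1).2 hW.1
        rw [Int.cast_one, h3] at h4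
        exact hdis u3 h4 hI.2.1
      · exact (hUNL K θ (sh j ε) (sh i ε) w w' u u3 hneq hW.1 hW.2.1 hV.1 hI.2.1 hwu
          (hV.2.2.1.trans hvw) hI3 h3).elim
    -- if a gap of level `i` has both endpoints in the orbit: contradiction
    have hno2 : ∀ a b : ℝ, Gap (Th K θ (sh i ε)) a b → Orb u a → Orb u b → False := by
      intro a b hab ha hb
      have h5 := all_orb hTHB hk hq1 hexi hLFi (u := u) (a := a) (b := b)
        (by rw [← hKdef]; exact hV.1) (by rw [← hKdef]; exact hab) ha hb x0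
        (by rw [← hKdef]; exact hx0)
      exact hx0' h5
    obtain ⟨v', hv'⟩ := (hLF i).succ hV.2.1
    obtain ⟨u', hu'⟩ := (hLF i).pred hV.1
    have hbv : ¬ Orb u v := fun h => hno2 u v hV (Orb.self u) h
    have hbu : ¬ Orb u u' := fun h => hno2 u' u hu' h (Orb.self u)
    obtain ⟨m1, hm3, hm4⟩ := (hLF i).two hI hv' (by
      have := hmin i _ _ hv' hbv
      linarith)
    obtain ⟨m2, hm5, hm6⟩ := (hLF i).two hI hu' (by
      have := hmin i _ _ hu' hbu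
      linarith)
    -- the only points are `u` and `v`
    have h20 : v' = u + ((m1 - m2 : ℤ) : ℝ) := by push_cast; linarith
    have h21 : u + 1 ≤ v' := by
      have h22 : (0 : ℝ) < ((m1 - m2 : ℤ) : ℝ) := by
        linarith [hV.2.2.1, hv'.2.2.1]
      have h23 : 1 ≤ m1 - m2 := by exact_mod_cast h22
      have h24 : (1 : ℝ) ≤ ((m1 - m2 : ℤ) : ℝ) := by exact_mod_cast h23
      linarith
    have h25 := (hB i).2.2.2.2.2.1 u hV.1 k
    have h26 : sh k (sh i ε) = sh i ε := sh_self hexi.per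
    rw [h26] at h25
    have h27 := Int.floor_le (2 ^ k * u - u)
    have h28 := Int.lt_floor_add_one (2 ^ k * u - u)
    obtain ⟨f, hf⟩ : ∃ f : ℤ, f = ⌊2 ^ k * u - u⌋ := ⟨_, rfl⟩
    rw [← hf] at h27 h28
    obtain ⟨y, hy⟩ : ∃ y : ℝ, y = 2 ^ k * u + ((-f : ℤ) : ℝ) := ⟨_, rfl⟩
    have h29 : y ∈ Th K θ (sh i ε) := by rw [hy]; exact h25 (-f)
    have h30 : u < y := by
      rcases eq_or_lt_of_le h27 with h5 | h5
      · exact absurd (isP_iff.mpr ⟨f, h5.symm⟩) (hfixi u hV.1)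
      · rw [hy]
        push_cast
        linarith
    have h31 : y < v' := by
      rw [hy]
      push_cast
      linarith
    have h32 : y = v := by
      rcases lt_trichotomy y v with h3 | h3 | h3
      · exact absurd ⟨h30, h3⟩ (hV.2.2.2 y h29)
      · exact h3
      · exact absurd ⟨h3, h31⟩ (hv'.2.2.2 y h29)
    refine hbv ⟨k, f, ?_⟩
    rw [← h32, hy]
    push_cast
    ring
  refine ⟨⟨i, u, v, hV, hV2, huθ, hθv, hVno⟩, fun x hx y hy => ?_⟩
  have hx6 := (hB 0).2.2.2.2.2.1 x (by rw [sh_zero]; exact hx) i 0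
  have hy6 := (hB 0).2.2.2.2.2.1 y (by rw [sh_zero]; exact hy) i 0
  rw [Int.cast_zero, add_zero, sh_zero] at hx6 hy6
  obtain ⟨t, ht⟩ := hall _ hx6
  obtain ⟨t', ht'⟩ := hall _ hy6
  have hu0 : u ∈ Th (k * q) θ (sh i ε) := by rw [← hKdef]; exact hV.1
  obtain ⟨s, rfl⟩ := exp_dvd hTHB hk hq1 hexi hu0 (by rw [← hKdef]; exact hx6) ht
  obtain ⟨s', rfl⟩ := exp_dvd hTHB hk hq1 hexi hu0 (by rw [← hKdef]; exact hy6) ht'
  obtain ⟨n, hn⟩ := cyc hq1 hu0.1 ht' ht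
  refine ⟨n, ?_⟩
  have h1 := isP_back hx.1 hK' i
  have h2 := isP_back hy.1 hK' i
  have h3 := isInt_mul (isInt_pow (K * i - i)) hn
  have h4 := isInt_mul (isInt_pow (k * n)) h1
  have h5 := isInt_add (isInt_sub h3 h4) h2
  have h6 : 2 ^ (K * i - i) * (2 ^ (k * n) * (2 ^ i * x) - 2 ^ i * y) -
      2 ^ (k * n) * (2 ^ (K * i - i) * (2 ^ i * x) - x) +
      (2 ^ (K * i - i) * (2 ^ i * y) - y) = 2 ^ (k * n) * x - y := by ring
  rwa [h6] at h5

end Pool.Agent.PSat
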