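import Pool.Agent.PSat.Basic

/-!
# PSAT-SUM: the sum of the logarithms of the multipliers near a point of multiplier one
-/

set_option autoImplicit false

open Complex Filter Topology Set
open Pool.Agent.Limb (F)
open Pool.Agent.PLim (Rho FPol CNT_mem CNT_card CNT_eval)

namespace Pool.Agent.PSat

namespace SUM_

variable {X : Ctx}

lemma fin (h : Dt X) (μ : ℂ) : {z : ℂ | X.Fx μ z}.Finite := by
  refine Set.Finite.subset
    ((FPol 2 (X.ψ μ) X.K - Polynomial.X).roots.toFinset.finite_toSet) ?_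
  intro z hz
  rw [Finset.mem_coe, Multiset.mem_toFinset, CNT_mem le_rfl h.hK1]
  exact hz

lemma card_le (h : Dt X) (μ : ℂ) (S : Finset ℂ) (hS : ∀ z ∈ S, X.Fx μ z) :
    S.card ≤ 2 ^ X.K := by
  have h1 : S ⊆ (FPol 2 (X.ψ μ) X.K - Polynomial.X).roots.toFinset := by
    intro z hz
    rw [Multiset.mem_toFinset, CNT_mem le_rfl h.hK1]
    exact hS z hz
  exact (Finset.card_le_card h1).trans
    ((Multiset.toFinset_card_le _).trans (CNT_card le_rfl h.hK1 _))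

/-- compactness -/
lemma comp_near (h : Dt X) {μ2 : ℂ} (hμ : μ2 ∈ Metric.ball X.m0 X.ρ) {A U : Set ℂ}
    (hA : IsCompact A) (hU : IsOpen U) (hAU : ∀ z ∈ A, X.Fx μ2 z → z ∈ U) :
    ∀ᶠ μ in 𝓝 μ2, ∀ z ∈ A, X.Fx μ z → z ∈ U := by
  have h1 : IsCompact (A \ U) := hA.diff hU
  have h2 : ∀ᶠ μ in 𝓝 μ2, ∀ z ∈ A \ U, ¬ X.Fx μ z := by
    refine h1.eventually_forall_of_forall_eventually (P := fun μ z => ¬ X.Fx μ z) ?_
    intro z hz
    have h3 := (h.iter_cont (h.sub2 hμ) z X.K).sub continuous_snd.continuousAt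
    have h4 : (F 2 (X.ψ (μ2, z).1))^[X.K] (μ2, z).2 - (μ2, z).2 ≠ 0 := by
      intro h5
      exact hz.2 (hAU z hz.1 (sub_eq_zero.mp h5))
    filter_upwards [h3.eventually_ne h4] with x hx hfx
    exact hx (sub_eq_zero.mpr hfx)
  filter_upwards [h2] with μ hμ' z hz hfx
  by_contra hn
  exact hμ' z ⟨hz, hn⟩ hfx

/-- existence of a fixed point near `z1` -/
lemma ex_fix (h : Dt X) {μ1 z1 : ℂ} (hμ : μ1 ∈ Metric.ball X.m0 X.ρ) (hz : X.Fx μ1 z1)
    {d : ℝ} (hd : 0 < d) : ∀ᶠ μ in 𝓝 μ1, ∃ z : ℂ, ‖z - z1‖ < d ∧ X.Fx μ z := by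
  have h1 : ContinuousAt (fun μ : ℂ => (F 2 (X.ψ μ))^[X.K] z1 - z1) μ1 := by
    have h2 := h.iter_cont (h.sub2 hμ) z1 X.K
    have h3 : ContinuousAt (fun μ : ℂ => (μ, z1)) μ1 := by fun_prop
    exact (ContinuousAt.comp (f := fun μ : ℂ => (μ, z1))
      (g := fun x : ℂ × ℂ => (F 2 (X.ψ x.1))^[X.K] x.2) h2 h3).sub continuousAt_const
  have h4 : ‖(F 2 (X.ψ μ1))^[X.K] z1 - z1‖ < d ^ (2 ^ X.K) := by
    have h5 : (F 2 (X.ψ μ1))^[X.K] z1 - z1 = 0 := sub_eq_zero.mpr hz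
    rw [h5, norm_zero]
    positivity
  filter_upwards [h1.norm.eventually_lt continuousAt_const h4] with μ hμ'
  by_contra hn
  push Not at hn
  obtain ⟨hm, hdeg⟩ := Pool.Agent.PLim.MPx.fix_monic 2 X.K (X.ψ μ) le_rfl h.hK1
  have hs : (FPol 2 (X.ψ μ) X.K - Polynomial.X).Splits := IsAlgClosed.splits _
  have h6 := hs.eval_eq_prod_roots_of_monic hm z1
  have hcard : Multiset.card (FPol 2 (X.ψ μ) X.K - Polynomial.X).roots = 2 ^ X.K := by
    rw [← hdeg]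
    exact Polynomial.splits_iff_card_roots.mp hs
  rw [Polynomial.eval_sub, Polynomial.eval_X, CNT_eval] at h6
  rw [h6] at hμ'
  have h7 : ∀ M : Multiset ℂ, (∀ z ∈ M, d ≤ ‖z1 - z‖) →
      d ^ (Multiset.card M) ≤ ‖(M.map (fun z => z1 - z)).prod‖ := by
    intro M
    induction M using Multiset.induction with
    | empty => simp
    | cons a M ih =>
      intro hM
      rw [Multiset.map_cons, Multiset.prod_cons, Multiset.card_cons, pow_succ', norm_mul]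
      exact mul_le_mul (hM a (Multiset.mem_cons_self a M))
        (ih fun z hz => hM z (Multiset.mem_cons_of_mem hz)) (by positivity) (norm_nonneg _)
  have h8 := h7 (FPol 2 (X.ψ μ) X.K - Polynomial.X).roots (by
    intro z hz
    rw [CNT_mem le_rfl h.hK1] at hz
    by_contra hlt
    rw [not_le, norm_sub_rev] at hlt
    exact hn z hlt hz)
  rw [hcard] at h8
  linarith

/-- one point -/
lemma loc1 (h : Dt X) {P : ℂ → ℂ → Prop} {μ2 z1 : ℂ} {d : ℝ}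
    (hμ : μ2 ∈ Metric.ball X.m0 X.ρ) (w : ℂ) : ∃ (f : ℂ → ℂ) (r : ℝ),
    ‖w - z1‖ < d → X.Fx μ2 w → X.rh μ2 w ≠ 1 → LCp X P μ2 w →
    0 < r ∧ f μ2 = w ∧ ContinuousAt f μ2 ∧
    DifferentiableAt ℂ (fun μ => X.rh μ (f μ)) μ2 ∧
    ∀ᶠ μ in 𝓝 μ2, ‖f μ - z1‖ < d ∧ X.Fx μ (f μ) ∧ (P μ (f μ) ↔ P μ2 w) ∧
      ∀ z ∈ Metric.ball w r, X.Fx μ z → z = f μ := by
  by_cases hw : X.Fx μ2 w ∧ X.rh μ2 w ≠ 1
  swap
  · exact ⟨fun _ => 0, 1, fun _ h1 h2 => absurd ⟨h1, h2⟩ hw⟩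
  obtain ⟨δ, r, f, hδ, -, hr, -, hsub, hdf, hf0, hfx, huq, hdr⟩ :=
    h.locfix hμ hw.1 hw.2 one_pos
  refine ⟨f, r, fun hwd _ _ hL => ?_⟩
  have hnh : Metric.ball μ2 δ ∈ 𝓝 μ2 := Metric.ball_mem_nhds _ hδ
  have hfc : ContinuousAt f μ2 := (hdf.differentiableAt hnh).continuousAt
  refine ⟨hr, hf0, hfc, hdr.differentiableAt hnh, ?_⟩
  have h1 : ∀ᶠ μ in 𝓝 μ2, ‖f μ - z1‖ < d := by
    have h2 : ContinuousAt (fun μ => ‖f μ - z1‖) μ2 := (hfc.sub continuousAt_const).norm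
    refine h2.eventually_lt continuousAt_const ?_
    rw [hf0]
    exact hwd
  obtain ⟨η, hη, hLη⟩ := hL
  have h3 : ∀ᶠ μ in 𝓝 μ2, ‖f μ - w‖ < η := by
    have h2 : ContinuousAt (fun μ => ‖f μ - w‖) μ2 := (hfc.sub continuousAt_const).norm
    refine h2.eventually_lt continuousAt_const ?_
    rw [hf0, sub_self, norm_zero]
    exact hη
  have h4 : ∀ᶠ μ in 𝓝 μ2, ‖μ - μ2‖ < η := by
    filter_upwards [Metric.ball_mem_nhds μ2 hη] with μ hμ'
    rwa [mem_ball_iff_norm] at hμ'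
  filter_upwards [h1, h3, h4, hnh] with μ a1 a3 a4 a5
  refine ⟨a1, (hfx μ a5).2, ?_, huq μ a5⟩
  have hself : ‖μ2 - μ2‖ < η := by rwa [sub_self, norm_zero]
  have hself' : ‖w - w‖ < η := by rwa [sub_self, norm_zero]
  rcases hLη with hLη | hLη
  · exact ⟨fun _ => hLη μ2 w hself hself' hw.1, fun _ => hLη μ (f μ) a4 a3 (hfx μ a5).2⟩
  · exact ⟨fun h6 => absurd h6 (hLη μ (f μ) a4 a3 (hfx μ a5).2),
      fun h6 => absurd h6 (hLη μ2 w hself hself' hw.1)⟩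

open Classical in
/-- the set of the points with the property `P` -/
noncomputable def Sf (h : Dt X) (P : ℂ → ℂ → Prop) (z1 : ℂ) (d : ℝ) (μ : ℂ) : Finset ℂ :=
  (fin h μ).toFinset.filter fun z => ‖z - z1‖ < d ∧ P μ z

lemma mem_Sf (h : Dt X) (P : ℂ → ℂ → Prop) (z1 : ℂ) (d : ℝ) (μ z : ℂ) :
    z ∈ Sf h P z1 d μ ↔ ‖z - z1‖ < d ∧ X.Fx μ z ∧ P μ z := by
  classical
  unfold Sf
  rw [Finset.mem_filter, Set.Finite.mem_toFinset, Set.mem_ofPred_eq]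
  tauto

/-- the sum of the logarithms -/
noncomputable def hf (h : Dt X) (P : ℂ → ℂ → Prop) (z1 : ℂ) (d : ℝ) (μ : ℂ) : ℂ :=
  ∑ z ∈ Sf h P z1 d μ, Complex.log (X.rh μ z)

/-- local structure -/
lemma diff_at (h : Dt X) {P : ℂ → ℂ → Prop} {μ2 z1 : ℂ} {d : ℝ}
    (hμ : μ2 ∈ Metric.ball X.m0 X.ρ)
    (hin : ∀ z ∈ Metric.closedBall z1 d, X.Fx μ2 z → ‖z - z1‖ < d)
    (hne : ∀ z : ℂ, ‖z - z1‖ < d → X.Fx μ2 z → X.rh μ2 z ≠ 1 ∧ LCp X P μ2 z)
    (hsl : ∀ z : ℂ, ‖z - z1‖ < d → X.Fx μ2 z → X.rh μ2 z ∈ slitPlane) :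
    DifferentiableAt ℂ (hf h P z1 d) μ2 := by
  classical
  choose f r hfr using fun w : ℂ => loc1 (P := P) (z1 := z1) (d := d) h hμ w
  set T : Finset ℂ := (fin h μ2).toFinset.filter fun z => ‖z - z1‖ < d with hT
  have hTm : ∀ z : ℂ, z ∈ T ↔ ‖z - z1‖ < d ∧ X.Fx μ2 z := by
    intro z
    rw [hT, Finset.mem_filter, Set.Finite.mem_toFinset, Set.mem_ofPred_eq]
    tauto
  have hT1 : ∀ w ∈ T, 0 < r w ∧ f w μ2 = w ∧ ContinuousAt (f w) μ2 ∧
      DifferentiableAt ℂ (fun μ => X.rh μ (f w μ)) μ2 ∧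
      ∀ᶠ μ in 𝓝 μ2, ‖f w μ - z1‖ < d ∧ X.Fx μ (f w μ) ∧ (P μ (f w μ) ↔ P μ2 w) ∧
        ∀ z ∈ Metric.ball w (r w), X.Fx μ z → z = f w μ := by
    intro w hw
    rw [hTm] at hw
    exact hfr w hw.1 hw.2 (hne w hw.1 hw.2).1 (hne w hw.1 hw.2).2
  have hST : ∀ w ∈ Sf h P z1 d μ2, w ∈ T := by
    intro w hw
    rw [mem_Sf] at hw
    rw [hTm]
    exact ⟨hw.1, hw.2.1⟩
  -- all the fixed points are continuations
  have hc : ∀ᶠ μ in 𝓝 μ2, ∀ z ∈ Metric.closedBall z1 d, X.Fx μ z →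
      z ∈ ⋃ w ∈ T, Metric.ball w (r w) := by
    refine comp_near h hμ (isCompact_closedBall z1 d)
      (isOpen_biUnion fun w _ => Metric.isOpen_ball) ?_
    intro z hz hfx
    have hzT : z ∈ T := (hTm z).mpr ⟨hin z hz hfx, hfx⟩
    exact mem_biUnion hzT (Metric.mem_ball_self (hT1 z hzT).1)
  have hall : ∀ᶠ μ in 𝓝 μ2, ∀ w ∈ T, ‖f w μ - z1‖ < d ∧ X.Fx μ (f w μ) ∧
      (P μ (f w μ) ↔ P μ2 w) ∧ ∀ z ∈ Metric.ball w (r w), X.Fx μ z → z = f w μ := by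
    rw [Finset.eventually_all]
    exact fun w hw => (hT1 w hw).2.2.2.2
  have hinj : ∀ᶠ μ in 𝓝 μ2, ∀ w ∈ T, ∀ w' ∈ T, w ≠ w' → f w μ ≠ f w' μ := by
    rw [Finset.eventually_all]
    intro w hw
    rw [Finset.eventually_all]
    intro w' hw'
    by_cases hww : w = w'
    · exact Eventually.of_forall fun μ h1 => absurd hww h1
    have h0 : ContinuousAt (fun μ => f w μ - f w' μ) μ2 :=
      (hT1 w hw).2.2.1.sub (hT1 w' hw').2.2.1
    have h1 : ∀ᶠ μ in 𝓝 μ2, f w μ - f w' μ ≠ 0 := by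
      refine h0.eventually_ne ?_
      rw [(hT1 w hw).2.1, (hT1 w' hw').2.1]
      exact sub_ne_zero.mpr hww
    filter_upwards [h1] with μ hμ' _ h2
    exact hμ' (sub_eq_zero.mpr h2)
  have hev : ∀ᶠ μ in 𝓝 μ2, hf h P z1 d μ =
      ∑ w ∈ Sf h P z1 d μ2, Complex.log (X.rh μ (f w μ)) := by
    filter_upwards [hc, hall, hinj] with μ b1 b2 b3
    unfold hf
    have h1 : Sf h P z1 d μ = (Sf h P z1 d μ2).image fun w => f w μ := by
      ext z
      rw [mem_Sf, Finset.mem_image]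
      constructor
      · rintro ⟨c1, c2, c3⟩
        have h2 := b1 z (by rw [mem_closedBall_iff_norm]; exact c1.le) c2
        simp only [mem_iUnion, exists_prop] at h2
        obtain ⟨w, hw, hzw⟩ := h2
        have h3 := (b2 w hw).2.2.2 z hzw c2
        refine ⟨w, ?_, h3.symm⟩
        rw [mem_Sf]
        rw [h3] at c3
        exact ⟨((hTm w).mp hw).1, ((hTm w).mp hw).2, (b2 w hw).2.2.1.mp c3⟩
      · rintro ⟨w, hw, rfl⟩
        have hwT := hST w hw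
        rw [mem_Sf] at hw
        exact ⟨(b2 w hwT).1, (b2 w hwT).2.1, (b2 w hwT).2.2.1.mpr hw.2.2⟩
    rw [h1, Finset.sum_image]
    intro w hw w' hw' hww
    by_contra hn
    exact b3 w (hST w hw) w' (hST w' hw') hn hww
  have hd : DifferentiableAt ℂ
      (fun μ => ∑ w ∈ Sf h P z1 d μ2, Complex.log (X.rh μ (f w μ))) μ2 := by
    apply DifferentiableAt.fun_sum
    intro w hw
    have hwT := hST w hw
    refine (hT1 w hwT).2.2.2.1.clog ?_
    rw [(hT1 w hwT).2.1]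
    exact hsl w ((hTm w).mp hwT).1 ((hTm w).mp hwT).2
  exact hd.congr_of_eventuallyEq hev

end SUM_

open SUM_ in
theorem p_SUM : T_SUM := by
  intro X h P μ1 z1 δ0 e hμ hz hR hδ0 he hne
  -- the isolated fixed point
  obtain ⟨δ1, hδ1, hδ1e, hδ1o⟩ : ∃ δ1 : ℝ, 0 < δ1 ∧ δ1 ≤ min e (δ0 / 2) ∧
      ∀ z ∈ Metric.closedBall z1 δ1, X.Fx μ1 z → z = z1 := by
    have h1 : ({z : ℂ | X.Fx μ1 z} \ {z1})ᶜ ∈ 𝓝 z1 := by
      apply ((fin h μ1).subset sdiff_subset).isClosed.isOpen_compl.mem_nhds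
      simp
    obtain ⟨r, hr, hr'⟩ := Metric.nhds_basis_closedBall.mem_iff.mp h1
    refine ⟨min r (min e (δ0 / 2)), lt_min hr (lt_min he (by linarith)), min_le_right _ _, ?_⟩
    intro z hz' hfx
    by_contra hn
    have h2 := hr' (Metric.closedBall_subset_closedBall (min_le_left _ _) hz')
    exact h2 ⟨hfx, hn⟩
  have hδ1δ0 : δ1 < δ0 := by
    have := hδ1e.trans (min_le_right _ _)
    linarith
  -- nearness
  have hnear : ∀ η : ℝ, 0 < η → ∀ᶠ μ in 𝓝 μ1, ∀ z ∈ Metric.closedBall z1 δ1, X.Fx μ z →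
      z ∈ Metric.ball z1 η := by
    intro η hη
    refine comp_near h hμ (isCompact_closedBall z1 δ1) Metric.isOpen_ball ?_
    intro z hz' hfx
    rw [hδ1o z hz' hfx]
    exact Metric.mem_ball_self hη
  have hrh : ∀ η : ℝ, 0 < η → ∀ᶠ μ in 𝓝 μ1, ∀ z ∈ Metric.closedBall z1 δ1, X.Fx μ z →
      ‖X.rh μ z - 1‖ < η := by
    intro η hη
    have h1 := (h.rh_cont (h.sub2 hμ) z1).sub (continuousAt_const (y := (1 : ℂ)))
    have h2 : ∀ᶠ x : ℂ × ℂ in 𝓝 (μ1, z1), ‖X.rh x.1 x.2 - 1‖ < η := by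
      refine h1.norm.eventually_lt continuousAt_const ?_
      show ‖X.rh μ1 z1 - 1‖ < η
      rw [hR, sub_self, norm_zero]
      exact hη
    obtain ⟨d, hd, hd'⟩ := (near_iff (P := fun μ z => ‖X.rh μ z - 1‖ < η)).mp h2
    filter_upwards [hnear d hd, Metric.ball_mem_nhds μ1 hd] with μ b1 b2 z hz' hfx
    have h3 := b1 z hz' hfx
    rw [mem_ball_iff_norm] at b2 h3
    exact hd' μ z b2 h3
  -- the radius
  have hev : ∀ᶠ μ in 𝓝 μ1, μ ∈ Metric.ball X.m0 X.ρ ∧ μ ∈ Metric.ball μ1 δ0 ∧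
      (∀ z ∈ Metric.closedBall z1 δ1, X.Fx μ z → z ∈ Metric.ball z1 δ1) ∧
      (∀ z ∈ Metric.closedBall z1 δ1, X.Fx μ z → ‖X.rh μ z - 1‖ < 1 / 2) ∧
      ∃ z : ℂ, ‖z - z1‖ < δ1 ∧ X.Fx μ z := by
    filter_upwards [Metric.isOpen_ball.mem_nhds hμ, Metric.ball_mem_nhds μ1 hδ0, hnear δ1 hδ1,
      hrh (1 / 2) (by norm_num), ex_fix h hμ hz hδ1] with μ b1 b2 b3 b4 b5
    exact ⟨b1, b2, b3, b4, b5⟩
  obtain ⟨δ', hδ', hb⟩ := Metric.eventually_nhds_iff_ball.mp hev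
  set δ : ℝ := min δ' e with hδdef
  have hδ : 0 < δ := lt_min hδ' he
  have hb' : ∀ μ ∈ Metric.ball μ1 δ, _ := fun μ hμ' =>
    hb μ (Metric.ball_subset_ball (min_le_left _ _) hμ')
  have hslit : ∀ μ ∈ Metric.ball μ1 δ, ∀ z : ℂ, ‖z - z1‖ < δ1 → X.Fx μ z →
      X.rh μ z ∈ slitPlane := by
    intro μ hμ' z hz' hfx
    have h1 := (hb' μ hμ').2.2.2.1 z (by rw [mem_closedBall_iff_norm]; exact hz'.le) hfx
    have h2 : X.rh μ z = 1 + (X.rh μ z - 1) := by ring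
    rw [h2]
    exact Complex.mem_slitPlane_of_norm_lt_one (by linarith)
  set h0 : ℂ → ℂ := Function.update (hf h P z1 δ1) μ1 0 with hh0
  have hdoff : ∀ μ ∈ Metric.ball μ1 δ, μ ≠ μ1 → DifferentiableAt ℂ (hf h P z1 δ1) μ := by
    intro μ hμ' hμne
    obtain ⟨b1, b2, b3, b4, b5⟩ := hb' μ hμ'
    refine diff_at h b1 ?_ ?_ (hslit μ hμ')
    · intro z hz' hfx
      have := b3 z hz' hfx
      rwa [mem_ball_iff_norm] at this
    · intro z hz' hfx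
      rw [mem_ball_iff_norm] at b2
      exact hne μ z hμne b2 (by linarith) hfx
  have heq : ∀ μ : ℂ, μ ≠ μ1 → h0 μ = hf h P z1 δ1 μ := by
    intro μ hμ'
    rw [hh0, Function.update_of_ne hμ']
  have h01 : h0 μ1 = 0 := by
    rw [hh0, Function.update_self]
  have hdoff' : DifferentiableOn ℂ h0 (Metric.ball μ1 δ \ {μ1}) := by
    intro μ hμ'
    have h1 := hdoff μ hμ'.1 hμ'.2
    have h2 : h0 =ᶠ[𝓝 μ] hf h P z1 δ1 := by
      filter_upwards [isOpen_compl_singleton.mem_nhds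
        (show μ ∈ ({μ1} : Set ℂ)ᶜ from hμ'.2)] with ν hν
      exact heq ν hν
    exact (h1.congr_of_eventuallyEq h2).differentiableWithinAt
  have hcont : ContinuousAt h0 μ1 := by
    rw [Metric.continuousAt_iff']
    intro ε hε
    rw [h01]
    -- the logarithm is continuous at one
    set N : ℝ := 2 ^ X.K with hN
    have hN0 : 0 < N := by positivity
    have h1 : ContinuousAt Complex.log 1 := continuousAt_clog (by simp)
    have h2 : 0 < ε / (2 * N) := by positivity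
    rw [Metric.continuousAt_iff] at h1
    obtain ⟨η, hη, hη'⟩ := h1 (ε / (2 * N)) h2
    filter_upwards [hrh η hη] with μ b1
    by_cases hμ' : μ = μ1
    · rw [hμ', h01, dist_self]
      exact hε
    rw [heq μ hμ', dist_zero_right]
    unfold hf
    have h3 : ‖∑ z ∈ Sf h P z1 δ1 μ, Complex.log (X.rh μ z)‖ ≤
        (Sf h P z1 δ1 μ).card * (ε / (2 * N)) := by
      rw [← nsmul_eq_mul]
      refine (norm_sum_le _ _).trans (Finset.sum_le_card_nsmul _ _ _ ?_)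
      intro z hz'
      rw [mem_Sf] at hz'
      have h4 := b1 z (by rw [mem_closedBall_iff_norm]; exact hz'.1.le) hz'.2.1
      have h5 := hη' (x := X.rh μ z) (by rw [dist_eq_norm]; exact h4)
      rw [Complex.log_one, dist_zero_right] at h5
      exact h5.le
    have h6 : ((Sf h P z1 δ1 μ).card : ℝ) ≤ N := by
      rw [hN]
      exact_mod_cast card_le h μ _ fun z hz' => ((mem_Sf h P z1 δ1 μ z).mp hz').2.1
    have h7 : ((Sf h P z1 δ1 μ).card : ℝ) * (ε / (2 * N)) ≤ N * (ε / (2 * N)) :=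
      mul_le_mul_of_nonneg_right h6 h2.le
    have h8 : N * (ε / (2 * N)) = ε / 2 := by field_simp
    linarith
  refine ⟨δ, δ1, h0, hδ, min_le_right _ _, hδ1, hδ1e.trans (min_le_left _ _), ?_, h01, ?_, ?_⟩
  · exact (Complex.differentiableOn_compl_singleton_and_continuousAt_iff
      (Metric.ball_mem_nhds μ1 hδ)).mp ⟨hdoff', hcont⟩
  · intro μ hμ' hμne
    refine ⟨Sf h P z1 δ1 μ, fun z => mem_Sf h P z1 δ1 μ z, ?_⟩
    rw [heq μ hμne]
    unfold hf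
    rw [Complex.re_sum]
    exact Finset.sum_congr rfl fun z _ => Complex.log_re _
  · exact fun μ hμ' => (hb' μ hμ').2.2.2.2

end Pool.Agent.PSat
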