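import Pool.Agent.PSat.Words
import Pool.Agent.PSat.Targets

/-!
# PSAT: the sets `Th K θ η`
-/

set_option autoImplicit false

open Set
open Pool.Agent.PLim (Gm IsInt Cod Per)

namespace Pool.Agent.PSat

namespace THB_

lemma cod_iff {θ x : ℝ} {η : ℕ → ℤ} : Cod 2 θ x η ↔
    (∀ t : ℕ, 1 ≤ t → ¬ IsInt ((2 : ℝ) ^ t * x - θ)) ∧
      ∀ t : ℕ, (2 : ℤ) ∣ ⌊(2 : ℝ) ^ (t + 1) * x - θ⌋ - η t := by
  unfold Cod
  simp only [Nat.cast_ofNat]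

lemma floor_add {a θ : ℝ} (m : ℤ) : ⌊a + m - θ⌋ = ⌊a - θ⌋ + m := by
  rw [show a + m - θ = a - θ + m by ring, Int.floor_add_intCast]

/-- The itinerary is invariant under integer translations. -/
lemma cod_add {θ x : ℝ} {η : ℕ → ℤ} (h : Cod 2 θ x η) (m : ℤ) : Cod 2 θ (x + m) η := by
  rw [cod_iff] at h ⊢
  refine ⟨fun t ht hi => h.1 t ht ?_, fun t => ?_⟩
  · refine (isInt_congr ?_).mp hi
    have h1 : (2 : ℝ) ^ t * (x + m) - θ - (2 ^ t * x - θ) = 2 ^ t * m := by ring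
    rw [h1]
    exact isInt_mul (isInt_pow t) (isInt_int m)
  · have h1 : (2 : ℝ) ^ (t + 1) * (x + m) = 2 ^ (t + 1) * x + ((2 ^ (t + 1) * m : ℤ) : ℝ) := by
      push_cast
      ring
    rw [h1, floor_add]
    have h2 := h.2 t
    have h3 : (2 : ℤ) ∣ 2 ^ (t + 1) * m := Dvd.dvd.mul_right (dvd_pow_self 2 (by omega)) m
    obtain ⟨n2, hn2⟩ := h2
    obtain ⟨n3, hn3⟩ := h3
    exact ⟨n2 + n3, by linarith⟩

lemma th_add {K : ℕ} {θ x : ℝ} {η : ℕ → ℤ} (h : x ∈ Th K θ η) (m : ℤ) : x + m ∈ Th K θ η :=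
  ⟨h.1.add_int m, cod_add h.2 m⟩

lemma th_add_iff {K : ℕ} {θ x : ℝ} {η : ℕ → ℤ} (m : ℤ) : x + m ∈ Th K θ η ↔ x ∈ Th K θ η := by
  refine ⟨fun h => ?_, fun h => th_add h m⟩
  have := th_add h (-m)
  rwa [show x + m + ((-m : ℤ) : ℝ) = x by push_cast; ring] at this

lemma th_fin {K : ℕ} (hK : 1 ≤ K) (θ : ℝ) (η : ℕ → ℤ) (x : ℝ) :
    (Th K θ η ∩ Icc x (x + 1)).Finite := by
  have hN : (0 : ℝ) < 2 ^ K - 1 := by
    have : (2 : ℝ) ^ 1 ≤ 2 ^ K := pow_le_pow_right₀ (by norm_num) hK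
    linarith
  refine Set.Finite.subset
    ((Finset.Icc ⌊(2 ^ K - 1) * x⌋ ⌈(2 ^ K - 1) * (x + 1)⌉).finite_toSet.image
      (fun a : ℤ => (a : ℝ) / (2 ^ K - 1))) ?_
  rintro y ⟨⟨⟨a, ha⟩, -⟩, h1, h2⟩
  refine ⟨a, ?_, ?_⟩
  · rw [Finset.mem_coe, Finset.mem_Icc]
    constructor
    · have h3 : (2 ^ K - 1) * x ≤ a := by
        rw [← ha]
        exact mul_le_mul_of_nonneg_left h1 hN.le
      have h4 := (Int.floor_le ((2 ^ K - 1) * x)).trans h3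
      exact_mod_cast h4
    · have h3 : (a : ℝ) ≤ (2 ^ K - 1) * (x + 1) := by
        rw [← ha]
        exact mul_le_mul_of_nonneg_left h2 hN.le
      have h4 := h3.trans (Int.le_ceil _)
      exact_mod_cast h4
  · show (a : ℝ) / (2 ^ K - 1) = y
    rw [← ha]
    field_simp

lemma th_ne {K : ℕ} (hK : 1 ≤ K) {θ x : ℝ} {η : ℕ → ℤ} (h : x ∈ Th K θ η) (m : ℤ) :
    x ≠ θ + m := by
  intro hx
  have h1 := (cod_iff.mp h.2).1 K hK
  apply h1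
  have h2 := isP_iff.mp h.1
  have h3 : (2 : ℝ) ^ K * x - θ = (2 ^ K * x - x) + m := by rw [hx]; ring
  rw [h3]
  exact isInt_add h2 (isInt_int m)

lemma th_eq {K : ℕ} {θ : ℝ} {η η' : ℕ → ℤ} (h : Eq2 η η') : Th K θ η ⊆ Th K θ η' := by
  rintro x ⟨h1, h2⟩
  refine ⟨h1, ?_⟩
  rw [cod_iff] at h2 ⊢
  refine ⟨h2.1, fun t => ?_⟩
  have h3 := h2.2 t
  have h4 := h t
  omega

lemma th_inter {K : ℕ} {θ : ℝ} {η η' : ℕ → ℤ} (h : (Th K θ η ∩ Th K θ η').Nonempty) :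
    Eq2 η η' := by
  obtain ⟨x, ⟨-, h1⟩, -, h2⟩ := h
  intro t
  have h3 := (cod_iff.mp h1).2 t
  have h4 := (cod_iff.mp h2).2 t
  omega

lemma th_pow {K : ℕ} {θ x : ℝ} {η : ℕ → ℤ} (h : x ∈ Th K θ η) (i : ℕ) :
    2 ^ i * x ∈ Th K θ (sh i η) := by
  refine ⟨h.1.pow i, ?_⟩
  have h2 := cod_iff.mp h.2
  rw [cod_iff]
  refine ⟨fun t ht => ?_, fun t => ?_⟩
  · have h3 := h2.1 (t + i) (by omega)
    rwa [pow_add, mul_assoc] at h3
  · have h3 := h2.2 (t + i)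
    rw [show t + i + 1 = t + 1 + i by omega, pow_add, mul_assoc] at h3
    exact h3

lemma gm_eq (θ : ℝ) (i : ℤ) (y : ℝ) : Gm 2 θ i y = (y + ⌊y - θ⌋ + i) / 2 := by
  unfold Gm
  push_cast
  ring

lemma gm_two (θ : ℝ) (i : ℤ) (y : ℝ) : 2 * Gm 2 θ i y = y + ((⌊y - θ⌋ + i : ℤ) : ℝ) := by
  rw [gm_eq]
  push_cast
  ring

lemma gm_lt (θ : ℝ) (i : ℤ) {y y' : ℝ} (h : y < y') : Gm 2 θ i y < Gm 2 θ i y' := by
  rw [gm_eq, gm_eq]
  have h1 : (⌊y - θ⌋ : ℝ) ≤ ⌊y' - θ⌋ := by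
    exact_mod_cast Int.floor_le_floor (by linarith)
  linarith

lemma gm_add (θ : ℝ) (i : ℤ) (y : ℝ) (s : ℤ) : Gm 2 θ i (y + s) = Gm 2 θ i y + s := by
  rw [gm_eq, gm_eq, floor_add]
  push_cast
  ring

lemma gm_mem {K : ℕ} (hK : 1 ≤ K) {θ : ℝ} {η : ℕ → ℤ} (hp : Per K η) {y : ℝ}
    (h : y ∈ Th K θ (sh 1 η)) : Gm 2 θ (η 0) y ∈ Th K θ η := by
  obtain ⟨x, hx⟩ : ∃ x, x = Gm 2 θ (η 0) y := ⟨_, rfl⟩
  have h2x : 2 * x = y + ((⌊y - θ⌋ + η 0 : ℤ) : ℝ) := by rw [hx, gm_two]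
  rw [← hx]
  have hc := cod_iff.mp h.2
  have hPy := isP_iff.mp h.1
  -- the floor of `2 x - θ`
  have hf : ⌊2 * x - θ⌋ = ⌊y - θ⌋ + (⌊y - θ⌋ + η 0) := by
    rw [h2x, floor_add]
  -- comparison with `x' = 2 ^ (K - 1) y`
  have hint : IsInt (x - 2 ^ (K - 1) * y) := by
    obtain ⟨n, hn⟩ : ∃ n : ℤ, 2 * x = 2 ^ K * y + n := by
      obtain ⟨a, ha⟩ := hPy
      refine ⟨⌊y - θ⌋ + η 0 - a, ?_⟩
      push_cast
      rw [← ha, h2x]
      push_cast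
      ring
    have h1 : ⌊2 * x - θ⌋ = ⌊2 ^ K * y - θ⌋ + n := by rw [hn, floor_add]
    have h2 := hc.2 (K - 1)
    rw [Nat.sub_add_cancel hK, sh_apply, Nat.sub_add_cancel hK] at h2
    have h3 : η K = η 0 := by
      have := hp 0
      rwa [Nat.zero_add] at this
    rw [h3] at h2
    have h4 : (2 : ℤ) ∣ n := by omega
    obtain ⟨n', rfl⟩ := h4
    refine ⟨n', ?_⟩
    have h5 : (2 : ℝ) ^ K = 2 * 2 ^ (K - 1) := by
      rw [← pow_succ', Nat.sub_add_cancel hK]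
    rw [h5] at hn
    push_cast at hn
    linarith
  refine ⟨(h.1.pow (K - 1)).congr hint, ?_⟩
  rw [cod_iff]
  refine ⟨fun t ht => ?_, fun t => ?_⟩
  · rcases Nat.eq_or_lt_of_le ht with h1 | h1
    · rw [← h1, pow_one, h2x]
      rintro ⟨a, ha⟩
      refine th_ne hK h (a - (⌊y - θ⌋ + η 0)) ?_
      push_cast at ha ⊢
      linarith
    · intro hi
      refine hc.1 (t - 1) (by omega) ((isInt_congr ?_).mp hi)
      have h5 : (2 : ℝ) ^ t = 2 ^ (t - 1) * 2 := by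
        rw [← pow_succ, Nat.sub_add_cancel (by omega)]
      have h6 : (2 : ℝ) ^ t * x - θ - (2 ^ (t - 1) * y - θ) =
          2 ^ (t - 1) * ((⌊y - θ⌋ + η 0 : ℤ) : ℝ) := by
        rw [h5, mul_assoc, h2x]
        ring
      rw [h6]
      exact isInt_mul (isInt_pow _) (isInt_int _)
  · rcases Nat.eq_zero_or_pos t with rfl | h1
    · rw [Nat.zero_add, pow_one, hf]
      exact ⟨⌊y - θ⌋, by ring⟩
    · have h5 : (2 : ℝ) ^ (t + 1) * x = 2 ^ t * y + ((2 ^ t * (⌊y - θ⌋ + η 0) : ℤ) : ℝ) := by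
        rw [pow_succ, mul_assoc, h2x]
        push_cast
        ring
      rw [h5, floor_add]
      have h6 := hc.2 (t - 1)
      rw [Nat.sub_add_cancel h1, sh_apply, Nat.sub_add_cancel h1] at h6
      have h7 : (2 : ℤ) ∣ 2 ^ t * (⌊y - θ⌋ + η 0) :=
        Dvd.dvd.mul_right (dvd_pow_self 2 (by omega)) _
      obtain ⟨n2, hn2⟩ := h6
      obtain ⟨n3, hn3⟩ := h7
      exact ⟨n2 + n3, by linarith⟩

lemma gm_back {K : ℕ} {θ : ℝ} {η : ℕ → ℤ} {x : ℝ} (h : x ∈ Th K θ η) {y : ℝ}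
    (hy : IsInt (2 * x - y)) : IsInt (Gm 2 θ (η 0) y - x) := by
  obtain ⟨s, hs⟩ := hy
  have hy' : y = 2 * x + ((-s : ℤ) : ℝ) := by
    push_cast
    linarith
  have h1 := (cod_iff.mp h.2).2 0
  rw [Nat.zero_add, pow_one] at h1
  obtain ⟨n, hn⟩ := h1
  refine ⟨n + η 0 - s, ?_⟩
  rw [gm_eq, hy', floor_add]
  have h2 : (⌊2 * x - θ⌋ : ℝ) = 2 * n + η 0 := by
    have : ⌊2 * x - θ⌋ = 2 * n + η 0 := by linarith
    rw [this]
    push_cast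
    ring
  push_cast
  rw [h2]
  ring

lemma gm_gap {K : ℕ} (hK : 1 ≤ K) {θ : ℝ} {η : ℕ → ℤ} (hp : Per K η) {y y' : ℝ}
    (h : Gap (Th K θ (sh 1 η)) y y') : Gap (Th K θ η) (Gm 2 θ (η 0) y) (Gm 2 θ (η 0) y') := by
  obtain ⟨h1, h2, h3, h4⟩ := h
  refine ⟨gm_mem hK hp h1, gm_mem hK hp h2, gm_lt θ _ h3, ?_⟩
  rintro z hz ⟨h5, h6⟩
  have hw : 2 * z ∈ Th K θ (sh 1 η) := by
    have := th_pow hz 1
    rwa [pow_one] at this
  obtain ⟨N, hN⟩ := gm_back hz (y := 2 * z) (by rw [sub_self]; exact isInt_zero)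
  have hG : Gm 2 θ (η 0) (2 * z + ((-N : ℤ) : ℝ)) = z := by
    rw [gm_add]
    push_cast
    linarith
  refine h4 (2 * z + ((-N : ℤ) : ℝ)) (th_add hw _) ⟨?_, ?_⟩
  · by_contra hn
    rcases eq_or_lt_of_le (not_lt.mp hn) with h7 | h7
    · rw [h7] at hG
      rw [hG] at h5
      exact lt_irrefl _ h5
    · have := gm_lt θ (η 0) h7
      rw [hG] at this
      exact lt_asymm this h5
  · by_contra hn
    rcases eq_or_lt_of_le (not_lt.mp hn) with h7 | h7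
    · rw [← h7] at hG
      rw [hG] at h6
      exact lt_irrefl _ h6
    · have := gm_lt θ (η 0) h7
      rw [hG] at this
      exact lt_asymm this h6

end THB_

open THB_ in
theorem p_THB : T_THB := by
  intro K θ η hK hp
  refine ⟨fun x m => th_add_iff m, th_fin hK θ η, fun x hx m => th_ne hK hx m,
    fun η' he => (th_eq he.symm).antisymm (th_eq he), fun η' h => th_inter h,
    fun x hx i m => th_add (th_pow hx i) m, fun y hy => ⟨gm_mem hK hp hy, ?_⟩,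
    fun x hx y hy => gm_back hx hy, fun y _ y' _ h => gm_lt θ _ h, fun y y' h => gm_gap hK hp h⟩
  refine ⟨⌊y - θ⌋ + η 0, ?_⟩
  rw [gm_two]
  ring

end Pool.Agent.PSat
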