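import Pool.Agent.PSat.Targets

/-!
# PSAT: target TLC, stability of the itineraries
-/

set_option autoImplicit false

open Pool.Agent.PLim (IsInt Cod)

namespace Pool.Agent.PSat

namespace TLC_

theorem not_isInt {θ θ' x u : ℝ} (h : ∀ (t : ℕ) (s : ℤ), 1 ≤ t →
    ¬ (θ ≤ 2 ^ t * x + s ∧ 2 ^ t * x + s ≤ θ')) (h1 : θ ≤ u) (h2 : u ≤ θ') (t : ℕ) (ht : 1 ≤ t) :
    ¬ IsInt (((2 : ℕ) : ℝ) ^ t * x - u) := by
  rintro ⟨m, hm⟩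
  refine h t (-m) ht ?_
  push_cast at hm ⊢
  constructor <;> linarith

theorem floor_eq {θ θ' x : ℝ} (hθ : θ ≤ θ') (h : ∀ (t : ℕ) (s : ℤ), 1 ≤ t →
    ¬ (θ ≤ 2 ^ t * x + s ∧ 2 ^ t * x + s ≤ θ')) (t : ℕ) :
    ⌊((2 : ℕ) : ℝ) ^ (t + 1) * x - θ'⌋ = ⌊((2 : ℕ) : ℝ) ^ (t + 1) * x - θ⌋ := by
  rw [Int.floor_eq_iff]
  set m : ℤ := ⌊((2 : ℕ) : ℝ) ^ (t + 1) * x - θ⌋ with hm
  have h1 : (m : ℝ) ≤ ((2 : ℕ) : ℝ) ^ (t + 1) * x - θ := Int.floor_le _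
  have h2 : ((2 : ℕ) : ℝ) ^ (t + 1) * x - θ < m + 1 := Int.lt_floor_add_one _
  refine ⟨?_, by linarith⟩
  by_contra hc
  rw [not_le] at hc
  refine h (t + 1) (-m) (by omega) ?_
  push_cast at h1 hc ⊢
  constructor <;> linarith

end TLC_

open TLC_

theorem p_TLC : T_TLC := by
  intro θ θ' x η hθ h
  unfold Cod
  have h1 := fun t => floor_eq hθ h t
  simp only [h1]
  constructor
  · rintro ⟨-, h2⟩
    exact ⟨fun t ht => not_isInt h hθ le_rfl t ht, h2⟩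
  · rintro ⟨-, h2⟩
    exact ⟨fun t ht => not_isInt h le_rfl hθ t ht, h2⟩

end Pool.Agent.PSat
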