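import Pool.Agent.PSat.Targets
import Pool.Agent.PLim.All
import Pool.Agent.MEY.DDO
import Pool.Agent.MEY.OMG

/-!
# PSAT, UCN: the global section with the label `l` is unique
-/

set_option autoImplicit false

open Complex Filter Topology Set
open Pool.Agent.Multibrot (MM)
open Pool.Agent.Limb (F)
open Pool.Agent.PLim (Rho IsBot IsLog LabR Label Vreg ZVn ONTOn NCn OMXn SECTn)
open Pool.Agent.MEX (Exa LL)
open Pool.Agent.MEY (Pt Omg DD Glob FarN)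

namespace Pool.Agent.PSat

namespace UCN_

lemma fix_back {K : ℕ} {c z : ℂ} (h : (F 2 c)^[K] z = z) (hK : 1 ≤ K) (j : ℕ) :
    (F 2 c)^[K * j - j] ((F 2 c)^[j] z) = z := by
  rw [← Function.iterate_add_apply, Nat.sub_add_cancel (Nat.le_mul_of_pos_left j hK),
    Function.iterate_mul]
  exact Function.iterate_fixed h j

lemma LL_le {δ : ℝ} (h0 : 0 < δ) (h1 : δ ≤ 1 / 2) : LL δ ≤ δ ^ 2 := by
  unfold LL
  have h2 : 0 ≤ Real.log (1 / δ) := Real.log_nonneg (by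
    rw [le_div_iff₀ h0]
    linarith)
  refine div_le_self (sq_nonneg δ) ?_
  nlinarith

lemma fix_iter {K : ℕ} {c z : ℂ} (h : (F 2 c)^[K] z = z) (j : ℕ) :
    (F 2 c)^[K] ((F 2 c)^[j] z) = (F 2 c)^[j] z := by
  rw [← Function.iterate_add_apply, Nat.add_comm, Function.iterate_add_apply, h]

lemma rho_step {K : ℕ} {c z : ℂ} (h : (F 2 c)^[K] z = z) :
    Rho 2 K c (F 2 c z) = Rho 2 K c z := by
  rw [Pool.Agent.PLim.TRANS_.Rho_eq, Pool.Agent.PLim.TRANS_.Rho_eq]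
  rcases K with _ | K
  · rfl
  · rw [Finset.prod_range_succ, Finset.prod_range_succ']
    have h1 : (F 2 c)^[K] (F 2 c z) = z := by
      rw [← Function.iterate_succ_apply]
      exact h
    rw [h1]
    rfl

/-- the multiplier is constant on a cycle -/
lemma rho_iter {K : ℕ} {c z : ℂ} (h : (F 2 c)^[K] z = z) (j : ℕ) :
    Rho 2 K c ((F 2 c)^[j] z) = Rho 2 K c z := by
  induction j with
  | zero => rfl
  | succ j ih =>
    rw [Function.iterate_succ_apply', rho_step (fix_iter h j), ih]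

/-- the points of the extended half plane over the open right half plane -/
lemma vreg_of {κ : ℝ} (hκ : 0 < κ) {ν : ℂ} (hν : ν ∈ Omg 1 κ) (h0 : 0 < ν.re) (h1 : 0 < ν.im)
    (h2 : ν.im < 2 * Real.pi) : ν ∈ Vreg κ := by
  rcases hν with h | ⟨δ, hδ0, hδ1, hF, hre⟩
  · linarith
  refine ⟨h0, h1, h2, hre.trans_le ?_⟩
  have hpi := Real.pi_gt_three
  have hp : (0 : ℝ) < 2 * Real.pi := by linarith
  have a0 := hF 1 le_rfl le_rfl 0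
  have a1 := hF 1 le_rfl le_rfl 1
  simp only [Nat.cast_one, one_mul, Int.cast_zero, sub_zero, Int.cast_one] at a0 a1
  rw [abs_of_pos (by positivity), le_div_iff₀ hp] at a0
  have a2 : ν.im / (2 * Real.pi) - 1 < 0 := by
    rw [sub_neg, div_lt_one hp]
    exact h2
  rw [abs_of_neg a2, neg_sub, le_sub_comm, div_le_iff₀ hp] at a1
  have a3 : δ ≤ min ν.im (2 * Real.pi - ν.im) := by
    refine le_min ?_ ?_
    · nlinarith
    · nlinarith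
  have a4 : LL δ ≤ (min ν.im (2 * Real.pi - ν.im)) ^ 2 :=
    (LL_le hδ0 hδ1).trans (pow_le_pow_left₀ hδ0.le a3 2)
  exact mul_le_mul_of_nonneg_left a4 hκ.le

end UCN_

open UCN_ in
theorem p_UCN (hGLL : T_GLL) (hULB : T_ULB) (hSM2 : T_SM2) (hGD1 : T_GD1) : T_UCN := by
  intro X hX c0 c0' Ψ Z Ψ' Z' hG hG' hL hL'
  have hD := hX.dt
  have hq : 1 ≤ X.q := by
    have := hD.hp
    have := hD.hpq
    omega
  have hK : 1 ≤ X.K := Nat.mul_pos hD.hk hq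
  have hC := hD.hC
  have hκ : 0 < X.kp := by
    unfold Ctx.kp
    have h1 : (0 : ℝ) < X.K := by exact_mod_cast hK
    have h2 : (0 : ℝ) < X.C1 := by linarith
    positivity
  have hGD := hGD1 X.C1 X.K hC hK hX.cst.nc
  obtain ⟨i, ν, hν, hν0, hν1, hν2, hl⟩ := hL
  obtain ⟨i', ν', hν', hν0', hν1', hν2', hl'⟩ := hL'
  have hdd : ∀ μ : ℂ, exp μ ∈ DD 2 1 X.kp ↔ μ ∈ Omg 1 X.kp := by
    intro μ
    have h := (Pool.Agent.MEY.p_DDO Pool.Agent.MEY.p_OMG 2 1 X.kp le_rfl hκ).2.2.2.1 μ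
    simpa using h
  have hdν : exp ν ∈ DD 2 1 X.kp := (hdd ν).2 hν
  have hfx : ∀ (c : ℂ) (Φ Y : ℂ → ℂ), Glob 2 X.K 1 X.kp c Φ Y → ∀ (μ : ℂ) (j : ℕ),
      μ ∈ Omg 1 X.kp → (F 2 (Φ (exp μ)))^[X.K] ((F 2 (Φ (exp μ)))^[j] (Y (exp μ))) =
        (F 2 (Φ (exp μ)))^[j] (Y (exp μ)) ∧
        Rho 2 X.K (Φ (exp μ)) ((F 2 (Φ (exp μ)))^[j] (Y (exp μ))) = exp μ := by
    intro c Φ Y hΦ μ j hμ
    have h := hΦ.pt _ ((hdd μ).2 hμ)
    refine ⟨fix_iter h.fix j, ?_⟩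
    rw [rho_iter h.fix j, h.mul]
    exact pow_one _
  -- the label is constant on a global section
  have hlab : ∀ (c : ℂ) (Φ Y : ℂ → ℂ), Glob 2 X.K 1 X.kp c Φ Y → ∀ (j : ℕ) (μ1 : ℂ),
      μ1 ∈ Omg 1 X.kp → 0 < μ1.re → 0 < μ1.im → μ1.im < 2 * Real.pi →
      LabR 2 X.K X.Λ X.lh (Φ (exp μ1)) ((F 2 (Φ (exp μ1)))^[j] (Y (exp μ1))) X.l →
      ∀ μ : ℂ, μ ∈ Omg 1 X.kp → 0 < μ.re → 0 < μ.im → μ.im < 2 * Real.pi →
      LabR 2 X.K X.Λ X.lh (Φ (exp μ)) ((F 2 (Φ (exp μ)))^[j] (Y (exp μ))) X.l := by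
    intro c Φ Y hΦ j μ1 h1 h2 h3 h4 h5 μ h6 h7 h8 h9
    obtain ⟨l1, hl1⟩ := hGLL X.C1 X.K X.Λ X.lh X.ls c Φ Y hC hK hX.cst.zv hD.bot hD.log hΦ j
    have h10 := hl1 μ1 h1 h2 h3 h4
    obtain ⟨h11, h12⟩ := hfx c Φ Y hΦ μ1 j h1
    have h14 : 1 < ‖Rho 2 X.K (Φ (exp μ1)) ((F 2 (Φ (exp μ1)))^[j] (Y (exp μ1)))‖ := by
      rw [h12, norm_exp]
      exact Real.one_lt_exp_iff.2 h2
    have h13 : l1 = X.l := (Pool.Agent.PLim.a_LU 2 X.K X.Λ X.lh X.ls _ _ le_rfl hK hD.bot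
      hD.log h11 h14).2.1 l1 X.l h10 h5
    rw [← h13]
    exact hl1 μ h6 h7 h8 h9
  have hl2 := hlab c0' Ψ' Z' hG' i' ν' hν' hν0' hν1' hν2' hl' ν hν hν0 hν1 hν2
  obtain ⟨h1, h2⟩ := hfx c0 Ψ Z hG ν i hν
  obtain ⟨h1', h2'⟩ := hfx c0' Ψ' Z' hG' ν i' hν
  obtain ⟨hc, hz⟩ := hULB 2 X.K X.C1 X.Λ X.lh X.ls X.l ν _ _ _ _ le_rfl hK hC hX.cst.onto hD.bot
    hD.log (vreg_of hκ hν hν0 hν1 hν2) h1 h2 hl h1' h2' hl2
  have hb := fix_back (hG'.pt _ hdν).fix hK i'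
  rw [← hz, ← hc, ← Function.iterate_add_apply] at hb
  exact ⟨_, hSM2 X.K X.kp c0 c0' Ψ Z Ψ' Z' (exp ν) _ hK hκ hGD hG hG' hdν hc hb⟩

end Pool.Agent.PSat
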