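import Pool.Agent.PSat.Targets
import Pool.Agent.PLim.All

/-!
# ULB: uniqueness of the points with a given label and multiplier
-/

set_option autoImplicit false

open Complex Filter Topology Set
open Pool.Agent.Multibrot (MM)
open Pool.Agent.Limb (F)
open Pool.Agent.PLim

namespace Pool.Agent.PSat

theorem ULB_.main (hLU : PLim.T_LU) (hCNT : PLim.T_CNT) : T_ULB := by
  intro n k C Λ lh ls l μ c z c' z' hn hk hC hONTO hΛ hlog hV hfix hrho hlab hfix' hrho' hlab'
  have hnorm : 1 < ‖Complex.exp μ‖ := by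
    rw [Complex.norm_exp]
    exact Real.one_lt_exp_iff.mpr hV.1
  have hne1 : Complex.exp μ ≠ 1 := by
    intro h
    rw [h, norm_one] at hnorm
    exact lt_irrefl _ hnorm
  have : NeZero n := ⟨by omega⟩
  have : NeZero (k * (n - 1)) := ⟨Nat.mul_ne_zero (by omega) (by omega)⟩
  have hex : ∀ l : Label n k, ∃ x : ℂ × ℂ, (F n x.1)^[k] x.2 = x.2 ∧
      Rho n k x.1 x.2 = Complex.exp μ ∧ LabR n k Λ lh x.1 x.2 l := by
    intro l
    obtain ⟨c, z, h1, h2, h3⟩ := hONTO k Λ lh ls l μ hk hΛ hlog hV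
    exact ⟨(c, z), h1, h2, h3⟩
  choose x hx1 hx2 hx3 using hex
  have huniq : ∀ (y : ℂ × ℂ) (l1 l2 : Label n k), (F n y.1)^[k] y.2 = y.2 →
      Rho n k y.1 y.2 = Complex.exp μ → LabR n k Λ lh y.1 y.2 l1 →
      LabR n k Λ lh y.1 y.2 l2 → l1 = l2 := fun y l1 l2 h1 h2 h3 h4 =>
    (hLU n k Λ lh ls y.1 y.2 hn hk hΛ hlog h1 (by rw [h2]; exact hnorm)).2.1 l1 l2 h3 h4
  have hinj : Function.Injective x := by
    intro l1 l2 hll
    refine huniq (x l1) l1 l2 (hx1 l1) (hx2 l1) (hx3 l1) ?_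
    rw [hll]
    exact hx3 l2
  classical
  set S0 : Finset (ℂ × ℂ) := Finset.univ.image x with hS0
  have hcard : S0.card = k * (n - 1) * n ^ (k - 1) := by
    rw [hS0, Finset.card_image_of_injective _ hinj, Finset.card_univ]
    show Fintype.card ((Fin (k - 1) → ZMod n) × ZMod (k * (n - 1))) = _
    rw [Fintype.card_prod, Fintype.card_fun, ZMod.card, ZMod.card, Fintype.card_fin, mul_comm]
  have hS0p : ∀ y ∈ S0, (F n y.1)^[k] y.2 = y.2 ∧ Rho n k y.1 y.2 = Complex.exp μ := by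
    intro y hy
    obtain ⟨l, -, rfl⟩ := Finset.mem_image.mp hy
    exact ⟨hx1 l, hx2 l⟩
  have key : ∀ y : ℂ × ℂ, (F n y.1)^[k] y.2 = y.2 → Rho n k y.1 y.2 = Complex.exp μ →
      LabR n k Λ lh y.1 y.2 l → y = x l := by
    intro y h1 h2 h3
    have hmem : y ∈ S0 := by
      by_contra hmem
      have h4 := (hCNT n k (Complex.exp μ) (insert y S0) hn hk hne1 (by
        intro w hw
        rcases Finset.mem_insert.mp hw with rfl | hw
        · exact ⟨h1, h2⟩
        · exact hS0p w hw)).1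
      rw [Finset.card_insert_of_notMem hmem, hcard] at h4
      omega
    obtain ⟨l1, -, rfl⟩ := Finset.mem_image.mp hmem
    rw [huniq (x l1) l1 l (hx1 l1) (hx2 l1) (hx3 l1) h3]
  have e1 := key (c, z) hfix hrho hlab
  have e2 := key (c', z') hfix' hrho' hlab'
  have e3 : ((c, z) : ℂ × ℂ) = (c', z') := e1.trans e2.symm
  exact ⟨congrArg Prod.fst e3, congrArg Prod.snd e3⟩

/-- the target `T_ULB` -/
theorem p_ULB : T_ULB := ULB_.main a_LU a_CNT

end Pool.Agent.PSat
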