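import Pool.Agent.PSat.Targets
import Pool.Agent.PLim.RS
import Pool.Agent.PLim.RINV
import Pool.Agent.PLim.RC

/-!
# UNI: the label determines the word
-/

set_option autoImplicit false

open Filter Topology Set
open Pool.Agent.PLim (Gm GmL GWL Rot IsInt Label lab Per Gm_eq T_RS T_RINV)

namespace Pool.Agent.PSat

namespace UNI_

lemma Gm_le (T : ℝ) {i j : ℤ} (h : i ≤ j) (x : ℝ) : Gm 2 T i x ≤ Gm 2 T j x := by
  rw [Gm_eq, Gm_eq]
  have h1 : (i : ℝ) ≤ j := by exact_mod_cast h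
  have h2 : (i : ℝ) / ((2 : ℕ) : ℝ) ≤ j / ((2 : ℕ) : ℝ) :=
    div_le_div_of_nonneg_right h1 (Nat.cast_nonneg 2)
  linarith

lemma GWL_le (T : ℝ) (ε ε' : ℕ → ℤ) (k : ℕ) (h : ∀ t, t < k → ε t ≤ ε' t) :
    ∀ x, GWL 2 T ε k x ≤ GWL 2 T ε' k x := by
  induction k with
  | zero => intro x; exact le_refl _
  | succ k ih =>
    intro x
    have h1 := ih (fun t ht => h t (by omega))
    show GWL 2 T ε k (Gm 2 T (ε k) x) ≤ GWL 2 T ε' k (Gm 2 T (ε' k) x)
    exact le_trans (h1 _) ((GWL 2 T ε' k).monotone (Gm_le T (h k (by omega)) x))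

lemma Rot_le (T : ℝ) (ε ε' : ℕ → ℤ) (k : ℕ) (h : ∀ t, t < k → ε t ≤ ε' t) :
    Rot 2 k T ε ≤ Rot 2 k T ε' :=
  CircleDeg1Lift.translationNumber_mono (GWL_le T ε ε' k h)

/-- an integer between the rotation numbers of neighbouring words -/
lemma claimZ (k : ℕ) (T : ℝ) (ε ε' : ℕ → ℤ) (h : ∀ t, t < k → ε' t = ε t)
    (hk : ε' k = ε k + 1) :
    ∃ N : ℤ, Rot 2 (k + 1) T ε ≤ N ∧ (N : ℝ) ≤ Rot 2 (k + 1) T ε' := by
  by_contra hno
  push Not at hno
  have hle : Rot 2 (k + 1) T ε ≤ Rot 2 (k + 1) T ε' := by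
    refine Rot_le T ε ε' (k + 1) fun t ht => ?_
    rcases Nat.lt_or_ge t k with h1 | h1
    · rw [h t h1]
    · have h2 : t = k := by omega
      rw [h2, hk]; omega
  set f : ℤ := ⌊Rot 2 (k + 1) T ε⌋ with hf
  have h1 : (f : ℝ) < Rot 2 (k + 1) T ε := by
    by_contra hlt
    push Not at hlt
    have h2 := hno f hlt
    have h3 : (f : ℝ) ≤ Rot 2 (k + 1) T ε := Int.floor_le _
    linarith
  have h2 : Rot 2 (k + 1) T ε' < ((f + 1 : ℤ) : ℝ) := by
    refine hno (f + 1) ?_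
    push_cast
    exact (Int.lt_floor_add_one _).le
  have hHe : ∀ x, GWL 2 T ε' k x = GWL 2 T ε k x := by
    intro x
    refine le_antisymm (GWL_le T _ _ k (fun t ht => (h t ht).le) x)
      (GWL_le T _ _ k (fun t ht => (h t ht).ge) x)
  have h3 : GWL 2 T ε' (k + 1) T < T + ((f + 1 : ℤ) : ℝ) :=
    CircleDeg1Lift.map_lt_of_translationNumber_lt_int _ h2 T
  have h4 : ∀ x, x + (f : ℝ) < GWL 2 T ε (k + 1) x := fun x =>
    CircleDeg1Lift.lt_map_of_int_lt_translationNumber _ h1 x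
  have h5 : GWL 2 T ε' (k + 1) T = GWL 2 T ε k (Gm 2 T (ε k + 1) T) := by
    show GWL 2 T ε' k (Gm 2 T (ε' k) T) = _
    rw [hHe, hk]
  rw [h5] at h3
  set w : ℝ := GWL 2 T ε k (Gm 2 T (ε k + 1) T) with hw
  push_cast at h3
  have hd1 : 0 < min (T + (f + 1) - w) 1 := lt_min (by linarith) one_pos
  have hd2 : min (T + (f + 1) - w) 1 ≤ T + (f + 1) - w := min_le_left _ _
  have hd3 : min (T + (f + 1) - w) 1 ≤ 1 := min_le_right _ _
  set d : ℝ := min (T + (f + 1) - w) 1 with hd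
  have h6 := h4 (T + 1 - d)
  have h7 : GWL 2 T ε (k + 1) (T + 1 - d) ≤ w := by
    show GWL 2 T ε k (Gm 2 T (ε k) (T + 1 - d)) ≤ GWL 2 T ε k (Gm 2 T (ε k + 1) T)
    apply (GWL 2 T ε k).monotone
    rw [Gm_eq, Gm_eq]
    have h8 : ⌊T + 1 - d - T⌋ = 0 := by
      rw [Int.floor_eq_zero_iff]
      constructor
      · linarith
      · linarith
    rw [h8, sub_self, Int.floor_zero]
    push_cast
    linarith
  linarith

/-- the integer part of the rotation number drops -/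
lemma drop (h1 : T_RS) (K : ℕ) (hK : 1 ≤ K) (T : ℝ) (w : ℕ → ℤ)
    (hni : ¬ IsInt (Rot 2 K (T + 1) w)) : ⌊Rot 2 K (T + 1) w⌋ < ⌊Rot 2 K T w⌋ := by
  obtain ⟨k, rfl⟩ : ∃ k, K = k + 1 := ⟨K - 1, by omega⟩
  obtain ⟨N, hN1, hN2⟩ := claimZ k (T + 1) w (Function.update w k (w k + 1))
    (fun t ht => Function.update_of_ne (ne_of_lt ht) _ _) (Function.update_self _ _ _)
  have h2 : Rot 2 (k + 1) (T + 1) (Function.update w k (w k + 1)) ≤
      Rot 2 (k + 1) (T + 1) (fun t => w t + 1) := by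
    refine Rot_le _ _ _ _ fun t _ => ?_
    rcases eq_or_ne t k with h3 | h3
    · subst h3; rw [Function.update_self]
    · rw [Function.update_of_ne h3]; omega
  have h3 : Rot 2 (k + 1) (T + 1) (fun t => w t + 1) = Rot 2 (k + 1) T w := by
    have h4 := (h1 2 (k + 1) (fun t => w t + 1) T le_rfl).1
    have h5 := (h1 2 (k + 1) w T le_rfl).2.1 (fun _ => 1)
    have e : (fun t => w t + 1 + 1) = fun t => w t + ((2 : ℕ) : ℤ) * (fun _ : ℕ => (1 : ℤ)) t := by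
      funext t
      push_cast
      ring
    rw [h4, e, h5, Finset.sum_const, Finset.card_range]
    push_cast
    simp
  rw [h3] at h2
  have h4 : N ≤ ⌊Rot 2 (k + 1) T w⌋ := Int.le_floor.2 (le_trans hN2 h2)
  have h5 : Rot 2 (k + 1) (T + 1) w < N := lt_of_le_of_ne hN1 fun h6 => hni ⟨N, h6⟩
  exact lt_of_lt_of_le (Int.floor_lt.2 h5) h4

end UNI_

open UNI_ in
/-- UNI: the label determines the word. -/
theorem p_UNI : T_UNI := by
  have h1 : T_RS := Pool.Agent.PLim.p_RS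
  have h2 : T_RINV := Pool.Agent.PLim.p_RINV h1 Pool.Agent.PLim.p_RC
  intro K θ ω η hK hω hη hnω hnη hlab
  -- the first components
  have hfst : ∀ t : ℕ, (2 : ℤ) ∣ (η t - η 0) - (ω t - ω 0) := by
    have hper : ∀ (ε : ℕ → ℤ), Per K ε → ∀ t, ε t = ε (t % K) := by
      intro ε hε t
      have h3 : ∀ m r : ℕ, ε (r + K * m) = ε r := by
        intro m
        induction m with
        | zero => intro r; simp
        | succ m ih =>
          intro r
          rw [Nat.mul_succ, ← Nat.add_assoc, hε, ih]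
      calc ε t = ε (t % K + K * (t / K)) := by rw [Nat.mod_add_div]
        _ = ε (t % K) := h3 _ _
    have hsmall : ∀ t : ℕ, t < K → (2 : ℤ) ∣ (η t - η 0) - (ω t - ω 0) := by
      intro t ht
      rcases Nat.eq_zero_or_pos t with h3 | h3
      · subst h3; simp
      · have h4 := congrFun (congrArg Prod.fst hlab) ⟨t - 1, by omega⟩
        have h5 : ((ω (t - 1 + 1) - ω 0 : ℤ) : ZMod 2) = ((η (t - 1 + 1) - η 0 : ℤ) : ZMod 2) := h4
        rw [ZMod.intCast_eq_intCast_iff_dvd_sub] at h5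
        have h6 : t - 1 + 1 = t := by omega
        rw [h6] at h5
        exact_mod_cast h5
    intro t
    rw [hper η hη t, hper ω hω t]
    exact hsmall _ (Nat.mod_lt _ (by omega))
  by_cases h0 : (2 : ℤ) ∣ η 0 - ω 0
  · intro t
    have h3 := hfst t
    omega
  exfalso
  -- the word is the flipped one
  have hflip : ∀ t : ℕ, ((2 : ℕ) : ℤ) ∣ (fun t => ω t + 1) t - η t := by
    intro t
    have h3 := hfst t
    show ((2 : ℕ) : ℤ) ∣ ω t + 1 - η t
    push_cast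
    omega
  have h3 := (h2 2 K (fun t => ω t + 1) θ le_rfl hK).2.1 η hflip
  have h4 := (h2 2 K ω θ le_rfl hK).2.2.1
  have hlab2 : lab 2 K θ ω = lab 2 K (θ + 1) ω := by
    rw [h4.1, ← h3.1]; exact hlab
  have hn1 : ¬ IsInt (Rot 2 K (θ + 1) ω) := by
    rw [h4.2, ← h3.2]; exact hnη
  set om : ℕ → ℤ := fun j => (ω j - ω 0) % ((2 : ℕ) : ℤ) with hom
  have hsnd := congrArg Prod.snd hlab2
  have h5 : ((⌊Rot 2 K (θ + ω 0) om⌋ : ℤ) : ZMod (K * (2 - 1))) =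
      ((⌊Rot 2 K (θ + 1 + ω 0) om⌋ : ℤ) : ZMod (K * (2 - 1))) := hsnd
  have hn2 : ¬ IsInt (Rot 2 K (θ + ω 0) om) := fun h => hnω ((h2 2 K ω θ le_rfl hK).1.2 h)
  have hn3 : ¬ IsInt (Rot 2 K (θ + ω 0 + 1) om) := by
    intro h
    apply hn1
    apply (h2 2 K ω (θ + 1) le_rfl hK).1.2
    have e : θ + 1 + (ω 0 : ℝ) = θ + ω 0 + 1 := by ring
    rw [e]
    exact h
  have e1 : θ + 1 + (ω 0 : ℝ) = θ + ω 0 + 1 := by ring
  rw [e1] at h5
  have h6 := drop h1 K hK (θ + ω 0) om hn3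
  have h7 : Rot 2 K (θ + ω 0 + 1 + 1) om = Rot 2 K (θ + ω 0) om + ((-(K : ℤ) : ℤ) : ℝ) := by
    have h8 := (h1 2 K om (θ + ω 0) le_rfl).2.2
    have e2 : θ + (ω 0 : ℝ) + 1 + 1 = θ + ω 0 + ((2 : ℕ) : ℝ) := by push_cast; ring
    rw [e2, h8]
    push_cast
    simp
    ring
  have h8 : ¬ IsInt (Rot 2 K (θ + ω 0 + 1 + 1) om) := by
    rintro ⟨m, hm⟩
    apply hn2
    refine ⟨m + K, ?_⟩
    rw [h7] at hm
    push_cast at hm ⊢
    linarith
  have h9 := drop h1 K hK (θ + ω 0 + 1) om h8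
  rw [h7, Int.floor_add_intCast] at h9
  have h10 : ((⌊Rot 2 K (θ + ω 0) om⌋ : ℤ) : ZMod K) =
      ((⌊Rot 2 K (θ + ω 0 + 1) om⌋ : ℤ) : ZMod K) := by
    have e3 : K * (2 - 1) = K := by simp
    rw [e3] at h5
    exact h5
  rw [ZMod.intCast_eq_intCast_iff_dvd_sub] at h10
  have h11 : (K : ℤ) ∣ ⌊Rot 2 K (θ + ω 0) om⌋ - ⌊Rot 2 K (θ + ω 0 + 1) om⌋ := by
    have := h10.neg_right
    rwa [neg_sub] at this
  have h12 := Int.le_of_dvd (by omega) h11
  omega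

end Pool.Agent.PSat
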