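import Pool.Agent.PSat.Targets
import Pool.Agent.PSat.Words

/-!
# UNL: angles with different itineraries are unlinked
-/

set_option autoImplicit false

open Set
open Pool.Agent.PLim (IsInt Cod Per)

namespace Pool.Agent.PSat

namespace UNL_

/-- the doubled angle has the shifted itinerary -/
lemma cod_shift {θ x : ℝ} {η : ℕ → ℤ} (h : Cod 2 θ x η) (a : ℤ) :
    Cod 2 θ (2 * x - a) (sh 1 η) := by
  obtain ⟨h1, h2⟩ := h
  constructor
  · intro t ht hi
    apply h1 (t + 1) (by omega)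
    obtain ⟨m, hm⟩ := hi
    refine ⟨m + 2 ^ t * a, ?_⟩
    push_cast at hm ⊢
    rw [pow_succ]
    linear_combination hm
  · intro t
    have h3 := h2 (t + 1)
    have h4 : ((2 : ℕ) : ℝ) ^ (t + 1) * (2 * x - a) - θ =
        (((2 : ℕ) : ℝ) ^ (t + 1 + 1) * x - θ) - ((2 ^ (t + 1) * a : ℤ) : ℝ) := by
      push_cast
      ring
    rw [h4, Int.floor_sub_intCast, sh_apply]
    have h5 : ((2 : ℕ) : ℤ) ∣ 2 ^ (t + 1) * a := by
      rw [pow_succ, mul_comm ((2 : ℤ) ^ t) 2, mul_assoc]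
      exact dvd_mul_right _ _
    have h6 := dvd_sub h3 h5
    have h7 : ⌊((2 : ℕ) : ℝ) ^ (t + 1 + 1) * x - θ⌋ - 2 ^ (t + 1) * a - η (t + 1) =
        ⌊((2 : ℕ) : ℝ) ^ (t + 1 + 1) * x - θ⌋ - η (t + 1) - 2 ^ (t + 1) * a := by ring
    rw [h7]
    exact h6

/-- the first digit -/
lemma cod_zero {θ x : ℝ} {η : ℕ → ℤ} (h : Cod 2 θ x η) : (2 : ℤ) ∣ ⌊2 * x - θ⌋ - η 0 := by
  have h1 := h.2 0
  simpa using h1

lemma floor_step (θ x : ℝ) : ⌊2 * (x + 1) - θ⌋ = ⌊2 * x - θ⌋ + 2 := by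
  have h : 2 * (x + 1) - θ = (2 * x - θ) + (2 : ℤ) := by push_cast; ring
  rw [h, Int.floor_add_intCast]

lemma main (θ : ℝ) (t : ℕ) : ∀ (η η' : ℕ → ℤ) (x x' y y' : ℝ),
    ¬ (2 : ℤ) ∣ η t - η' t → (∀ s < t, (2 : ℤ) ∣ η s - η' s) →
    Cod 2 θ x η → Cod 2 θ x' η → Cod 2 θ y η' → Cod 2 θ y' η' →
    x < y → y < x' → x' < y' → y' < x + 1 → False := by
  induction t with
  | zero =>
    intro η η' x x' y y' hn _ hx hx' hy hy' h1 h2 h3 h4
    have a1 := cod_zero hx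
    have a2 := cod_zero hx'
    have a3 := cod_zero hy
    have a4 := cod_zero hy'
    have b1 : ⌊2 * x - θ⌋ ≤ ⌊2 * y - θ⌋ := Int.floor_le_floor (by linarith)
    have b2 : ⌊2 * y - θ⌋ ≤ ⌊2 * x' - θ⌋ := Int.floor_le_floor (by linarith)
    have b3 : ⌊2 * x' - θ⌋ ≤ ⌊2 * y' - θ⌋ := Int.floor_le_floor (by linarith)
    have b4 : ⌊2 * y' - θ⌋ ≤ ⌊2 * (x + 1) - θ⌋ := Int.floor_le_floor (by linarith)
    rw [floor_step] at b4
    omega
  | succ t ih =>
    intro η η' x x' y y' hn hs hx hx' hy hy' h1 h2 h3 h4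
    have a1 := cod_zero hx
    have a2 := cod_zero hx'
    have a3 := cod_zero hy
    have a4 := cod_zero hy'
    have a0 := hs 0 (Nat.succ_pos t)
    have b1 : ⌊2 * x - θ⌋ ≤ ⌊2 * y - θ⌋ := Int.floor_le_floor (by linarith)
    have b2 : ⌊2 * y - θ⌋ ≤ ⌊2 * x' - θ⌋ := Int.floor_le_floor (by linarith)
    have b3 : ⌊2 * x' - θ⌋ ≤ ⌊2 * y' - θ⌋ := Int.floor_le_floor (by linarith)
    have b4 : ⌊2 * y' - θ⌋ ≤ ⌊2 * (x + 1) - θ⌋ := Int.floor_le_floor (by linarith)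
    rw [floor_step] at b4
    have c1 := Int.floor_le (2 * x - θ)
    have c2 := Int.lt_floor_add_one (2 * x - θ)
    have d1 := Int.floor_le (2 * y - θ)
    have d2 := Int.lt_floor_add_one (2 * y - θ)
    have e1 := Int.floor_le (2 * x' - θ)
    have e2 := Int.lt_floor_add_one (2 * x' - θ)
    have f1 := Int.floor_le (2 * y' - θ)
    have f2 := Int.lt_floor_add_one (2 * y' - θ)
    generalize ⌊2 * x - θ⌋ = a at *
    generalize ⌊2 * y - θ⌋ = b at *
    generalize ⌊2 * x' - θ⌋ = c at *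
    generalize ⌊2 * y' - θ⌋ = d at *
    have X1 := cod_shift hx a
    have Y1 := cod_shift hy b
    have X2 := cod_shift hx' c
    have Y2 := cod_shift hy' d
    have n1 : ¬ (2 : ℤ) ∣ sh 1 η t - sh 1 η' t := by simpa using hn
    have n2 : ¬ (2 : ℤ) ∣ sh 1 η' t - sh 1 η t := by
      intro h
      apply n1
      have := (dvd_neg (α := ℤ)).2 h
      rwa [neg_sub] at this
    have s1 : ∀ s < t, (2 : ℤ) ∣ sh 1 η s - sh 1 η' s := fun s h => hs (s + 1) (by omega)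
    have s2 : ∀ s < t, (2 : ℤ) ∣ sh 1 η' s - sh 1 η s := by
      intro s h
      have := (dvd_neg (α := ℤ)).2 (s1 s h)
      rwa [neg_sub] at this
    have hcase : (b = a ∧ c = a ∧ d = a) ∨ (b = a ∧ c = a ∧ d = a + 2) ∨
        (b = a ∧ c = a + 2 ∧ d = a + 2) ∨ (b = a + 2 ∧ c = a + 2 ∧ d = a + 2) := by
      omega
    rcases hcase with ⟨rfl, rfl, rfl⟩ | ⟨rfl, rfl, rfl⟩ | ⟨rfl, rfl, rfl⟩ | ⟨rfl, rfl, rfl⟩
    · exact ih (sh 1 η) (sh 1 η') _ _ _ _ n1 s1 X1 X2 Y1 Y2 (by linarith) (by linarith)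
        (by linarith) (by linarith)
    · push_cast at f1 f2
      exact ih (sh 1 η') (sh 1 η) _ _ _ _ n2 s2 Y2 Y1 X1 X2 (by push_cast; linarith)
        (by linarith) (by linarith) (by push_cast; linarith)
    · push_cast at e1 e2 f1 f2
      exact ih (sh 1 η) (sh 1 η') _ _ _ _ n1 s1 X2 X1 Y2 Y1 (by push_cast; linarith)
        (by push_cast; linarith) (by linarith) (by push_cast; linarith)
    · push_cast at d1 d2 e1 e2 f1 f2
      exact ih (sh 1 η') (sh 1 η) _ _ _ _ n2 s2 Y1 Y2 X2 X1 (by push_cast; linarith)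
        (by push_cast; linarith) (by push_cast; linarith) (by push_cast; linarith)

end UNL_

theorem p_UNL : T_UNL := by
  intro K θ η η' x x' y y' hE hx hx' hy hy' h1 h2 h3 h4
  have hE' : ∃ t : ℕ, ¬ (2 : ℤ) ∣ η t - η' t := by
    by_contra h
    push Not at h
    exact hE h
  classical
  exact UNL_.main θ (Nat.find hE') η η' x x' y y' (Nat.find_spec hE')
    (fun s hs => not_not.1 (Nat.find_min hE' hs)) hx.2 hx'.2 hy.2 hy'.2 h1 h2 h3 h4

end Pool.Agent.PSat
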