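import Pool.Agent.PSat.Basic

/-!
# VEX: points of `V` near `m0` outside the Mandelbrot set
-/

set_option autoImplicit false

open Complex Filter Topology Set
open Pool.Agent.Multibrot (MM)

namespace Pool.Agent.PSat

theorem p_VEX (hVPS : T_VPS) (hVPR : T_VPR) : T_VEX := by
  intro X h hC e he
  by_contra hn
  have hn' : ∀ μ ∈ X.V, ‖μ - X.m0‖ < e → X.ψ μ ∈ MM 2 := by
    intro μ hμ hμe
    by_contra h'
    exact hn ⟨μ, hμ, hμe, h'⟩
  obtain ⟨s0, hs0, hs⟩ := hVPS X h hC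
  obtain ⟨-, hVo, hVc⟩ := hVPR X h hC
  have he'0 : 0 < min e X.ρ := lt_min he h.hρ
  set B' : Set ℂ := Metric.ball X.m0 (min e X.ρ) \ {X.m0} with hB'
  have hBsub : B' ⊆ X.B := fun μ hμ => ⟨Metric.ball_subset_ball (min_le_right _ _) hμ.1, hμ.2⟩
  have hBo : IsOpen B' := Metric.isOpen_ball.sdiff isClosed_singleton
  have hop : IsOpen (X.V ∩ B') := by
    rw [Metric.isOpen_iff]
    rintro μ ⟨hμV, hμB⟩
    have hMM : X.ψ μ ∈ MM 2 :=
      hn' μ hμV (lt_of_lt_of_le (mem_ball_iff_norm.1 hμB.1) (min_le_left _ _))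
    obtain ⟨δ, hδ, hδ'⟩ := hVo μ hμV hMM
    obtain ⟨δ2, hδ2, hδ2'⟩ := Metric.isOpen_iff.1 hBo μ hμB
    exact ⟨min δ δ2, lt_min hδ hδ2, fun ν hν =>
      ⟨hδ' (Metric.ball_subset_ball (min_le_left _ _) hν),
        hδ2' (Metric.ball_subset_ball (min_le_right _ _) hν)⟩⟩
  set s : ℝ := min s0 (min e X.ρ) / 2 with hsdef
  have hs1 : 0 < s := by
    have := lt_min hs0 he'0
    positivity
  have hs2 : s < s0 := by
    have h1 := lt_min hs0 he'0
    have h2 := min_le_left s0 (min e X.ρ)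
    rw [hsdef]
    linarith
  have hs3 : s < min e X.ρ := by
    have h1 := lt_min hs0 he'0
    have h2 := min_le_right s0 (min e X.ρ)
    rw [hsdef]
    linarith
  have hsne : (s : ℂ) ≠ 0 := by exact_mod_cast hs1.ne'
  have hmemp : X.m0 + s ∈ B' := by
    refine ⟨?_, ?_⟩
    · rw [mem_ball_iff_norm, add_sub_cancel_left, norm_real, Real.norm_eq_abs, abs_of_pos hs1]
      exact hs3
    · simpa using hsne
  have hmemm : X.m0 - s ∈ B' := by
    refine ⟨?_, ?_⟩
    · rw [mem_ball_iff_norm, sub_sub_cancel_left, norm_neg, norm_real, Real.norm_eq_abs,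
        abs_of_pos hs1]
      exact hs3
    · simpa using hsne
  have hsub : B' ⊆ X.V ∩ B' := by
    refine IsPreconnected.subset_of_closure_inter_subset (punct_conn X.m0 (min e X.ρ)) hop
      ⟨X.m0 + s, hmemp, (hs s hs1 hs2).1, hmemp⟩ ?_
    rintro μ ⟨hμc, hμB⟩
    refine ⟨?_, hμB⟩
    by_contra hμV
    obtain ⟨δ, hδ, hδ'⟩ := hVc μ (hBsub hμB) hμV
    obtain ⟨ν, hν, hνV⟩ := mem_closure_iff.1 hμc (Metric.ball μ δ) Metric.isOpen_ball
      (Metric.mem_ball_self hδ)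
    exact hδ' ν hν hνV.1
  have h1 := (hsub hmemm).1.2.1
  rw [sub_re, m0_re, ofReal_re] at h1
  linarith

end Pool.Agent.PSat
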