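import Pool.Agent.PSat.Basic

set_option autoImplicit false

open Complex Filter Topology Set
open Pool.Agent.Multibrot (MM)
open Pool.Agent.Limb (F)
open Pool.Agent.PLim (Rho IsBot IsLog Crit Dig Rot IsInt Label lab Ex Cod Per Lands InZ LabR
  ZVn ONTOn NCn OMXn SECTn LocFix)
open Pool.Agent.MEX (Exa)
open Pool.Agent.MEY (Pt Omg DD Glob)

namespace Pool.Agent.PSat

namespace VPR_

/-- part (1) -/
lemma part1 (X : Ctx) (h : Dt X) (hC : Cst X.C1) :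
    ∀ μ ∈ X.V, ‖μ - X.m0‖ ^ 2 ≤ X.C1 * X.k * μ.re := by
  rintro μ ⟨hμ, hre, hin⟩
  have hμ2 := h.sub2 hμ
  have hq2 := h.hq
  have hqR : (2 : ℝ) ≤ X.q := by exact_mod_cast hq2
  have hqpos : (0 : ℝ) < X.q := by linarith
  have hqK : (X.q : ℝ) ≤ X.K := by exact_mod_cast h.hqK
  have hρ := h.hρ
  have hrhoK := h.rho_K
  have hqρ : X.ρ * X.q ≤ 1 / 400 := by nlinarith
  have hrele : μ.re < X.ρ := lt_of_le_of_lt (le_abs_self _) (h.re_lt hμ)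
  have hR : Rho 2 X.K (X.ψ μ) (X.χ μ) = exp (X.q * μ) := h.rh_chi hμ2
  have hn1 : ‖Rho 2 X.K (X.ψ μ) (X.χ μ)‖ = Real.exp (X.q * μ.re) := by
    rw [hR, norm_exp]
    simp
  have h1 : 1 < ‖Rho 2 X.K (X.ψ μ) (X.χ μ)‖ := by
    rw [hn1]
    exact Real.one_lt_exp_iff.2 (by positivity)
  have h2 : ‖Rho 2 X.K (X.ψ μ) (X.χ μ)‖ ≤ Real.exp 1 := by
    rw [hn1]
    apply Real.exp_le_exp.2
    nlinarith
  obtain ⟨ν, hν, hν2⟩ := hC.zv X.K X.Λ X.lh X.ls (X.ψ μ) (X.χ μ) h.hK1 h.bot h.log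
    (h.fx_chi hμ2) h1 h2 hin
  rw [hR, Complex.exp_eq_exp_iff_exists_int] at hν
  obtain ⟨n, hn⟩ := hν
  -- the real part
  have hνre : ν.re = X.q * μ.re := by
    rw [hn]
    simp
  have hνim : ν.im = X.q * μ.im + 2 * Real.pi * n := by
    rw [hn]
    simp
    ring
  have hnsq : ∀ w : ℂ, ‖w‖ ^ 2 = w.re ^ 2 + w.im ^ 2 := by
    intro w
    rw [Complex.sq_norm, Complex.normSq_apply]
    ring
  rw [hnsq, hνre, hνim] at hν2
  -- the integer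
  set d : ℝ := μ.im - X.m0.im with hd
  have hm0 : X.m0.im * X.q = 2 * Real.pi * X.p := by
    rw [m0_im]
    field_simp
  have him : X.q * μ.im + 2 * Real.pi * n = X.q * d + 2 * Real.pi * (X.p + n) := by
    rw [hd]
    linear_combination hm0
  rw [him] at hν2
  have hKK : (X.K : ℝ) = X.k * X.q := by
    unfold Ctx.K
    push_cast
    ring
  have hkk : (1 : ℝ) ≤ X.k := by exact_mod_cast h.hk
  have hC1 := h.hC
  have hdle : |d| < X.ρ := by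
    have h3 := abs_im_le_norm (μ - X.m0)
    rw [mem_ball_iff_norm] at hμ
    rw [sub_im] at h3
    exact lt_of_le_of_lt h3 hμ
  have hzero : (X.p : ℤ) + n = 0 := by
    by_contra hne
    have h4 : (1 : ℤ) ≤ |(X.p : ℤ) + n| := Int.one_le_abs hne
    have h5 : (1 : ℝ) ≤ |(X.p : ℝ) + n| := by exact_mod_cast h4
    have hpi := Real.pi_gt_three
    have h6 : (6 : ℝ) ≤ |2 * Real.pi * ((X.p : ℝ) + n)| := by
      rw [abs_mul, abs_of_pos (by linarith : (0 : ℝ) < 2 * Real.pi)]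
      nlinarith
    have h7 : |X.q * d| ≤ 1 / 400 := by
      rw [abs_mul, abs_of_pos hqpos]
      nlinarith [abs_nonneg d]
    have h8 : (5 : ℝ) ≤ |X.q * d + 2 * Real.pi * ((X.p : ℝ) + n)| := by
      have h9 := abs_sub_abs_le_abs_sub (2 * Real.pi * ((X.p : ℝ) + n)) (-(X.q * d))
      rw [abs_neg, sub_neg_eq_add, add_comm (2 * Real.pi * ((X.p : ℝ) + n))] at h9
      linarith
    have h10 : (25 : ℝ) ≤ (X.q * d + 2 * Real.pi * ((X.p : ℝ) + n)) ^ 2 := by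
      rw [← sq_abs]
      nlinarith
    have h11 : X.C1 * X.K * (X.q * μ.re) ≤ 1 / 400 := by
      have h12 : X.C1 * X.K * (X.q * μ.re) ≤ X.C1 * X.K * (X.q * X.ρ) := by
        have h17 : (0 : ℝ) ≤ X.C1 * X.K := mul_nonneg (by linarith) (Nat.cast_nonneg _)
        exact mul_le_mul_of_nonneg_left (mul_le_mul_of_nonneg_left hrele.le hqpos.le) h17
      have h13 : X.C1 * X.K * (X.q * X.ρ) = X.C1 * X.k * X.q ^ 2 * X.ρ := by
        rw [hKK]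
        ring
      have h14 := h.sm
      have h15 : (1 : ℝ) ≤ (X.K + 1) ^ 2 :=
        one_le_pow₀ (by linarith [(Nat.cast_nonneg X.K : (0 : ℝ) ≤ X.K)])
      have h16 : 0 ≤ X.C1 * X.k * X.q ^ 2 * X.ρ :=
        mul_nonneg (mul_nonneg (mul_nonneg (by linarith) (by linarith)) (sq_nonneg _)) hρ.le
      have h18 : 400 * X.C1 * X.k * X.q ^ 2 * (X.K + 1) ^ 2 * X.ρ =
          400 * ((X.K + 1) ^ 2 * (X.C1 * X.k * X.q ^ 2 * X.ρ)) := by ring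
      rw [h18] at h14
      have h19 := mul_le_mul_of_nonneg_right h15 h16
      linarith
    have h20 := sq_nonneg (X.q * μ.re)
    linarith
  have hzR : (X.p : ℝ) + n = 0 := by exact_mod_cast hzero
  rw [hzR, mul_zero, add_zero] at hν2
  rw [hnsq, sub_re, sub_im, m0_re, sub_zero, ← hd]
  rw [hKK] at hν2
  have h20 : (X.q : ℝ) ^ 2 * (μ.re ^ 2 + d ^ 2) ≤ X.q ^ 2 * (X.C1 * X.k * μ.re) := by
    calc (X.q : ℝ) ^ 2 * (μ.re ^ 2 + d ^ 2) = (X.q * μ.re) ^ 2 + (X.q * d) ^ 2 := by ring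
      _ ≤ _ := hν2
      _ = _ := by ring
  exact le_of_mul_le_mul_left h20 (by positivity)

/-- near `μ` the section is near -/
lemma near (X : Ctx) (h : Dt X) {μ : ℂ} (hμ : μ ∈ Metric.ball X.m0 X.ρ) {e : ℝ} (he : 0 < e)
    (P : ℂ → Prop) (hP : ∀ᶠ ν in 𝓝 μ, P ν) :
    ∃ δ : ℝ, 0 < δ ∧ ∀ ν ∈ Metric.ball μ δ, ν ∈ Metric.ball X.m0 X.ρ ∧
      ‖X.ψ ν - X.ψ μ‖ < e ∧ ‖X.χ ν - X.χ μ‖ < e ∧ P ν := by
  have h1 : ∀ᶠ ν in 𝓝 μ, X.ψ ν ∈ Metric.ball (X.ψ μ) e :=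
    (h.psi_cont (h.sub2 hμ)).eventually (Metric.ball_mem_nhds _ he)
  have h2 : ∀ᶠ ν in 𝓝 μ, X.χ ν ∈ Metric.ball (X.χ μ) e :=
    (h.chi_cont (h.sub2 hμ)).eventually (Metric.ball_mem_nhds _ he)
  have h3 : ∀ᶠ ν in 𝓝 μ, ν ∈ Metric.ball X.m0 X.ρ := Metric.isOpen_ball.mem_nhds hμ
  obtain ⟨δ, hδ, hδ'⟩ := Metric.eventually_nhds_iff_ball.mp ((h1.and h2).and (h3.and hP))
  refine ⟨δ, hδ, fun ν hν => ?_⟩
  obtain ⟨⟨h4, h5⟩, h6, h7⟩ := hδ' ν hν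
  rw [mem_ball_iff_norm] at h4 h5
  exact ⟨h6, h4, h5, h7⟩

lemma re_pos_nhds {μ : ℂ} (h : 0 < μ.re) : ∀ᶠ ν in 𝓝 μ, 0 < (ν : ℂ).re :=
  Complex.continuous_re.continuousAt.eventually (lt_mem_nhds h)

end VPR_

open VPR_ in
/-- VPR: the set `V`. -/
theorem p_VPR : T_VPR := by
  intro X h hC
  refine ⟨part1 X h hC, ?_, ?_⟩
  · rintro μ ⟨hμ, hre, hin⟩ hM
    have hμ2 := h.sub2 hμ
    have hrep : 1 < ‖Rho 2 X.K (X.ψ μ) (X.χ μ)‖ :=
      h.repK hμ2 hre (le_trans (by norm_num) h.hq)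
    obtain ⟨e, he, hnear⟩ := Pool.Agent.PLim.a_ZOP 2 X.K X.Λ X.lh X.ls (X.ψ μ) (X.χ μ) le_rfl
      h.hK1 h.bot h.log hM (h.fx_chi hμ2) hrep hin
    obtain ⟨δ, hδ, hδ'⟩ := near X h hμ he _ (re_pos_nhds hre)
    refine ⟨δ, hδ, fun ν hν => ?_⟩
    obtain ⟨h1, h2, h3, h4⟩ := hδ' ν hν
    exact ⟨h1, h4, hnear _ _ h2 h3 (h.fx_chi (h.sub2 h1))⟩
  · rintro μ hB hV
    have hμ : μ ∈ Metric.ball X.m0 X.ρ := B_sub X hB
    have hne : μ ≠ X.m0 := hB.2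
    have hμ2 := h.sub2 hμ
    rcases lt_or_ge 0 μ.re with hre | hre
    · have hnin : ¬ InZ 2 X.K X.Λ X.lh (X.ψ μ) (X.χ μ) := fun hin => hV ⟨hμ, hre, hin⟩
      have hrep : 1 < ‖Rho 2 X.K (X.ψ μ) (X.χ μ)‖ :=
        h.repK hμ2 hre (le_trans (by norm_num) h.hq)
      obtain ⟨l, hl⟩ := (Pool.Agent.PLim.a_LU 2 X.K X.Λ X.lh X.ls (X.ψ μ) (X.χ μ) le_rfl
        h.hK1 h.bot h.log (h.fx_chi hμ2) hrep).1 hnin
      obtain ⟨e, he, hnear⟩ := Pool.Agent.PLim.a_LOP 2 X.K X.Λ X.lh X.ls (X.ψ μ) (X.χ μ) l le_rfl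
        h.hK1 h.bot h.log (h.fx_chi hμ2) hrep hl
      obtain ⟨δ, hδ, hδ'⟩ := near X h hμ he _ (re_pos_nhds hre)
      refine ⟨δ, hδ, fun ν hν hνV => ?_⟩
      obtain ⟨h1, h2, h3, h4⟩ := hδ' ν hν
      have h5 := hnear _ _ h2 h3 (h.fx_chi (h.sub2 h1))
      exact (Pool.Agent.PLim.a_LU 2 X.K X.Λ X.lh X.ls (X.ψ ν) (X.χ ν) le_rfl
        h.hK1 h.bot h.log (h.fx_chi (h.sub2 h1))
        (h.repK (h.sub2 h1) h4 (le_trans (by norm_num) h.hq))).2.2 l h5 hνV.2.2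
    · have hd : 0 < ‖μ - X.m0‖ := norm_pos_iff.2 (sub_ne_zero.2 hne)
      set d : ℝ := ‖μ - X.m0‖ with hdd
      have hCk : 0 < X.C1 * X.k := by
        have h1 := h.hC
        have h2 : (1 : ℝ) ≤ X.k := by exact_mod_cast h.hk
        nlinarith
      refine ⟨min (d / 2) (d ^ 2 / (8 * (X.C1 * X.k))), lt_min (by linarith) (by positivity),
        fun ν hν hνV => ?_⟩
      rw [mem_ball_iff_norm, lt_min_iff] at hν
      obtain ⟨h1, h2⟩ := hν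
      have h3 := part1 X h hC ν hνV
      have h4 : d / 2 ≤ ‖ν - X.m0‖ := by
        have h5 : d ≤ ‖ν - X.m0‖ + ‖ν - μ‖ := by
          rw [hdd]
          calc ‖μ - X.m0‖ = ‖(ν - X.m0) - (ν - μ)‖ := by congr 1; ring
            _ ≤ _ := norm_sub_le _ _
        linarith
      have h6 : ν.re ≤ ‖ν - μ‖ := by
        have h7 := le_trans (le_abs_self _) (abs_re_le_norm (ν - μ))
        rw [sub_re] at h7
        linarith
      have h8 : X.C1 * X.k * ν.re < d ^ 2 / 8 := by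
        have h9 : ν.re < d ^ 2 / (8 * (X.C1 * X.k)) := lt_of_le_of_lt h6 h2
        have h10 := mul_lt_mul_of_pos_left h9 hCk
        have h11 : ∀ w : ℝ, 0 < w → w * (d ^ 2 / (8 * w)) = d ^ 2 / 8 := by
          intro w hw
          field_simp
        rw [h11 _ hCk] at h10
        exact h10
      nlinarith

end Pool.Agent.PSat
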