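import Pool.Agent.PSat.Basic

/-!
# PSAT, XTU: uniqueness of the normalized coordinate
-/

set_option autoImplicit false

open Complex Filter Topology Set
open Pool.Agent.Multibrot (MM)
open Pool.Agent.Limb (F)
open Pool.Agent.PLim (Rho IsBot IsLog Crit Dig Rot IsInt Label lab Ex Cod Per Lands InZ LabR G
  ZVn ONTOn NCn OMXn SECTn LocFix)
open Pool.Agent.MEX (Exa)
open Pool.Agent.MEY (Pt Omg DD Glob)

namespace Pool.Agent.PSat

namespace XTU_

lemma an_add (ζ : ℂ) (m : ℤ) : an (ζ + 2 * Real.pi * I * m) = an ζ + m := by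
  unfold an
  have hpi := Real.pi_pos
  have e : (ζ + 2 * Real.pi * I * m).im = ζ.im + 2 * Real.pi * m := by
    simp
  rw [e]
  field_simp

lemma rot_add (k : ℕ) (ε : ℕ → ℤ) (θ : ℝ) (N : ℤ) :
    Rot 2 k (θ + 2 * N) ε = Rot 2 k θ ε - N * k := by
  have hstep : ∀ θ : ℝ, Rot 2 k (θ + 2) ε = Rot 2 k θ ε - k := by
    intro θ
    have h := (Pool.Agent.PLim.a_RS 2 k ε θ le_rfl).2.2
    push_cast at h
    simpa using h
  induction N using Int.induction_on with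
  | zero => simp
  | succ n ih =>
    have e : θ + 2 * ((n : ℤ) + 1 : ℤ) = (θ + 2 * ((n : ℤ) : ℝ)) + 2 := by push_cast; ring
    rw [e, hstep, ih]
    push_cast
    ring
  | pred n ih =>
    have h1 := hstep (θ + 2 * ((-(n : ℤ) - 1 : ℤ) : ℝ))
    have e : θ + 2 * ((-(n : ℤ) - 1 : ℤ) : ℝ) + 2 = θ + 2 * ((-(n : ℤ) : ℤ) : ℝ) := by
      push_cast; ring
    rw [e, ih] at h1
    push_cast at h1 ⊢
    linarith

end XTU_

open XTU_ in
theorem p_XTU (hDSH : T_DSH) : T_XTU := by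
  intro X hX μ ζ ζ' h h'
  obtain ⟨hμ, hcr, hwd, hx1, hx2⟩ := h
  obtain ⟨-, hcr', hwd', hx1', hx2'⟩ := h'
  have hdt := hX.dt
  have hD := hDSH X.Λ X.lh X.ls (X.ψ μ) ζ hdt.bot hdt.log hcr
  obtain ⟨m, hm⟩ := hD.2.1 ζ' hcr'
  have hpt := hdt.pt μ (hdt.sub2 hμ)
  -- the shift is even
  have h1 := hwd' 0
  have h2 := hwd 0
  rw [hm] at h1
  simp only [Function.iterate_zero, id_eq] at h1 h2
  rw [hD.2.2.1 X.k (X.χ μ) m (X.ε 0) hdt.hk hpt.fix] at h1
  have h3 := (hD.2.2.2 X.k (X.χ μ) (X.ε 0) (X.ε 0 + m) hdt.hk hpt.fix h2).1 h1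
  obtain ⟨N, hN⟩ : ∃ N : ℤ, m = 2 * N := by
    obtain ⟨N, hN⟩ := h3
    exact ⟨-N, by linarith⟩
  have h4 : an ζ' = an ζ + 2 * N := by
    rw [hm, an_add, hN]
    push_cast
    ring
  rw [h4, rot_add] at hx1' hx2'
  have hk : (1 : ℝ) ≤ X.k := by exact_mod_cast hdt.hk
  have h5 : |(N : ℝ) * X.k| < 1 := by
    rw [abs_lt]
    constructor <;> linarith
  have h6 : N = 0 := by
    rw [abs_mul, abs_of_pos (by linarith : (0 : ℝ) < X.k)] at h5
    have h7 : |(N : ℝ)| < 1 := by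
      have := abs_nonneg (N : ℝ)
      nlinarith
    have h8 : |N| < 1 := by exact_mod_cast h7
    exact Int.abs_lt_one_iff.mp h8
  rw [hm, hN, h6]
  simp

end Pool.Agent.PSat
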