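import Pool.Agent.PSat.BCI
import Pool.Agent.PSat.CGL
import Pool.Agent.PSat.CGP
import Pool.Agent.PSat.CLR
import Pool.Agent.PSat.CMB
import Pool.Agent.PSat.CPF
import Pool.Agent.PSat.CST
import Pool.Agent.PSat.DLC
import Pool.Agent.PSat.DSH
import Pool.Agent.PSat.EXL
import Pool.Agent.PSat.EXV
import Pool.Agent.PSat.FAR
import Pool.Agent.PSat.FNL
import Pool.Agent.PSat.FNM
import Pool.Agent.PSat.GBF
import Pool.Agent.PSat.GD1
import Pool.Agent.PSat.GEX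
import Pool.Agent.PSat.GLL
import Pool.Agent.PSat.GNB
import Pool.Agent.PSat.HLF
import Pool.Agent.PSat.IDN
import Pool.Agent.PSat.INZ
import Pool.Agent.PSat.IZE
import Pool.Agent.PSat.KBD
import Pool.Agent.PSat.KFC
import Pool.Agent.PSat.KPR
import Pool.Agent.PSat.LBA
import Pool.Agent.PSat.LBB
import Pool.Agent.PSat.LBC
import Pool.Agent.PSat.LCF
import Pool.Agent.PSat.LFC
import Pool.Agent.PSat.LFF
import Pool.Agent.PSat.LIFC
import Pool.Agent.PSat.LIW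
import Pool.Agent.PSat.LKV
import Pool.Agent.PSat.LUF
import Pool.Agent.PSat.MKD
import Pool.Agent.PSat.MPL
import Pool.Agent.PSat.MPV
import Pool.Agent.PSat.NFN
import Pool.Agent.PSat.NR0
import Pool.Agent.PSat.NRC
import Pool.Agent.PSat.NRM
import Pool.Agent.PSat.PLA
import Pool.Agent.PSat.PWR
import Pool.Agent.PSat.ROT
import Pool.Agent.PSat.RP0
import Pool.Agent.PSat.RTH
import Pool.Agent.PSat.SBA
import Pool.Agent.PSat.SBB
import Pool.Agent.PSat.SBC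
import Pool.Agent.PSat.SBD
import Pool.Agent.PSat.SBI
import Pool.Agent.PSat.SBL
import Pool.Agent.PSat.SER
import Pool.Agent.PSat.SHG
import Pool.Agent.PSat.SM2
import Pool.Agent.PSat.SNG
import Pool.Agent.PSat.SUM
import Pool.Agent.PSat.THB
import Pool.Agent.PSat.TLC
import Pool.Agent.PSat.UCN
import Pool.Agent.PSat.ULB
import Pool.Agent.PSat.UNI
import Pool.Agent.PSat.UNL
import Pool.Agent.PSat.VEX
import Pool.Agent.PSat.VPR
import Pool.Agent.PSat.VPS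
import Pool.Agent.PSat.XTU

/-!
# PSAT: all targets
-/

set_option autoImplicit false

namespace Pool.Agent.PSat

/-! ### A -/
theorem a_PWR : T_PWR := p_PWR
theorem a_TLC : T_TLC := p_TLC
theorem a_THB : T_THB := p_THB
theorem a_UNL : T_UNL := p_UNL
theorem a_SHG : T_SHG := p_SHG a_THB a_UNL
theorem a_SNG : T_SNG := p_SNG a_THB a_UNL a_SHG
theorem a_RTH : T_RTH := p_RTH a_TLC
theorem a_PLA : T_PLA := p_PLA a_THB a_TLC a_SNG a_RTH a_PWR
theorem a_CGL : T_CGL := p_CGL a_RTH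
theorem a_CGP : T_CGP := p_CGP a_THB a_UNL a_SHG a_TLC a_RTH a_CGL a_PWR
theorem a_UNI : T_UNI := p_UNI
theorem a_CMB : T_CMB := p_CMB a_PLA a_CGL a_CGP a_UNI
theorem a_KPR : T_KPR := p_KPR
theorem a_FAR : T_FAR := p_FAR
theorem a_NRC : T_NRC := p_NRC
theorem a_LFC : T_LFC := p_LFC a_PWR

/-! ### B -/
theorem a_DSH : T_DSH := p_DSH
theorem a_DLC : T_DLC := p_DLC
theorem a_IZE : T_IZE := p_IZE a_DSH
theorem a_INZ : T_INZ := p_INZ
theorem a_LKV : T_LKV := p_LKV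
theorem a_VPR : T_VPR := p_VPR
theorem a_XTU : T_XTU := p_XTU a_DSH

/-! ### C -/
theorem a_KBD : T_KBD := p_KBD
theorem a_KFC : T_KFC := p_KFC a_KBD
theorem a_NFN : T_NFN := p_NFN
theorem a_LBA : T_LBA := p_LBA
theorem a_LBB : T_LBB := p_LBB
theorem a_LBC : T_LBC := p_LBC a_LBA a_LBB
theorem a_HLF : T_HLF := p_HLF
theorem a_SUM : T_SUM := p_SUM
theorem a_MPL : T_MPL := p_MPL a_SUM
theorem a_RP0 : T_RP0 := p_RP0 a_HLF a_SUM a_NFN
theorem a_VPS : T_VPS := p_VPS a_LBC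
theorem a_VEX : T_VEX := p_VEX a_VPS a_VPR
theorem a_NRM : T_NRM := p_NRM a_VEX a_LKV a_CMB a_KPR a_FAR a_NRC a_LFC a_DSH a_IZE a_PWR

/-! ### D -/
theorem a_LFF : T_LFF := p_LFF
theorem a_LUF : T_LUF := p_LUF
theorem a_GBF : T_GBF := p_GBF a_LFF a_LUF
theorem a_CPF : T_CPF := p_CPF a_LFF a_LUF
theorem a_GD1 : T_GD1 := p_GD1
theorem a_GEX : T_GEX := p_GEX a_GD1 a_GBF a_CPF
theorem a_GNB : T_GNB := p_GNB
theorem a_SM2 : T_SM2 := p_SM2 a_LUF a_GNB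
theorem a_ULB : T_ULB := p_ULB
theorem a_GLL : T_GLL := p_GLL
theorem a_UCN : T_UCN := p_UCN a_GLL a_ULB a_SM2 a_GD1

/-! ### E -/
theorem a_SBI : T_SBI := p_SBI a_INZ
theorem a_EXL : T_EXL := p_EXL a_VPR a_DLC a_DSH
theorem a_EXV : T_EXV := p_EXV a_IZE a_XTU a_DSH
theorem a_SBA : T_SBA := p_SBA a_DLC a_DSH a_XTU
theorem a_SBB : T_SBB := p_SBB a_VPR a_XTU a_DSH
theorem a_SBC : T_SBC := p_SBC a_VPR a_EXL a_EXV
theorem a_SBD : T_SBD := p_SBD a_VPR a_EXL a_EXV a_GD1 a_GEX a_GNB a_SM2 a_GLL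
theorem a_SBL : T_SBL := p_SBL a_SBA a_SBB a_SBC a_SBD
theorem a_NR0 : T_NR0 := p_NR0 a_SBL a_SBI a_KFC a_NFN a_RP0 a_VPS a_VEX a_INZ
theorem a_CLR : T_CLR := p_CLR a_NR0 a_UCN
theorem a_MPV : T_MPV := p_MPV a_MPL a_SBL a_NFN a_VPR a_NR0 a_CLR a_UCN a_LBC a_INZ
theorem a_LCF : T_LCF := p_LCF a_SBL a_MPV a_KFC a_NFN
theorem a_ROT : T_ROT := p_ROT a_NRM a_LBC a_LCF a_NR0 a_RP0 a_KBD

/-! ### F -/
theorem a_CST : T_CST := p_CST
theorem a_MKD : T_MKD := p_MKD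
theorem a_BCI : T_BCI := p_BCI
theorem a_LIFC : T_LIFC := p_LIFC
theorem a_IDN : T_IDN := p_IDN
theorem a_SER : T_SER := p_SER a_CST a_MKD a_ROT a_BCI a_LIFC a_IDN
theorem a_LIW : T_LIW := p_LIW
theorem a_FNL : T_FNL := p_FNL a_SER a_LIW a_CST
theorem a_FNM : T_FNM := p_FNM a_FNL

end Pool.Agent.PSat
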