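import Pool.Agent.PSat.Basic
import Pool.Agent.PSat.Targets2
import Pool.Agent.MEY.All2

/-!
# PSAT, CMG: a component is a global section
-/

set_option autoImplicit false

open Complex Filter Topology Set
open Pool.Agent.Multibrot (MM)
open Pool.Agent.Limb (F)
open Pool.Agent.PLim (Rho NCn LocFix)
open Pool.Agent.MEX (Exa)
open Pool.Agent.MEY (Pt Omg DD Glob)

namespace Pool.Agent.PSat

namespace CMG_

/-- a cycle with multiplier zero contains zero -/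
lemma zero_mem {K : ℕ} {c z : ℂ} (hr : Rho 2 K c z = 0) :
    ∃ j : ℕ, (F 2 c)^[j] z = 0 := by
  rw [Pool.Agent.PLim.CNT_rho] at hr
  obtain ⟨j, -, hj⟩ := Finset.prod_eq_zero_iff.mp hr
  refine ⟨j, ?_⟩
  simpa using hj

lemma pt_zero {K : ℕ} {c z : ℂ} (hK : 1 ≤ K) (h : Pt 2 K c z 0) : Pt 2 K c 0 0 := by
  obtain ⟨j, hj⟩ := zero_mem h.mul
  have h1 := fix_iter h.fix j
  have h2 := exa_iter h.fix hK h.exa j
  have h3 := rho_iter h.fix j
  rw [hj] at h1 h2 h3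
  exact ⟨h1, h2, h3.trans h.mul⟩

end CMG_

open CMG_ in
theorem p_CMG (h1 : T_GD1) (h2 : T_GBF) (h3 : T_GNB) : T_CMG := by
  intro C K P hC hNC hP
  have hK := hP.hK
  have hKr : (1 : ℝ) ≤ K := by exact_mod_cast hK
  have hκ : (0 : ℝ) < 1 / (C * K) := by positivity
  set κ : ℝ := 1 / (C * K) with hκd
  have hG : GODf 2 K 1 κ := h1 C K hC hK hNC
  have h0b : (0 : ℂ) ∈ Metric.ball (0 : ℂ) 1 := Metric.mem_ball_self one_pos
  obtain ⟨z0, hz0⟩ := hP.pt 0 h0b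
  obtain ⟨Ψ, Z, hGl⟩ := h2 2 K 1 κ le_rfl hK hκ hG (P 0) (pt_zero hK hz0)
  refine ⟨Ψ, Z, hGl, ?_⟩
  obtain ⟨hopen, -, hsub, -, -, -⟩ := Pool.Agent.MEY.a_DDO 2 1 κ le_rfl hκ
  have hpt : ∀ w ∈ DD 2 1 κ, Pt 2 K (Ψ w) (Z w) w := by
    intro w hw
    have := hGl.pt w hw
    simpa using this
  have hPc : ∀ v ∈ Metric.ball (0 : ℂ) 1, ContinuousAt P v := fun v hv =>
    (hP.dP.differentiableAt (Metric.isOpen_ball.mem_nhds hv)).continuousAt
  have hΨc : ∀ v ∈ Metric.ball (0 : ℂ) 1, ContinuousAt Ψ v := fun v hv =>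
    (hGl.dΨ.differentiableAt (hopen.mem_nhds (hsub hv))).continuousAt
  set E : Set ℂ := {v : ℂ | v ∈ Metric.ball (0 : ℂ) 1 ∧ P v = Ψ v} with hE
  have key : Metric.ball (0 : ℂ) 1 ⊆ E := by
    refine (convex_ball (0 : ℂ) 1).isPreconnected.subset_of_closure_inter_subset ?_ ?_ ?_
    · -- the set is open
      rw [isOpen_iff_mem_nhds]
      rintro v1 ⟨hv1, hv1E⟩
      have hn1 : ‖v1‖ < 1 := mem_ball_zero_iff.mp hv1
      have hw1 := hsub hv1
      have hp1 := hpt v1 hw1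
      obtain ⟨δ1, hδ1, hδ1'⟩ := h3 K κ (P 0) Ψ Z v1 0 1 hK hκ hG hGl hw1 one_pos
      have hne : Rho 2 K (Ψ v1) (Z v1) ≠ 1 := by
        rw [hp1.mul]
        intro h
        rw [h, norm_one] at hn1
        exact lt_irrefl _ hn1
      obtain ⟨δ0, r0, zf, hδ0, hr0, hL⟩ := Pool.Agent.PLim.p_LOCZ 2 K (Ψ v1) (Z v1) δ1 le_rfl hδ1
        hp1.fix hne
      have hc1b : Ψ v1 ∈ Metric.ball (Ψ v1) δ0 := Metric.mem_ball_self hL.hδ
      have hzc : ContinuousAt zf (Ψ v1) :=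
        (hL.diff.differentiableAt (Metric.isOpen_ball.mem_nhds hc1b)).continuousAt
      have hRc : ContinuousAt (fun c : ℂ => Rho 2 K c (zf c)) (Ψ v1) :=
        ContinuousAt.comp (f := fun c : ℂ => (c, zf c)) (g := fun q : ℂ × ℂ => Rho 2 K q.1 q.2)
          (Pool.Agent.PLim.CNT_contR 2 K).continuousAt (continuousAt_id.prodMk hzc)
      have hlt : ‖Rho 2 K (Ψ v1) (zf (Ψ v1))‖ < 1 := by
        rw [hL.zf0, hp1.mul]
        exact hn1
      have hev1 : ∀ᶠ c in 𝓝 (Ψ v1), ‖Rho 2 K c (zf c)‖ < 1 ∧ c ∈ Metric.ball (Ψ v1) δ0 ∧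
          c ∈ Metric.ball (Ψ v1) δ1 :=
        (hRc.norm.eventually_lt_const hlt).and
          ((Metric.isOpen_ball.eventually_mem hc1b).and
            (Metric.isOpen_ball.eventually_mem (Metric.mem_ball_self hδ1)))
      have hev2 : ∀ᶠ v in 𝓝 v1, ‖Rho 2 K (P v) (zf (P v))‖ < 1 ∧ P v ∈ Metric.ball (Ψ v1) δ0 ∧
          P v ∈ Metric.ball (Ψ v1) δ1 := by
        have := hPc v1 hv1
        rw [ContinuousAt, hv1E] at this
        exact this.eventually hev1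
      filter_upwards [hev2, Metric.isOpen_ball.mem_nhds hv1] with v hv hvb
      obtain ⟨hva, hvc, hvd⟩ := hv
      refine ⟨hvb, ?_⟩
      obtain ⟨zv, hzv⟩ := hP.pt v hvb
      have hfix := hL.fix _ hvc
      have hmem := hL.mem _ hvc
      have hvn : ‖Rho 2 K (P v) zv‖ < 1 := by
        rw [hzv.mul]
        exact mem_ball_zero_iff.mp hvb
      obtain ⟨j, hj⟩ := Pool.Agent.PLim.a_ATU 2 K K (P v) (zf (P v)) zv le_rfl hK hK hfix hzv.fix
        hva hvn
      have hrv : Rho 2 K (P v) (zf (P v)) = v := by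
        rw [← rho_iter hfix j, hj, hzv.mul]
      have h4 := hδ1' (P v) (zf (P v)) (mem_ball_iff_norm.mp hvd)
        ((mem_ball_iff_norm.mp hmem).trans_le hr0) hfix
      rw [hrv] at h4
      exact h4.2.2.1.symm
    · exact ⟨0, h0b, h0b, hGl.zero.symm⟩
    · -- the set is closed in the ball
      rintro v ⟨hvc, hvb⟩
      refine ⟨hvb, ?_⟩
      have hfr : ∃ᶠ w in 𝓝 v, P w = Ψ w :=
        (mem_closure_iff_frequently.mp hvc).mono fun w hw => hw.2
      exact tendsto_nhds_unique_of_frequently_eq (hPc v hvb) (hΨc v hvb) hfr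
  intro v hv
  exact (key hv).2

end Pool.Agent.PSat
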