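import Pool.Agent.PSat.Targets2
import Pool.Agent.MEX.DENSX
import Pool.Agent.PLim.All4

/-!
# PSAT, DNE: roots near every boundary point, with cycles of exact period
-/

set_option autoImplicit false

open Complex Filter Topology Set MeasureTheory
open Pool.Agent.Multibrot (MM centers_dense Q_eq_iterate MM_closed)
open Pool.Agent.Limb (F)
open Pool.Agent.PLim (Rho)
open Pool.Agent.MEX (Exa)
open Pool.Agent.MEY (Pt)

namespace Pool.Agent.PSat

open Pool.Agent.MEX.DENSX_ Pool.Agent.PLim.DENS_ Pool.Agent.PLim in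
/-- DNE -/
theorem p_DNE : T_DNE := by
  intro c0 ε B hc0 hε
  have hMMA : Pool.Agent.PLim.T_MMA := Pool.Agent.PLim.a_MMA
  have hLOCZ : Pool.Agent.PLim.T_LOCZ := Pool.Agent.PLim.a_LOCZ
  have hTRANS : Pool.Agent.PLim.T_TRANS := Pool.Agent.PLim.a_TRANS
  have hFINF : Pool.Agent.PLim.T_FINF := Pool.Agent.PLim.a_FINF
  obtain ⟨n, hn2⟩ : ∃ n : ℕ, n = 2 := ⟨2, rfl⟩
  have hn : 2 ≤ n := hn2.ge
  rw [← hn2] at hc0
  obtain ⟨k, hk, a, ha, hQ⟩ := centers_dense hn hc0 hε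
  have haW : a ∈ W n k := by
    refine ⟨0, ?_, ?_⟩
    · rw [Q_eq_iterate] at hQ
      exact hQ
    · have : Rho n k a 0 = 0 := by
        rw [CNT_rho]
        refine Finset.prod_eq_zero (Finset.mem_range.2 hk) ?_
        simp only [Function.iterate_zero, id_eq]
        rw [zero_pow (by omega), mul_zero]
      rw [this, norm_zero]
      exact one_pos
  -- a point outside the Multibrot set
  obtain ⟨u₀, hu₀M, hu₀⟩ : ∃ u₀, u₀ ∉ MM n ∧ u₀ ∈ Metric.ball c0 ε := by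
    have h1 : c0 ∈ closure (MM n)ᶜ := by
      rw [frontier_eq_closure_inter_closure] at hc0
      exact hc0.2
    obtain ⟨u, h2, h3⟩ := mem_closure_iff_nhds.1 h1 _ (Metric.ball_mem_nhds c0 hε)
    exact ⟨u, h3, h2⟩
  have hau : u₀ ≠ a := by
    rintro rfl
    exact hu₀M (W_sub hMMA hn hk haW)
  have hcs : Continuous (fun s : ℝ => a + (u₀ - a) * (1 + (s : ℂ) * I)) := by fun_prop
  have hopen : IsOpen ((MM n)ᶜ ∩ Metric.ball c0 ε) :=
    (MM_closed n).isOpen_compl.inter Metric.isOpen_ball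
  have hev : ∀ᶠ s : ℝ in 𝓝 0, a + (u₀ - a) * (1 + (s : ℂ) * I) ∈ (MM n)ᶜ ∩ Metric.ball c0 ε := by
    apply hcs.continuousAt.eventually
    apply hopen.mem_nhds
    have e : a + (u₀ - a) * (1 + ((0 : ℝ) : ℂ) * I) = u₀ := by push_cast; ring
    show a + (u₀ - a) * (1 + ((0 : ℝ) : ℂ) * I) ∈ (MM n)ᶜ ∩ Metric.ball c0 ε
    rw [e]
    exact ⟨hu₀M, hu₀⟩
  obtain ⟨s₀, hs₀, hball⟩ := Metric.eventually_nhds_iff.1 hev
  obtain ⟨s, hs0, hs1, hav⟩ := avoid hau (hFINF n k hn hk) hs₀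
  obtain ⟨huM, huB⟩ := hball (y := s) (by
    rw [Real.dist_eq, sub_zero, abs_of_pos hs0]
    exact hs1)
  set u : ℂ := a + (u₀ - a) * (1 + (s : ℂ) * I) with hu
  have huW : u ∉ W n k := fun h => huM (W_sub hMMA hn hk h)
  obtain ⟨t, ht0, ht1, z1, hz1, hR1⟩ := exit hLOCZ hn hk haW huW
  set c1 : ℂ := a + (t : ℂ) * (u - a) with hc1
  have hc1B : c1 ∈ Metric.ball c0 ε := by
    have h1 := (convex_ball c0 ε) ha huB (sub_nonneg.2 ht1) ht0.le (by ring)
    have e : (1 - t) • a + t • u = c1 := by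
      rw [hc1, Complex.real_smul, Complex.real_smul]
      push_cast
      ring
    rwa [e] at h1
  have hne1 : Rho n k c1 z1 ≠ 1 := by
    intro h
    exact hav t ht0 ⟨z1, hz1, h⟩
  -- the exact period
  obtain ⟨k', hk', hz1', hExa, hR1', hne1'⟩ := exact_period hk hz1 hR1 hne1
  have hne0 : Rho n k' c1 z1 ≠ 0 := by
    intro h
    rw [h, norm_zero] at hR1'
    exact zero_ne_one hR1'
  obtain ⟨x, hx0, hx1, hx⟩ := angle hR1' hne1'
  obtain ⟨δ, r', zf, -, -, hL⟩ := hLOCZ n k' c1 z1 1 hn one_pos hz1' hne1'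
  have hder := hTRANS n k' c1 z1 δ r' zf hn hk' hL hne0 hR1'.le hne1'
  have hd : DifferentiableOn ℂ (fun x => Rho n k' x (zf x)) (Metric.ball c1 δ) :=
    CNT_diffR n k' zf _ hL.diff
  have hA : AnalyticAt ℂ (fun x => Rho n k' x (zf x)) c1 :=
    hd.analyticAt (Metric.ball_mem_nhds c1 hL.hδ)
  have hmap := hA.hasStrictDerivAt.map_nhds_eq hder
  have hcv : Rho n k' c1 (zf c1) = exp (2 * Real.pi * I * x) := by rw [hL.zf0, hx]
  simp only [hcv] at hmap
  -- exactness persists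
  have hExaV : {c : ℂ | Exa n k' c (zf c)} ∈ 𝓝 c1 := by
    have hzc : ContinuousAt zf c1 :=
      (hL.diff.differentiableAt (Metric.ball_mem_nhds c1 hL.hδ)).continuousAt
    have h1 : ∀ᶠ c in 𝓝 c1, ∀ j ∈ Finset.range k', 0 < j → (F n c)^[j] (zf c) ≠ zf c := by
      rw [Filter.eventually_all_finset]
      intro j hj
      by_cases hj0 : 0 < j
      · have h2 : ContinuousAt (fun c => (F n c)^[j] (zf c)) c1 :=
          ContinuousAt.comp (g := fun q : ℂ × ℂ => (F n q.1)^[j] q.2) (f := fun c => (c, zf c))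
            (CNT_contI n j).continuousAt (continuousAt_id.prodMk hzc)
        have h3 : (F n c1)^[j] (zf c1) ≠ zf c1 := by
          rw [hL.zf0]
          exact hExa j hj0 (Finset.mem_range.1 hj)
        filter_upwards [(h2.sub hzc).eventually_ne (sub_ne_zero.2 h3)] with c hc _
        exact sub_ne_zero.1 hc
      · exact Eventually.of_forall fun c h => absurd h hj0
    filter_upwards [h1] with c hc
    exact fun j hj0 hjk => hc j (Finset.mem_range.2 hjk) hj0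
  have hV : (Metric.ball c1 δ ∩ Metric.ball c0 ε) ∩ {c : ℂ | Exa n k' c (zf c)} ∈ 𝓝 c1 :=
    inter_mem (inter_mem (Metric.ball_mem_nhds c1 hL.hδ) (Metric.isOpen_ball.mem_nhds hc1B)) hExaV
  have himg : (fun x => Rho n k' x (zf x)) ''
      ((Metric.ball c1 δ ∩ Metric.ball c0 ε) ∩ {c : ℂ | Exa n k' c (zf c)}) ∈
      𝓝 (exp (2 * Real.pi * I * x)) := by
    rw [← hmap]
    exact image_mem_map hV
  obtain ⟨δ', hδ', hsub⟩ := Metric.mem_nhds_iff.1 himg
  obtain ⟨p, q, hp, hpq, hcop, hclose, hbig⟩ :=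
    Pool.Agent.PLim.DENS_.approx hx0 hx1 (B * k' ^ 2) δ' hδ'
  have hmem : exp (2 * Real.pi * I * p / q) ∈ Metric.ball (exp (2 * Real.pi * I * x)) δ' := by
    rw [Metric.mem_ball, dist_eq_norm]
    exact hclose
  obtain ⟨r, ⟨⟨hr1, hr2⟩, hr3⟩, hr4⟩ := hsub hmem
  rw [hn2] at hL hr4 hr3
  refine ⟨k', p, q, r, zf r, hk', hp, hpq, hcop, ⟨hL.fix r hr1, hr3, hr4⟩, ?_, hbig⟩
  rw [Metric.mem_ball, dist_eq_norm] at hr2
  exact hr2

end Pool.Agent.PSat
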