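import Pool.Agent.PSat.Targets2
import Pool.Agent.PLim.All

/-!
# PSAT, LNF: limbs in the far case
-/

set_option autoImplicit false
set_option maxHeartbeats 4000000

open Complex Filter Topology Set
open Pool.Agent.Multibrot (MM)
open Pool.Agent.Limb (F)
open Pool.Agent.PLim (Rho OMXn SECTn IsLimb)

namespace Pool.Agent.PSat

namespace LNF_

/-- the value zero is not taken by a section near the imaginary axis -/
lemma ne_zero {k : ℕ} (hk : 1 ≤ k) {ψ χ : ℂ → ℂ} {τ η : ℝ} (hη4 : η ≤ 1 / 4)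
    (hsec : ∀ μ ∈ Metric.ball ((τ : ℂ) * I) η, (F 2 (ψ μ))^[k] (χ μ) = χ μ ∧
      Rho 2 k (ψ μ) (χ μ) = exp μ) : ∀ μ ∈ Metric.ball ((τ : ℂ) * I) η, ψ μ ≠ 0 := by
  intro μ hμ h0
  have h1 := hsec μ hμ
  rw [h0] at h1
  have h2 : ‖Rho 2 k 0 (χ μ)‖ < 2 := by
    rw [h1.2, norm_exp]
    have h3 : μ.re ≤ 1 / 4 := by
      have h4 : |(μ - (τ : ℂ) * I).re| ≤ ‖μ - (τ : ℂ) * I‖ := abs_re_le_norm _
      rw [Metric.mem_ball, dist_eq_norm] at hμ
      have h5 : (μ - (τ : ℂ) * I).re = μ.re := by simp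
      rw [h5] at h4
      linarith [le_abs_self μ.re]
    calc Real.exp μ.re ≤ Real.exp (1 / 4) := Real.exp_le_exp.2 h3
      _ < 2 := by
        have h6 : Real.exp (1 / 4) ≤ Real.exp (Real.log 2 * (1 / 2)) := by
          apply Real.exp_le_exp.2
          have := Real.log_two_gt_d9
          linarith
        have h7 : Real.exp (Real.log 2 * (1 / 2)) < Real.exp (Real.log 2) := by
          apply Real.exp_lt_exp.2
          have := Real.log_two_gt_d9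
          linarith
        rw [Real.exp_log (by norm_num : (0 : ℝ) < 2)] at h7
        linarith
  rcases Pool.Agent.PLim.LIMB_.rho_zero le_rfl hk h1.1 with h3 | h3
  · have h4 := h1.2
    rw [h3] at h4
    exact exp_ne_zero _ h4.symm
  · linarith

end LNF_

open LNF_ in
theorem p_LNF (hLNW : T_LNW) (hCST : T_CST) : T_LNF := by
  classical
  obtain ⟨C1, hC1, hcst⟩ := hCST
  obtain ⟨Λ, hΛ⟩ := Pool.Agent.PLim.a_BOT 2 le_rfl
  set C3 : ℝ := C1 + C1 + 40 with hC3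
  have hC3pos : 0 < C3 := by positivity
  have hC31 : 1 ≤ C3 := by linarith
  refine ⟨C1 * C3, one_le_mul_of_one_le_of_one_le hC1 hC31, ?_⟩
  intro k p q r z0 P' hk hp hpq hcop hz0 hrho hbig hP' hlim
  have hkR : (1 : ℝ) ≤ k := by exact_mod_cast hk
  have hpi := Real.pi_pos
  have hpi3 := Real.pi_gt_three
  have hpi4 : Real.pi < 3.15 := Real.pi_lt_d2
  have hq0 : 0 < q := by omega
  have hqR : (0 : ℝ) < q := by exact_mod_cast hq0
  set τ : ℝ := 2 * Real.pi * p / q with hτ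
  have hτI : (2 * Real.pi * I * p / q : ℂ) = (τ : ℂ) * I := by
    rw [hτ]; push_cast; ring
  have hrho' := hrho
  rw [hτI] at hrho
  have hpR : (0 : ℝ) < p := by exact_mod_cast hp
  have hτ0 : 0 < τ := by positivity
  have hτ2 : τ < 2 * Real.pi := by
    rw [hτ, div_lt_iff₀ hqR]
    have : (p : ℝ) < q := by exact_mod_cast hpq
    nlinarith
  have hrM : r ∈ MM 2 := by
    refine Pool.Agent.PLim.LIMB_.inMM Pool.Agent.PLim.a_GREEN Pool.Agent.PLim.a_FIXE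
      Pool.Agent.PLim.a_LOG le_rfl hk hΛ hz0 ?_
    rw [hrho, norm_exp_ofReal_mul_I]
  set m₀ : ℕ := min p (q - p) with hm₀
  have hm1 : 1 ≤ m₀ := by omega
  have hmR : (1 : ℝ) ≤ m₀ := by exact_mod_cast hm1
  have hτm : min τ (2 * Real.pi - τ) = 2 * Real.pi * m₀ / q := by
    have e : 2 * Real.pi - τ = 2 * Real.pi * ((q - p : ℕ) : ℝ) / q := by
      rw [hτ, Nat.cast_sub hpq.le]
      field_simp
    rw [e, hτ, hm₀, Nat.cast_min, mul_min_of_nonneg _ _ (by positivity), min_div_div_right hqR.le]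
  set τ' : ℝ := 2 * Real.pi * m₀ / q with hτ'
  have hτ'pos : 0 < τ' := by positivity
  have hτ'1 : τ' ≤ τ := by rw [← hτm]; exact min_le_left _ _
  have hτ'2 : τ' ≤ 2 * Real.pi - τ := by rw [← hτm]; exact min_le_right _ _
  have hτ'pi : τ' ≤ Real.pi := by linarith
  set η : ℝ := τ' ^ 2 / (C3 * k) with hη
  have hηpos : 0 < η := by positivity
  set ηS : ℝ := (min τ (2 * Real.pi - τ)) ^ 2 / (C1 * k) with hηS
  have hηle : η ≤ ηS := by
    rw [hη, hηS, hτm]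
    have : C1 * k ≤ C3 * k := by
      apply mul_le_mul_of_nonneg_right _ (by positivity)
      rw [hC3]; linarith
    exact div_le_div_of_nonneg_left (by positivity) (by positivity) this
  have hτ'sq : τ' ^ 2 ≤ 10 := by nlinarith
  have h40 : 40 ≤ C3 * k := by
    have : C3 * 1 ≤ C3 * k := mul_le_mul_of_nonneg_left hkR hC3pos.le
    rw [hC3] at this ⊢
    linarith
  have hη4 : η ≤ 1 / 4 := by
    rw [hη, div_le_iff₀ (by positivity)]
    linarith
  have hKη : C1 * k / q < η := by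
    rw [div_lt_iff₀ hqR, hη, div_mul_eq_mul_div, lt_div_iff₀ (by positivity)]
    have h1 : τ' ^ 2 * q = 4 * Real.pi ^ 2 * m₀ ^ 2 / q := by
      rw [hτ']
      field_simp
      ring
    rw [h1, lt_div_iff₀ hqR]
    have h2 : C1 * k * (C3 * k) * q = C1 * C3 * k ^ 2 * q := by ring
    rw [h2]
    have h3 : (m₀ : ℝ) ^ 2 ≤ 4 * Real.pi ^ 2 * m₀ ^ 2 := by
      have h4 : (1 : ℝ) ≤ 4 * Real.pi ^ 2 := by nlinarith
      nlinarith [sq_nonneg (m₀ : ℝ)]
    linarith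
  obtain ⟨ψ, χ, hψd, hχc, hψr, hχr, hsec⟩ := hcst.sect k r z0 τ ηS hk hτ0 hτ2 hz0 hrho rfl
  have hsubB : Metric.ball ((τ : ℂ) * I) η ⊆ Metric.ball ((τ : ℂ) * I) ηS :=
    Metric.ball_subset_ball hηle
  have hne0 := ne_zero (ψ := ψ) (χ := χ) hk hη4 fun μ hμ =>
    ⟨(hsec μ (hsubB hμ)).1, (hsec μ (hsubB hμ)).2.1⟩
  obtain ⟨A, hAM, hAU, hAcl, hAr, hA0, hAP⟩ := hLNW C1 hC1 hcst.omx k p q r η τ ψ χ P' hk hp hpq
    hcop hrM hτ hηpos hη4 hKη (hψd.mono hsubB) hψr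
    (fun μ hμ => ⟨(hsec μ (hsubB hμ)).2.2.2, hne0 μ hμ, fun _ =>
      ⟨χ μ, (hsec μ (hsubB hμ)).1, (hsec μ (hsubB hμ)).2.1⟩⟩)
    ((hχc.mono hsubB).mono inter_subset_left)
    (fun μ hμ _ => ⟨(hsec μ (hsubB hμ)).1, (hsec μ (hsubB hμ)).2.1⟩) hP' hlim
  exact ⟨A, ⟨hk, hp, hpq, hcop, hz0, hrho', hAM, hAU, hAcl, hAr, hA0⟩, hAP⟩

end Pool.Agent.PSat
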