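import Pool.Agent.PSat.Basic

/-!
# PSAT, GEX: global sections through the nonrepelling points
-/

set_option autoImplicit false

open Complex Filter Topology Set
open Pool.Agent.Limb (F)
open Pool.Agent.PLim (Rho NCn)
open Pool.Agent.MEX (Exa LL)
open Pool.Agent.MEY (Pt Omg DD Glob FarN)

namespace Pool.Agent.PSat

namespace GEX_

lemma LL_pos {δ : ℝ} (h0 : 0 < δ) (h1 : δ ≤ 1 / 2) : 0 < LL δ := by
  unfold LL
  have h2 : 0 ≤ Real.log (1 / δ) := by
    apply Real.log_nonneg
    rw [le_div_iff₀ h0]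
    linarith
  positivity

/-- the logarithm of a nonrepelling multiplier is in the extended half plane -/
lemma omg_log {κ : ℝ} (hκ : 0 < κ) {w : ℂ} (h0 : w ≠ 0) (h1 : ‖w‖ ≤ 1) (h2 : w ≠ 1) :
    log w ∈ Omg 1 κ := by
  have hre : (log w).re ≤ 0 := by
    rw [Complex.log_re]
    exact Real.log_nonpos (norm_nonneg _) h1
  rcases hre.lt_or_eq with hlt | heq
  · exact Or.inl hlt
  · right
    have him : (log w).im ≠ 0 := by
      intro hi
      apply h2
      have h3 : log w = 0 := Complex.ext heq hi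
      rw [← exp_log h0, h3, exp_zero]
    have hpi := Real.pi_pos
    have habs : 0 < |(log w).im| := abs_pos.2 him
    have hle : |(log w).im| ≤ Real.pi :=
      abs_le.2 ⟨(Complex.neg_pi_lt_log_im w).le, Complex.log_im_le_pi w⟩
    have hd0 : 0 < |(log w).im| / (2 * Real.pi) := by positivity
    have hd1 : |(log w).im| / (2 * Real.pi) ≤ 1 / 2 := by
      rw [div_le_iff₀ (by positivity)]
      linarith
    refine ⟨|(log w).im| / (2 * Real.pi), hd0, hd1, ?_, ?_⟩
    · intro q hq1 hq2 m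
      have hq : q = 1 := le_antisymm hq2 hq1
      subst hq
      have hx : |((1 : ℕ) : ℝ) * (log w).im / (2 * Real.pi)| = |(log w).im| / (2 * Real.pi) := by
        rw [Nat.cast_one, one_mul, abs_div, abs_of_pos (show (0 : ℝ) < 2 * Real.pi by positivity)]
      by_cases hm : m = 0
      · subst hm
        rw [Int.cast_zero, sub_zero, hx]
      · have h4 : (1 : ℝ) ≤ |(m : ℝ)| := by
          rw [← Int.cast_abs]
          exact_mod_cast Int.one_le_abs hm
        have h5 := abs_sub_abs_le_abs_sub (m : ℝ) (((1 : ℕ) : ℝ) * (log w).im / (2 * Real.pi))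
        rw [hx, abs_sub_comm] at h5
        linarith
    · rw [heq]
      exact mul_pos hκ (LL_pos hd0 hd1)

end GEX_

theorem p_GEX (h1 : T_GD1) (h2 : T_GBF) (h3 : T_CPF) : T_GEX := by
  intro C K c z hC hK hNC hfix hexa hle hne
  have hK0 : (0 : ℝ) < K := by exact_mod_cast hK
  have hκ : 0 < 1 / (C * K) := by
    have : 0 < C := by linarith
    positivity
  have hG := h1 C K hC hK hNC
  by_cases hw : Rho 2 K c z = 0
  · -- the critical point is on the cycle
    have hp := hw
    rw [Pool.Agent.PLim.TRANS_.Rho_eq, Finset.prod_eq_zero_iff] at hp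
    obtain ⟨i, hi, hi0⟩ := hp
    have hz : (F 2 c)^[i] z = 0 := by
      simpa [Pool.Agent.PLim.fp] using hi0
    have hpt : Pt 2 K c 0 0 := by
      refine ⟨?_, ?_, ?_⟩
      · have := fix_iter hfix i
        rwa [hz] at this
      · have := exa_iter hfix hK hexa i
        rwa [hz] at this
      · have := rho_iter hfix i
        rwa [hz, hw] at this
    obtain ⟨Ψ, Z, hGl⟩ := h2 2 K 1 _ le_rfl hK hκ hG c hpt
    refine ⟨c, Ψ, Z, hGl, ?_, ?_, K * i - i, ?_⟩
    · rw [hw]
      exact Or.inl rfl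
    · rw [hw]
      exact hGl.zero
    · rw [hw, hGl.X0]
      have := fix_back hfix hK i
      rwa [hz] at this
  · have hμ := GEX_.omg_log hκ hw hle hne
    have hpt : Pt 2 K c z (exp (log (Rho 2 K c z))) := ⟨hfix, hexa, (exp_log hw).symm⟩
    obtain ⟨c0, hc0, hall⟩ := h3 2 K 1 _ le_rfl hK hκ hG c z _ hμ hpt
    obtain ⟨Ψ, Z, hGl⟩ := h2 2 K 1 _ le_rfl hK hκ hG c0 hc0
    obtain ⟨v, hv, hv0, hΨ, j, hj⟩ := hall Ψ Z hGl
    have hp := hGl.pt v hv
    rw [hΨ] at hp
    have hv1 : Rho 2 K c z = v := by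
      rw [← hj, rho_iter hp.fix j, hp.mul]
      norm_num
    refine ⟨c0, Ψ, Z, hGl, ?_, ?_, j, ?_⟩
    · rw [hv1]; exact hv
    · rw [hv1]; exact hΨ
    · rw [hv1]; exact hj

end Pool.Agent.PSat
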