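import Pool.Agent.PSat.Targets2
import Pool.Agent.PSat.Basic
import Pool.Agent.PSat.FNL
import Pool.Agent.PSat.GEX
import Pool.Agent.MEY.DDO
import Pool.Agent.MEY.OMG

/-!
# LNS: the limbs of the satellite components
-/

set_option autoImplicit false

open Complex Filter Topology Set
open Pool.Agent.Multibrot (MM)
open Pool.Agent.Limb (F)
open Pool.Agent.PLim (Rho OMXn)
open Pool.Agent.MEX (Exa)
open Pool.Agent.MEY (Pt Omg DD Glob)

namespace Pool.Agent.PSat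

namespace LNS_

open FNL_

/-- a limit of the periodic points of the component -/
lemma limpt {K : ℕ} {P : ℂ → ℂ} (hP : Comp K P) {e r : ℂ} {v : ℕ → ℂ}
    (hv : ∀ n, v n ∈ Metric.ball (0 : ℂ) 1) (hve : Tendsto v atTop (𝓝 e))
    (hPv : Tendsto (fun n => P (v n)) atTop (𝓝 r)) :
    ∃ z0 : ℂ, (F 2 r)^[K] z0 = z0 ∧ Rho 2 K r z0 = e := by
  choose z hz using fun n => hP.pt (v n) (hv n)
  have hbd : ∀ᶠ n in atTop, z n ∈ Metric.closedBall (0 : ℂ) (‖r‖ + 1 + 2) := by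
    have h1 : ∀ᶠ n in atTop, ‖P (v n)‖ < ‖r‖ + 1 :=
      hPv.norm.eventually (gt_mem_nhds (by linarith : ‖r‖ < ‖r‖ + 1))
    filter_upwards [h1] with n hn
    rw [mem_closedBall_zero_iff]
    exact per_bd hP.hK (by positivity) hn.le (hz n).fix
  obtain ⟨z0, -, φ, hφ, hφz⟩ := (isCompact_closedBall (0 : ℂ) (‖r‖ + 1 + 2)).tendsto_subseq'
    hbd.frequently
  have hφt := hφ.tendsto_atTop
  have hpair : Tendsto (fun n => (P (v (φ n)), z (φ n))) atTop (𝓝 (r, z0)) :=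
    Tendsto.prodMk_nhds (hPv.comp hφt) hφz
  refine ⟨z0, ?_, ?_⟩
  · have h1 := ((Pool.Agent.PLim.CNT_contI 2 K).tendsto (r, z0)).comp hpair
    refine tendsto_nhds_unique h1 (hφz.congr fun n => ?_)
    exact (hz (φ n)).fix.symm
  · have h1 := ((Pool.Agent.PLim.CNT_contR 2 K).tendsto (r, z0)).comp hpair
    refine tendsto_nhds_unique h1 ((hve.comp hφt).congr fun n => ?_)
    exact (hz (φ n)).mul.symm

/-- the periodic points over the closed left half plane, for a section which agrees with the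
component over the left half plane -/
lemma closed {K : ℕ} {P : ℂ → ℂ} (hP : Comp K P) {U : Set ℂ} (hU : IsOpen U) {Q : ℂ → ℂ}
    (hQ : ContinuousOn Q U) (hid : ∀ μ ∈ U, μ.re < 0 → P (exp μ) = Q μ) {μ : ℂ} (hμ : μ ∈ U)
    (hre : μ.re ≤ 0) : ∃ z : ℂ, (F 2 (Q μ))^[K] z = z ∧ Rho 2 K (Q μ) z = exp μ := by
  -- the points to the left
  have hlim : Tendsto (fun n : ℕ => μ - (((1 : ℝ) / ((n : ℝ) + 1) : ℝ) : ℂ)) atTop (𝓝 μ) := by
    have h1 := tendsto_one_div_add_atTop_nhds_zero_nat (𝕜 := ℝ)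
    have h2 := (tendsto_const_nhds (x := μ)).sub ((continuous_ofReal.tendsto 0).comp h1)
    rw [ofReal_zero, sub_zero] at h2
    exact h2
  have hre' : ∀ n : ℕ, (μ - (((1 : ℝ) / ((n : ℝ) + 1) : ℝ) : ℂ)).re < 0 := by
    intro n
    rw [sub_re, ofReal_re]
    have : (0 : ℝ) < 1 / ((n : ℝ) + 1) := by positivity
    linarith
  refine limpt hP (v := fun n : ℕ => exp (μ - (((1 : ℝ) / ((n : ℝ) + 1) : ℝ) : ℂ))) ?_ ?_ ?_
  · intro n
    rw [mem_ball_zero_iff, norm_exp]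
    exact Real.exp_lt_one_iff.2 (hre' n)
  · exact (continuous_exp.tendsto μ).comp hlim
  · have h1 : Tendsto (fun n : ℕ => Q (μ - (((1 : ℝ) / ((n : ℝ) + 1) : ℝ) : ℂ))) atTop
        (𝓝 (Q μ)) := (hQ.continuousAt (hU.mem_nhds hμ)).tendsto.comp hlim
    refine h1.congr' ?_
    filter_upwards [hlim.eventually (hU.mem_nhds hμ)] with n hn
    exact (hid _ hn (hre' n)).symm

/-- the near case -/
lemma near (hLNW : T_LNW) {C1 : ℝ} (hC1 : 1 ≤ C1) (hO : OMXn 2 C1) {K : ℕ} {R : ℝ} (hR0 : 0 < R)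
    (hR1 : R ≤ 1 / 2) {r0 : ℂ} {Q Z : ℂ → ℂ} (hS : SecR K R r0 Q Z) {P : ℂ → ℂ} (hP : Comp K P)
    (hl0 : Tendsto P (𝓝[Metric.ball 0 1] 1) (𝓝 r0)) {p q : ℕ} {r : ℂ} {P' : ℂ → ℂ} (hp : 0 < p)
    (hpq : p < q) (hcop : p.Coprime q)
    (hlim : Tendsto P (𝓝[Metric.ball 0 1] (exp (2 * Real.pi * I * p / q))) (𝓝 r))
    (hP' : Comp (K * q) P') (hlim' : Tendsto P' (𝓝[Metric.ball 0 1] 1) (𝓝 r))
    (hbig : C1 * K / q < R / 2) {s : ℝ} (hs : exp ((s : ℂ) * I) = 1)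
    (hs' : |2 * Real.pi * p / q - s| < R / 2) :
    ∃ A : Set ℂ, Lmb P p q r A ∧ ∀ v ∈ Metric.ball (0 : ℂ) 1, P' v ∈ A := by
  have hq0 : (0 : ℝ) < q := by
    have : 0 < q := by omega
    exact_mod_cast this
  have hKR : (1 : ℝ) ≤ K := by exact_mod_cast hP.hK
  set τ : ℝ := 2 * Real.pi * p / q with hτ
  set η : ℝ := R / 2 with hη
  have hη0 : 0 < η := by positivity
  -- the shifted section
  set Q' : ℂ → ℂ := fun μ => Q (μ - s * I) with hQ'
  set Z' : ℂ → ℂ := fun μ => Z (μ - s * I) with hZ'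
  have hre : ∀ μ : ℂ, (μ - s * I).re = μ.re := by
    intro μ
    simp
  have hmem : ∀ μ ∈ Metric.ball ((τ : ℂ) * I) η, μ - s * I ∈ Metric.ball (0 : ℂ) R := by
    intro μ hμ
    rw [mem_ball_iff_norm] at hμ
    rw [mem_ball_zero_iff]
    have h1 : μ - s * I = (μ - τ * I) + ((τ - s : ℝ) : ℂ) * I := by
      push_cast
      ring
    rw [h1]
    refine lt_of_le_of_lt (norm_add_le _ _) ?_
    rw [norm_mul, norm_I, mul_one, Complex.norm_real, Real.norm_eq_abs]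
    have h2 : R = η + R / 2 := by rw [hη]; ring
    rw [h2]
    exact add_lt_add hμ hs'
  have hexp : ∀ μ : ℂ, exp (μ - s * I) = exp μ := by
    intro μ
    rw [exp_sub, hs, div_one]
  have hdQ : DifferentiableOn ℂ Q' (Metric.ball ((τ : ℂ) * I) η) := by
    refine hS.dQ.comp ?_ hmem
    fun_prop
  have hτmem : (τ : ℂ) * I ∈ Metric.ball ((τ : ℂ) * I) η := Metric.mem_ball_self hη0
  have hid : ∀ μ ∈ Metric.ball ((τ : ℂ) * I) η, μ.re < 0 → P (exp μ) = Q' μ := by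
    intro μ hμ hlt
    have h5 := hS.id P hP hl0 (μ - s * I) (hmem μ hμ) (by rw [hre]; exact hlt)
    rw [hexp] at h5
    exact h5
  -- the value at the root
  have hQr : Q' (τ * I) = r := by
    set e : ℂ := exp (2 * Real.pi * I * p / q) with he
    have he' : e = exp ((τ : ℂ) * I) := by rw [he, exp_pq]
    have hne : (𝓝[{μ : ℂ | μ.re < 0}] ((τ : ℂ) * I)).NeBot := by
      rw [← mem_closure_iff_nhdsWithin_neBot, Complex.closure_setOfPred_re_lt]
      simp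
    have h1 : Tendsto exp (𝓝[{μ : ℂ | μ.re < 0}] ((τ : ℂ) * I)) (𝓝[Metric.ball 0 1] e) := by
      refine tendsto_nhdsWithin_iff.2 ⟨?_, ?_⟩
      · rw [he']
        exact (continuous_exp.tendsto _).mono_left nhdsWithin_le_nhds
      · filter_upwards [self_mem_nhdsWithin] with μ hμ
        rw [mem_ball_zero_iff, norm_exp]
        exact Real.exp_lt_one_iff.2 hμ
    have h2 : Tendsto (fun μ => P (exp μ)) (𝓝[{μ : ℂ | μ.re < 0}] ((τ : ℂ) * I)) (𝓝 r) :=
      hlim.comp h1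
    have h3 : Tendsto Q' (𝓝[{μ : ℂ | μ.re < 0}] ((τ : ℂ) * I)) (𝓝 (Q' (τ * I))) :=
      ((hdQ.differentiableAt (Metric.isOpen_ball.mem_nhds hτmem)).continuousAt.tendsto).mono_left
        nhdsWithin_le_nhds
    refine tendsto_nhds_unique h3 (h2.congr' ?_)
    have h4 : ∀ᶠ μ in 𝓝[{μ : ℂ | μ.re < 0}] ((τ : ℂ) * I), μ ∈ Metric.ball ((τ : ℂ) * I) η :=
      mem_nhdsWithin_of_mem_nhds (Metric.isOpen_ball.mem_nhds hτmem)
    filter_upwards [self_mem_nhdsWithin, h4] with μ hμ hμ'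
    exact hid μ hμ' hμ
  have hrM : r ∈ MM 2 := by
    rw [← hQr]
    refine hS.mm _ (hmem _ hτmem) ?_
    rw [hre]
    simp
  obtain ⟨A, h1, h2, h3, h4, h5, h6⟩ := hLNW C1 hC1 hO K p q r η τ Q' Z' P' hP.hK hp hpq hcop hrM
    hτ hη0 (by rw [hη]; linarith) hbig hdQ hQr (by
      intro μ hμ
      refine ⟨?_, hS.ne _ (hmem μ hμ), fun h => closed hP Metric.isOpen_ball hdQ.continuousOn hid
        hμ h⟩
      rw [hQ', deriv_comp_sub_const]
      exact hS.dn _ (hmem μ hμ)) (by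
      refine hS.cZ.comp (by fun_prop) ?_
      rintro μ ⟨h1, h2⟩
      refine ⟨hmem μ h1, ?_⟩
      change 0 < (μ - s * I).re
      rw [hre]
      exact h2) (by
      intro μ hμ hpos
      have h1 := hS.pt (μ - s * I) (hmem μ hμ) (by rw [hre]; exact hpos)
      rw [hexp] at h1
      exact ⟨h1.fix, h1.mul⟩) hP' hlim'
  exact ⟨A, ⟨hp, hpq, hcop, hlim, h1, h2, h3, h4, h5⟩, h6⟩

end LNS_

open FNL_ LNS_ in
theorem p_LNS (hSER : T_SER) (hCST : T_CST) (_hKBD : T_KBD) (hCMG : T_CMG) (hSEX : T_SEX)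
    (hLNW : T_LNW) (hLNF : T_LNF) : T_LNS := by
  obtain ⟨CS, hCS, hser⟩ := hSER
  obtain ⟨C1, hC1, hcst⟩ := hCST
  obtain ⟨CL, hCL, hlnf⟩ := hLNF
  have hCS2 : CS ≤ CS ^ 2 := by nlinarith
  refine ⟨200 * CL * C1 * CS ^ 2, ?_, ?_⟩
  · have h1 : (1 : ℝ) ≤ CS ^ 2 := one_le_pow₀ hCS
    have h2 : (1 : ℝ) ≤ 200 * CL := by linarith
    have h3 : (1 : ℝ) ≤ 200 * CL * C1 := one_le_mul_of_one_le_of_one_le h2 hC1
    exact one_le_mul_of_one_le_of_one_le h3 h1
  intro K P p q hP hsat hp hpq hcop hbig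
  obtain ⟨k, p0, q0, r0, z00, hK, hp0, hpq0, hcop0, hl0, hpt0⟩ := hsat
  have hK1 := hP.hK
  have hk : 1 ≤ k := by
    rcases Nat.eq_zero_or_pos k with h | h
    · rw [hK, h, zero_mul] at hK1
      omega
    · exact h
  have hK2 : 2 ≤ K := by
    rw [hK]
    calc 2 = 1 * 2 := rfl
      _ ≤ k * q0 := Nat.mul_le_mul hk (by omega)
  obtain ⟨Q, Z, hS⟩ := hser k p0 q0 r0 z00 hk hp0 hpq0 hcop0 hpt0
  rw [← hK] at hS
  have hKR : (2 : ℝ) ≤ K := by exact_mod_cast hK2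
  have hK4 : (16 : ℝ) ≤ (K : ℝ) ^ 4 := by
    calc (16 : ℝ) = 2 ^ 4 := by norm_num
      _ ≤ (K : ℝ) ^ 4 := pow_le_pow_left₀ (by norm_num) hKR 4
  have hq0 : (0 : ℝ) < q := by
    have : 0 < q := by omega
    exact_mod_cast this
  set R : ℝ := 1 / (CS * (K : ℝ) ^ 4) with hR
  have hR0 : 0 < R := by positivity
  have hR1 : R ≤ 1 / 16 := by
    rw [hR]
    refine one_div_le_one_div_of_le (by norm_num) ?_
    nlinarith
  -- the root
  obtain ⟨Ψ, ZZ, hG, hPΨ⟩ := hCMG C1 K P hC1 hcst.nc hP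
  set κ : ℝ := 1 / (C1 * K) with hκ'
  have hκ : 0 < κ := by positivity
  obtain ⟨hDo, -, -, -⟩ := Pool.Agent.MEY.p_DDO Pool.Agent.MEY.p_OMG 2 1 κ le_rfl hκ
  set v0 : ℂ := exp (2 * Real.pi * I * p / q) with hv0
  have hv1 : ‖v0‖ = 1 := norm_exp_pq p q
  have hvne : v0 ≠ 1 := by
    intro h
    have h1 := Complex.isPrimitiveRoot_exp_of_coprime p q (by omega) hcop
    have h2 : (2 * Real.pi * I * ((p : ℂ) / q)) = 2 * Real.pi * I * p / q := by ring
    rw [h2, ← hv0, h] at h1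
    have h3 := h1.eq_orderOf
    rw [orderOf_one] at h3
    omega
  have hvD : v0 ∈ DD 2 1 κ := by
    right
    have h1 := GEX_.omg_log hκ (by rw [hv0]; exact exp_ne_zero _) hv1.le hvne
    have h2 : (((2 - 1 : ℕ) : ℂ)) * log v0 = log v0 := by
      norm_num
    rw [h2]
    exact h1
  set r : ℂ := Ψ v0 with hr
  have hpt : Pt 2 K r (ZZ v0) v0 := by
    have h1 := hG.pt v0 hvD
    rwa [show (2 - 1 : ℕ) = 1 from rfl, pow_one] at h1
  have hlim : Tendsto P (𝓝[Metric.ball 0 1] v0) (𝓝 r) := by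
    have h1 : Tendsto Ψ (𝓝[Metric.ball 0 1] v0) (𝓝 r) :=
      ((hG.dΨ.differentiableAt (hDo.mem_nhds hvD)).continuousAt.tendsto).mono_left
        nhdsWithin_le_nhds
    refine h1.congr' ?_
    filter_upwards [self_mem_nhdsWithin] with v hv
    exact (hPΨ v hv).symm
  obtain ⟨P', hP', hlim'⟩ := hSEX K p q r (ZZ v0) hK1 hp hpq hcop hpt
  refine ⟨r, ZZ v0, P', ?_⟩
  suffices hA : ∃ A : Set ℂ, Lmb P p q r A ∧ ∀ v ∈ Metric.ball (0 : ℂ) 1, P' v ∈ A by
    obtain ⟨A, hA1, hA2⟩ := hA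
    exact ⟨A, hpt, hP', ⟨K, p, q, r, ZZ v0, rfl, hp, hpq, hcop, hlim', hpt⟩, hlim', hA1, hA2⟩
  -- the size of q
  have hK10 : (K : ℝ) * (K : ℝ) ^ 4 ≤ (K : ℝ) ^ 10 := by
    rw [← pow_succ']
    exact pow_le_pow_right₀ (by linarith) (by norm_num)
  have hKpos : (0 : ℝ) < (K : ℝ) ^ 10 := by positivity
  have hsmall : C1 * K / q < R / 2 := by
    rw [div_lt_iff₀ hq0, hR]
    have h1 : C1 * K * (2 * (CS * (K : ℝ) ^ 4)) < q := by
      calc C1 * K * (2 * (CS * (K : ℝ) ^ 4)) = 2 * C1 * CS * ((K : ℝ) * (K : ℝ) ^ 4) := by ring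
        _ ≤ 2 * C1 * CS ^ 2 * (K : ℝ) ^ 10 := by
            refine mul_le_mul ?_ hK10 (by positivity) (by positivity)
            exact mul_le_mul_of_nonneg_left hCS2 (by positivity)
        _ = 2 * (C1 * CS ^ 2 * (K : ℝ) ^ 10) := by ring
        _ < 200 * CL * (C1 * CS ^ 2 * (K : ℝ) ^ 10) := by
            refine mul_lt_mul_of_pos_right (by linarith) (by positivity)
        _ = 200 * CL * C1 * CS ^ 2 * (K : ℝ) ^ 10 := by ring
        _ ≤ q := hbig
    have h2 : 1 / (CS * (K : ℝ) ^ 4) / 2 * q = q / (2 * (CS * (K : ℝ) ^ 4)) := by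
      field_simp
    rw [h2, lt_div_iff₀ (by positivity)]
    exact h1
  have hpi := Real.pi_pos
  by_cases hc1 : 2 * Real.pi * p / q < R / 2
  · exact near hLNW hC1 hcst.omx hR0 (by linarith) hS hP hl0 hp hpq hcop hlim hP' hlim' hsmall
      (s := 0) (by simp) (by rw [sub_zero, abs_of_nonneg (by positivity)]; exact hc1)
  by_cases hc2 : 2 * Real.pi * ((q : ℝ) - p) / q < R / 2
  · exact near hLNW hC1 hcst.omx hR0 (by linarith) hS hP hl0 hp hpq hcop hlim hP' hlim' hsmall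
      (s := 2 * Real.pi)
      (by
        push_cast
        exact exp_two_pi_mul_I)
      (by
        have e : 2 * Real.pi * p / q - 2 * Real.pi = -(2 * Real.pi * ((q : ℝ) - p) / q) := by
          field_simp
          ring
        rw [e, abs_neg, abs_of_nonneg ?_]
        · exact hc2
        · have : (p : ℝ) ≤ q := by exact_mod_cast hpq.le
          have : 0 ≤ (q : ℝ) - p := by linarith
          positivity)
  push Not at hc1 hc2
  have hmain : CL * K ^ 2 * q < ((min p (q - p) : ℕ) : ℝ) ^ 2 := by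
    set m : ℕ := min p (q - p) with hm
    have hm1 : 1 ≤ m := by omega
    have hmR : (1 : ℝ) ≤ m := by exact_mod_cast hm1
    -- the lower bound for m
    have hmq : R / 2 ≤ 2 * Real.pi * m / q := by
      rcases le_total p (q - p) with h | h
      · rw [hm, min_eq_left h]
        exact hc1
      · rw [hm, min_eq_right h, Nat.cast_sub hpq.le]
        exact hc2
    have hmq' : (q : ℝ) * R ≤ 4 * Real.pi * m := by
      have h4 : R / 2 * q ≤ 2 * Real.pi * m / q * q := mul_le_mul_of_nonneg_right hmq hq0.le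
      have h5 : 2 * Real.pi * m / q * q = 2 * Real.pi * m := by
        field_simp
      linarith
    have hsq : ((q : ℝ) * R) ^ 2 ≤ 160 * (m : ℝ) ^ 2 := by
      have h4 : ((q : ℝ) * R) ^ 2 ≤ (4 * Real.pi * m) ^ 2 :=
        pow_le_pow_left₀ (by positivity) hmq' 2
      have h5 : Real.pi ^ 2 ≤ 10 := by
        have h6 := Real.pi_lt_d2
        nlinarith
      have h7 : (4 * Real.pi * m) ^ 2 = 16 * Real.pi ^ 2 * (m : ℝ) ^ 2 := by ring
      rw [h7] at h4
      have h8 : 16 * Real.pi ^ 2 * (m : ℝ) ^ 2 ≤ 16 * 10 * (m : ℝ) ^ 2 := by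
        refine mul_le_mul_of_nonneg_right ?_ (by positivity)
        linarith
      linarith
    have h9 : CL * K ^ 2 * q * 160 < ((q : ℝ) * R) ^ 2 := by
      have h10 : ((q : ℝ) * R) ^ 2 = q * (q / (CS ^ 2 * (K : ℝ) ^ 8)) := by
        rw [hR]
        field_simp
      have h11 : 160 * (CL * K ^ 2) < q / (CS ^ 2 * (K : ℝ) ^ 8) := by
        rw [lt_div_iff₀ (by positivity)]
        calc 160 * (CL * (K : ℝ) ^ 2) * (CS ^ 2 * (K : ℝ) ^ 8)
            = 160 * (CL * 1 * CS ^ 2 * (K : ℝ) ^ 10) := by ring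
          _ < 200 * (CL * 1 * CS ^ 2 * (K : ℝ) ^ 10) := by
              refine mul_lt_mul_of_pos_right (by norm_num) (by positivity)
          _ ≤ 200 * (CL * C1 * CS ^ 2 * (K : ℝ) ^ 10) := by
              refine mul_le_mul_of_nonneg_left ?_ (by norm_num)
              refine mul_le_mul_of_nonneg_right ?_ hKpos.le
              refine mul_le_mul_of_nonneg_right ?_ (by positivity)
              exact mul_le_mul_of_nonneg_left hC1 (by linarith)
          _ = 200 * CL * C1 * CS ^ 2 * (K : ℝ) ^ 10 := by ring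
          _ ≤ q := hbig
      rw [h10]
      calc CL * K ^ 2 * q * 160 = q * (160 * (CL * K ^ 2)) := by ring
        _ < q * (q / (CS ^ 2 * (K : ℝ) ^ 8)) := mul_lt_mul_of_pos_left h11 hq0
    linarith
  obtain ⟨A, hA, hA2⟩ := hlnf K p q r (ZZ v0) P' hK1 hp hpq hcop hpt.fix hpt.mul hmain hP' hlim'
  exact ⟨A, ⟨hp, hpq, hcop, hlim, hA.sub, hA.op, hA.cl, hA.nr, hA.n0⟩, hA2⟩

end Pool.Agent.PSat
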