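import Pool.Agent.PSat.Targets2
import Pool.Agent.PSat.Basic
import Pool.Agent.PLim.LNE2

/-!
# PSAT: LNW, the limb at `r` contains the satellite component
-/

set_option autoImplicit false

open Complex Filter Topology Set MeasureTheory
open Pool.Agent.Multibrot (MM MM_closed)
open Pool.Agent.PLim.LIMB_ (MM_two)
open Pool.Agent.Limb (F)
open Pool.Agent.PLim (Rho IsBot OmR OMXn)
open Pool.Agent.MEX (Exa)
open Pool.Agent.MEY (Pt)

namespace Pool.Agent.PSat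

namespace LNW_

/-- a cycle of exact period `K q` is not fixed by the iterate of order `K` -/
lemma no_fix {K q : ℕ} {c w z : ℂ} {j : ℕ} (hK : 1 ≤ K) (hq : 2 ≤ q)
    (hw : (F 2 c)^[K * q] w = w) (hex : Exa 2 (K * q) c w) (hj : (F 2 c)^[j] w = z)
    (hz : (F 2 c)^[K] z = z) : False := by
  have hkq : 1 ≤ K * q := Nat.mul_pos hK (by omega)
  refine hex K hK ?_ (Pool.Agent.PLim.LNE_.fix_all hkq hw hj hz)
  calc K = K * 1 := (Nat.mul_one K).symm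
    _ < K * q := Nat.mul_lt_mul_of_pos_left (by omega) hK

/-- the multipliers have the same modulus -/
lemma re_eq {q' : ℕ} {μ ν w : ℂ} (hq' : 1 ≤ q') (hwq : w ^ q' = 1)
    (hν : exp ν = exp μ * w) : ν.re = μ.re := by
  have hw1 : ‖w‖ = 1 := norm_eq_one_of_pow_eq_one hwq (by omega)
  have h1 : ‖exp ν‖ = ‖exp μ‖ := by rw [hν, norm_mul, hw1, mul_one]
  rw [norm_exp, norm_exp] at h1
  exact Real.exp_injective h1

/-- the segment towards the point `1` -/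
lemma seg {P' : ℂ → ℂ} {r : ℂ} (hd : DifferentiableOn ℂ P' (Metric.ball 0 1))
    (ht : Tendsto P' (𝓝[Metric.ball 0 1] 1) (𝓝 r)) :
    (∀ t ∈ Ioc (0 : ℝ) (1 / 2), (1 - t : ℂ) ∈ Metric.ball (0 : ℂ) 1) ∧
    ContinuousOn (fun t : ℝ => P' (1 - t)) (Ioc 0 (1 / 2)) ∧
    Tendsto (fun t : ℝ => P' (1 - t)) (𝓝[>] 0) (𝓝 r) := by
  have h1 : ∀ t ∈ Ioc (0 : ℝ) (1 / 2), (1 - t : ℂ) ∈ Metric.ball (0 : ℂ) 1 := by
    intro t ht
    rw [mem_ball_zero_iff]
    have e : (1 - t : ℂ) = ((1 - t : ℝ) : ℂ) := by push_cast; ring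
    rw [e, Complex.norm_real, Real.norm_eq_abs, abs_lt]
    constructor <;> linarith [ht.1, ht.2]
  have h2 : Continuous fun t : ℝ => (1 - t : ℂ) := by fun_prop
  refine ⟨h1, ?_, ?_⟩
  · exact hd.continuousOn.comp h2.continuousOn h1
  · refine ht.comp ?_
    refine tendsto_nhdsWithin_iff.2 ⟨?_, ?_⟩
    · have h3 : Tendsto (fun t : ℝ => (1 - t : ℂ)) (𝓝 0) (𝓝 ((1 : ℂ) - (0 : ℝ))) := h2.tendsto 0
      have e : ((1 : ℂ) - (0 : ℝ)) = 1 := by simp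
      rw [e] at h3
      exact h3.mono_left nhdsWithin_le_nhds
    · filter_upwards [Ioc_mem_nhdsGT (show (0 : ℝ) < 1 / 2 by norm_num)] with t ht
      exact h1 t ht

end LNW_

open LNW_ in
theorem p_LNW : T_LNW := by
  classical
  intro C1 hC1 hO K p q r η τ Q Z P' hK hp hpq hcop hrM hτ hη hη4 hKq hQd hQr hsec0 hZc hsec hP' hlim
  obtain ⟨Λ, hΛ⟩ := Pool.Agent.PLim.a_BOT 2 le_rfl
  have hkR : (1 : ℝ) ≤ K := by exact_mod_cast hK
  have hpi := Real.pi_pos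
  have hpi3 := Real.pi_gt_three
  have hq2 : 2 ≤ q := by omega
  have hq0 : 0 < q := by omega
  have hqR : (0 : ℝ) < q := by exact_mod_cast hq0
  have hq1 : (1 : ℝ) ≤ q := by exact_mod_cast hq0
  have hτI : (2 * Real.pi * I * p / q : ℂ) = (τ : ℂ) * I := by
    rw [hτ]; push_cast; ring
  have hpR : (0 : ℝ) < p := by exact_mod_cast hp
  have hτ0 : 0 < τ := by rw [hτ]; positivity
  have hτ2 : τ < 2 * Real.pi := by
    rw [hτ, div_lt_iff₀ hqR]
    have : (p : ℝ) < q := by exact_mod_cast hpq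
    nlinarith
  obtain ⟨K', hK'⟩ : ∃ K' : ℝ, K' = C1 * K := ⟨_, rfl⟩
  have hK'pos : 0 < K' := by rw [hK']; positivity
  have hK'η : K' < η * q := by
    rw [hK']
    rwa [div_lt_iff₀ hqR] at hKq
  set om : ℂ → ℂ := fun μ => if h : ∃ w, OmR 2 K Λ (Q μ) (Z μ) w then h.choose else 0 with hom
  -- the root of unity of the points over the right half plane
  have hrep : ∀ μ ∈ Metric.ball ((τ : ℂ) * I) η, 0 < μ.re → 1 < ‖Rho 2 K (Q μ) (Z μ)‖ := by
    intro μ hμ hre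
    rw [(hsec μ hμ hre).2, norm_exp]
    exact Real.one_lt_exp_iff.2 hre
  have homX : ∀ μ ∈ Metric.ball ((τ : ℂ) * I) η, 0 < μ.re → Q μ ∈ MM 2 →
      OmR 2 K Λ (Q μ) (Z μ) (om μ) ∧ (∀ w', OmR 2 K Λ (Q μ) (Z μ) w' → w' = om μ) ∧
      ∃ (q' : ℕ) (ν : ℂ), 1 ≤ q' ∧ om μ ^ q' = 1 ∧ exp ν = exp μ * om μ ∧
        ‖ν‖ ^ 2 ≤ K' / q' * ν.re := by
    intro μ hμ hre hψM
    obtain ⟨w, hw, huniq, -, q', ν, hq', hwq, hν, hνn⟩ :=
      hO K Λ (Q μ) (Z μ) hK hΛ hψM (hsec μ hμ hre).1 (hrep μ hμ hre)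
    have hex : ∃ w, OmR 2 K Λ (Q μ) (Z μ) w := ⟨w, hw⟩
    have e : om μ = w := by
      have h1 : om μ = hex.choose := by
        simp only [hom]
        rw [dif_pos hex]
      rw [h1]
      exact huniq _ hex.choose_spec
    rw [e]
    refine ⟨hw, huniq, q', ν, hq', hwq, ?_, ?_⟩
    · rw [hν, (hsec μ hμ hre).2]
    · rw [hK']
      exact hνn
  have hprim : IsPrimitiveRoot (exp (-((τ : ℂ) * I))) q := by
    have h1 := Complex.isPrimitiveRoot_exp_of_coprime p q (by omega) hcop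
    have h2 := h1.inv
    rw [← Complex.exp_neg] at h2
    have e : -(2 * Real.pi * I * ((p : ℂ) / q)) = -((τ : ℂ) * I) := by
      rw [← hτI]; ring
    rwa [e] at h2
  have hτne : exp ((τ : ℂ) * I) ≠ 1 := by
    intro h
    have h1 : exp (-((τ : ℂ) * I)) ^ 1 = 1 := by
      rw [pow_one, Complex.exp_neg, h, inv_one]
    have h2 := hprim.dvd_of_pow_eq_one 1 h1
    have h3 := Nat.le_of_dvd one_pos h2
    omega
  have hmem0 : (τ : ℂ) * I ∈ Metric.ball ((τ : ℂ) * I) η := Metric.mem_ball_self hη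
  have hre0 : ((τ : ℂ) * I).re = 0 := by simp
  have hrne : r ≠ 0 := by
    have := (hsec0 _ hmem0).2.1
    rwa [hQr] at this
  have hMcomp : IsCompact (MM 2) := by
    refine Metric.isCompact_of_isClosed_isBounded (MM_closed 2) ?_
    refine (Metric.isBounded_iff_subset_closedBall (0 : ℂ)).2 ⟨2, fun x hx => ?_⟩
    rw [mem_closedBall_zero_iff]
    exact MM_two le_rfl hx
  have hlc : ∀ μ₀ ∈ Metric.ball ((τ : ℂ) * I) η, 0 < μ₀.re → Q μ₀ ∈ MM 2 →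
      ∀ᶠ μ in 𝓝 μ₀, Q μ ∈ MM 2 → om μ = om μ₀ := by
    intro μ₀ hμ₀ hre₀ hM₀
    obtain ⟨hom0, -, -⟩ := homX μ₀ hμ₀ hre₀ hM₀
    obtain ⟨δ, hδ, hloc⟩ := Pool.Agent.PLim.a_OMC 2 K Λ (Q μ₀) (Z μ₀) (om μ₀) le_rfl hK hΛ hM₀
      (hsec μ₀ hμ₀ hre₀).1 (hrep μ₀ hμ₀ hre₀) hom0
    have hnb : Metric.ball ((τ : ℂ) * I) η ∈ 𝓝 μ₀ := Metric.isOpen_ball.mem_nhds hμ₀
    have hnr : {μ : ℂ | 0 < μ.re} ∈ 𝓝 μ₀ :=
      (isOpen_lt continuous_const continuous_re).mem_nhds hre₀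
    have hψc : ContinuousAt Q μ₀ := (hQd.differentiableAt hnb).continuousAt
    have hχc' : ContinuousAt Z μ₀ := hZc.continuousAt (inter_mem hnb hnr)
    have e1 : ∀ᶠ μ in 𝓝 μ₀, ‖Q μ - Q μ₀‖ < δ := by
      have := Metric.tendsto_nhds.1 hψc δ hδ
      simpa only [dist_eq_norm] using this
    have e2 : ∀ᶠ μ in 𝓝 μ₀, ‖Z μ - Z μ₀‖ < δ := by
      have := Metric.tendsto_nhds.1 hχc' δ hδ
      simpa only [dist_eq_norm] using this
    filter_upwards [e1, e2, hnr, hnb] with μ h1 h2 h3 h4 hM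
    have h5 := hloc (Q μ) (Z μ) hM h1 h2 (hsec μ h4 h3).1
    exact ((homX μ h4 h3 hM).2.1 _ h5).symm
  obtain ⟨L, hLM, hLU, hLcl, hLr, hL0, hLin⟩ := Pool.Agent.PLim.a_LCL (MM 2) r 0 τ η K' q Q om
    hMcomp hrM hrne.symm hτ0 hτ2 hη (by linarith) hK'pos (by omega)
    hprim.pow_eq_one (fun j hj => hprim.dvd_of_pow_eq_one j hj)
    (by
      have h1 : K' * η < η * q * η := mul_lt_mul_of_pos_right hK'η hη
      have h2 : η * q * η ≤ 1 * q := by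
        have h3 : η * η ≤ 1 := by nlinarith
        nlinarith
      have h4 : 1 * (q : ℝ) ≤ Real.pi ^ 2 * q := by
        apply mul_le_mul_of_nonneg_right _ hqR.le
        nlinarith
      linarith)
    hK'η hQd (fun μ hμ => (hsec0 μ hμ).1) hQr (fun μ hμ => (hsec0 μ hμ).2.1) hlc
    (by
      intro μ hμ hre hM
      obtain ⟨-, -, q', ν, hq', hwq, hν, hνn⟩ := homX μ hμ hre hM
      have hexp : exp (ν - μ) = om μ := by
        rw [Complex.exp_sub, hν, mul_div_cancel_left₀ _ (exp_ne_zero μ)]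
      have hνre := re_eq hq' hwq hν
      have hdiff : μ - 2 * Real.pi * (((μ - ν).im / (2 * Real.pi) : ℝ) : ℂ) * I = ν := by
        have e : (2 * Real.pi * (((μ - ν).im / (2 * Real.pi) : ℝ) : ℂ) : ℂ) = ((μ - ν).im : ℂ) := by
          push_cast
          field_simp
        rw [e]
        apply Complex.ext
        · simp [hνre]
        · simp
      refine ⟨q', (μ - ν).im / (2 * Real.pi), hq', hwq, ?_, ?_⟩
      · rw [← hexp]
        congr 1
        have : (2 * Real.pi * (((μ - ν).im / (2 * Real.pi) : ℝ) : ℂ) * I : ℂ) = μ - ν := by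
          linear_combination -hdiff
        rw [this]
        ring
      · rw [hdiff, ← hνre]
        exact hνn)
  refine ⟨L, hLM, hLU, hLcl, hLr, hL0, ?_⟩
  -- the component is in the Mandelbrot set minus the root
  have hkq : 1 ≤ K * q := Nat.mul_pos hK hq0
  have hPM : ∀ v ∈ Metric.ball (0 : ℂ) 1, P' v ∈ MM 2 := by
    intro v hv
    obtain ⟨z, hz⟩ := hP'.pt v hv
    refine Pool.Agent.PLim.a_MMA 2 (K * q) (P' v) z le_rfl hkq hz.fix ?_
    rw [hz.mul]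
    rwa [mem_ball_zero_iff] at hv
  have hPr : ∀ v ∈ Metric.ball (0 : ℂ) 1, P' v ≠ r := by
    intro v hv hvr
    obtain ⟨w, hw⟩ := hP'.pt v hv
    obtain ⟨z, hz1, hz2⟩ := (hsec0 _ hmem0).2.2 hre0.le
    rw [hQr] at hz1 hz2
    rw [hvr] at hw
    obtain ⟨j, hj⟩ := Pool.Agent.PLim.a_ATN 2 (K * q) K r w z le_rfl hkq hK hw.fix hz1
      (by rw [hw.mul]; rwa [mem_ball_zero_iff] at hv)
      (by rw [hz2, norm_exp, hre0, Real.exp_zero])
      (by rw [hz2]; exact hτne)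
    exact no_fix hK hq2 hw.fix hw.exa hj hz1
  obtain ⟨hseg, hγc, hγr⟩ := seg hP'.dP hlim
  obtain ⟨t₁, m, ht₁, ht₁₀, hmc, hma, hm⟩ := Pool.Agent.PLim.LNE_.lift hη
    (show (0 : ℝ) < 1 / 2 by norm_num) hQd (hsec0 _ hmem0).1 hQr hγc hγr
  -- the multiplier is not one
  have hev1 : ∀ᶠ t in 𝓝[>] (0 : ℝ), exp (m t) ≠ 1 := by
    have h1 : Tendsto (fun t => exp (m t)) (𝓝[>] (0 : ℝ)) (𝓝 (exp ((τ : ℂ) * I))) :=
      (Complex.continuous_exp.tendsto _).comp hma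
    exact h1.eventually_ne hτne
  obtain ⟨u, hu, hmem⟩ := mem_nhdsGT_iff_exists_Ioc_subset.1 hev1
  have hu0 : (0 : ℝ) < u := hu
  obtain ⟨t₂, ht₂⟩ : ∃ t₂ : ℝ, t₂ = min u t₁ := ⟨_, rfl⟩
  have ht₂0 : 0 < t₂ := by rw [ht₂]; exact lt_min hu0 ht₁
  have hin1 : ∀ t ∈ Ioc (0 : ℝ) t₂, t ∈ Ioc (0 : ℝ) t₁ := fun t ht =>
    ⟨ht.1, ht.2.trans (by rw [ht₂]; exact min_le_right _ _)⟩
  have hne1 : ∀ t ∈ Ioc (0 : ℝ) t₂, exp (m t) ≠ 1 := fun t ht =>
    hmem ⟨ht.1, ht.2.trans (by rw [ht₂]; exact min_le_left _ _)⟩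
  have hin : ∀ t ∈ Ioc (0 : ℝ) t₂, t ∈ Ioc (0 : ℝ) (1 / 2) := fun t ht =>
    ⟨ht.1, (hin1 t ht).2.trans ht₁₀⟩
  have hM : ∀ t ∈ Ioc (0 : ℝ) t₂, Q (m t) ∈ MM 2 := by
    intro t ht
    rw [(hm t (hin1 t ht)).2]
    exact hPM _ (hseg t (hin t ht))
  have hre : ∀ t ∈ Ioc (0 : ℝ) t₂, 0 < (m t).re := by
    intro t ht
    by_contra hneg
    push Not at hneg
    obtain ⟨hmB, hmψ⟩ := hm t (hin1 t ht)
    obtain ⟨z, g1, g2⟩ := (hsec0 (m t) hmB).2.2 hneg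
    rw [hmψ] at g1 g2
    have hv := hseg t (hin t ht)
    obtain ⟨w, hw⟩ := hP'.pt _ hv
    obtain ⟨j, hj⟩ := Pool.Agent.PLim.a_ATN 2 (K * q) K (P' (1 - t)) w z le_rfl hkq hK hw.fix g1
      (by rw [hw.mul]; rwa [mem_ball_zero_iff] at hv)
      (by rw [g2, norm_exp]; exact Real.exp_le_one_iff.2 hneg)
      (by rw [g2]; exact hne1 t ht)
    exact no_fix hK hq2 hw.fix hw.exa hj g1
  -- the root of unity is constant along the path
  have hconst : ∀ s ∈ Ioc (0 : ℝ) t₂, ∀ t ∈ Ioc (0 : ℝ) t₂, om (m s) = om (m t) := by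
    intro s hs t ht
    refine isPreconnected_Ioc.induction₂ (fun s t => om (m s) = om (m t)) ?_ ?_ ?_ hs ht
    · intro x hx
      have h1 := hlc (m x) (hm x (hin1 x hx)).1 (hre x hx) (hM x hx)
      have h2 := ((hmc.mono hin1) x hx).eventually h1
      filter_upwards [h2, self_mem_nhdsWithin] with y hy hyI
      exact (hy (hM y hyI)).symm
    · intro x y z _ _ _ h1 h2
      exact h1.trans h2
    · intro x y _ _ h1
      exact h1.symm
  have hval : om (m t₂) = exp (-((τ : ℂ) * I)) := by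
    have hX : ∀ t ∈ Ioc (0 : ℝ) t₂, ∃ ν : ℂ, exp ν = exp (m t) * om (m t) ∧
        ‖ν‖ ^ 2 ≤ K' * (m t).re := by
      intro t ht
      obtain ⟨-, -, q', ν, hq', hwq, hν, hνn⟩ :=
        homX (m t) (hm t (hin1 t ht)).1 (hre t ht) (hM t ht)
      have h1 := re_eq hq' hwq hν
      refine ⟨ν, hν, hνn.trans ?_⟩
      rw [h1]
      apply mul_le_mul_of_nonneg_right _ (hre t ht).le
      have hq'R : (1 : ℝ) ≤ q' := by exact_mod_cast hq'
      exact div_le_self hK'pos.le hq'R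
    choose! ν hν1 hν2 using hX
    have hevI : ∀ᶠ t in 𝓝[>] (0 : ℝ), t ∈ Ioc (0 : ℝ) t₂ := Ioc_mem_nhdsGT ht₂0
    have hreT : Tendsto (fun t => K' * (m t).re) (𝓝[>] (0 : ℝ)) (𝓝 0) := by
      have h1 : Tendsto (fun t => (m t).re) (𝓝[>] (0 : ℝ)) (𝓝 ((τ : ℂ) * I).re) :=
        (continuous_re.tendsto _).comp hma
      rw [hre0] at h1
      simpa using h1.const_mul K'
    have hνsq : Tendsto (fun t => ‖ν t‖ ^ 2) (𝓝[>] (0 : ℝ)) (𝓝 0) := by
      refine squeeze_zero' (Eventually.of_forall fun t => by positivity) ?_ hreT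
      filter_upwards [hevI] with t ht
      exact hν2 t ht
    have hνn : Tendsto (fun t => ‖ν t‖) (𝓝[>] (0 : ℝ)) (𝓝 0) := by
      have h1 : Tendsto (fun t => Real.sqrt (‖ν t‖ ^ 2)) (𝓝[>] (0 : ℝ)) (𝓝 (Real.sqrt 0)) :=
        (Real.continuous_sqrt.tendsto 0).comp hνsq
      rw [Real.sqrt_zero] at h1
      refine h1.congr fun t => ?_
      exact Real.sqrt_sq (norm_nonneg _)
    have hν0 : Tendsto ν (𝓝[>] (0 : ℝ)) (𝓝 0) := tendsto_zero_iff_norm_tendsto_zero.2 hνn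
    have hE1 : Tendsto (fun t => exp (ν t)) (𝓝[>] (0 : ℝ)) (𝓝 1) := by
      have := (Complex.continuous_exp.tendsto 0).comp hν0
      rwa [Complex.exp_zero] at this
    have hE2 : Tendsto (fun t => exp (m t) * om (m t₂)) (𝓝[>] (0 : ℝ))
        (𝓝 (exp ((τ : ℂ) * I) * om (m t₂))) :=
      ((Complex.continuous_exp.tendsto _).comp hma).mul_const _
    have hE3 : Tendsto (fun t => exp (m t) * om (m t₂)) (𝓝[>] (0 : ℝ)) (𝓝 1) := by
      refine hE1.congr' ?_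
      filter_upwards [hevI] with t ht
      rw [hν1 t ht, hconst t ht t₂ ⟨ht₂0, le_rfl⟩]
    have h1 := tendsto_nhds_unique hE2 hE3
    rw [Complex.exp_neg]
    exact eq_inv_of_mul_eq_one_right h1
  have hI1 : t₂ ∈ Ioc (0 : ℝ) t₂ := ⟨ht₂0, le_rfl⟩
  have hvt := hseg t₂ (hin t₂ hI1)
  have hstart : P' (1 - t₂) ∈ L := by
    have h1 := hLin (m t₂) (hm t₂ (hin1 t₂ hI1)).1 (hre t₂ hI1) (hM t₂ hI1) hval
      (by rw [(hm t₂ (hin1 t₂ hI1)).2]; exact hPr _ hvt)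
    rwa [(hm t₂ (hin1 t₂ hI1)).2] at h1
  -- the whole component is in the limb
  intro v hv
  by_contra hvL
  obtain ⟨U, hU, hLU'⟩ := hLU
  have hconn : IsPreconnected (P' '' Metric.ball (0 : ℂ) 1) :=
    (convex_ball (0 : ℂ) 1).isPreconnected.image _ hP'.dP.continuousOn
  have hsub : P' '' Metric.ball (0 : ℂ) 1 ⊆ U ∪ (insert r L)ᶜ := by
    rintro _ ⟨x, hx, rfl⟩
    by_cases h : P' x ∈ L
    · rw [hLU'] at h
      exact Or.inl h.2
    · refine Or.inr fun h' => ?_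
      rcases h' with h' | h'
      · exact hPr x hx h'
      · exact h h'
  obtain ⟨y, ⟨x, hx, hxy⟩, hyU, hyL⟩ := hconn U (insert r L)ᶜ hU hLcl.isOpen_compl hsub
    ⟨_, ⟨_, hvt, rfl⟩, by rw [hLU'] at hstart; exact hstart.2⟩
    ⟨_, ⟨_, hv, rfl⟩, fun h' => by
      rcases h' with h' | h'
      · exact hPr v hv h'
      · exact hvL h'⟩
  apply hyL
  rw [← hxy] at hyU ⊢
  refine Or.inr ?_
  rw [hLU']
  exact ⟨hPM x hx, hyU⟩

end Pool.Agent.PSat
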