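import Pool.Agent.PSat.Targets2
import Pool.Agent.PSat.Basic
import Pool.Agent.Limb.LAND

/-!
# PSAT: one step of the construction (helper76)
-/

set_option autoImplicit false

open Complex Filter Topology Set
open Pool.Agent.Multibrot (MM)
open Pool.Agent.Limb (F)
open Pool.Agent.PLim (Rho NCn OMXn Piece IsLimb)
open Pool.Agent.MEX (Exa)
open Pool.Agent.MEY (Pt Omg DD Glob)

namespace Pool.Agent.PSat

namespace NXS_

lemma rot_norm (p q : ℕ) : ‖exp (2 * Real.pi * I * p / q)‖ = 1 := by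
  have h1 : (2 * Real.pi * I * p / q : ℂ) = ((2 * Real.pi * p / q : ℝ) : ℂ) * I := by
    push_cast; ring
  rw [h1, Complex.norm_exp_ofReal_mul_I]

/-- the fraction is determined by the multiplier -/
lemma rot_inj {p q p' q' : ℕ} (hpq : p < q) (hc : p.Coprime q)
    (hpq' : p' < q') (hc' : p'.Coprime q')
    (h : exp (2 * Real.pi * I * p / q) = exp (2 * Real.pi * I * p' / q')) :
    p = p' ∧ q = q' := by
  rw [Complex.exp_eq_exp_iff_exists_int] at h
  obtain ⟨n, hn⟩ := h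
  have hpi : (2 * Real.pi * I : ℂ) ≠ 0 := by
    simp [Real.pi_ne_zero]
  have hq : 0 < q := by omega
  have hq' : 0 < q' := by omega
  have hqC : (q : ℂ) ≠ 0 := by exact_mod_cast hq.ne'
  have hqC' : (q' : ℂ) ≠ 0 := by exact_mod_cast hq'.ne'
  have h1 : (p : ℂ) * q' = p' * q + n * (q * q') := by
    have h2 : (2 * Real.pi * I : ℂ) * (p / q) = (2 * Real.pi * I : ℂ) * (p' / q' + n) := by
      linear_combination hn
    have h3 := mul_left_cancel₀ hpi h2
    field_simp at h3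
    linear_combination h3
  have h2 : (p : ℤ) * q' = p' * q + n * (q * q') := by exact_mod_cast h1
  have h3 : (0 : ℤ) < q := by exact_mod_cast hq
  have h4 : (0 : ℤ) < q' := by exact_mod_cast hq'
  have h5 : (p : ℤ) < q := by exact_mod_cast hpq
  have h6 : (p' : ℤ) < q' := by exact_mod_cast hpq'
  have h7 : (0 : ℤ) ≤ p := Int.natCast_nonneg _
  have h8 : (0 : ℤ) ≤ p' := Int.natCast_nonneg _
  have hqq : (0 : ℤ) < q * q' := mul_pos h3 h4
  have hn0 : n = 0 := by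
    have h9 : (p : ℤ) * q' < q * q' := mul_lt_mul_of_pos_right h5 h4
    have h10 : (p' : ℤ) * q < q * q' := by
      rw [mul_comm (q : ℤ) q']
      exact mul_lt_mul_of_pos_right h6 h3
    have h11 : 0 ≤ (p : ℤ) * q' := mul_nonneg h7 h4.le
    have h12 : 0 ≤ (p' : ℤ) * q := mul_nonneg h8 h3.le
    have h13 : n < 1 := by
      by_contra hcon
      push Not at hcon
      have : (q : ℤ) * q' ≤ n * (q * q') := le_mul_of_one_le_left hqq.le hcon
      linarith
    have h14 : -1 < n := by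
      by_contra hcon
      push Not at hcon
      have : n * ((q : ℤ) * q') ≤ -1 * (q * q') := mul_le_mul_of_nonneg_right hcon hqq.le
      linarith
    omega
  rw [hn0, zero_mul, add_zero] at h2
  have h9 : p * q' = p' * q := by exact_mod_cast h2
  have h10 : q ∣ q' := by
    have h11 : q ∣ p * q' := ⟨p', by rw [h9]; ring⟩
    exact hc.symm.dvd_of_dvd_mul_left h11
  have h12 : q' ∣ q := by
    have h11 : q' ∣ p' * q := ⟨p, by rw [← h9]; ring⟩
    exact hc'.symm.dvd_of_dvd_mul_left h11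
  have h13 : q = q' := Nat.dvd_antisymm h10 h12
  refine ⟨?_, h13⟩
  rw [← h13] at h9
  exact Nat.eq_of_mul_eq_mul_right hq h9

lemma rot_ne_one {p q : ℕ} (hp : 0 < p) (hpq : p < q) : exp (2 * Real.pi * I * p / q) ≠ 1 := by
  intro h
  rw [Complex.exp_eq_one_iff] at h
  obtain ⟨j, hj⟩ := h
  have hq0 : (q : ℂ) ≠ 0 := by
    have : q ≠ 0 := by omega
    exact_mod_cast this
  have hpi : (2 * Real.pi * I : ℂ) ≠ 0 := by
    simp [Real.pi_ne_zero]
  have h2 : (p : ℂ) = j * q := by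
    have h3 : (2 * Real.pi * I : ℂ) * (p / q) = (2 * Real.pi * I : ℂ) * j := by
      rw [mul_comm _ (j : ℂ), ← hj]; ring
    have h4 := mul_left_cancel₀ hpi h3
    rw [← h4]
    field_simp
  have h5 : (p : ℤ) = j * q := by exact_mod_cast h2
  have h8 : (0 : ℤ) < p := by exact_mod_cast hp
  have h9 : (p : ℤ) < q := by exact_mod_cast hpq
  rcases le_or_gt j 0 with h | h
  · nlinarith
  · nlinarith

/-- the centre and another point of the component -/
lemma P_ne {K : ℕ} {P : ℂ → ℂ} (hP : Comp K P) : P 0 ≠ P (1 / 2) := by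
  intro h
  obtain ⟨z, hz⟩ := hP.pt 0 (by simp)
  obtain ⟨z', hz'⟩ := hP.pt (1 / 2) (by simp; norm_num)
  rw [← h] at hz'
  obtain ⟨j, hj⟩ := Pool.Agent.PLim.a_ATU 2 K K (P 0) z z' le_rfl hP.hK hP.hK hz.fix hz'.fix
    (by rw [hz.mul]; simp) (by rw [hz'.mul]; simp; norm_num)
  have h1 := rho_iter hz.fix j
  rw [hj, hz'.mul, hz.mul] at h1
  norm_num at h1

/-- a parameter of the component has no indifferent point of multiplier not one -/
lemma P_root {K : ℕ} {P : ℂ → ℂ} (hP : Comp K P) {r z u : ℂ} (hz : Pt 2 K r z u)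
    (hu : ‖u‖ = 1) (hu1 : u ≠ 1) {v : ℂ} (hv : v ∈ Metric.ball (0 : ℂ) 1) : P v ≠ r := by
  intro h
  obtain ⟨z', hz'⟩ := hP.pt v hv
  rw [h] at hz'
  rw [mem_ball_zero_iff] at hv
  obtain ⟨j, hj⟩ := Pool.Agent.PLim.a_ATN 2 K K r z' z le_rfl hP.hK hP.hK hz'.fix hz.fix
    (by rw [hz'.mul]; exact hv) (by rw [hz.mul, hu]) (by rw [hz.mul]; exact hu1)
  have h1 := rho_iter hz'.fix j
  rw [hj, hz'.mul, hz.mul] at h1
  rw [← h1, hu] at hv
  exact lt_irrefl _ hv

lemma P_conn {K : ℕ} {P : ℂ → ℂ} (hP : Comp K P) :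
    IsPreconnected (P '' Metric.ball (0 : ℂ) 1) :=
  (convex_ball (0 : ℂ) 1).isPreconnected.image P hP.dP.continuousOn

/-- the roots are in the closure of the component -/
lemma root_cl {P : ℂ → ℂ} {p q : ℕ} {r : ℂ} {A : Set ℂ} (h : Lmb P p q r A) :
    r ∈ closure (P '' Metric.ball (0 : ℂ) 1) := by
  have h1 : (exp (2 * Real.pi * I * p / q) : ℂ) ∈ closure (Metric.ball (0 : ℂ) 1) := by
    rw [closure_ball (0 : ℂ) one_ne_zero, mem_closedBall_zero_iff, rot_norm]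
  have : (𝓝[Metric.ball (0 : ℂ) 1] (exp (2 * Real.pi * I * p / q) : ℂ)).NeBot :=
    mem_closure_iff_nhdsWithin_neBot.1 h1
  refine mem_closure_of_tendsto h.lim ?_
  filter_upwards [self_mem_nhdsWithin] with v hv
  exact mem_image_of_mem _ hv

lemma zero_mem : (0 : ℂ) ∈ MM 2 :=
  Pool.Agent.Multibrot.disc_sub le_rfl
    (by rw [norm_zero]; exact Pool.Agent.Multibrot.r0_nonneg le_rfl)

end NXS_

open NXS_ in
theorem p_NXS (hLNS : T_LNS) (hFNL : T_FNL) : T_NXS := by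
  classical
  intro S K P r s A B hS hSinf hP hPs hA hPA
  obtain ⟨C1, hC1, hL⟩ := hLNS
  obtain ⟨C2, hC2, hF⟩ := hFNL
  obtain ⟨-, hF2⟩ := hF K P hP hPs
  have hK := hP.hK
  have hKR : (1 : ℝ) ≤ K := by exact_mod_cast hK
  have h01 : (0 : ℂ) ∈ Metric.ball (0 : ℂ) 1 := by simp
  have h12 : (1 / 2 : ℂ) ∈ Metric.ball (0 : ℂ) 1 := by simp; norm_num
  have hd : 0 < ‖P 0 - P (1 / 2)‖ / 2 := by
    have := norm_pos_iff.2 (sub_ne_zero.2 (P_ne hP))
    positivity
  obtain ⟨d, hdef⟩ : ∃ d : ℝ, d = ‖P 0 - P (1 / 2)‖ / 2 := ⟨_, rfl⟩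
  rw [← hdef] at hd
  obtain ⟨N, hN⟩ := exists_nat_gt
    (max (max (B * (K : ℝ) ^ 10) (C1 * (K : ℝ) ^ 10)) (C2 * (K : ℝ) ^ 10 / d))
  have hN1 : B * (K : ℝ) ^ 10 < N :=
    ((le_max_left _ _).trans (le_max_left _ _)).trans_lt hN
  have hN2 : C1 * (K : ℝ) ^ 10 < N :=
    ((le_max_right _ _).trans (le_max_left _ _)).trans_lt hN
  have hN3 : C2 * (K : ℝ) ^ 10 < d * N := by
    have h1 : C2 * (K : ℝ) ^ 10 / d < N := (le_max_right _ _).trans_lt hN
    rw [div_lt_iff₀ hd] at h1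
    linarith
  -- the pairs with large denominators
  obtain ⟨S', hS'⟩ : ∃ S' : Set (ℕ × ℕ), S' = {x | x ∈ S ∧ N ≤ x.2} := ⟨_, rfl⟩
  have hS'mem : ∀ x ∈ S', x ∈ S ∧ N ≤ x.2 := by
    intro x hx
    rw [hS'] at hx
    exact hx
  have hS'inf : S'.Infinite := by
    have h1 : {x | x ∈ S ∧ x.2 < N}.Finite := by
      refine ((Finset.range N ×ˢ Finset.range N).finite_toSet).subset ?_
      rintro x ⟨hx, hxN⟩
      have := (hS x hx).2.1
      simp only [Finset.coe_product, mem_prod, Finset.mem_coe, Finset.mem_range]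
      exact ⟨by omega, hxN⟩
    refine (hSinf.sdiff h1).mono ?_
    rintro x ⟨hx, hx'⟩
    rw [hS']
    refine ⟨hx, ?_⟩
    by_contra hcon
    exact hx' ⟨hx, not_le.1 hcon⟩
  have hex : ∀ x : ℕ × ℕ, x ∈ S' → ∃ (r' z0 : ℂ) (P' : ℂ → ℂ) (A' : Set ℂ),
      Pt 2 K r' z0 (exp (2 * Real.pi * I * x.1 / x.2)) ∧ Comp (K * x.2) P' ∧
      Sat (K * x.2) P' ∧ Lmb P x.1 x.2 r' A' ∧ ∀ v ∈ Metric.ball (0 : ℂ) 1, P' v ∈ A' := by
    intro x hx
    obtain ⟨hxS, hxN⟩ := hS'mem x hx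
    obtain ⟨hp, hpq, hcop⟩ := hS x hxS
    have hxN' : (N : ℝ) ≤ x.2 := by exact_mod_cast hxN
    obtain ⟨r', z0, P', A', h1, h2, h3, -, h4, h5⟩ := hL K P x.1 x.2 hP hPs hp hpq hcop
      (by linarith)
    exact ⟨r', z0, P', A', h1, h2, h3, h4, h5⟩
  choose! rr zz PP AA hpt hcomp hsat hlmb hmem using hex
  have hroot : ∀ x ∈ S', rr x ∈ MM 2 := fun x hx => (hF2 _ _ _ _ (hlmb x hx)).1
  -- the roots are not in the component
  have hrP : ∀ x ∈ S', ∀ v ∈ Metric.ball (0 : ℂ) 1, P v ≠ rr x := by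
    intro x hx v hv
    obtain ⟨hp, hpq, -⟩ := hS x (hS'mem x hx).1
    exact P_root hP (hpt x hx) (rot_norm _ _) (rot_ne_one hp hpq) hv
  have hPM : P '' Metric.ball (0 : ℂ) 1 ⊆ MM 2 := by
    rintro _ ⟨v, hv, rfl⟩
    exact hA.sub (hPA v hv)
  -- the component and the limbs are disjoint
  have hdisj : ∀ x ∈ S', ∀ v ∈ Metric.ball (0 : ℂ) 1, P v ∉ AA x := by
    intro x hx v hv hvA
    obtain ⟨U, hU, hAU⟩ := (hlmb x hx).op
    have hsub := Pool.Agent.PLim.NEST_.sub_of_meet hU hAU (hlmb x hx).cl (P_conn hP) hPM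
      (by
        rintro ⟨v', hv', h⟩
        exact hrP x hx v' hv' h) (mem_image_of_mem P hv) hvA
    have hb : ∀ c ∈ AA x, ‖c - rr x‖ < d := by
      intro c hc
      have h1 := (hF2 _ _ _ _ (hlmb x hx)).2 c hc
      have hxN' : (N : ℝ) ≤ x.2 := by exact_mod_cast (hS'mem x hx).2
      by_contra hcon
      push Not at hcon
      have h2 : d * N ≤ ‖c - rr x‖ * x.2 := by
        calc d * N ≤ ‖c - rr x‖ * N := mul_le_mul_of_nonneg_right hcon (Nat.cast_nonneg _)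
          _ ≤ ‖c - rr x‖ * x.2 := mul_le_mul_of_nonneg_left hxN' (norm_nonneg _)
      linarith
    have h1 := hb _ (hsub (mem_image_of_mem P h01))
    have h2 := hb _ (hsub (mem_image_of_mem P h12))
    have h3 : ‖P 0 - P (1 / 2)‖ ≤ ‖P 0 - rr x‖ + ‖P (1 / 2) - rr x‖ := by
      have e : P 0 - P (1 / 2) = (P 0 - rr x) - (P (1 / 2) - rr x) := by ring
      rw [e]
      exact norm_sub_le _ _
    have h4 : ‖P 0 - P (1 / 2)‖ = 2 * d := by rw [hdef]; ring
    linarith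
  -- no root is in a limb
  have hnot : ∀ x ∈ S', ∀ y ∈ S', rr y ∉ AA x := by
    intro x hx y hy hyA
    obtain ⟨U, hU, hAU⟩ := (hlmb x hx).op
    have h1 := root_cl (hlmb y hy)
    rw [hAU] at hyA
    obtain ⟨w, hwU, v, hv, rfl⟩ := mem_closure_iff.1 h1 U hU hyA.2
    apply hdisj x hx v hv
    rw [hAU]
    exact ⟨hPM (mem_image_of_mem P hv), hwU⟩
  -- limbs with different roots are disjoint
  have hdis2 : ∀ x ∈ S', ∀ y ∈ S', rr x ≠ rr y → ∀ c ∈ AA x, c ∉ AA y := by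
    intro x hx y hy hne c hcx hcy
    obtain ⟨U, hU, hAU⟩ := (hlmb y hy).op
    have hl := hlmb x hx
    have hconn : IsPreconnected (insert (rr x) (AA x)) :=
      Pool.Agent.PLim.a_CIK (MM 2) (AA x) (rr x) 0 (Pool.Agent.Multibrot.MM_closed 2)
        (Pool.Agent.Multibrot.MM_connected le_rfl) hl.sub (hroot x hx) hl.op hl.cl hl.nr
        zero_mem hl.n0
    have hsub := Pool.Agent.PLim.NEST_.sub_of_meet hU hAU (hlmb y hy).cl hconn
      (insert_subset (hroot x hx) hl.sub)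
      (by
        rintro (h | h)
        · exact hne h.symm
        · exact hnot x hx y hy h) (mem_insert_of_mem _ hcx) hcy
    exact hnot y hy x hx (hsub (mem_insert _ _))
  -- finite fibres
  have hfib : ∀ c : ℂ, {x | x ∈ S' ∧ rr x = c}.Finite := by
    intro c
    rcases Set.eq_empty_or_nonempty {x | x ∈ S' ∧ rr x = c} with h | ⟨x0, hx0, hx0c⟩
    · rw [h]
      exact Set.finite_empty
    have hcM : c ∈ MM 2 := by
      rw [← hx0c]
      exact hroot x0 hx0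
    have hfin : {z : ℂ | (F 2 c)^[K] z = z}.Finite :=
      Pool.Agent.Limb.LAND_.finite_fix le_rfl hcM hK
    refine Set.Finite.of_injOn (f := fun x : ℕ × ℕ => exp (2 * Real.pi * I * x.1 / x.2))
      (t := (fun z => Rho 2 K c z) '' {z : ℂ | (F 2 c)^[K] z = z}) ?_ ?_ (hfin.image _)
    · rintro x ⟨hx, hxc⟩
      have h1 := hpt x hx
      rw [hxc] at h1
      exact ⟨zz x, h1.fix, h1.mul⟩
    · rintro x ⟨hx, -⟩ y ⟨hy, -⟩ hxy
      obtain ⟨-, hpq, hcop⟩ := hS x (hS'mem x hx).1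
      obtain ⟨-, hpq', hcop'⟩ := hS y (hS'mem y hy).1
      obtain ⟨h1, h2⟩ := rot_inj hpq hcop hpq' hcop' hxy
      exact Prod.ext h1 h2
  have hchoose : ∀ T : Set ℂ, T.Finite → ∃ x ∈ S', rr x ∉ T := by
    intro T hT
    by_contra hcon
    push Not at hcon
    exact hS'inf ((hT.biUnion fun c _ => hfib c).subset
      fun x hx => mem_biUnion (hcon x hx) ⟨hx, rfl⟩)
  obtain ⟨x1, hx1, hx1T⟩ := hchoose {r, s} (by simp)
  obtain ⟨x2, hx2, hx2T⟩ := hchoose {r, s, rr x1} (by simp)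
  simp only [mem_insert_iff, mem_singleton_iff, not_or] at hx1T hx2T
  -- one of the two limbs does not contain `s`
  have hx : ∃ x ∈ S', rr x ≠ r ∧ rr x ≠ s ∧ s ∉ AA x := by
    by_cases h : s ∈ AA x1
    · exact ⟨x2, hx2, hx2T.1, hx2T.2.1,
        hdis2 x1 hx1 x2 hx2 (fun h' => hx2T.2.2 h'.symm) s h⟩
    · exact ⟨x1, hx1, hx1T.1, hx1T.2, h⟩
  obtain ⟨x, hx, hxr, hxs, hsA⟩ := hx
  have hl := hlmb x hx
  obtain ⟨hxS, hxN⟩ := hS'mem x hx
  have hxN' : (N : ℝ) ≤ x.2 := by exact_mod_cast hxN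
  have hlimb : IsLimb 2 K x.1 x.2 (rr x) (zz x) (AA x) :=
    ⟨hK, hl.hp, hl.hpq, hl.cop, (hpt x hx).fix, (hpt x hx).mul, hl.sub, hl.op, hl.cl, hl.nr, hl.n0⟩
  have hrA : rr x ∈ A := by
    have h1 : rr x ∈ closure (P '' Metric.ball (0 : ℂ) 1) := root_cl hl
    have h2 : closure (P '' Metric.ball (0 : ℂ) 1) ⊆ insert r A := by
      refine closure_minimal ?_ hA.cl
      rintro _ ⟨v, hv, rfl⟩
      exact mem_insert_of_mem _ (hPA v hv)
    rcases h2 h1 with h | h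
    · exact absurd h hxr
    · exact h
  refine ⟨x.1, x.2, rr x, PP x, AA x, hxS, by linarith, hl,
    Pool.Agent.PLim.UNC_.limb_piece hlimb, ?_, hrA, ?_, hcomp x hx, hsat x hx, hmem x hx⟩
  · exact Pool.Agent.PLim.a_NEST 2 K x.1 x.2 r (rr x) (zz x) A (AA x) le_rfl hA hlimb hrA hxr
  · rintro (h | h)
    · exact hxs h.symm
    · exact hsA h

end Pool.Agent.PSat
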