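import Pool.Agent.PSat.Targets2
import Pool.Agent.PSat.Basic
import Pool.Agent.MEY.DDO
import Pool.Agent.MEY.OMG

/-!
# SEX: existence of the satellite components
-/

set_option autoImplicit false

open Complex Filter Topology Set
open Pool.Agent.Multibrot (MM)
open Pool.Agent.Limb (F)
open Pool.Agent.PLim (Rho)
open Pool.Agent.MEX (Exa)
open Pool.Agent.MEY (Pt Omg DD Glob)

namespace Pool.Agent.PSat

namespace SEX_

/-- the modulus decreases along the real direction -/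
lemma small {L : ℂ → ℂ} {a : ℂ} {D : ℝ} (hD : 1 ≤ D) (hL : HasDerivAt L (-(D : ℂ)) a)
    (h1 : L a = 1) {δ : ℝ} (hδ : 0 < δ) : ∃ s : ℝ, 0 < s ∧ s < δ ∧ ‖L (a + s)‖ < 1 := by
  rw [hasDerivAt_iff_isLittleO] at hL
  have h2 := hL.def (c := 1 / 2) (by norm_num)
  obtain ⟨δ1, hδ1, h3⟩ := Metric.eventually_nhds_iff_ball.mp h2
  have hD0 : 0 < D := by linarith
  obtain ⟨s, hs⟩ : ∃ s : ℝ, s = min (min δ δ1) (1 / D) / 2 := ⟨_, rfl⟩
  have hm : 0 < min (min δ δ1) (1 / D) := lt_min (lt_min hδ hδ1) (by positivity)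
  have hs0 : 0 < s := by rw [hs]; linarith
  have hsδ : s < δ := by
    have := (min_le_left (min δ δ1) (1 / D)).trans (min_le_left _ _)
    rw [hs]; linarith
  have hsδ1 : s < δ1 := by
    have := (min_le_left (min δ δ1) (1 / D)).trans (min_le_right _ _)
    rw [hs]; linarith
  have hsD : D * s ≤ 1 := by
    have h4 := min_le_right (min δ δ1) (1 / D)
    have h5 : s ≤ 1 / D := by rw [hs]; linarith
    calc D * s ≤ D * (1 / D) := mul_le_mul_of_nonneg_left h5 hD0.le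
      _ = 1 := by field_simp
  refine ⟨s, hs0, hsδ, ?_⟩
  have h6 := h3 (a + s) (by
    rw [Metric.mem_ball, dist_eq_norm, add_sub_cancel_left, Complex.norm_real, Real.norm_eq_abs,
      abs_of_pos hs0]
    exact hsδ1)
  rw [h1, add_sub_cancel_left, Complex.norm_real, Real.norm_eq_abs, abs_of_pos hs0,
    smul_eq_mul] at h6
  have h7 : L (a + s) = (L (a + s) - 1 - (s : ℂ) * -(D : ℂ)) + ((1 - D * s : ℝ) : ℂ) := by
    push_cast
    ring
  have h8 : ‖((1 - D * s : ℝ) : ℂ)‖ = 1 - D * s := by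
    rw [Complex.norm_real, Real.norm_eq_abs, abs_of_nonneg (by linarith)]
  calc ‖L (a + s)‖ ≤ ‖L (a + s) - 1 - (s : ℂ) * -(D : ℂ)‖ + ‖((1 - D * s : ℝ) : ℂ)‖ := by
        conv_lhs => rw [h7]
        exact norm_add_le _ _
    _ ≤ 1 / 2 * s + (1 - D * s) := by
        rw [h8]
        linarith
    _ < 1 := by nlinarith

end SEX_

theorem p_SEX (hCST : T_CST) (hMKD : T_MKD) (hNRM : T_NRM) (hLBC : T_LBC) (hNR0 : T_NR0)
    (hCLR : T_CLR) : T_SEX := by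
  intro k p q r0 z0 hk hp hpq hcop hpt
  obtain ⟨C, hC, hcst⟩ := hCST
  obtain ⟨X, hXC, hXk, hXp, hXq, -, hψ, hχ, hD⟩ := hMKD C k p q r0 z0 hC hcst hk hp hpq hcop hpt
  obtain ⟨Y, rfl, hY⟩ := hNRM X hD (by rw [hXC]; exact hcst)
  subst hXk hXq
  obtain ⟨R, r, g, L, -, -, hB⟩ := hLBC Y.toCtx hD 1 one_pos
  obtain ⟨δ0, hδ0, hn⟩ := hNR0 Y hY R r g L hB
  obtain ⟨δs, hδs, hsurj⟩ := hB.surj
  have hLd : HasDerivAt L (-(((Y.q : ℝ) ^ 2 : ℝ) : ℂ)) Y.m0 := by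
    have h1 := (hB.dL.differentiableAt (Metric.ball_mem_nhds _ hB.hR)).hasDerivAt
    rw [hB.L1] at h1
    push_cast
    exact h1
  have hq2 : (1 : ℝ) ≤ (Y.q : ℝ) ^ 2 := by
    have h2 : (1 : ℝ) ≤ Y.q := by
      have := hD.hq
      exact_mod_cast (by omega : 1 ≤ Y.q)
    exact one_le_pow₀ h2
  obtain ⟨s, hs0, hsδ, hs1⟩ := SEX_.small hq2 hLd hB.L0 (lt_min hδ0 hδs)
  obtain ⟨μ, hμ⟩ : ∃ μ : ℂ, μ = Y.m0 + s := ⟨_, rfl⟩
  rw [← hμ] at hs1
  have hne : μ ≠ Y.m0 := by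
    intro h
    rw [hμ] at h
    have h2 : (s : ℂ) = 0 := by
      have := add_eq_left.mp h
      exact this
    exact hs0.ne' (by exact_mod_cast h2)
  have hnorm : ‖μ - Y.m0‖ = s := by
    rw [hμ, add_sub_cancel_left, Complex.norm_real, Real.norm_eq_abs, abs_of_pos hs0]
  obtain ⟨z', hz', hz0', hg⟩ := hsurj μ hne (by
    rw [hnorm]; exact lt_of_lt_of_le hsδ (min_le_right _ _))
  have hp' := hB.pt z' hz' hz0'
  rw [hg] at hp'
  have hSb : Sb Y μ z' := (hn μ z' hne (by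
    rw [hnorm]; exact lt_of_lt_of_le hsδ (min_le_left _ _)) hp'.fix).mpr
      ⟨z', hz', hz0', hg, 0, rfl⟩
  have hrh : ‖Y.rh μ z'‖ < 1 := by
    have h1 : Y.rh μ z' = L μ := hp'.mul
    rw [h1]
    exact hs1
  have hMM : Y.ψ μ ∈ MM 2 := mm_of_le hD.hK1 hD.bot hp'.fix hrh.le
  obtain ⟨-, -, h1 | h1 | h1 | h1⟩ := hSb
  · exact absurd hMM h1.1
  · exact absurd hrh (not_lt.mpr h1.2.2.1.le)
  · exact absurd hrh (not_lt.mpr h1.2.2.1.le)
  obtain ⟨c0, Ψ, Z, hG, -, -, -, hH⟩ := h1.2.2.2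
  have hκ : 0 < Y.kp := by
    have h2 := hD.hC
    have h3 : (0 : ℝ) < Y.K := by
      have := hD.hK1
      exact_mod_cast this
    unfold Ctx.kp
    positivity
  obtain ⟨-, -, hDb, -⟩ := Pool.Agent.MEY.p_DDO Pool.Agent.MEY.p_OMG 2 1 Y.kp le_rfl hκ
  refine ⟨Ψ, ⟨hD.hK1, hG.dΨ.mono hDb, fun v hv => ⟨Z v, ?_⟩⟩, ?_⟩
  · have h2 := hG.pt v (hDb hv)
    simpa using h2
  · rw [← hψ, Metric.tendsto_nhdsWithin_nhds]
    intro ε hε
    obtain ⟨e, he, hψc⟩ := Metric.continuousAt_iff.mp (hD.psi_cont (hD.sub2 hD.mem0)) ε hε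
    obtain ⟨δ, hδ, h2⟩ := hCLR Y hY R r g L hB c0 Ψ Z hG hH e he
    refine ⟨δ, hδ, fun w hw hwd => ?_⟩
    rw [mem_ball_zero_iff] at hw
    rw [dist_eq_norm] at hwd
    obtain ⟨μ', -, h3, h4, -⟩ := h2 w hwd hw.le (by
      rintro rfl
      rw [norm_one] at hw
      exact lt_irrefl _ hw)
    rw [h4]
    exact hψc (by rw [dist_eq_norm]; exact h3)

end Pool.Agent.PSat
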