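import Pool.Agent.PSat.Targets2
import Pool.Agent.PLim.UNC
import Pool.Agent.PLim.All

/-!
# PSAT: target T_UNS (uncountably many parameters near every boundary point)
-/

set_option autoImplicit false

open Complex Filter Topology Set
open Pool.Agent.Multibrot (MM MM_bound)
open Pool.Agent.Limb (F)
open Pool.Agent.PLim (Rho Piece IsLimb T_LIMB)
open Pool.Agent.MEY (Pt)

namespace Pool.Agent.PSat

namespace UNS_

/-- The states of the construction: period, root, component, limb. -/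
def St (x : ℕ × ℂ × (ℂ → ℂ) × Set ℂ) : Prop :=
  Comp x.1 x.2.2.1 ∧ Sat x.1 x.2.2.1 ∧ Piece 2 x.2.1 x.2.2.2 ∧
    ∀ v ∈ Metric.ball (0 : ℂ) 1, x.2.2.1 v ∈ x.2.2.2

/-- The relation between consecutive states; `w` is a point to be avoided. -/
def Rl (S : Set (ℕ × ℕ)) (m : ℕ) (w : ℂ) (x y : ℕ × ℂ × (ℂ → ℂ) × Set ℂ) : Prop :=
  y.2.2.2 ⊆ x.2.2.2 ∧ y.2.1 ∈ x.2.2.2 ∧ w ∉ insert y.2.1 y.2.2.2 ∧
    ∃ p q : ℕ, (p, q) ∈ S ∧ (m : ℝ) * (x.1 : ℝ) ^ 10 ≤ q ∧ Lmb x.2.2.1 p q y.2.1 y.2.2.2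

lemma step (hNXS : T_NXS) {S : Set (ℕ × ℕ)}
    (hS : ∀ x ∈ S, 0 < x.1 ∧ x.1 < x.2 ∧ x.1.Coprime x.2) (hSi : S.Infinite) (m : ℕ) (w : ℂ)
    (x : ℕ × ℂ × (ℂ → ℂ) × Set ℂ) (hx : St x) :
    ∃ y : ℕ × ℂ × (ℂ → ℂ) × Set ℂ, St y ∧ Rl S m w x y := by
  obtain ⟨hC, hSt, hP, hv⟩ := hx
  obtain ⟨p, q, r', P', A', hpq, hB, hL, hPi, hsub, hmem, hs, hC', hS', hv'⟩ :=
    hNXS S x.1 x.2.2.1 x.2.1 w x.2.2.2 (m : ℝ) hS hSi hC hSt hP hv
  exact ⟨(x.1 * q, r', P', A'), ⟨hC', hS', hPi, hv'⟩, hsub, hmem, hs, p, q, hpq, hB, hL⟩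

lemma base (hLNF : T_LNF) (hSEX : T_SEX) (hDNE : T_DNE) (hLIMB : T_LIMB) {c0 : ℂ}
    (hc0 : c0 ∈ frontier (MM 2)) {N : Set ℂ} (hN : N ∈ 𝓝 c0) :
    ∃ x : ℕ × ℂ × (ℂ → ℂ) × Set ℂ, St x ∧ x.2.1 ∈ MM 2 ∧ insert x.2.1 x.2.2.2 ⊆ N := by
  obtain ⟨ε', hε', hball⟩ := Metric.mem_nhds_iff.mp hN
  obtain ⟨C, hC, hlimb⟩ := hLIMB 2 le_rfl
  obtain ⟨B1, hB1, hlnf⟩ := hLNF
  have hε : 0 < ε' / 2 := by positivity
  obtain ⟨k, p, q, r, z0, hk, hp, hpq, hcop, hpt, hr, hmin⟩ :=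
    hDNE c0 (ε' / 2) (B1 + C / (ε' / 2)) hc0 hε
  have hq0 : (0 : ℝ) < q := by
    have : 0 < q := by omega
    exact_mod_cast this
  have hk0 : (0 : ℝ) < k := by exact_mod_cast hk
  have hkq : 0 < (k : ℝ) ^ 2 * q := by positivity
  have hCε : 0 < C / (ε' / 2) := by positivity
  have h1 : B1 * k ^ 2 * q < ((min p (q - p) : ℕ) : ℝ) ^ 2 := by
    refine lt_of_le_of_lt ?_ hmin
    nlinarith
  have h2 : C / (ε' / 2) * (k ^ 2 * q) < ((min p (q - p) : ℕ) : ℝ) ^ 2 := by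
    refine lt_of_le_of_lt ?_ hmin
    nlinarith
  obtain ⟨P, hP, hPt⟩ := hSEX k p q r z0 hk hp hpq hcop hpt
  obtain ⟨A, hL, hv⟩ := hlnf k p q r z0 P hk hp hpq hcop hpt.fix hpt.mul h1 hP hPt
  obtain ⟨hrM, hA⟩ := hlimb k p q r z0 A hk hp hpq hcop hpt.fix hpt.mul hL.sub hL.op hL.cl
    hL.nr hL.n0
  refine ⟨(k * q, r, P, A), ⟨hP, ⟨k, p, q, r, z0, rfl, hp, hpq, hcop, hPt, hpt⟩,
    Pool.Agent.PLim.UNC_.limb_piece hL, hv⟩, hrM, ?_⟩
  have hbig : insert r A ⊆ Metric.ball c0 ε' := by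
    intro x hx
    rw [Metric.mem_ball, dist_eq_norm]
    rcases hx with h | h
    · rw [h]
      linarith
    · have h3 := hA x h
      have h4 : ‖x - r‖ < ε' / 2 := by
        by_contra h5
        push Not at h5
        have h6 : C * k ^ 2 * q < ε' / 2 * ((min p (q - p) : ℕ) : ℝ) ^ 2 := by
          have h7 := mul_lt_mul_of_pos_left h2 hε
          have h8 : ε' / 2 * (C / (ε' / 2) * (k ^ 2 * q)) = C * k ^ 2 * q := by
            field_simp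
          rw [h8] at h7
          exact h7
        have h9 : ε' / 2 * ((min p (q - p) : ℕ) : ℝ) ^ 2 ≤
            ‖x - r‖ * ((min p (q - p) : ℕ) : ℝ) ^ 2 :=
          mul_le_mul_of_nonneg_right h5 (by positivity)
        linarith
      calc ‖x - c0‖ = ‖(x - r) + (r - c0)‖ := by ring_nf
        _ ≤ ‖x - r‖ + ‖r - c0‖ := norm_add_le _ _
        _ < ε' := by linarith
  exact hbig.trans hball

end UNS_

open UNS_ in
theorem p_UNS (hNXS : T_NXS) (hLNF : T_LNF) (hSEX : T_SEX) (hDNE : T_DNE) : T_UNS := by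
  intro S c0 N hS hSi hc0 hN hcount
  obtain ⟨s, hs⟩ := Set.countable_iff_exists_subset_range.mp hcount
  obtain ⟨x0, hP0, hx0M, hx0N⟩ := UNS_.base hLNF hSEX hDNE Pool.Agent.PLim.a_LIMB hc0 hN
  have hst := fun m => UNS_.step hNXS hS hSi m (s m)
  choose g hg using hst
  let f : ℕ → {x : ℕ × ℂ × (ℂ → ℂ) × Set ℂ // UNS_.St x} := fun m =>
    Nat.rec ⟨x0, hP0⟩ (fun m x => ⟨g m x.1 x.2, (hg m x.1 x.2).1⟩) m
  have hf : ∀ m, UNS_.Rl S m (s m) (f m).1 (f (m + 1)).1 := fun m => (hg m (f m).1 (f m).2).2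
  have hf0 : (f 0).1 = x0 := rfl
  set K : ℕ → Set ℂ := fun m => insert (f m).1.2.1 (f m).1.2.2.2 with hK
  have hKs : ∀ m, K (m + 1) ⊆ (f m).1.2.2.2 := by
    intro m x hx
    rcases hx with h | h
    · rw [h]; exact (hf m).2.1
    · exact (hf m).1 h
  have hKd : ∀ m, K (m + 1) ⊆ K m := fun m => (hKs m).trans (subset_insert _ _)
  have hKc : ∀ m, IsClosed (K m) := fun m => (f m).2.2.2.1.cl
  have hK0 : IsCompact (K 0) := by
    refine Metric.isCompact_of_isClosed_isBounded (hKc 0) ?_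
    refine (Metric.isBounded_closedBall (x := (0 : ℂ)) (r := 1 + 2 / (2 : ℕ))).subset ?_
    intro x hx
    rw [mem_closedBall_zero_iff]
    rcases hx with h | h
    · rw [h]; exact MM_bound le_rfl hx0M
    · exact MM_bound le_rfl (hP0.2.2.1.sub h)
  obtain ⟨c, hc⟩ := IsCompact.nonempty_iInter_of_sequence_nonempty_isCompact_isClosed K hKd
    (fun m => ⟨_, mem_insert _ _⟩) hK0 hKc
  have hcA : ∀ m, c ∈ (f m).1.2.2.2 := fun m => hKs m (mem_iInter.mp hc (m + 1))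
  have hcX : c ∈ N ∩ {c : ℂ | DeepS S c} := by
    refine ⟨hx0N (mem_insert_of_mem _ (hcA 0)), ?_⟩
    intro B
    obtain ⟨m, hm⟩ := exists_nat_ge B
    obtain ⟨-, -, -, p, q, hpq, hB, hL⟩ := hf m
    refine ⟨(f m).1.1, (f m).1.2.2.1, p, q, (f (m + 1)).1.2.1, (f (m + 1)).1.2.2.2,
      (f m).2.1, (f m).2.2.1, hL, hcA (m + 1), ?_, hpq⟩
    refine le_trans ?_ hB
    exact mul_le_mul_of_nonneg_right hm (by positivity)
  obtain ⟨m, hm⟩ := hs hcX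
  have h1 := (hf m).2.2.1
  rw [hm] at h1
  exact h1 (mem_insert_of_mem _ (hcA (m + 1)))

end Pool.Agent.PSat
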