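import Pool.Agent.PSat.All
import Pool.Agent.PSat.SEX
import Pool.Agent.PSat.CMG
import Pool.Agent.PSat.LNW
import Pool.Agent.PSat.LNF
import Pool.Agent.PSat.LNS
import Pool.Agent.PSat.NXS
import Pool.Agent.PSat.DNE
import Pool.Agent.PSat.UNS

/-!
# PSAT: all targets of the second part
-/

set_option autoImplicit false

namespace Pool.Agent.PSat

theorem a_SEX : T_SEX := p_SEX a_CST a_MKD a_NRM a_LBC a_NR0 a_CLR
theorem a_CMG : T_CMG := p_CMG a_GD1 a_GBF a_GNB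
theorem a_LNW : T_LNW := p_LNW
theorem a_LNF : T_LNF := p_LNF a_LNW a_CST
theorem a_LNS : T_LNS := p_LNS a_SER a_CST a_KBD a_CMG a_SEX a_LNW a_LNF
theorem a_NXS : T_NXS := p_NXS a_LNS a_FNL
theorem a_DNE : T_DNE := p_DNE
theorem a_UNS : T_UNS := p_UNS a_NXS a_LNF a_SEX a_DNE

end Pool.Agent.PSat
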