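import Pool.Agent.PSat.TWR
import Pool.Agent.PSat.UNS

/-!
# PSAT, third part: uncountably many towers near every boundary point
-/

set_option autoImplicit false

open Complex Filter Topology Set
open Pool.Agent.Multibrot (MM MM_bound)
open Pool.Agent.Limb (F)
open Pool.Agent.PLim (Rho NCn OMXn Piece IsLimb T_LIMB)
open Pool.Agent.MEX (Exa)
open Pool.Agent.MEY (Pt Omg DD Glob)

namespace Pool.Agent.PSat

open NXS_ in
theorem p_NX2 (hLNS : T_LNS) (hFNL : T_FNL) : T_NX2 := by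
  classical
  intro S K P r s A B hS hSinf hP hPs hA hPA
  obtain ⟨C1, hC1, hL⟩ := hLNS
  obtain ⟨C2, hC2, hF⟩ := hFNL
  obtain ⟨-, hF2⟩ := hF K P hP hPs
  have hK := hP.hK
  have hKR : (1 : ℝ) ≤ K := by exact_mod_cast hK
  have h01 : (0 : ℂ) ∈ Metric.ball (0 : ℂ) 1 := by simp
  have h12 : (1 / 2 : ℂ) ∈ Metric.ball (0 : ℂ) 1 := by simp; norm_num
  have hd : 0 < ‖P 0 - P (1 / 2)‖ / 2 := by
    have := norm_pos_iff.2 (sub_ne_zero.2 (P_ne hP))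
    positivity
  obtain ⟨d, hdef⟩ : ∃ d : ℝ, d = ‖P 0 - P (1 / 2)‖ / 2 := ⟨_, rfl⟩
  rw [← hdef] at hd
  obtain ⟨N, hN⟩ := exists_nat_gt
    (max (max (B * (K : ℝ) ^ 10) (C1 * (K : ℝ) ^ 10)) (C2 * (K : ℝ) ^ 10 / d))
  have hN1 : B * (K : ℝ) ^ 10 < N :=
    ((le_max_left _ _).trans (le_max_left _ _)).trans_lt hN
  have hN2 : C1 * (K : ℝ) ^ 10 < N :=
    ((le_max_right _ _).trans (le_max_left _ _)).trans_lt hN
  have hN3 : C2 * (K : ℝ) ^ 10 < d * N := by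
    have h1 : C2 * (K : ℝ) ^ 10 / d < N := (le_max_right _ _).trans_lt hN
    rw [div_lt_iff₀ hd] at h1
    linarith
  -- the pairs with large denominators
  obtain ⟨S', hS'⟩ : ∃ S' : Set (ℕ × ℕ), S' = {x | x ∈ S ∧ N ≤ x.2} := ⟨_, rfl⟩
  have hS'mem : ∀ x ∈ S', x ∈ S ∧ N ≤ x.2 := by
    intro x hx
    rw [hS'] at hx
    exact hx
  have hS'inf : S'.Infinite := by
    have h1 : {x | x ∈ S ∧ x.2 < N}.Finite := by
      refine ((Finset.range N ×ˢ Finset.range N).finite_toSet).subset ?_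
      rintro x ⟨hx, hxN⟩
      have := (hS x hx).2.1
      simp only [Finset.coe_product, mem_prod, Finset.mem_coe, Finset.mem_range]
      exact ⟨by omega, hxN⟩
    refine (hSinf.sdiff h1).mono ?_
    rintro x ⟨hx, hx'⟩
    rw [hS']
    refine ⟨hx, ?_⟩
    by_contra hcon
    exact hx' ⟨hx, not_le.1 hcon⟩
  have hex : ∀ x : ℕ × ℕ, x ∈ S' → ∃ (r' z0 : ℂ) (P' : ℂ → ℂ) (A' : Set ℂ),
      Pt 2 K r' z0 (exp (2 * Real.pi * I * x.1 / x.2)) ∧ Comp (K * x.2) P' ∧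
      Sat (K * x.2) P' ∧ Tendsto P' (𝓝[Metric.ball 0 1] 1) (𝓝 r') ∧ Lmb P x.1 x.2 r' A' ∧
      ∀ v ∈ Metric.ball (0 : ℂ) 1, P' v ∈ A' := by
    intro x hx
    obtain ⟨hxS, hxN⟩ := hS'mem x hx
    obtain ⟨hp, hpq, hcop⟩ := hS x hxS
    have hxN' : (N : ℝ) ≤ x.2 := by exact_mod_cast hxN
    obtain ⟨r', z0, P', A', h1, h2, h3, h6, h4, h5⟩ := hL K P x.1 x.2 hP hPs hp hpq hcop
      (by linarith)
    exact ⟨r', z0, P', A', h1, h2, h3, h6, h4, h5⟩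
  choose! rr zz PP AA hpt hcomp hsat hatt hlmb hmem using hex
  have hroot : ∀ x ∈ S', rr x ∈ MM 2 := fun x hx => (hF2 _ _ _ _ (hlmb x hx)).1
  -- the roots are not in the component
  have hrP : ∀ x ∈ S', ∀ v ∈ Metric.ball (0 : ℂ) 1, P v ≠ rr x := by
    intro x hx v hv
    obtain ⟨hp, hpq, -⟩ := hS x (hS'mem x hx).1
    exact P_root hP (hpt x hx) (rot_norm _ _) (rot_ne_one hp hpq) hv
  have hPM : P '' Metric.ball (0 : ℂ) 1 ⊆ MM 2 := by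
    rintro _ ⟨v, hv, rfl⟩
    exact hA.sub (hPA v hv)
  -- the component and the limbs are disjoint
  have hdisj : ∀ x ∈ S', ∀ v ∈ Metric.ball (0 : ℂ) 1, P v ∉ AA x := by
    intro x hx v hv hvA
    obtain ⟨U, hU, hAU⟩ := (hlmb x hx).op
    have hsub := Pool.Agent.PLim.NEST_.sub_of_meet hU hAU (hlmb x hx).cl (P_conn hP) hPM
      (by
        rintro ⟨v', hv', h⟩
        exact hrP x hx v' hv' h) (mem_image_of_mem P hv) hvA
    have hb : ∀ c ∈ AA x, ‖c - rr x‖ < d := by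
      intro c hc
      have h1 := (hF2 _ _ _ _ (hlmb x hx)).2 c hc
      have hxN' : (N : ℝ) ≤ x.2 := by exact_mod_cast (hS'mem x hx).2
      by_contra hcon
      push Not at hcon
      have h2 : d * N ≤ ‖c - rr x‖ * x.2 := by
        calc d * N ≤ ‖c - rr x‖ * N := mul_le_mul_of_nonneg_right hcon (Nat.cast_nonneg _)
          _ ≤ ‖c - rr x‖ * x.2 := mul_le_mul_of_nonneg_left hxN' (norm_nonneg _)
      linarith
    have h1 := hb _ (hsub (mem_image_of_mem P h01))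
    have h2 := hb _ (hsub (mem_image_of_mem P h12))
    have h3 : ‖P 0 - P (1 / 2)‖ ≤ ‖P 0 - rr x‖ + ‖P (1 / 2) - rr x‖ := by
      have e : P 0 - P (1 / 2) = (P 0 - rr x) - (P (1 / 2) - rr x) := by ring
      rw [e]
      exact norm_sub_le _ _
    have h4 : ‖P 0 - P (1 / 2)‖ = 2 * d := by rw [hdef]; ring
    linarith
  -- no root is in a limb
  have hnot : ∀ x ∈ S', ∀ y ∈ S', rr y ∉ AA x := by
    intro x hx y hy hyA
    obtain ⟨U, hU, hAU⟩ := (hlmb x hx).op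
    have h1 := root_cl (hlmb y hy)
    rw [hAU] at hyA
    obtain ⟨w, hwU, v, hv, rfl⟩ := mem_closure_iff.1 h1 U hU hyA.2
    apply hdisj x hx v hv
    rw [hAU]
    exact ⟨hPM (mem_image_of_mem P hv), hwU⟩
  -- limbs with different roots are disjoint
  have hdis2 : ∀ x ∈ S', ∀ y ∈ S', rr x ≠ rr y → ∀ c ∈ AA x, c ∉ AA y := by
    intro x hx y hy hne c hcx hcy
    obtain ⟨U, hU, hAU⟩ := (hlmb y hy).op
    have hl := hlmb x hx
    have hconn : IsPreconnected (insert (rr x) (AA x)) :=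
      Pool.Agent.PLim.a_CIK (MM 2) (AA x) (rr x) 0 (Pool.Agent.Multibrot.MM_closed 2)
        (Pool.Agent.Multibrot.MM_connected le_rfl) hl.sub (hroot x hx) hl.op hl.cl hl.nr
        zero_mem hl.n0
    have hsub := Pool.Agent.PLim.NEST_.sub_of_meet hU hAU (hlmb y hy).cl hconn
      (insert_subset (hroot x hx) hl.sub)
      (by
        rintro (h | h)
        · exact hne h.symm
        · exact hnot x hx y hy h) (mem_insert_of_mem _ hcx) hcy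
    exact hnot y hy x hx (hsub (mem_insert _ _))
  -- finite fibres
  have hfib : ∀ c : ℂ, {x | x ∈ S' ∧ rr x = c}.Finite := by
    intro c
    rcases Set.eq_empty_or_nonempty {x | x ∈ S' ∧ rr x = c} with h | ⟨x0, hx0, hx0c⟩
    · rw [h]
      exact Set.finite_empty
    have hcM : c ∈ MM 2 := by
      rw [← hx0c]
      exact hroot x0 hx0
    have hfin : {z : ℂ | (F 2 c)^[K] z = z}.Finite :=
      Pool.Agent.Limb.LAND_.finite_fix le_rfl hcM hK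
    refine Set.Finite.of_injOn (f := fun x : ℕ × ℕ => exp (2 * Real.pi * I * x.1 / x.2))
      (t := (fun z => Rho 2 K c z) '' {z : ℂ | (F 2 c)^[K] z = z}) ?_ ?_ (hfin.image _)
    · rintro x ⟨hx, hxc⟩
      have h1 := hpt x hx
      rw [hxc] at h1
      exact ⟨zz x, h1.fix, h1.mul⟩
    · rintro x ⟨hx, -⟩ y ⟨hy, -⟩ hxy
      obtain ⟨-, hpq, hcop⟩ := hS x (hS'mem x hx).1
      obtain ⟨-, hpq', hcop'⟩ := hS y (hS'mem y hy).1
      obtain ⟨h1, h2⟩ := rot_inj hpq hcop hpq' hcop' hxy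
      exact Prod.ext h1 h2
  have hchoose : ∀ T : Set ℂ, T.Finite → ∃ x ∈ S', rr x ∉ T := by
    intro T hT
    by_contra hcon
    push Not at hcon
    exact hS'inf ((hT.biUnion fun c _ => hfib c).subset
      fun x hx => mem_biUnion (hcon x hx) ⟨hx, rfl⟩)
  obtain ⟨x1, hx1, hx1T⟩ := hchoose {r, s} (by simp)
  obtain ⟨x2, hx2, hx2T⟩ := hchoose {r, s, rr x1} (by simp)
  simp only [mem_insert_iff, mem_singleton_iff, not_or] at hx1T hx2T
  -- one of the two limbs does not contain `s`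
  have hx : ∃ x ∈ S', rr x ≠ r ∧ rr x ≠ s ∧ s ∉ AA x := by
    by_cases h : s ∈ AA x1
    · exact ⟨x2, hx2, hx2T.1, hx2T.2.1,
        hdis2 x1 hx1 x2 hx2 (fun h' => hx2T.2.2 h'.symm) s h⟩
    · exact ⟨x1, hx1, hx1T.1, hx1T.2, h⟩
  obtain ⟨x, hx, hxr, hxs, hsA⟩ := hx
  have hl := hlmb x hx
  obtain ⟨hxS, hxN⟩ := hS'mem x hx
  have hxN' : (N : ℝ) ≤ x.2 := by exact_mod_cast hxN
  have hlimb : IsLimb 2 K x.1 x.2 (rr x) (zz x) (AA x) :=
    ⟨hK, hl.hp, hl.hpq, hl.cop, (hpt x hx).fix, (hpt x hx).mul, hl.sub, hl.op, hl.cl, hl.nr, hl.n0⟩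
  have hrA : rr x ∈ A := by
    have h1 : rr x ∈ closure (P '' Metric.ball (0 : ℂ) 1) := root_cl hl
    have h2 : closure (P '' Metric.ball (0 : ℂ) 1) ⊆ insert r A := by
      refine closure_minimal ?_ hA.cl
      rintro _ ⟨v, hv, rfl⟩
      exact mem_insert_of_mem _ (hPA v hv)
    rcases h2 h1 with h | h
    · exact absurd h hxr
    · exact h
  refine ⟨x.1, x.2, rr x, PP x, AA x, hxS, by linarith, hl,
    Pool.Agent.PLim.UNC_.limb_piece hlimb, ?_, hrA, ?_, hcomp x hx, hsat x hx, hatt x hx,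
    hmem x hx⟩
  · exact Pool.Agent.PLim.a_NEST 2 K x.1 x.2 r (rr x) (zz x) A (AA x) le_rfl hA hlimb hrA hxr
  · rintro (h | h)
    · exact hxs h.symm
    · exact hsA h

namespace UN2_

open NXS_

/-- The states of the construction: period, root, component, limb. -/
def St (x : ℕ × ℂ × (ℂ → ℂ) × Set ℂ) : Prop :=
  Comp x.1 x.2.2.1 ∧ Sat x.1 x.2.2.1 ∧ Tendsto x.2.2.1 (𝓝[Metric.ball 0 1] 1) (𝓝 x.2.1) ∧
    Piece 2 x.2.1 x.2.2.2 ∧ ∀ v ∈ Metric.ball (0 : ℂ) 1, x.2.2.1 v ∈ x.2.2.2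

/-- The relation between consecutive states; `w` is a point to be avoided. -/
def Rl (S : Set (ℕ × ℕ)) (m : ℕ) (w : ℂ) (x : ℕ × ℂ × (ℂ → ℂ) × Set ℂ) (y : (ℕ × ℕ) × ℕ × ℂ × (ℂ → ℂ) × Set ℂ) : Prop :=
  y.2.2.2.2 ⊆ x.2.2.2 ∧ y.2.2.1 ∈ x.2.2.2 ∧ w ∉ insert y.2.2.1 y.2.2.2.2 ∧ y.1 ∈ S ∧
    y.2.1 = x.1 * y.1.2 ∧ (m : ℝ) * (x.1 : ℝ) ^ 10 ≤ y.1.2 ∧
    Lmb x.2.2.1 y.1.1 y.1.2 y.2.2.1 y.2.2.2.2

lemma step (hNX2 : T_NX2) {S : Set (ℕ × ℕ)}
    (hS : ∀ x ∈ S, 0 < x.1 ∧ x.1 < x.2 ∧ x.1.Coprime x.2) (hSi : S.Infinite) (m : ℕ) (w : ℂ)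
    (x : ℕ × ℂ × (ℂ → ℂ) × Set ℂ) (hx : St x) :
    ∃ y : (ℕ × ℕ) × ℕ × ℂ × (ℂ → ℂ) × Set ℂ, St y.2 ∧ Rl S m w x y := by
  obtain ⟨hC, hSt, hT, hP, hv⟩ := hx
  obtain ⟨p, q, r', P', A', hpq, hB, hL, hPi, hsub, hmem, hs, hC', hS', hT', hv'⟩ :=
    hNX2 S x.1 x.2.2.1 x.2.1 w x.2.2.2 (m : ℝ) hS hSi hC hSt hP hv
  exact ⟨((p, q), x.1 * q, r', P', A'), ⟨hC', hS', hT', hPi, hv'⟩, hsub, hmem, hs, hpq, rfl,
    hB, hL⟩

lemma base (hLNF : T_LNF) (hSEX : T_SEX) (hDNE : T_DNE) (hLIMB : T_LIMB) {c0 : ℂ}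
    (hc0 : c0 ∈ frontier (MM 2)) {N : Set ℂ} (hN : N ∈ 𝓝 c0) :
    ∃ x : ℕ × ℂ × (ℂ → ℂ) × Set ℂ, St x ∧ x.2.1 ∈ MM 2 ∧ insert x.2.1 x.2.2.2 ⊆ N := by
  obtain ⟨ε', hε', hball⟩ := Metric.mem_nhds_iff.mp hN
  obtain ⟨C, hC, hlimb⟩ := hLIMB 2 le_rfl
  obtain ⟨B1, hB1, hlnf⟩ := hLNF
  have hε : 0 < ε' / 2 := by positivity
  obtain ⟨k, p, q, r, z0, hk, hp, hpq, hcop, hpt, hr, hmin⟩ :=
    hDNE c0 (ε' / 2) (B1 + C / (ε' / 2)) hc0 hε
  have hq0 : (0 : ℝ) < q := by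
    have : 0 < q := by omega
    exact_mod_cast this
  have hk0 : (0 : ℝ) < k := by exact_mod_cast hk
  have hkq : 0 < (k : ℝ) ^ 2 * q := by positivity
  have hCε : 0 < C / (ε' / 2) := by positivity
  have h1 : B1 * k ^ 2 * q < ((min p (q - p) : ℕ) : ℝ) ^ 2 := by
    refine lt_of_le_of_lt ?_ hmin
    nlinarith
  have h2 : C / (ε' / 2) * (k ^ 2 * q) < ((min p (q - p) : ℕ) : ℝ) ^ 2 := by
    refine lt_of_le_of_lt ?_ hmin
    nlinarith
  obtain ⟨P, hP, hPt⟩ := hSEX k p q r z0 hk hp hpq hcop hpt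
  obtain ⟨A, hL, hv⟩ := hlnf k p q r z0 P hk hp hpq hcop hpt.fix hpt.mul h1 hP hPt
  obtain ⟨hrM, hA⟩ := hlimb k p q r z0 A hk hp hpq hcop hpt.fix hpt.mul hL.sub hL.op hL.cl
    hL.nr hL.n0
  refine ⟨(k * q, r, P, A), ⟨hP, ⟨k, p, q, r, z0, rfl, hp, hpq, hcop, hPt, hpt⟩, hPt,
    Pool.Agent.PLim.UNC_.limb_piece hL, hv⟩, hrM, ?_⟩
  have hbig : insert r A ⊆ Metric.ball c0 ε' := by
    intro x hx
    rw [Metric.mem_ball, dist_eq_norm]
    rcases hx with h | h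
    · rw [h]
      linarith
    · have h3 := hA x h
      have h4 : ‖x - r‖ < ε' / 2 := by
        by_contra h5
        push Not at h5
        have h6 : C * k ^ 2 * q < ε' / 2 * ((min p (q - p) : ℕ) : ℝ) ^ 2 := by
          have h7 := mul_lt_mul_of_pos_left h2 hε
          have h8 : ε' / 2 * (C / (ε' / 2) * (k ^ 2 * q)) = C * k ^ 2 * q := by
            field_simp
          rw [h8] at h7
          exact h7
        have h9 : ε' / 2 * ((min p (q - p) : ℕ) : ℝ) ^ 2 ≤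
            ‖x - r‖ * ((min p (q - p) : ℕ) : ℝ) ^ 2 :=
          mul_le_mul_of_nonneg_right h5 (by positivity)
        linarith
      calc ‖x - c0‖ = ‖(x - r) + (r - c0)‖ := by ring_nf
        _ ≤ ‖x - r‖ + ‖r - c0‖ := norm_add_le _ _
        _ < ε' := by linarith
  exact hbig.trans hball

end UN2_

open UN2_ in
theorem p_UN2 (hNX2 : T_NX2) (hLNF : T_LNF) (hSEX : T_SEX) (hDNE : T_DNE) : T_UN2 := by
  intro S c0 N hS hSi hc0 hN hcount
  obtain ⟨s, hs⟩ := Set.countable_iff_exists_subset_range.mp hcount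
  obtain ⟨x0, hP0, hx0M, hx0N⟩ := UN2_.base hLNF hSEX hDNE Pool.Agent.PLim.a_LIMB hc0 hN
  have hst := fun m => UN2_.step hNX2 (hS m) (hSi m) m (s m)
  choose g hg using hst
  let f : ℕ → {x : ℕ × ℂ × (ℂ → ℂ) × Set ℂ // UN2_.St x} := fun m =>
    Nat.rec ⟨x0, hP0⟩ (fun m x => ⟨(g m x.1 x.2).2, (hg m x.1 x.2).1⟩) m
  obtain ⟨pq, hpq⟩ : ∃ pq : ℕ → ℕ × ℕ, ∀ m, pq m = (g m (f m).1 (f m).2).1 :=
    ⟨fun m => (g m (f m).1 (f m).2).1, fun m => rfl⟩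
  have hf : ∀ m, UN2_.Rl (S m) m (s m) (f m).1 (pq m, (f (m + 1)).1) := by
    intro m
    rw [hpq]
    exact (hg m (f m).1 (f m).2).2
  have hf0 : (f 0).1 = x0 := rfl
  set K : ℕ → Set ℂ := fun m => insert (f m).1.2.1 (f m).1.2.2.2 with hK
  have hKs : ∀ m, K (m + 1) ⊆ (f m).1.2.2.2 := by
    intro m x hx
    rcases hx with h | h
    · rw [h]; exact (hf m).2.1
    · exact (hf m).1 h
  have hKd : ∀ m, K (m + 1) ⊆ K m := fun m => (hKs m).trans (subset_insert _ _)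
  have hKc : ∀ m, IsClosed (K m) := fun m => (f m).2.2.2.2.1.cl
  have hK0 : IsCompact (K 0) := by
    refine Metric.isCompact_of_isClosed_isBounded (hKc 0) ?_
    refine (Metric.isBounded_closedBall (x := (0 : ℂ)) (r := 1 + 2 / (2 : ℕ))).subset ?_
    intro x hx
    rw [mem_closedBall_zero_iff]
    rcases hx with h | h
    · rw [h]; exact MM_bound le_rfl hx0M
    · exact MM_bound le_rfl (hP0.2.2.2.1.sub h)
  obtain ⟨c, hc⟩ := IsCompact.nonempty_iInter_of_sequence_nonempty_isCompact_isClosed K hKd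
    (fun m => ⟨_, mem_insert _ _⟩) hK0 hKc
  have hcA : ∀ m, c ∈ (f m).1.2.2.2 := fun m => hKs m (mem_iInter.mp hc (m + 1))
  have hcX : c ∈ N ∩ {c : ℂ | TwrS S c} := by
    refine ⟨hx0N (mem_insert_of_mem _ (hcA 0)), ?_⟩
    refine ⟨fun m => (f m).1.1, fun m => (pq m).1, fun m => (pq m).2, fun m => (f m).1.2.2.1,
      fun m => (f (m + 1)).1.2.1, fun m => (f (m + 1)).1.2.2.2, ?_, ?_⟩
    · exact ⟨fun m => (f m).2.1, fun m => (f m).2.2.1, fun m => (hf m).2.2.2.2.1,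
        fun m => (hf m).2.2.2.2.2.2, fun m => (f (m + 1)).2.2.2.1,
        fun m => (f (m + 1)).2.2.2.2.2, fun m => (hf (m + 1)).1, fun m => (hf (m + 1)).2.1⟩
    · intro m
      exact ⟨hcA (m + 1), (hf m).2.2.2.1, (hf m).2.2.2.2.2.1⟩
  obtain ⟨m, hm⟩ := hs hcX
  have h1 := (hf m).2.2.1
  rw [hm] at h1
  exact h1 (mem_insert_of_mem _ (hcA (m + 1)))

end Pool.Agent.PSat
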