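import Pool.Agent.PSat.All2
import Pool.Agent.PSat.TWR2

/-!
# PSAT, third part: all targets
-/

set_option autoImplicit false

namespace Pool.Agent.PSat

theorem a_RNE : T_RNE := p_RNE a_CST a_MKD a_LBC a_RP0
theorem a_TWX : T_TWX := p_TWX a_LNS a_RNE
theorem a_TWI : T_TWI := p_TWI a_FNL
theorem a_TWR : T_TWR := p_TWR a_CST a_CMG a_RNE
theorem a_NX2 : T_NX2 := p_NX2 a_LNS a_FNL
theorem a_UN2 : T_UN2 := p_UN2 a_NX2 a_LNF a_SEX a_DNE

end Pool.Agent.PSat
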