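import Pool.Agent.PSat.Targets
import Pool.Agent.PLim.KOEB

/-!
# BCI: a quantitative inverse function
-/

set_option autoImplicit false

open Complex Filter Topology Set

namespace Pool.Agent.PSat

namespace BCI_

open Pool.Agent.PLim

/-- The logarithm of the normalized quotient is small near the center. -/
theorem small {a : ℂ} {ρ D A : ℝ} {L : ℂ → ℂ} (hρ : 0 < ρ) (hD : 0 < D) (hDρ : D * ρ ≤ 1)
    (hA : 1 ≤ A) (hL : DifferentiableOn ℂ L (Metric.ball a ρ)) (hLa : L a = 1)
    (hL' : deriv L a = -(D : ℂ)) (hb : ∀ x ∈ Metric.ball a ρ, ‖L x‖ ≤ Real.exp A)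
    (hne : ∀ x ∈ Metric.ball a ρ, x ≠ a → L x ≠ 1) (B : ℝ)
    (hB : B = A + 1 + Real.log (1 / (D * ρ))) {x : ℂ} (hx : ‖x - a‖ ≤ ρ / (20 * B)) :
    ‖(1 - L x) / D - (x - a)‖ ≤ ‖x - a‖ / 4 := by
  have hDρ0 : 0 < D * ρ := mul_pos hD hρ
  have hlog : 0 ≤ Real.log (1 / (D * ρ)) := by
    apply Real.log_nonneg
    rw [le_div_iff₀ hDρ0]
    linarith
  have hB2 : 2 ≤ B := by rw [hB]; linarith
  have hB0 : 0 < B := by linarith
  have hD' : (D : ℂ) ≠ 0 := by exact_mod_cast hD.ne'
  have ho : IsOpen (Metric.ball a ρ) := Metric.isOpen_ball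
  have ha : a ∈ Metric.ball a ρ := Metric.mem_ball_self hρ
  set h : ℂ → ℂ := fun y => dslope L a y / (-(D : ℂ)) with hh
  have hhd : DifferentiableOn ℂ h (Metric.ball a ρ) :=
    ((differentiableOn_dslope (ho.mem_nhds ha)).2 hL).div_const _
  have hha : h a = 1 := by
    simp only [hh, dslope_same, hL']
    exact div_self (neg_ne_zero.2 hD')
  have hhy : ∀ y, y ≠ a → h y * (y - a) = (1 - L y) / D := by
    intro y hy
    have hya : y - a ≠ 0 := sub_ne_zero.2 hy
    simp only [hh, dslope_of_ne L hy, slope_def_field, hLa]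
    field_simp
    ring
  have hh0 : ∀ y ∈ Metric.ball a ρ, h y ≠ 0 := by
    intro y hy h0
    rcases eq_or_ne y a with e | e
    · rw [e, hha] at h0
      exact one_ne_zero h0
    · have h1 := hhy y e
      rw [h0, zero_mul] at h1
      have h2 : 1 - L y = 0 := by
        rcases div_eq_zero_iff.1 h1.symm with h3 | h3
        · exact h3
        · exact absurd h3 hD'
      exact hne y hy e (sub_eq_zero.1 h2).symm
  have hhb : ∀ y ∈ Metric.ball a ρ, ‖h y‖ ≤ (Real.exp A + 2) / (D * ρ) := by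
    intro y hy
    have h1 : MapsTo L (Metric.ball a ρ) (Metric.ball (L a) (Real.exp A + 2)) := by
      intro z hz
      rw [Metric.mem_ball, dist_eq_norm, hLa]
      calc ‖L z - 1‖ ≤ ‖L z‖ + ‖(1 : ℂ)‖ := norm_sub_le _ _
        _ ≤ Real.exp A + 1 := by rw [norm_one]; linarith [hb z hz]
        _ < Real.exp A + 2 := by linarith
    have h2 := norm_dslope_le_div_of_mapsTo_ball hL
      (h1.mono_right Metric.ball_subset_closedBall) hy
    simp only [hh, norm_div, norm_neg, norm_real, Real.norm_eq_abs, abs_of_pos hD]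
    rw [div_le_iff₀ hD]
    calc ‖dslope L a y‖ ≤ (Real.exp A + 2) / ρ := h2
      _ = (Real.exp A + 2) / (D * ρ) * D := by field_simp
  obtain ⟨l, hl, hexp⟩ := KOEB_.exists_log hρ hhd hh0
  have hre : ∀ y ∈ Metric.ball a ρ, (l y).re ≤ B := by
    intro y hy
    have h1 : Real.log ‖h y‖ = (l y).re := by
      rw [hexp y hy, norm_exp, Real.log_exp]
    have h2 := Real.log_le_log (norm_pos_iff.2 (hh0 y hy)) (hhb y hy)
    have h3 : Real.exp A + 2 ≤ Real.exp (A + 1) := by
      have e1 : 1 + 1 ≤ Real.exp 1 := Real.add_one_le_exp 1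
      have e2 : Real.exp 1 ≤ Real.exp A := Real.exp_le_exp.2 hA
      rw [Real.exp_add]
      nlinarith
    have h4 : Real.log ((Real.exp A + 2) / (D * ρ)) ≤ B := by
      rw [div_eq_mul_one_div, Real.log_mul (by positivity) (by positivity), hB]
      have h5 : Real.log (Real.exp A + 2) ≤ A + 1 := by
        rw [← Real.log_exp (A + 1)]
        exact Real.log_le_log (by positivity) h3
      linarith
    linarith
  have hla : (l a).re = 0 := by
    have h1 : Real.log ‖h a‖ = (l a).re := by
      rw [hexp a ha, norm_exp, Real.log_exp]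
    rw [hha, norm_one, Real.log_one] at h1
    exact h1.symm
  set G : ℂ → ℂ := fun z => l (z + a) - l a with hG
  have hmaps : MapsTo (fun z : ℂ => z + a) (Metric.ball 0 ρ) (Metric.ball a ρ) := by
    intro z hz
    rw [Metric.mem_ball, dist_eq_norm] at hz ⊢
    simpa using hz
  have hGd : DifferentiableOn ℂ G (Metric.ball 0 ρ) := by
    refine (hl.comp ?_ hmaps).sub (differentiableOn_const _)
    exact (differentiable_id.add_const a).differentiableOn
  have hGre : MapsTo G (Metric.ball 0 ρ) {z | z.re ≤ B} := by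
    intro z hz
    show (l (z + a) - l a).re ≤ B
    rw [sub_re, hla, sub_zero]
    exact hre _ (hmaps hz)
  have hG0 : G 0 = 0 := by
    rw [hG]
    simp
  have hs : ρ / (20 * B) ≤ ρ / 40 := by
    apply div_le_div_of_nonneg_left hρ.le (by norm_num) (by linarith)
  have hxρ : ‖x - a‖ < ρ := by linarith
  have hz : x - a ∈ Metric.ball (0 : ℂ) ρ := by
    rw [Metric.mem_ball, dist_zero_right]
    exact hxρ
  have hxb : x ∈ Metric.ball a ρ := by
    rw [Metric.mem_ball, dist_eq_norm]
    exact hxρ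
  have hBC := borelCaratheodory_zero hB0 hGd hGre hρ hz hG0
  have hG8 : ‖G (x - a)‖ ≤ 1 / 8 := by
    refine hBC.trans ?_
    rw [div_le_iff₀ (by linarith)]
    rw [le_div_iff₀ (by positivity)] at hx
    nlinarith [norm_nonneg (x - a)]
  have hexpG : exp (G (x - a)) = h x := by
    have e1 : x - a + a = x := by ring
    have e2 : exp (l a) = 1 := by rw [← hexp a ha, hha]
    simp only [hG, e1]
    rw [exp_sub, e2, div_one, hexp x hxb]
  have h8 : ‖h x - 1‖ ≤ 1 / 4 := by
    rw [← hexpG]
    have := norm_exp_sub_one_le (x := G (x - a)) (by linarith)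
    linarith
  rcases eq_or_ne x a with e | e
  · rw [e, hLa]
    simp
  · have h9 : (1 - L x) / D - (x - a) = (h x - 1) * (x - a) := by
      rw [← hhy x e]
      ring
    rw [h9, norm_mul]
    nlinarith [norm_nonneg (x - a)]

end BCI_

open BCI_ in
theorem p_BCI : T_BCI := by
  refine ⟨1 / 1000, by norm_num, by norm_num, ?_⟩
  intro a ρ D A L hρ hD hDρ hA hL hLa hL' hb hne
  have hDρ0 : 0 < D * ρ := mul_pos hD hρ
  have hlog : 0 ≤ Real.log (1 / (D * ρ)) := by
    apply Real.log_nonneg
    rw [le_div_iff₀ hDρ0]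
    linarith
  have hD' : (D : ℂ) ≠ 0 := by exact_mod_cast hD.ne'
  set B1 : ℝ := A + Real.log (1 / (D * ρ)) with hB1
  have hB11 : 1 ≤ B1 := by linarith
  set B : ℝ := A + 1 + Real.log (1 / (D * ρ)) with hB
  have hBB : B ≤ 2 * B1 := by linarith
  have hB2 : 2 ≤ B := by linarith
  have hB0 : 0 < B := by linarith
  set s : ℝ := ρ / (20 * B) / 2 with hs
  have hs0 : 0 < s := by positivity
  have hsρ : 2 * s < ρ := by
    have h1 : ρ / (20 * B) ≤ ρ / 40 :=
      div_le_div_of_nonneg_left hρ.le (by norm_num) (by linarith)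
    have h2 : 2 * s = ρ / (20 * B) := by rw [hs]; ring
    linarith
  have hsub : Metric.ball a s ⊆ Metric.ball a ρ := Metric.ball_subset_ball (by linarith)
  have hsub2 : Metric.ball a (2 * s) ⊆ Metric.ball a ρ := Metric.ball_subset_ball (by linarith)
  set f : ℂ → ℂ := fun x => (1 - L x) / D with hf
  have hfd : DifferentiableOn ℂ f (Metric.ball a ρ) :=
    ((differentiableOn_const _).sub hL).div_const _
  set φ : ℂ → ℂ := fun x => f x - (x - a) with hφ
  have hφd : DifferentiableOn ℂ φ (Metric.ball a ρ) :=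
    hfd.sub ((differentiable_id.sub_const a).differentiableOn)
  have hφb : ∀ x ∈ Metric.ball a (2 * s), ‖φ x‖ ≤ s / 2 := by
    intro x hx
    rw [Metric.mem_ball, dist_eq_norm] at hx
    have h1 : ‖x - a‖ ≤ ρ / (20 * B) := by
      have h2 : 2 * s = ρ / (20 * B) := by rw [hs]; ring
      linarith
    have h2 := small hρ hD hDρ hA hL hLa hL' hb hne B hB h1
    have h3 : ‖φ x‖ ≤ ‖x - a‖ / 4 := h2
    linarith
  have hφ' : ∀ x ∈ Metric.ball a s, ‖deriv φ x‖ ≤ 1 / 2 := by
    intro x hx
    have hcl : Metric.closedBall x s ⊆ Metric.ball a (2 * s) := by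
      intro y hy
      rw [Metric.mem_closedBall] at hy
      rw [Metric.mem_ball] at hx ⊢
      linarith [dist_triangle y x a]
    have h1 : DiffContOnCl ℂ φ (Metric.ball x s) :=
      hφd.diffContOnCl_ball (hcl.trans hsub2)
    have h2 := norm_deriv_le_of_forall_mem_sphere_norm_le hs0 h1
      (fun z hz => hφb z (hcl (Metric.sphere_subset_closedBall hz)))
    refine h2.trans ?_
    rw [div_le_iff₀ hs0]
    linarith
  have hφat : ∀ x ∈ Metric.ball a ρ, DifferentiableAt ℂ φ x := fun x hx =>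
    hφd.differentiableAt (Metric.isOpen_ball.mem_nhds hx)
  have hfat : ∀ x ∈ Metric.ball a ρ, DifferentiableAt ℂ f x := fun x hx =>
    hfd.differentiableAt (Metric.isOpen_ball.mem_nhds hx)
  have happ : ApproximatesLinearOn f
      ((ContinuousLinearEquiv.refl ℂ ℂ : ℂ ≃L[ℂ] ℂ) : ℂ →L[ℂ] ℂ) (Metric.ball a s) (1 / 2) := by
    intro x hx y hy
    have h1 := (convex_ball a s).norm_image_sub_le_of_norm_deriv_le
      (fun z hz => hφat z (hsub hz)) hφ' hy hx
    have h2 : f x - f y - ((ContinuousLinearEquiv.refl ℂ ℂ : ℂ ≃L[ℂ] ℂ) : ℂ →L[ℂ] ℂ) (x - y) =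
        φ x - φ y := by
      simp only [hφ, ContinuousLinearEquiv.coe_coe, ContinuousLinearEquiv.refl_apply]
      ring
    rw [h2]
    simpa using h1
  have hN : ‖((ContinuousLinearEquiv.refl ℂ ℂ : ℂ ≃L[ℂ] ℂ).symm : ℂ →L[ℂ] ℂ)‖₊ = 1 := by
    have h1 : ((ContinuousLinearEquiv.refl ℂ ℂ : ℂ ≃L[ℂ] ℂ).symm : ℂ →L[ℂ] ℂ) =
        ContinuousLinearMap.id ℂ ℂ := rfl
    rw [h1]
    ext
    simp
  have hc : Subsingleton ℂ ∨ (1 / 2 : NNReal) <
      ‖((ContinuousLinearEquiv.refl ℂ ℂ : ℂ ≃L[ℂ] ℂ).symm : ℂ →L[ℂ] ℂ)‖₊⁻¹ := by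
    right
    rw [hN, inv_one]
    exact NNReal.half_lt_self one_ne_zero
  set e := happ.toOpenPartialHomeomorph f (Metric.ball a s) hc Metric.isOpen_ball with he
  have hef : ∀ x, e x = f x := fun x => rfl
  have hsrc : e.source = Metric.ball a s := rfl
  have hfa : f a = 0 := by simp [hf, hLa]
  have htgt : ∀ w : ℂ, ‖w‖ ≤ s / 4 → w ∈ e.target := by
    intro w hw
    have h1 := happ.closedBall_subset_target hc Metric.isOpen_ball (b := a) (ε := s / 2)
      (by positivity) (Metric.closedBall_subset_ball (by linarith))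
    apply h1
    rw [hN, hfa, Metric.mem_closedBall, dist_zero_right]
    refine hw.trans ?_
    push_cast
    linarith
  have hsymm : ∀ w ∈ e.target, e.symm w ∈ Metric.ball a s := fun w hw => e.map_target hw
  have hright : ∀ w ∈ e.target, f (e.symm w) = w := fun w hw => e.right_inv hw
  have hf' : ∀ x ∈ Metric.ball a s, deriv f x ≠ 0 := by
    intro x hx h0
    have h1 := hφ' x hx
    have h2 : deriv φ x = deriv f x - 1 := by
      have h3 : HasDerivAt φ (deriv f x - 1) x :=
        (hfat x (hsub hx)).hasDerivAt.sub ((hasDerivAt_id x).sub_const a)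
      exact h3.deriv
    rw [h2, h0, zero_sub, norm_neg, norm_one] at h1
    norm_num at h1
  have hder : ∀ w ∈ e.target, HasDerivAt e.symm (deriv f (e.symm w))⁻¹ w := fun w hw =>
    e.hasDerivAt_symm hw (hf' _ (hsymm w hw)) (hfat _ (hsub (hsymm w hw))).hasDerivAt
  set R : ℝ := 1 / 1000 * (D * ρ) / B1 with hR
  have hR1 : R ≤ 1 := by
    rw [hR, div_le_iff₀ (by linarith)]
    linarith
  have hsmall : ∀ ν ∈ Metric.ball (0 : ℂ) R, (1 - exp ν) / D ∈ e.target := by
    intro ν hν
    rw [Metric.mem_ball, dist_zero_right] at hν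
    apply htgt
    have h1 : ‖exp ν - 1‖ ≤ 2 * ‖ν‖ := norm_exp_sub_one_le (by linarith)
    rw [norm_div, norm_real, Real.norm_eq_abs, abs_of_pos hD, norm_sub_rev, div_le_iff₀ hD]
    have h2 : 2 * ‖ν‖ ≤ 2 * R := by linarith
    have h3 : 2 * R ≤ s / 4 * D := by
      have hB10 : 0 < B1 := by linarith
      have e1 : 2 * R = (D * ρ) / (500 * B1) := by
        rw [hR]
        field_simp
        norm_num
      have e2 : s / 4 * D = (D * ρ) / (160 * B) := by
        rw [hs]
        field_simp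
        norm_num
      rw [e1, e2]
      exact div_le_div_of_nonneg_left hDρ0.le (by positivity) (by linarith)
    linarith
  refine ⟨fun ν => e.symm ((1 - exp ν) / D), ?_, ?_, ?_⟩
  · have h1 : (1 - exp 0) / (D : ℂ) = e a := by rw [hef, hfa]; simp
    show e.symm ((1 - exp 0) / D) = a
    rw [h1]
    exact e.left_inv (by rw [hsrc]; exact Metric.mem_ball_self hs0)
  · intro ν hν
    have h1 : HasDerivAt (fun ν : ℂ => (1 - exp ν) / (D : ℂ)) (-exp ν / D) ν := by
      have := ((hasDerivAt_exp ν).const_sub 1).div_const (D : ℂ)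
      exact this
    exact ((hder _ (hsmall ν hν)).comp ν h1).differentiableAt.differentiableWithinAt
  · intro ν hν
    have h1 : HasDerivAt (fun ν : ℂ => (1 - exp ν) / (D : ℂ)) (-exp ν / D) ν := by
      have := ((hasDerivAt_exp ν).const_sub 1).div_const (D : ℂ)
      exact this
    have h2 := (hder _ (hsmall ν hν)).comp ν h1
    have h3 := hsymm _ (hsmall ν hν)
    have h4 := hright _ (hsmall ν hν)
    have h5 : L (e.symm ((1 - exp ν) / D)) = exp ν := by
      simp only [hf] at h4
      rw [div_left_inj' hD'] at h4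
      linear_combination -h4
    refine ⟨hsub h3, h5, ?_, ?_⟩
    · rw [show deriv (fun ν : ℂ => e.symm ((1 - exp ν) / D)) ν = _ from h2.deriv]
      exact mul_ne_zero (inv_ne_zero (hf' _ h3)) (div_ne_zero (neg_ne_zero.2 (exp_ne_zero _)) hD')
    · intro hν0 hga
      simp only at hga
      rw [hga, hLa] at h5
      obtain ⟨n, hn⟩ := exp_eq_one_iff.1 h5.symm
      rw [Metric.mem_ball, dist_zero_right, hn] at hν
      rw [norm_mul, norm_mul, norm_mul, norm_I, norm_real, norm_intCast, norm_ofNat,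
        Real.norm_eq_abs, abs_of_pos Real.pi_pos] at hν
      rcases eq_or_ne n 0 with h0 | h0
      · rw [h0] at hn
        simp at hn
        exact hν0 hn
      · have h6 : (1 : ℝ) ≤ |(n : ℝ)| := by
          rw [← Int.cast_abs]
          exact_mod_cast Int.one_le_abs h0
        nlinarith [Real.pi_gt_three]

end Pool.Agent.PSat
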