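import Pool.Agent.PLim.Targets4
import Pool.Agent.MEY.Targets2

/-!
# PSAT: definitions

The limbs of the satellite components of the Mandelbrot set.  The degree is `2`; words are
sequences of integers, compared modulo `2`.
-/

set_option autoImplicit false

open Complex Filter Topology Set
open Pool.Agent.Multibrot (MM)
open Pool.Agent.Limb (F)
open Pool.Agent.PLim (Rho IsBot IsLog Crit Dig Rot IsInt Label lab Ex Cod Per Lands InZ LabR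
  ZVn ONTOn NCn OMXn SECTn LocFix)
open Pool.Agent.MEX (Exa)
open Pool.Agent.MEY (Pt Omg DD Glob)

namespace Pool.Agent.PSat

/-! ### words and angles -/

/-- The shifted word. -/
def sh (i : ℕ) (ε : ℕ → ℤ) : ℕ → ℤ := fun t => ε (t + i)

/-- Equality of words modulo two. -/
def Eq2 (ε ε' : ℕ → ℤ) : Prop := ∀ t : ℕ, (2 : ℤ) ∣ ε t - ε' t

/-- A word of exact period `k` (modulo two). -/
structure ExW (k : ℕ) (ε : ℕ → ℤ) : Prop where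
  per : Per k ε
  exa : ∀ d : ℕ, 0 < d → d < k → ¬ Eq2 (sh d ε) ε

/-- `x` is fixed by the multiplication by `2 ^ K` modulo one. -/
def IsP (K : ℕ) (x : ℝ) : Prop := IsInt (((2 : ℝ) ^ K - 1) * x)

/-- The angles (real lifts) of period `K` with itinerary `η` with respect to `θ`. -/
def Th (K : ℕ) (θ : ℝ) (η : ℕ → ℤ) : Set ℝ := {x | IsP K x ∧ Cod 2 θ x η}

/-- Consecutive points. -/
def Gap (S : Set ℝ) (x y : ℝ) : Prop := x ∈ S ∧ y ∈ S ∧ x < y ∧ ∀ z ∈ S, ¬ (x < z ∧ z < y)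

/-- Change the digits at the positions congruent to `-1` modulo `K`. -/
def flp (K : ℕ) (η : ℕ → ℤ) : ℕ → ℤ := fun t => if K ∣ t + 1 then η t + 1 else η t

/-- The plateau `[a, b]` of the rotation number `R0`. -/
structure Pla (k q : ℕ) (ε : ℕ → ℤ) (R0 a b : ℝ) (i m : ℕ) : Prop where
  hk : 1 ≤ k
  hq : 2 ≤ q
  exw : ExW k ε
  ab : a < b
  ab2 : b - a ≤ 1 / 2
  pla : ∀ θ : ℝ, Rot 2 k θ ε = R0 ↔ a ≤ θ ∧ θ ≤ b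
  aK : IsP (k * q) a
  aX : ∀ d : ℕ, 0 < d → d < k * q → ¬ IsP d a
  orb : IsInt (b - 2 ^ m * a)
  gap : ∀ (t : ℕ) (s : ℤ), ¬ (a < 2 ^ t * a + s ∧ 2 ^ t * a + s < b)
  cod : ∀ θ : ℝ, a < θ → θ < b → Cod 2 θ a (sh i ε) ∧ Cod 2 θ b (sh i ε)

/-- The combinatorial data at a satellite root. -/
structure Cmb (k q : ℕ) (ε : ℕ → ℤ) (R0 : ℝ) (j0 : ℤ) (a b : ℝ) (m : ℕ) (ω : ℕ → ℤ)
    (l : Label 2 (k * q)) : Prop where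
  hk : 1 ≤ k
  hq : 2 ≤ q
  exw : ExW k ε
  den : IsInt (q * R0)
  den' : ∀ v : ℕ, 0 < v → v < q → ¬ IsInt (v * R0)
  fl : (j0 : ℝ) < R0 ∧ R0 < j0 + 1
  ab : a < b
  ab1 : b < a + 1
  pla : ∀ θ : ℝ, Rot 2 k θ ε = R0 ↔ a ≤ θ ∧ θ ≤ b
  aK : IsP (k * q) a
  aX : ∀ d : ℕ, 0 < d → d < k * q → ¬ IsP d a
  orb : IsInt (b - 2 ^ m * a)
  gap : ∀ (t : ℕ) (s : ℤ), ¬ (a < 2 ^ t * a + s ∧ 2 ^ t * a + s < b)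
  exo : ExW (k * q) ω
  lbl : ∀ θ : ℝ, a < θ → θ < b → ¬ IsInt (Rot 2 (k * q) θ ω) ∧ lab 2 (k * q) θ ω = l
  uni : ∀ (θ : ℝ) (η : ℕ → ℤ), a ≤ θ → θ ≤ b → Per (k * q) η → ¬ IsInt (Rot 2 (k * q) θ η) →
    lab 2 (k * q) θ η = l → Eq2 η ω ∧ a < θ ∧ θ < b
  left : ∀ θ : ℝ, θ < a → (∀ (t : ℕ) (s : ℤ), ¬ (θ ≤ 2 ^ t * a + s ∧ 2 ^ t * a + s < a)) →
    Cod 2 θ a ω
  right : ∀ θ : ℝ, b < θ → (∀ (t : ℕ) (s : ℤ), ¬ (b < 2 ^ t * a + s ∧ 2 ^ t * a + s ≤ θ)) →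
    Cod 2 θ b ω

/-! ### the analytic data -/

/-- The constants. -/
structure Cst (C : ℝ) : Prop where
  zv : ZVn 2 C
  onto : ONTOn 2 C
  nc : NCn 2 C
  omx : OMXn 2 C
  sect : SECTn 2 C

/-- The section `ψ, χ` of the multiplier of period `k` near the multiplier `exp (2 π i p / q)`. -/
structure Ctx where
  C1 : ℝ
  k : ℕ
  p : ℕ
  q : ℕ
  ρ : ℝ
  Λ : ℂ → ℂ → ℂ
  lh : ℂ → ℂ → ℂ → ℂ
  ls : ℂ → ℂ → ℂ → ℂ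
  ψ : ℂ → ℂ
  χ : ℂ → ℂ

namespace Ctx

/-- The period of the satellite component. -/
abbrev K (X : Ctx) : ℕ := X.k * X.q

/-- `2 π i p / q`. -/
noncomputable def m0 (X : Ctx) : ℂ := ((2 * Real.pi * X.p / X.q : ℝ) : ℂ) * I

/-- `z` is fixed by the iterate of order `K` at the parameter `ψ μ`. -/
def Fx (X : Ctx) (μ z : ℂ) : Prop := (F 2 (X.ψ μ))^[X.K] z = z

/-- The derivative of the iterate of order `K` at the parameter `ψ μ`. -/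
noncomputable def rh (X : Ctx) (μ z : ℂ) : ℂ := Rho 2 X.K (X.ψ μ) z

/-- The width of the extended region of the multipliers of period `K`. -/
noncomputable def kp (X : Ctx) : ℝ := 1 / (X.C1 * X.K)

/-- The punctured disc. -/
def B (X : Ctx) : Set ℂ := Metric.ball X.m0 X.ρ \ {X.m0}

/-- The points over which a ray of period `K` lands at `χ μ`. -/
def V (X : Ctx) : Set ℂ :=
  {μ : ℂ | μ ∈ Metric.ball X.m0 X.ρ ∧ 0 < μ.re ∧ InZ 2 X.K X.Λ X.lh (X.ψ μ) (X.χ μ)}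

/-- No multiplier of period `K` is equal to one at the parameter `ψ μ`. -/
def NF (X : Ctx) (μ : ℂ) : Prop := ∀ z : ℂ, X.Fx μ z → X.rh μ z ≠ 1

/-- `η` is the word of `z` with respect to `ζ`. -/
def Wd (X : Ctx) (μ ζ z : ℂ) (η : ℕ → ℤ) : Prop :=
  ∀ j : ℕ, Dig 2 X.lh (X.ψ μ) ζ ((F 2 (X.ψ μ))^[j] z) (η j)

end Ctx

/-- The properties of the section. -/
structure Dt (X : Ctx) : Prop where
  hk : 1 ≤ X.k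
  hp : 0 < X.p
  hpq : X.p < X.q
  cop : X.p.Coprime X.q
  bot : IsBot 2 X.Λ
  log : IsLog 2 X.Λ X.lh X.ls
  hC : 1 ≤ X.C1
  hρ : 0 < X.ρ
  sm : 400 * X.C1 * X.k * X.q ^ 2 * (X.K + 1) ^ 2 * X.ρ ≤ 1
  dψ : DifferentiableOn ℂ X.ψ (Metric.ball X.m0 (2 * X.ρ))
  dχ : DifferentiableOn ℂ X.χ (Metric.ball X.m0 (2 * X.ρ))
  pt : ∀ μ ∈ Metric.ball X.m0 (2 * X.ρ), Pt 2 X.k (X.ψ μ) (X.χ μ) (exp μ)
  bd : ∀ μ ∈ Metric.ball X.m0 (2 * X.ρ), ‖X.ψ μ‖ ≤ 16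
  dn : ∀ μ ∈ Metric.ball X.m0 (2 * X.ρ), deriv X.ψ μ ≠ 0

/-- The bifurcating cycle near `m0`: the points `z` near `χ m0` with `g z = μ`, with multiplier
`L μ`. -/
structure Bif (X : Ctx) (R r : ℝ) (g L : ℂ → ℂ) : Prop where
  hR : 0 < R
  hR1 : R ≤ X.ρ
  hr : 0 < r
  dg : DifferentiableOn ℂ g (Metric.ball (X.χ X.m0) r)
  g0 : g (X.χ X.m0) = X.m0
  gR : ∀ z ∈ Metric.ball (X.χ X.m0) r, g z ∈ Metric.ball X.m0 R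
  gne : ∀ z ∈ Metric.ball (X.χ X.m0) r, z ≠ X.χ X.m0 → g z ≠ X.m0
  pt : ∀ z ∈ Metric.ball (X.χ X.m0) r, z ≠ X.χ X.m0 → Pt 2 X.K (X.ψ (g z)) z (L (g z))
  dL : DifferentiableOn ℂ L (Metric.ball X.m0 R)
  L0 : L X.m0 = 1
  L1 : deriv L X.m0 = -(X.q : ℂ) ^ 2
  surj : ∃ δ : ℝ, 0 < δ ∧ ∀ μ : ℂ, μ ≠ X.m0 → ‖μ - X.m0‖ < δ →
    ∃ z ∈ Metric.ball (X.χ X.m0) r, z ≠ X.χ X.m0 ∧ g z = μ
  prop : ∀ e : ℝ, 0 < e → ∃ δ : ℝ, 0 < δ ∧ ∀ z ∈ Metric.ball (X.χ X.m0) r,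
    ‖g z - X.m0‖ < δ → ‖z - X.χ X.m0‖ < e
  one : ∀ z ∈ Metric.ball (X.χ X.m0) r, ∀ z' ∈ Metric.ball (X.χ X.m0) r, z ≠ X.χ X.m0 →
    z' ≠ X.χ X.m0 → g z = g z' → ∃ j : ℕ, (F 2 (X.ψ (g z)))^[j] z = z'
  uq : ∃ δ : ℝ, 0 < δ ∧ ∀ μ z : ℂ, ‖μ - X.m0‖ < δ → ‖z - X.χ X.m0‖ < δ → X.Fx μ z →
    z = X.χ μ ∨ (z ∈ Metric.ball (X.χ X.m0) r ∧ z ≠ X.χ X.m0 ∧ g z = μ)

/-- `z` is in the bifurcating cycle at `μ`. -/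
def Bc (X : Ctx) (r : ℝ) (g : ℂ → ℂ) (μ z : ℂ) : Prop :=
  ∃ z' ∈ Metric.ball (X.χ X.m0) r, z' ≠ X.χ X.m0 ∧ g z' = μ ∧
    ∃ j : ℕ, (F 2 (X.ψ μ))^[j] z' = z

/-- The predicate `P` is locally constant on the points fixed by the iterate of order `K` near
`(μ1, z1)`. -/
def LCp (X : Ctx) (P : ℂ → ℂ → Prop) (μ1 z1 : ℂ) : Prop := ∃ δ : ℝ, 0 < δ ∧
  ((∀ μ z : ℂ, ‖μ - μ1‖ < δ → ‖z - z1‖ < δ → X.Fx μ z → P μ z) ∨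
   (∀ μ z : ℂ, ‖μ - μ1‖ < δ → ‖z - z1‖ < δ → X.Fx μ z → ¬ P μ z))

/-! ### the full data -/

/-- The data with the combinatorial information. -/
structure Full extends Ctx where
  ε : ℕ → ℤ
  R0 : ℝ
  j0 : ℤ
  a : ℝ
  b : ℝ
  m : ℕ
  ω : ℕ → ℤ
  l : Label 2 (k * q)

/-- The angle. -/
noncomputable def an (ζ : ℂ) : ℝ := ζ.im / (2 * Real.pi)

/-- `ζ` is the normalized logarithmic Böttcher coordinate of the parameter `ψ μ`, outside the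
Mandelbrot set. -/
def Xt (X : Full) (μ ζ : ℂ) : Prop :=
  μ ∈ Metric.ball X.m0 X.ρ ∧ Crit 2 X.Λ (X.ψ μ) ζ ∧ X.Wd μ ζ (X.χ μ) X.ε ∧
    (X.j0 : ℝ) < Rot 2 X.k (an ζ) X.ε ∧ Rot 2 X.k (an ζ) X.ε < X.j0 + 1

/-- The properties of the full data. -/
structure Ok (X : Full) : Prop where
  dt : Dt X.toCtx
  cst : Cst X.C1
  cmb : Cmb X.k X.q X.ε X.R0 X.j0 X.a X.b X.m X.ω X.l
  xt : ∀ μ ∈ Metric.ball X.m0 X.ρ, X.ψ μ ∉ MM 2 → ∃ ζ : ℂ, Xt X μ ζ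
  vab : ∀ μ ζ : ℂ, Xt X μ ζ → (μ ∈ X.V ↔ X.a ≤ an ζ ∧ an ζ ≤ X.b)
  noi : ∀ μ ζ : ℂ, Xt X μ ζ → μ ∉ X.V →
    (∀ i : ℕ, ∃ i' : ℕ, Cod 2 (an ζ) (2 ^ i * X.a) (sh i' X.ω)) ∧
    ∀ i' : ℕ, ∃ i : ℕ, Cod 2 (an ζ) (2 ^ i * X.a) (sh i' X.ω)

/-- A global section of period `K` with the label `l`. -/
def HasL (X : Full) (Ψ Z : ℂ → ℂ) : Prop :=
  ∃ (i : ℕ) (ν : ℂ), ν ∈ Omg 1 X.kp ∧ 0 < ν.re ∧ 0 < ν.im ∧ ν.im < 2 * Real.pi ∧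
    LabR 2 X.K X.Λ X.lh (Ψ (exp ν)) ((F 2 (Ψ (exp ν)))^[i] (Z (exp ν))) X.l

/-- The point is on a global section with the label `l`. -/
def Cl (X : Full) (μ z : ℂ) : Prop :=
  ∃ (c0 : ℂ) (Ψ Z : ℂ → ℂ), Glob 2 X.K 1 X.kp c0 Ψ Z ∧ X.rh μ z ∈ DD 2 1 X.kp ∧
    Ψ (X.rh μ z) = X.ψ μ ∧ (∃ j : ℕ, (F 2 (X.ψ μ))^[j] (Z (X.rh μ z)) = z) ∧ HasL X Ψ Z

/-- The points of the continuation of the bifurcating cycle. -/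
def Sb (X : Full) (μ z : ℂ) : Prop :=
  X.Fx μ z ∧ Exa 2 X.K (X.ψ μ) z ∧
  ((X.ψ μ ∉ MM 2 ∧ ∃ (ζ : ℂ) (i : ℕ), Xt X μ ζ ∧ X.Wd μ ζ z (sh i X.ω)) ∨
   (X.ψ μ ∈ MM 2 ∧ μ ∉ X.V ∧ 1 < ‖X.rh μ z‖ ∧ ∃ i : ℕ, Lands X.Λ (X.ψ μ) (2 ^ i * X.a) z) ∨
   (X.ψ μ ∈ MM 2 ∧ μ ∈ X.V ∧ 1 < ‖X.rh μ z‖ ∧
     ∃ j : ℕ, LabR 2 X.K X.Λ X.lh (X.ψ μ) ((F 2 (X.ψ μ))^[j] z) X.l) ∨
   (X.ψ μ ∈ MM 2 ∧ μ ∈ X.V ∧ ‖X.rh μ z‖ ≤ 1 ∧ Cl X μ z))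

/-- The continuation of the bifurcating cycle over the disc. -/
structure Root (X : Ctx) (L : ℂ → ℂ) (T : ℂ → Finset ℂ) : Prop where
  dL : DifferentiableOn ℂ L (Metric.ball X.m0 X.ρ)
  L0 : L X.m0 = 1
  L1 : deriv L X.m0 = -(X.q : ℂ) ^ 2
  bd : ∀ μ ∈ Metric.ball X.m0 X.ρ, ‖L μ‖ ≤ Real.exp (3 * X.K)
  ne : ∀ μ ∈ Metric.ball X.m0 X.ρ, μ ≠ X.m0 → L μ ≠ 1
  card : ∀ μ ∈ X.B, (T μ).card = X.K
  pt : ∀ μ ∈ X.B, ∀ z ∈ T μ, Pt 2 X.K (X.ψ μ) z (L μ)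
  loc : ∀ μ1 ∈ X.B, ∀ z1 ∈ T μ1, ∃ (δ : ℝ) (f : ℂ → ℂ), 0 < δ ∧
    Metric.ball μ1 δ ⊆ X.B ∧ DifferentiableOn ℂ f (Metric.ball μ1 δ) ∧ f μ1 = z1 ∧
    ∀ μ ∈ Metric.ball μ1 δ, f μ ∈ T μ
  near : ∃ δ : ℝ, 0 < δ ∧ ∀ μ z w : ℂ, ‖μ - X.m0‖ < δ → Pt 2 X.K (X.ψ μ) z w → ‖w‖ < 1 →
    μ ≠ X.m0 ∧ w = L μ

/-! ### sections for one period -/

/-- Regularity of the points over the extended half plane, for one period. -/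
structure GODf (n k N : ℕ) (κ : ℝ) : Prop where
  ne : ∀ μ ∈ Omg N κ, exp μ ≠ 1
  pt : ∀ c z μ : ℂ, μ ∈ Omg N κ → Pt n k c z (exp μ) → ‖c‖ < 16 ∧ ∀ R : ℝ, 0 < R →
    ∃ (ε r : ℝ) (zf : ℂ → ℂ), ε ≤ R ∧ r ≤ R ∧ LocFix n k c z ε r zf ∧
      deriv (fun c => Rho n k c (zf c)) c ≠ 0

/-! ### components and limbs -/

/-- `P` parametrizes a hyperbolic component of period `K` of the Mandelbrot set by the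
multiplier. -/
structure Comp (K : ℕ) (P : ℂ → ℂ) : Prop where
  hK : 1 ≤ K
  dP : DifferentiableOn ℂ P (Metric.ball 0 1)
  pt : ∀ v ∈ Metric.ball (0 : ℂ) 1, ∃ z : ℂ, Pt 2 K (P v) z v

/-- The component is a satellite component. -/
def Sat (K : ℕ) (P : ℂ → ℂ) : Prop :=
  ∃ (k p q : ℕ) (r0 z0 : ℂ), K = k * q ∧ 0 < p ∧ p < q ∧ p.Coprime q ∧
    Tendsto P (𝓝[Metric.ball 0 1] 1) (𝓝 r0) ∧ Pt 2 k r0 z0 (exp (2 * Real.pi * I * p / q))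

/-- `A` is the `p / q` limb of the component, with root `r`. -/
structure Lmb (P : ℂ → ℂ) (p q : ℕ) (r : ℂ) (A : Set ℂ) : Prop where
  hp : 0 < p
  hpq : p < q
  cop : p.Coprime q
  lim : Tendsto P (𝓝[Metric.ball 0 1] (exp (2 * Real.pi * I * p / q))) (𝓝 r)
  sub : A ⊆ MM 2
  op : ∃ U : Set ℂ, IsOpen U ∧ A = MM 2 ∩ U
  cl : IsClosed (insert r A)
  nr : r ∉ A
  n0 : (0 : ℂ) ∉ A

end Pool.Agent.PSat
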