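import Pool.Agent.PSat.Basic

/-!
# PSAT: SBC, local constancy of the continuation, in `V`, at the repelling points
-/

set_option autoImplicit false

open Complex Filter Topology Set
open Pool.Agent.Multibrot (MM)
open Pool.Agent.Limb (F)
open Pool.Agent.PLim (Rho IsBot IsLog Crit Dig Rot IsInt Label lab Ex Cod Per Lands InZ LabR
  ZVn ONTOn NCn OMXn SECTn LocFix)
open Pool.Agent.MEX (Exa)
open Pool.Agent.MEY (Pt Omg DD Glob)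

namespace Pool.Agent.PSat

namespace SBC_

/-- the label of one point of the cycle is locally constant -/
lemma lab_loc {X : Ctx} (h : Dt X) (l : Label 2 X.K) {μ1 z1 : ℂ}
    (hμ : μ1 ∈ Metric.ball X.m0 X.ρ) (hz : X.Fx μ1 z1) (hM : X.ψ μ1 ∈ MM 2)
    (hR : 1 < ‖X.rh μ1 z1‖) (j : ℕ) :
    ∀ᶠ x : ℂ × ℂ in 𝓝 (μ1, z1), X.Fx x.1 x.2 →
      (LabR 2 X.K X.Λ X.lh (X.ψ x.1) ((F 2 (X.ψ x.1))^[j] x.2) l ↔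
        LabR 2 X.K X.Λ X.lh (X.ψ μ1) ((F 2 (X.ψ μ1))^[j] z1) l) := by
  have hμ2 := h.sub2 hμ
  have hfj : (F 2 (X.ψ μ1))^[X.K] ((F 2 (X.ψ μ1))^[j] z1) = (F 2 (X.ψ μ1))^[j] z1 :=
    fix_iter hz j
  have hRj : 1 < ‖Rho 2 X.K (X.ψ μ1) ((F 2 (X.ψ μ1))^[j] z1)‖ := by
    rw [rho_iter hz j]
    exact hR
  have hrep : ∀ᶠ x : ℂ × ℂ in 𝓝 (μ1, z1), 1 < ‖X.rh x.1 x.2‖ :=
    (h.rh_cont hμ2 z1).norm.eventually (lt_mem_nhds hR)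
  have hψ : ContinuousAt (fun x : ℂ × ℂ => X.ψ x.1) (μ1, z1) :=
    ContinuousAt.comp (f := fun x : ℂ × ℂ => x.1) (g := X.ψ) (h.psi_cont hμ2)
      continuous_fst.continuousAt
  have hnear : ∀ δ : ℝ, 0 < δ → ∀ᶠ x : ℂ × ℂ in 𝓝 (μ1, z1),
      ‖X.ψ x.1 - X.ψ μ1‖ < δ ∧ ‖(F 2 (X.ψ x.1))^[j] x.2 - (F 2 (X.ψ μ1))^[j] z1‖ < δ := by
    intro δ hδ
    have e1 := hψ.eventually (Metric.ball_mem_nhds _ hδ)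
    have e2 := (h.iter_cont hμ2 z1 j).eventually (Metric.ball_mem_nhds _ hδ)
    filter_upwards [e1, e2] with x h1 h2
    rw [dist_eq_norm] at h1 h2
    exact ⟨h1, h2⟩
  have LU1 := Pool.Agent.PLim.a_LU 2 X.K X.Λ X.lh X.ls (X.ψ μ1) ((F 2 (X.ψ μ1))^[j] z1) le_rfl
    h.hK1 h.bot h.log hfj hRj
  by_cases hin : InZ 2 X.K X.Λ X.lh (X.ψ μ1) ((F 2 (X.ψ μ1))^[j] z1)
  · obtain ⟨δ, hδ, hδ'⟩ := Pool.Agent.PLim.a_ZOP 2 X.K X.Λ X.lh X.ls (X.ψ μ1)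
      ((F 2 (X.ψ μ1))^[j] z1) le_rfl h.hK1 h.bot h.log hM hfj hRj hin
    filter_upwards [hnear δ hδ, hrep] with x hx hr hfx
    have hfx' : (F 2 (X.ψ x.1))^[X.K] x.2 = x.2 := hfx
    have hiz := hδ' (X.ψ x.1) ((F 2 (X.ψ x.1))^[j] x.2) hx.1 hx.2 (fix_iter hfx' j)
    have LUx := Pool.Agent.PLim.a_LU 2 X.K X.Λ X.lh X.ls (X.ψ x.1) ((F 2 (X.ψ x.1))^[j] x.2)
      le_rfl h.hK1 h.bot h.log (fix_iter hfx' j) (by rw [rho_iter hfx' j]; exact hr)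
    exact ⟨fun h1 => absurd hiz (LUx.2.2 l h1), fun h1 => absurd hin (LU1.2.2 l h1)⟩
  · obtain ⟨l1, hl1⟩ := LU1.1 hin
    obtain ⟨δ, hδ, hδ'⟩ := Pool.Agent.PLim.a_LOP 2 X.K X.Λ X.lh X.ls (X.ψ μ1)
      ((F 2 (X.ψ μ1))^[j] z1) l1 le_rfl h.hK1 h.bot h.log hfj hRj hl1
    filter_upwards [hnear δ hδ, hrep] with x hx hr hfx
    have hfx' : (F 2 (X.ψ x.1))^[X.K] x.2 = x.2 := hfx
    have hl2 := hδ' (X.ψ x.1) ((F 2 (X.ψ x.1))^[j] x.2) hx.1 hx.2 (fix_iter hfx' j)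
    have LUx := Pool.Agent.PLim.a_LU 2 X.K X.Λ X.lh X.ls (X.ψ x.1) ((F 2 (X.ψ x.1))^[j] x.2)
      le_rfl h.hK1 h.bot h.log (fix_iter hfx' j) (by rw [rho_iter hfx' j]; exact hr)
    constructor
    · intro h1
      rw [LUx.2.1 l l1 h1 hl2]
      exact hl1
    · intro h1
      rw [LU1.2.1 l l1 h1 hl1]
      exact hl2

/-- only the first `K` points of the cycle matter -/
lemma ex_mod {X : Ctx} (h : Dt X) (l : Label 2 X.K) {μ z : ℂ} (hz : X.Fx μ z) :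
    (∃ j : ℕ, LabR 2 X.K X.Λ X.lh (X.ψ μ) ((F 2 (X.ψ μ))^[j] z) l) ↔
      ∃ j < X.K, LabR 2 X.K X.Λ X.lh (X.ψ μ) ((F 2 (X.ψ μ))^[j] z) l := by
  constructor
  · rintro ⟨j, hj⟩
    refine ⟨j % X.K, Nat.mod_lt _ h.hK1, ?_⟩
    have hz' : (F 2 (X.ψ μ))^[X.K] z = z := hz
    rw [fix_mod hz' j]
    exact hj
  · rintro ⟨j, -, hj⟩
    exact ⟨j, hj⟩

/-- the description of the continuation near the point -/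
lemma sb_iff (hE : T_EXV) {X : Full} (h : Ok X) {μ z : ℂ} (hμ : μ ∈ Metric.ball X.m0 X.ρ)
    (hV : μ ∈ X.V) (hX : ∀ ζ : ℂ, Xt X μ ζ → X.a < an ζ ∧ an ζ < X.b) (hz : X.Fx μ z)
    (hR : 1 < ‖X.rh μ z‖) :
    Sb X μ z ↔ Exa 2 X.K (X.ψ μ) z ∧
      ∃ j : ℕ, LabR 2 X.K X.Λ X.lh (X.ψ μ) ((F 2 (X.ψ μ))^[j] z) X.l := by
  by_cases hM : X.ψ μ ∈ MM 2
  · constructor
    · rintro ⟨-, h2, h3⟩
      refine ⟨h2, ?_⟩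
      rcases h3 with h3 | h3 | h3 | h3
      · exact absurd hM h3.1
      · exact absurd hV h3.2.1
      · exact h3.2.2.2
      · exact absurd h3.2.2.1 (not_le.mpr hR)
    · rintro ⟨h2, h3⟩
      exact ⟨hz, h2, Or.inr (Or.inr (Or.inl ⟨hM, hV, hR, h3⟩))⟩
  · obtain ⟨ζ, hζ⟩ := h.xt μ hμ hM
    obtain ⟨ha, hb⟩ := hX ζ hζ
    have h1 := hE X h μ ζ z hζ ha hb hz
    constructor
    · intro h2
      exact ⟨h2.2.1, h1.mp h2⟩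
    · rintro ⟨-, h3⟩
      exact h1.mpr h3

end SBC_

open SBC_ in
/-- SBC: local constancy in `V`, repelling case. -/
theorem p_SBC (hV : T_VPR) (hX : T_EXL) (hE : T_EXV) : T_SBC := by
  intro X h μ1 z1 hμ1 hz1 hM hV1 hR
  have hμ : μ1 ∈ Metric.ball X.m0 X.ρ := B_sub X.toCtx hμ1
  have hμ2 := h.dt.sub2 hμ
  obtain ⟨δ1, hδ1, hδ1'⟩ := (hV X.toCtx h.dt h.cst).2.1 μ1 hV1 hM
  obtain ⟨δ2, hδ2, hδ2'⟩ := hX X h μ1 hV1 hM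
  have hne : X.rh μ1 z1 ≠ 1 := by
    intro h1
    rw [h1, norm_one] at hR
    exact lt_irrefl _ hR
  obtain ⟨δ3, hδ3, hδ3'⟩ := h.dt.exa_loc hμ2 hz1 hne
  have hfst : ∀ s ∈ 𝓝 μ1, ∀ᶠ x : ℂ × ℂ in 𝓝 (μ1, z1), x.1 ∈ s := fun s hs =>
    (continuous_fst.continuousAt : ContinuousAt (Prod.fst : ℂ × ℂ → ℂ) (μ1, z1)).eventually hs
  have e1 := hfst _ (Metric.isOpen_ball.mem_nhds hμ)
  have e2 := hfst _ (Metric.ball_mem_nhds μ1 hδ1)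
  have e3 := hfst _ (Metric.ball_mem_nhds μ1 hδ2)
  have e4 : ∀ᶠ x : ℂ × ℂ in 𝓝 (μ1, z1), 1 < ‖X.rh x.1 x.2‖ :=
    (h.dt.rh_cont hμ2 z1).norm.eventually (lt_mem_nhds hR)
  have e5 : ∀ᶠ x : ℂ × ℂ in 𝓝 (μ1, z1), X.Fx x.1 x.2 →
      (Exa 2 X.K (X.ψ x.1) x.2 ↔ Exa 2 X.K (X.ψ μ1) z1) :=
    (near_iff (P := fun μ z => X.Fx μ z →
      (Exa 2 X.K (X.ψ μ) z ↔ Exa 2 X.K (X.ψ μ1) z1))).mpr ⟨δ3, hδ3, hδ3'⟩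
  have e6 : ∀ᶠ x : ℂ × ℂ in 𝓝 (μ1, z1), ∀ j ∈ Finset.range X.K, X.Fx x.1 x.2 →
      (LabR 2 X.K X.Λ X.lh (X.ψ x.1) ((F 2 (X.ψ x.1))^[j] x.2) X.l ↔
        LabR 2 X.K X.Λ X.lh (X.ψ μ1) ((F 2 (X.ψ μ1))^[j] z1) X.l) :=
    (Filter.eventually_all_finset _).mpr fun j _ =>
      lab_loc h.dt X.l hμ hz1 hM hR j
  have key : ∀ᶠ x : ℂ × ℂ in 𝓝 (μ1, z1), X.Fx x.1 x.2 →
      (Sb X x.1 x.2 ↔ (Exa 2 X.K (X.ψ μ1) z1 ∧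
        ∃ j < X.K, LabR 2 X.K X.Λ X.lh (X.ψ μ1) ((F 2 (X.ψ μ1))^[j] z1) X.l)) := by
    filter_upwards [e1, e2, e3, e4, e5, e6] with x h1 h2 h3 h4 h5 h6 hfx
    rw [sb_iff hE h h1 (hδ1' h2) (hδ2' x.1 h3) hfx h4, h5 hfx, ex_mod h.dt X.l hfx]
    constructor
    · rintro ⟨hex, j, hj, hl⟩
      exact ⟨hex, j, hj, (h6 j (Finset.mem_range.mpr hj) hfx).mp hl⟩
    · rintro ⟨hex, j, hj, hl⟩
      exact ⟨hex, j, hj, (h6 j (Finset.mem_range.mpr hj) hfx).mpr hl⟩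
  obtain ⟨δ, hδ, hδ'⟩ := (near_iff (P := fun μ z => X.Fx μ z →
      (Sb X μ z ↔ (Exa 2 X.K (X.ψ μ1) z1 ∧
        ∃ j < X.K, LabR 2 X.K X.Λ X.lh (X.ψ μ1) ((F 2 (X.ψ μ1))^[j] z1) X.l)))).mp key
  refine ⟨δ, hδ, ?_⟩
  by_cases hT : Exa 2 X.K (X.ψ μ1) z1 ∧
      ∃ j < X.K, LabR 2 X.K X.Λ X.lh (X.ψ μ1) ((F 2 (X.ψ μ1))^[j] z1) X.l
  · left
    intro μ z h1 h2 h3
    exact (hδ' μ z h1 h2 h3).mpr hT
  · right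
    intro μ z h1 h2 h3 h4
    exact hT ((hδ' μ z h1 h2 h3).mp h4)

end Pool.Agent.PSat
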