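import Pool.Agent.PSat.NXS
import Pool.Agent.PSat.GEX
import Pool.Agent.MEY.DDO
import Pool.Agent.MEY.OMG

/-!
# PSAT, third part: towers of satellite components
-/

set_option autoImplicit false

open Complex Filter Topology Set
open Pool.Agent.Multibrot (MM MM_bound)
open Pool.Agent.Limb (F)
open Pool.Agent.PLim (Rho NCn OMXn Piece IsLimb)
open Pool.Agent.MEX (Exa)
open Pool.Agent.MEY (Pt Omg DD Glob)

namespace Pool.Agent.PSat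

/-- An infinite sequence of satellite components `P m` of periods `K m`, such that `P (m + 1)` is
attached at the root `r m` of the `p m / q m`-limb `A m` of `P m`. -/
structure Twr (K p q : ℕ → ℕ) (P : ℕ → ℂ → ℂ) (r : ℕ → ℂ) (A : ℕ → Set ℂ) : Prop where
  comp : ∀ m, Comp (K m) (P m)
  sat : ∀ m, Sat (K m) (P m)
  per : ∀ m, K (m + 1) = K m * q m
  lmb : ∀ m, Lmb (P m) (p m) (q m) (r m) (A m)
  att : ∀ m, Tendsto (P (m + 1)) (𝓝[Metric.ball 0 1] 1) (𝓝 (r m))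
  mem : ∀ m, ∀ v ∈ Metric.ball (0 : ℂ) 1, P (m + 1) v ∈ A m
  nest : ∀ m, A (m + 1) ⊆ A m
  rt : ∀ m, r (m + 1) ∈ A m

/-- RNE (from CST, MKD, LBC, RP0 of PSAT): the satellite cycle at the root is repelling or
collapsed. -/
def T_RNE : Prop := ∀ (k p q : ℕ) (r z z' u : ℂ), 1 ≤ k → 0 < p → p < q → p.Coprime q →
  Pt 2 k r z (exp (2 * Real.pi * I * p / q)) → Pt 2 (k * q) r z' u → ‖u‖ ≤ 1 → False

/-- TWX (from LNS, RNE of PSAT and NEST of PLIM): towers with given rotation numbers. -/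
def T_TWX : Prop := ∃ C : ℝ, 1 ≤ C ∧ ∀ (K p q : ℕ → ℕ) (P0 : ℂ → ℂ), Comp (K 0) P0 →
  Sat (K 0) P0 → (∀ m, K (m + 1) = K m * q m) →
  (∀ m, 0 < p m ∧ p m < q m ∧ (p m).Coprime (q m) ∧ C * (K m : ℝ) ^ 10 ≤ q m) →
  ∃ (P : ℕ → ℂ → ℂ) (r : ℕ → ℂ) (A : ℕ → Set ℂ), P 0 = P0 ∧ Twr K p q P r A

/-- TWI (from FNL of PSAT): the limbs of a tower. -/
def T_TWI : Prop := ∀ (K p q : ℕ → ℕ) (P : ℕ → ℂ → ℂ) (r : ℕ → ℂ) (A : ℕ → Set ℂ),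
  Twr K p q P r A → (⋂ m, A m).Nonempty ∧
    ((∀ B : ℝ, ∃ m, B * (K m : ℝ) ^ 10 ≤ q m) → ∃ c : ℂ, ⋂ m, A m = {c})

/-- TWR (from RNE, CST, CMG of PSAT): the roots of a tower. -/
def T_TWR : Prop := ∀ (K p q : ℕ → ℕ) (P : ℕ → ℂ → ℂ) (r : ℕ → ℂ) (A : ℕ → Set ℂ),
  (∀ m, Comp (K m) (P m)) → (∀ m, Sat (K m) (P m)) → (∀ m, K (m + 1) = K m * q m) →
  (∀ m, Lmb (P m) (p m) (q m) (r m) (A m)) →
  (∀ m, Tendsto (P (m + 1)) (𝓝[Metric.ball 0 1] 1) (𝓝 (r m))) →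
  (∀ m, ∀ v ∈ Metric.ball (0 : ℂ) 1, P (m + 1) v ∈ A m) → (∀ m, A (m + 1) ⊆ A m) →
  Twr K p q P r A

/-- `c` lies in the limbs of a tower with large denominators and rotation numbers in `S m`. -/
def TwrS (S : ℕ → Set (ℕ × ℕ)) (c : ℂ) : Prop :=
  ∃ (K p q : ℕ → ℕ) (P : ℕ → ℂ → ℂ) (r : ℕ → ℂ) (A : ℕ → Set ℂ), Twr K p q P r A ∧
    ∀ m, c ∈ A m ∧ (p m, q m) ∈ S m ∧ (m : ℝ) * (K m : ℝ) ^ 10 ≤ q m

/-- UN2 (from NX2, LNF, SEX, DNE of PSAT and LIMB of PLIM). -/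
def T_UN2 : Prop := ∀ (S : ℕ → Set (ℕ × ℕ)) (c0 : ℂ) (N : Set ℂ),
  (∀ m, ∀ x ∈ S m, 0 < x.1 ∧ x.1 < x.2 ∧ x.1.Coprime x.2) → (∀ m, (S m).Infinite) →
  c0 ∈ frontier (MM 2) → N ∈ 𝓝 c0 → ¬ (N ∩ {c : ℂ | TwrS S c}).Countable

/-- NX2: as NXS, with the root of the new component. -/
def T_NX2 : Prop := ∀ (S : Set (ℕ × ℕ)) (K : ℕ) (P : ℂ → ℂ) (r s : ℂ) (A : Set ℂ) (B : ℝ),
  (∀ x ∈ S, 0 < x.1 ∧ x.1 < x.2 ∧ x.1.Coprime x.2) → S.Infinite → Comp K P → Sat K P →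
  Piece 2 r A → (∀ v ∈ Metric.ball (0 : ℂ) 1, P v ∈ A) →
  ∃ (p q : ℕ) (r' : ℂ) (P' : ℂ → ℂ) (A' : Set ℂ), (p, q) ∈ S ∧ B * (K : ℝ) ^ 10 ≤ q ∧
    Lmb P p q r' A' ∧ Piece 2 r' A' ∧ A' ⊆ A ∧ r' ∈ A ∧ s ∉ insert r' A' ∧ Comp (K * q) P' ∧
    Sat (K * q) P' ∧ Tendsto P' (𝓝[Metric.ball 0 1] 1) (𝓝 r') ∧
    ∀ v ∈ Metric.ball (0 : ℂ) 1, P' v ∈ A'

theorem p_RNE (hCST : T_CST) (hMKD : T_MKD) (hLBC : T_LBC) (hRP0 : T_RP0) : T_RNE := by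
  intro k p q r z z' u hk hp hpq hcop hz hz' hu
  obtain ⟨C, hC, hcst⟩ := hCST
  obtain ⟨X, hXC, hXk, hXp, hXq, -, hψ, hχ, hD⟩ := hMKD C k p q r z hC hcst hk hp hpq hcop hz
  subst hXk hXq
  obtain ⟨R, r', g, L, -, -, hB⟩ := hLBC X hD 1 one_pos
  have hfx : X.Fx X.m0 z' := by
    unfold Ctx.Fx
    rw [hψ]
    exact hz'.fix
  rcases hRP0 X hD R r' g L hB z' hfx with ⟨j, hj⟩ | h
  · rw [hψ, hχ] at hj
    have h1 : (F 2 r)^[X.k] z' = z' := by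
      rw [← hj]
      exact fix_iter hz.fix j
    have h2 := hD.hq
    have h3 : X.k < X.k * X.q := by
      calc X.k < X.k * 2 := by omega
        _ ≤ X.k * X.q := Nat.mul_le_mul_left _ h2
    exact hz'.exa X.k (by omega) h3 h1
  · have h1 : X.rh X.m0 z' = u := by
      unfold Ctx.rh
      rw [hψ]
      exact hz'.mul
    rw [h1] at h
    linarith

namespace TWR_

open NXS_

/-- The state of the construction. -/
def St (K : ℕ) (x : ℂ × (ℂ → ℂ) × Set ℂ) : Prop :=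
  Comp K x.2.1 ∧ Sat K x.2.1 ∧ Tendsto x.2.1 (𝓝[Metric.ball 0 1] 1) (𝓝 x.1) ∧
    Piece 2 x.1 x.2.2 ∧ ∀ v ∈ Metric.ball (0 : ℂ) 1, x.2.1 v ∈ x.2.2

lemma nb1 : (𝓝[Metric.ball (0 : ℂ) 1] (1 : ℂ)).NeBot := by
  apply mem_closure_iff_nhdsWithin_neBot.1
  rw [closure_ball (0 : ℂ) one_ne_zero, mem_closedBall_zero_iff]
  simp

lemma root_ne (hRNE : T_RNE) {K : ℕ} {P : ℂ → ℂ} {r r' z' : ℂ} {p q : ℕ} (hs : Sat K P)
    (ht : Tendsto P (𝓝[Metric.ball 0 1] 1) (𝓝 r))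
    (hz' : Pt 2 K r' z' (exp (2 * Real.pi * I * p / q))) : r' ≠ r := by
  rintro rfl
  obtain ⟨k1, p1, q1, r1, z1, hK, hp, hpq, hcop, ht1, hz1⟩ := hs
  have h1 : r1 = r' := by
    have := nb1
    exact tendsto_nhds_unique ht1 ht
  subst h1
  subst hK
  have hk1 : 1 ≤ k1 := by
    by_contra h
    have : k1 = 0 := by omega
    subst this
    have h3 := hz1.mul
    rw [← h3] at hz1
    have h4 : Rho 2 0 r1 z1 = 1 := by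
      simp [Pool.Agent.PLim.Rho]
    have h5 := rot_ne_one hp hpq
    exact h5 (h3.symm.trans h4)
  exact hRNE k1 p1 q1 r1 z1 z' _ hk1 hp hpq hcop hz1 hz' (by rw [rot_norm])

lemma base {C : ℝ} (hL : ∀ (K : ℕ) (P : ℂ → ℂ) (p q : ℕ), Comp K P → Sat K P →
    0 < p → p < q → p.Coprime q → C * (K : ℝ) ^ 10 ≤ q →
    ∃ (r z0 : ℂ) (P' : ℂ → ℂ) (A : Set ℂ), Pt 2 K r z0 (exp (2 * Real.pi * I * p / q)) ∧
      Comp (K * q) P' ∧ Sat (K * q) P' ∧ Tendsto P' (𝓝[Metric.ball 0 1] 1) (𝓝 r) ∧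
      Lmb P p q r A ∧ ∀ v ∈ Metric.ball (0 : ℂ) 1, P' v ∈ A) {K : ℕ} {P : ℂ → ℂ} {p q : ℕ}
    (hP : Comp K P) (hs : Sat K P) (hp : 0 < p) (hpq : p < q) (hcop : p.Coprime q)
    (hq : C * (K : ℝ) ^ 10 ≤ q) :
    ∃ x : ℂ × (ℂ → ℂ) × Set ℂ, St (K * q) x ∧ Lmb P p q x.1 x.2.2 := by
  obtain ⟨r, z0, P', A, h1, h2, h3, h4, h5, h6⟩ := hL K P p q hP hs hp hpq hcop hq
  have hlimb : IsLimb 2 K p q r z0 A :=
    ⟨hP.hK, h5.hp, h5.hpq, h5.cop, h1.fix, h1.mul, h5.sub, h5.op, h5.cl, h5.nr, h5.n0⟩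
  exact ⟨(r, P', A), ⟨h2, h3, h4, Pool.Agent.PLim.UNC_.limb_piece hlimb, h6⟩, h5⟩

lemma step {C : ℝ} (hRNE : T_RNE) (hL : ∀ (K : ℕ) (P : ℂ → ℂ) (p q : ℕ), Comp K P → Sat K P →
    0 < p → p < q → p.Coprime q → C * (K : ℝ) ^ 10 ≤ q →
    ∃ (r z0 : ℂ) (P' : ℂ → ℂ) (A : Set ℂ), Pt 2 K r z0 (exp (2 * Real.pi * I * p / q)) ∧
      Comp (K * q) P' ∧ Sat (K * q) P' ∧ Tendsto P' (𝓝[Metric.ball 0 1] 1) (𝓝 r) ∧
      Lmb P p q r A ∧ ∀ v ∈ Metric.ball (0 : ℂ) 1, P' v ∈ A) {K : ℕ}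
    {x : ℂ × (ℂ → ℂ) × Set ℂ} {p q : ℕ} (hx : St K x) (hp : 0 < p) (hpq : p < q)
    (hcop : p.Coprime q) (hq : C * (K : ℝ) ^ 10 ≤ q) :
    ∃ y : ℂ × (ℂ → ℂ) × Set ℂ, St (K * q) y ∧ Lmb x.2.1 p q y.1 y.2.2 ∧ y.2.2 ⊆ x.2.2 ∧
      y.1 ∈ x.2.2 := by
  obtain ⟨hP, hs, ht, hA, hv⟩ := hx
  obtain ⟨r', z0, P', A', h1, h2, h3, h4, h5, h6⟩ := hL K x.2.1 p q hP hs hp hpq hcop hq
  have hlimb : IsLimb 2 K p q r' z0 A' :=
    ⟨hP.hK, h5.hp, h5.hpq, h5.cop, h1.fix, h1.mul, h5.sub, h5.op, h5.cl, h5.nr, h5.n0⟩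
  have hne : r' ≠ x.1 := root_ne hRNE hs ht h1
  have hrA : r' ∈ x.2.2 := by
    have h7 : r' ∈ closure (x.2.1 '' Metric.ball (0 : ℂ) 1) := root_cl h5
    have h8 : closure (x.2.1 '' Metric.ball (0 : ℂ) 1) ⊆ insert x.1 x.2.2 := by
      refine closure_minimal ?_ hA.cl
      rintro _ ⟨v, hv', rfl⟩
      exact mem_insert_of_mem _ (hv v hv')
    rcases h8 h7 with h | h
    · exact absurd h hne
    · exact h
  refine ⟨(r', P', A'), ⟨h2, h3, h4, Pool.Agent.PLim.UNC_.limb_piece hlimb, h6⟩, h5, ?_, hrA⟩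
  exact Pool.Agent.PLim.a_NEST 2 K p q x.1 r' z0 x.2.2 A' le_rfl hA hlimb hrA hne

end TWR_

open TWR_ in
theorem p_TWX (hLNS : T_LNS) (hRNE : T_RNE) : T_TWX := by
  obtain ⟨C1, hC1, hL⟩ := hLNS
  refine ⟨C1, hC1, ?_⟩
  intro K p q P0 hP0 hS0 hK hpq
  obtain ⟨x0, hx0, hl0⟩ := base hL hP0 hS0 (hpq 0).1 (hpq 0).2.1 (hpq 0).2.2.1 (hpq 0).2.2.2
  have hst : ∀ (m : ℕ) (x : ℂ × (ℂ → ℂ) × Set ℂ), St (K (m + 1)) x →
      ∃ y : ℂ × (ℂ → ℂ) × Set ℂ, St (K (m + 2)) y ∧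
        (Lmb x.2.1 (p (m + 1)) (q (m + 1)) y.1 y.2.2 ∧ y.2.2 ⊆ x.2.2 ∧ y.1 ∈ x.2.2) := by
    intro m x hx
    obtain ⟨y, h1, h2, h3, h4⟩ := step hRNE hL hx (hpq (m + 1)).1 (hpq (m + 1)).2.1
      (hpq (m + 1)).2.2.1 (hpq (m + 1)).2.2.2
    rw [← hK (m + 1)] at h1
    exact ⟨y, h1, h2, h3, h4⟩
  rw [← hK 0] at hx0
  choose g hg using hst
  let f : (m : ℕ) → {x : ℂ × (ℂ → ℂ) × Set ℂ // St (K (m + 1)) x} := fun m =>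
    Nat.rec (motive := fun m => {x : ℂ × (ℂ → ℂ) × Set ℂ // St (K (m + 1)) x}) ⟨x0, hx0⟩
      (fun m x => ⟨g m x.1 x.2, (hg m x.1 x.2).1⟩) m
  have hf : ∀ m, Lmb (f m).1.2.1 (p (m + 1)) (q (m + 1)) (f (m + 1)).1.1 (f (m + 1)).1.2.2 ∧
      (f (m + 1)).1.2.2 ⊆ (f m).1.2.2 ∧ (f (m + 1)).1.1 ∈ (f m).1.2.2 :=
    fun m => (hg m (f m).1 (f m).2).2
  have hf0 : (f 0).1 = x0 := rfl
  obtain ⟨P, hP⟩ : ∃ P : ℕ → ℂ → ℂ, P 0 = P0 ∧ ∀ m, P (m + 1) = (f m).1.2.1 :=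
    ⟨fun m => Nat.casesOn m P0 (fun j => (f j).1.2.1), rfl, fun m => rfl⟩
  obtain ⟨r, hr⟩ : ∃ r : ℕ → ℂ, ∀ m, r m = (f m).1.1 := ⟨fun m => (f m).1.1, fun m => rfl⟩
  obtain ⟨A, hA⟩ : ∃ A : ℕ → Set ℂ, ∀ m, A m = (f m).1.2.2 :=
    ⟨fun m => (f m).1.2.2, fun m => rfl⟩
  refine ⟨P, r, A, hP.1, ?_, ?_, hK, ?_, ?_, ?_, ?_, ?_⟩
  · intro m
    cases m with
    | zero => rw [hP.1]; exact hP0
    | succ m => rw [hP.2]; exact (f m).2.1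
  · intro m
    cases m with
    | zero => rw [hP.1]; exact hS0
    | succ m => rw [hP.2]; exact (f m).2.2.1
  · intro m
    cases m with
    | zero => rw [hP.1, hr, hA, hf0]; exact hl0
    | succ m => rw [hP.2, hr, hA]; exact (hf m).1
  · intro m
    rw [hP.2, hr]
    exact (f m).2.2.2.1
  · intro m
    rw [hP.2, hA]
    exact (f m).2.2.2.2.2
  · intro m
    rw [hA, hA]
    exact (hf m).2.1
  · intro m
    rw [hr, hA]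
    exact (hf m).2.2

theorem p_TWI (hFNL : T_FNL) : T_TWI := by
  obtain ⟨C2, hC2, hF⟩ := hFNL
  intro K p q P r A htw
  have hne : (⋂ m, A m).Nonempty := by
    have hcl : ∀ m, insert (r (m + 1)) (A (m + 1)) ⊆ A m := by
      intro m
      exact insert_subset (htw.rt m) (htw.nest m)
    have hr0 : r 0 ∈ MM 2 := ((hF _ _ (htw.comp 0) (htw.sat 0)).2 _ _ _ _ (htw.lmb 0)).1
    have hcomp : IsCompact (insert (r 0) (A 0)) := by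
      refine Metric.isCompact_of_isClosed_isBounded (htw.lmb 0).cl ?_
      refine (Metric.isBounded_closedBall (x := (0 : ℂ)) (r := 1 + 2 / (2 : ℕ))).subset ?_
      intro x hx
      rw [mem_closedBall_zero_iff]
      rcases hx with h | h
      · rw [h]; exact MM_bound le_rfl hr0
      · exact MM_bound le_rfl ((htw.lmb 0).sub h)
    obtain ⟨c, hc⟩ := IsCompact.nonempty_iInter_of_sequence_nonempty_isCompact_isClosed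
      (fun m => insert (r m) (A m)) (fun m => (hcl m).trans (subset_insert _ _))
      (fun m => ⟨_, mem_insert _ _⟩) hcomp (fun m => (htw.lmb m).cl)
    exact ⟨c, mem_iInter.2 fun m => hcl m (mem_iInter.1 hc (m + 1))⟩
  refine ⟨hne, fun hB => ?_⟩
  obtain ⟨c, hc⟩ := hne
  refine ⟨c, eq_singleton_iff_unique_mem.2 ⟨hc, fun c' hc' => ?_⟩⟩
  by_contra hcc
  have hd : 0 < ‖c' - c‖ := norm_pos_iff.2 (sub_ne_zero.2 hcc)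
  obtain ⟨m, hm⟩ := hB (2 * C2 / ‖c' - c‖ + 1)
  have hb := (hF _ _ (htw.comp m) (htw.sat m)).2 _ _ _ _ (htw.lmb m)
  have h1 := hb.2 c (mem_iInter.1 hc m)
  have h2 := hb.2 c' (mem_iInter.1 hc' m)
  have hKp : (0 : ℝ) < (K m : ℝ) ^ 10 := by
    have : (0 : ℝ) < K m := by exact_mod_cast (htw.comp m).hK
    positivity
  have hq0 : (0 : ℝ) ≤ q m := Nat.cast_nonneg _
  have h3 : ‖c' - c‖ ≤ ‖c' - r m‖ + ‖c - r m‖ := by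
    have e : c' - c = (c' - r m) - (c - r m) := by ring
    rw [e]
    exact norm_sub_le _ _
  have h4 : ‖c' - c‖ * q m ≤ 2 * (C2 * (K m : ℝ) ^ 10) := by
    calc ‖c' - c‖ * q m ≤ (‖c' - r m‖ + ‖c - r m‖) * q m :=
          mul_le_mul_of_nonneg_right h3 hq0
      _ ≤ _ := by rw [add_mul]; linarith
  have h5 : ‖c' - c‖ * ((2 * C2 / ‖c' - c‖ + 1) * (K m : ℝ) ^ 10) ≤ ‖c' - c‖ * q m :=
    mul_le_mul_of_nonneg_left hm hd.le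
  have h6 : ‖c' - c‖ * ((2 * C2 / ‖c' - c‖ + 1) * (K m : ℝ) ^ 10) =
      2 * (C2 * (K m : ℝ) ^ 10) + ‖c' - c‖ * (K m : ℝ) ^ 10 := by
    field_simp
  have h7 : 0 < ‖c' - c‖ * (K m : ℝ) ^ 10 := mul_pos hd hKp
  linarith

namespace TWR_

open NXS_

/-- the cycle at the root of a limb -/
lemma lim_pt (hCST : T_CST) (hCMG : T_CMG) {K p q : ℕ} {P : ℂ → ℂ} {r : ℂ} (hP : Comp K P)
    (hp : 0 < p) (hpq : p < q)
    (hlim : Tendsto P (𝓝[Metric.ball 0 1] (exp (2 * Real.pi * I * p / q))) (𝓝 r)) :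
    ∃ z : ℂ, Pt 2 K r z (exp (2 * Real.pi * I * p / q)) := by
  obtain ⟨C1, hC1, hcst⟩ := hCST
  obtain ⟨Ψ, ZZ, hG, hPΨ⟩ := hCMG C1 K P hC1 hcst.nc hP
  have hK1 := hP.hK
  have hKR : (1 : ℝ) ≤ K := by exact_mod_cast hK1
  obtain ⟨κ, hκ'⟩ : ∃ κ : ℝ, κ = 1 / (C1 * K) := ⟨_, rfl⟩
  rw [← hκ'] at hG
  have hκ : 0 < κ := by rw [hκ']; positivity
  obtain ⟨hDo, -, -, -⟩ := Pool.Agent.MEY.p_DDO Pool.Agent.MEY.p_OMG 2 1 κ le_rfl hκ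
  obtain ⟨v0, hv0⟩ : ∃ v0 : ℂ, v0 = exp (2 * Real.pi * I * p / q) := ⟨_, rfl⟩
  rw [← hv0] at hlim ⊢
  have hv1 : ‖v0‖ = 1 := by rw [hv0]; exact rot_norm p q
  have hvne : v0 ≠ 1 := by rw [hv0]; exact rot_ne_one hp hpq
  have hvD : v0 ∈ DD 2 1 κ := by
    right
    have h1 := GEX_.omg_log hκ (by rw [hv0]; exact exp_ne_zero _) hv1.le hvne
    have h2 : (((2 - 1 : ℕ) : ℂ)) * log v0 = log v0 := by
      norm_num
    rw [h2]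
    exact h1
  have hpt : Pt 2 K (Ψ v0) (ZZ v0) v0 := by
    have h1 := hG.pt v0 hvD
    rwa [show (2 - 1 : ℕ) = 1 from rfl, pow_one] at h1
  have hnb : (𝓝[Metric.ball (0 : ℂ) 1] v0).NeBot := by
    apply mem_closure_iff_nhdsWithin_neBot.1
    rw [closure_ball (0 : ℂ) one_ne_zero, mem_closedBall_zero_iff, hv1]
  have h1 : Tendsto Ψ (𝓝[Metric.ball 0 1] v0) (𝓝 (Ψ v0)) :=
    ((hG.dΨ.differentiableAt (hDo.mem_nhds hvD)).continuousAt.tendsto).mono_left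
      nhdsWithin_le_nhds
  have h2 : Tendsto P (𝓝[Metric.ball 0 1] v0) (𝓝 (Ψ v0)) := by
    refine h1.congr' ?_
    filter_upwards [self_mem_nhdsWithin] with v hv
    exact (hPΨ v hv).symm
  rw [tendsto_nhds_unique hlim h2]
  exact ⟨ZZ v0, hpt⟩

end TWR_

open TWR_ NXS_ in
theorem p_TWR (hCST : T_CST) (hCMG : T_CMG) (hRNE : T_RNE) : T_TWR := by
  intro K p q P r A h1 h2 h3 h4 h5 h6 h7
  refine ⟨h1, h2, h3, h4, h5, h6, h7, fun m => ?_⟩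
  obtain ⟨z, hz⟩ := lim_pt hCST hCMG (h1 (m + 1)) (h4 (m + 1)).hp (h4 (m + 1)).hpq
    (h4 (m + 1)).lim
  have hne := root_ne hRNE (h2 (m + 1)) (h5 m) hz
  have h8 : r (m + 1) ∈ closure (P (m + 1) '' Metric.ball (0 : ℂ) 1) := root_cl (h4 (m + 1))
  have h9 : closure (P (m + 1) '' Metric.ball (0 : ℂ) 1) ⊆ insert (r m) (A m) := by
    refine closure_minimal ?_ (h4 m).cl
    rintro _ ⟨v, hv', rfl⟩
    exact mem_insert_of_mem _ (h6 m v hv')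
  rcases h9 h8 with h | h
  · exact absurd h hne
  · exact h

end Pool.Agent.PSat
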