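import Pool.Agent.PSat.Basic

/-!
# PSAT, VPS: points of `V` near `m0`
-/

set_option autoImplicit false

open Complex Filter Topology Set
open Pool.Agent.Multibrot (MM)
open Pool.Agent.Limb (F)
open Pool.Agent.PLim (Rho IsBot IsLog Crit Dig Gm GWL Rot IsInt Label lab Ex Cod Per Lands InZ LabR
  Vreg ZVn ONTOn NCn OMXn SECTn LocFix OmR Disp)
open Pool.Agent.MEX (Exa LI)
open Pool.Agent.MEY (Pt Omg DD Glob)

namespace Pool.Agent.PSat

namespace VPS_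

/-- a function with derivative `-D` at a point of value one is smaller than one on the right -/
lemma small {L : ℂ → ℂ} {a : ℂ} {D : ℝ} (hD : 0 < D) (h : HasDerivAt L (-(D : ℂ)) a)
    (h0 : L a = 1) : ∃ s0 : ℝ, 0 < s0 ∧ ∀ s : ℝ, 0 < s → s < s0 → ‖L (a + s)‖ < 1 := by
  have h1 := (hasDerivAt_iff_isLittleO.1 h).def (show (0 : ℝ) < D / 2 by linarith)
  obtain ⟨δ, hδ, hδ'⟩ := Metric.eventually_nhds_iff_ball.mp h1
  refine ⟨min δ (1 / D), lt_min hδ (by positivity), fun s hs hs0 => ?_⟩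
  have hsδ : s < δ := lt_of_lt_of_le hs0 (min_le_left _ _)
  have hsD : s < 1 / D := lt_of_lt_of_le hs0 (min_le_right _ _)
  have hsD' : D * s < 1 := by
    rw [lt_div_iff₀ hD] at hsD
    linarith
  have hn : ‖((s : ℝ) : ℂ)‖ = s := by
    rw [norm_real, Real.norm_eq_abs, abs_of_pos hs]
  have h2 := hδ' (a + s) (by
    rw [mem_ball_iff_norm, add_sub_cancel_left, hn]
    exact hsδ)
  rw [add_sub_cancel_left, hn, h0, smul_eq_mul] at h2
  have h3 : L (a + s) = (L (a + s) - 1 - (s : ℂ) * (-(D : ℂ))) + ((1 - D * s : ℝ) : ℂ) := by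
    push_cast
    ring
  have h4 : ‖((1 - D * s : ℝ) : ℂ)‖ = 1 - D * s := by
    rw [norm_real, Real.norm_eq_abs, abs_of_pos (by linarith)]
  rw [h3]
  calc _ ≤ ‖L (a + s) - 1 - (s : ℂ) * (-(D : ℂ))‖ + ‖((1 - D * s : ℝ) : ℂ)‖ := norm_add_le _ _
    _ ≤ D / 2 * s + (1 - D * s) := by rw [h4]; linarith
    _ < 1 := by nlinarith

/-- the parameters on the right of `m0` are in the Mandelbrot set -/
lemma att (hLBC : T_LBC) {X : Ctx} (hX : Dt X) :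
    ∃ s0 : ℝ, 0 < s0 ∧ ∀ s : ℝ, 0 < s → s < s0 → X.ψ (X.m0 + s) ∈ MM 2 := by
  obtain ⟨R, r, g, L, -, -, hB⟩ := hLBC X hX 1 one_pos
  have hq : (0 : ℝ) < (X.q : ℝ) ^ 2 := by
    have := hX.hq
    have h1 : (0 : ℝ) < X.q := by exact_mod_cast (by omega : 0 < X.q)
    positivity
  have hd : HasDerivAt L (-(((X.q : ℝ) ^ 2 : ℝ) : ℂ)) X.m0 := by
    have h1 := (hB.dL.differentiableAt (Metric.ball_mem_nhds _ hB.hR)).hasDerivAt
    rw [hB.L1] at h1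
    have e : (-(((X.q : ℝ) ^ 2 : ℝ) : ℂ)) = -(X.q : ℂ) ^ 2 := by push_cast; ring
    rw [e]
    exact h1
  obtain ⟨s1, hs1, h1⟩ := small hq hd hB.L0
  obtain ⟨δ, hδ, h2⟩ := hB.surj
  refine ⟨min s1 δ, lt_min hs1 hδ, fun s hs hs0 => ?_⟩
  have hn : ‖((s : ℝ) : ℂ)‖ = s := by
    rw [norm_real, Real.norm_eq_abs, abs_of_pos hs]
  obtain ⟨z, hz, hz0, hgz⟩ := h2 (X.m0 + s) (by
    intro h
    have h3 : (s : ℂ) = 0 := by
      have := congrArg (fun x => x - X.m0) h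
      simpa using this
    rw [h3, norm_zero] at hn
    linarith) (by
    rw [add_sub_cancel_left, hn]
    exact lt_of_lt_of_le hs0 (min_le_right _ _))
  have h3 := hB.pt z hz hz0
  rw [hgz] at h3
  refine Pool.Agent.PLim.a_MMA 2 X.K (X.ψ (X.m0 + s)) z le_rfl hX.hK1 h3.fix ?_
  rw [h3.mul]
  exact h1 s hs (lt_of_lt_of_le hs0 (min_le_left _ _))

/-- from level `k` to level `k q` -/
lemma up {k q : ℕ} {Λ : ℂ → ℂ → ℂ} {c z w : ℂ} (hk : 1 ≤ k) (hq : 1 ≤ q) (hΛ : IsBot 2 Λ)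
    (hc : c ∈ MM 2) (hz : (F 2 c)^[k] z = z) (hrep : 1 < ‖Rho 2 k c z‖)
    (hw : IsPrimitiveRoot w q) (h : OmR 2 k Λ c z w) : OmR 2 (k * q) Λ c z 1 := by
  obtain ⟨α, q', v, hE, hL, hD, hv⟩ := h
  obtain ⟨v1, -, hv1, huniq⟩ := Pool.Agent.PLim.a_DISPE 2 k q' Λ c z α le_rfl hk hE.1 hΛ hc hE.2.1
    hL hz hrep
  have hvv := huniq v hD
  have hq'0 : (q' : ℂ) ≠ 0 := by
    have := hE.1
    exact_mod_cast (by omega : q' ≠ 0)
  have hwq : w ^ q' = 1 := by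
    have e1 : exp v = (Rho 2 k c z * w) ^ q' := by
      rw [← hv, ← Complex.exp_nat_mul]
      congr 1
      field_simp
    rw [mul_pow, ← hv1, ← hvv] at e1
    have e2 : exp v * w ^ q' = exp v * 1 := by rw [mul_one]; exact e1.symm
    exact mul_left_cancel₀ (exp_ne_zero v) e2
  obtain ⟨q'', rfl⟩ := hw.dvd_of_pow_eq_one q' hwq
  have hq''0 : 1 ≤ q'' := by
    rcases Nat.eq_zero_or_pos q'' with h0 | h0
    · rw [h0] at hE
      have := hE.1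
      omega
    · exact h0
  refine ⟨α, q'', v, ⟨hq''0, ?_, ?_⟩, hL, ?_, ?_⟩
  · have := hE.2.1
    rw [mul_assoc]
    exact this
  · intro q3 h1 h2
    have h3 := hE.2.2 (q * q3) (Nat.one_le_iff_ne_zero.2 (by positivity))
      (Nat.mul_lt_mul_of_pos_left h2 (by omega))
    rw [mul_assoc]
    exact h3
  · obtain ⟨L, h1, h2, h3⟩ := hD
    refine ⟨L, h1, h2, ?_⟩
    rw [mul_assoc]
    exact h3
  · rw [rho_mul hz, mul_one]
    have e1 : exp (v / q'') = exp (v / ((q * q'' : ℕ) : ℂ)) ^ q := by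
      rw [← Complex.exp_nat_mul]
      congr 1
      have h1 : (q : ℂ) ≠ 0 := by exact_mod_cast (by omega : q ≠ 0)
      have h2 : (q'' : ℂ) ≠ 0 := by exact_mod_cast (by omega : q'' ≠ 0)
      push_cast
      field_simp
    rw [e1, hv, mul_pow, hw.pow_eq_one, mul_one]

/-- the root of unity at one point, with the bound for the logarithm -/
lemma one {X : Ctx} (hX : Dt X) (hC : Cst X.C1) {s : ℝ} (hs : 0 < s) (hsρ : s < X.ρ)
    (hM : X.ψ (X.m0 + s) ∈ MM 2) :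
    ∃ w : ℂ, OmR 2 X.k X.Λ (X.ψ (X.m0 + s)) (X.χ (X.m0 + s)) w ∧
      (∀ w' : ℂ, OmR 2 X.k X.Λ (X.ψ (X.m0 + s)) (X.χ (X.m0 + s)) w' → w' = w) ∧
      ∃ ν : ℂ, exp ν = exp (X.m0 + s) * w ∧ ‖ν‖ ^ 2 ≤ X.C1 * X.k * s := by
  have hn : ‖((s : ℝ) : ℂ)‖ = s := by
    rw [norm_real, Real.norm_eq_abs, abs_of_pos hs]
  have hb : X.m0 + s ∈ Metric.ball X.m0 (2 * X.ρ) := by
    rw [mem_ball_iff_norm, add_sub_cancel_left, hn]
    linarith
  have hre : (X.m0 + s).re = s := by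
    rw [add_re, m0_re, ofReal_re, zero_add]
  have hp := hX.pt _ hb
  obtain ⟨w, hw, huniq, -, q', ν, hq', hwq, hν, hνn⟩ := hC.omx X.k X.Λ (X.ψ (X.m0 + s))
    (X.χ (X.m0 + s)) hX.hk hX.bot hM hp.fix (hX.rep hb (by rw [hre]; exact hs))
  refine ⟨w, hw, huniq, ν, ?_, ?_⟩
  · rw [hν, hp.mul]
  · have hw1 : ‖w‖ = 1 := norm_eq_one_of_pow_eq_one hwq (by omega)
    have h1 : Real.exp ν.re = Real.exp s := by
      rw [← norm_exp, hν, hp.mul, norm_mul, hw1, mul_one, norm_exp, hre]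
    rw [Real.exp_eq_exp.1 h1] at hνn
    have hq1 : (1 : ℝ) ≤ q' := by exact_mod_cast hq'
    have hC1 := hX.hC
    have hk0 : (0 : ℝ) ≤ X.k := Nat.cast_nonneg _
    have h2 : X.C1 * X.k / q' ≤ X.C1 * X.k := div_le_self (by positivity) hq1
    exact hνn.trans (mul_le_mul_of_nonneg_right h2 hs.le)

/-- the curve on the right of `m0` is continuous -/
lemma cts {X : Ctx} (hX : Dt X) {s : ℝ} (hs : 0 < s) (hsρ : s < X.ρ) :
    ContinuousAt (fun t : ℝ => X.ψ (X.m0 + t)) s ∧ ContinuousAt (fun t : ℝ => X.χ (X.m0 + t)) s := by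
  have hn : ‖((s : ℝ) : ℂ)‖ = s := by
    rw [norm_real, Real.norm_eq_abs, abs_of_pos hs]
  have hb : X.m0 + s ∈ Metric.ball X.m0 (2 * X.ρ) := by
    rw [mem_ball_iff_norm, add_sub_cancel_left, hn]
    linarith
  have h1 : ContinuousAt (fun t : ℝ => X.m0 + (t : ℂ)) s :=
    (continuous_const.add continuous_ofReal).continuousAt
  exact ⟨ContinuousAt.comp (f := fun t : ℝ => X.m0 + (t : ℂ)) (g := X.ψ) (hX.psi_cont hb) h1,
    ContinuousAt.comp (f := fun t : ℝ => X.m0 + (t : ℂ)) (g := X.χ) (hX.chi_cont hb) h1⟩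

/-- the root of unity is `exp (-m0)` -/
lemma omr {X : Ctx} (hX : Dt X) (hC : Cst X.C1) {s1 : ℝ} (h1ρ : s1 ≤ X.ρ)
    (hM : ∀ s : ℝ, 0 < s → s < s1 → X.ψ (X.m0 + s) ∈ MM 2) {s : ℝ} (hs : 0 < s) (hs1 : s < s1) :
    OmR 2 X.k X.Λ (X.ψ (X.m0 + s)) (X.χ (X.m0 + s)) (exp (-X.m0)) := by
  have key : ∀ t : ℝ, t ∈ Ioo 0 s1 → ∃ w : ℂ,
      OmR 2 X.k X.Λ (X.ψ (X.m0 + t)) (X.χ (X.m0 + t)) w ∧
      (∀ w' : ℂ, OmR 2 X.k X.Λ (X.ψ (X.m0 + t)) (X.χ (X.m0 + t)) w' → w' = w) ∧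
      ∃ ν : ℂ, exp ν = exp (X.m0 + t) * w ∧ ‖ν‖ ^ 2 ≤ X.C1 * X.k * t := fun t ht =>
    one hX hC ht.1 (lt_of_lt_of_le ht.2 h1ρ) (hM t ht.1 ht.2)
  choose! om hom huniq ν hν hνn using key
  -- local constancy
  have hloc : ∀ t ∈ Ioo 0 s1, ∀ᶠ u in 𝓝[Ioo 0 s1] t, om t = om u := by
    intro t ht
    have hn : ‖((t : ℝ) : ℂ)‖ = t := by
      rw [norm_real, Real.norm_eq_abs, abs_of_pos ht.1]
    have hb : X.m0 + t ∈ Metric.ball X.m0 (2 * X.ρ) := by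
      rw [mem_ball_iff_norm, add_sub_cancel_left, hn]
      linarith [ht.1, ht.2]
    have hre : (X.m0 + t).re = t := by
      rw [add_re, m0_re, ofReal_re, zero_add]
    obtain ⟨δ, hδ, hδ'⟩ := Pool.Agent.PLim.a_OMC 2 X.k X.Λ (X.ψ (X.m0 + t)) (X.χ (X.m0 + t)) (om t)
      le_rfl hX.hk hX.bot (hM t ht.1 ht.2) (hX.pt _ hb).fix (hX.rep hb (by rw [hre]; exact ht.1))
      (hom t ht)
    obtain ⟨c1, c2⟩ := cts hX ht.1 (lt_of_lt_of_le ht.2 h1ρ)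
    have e1 : ∀ᶠ u : ℝ in 𝓝[Ioo 0 s1] t, ‖X.ψ (X.m0 + u) - X.ψ (X.m0 + t)‖ < δ := by
      have h2 := Metric.tendsto_nhds.1 c1 δ hδ
      simp only [dist_eq_norm] at h2
      exact nhdsWithin_le_nhds h2
    have e2 : ∀ᶠ u : ℝ in 𝓝[Ioo 0 s1] t, ‖X.χ (X.m0 + u) - X.χ (X.m0 + t)‖ < δ := by
      have h2 := Metric.tendsto_nhds.1 c2 δ hδ
      simp only [dist_eq_norm] at h2
      exact nhdsWithin_le_nhds h2
    filter_upwards [e1, e2, self_mem_nhdsWithin] with u h2 h3 hu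
    have hnu : ‖((u : ℝ) : ℂ)‖ = u := by
      rw [norm_real, Real.norm_eq_abs, abs_of_pos hu.1]
    have hbu : X.m0 + u ∈ Metric.ball X.m0 (2 * X.ρ) := by
      rw [mem_ball_iff_norm, add_sub_cancel_left, hnu]
      linarith [hu.1, hu.2]
    exact huniq u hu _ (hδ' _ _ (hM u hu.1 hu.2) h2 h3 (hX.pt _ hbu).fix)
  have hconst : ∀ t ∈ Ioo 0 s1, om s = om t := fun t ht =>
    isPreconnected_Ioo.induction₂ (fun x y => om x = om y) hloc
      (fun x y z _ _ _ h1 h2 => h1.trans h2) (fun x y _ _ h => h.symm) ⟨hs, hs1⟩ ht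
  -- the limit
  have hs1' : 0 < s1 := hs.trans hs1
  have hmem : Ioo 0 s1 ∈ 𝓝[>] (0 : ℝ) := Ioo_mem_nhdsGT hs1'
  have hν0 : Tendsto ν (𝓝[>] 0) (𝓝 0) := by
    rw [tendsto_zero_iff_norm_tendsto_zero]
    have h2 : Tendsto (fun t : ℝ => Real.sqrt (X.C1 * X.k * t)) (𝓝[>] 0) (𝓝 0) := by
      have h3 : ContinuousAt (fun t : ℝ => Real.sqrt (X.C1 * X.k * t)) 0 := by fun_prop
      have h4 := h3.tendsto
      rw [mul_zero, Real.sqrt_zero] at h4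
      exact h4.mono_left nhdsWithin_le_nhds
    refine tendsto_of_tendsto_of_tendsto_of_le_of_le' tendsto_const_nhds h2
      (Eventually.of_forall fun t => norm_nonneg _) ?_
    filter_upwards [hmem] with t ht
    exact Real.le_sqrt_of_sq_le (hνn t ht)
  have ha : Tendsto (fun t : ℝ => exp (ν t)) (𝓝[>] 0) (𝓝 1) := by
    have h2 := (continuous_exp.tendsto (0 : ℂ)).comp hν0
    rw [exp_zero] at h2
    exact h2
  have hb : Tendsto (fun t : ℝ => exp (ν t)) (𝓝[>] 0) (𝓝 (exp X.m0 * om s)) := by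
    have h3 : ContinuousAt (fun t : ℝ => exp (X.m0 + t) * om s) 0 := by fun_prop
    have h4 := h3.tendsto
    rw [ofReal_zero, add_zero] at h4
    refine (h4.mono_left nhdsWithin_le_nhds).congr' ?_
    filter_upwards [hmem] with t ht
    rw [hν t ht, hconst t ht]
  have h5 := tendsto_nhds_unique ha hb
  have h6 : om s = exp (-X.m0) := by
    rw [Complex.exp_neg]
    exact (inv_eq_of_mul_eq_one_right h5.symm).symm
  rw [← h6]
  exact hom s ⟨hs, hs1⟩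

end VPS_

theorem p_VPS (hLBC : T_LBC) : T_VPS := by
  intro X hX hC
  obtain ⟨s0, hs0, hM⟩ := VPS_.att hLBC hX
  refine ⟨min s0 X.ρ, lt_min hs0 hX.hρ, fun s hs hs1 => ?_⟩
  have hM1 : ∀ t : ℝ, 0 < t → t < min s0 X.ρ → X.ψ (X.m0 + t) ∈ MM 2 := fun t h1 h2 =>
    hM t h1 (lt_of_lt_of_le h2 (min_le_left _ _))
  have h1 := VPS_.omr hX hC (min_le_right _ _) hM1 hs hs1
  have hn : ‖((s : ℝ) : ℂ)‖ = s := by
    rw [norm_real, Real.norm_eq_abs, abs_of_pos hs]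
  have hsρ : s < X.ρ := lt_of_lt_of_le hs1 (min_le_right _ _)
  have hb : X.m0 + s ∈ Metric.ball X.m0 X.ρ := by
    rw [mem_ball_iff_norm, add_sub_cancel_left, hn]
    exact hsρ
  have hre : (X.m0 + s).re = s := by
    rw [add_re, m0_re, ofReal_re, zero_add]
  have hprim : IsPrimitiveRoot (exp (-X.m0)) X.q := by
    have hq := hX.hq
    have h2 := (Complex.isPrimitiveRoot_exp_of_coprime X.p X.q (by omega) hX.cop).inv
    rw [← Complex.exp_neg] at h2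
    have e : -(2 * Real.pi * I * ((X.p : ℂ) / X.q)) = -X.m0 := by
      unfold Ctx.m0
      push_cast
      ring
    rwa [e] at h2
  have hq := hX.hq
  refine ⟨⟨hb, by rw [hre]; exact hs, Or.inl ⟨hM1 s hs hs1, ?_⟩⟩, hM1 s hs hs1⟩
  exact VPS_.up hX.hk (by omega) hX.bot (hM1 s hs hs1) (hX.pt _ (hX.sub2 hb)).fix
    (hX.rep (hX.sub2 hb) (by rw [hre]; exact hs)) hprim h1

end Pool.Agent.PSat
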